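import Pool.Agent.Helper6.TOP.Br2

set_option autoImplicit false
set_option linter.all false
set_option maxRecDepth 100000

namespace Pool.Agent.TOPR.R6078

open Helper10.PC hiding V3
open Helper80.CW.DL Pool.Agent.Helper6.TOP

/-- `p` scaled by `2 ^ mu`, degree in `p` at most `dp`, degree in `u` at most `Kd` -/
def mu : ℕ := 12
def dp : ℕ := 6
def Kd : ℕ := 10

/-- exponents of `u` -/
def AL : List Al := [(0, 0, 0), (0, 0, 2), (0, 0, 4), (0, 0, 5), (0, 0, 6), (0, 0, 7), (0, 0, 8), (0, 0, 9), (0, 0, 10), (0, 1, 1), (0, 1, 3), (0, 1, 4), (0, 1, 5), (0, 1, 6), (0, 1, 7), (0, 1, 8), (0, 1, 9), (0, 2, 0), (0, 2, 2), (0, 2, 3), (0, 2, 4), (0, 2, 5), (0, 2, 6), (0, 2, 7), (0, 2, 8), (0, 3, 1), (0, 3, 2), (0, 3, 3), (0, 3, 4), (0, 3, 5), (0, 3, 6), (0, 3, 7), (0, 4, 0), (0, 4, 1), (0, 4, 2), (0, 4, 3), (0, 4, 4), (0, 4, 5), (0, 4, 6), (0, 5, 0), (0, 5, 1), (0, 5, 2), (0, 5, 3), (0, 5, 4), (0, 5, 5), (0, 6, 0), (0, 6, 1), (0, 6, 2), (0, 6, 3), (0, 6, 4), (0, 7, 0),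 (0, 7, 1), (0, 7, 2), (0, 7, 3), (0, 8, 0), (0, 8, 1), (0, 8, 2), (0, 9, 0), (0, 9, 1), (0, 10, 0), (1, 0, 3), (1, 0, 4), (1, 0, 5), (1, 0, 6), (1, 0, 7), (1, 0, 8), (1, 0, 9), (1, 1, 2), (1, 1, 3), (1, 1, 4), (1, 1, 5), (1, 1, 6), (1, 1, 7), (1, 1, 8), (1, 2, 1), (1, 2, 2), (1, 2, 3), (1, 2, 4), (1, 2, 5), (1, 2, 6), (1, 2, 7), (1, 3, 0), (1, 3, 1), (1, 3, 2), (1, 3, 3), (1, 3, 4), (1, 3, 5), (1, 3, 6), (1, 4, 0), (1, 4, 1), (1, 4, 2), (1, 4, 3), (1, 4, 4), (1, 4, 5), (1, 5, 0), (1, 5, 1), (1, 5, 2), (1, 5, 3), (1, 5, 4), (1, 6, 0), (1, 6, 1), (1, 6, 2), (1, 6, 3), (1, 7, 0), (1, 7, 1), (1, 7, 2), (1, 8, 0), (1, 8, 1), (1, 9, 0), (2, 0, 0), (2, 0, 2), (2, 0, 3), (2, 0, 4), (2, 0, 5), (2, 0, 6), (2, 0, 7), (2, 0, 8), (2, 1, 1), (2, 1, 2), (2, 1, 3), (2, 1, 4), (2, 1, 5), (2, 1, 6), (2, 1, 7), (2, 2, 0), (2, 2, 1), (2, 2, 2), (2, 2, 3), (2, 2, 4), (2, 2, 5), (2, 2, 6), (2, 3, 0), (2, 3, 1), (2, 3, 2), (2, 3, 3), (2, 3, 4), (2, 3, 5), (2, 4, 0), (2, 4, 1),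 (2, 4, 2), (2, 4, 3), (2, 4, 4), (2, 5, 0), (2, 5, 1), (2, 5, 2), (2, 5, 3), (2, 6, 0), (2, 6, 1), (2, 6, 2), (2, 7, 0), (2, 7, 1), (2, 8, 0), (3, 0, 1), (3, 0, 2), (3, 0, 3), (3, 0, 4), (3, 0, 5), (3, 0, 6), (3, 0, 7), (3, 1, 0), (3, 1, 1), (3, 1, 2), (3, 1, 3), (3, 1, 4), (3, 1, 5), (3, 1, 6), (3, 2, 0), (3, 2, 1), (3, 2, 2), (3, 2, 3), (3, 2, 4), (3, 2, 5), (3, 3, 0), (3, 3, 1), (3, 3, 2), (3, 3, 3), (3, 3, 4), (3, 4, 0), (3, 4, 1), (3, 4, 2), (3, 4, 3), (3, 5, 0), (3, 5, 1), (3, 5, 2), (3, 6, 0), (3, 6, 1), (3, 7, 0), (4, 0, 0), (4, 0, 1), (4, 0, 2), (4, 0, 3), (4, 0, 4), (4, 0, 5), (4, 0, 6), (4, 1, 0), (4, 1, 1), (4, 1, 2), (4, 1, 3), (4, 1, 4), (4, 1, 5), (4, 2, 0), (4, 2, 1), (4, 2, 2), (4, 2, 3), (4, 2, 4), (4, 3, 0), (4, 3, 1), (4, 3, 2), (4, 3, 3), (4, 4, 0), (4, 4, 1), (4, 4, 2), (4, 5, 0), (4, 5, 1), (4, 6, 0), (5, 0, 0), (5, 0, 1), (5, 0, 2), (5, 0, 3), (5, 0, 4), (5, 0, 5), (5, 1, 0), (5, 1, 1), (5, 1, 2), (5, 1, 3), (5, 1, 4), (5, 2, 0),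 (5, 2, 1), (5, 2, 2), (5, 2, 3), (5, 3, 0), (5, 3, 1), (5, 3, 2), (5, 4, 0), (5, 4, 1), (5, 5, 0), (6, 0, 0), (6, 0, 1), (6, 0, 2), (6, 0, 3), (6, 0, 4), (6, 1, 0), (6, 1, 1), (6, 1, 2), (6, 1, 3), (6, 2, 0), (6, 2, 1), (6, 2, 2), (6, 3, 0), (6, 3, 1), (6, 4, 0), (7, 0, 0), (7, 0, 1), (7, 0, 2), (7, 0, 3), (7, 1, 0), (7, 1, 1), (7, 1, 2), (7, 2, 0), (7, 2, 1), (7, 3, 0), (8, 0, 0), (8, 0, 1), (8, 0, 2), (8, 1, 0), (8, 1, 1), (8, 2, 0), (9, 0, 0), (9, 0, 1), (9, 1, 0), (10, 0, 0)]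


def lQp_0 : List (T ℤ) := [(P (nat_lit 5034231565398356583608483840000)), (P (nat_lit 0)), (T.h (T.h (T.h (M (nat_lit 470961987125908346733519175679)) (T.h (P (nat_lit 0)) (T.h (P (nat_lit 57899600867765543501824)) (T.h (P (nat_lit 0)) (M (nat_lit 846434129254809599)))))) (T.h (P (nat_lit 0)) (T.h (T.h (M (nat_lit 1942057638129030519586815)) (T.h (P (nat_lit 0)) (P (nat_lit 1192941709491699712)))) (T.h (P (nat_lit 0)) (M (nat_lit 3371299736341446655)))))) (T.h (T.h (P (nat_lit 0)) (T.h (T.h (P (nat_lit 0)) (T.h (P (nat_lit 538075358818507685888)) (T.h (P (nat_lit 0)) (M (nat_lit 1583080657387519))))) (T.h (P (nat_lit 0)) (T.h (T.h (P (nat_lit 0)) (M (nat_lit 598511274688511))) (P (nat_lit 0)))))) (T.h (T.h (T.h (M (nat_lit 1942057638129030519586815)) (T.h (P (nat_lit 0)) (P (nat_lit 1192941709491699712)))) (T.h (P (nat_lit 0)) (M (nat_lit 556449493575270399)))) (T.h (T.h (P (nat_lit 0)) (T.h (T.h (P (nat_lit 0)) (M (nat_lit 598511274688511))) (P (nat_lit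 0)))) (M (nat_lit 3371299736341446655)))))), (T.h (T.h (T.h (P (nat_lit 0)) (T.h (P (nat_lit 12556200628884101627117568)) (T.h (P (nat_lit 0)) (T.h (M (nat_lit 961368688894572232703)) (T.h (P (nat_lit 0)) (M (nat_lit 520789253947391))))))) (T.h (P (nat_lit 0)) (T.h (T.h (P (nat_lit 0)) (T.h (M (nat_lit 206023718593120698367)) (T.h (P (nat_lit 0)) (M (nat_lit 3263992765448191))))) (T.h (P (nat_lit 0)) (T.h (T.h (P (nat_lit 0)) (M (nat_lit 882307154673663))) (P (nat_lit 0))))))) (T.h (T.h (P (nat_lit 0)) (T.h (T.h (M (nat_lit 836226289139926597369855)) (T.h (P (nat_lit 0)) (P (nat_lit 4835318243637854208)))) (T.h (P (nat_lit 0)) (P (nat_lit 1936904125291692032))))) (T.h (T.h (T.h (P (nat_lit 0)) (T.h (M (nat_lit 206023718593120698367)) (T.h (P (nat_lit 0)) (M (nat_lit 3263992765448191))))) (T.h (P (nat_lit 0)) (T.h (T.h (P (nat_lit 0)) (M (nat_lit 9472520804892671))) (P (nat_lit 0))))) (T.h (T.h (P (nat_lit 0)) (P (nat_lit 1936904125291692032))) (T.h (T.h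 (T.h (P (nat_lit 0)) (M (nat_lit 882307154673663))) (P (nat_lit 0))) (P (nat_lit 0))))))), (T.h (T.h (T.h (M (nat_lit 4555771215876288499418849607679)) (T.h (P (nat_lit 0)) (T.h (P (nat_lit 1408964967221915887337472)) (T.h (P (nat_lit 0)) (M (nat_lit 547476731234091007)))))) (T.h (P (nat_lit 0)) (T.h (T.h (P (nat_lit 2197890908742290795134976)) (T.h (P (nat_lit 0)) (M (nat_lit 1418544840500576255)))) (T.h (P (nat_lit 0)) (P (nat_lit 3789748147635355648)))))) (T.h (T.h (P (nat_lit 0)) (T.h (T.h (P (nat_lit 0)) (T.h (M (nat_lit 101896397878233923583)) (T.h (P (nat_lit 0)) (P (nat_lit 2216312920342528))))) (P (nat_lit 0)))) (T.h (T.h (T.h (P (nat_lit 2197890908742290795134976)) (T.h (P (nat_lit 0)) (M (nat_lit 1418544840500576255)))) (T.h (P (nat_lit 0)) (M (nat_lit 2005410347908857855)))) (T.h (P (nat_lit 0)) (P (nat_lit 3789748147635355648)))))), (T.h (T.h (T.h (P (nat_lit 0)) (T.h (P (nat_lit 0)) (T.h (P (nat_lit 0)) (T.h (P (nat_lit 1386797677371080048640))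 (T.h (P (nat_lit 0)) (P (nat_lit 694385671929856))))))) (P (nat_lit 0))) (T.h (T.h (P (nat_lit 0)) (T.h (T.h (P (nat_lit 1093392384300308475412480)) (T.h (P (nat_lit 0)) (P (nat_lit 1945289511797784576)))) (P (nat_lit 0)))) (T.h (T.h (P (nat_lit 0)) (T.h (P (nat_lit 0)) (T.h (T.h (P (nat_lit 0)) (P (nat_lit 12630027739856896))) (P (nat_lit 0))))) (P (nat_lit 0))))), (T.h (T.h (T.h (P (nat_lit 0)) (T.h (P (nat_lit 0)) (T.h (P (nat_lit 0)) (T.h (P (nat_lit 0)) (P (nat_lit 888813660070215680)))))) (P (nat_lit 0))) (T.h (P (nat_lit 0)) (T.h (T.h (P (nat_lit 0)) (T.h (P (nat_lit 0)) (P (nat_lit 3233287101403365376)))) (P (nat_lit 0))))), (P (nat_lit 0))]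
def lQp_1 : List (T ℤ) := [(P (nat_lit 0)), (P (nat_lit 0)), (T.h (T.h (P (nat_lit 0)) (T.h (T.h (P (nat_lit 0)) (T.h (M (nat_lit 14280217490853106859114495)) (T.h (P (nat_lit 0)) (M (nat_lit 5463924327831306239))))) (T.h (P (nat_lit 0)) (T.h (T.h (P (nat_lit 0)) (P (nat_lit 3431769517741572096))) (P (nat_lit 0)))))) (T.h (T.h (T.h (P (nat_lit 2442310398557518728414625792)) (T.h (P (nat_lit 0)) (T.h (P (nat_lit 10983023708140231196672)) (T.h (P (nat_lit 0)) (M (nat_lit 664208017784831)))))) (T.h (P (nat_lit 0)) (T.h (T.h (M (nat_lit 3047215125714868109311)) (T.h (P (nat_lit 0)) (P (nat_lit 3547622079004672)))) (T.h (P (nat_lit 0)) (M (nat_lit 1626567914815487)))))) (T.h (T.h (P (nat_lit 0)) (T.h (T.h (P (nat_lit 0)) (P (nat_lit 3565072346572128256))) (P (nat_lit 0)))) (T.h (T.h (T.h (P (nat_lit 3679752308041006972928)) (T.h (P (nat_lit 0)) (M (nat_lit 1039951104770047)))) (T.h (P (nat_lit 0)) (P (nat_lit 140431119548416)))) (T.h (P (nat_lit 0)) (M (nat_lit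 11815390019583))))))), (T.h (T.h (P (nat_lit 0)) (T.h (T.h (P (nat_lit 18304896387085352232648966144)) (T.h (P (nat_lit 0)) (T.h (M (nat_lit 7520213398898532679679)) (T.h (P (nat_lit 0)) (M (nat_lit 6019960219729919)))))) (T.h (P (nat_lit 0)) (T.h (T.h (M (nat_lit 5654640754338346041343)) (T.h (P (nat_lit 0)) (M (nat_lit 5111942745948159)))) (T.h (P (nat_lit 0)) (P (nat_lit 2869922849095680))))))) (T.h (T.h (T.h (P (nat_lit 0)) (T.h (P (nat_lit 7019409435893459079659520)) (T.h (P (nat_lit 0)) (M (nat_lit 9466224910058651647))))) (T.h (P (nat_lit 0)) (T.h (T.h (P (nat_lit 0)) (M (nat_lit 2079363055329738751))) (P (nat_lit 0))))) (T.h (T.h (P (nat_lit 0)) (T.h (T.h (M (nat_lit 8117553435009748041727)) (T.h (P (nat_lit 0)) (M (nat_lit 21629963256332287)))) (T.h (P (nat_lit 0)) (M (nat_lit 1955038863065087))))) (T.h (T.h (T.h (P (nat_lit 0)) (P (nat_lit 14393325072985096192))) (P (nat_lit 0))) (T.h (T.h (P (nat_lit 0)) (P (nat_lit 3611440046374912))) (P (nat_lit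 0))))))), (T.h (T.h (P (nat_lit 0)) (T.h (T.h (P (nat_lit 0)) (T.h (P (nat_lit 11844556794739376483467264)) (T.h (P (nat_lit 0)) (M (nat_lit 2165209077553037311))))) (T.h (P (nat_lit 0)) (T.h (T.h (P (nat_lit 0)) (M (nat_lit 4179479936819527679))) (P (nat_lit 0)))))) (T.h (T.h (T.h (M (nat_lit 3147316493728592057340002303)) (T.h (P (nat_lit 0)) (T.h (M (nat_lit 18857449857395644694527)) (T.h (P (nat_lit 0)) (P (nat_lit 2925128420229120)))))) (T.h (P (nat_lit 0)) (T.h (T.h (M (nat_lit 807578637971415367679)) (T.h (P (nat_lit 0)) (M (nat_lit 11975517620469759)))) (T.h (P (nat_lit 0)) (M (nat_lit 1036859366244351)))))) (T.h (T.h (P (nat_lit 0)) (T.h (T.h (P (nat_lit 0)) (M (nat_lit 14447188899941842943))) (P (nat_lit 0)))) (T.h (T.h (T.h (M (nat_lit 3125302884072949809151)) (T.h (P (nat_lit 0)) (P (nat_lit 822254790705152)))) (T.h (P (nat_lit 0)) (M (nat_lit 652816732782591)))) (T.h (P (nat_lit 0)) (P (nat_lit 845034740580352))))))), (T.h (T.h (P (nat_lit 0))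 (T.h (T.h (M (nat_lit 18797913578495883706412040191)) (T.h (P (nat_lit 0)) (T.h (M (nat_lit 1884468549579203149823)) (T.h (P (nat_lit 0)) (P (nat_lit 6033506803122176)))))) (T.h (P (nat_lit 0)) (T.h (T.h (P (nat_lit 3679868749620923334656)) (T.h (P (nat_lit 0)) (M (nat_lit 561367280779263)))) (T.h (P (nat_lit 0)) (M (nat_lit 1873500404449279))))))) (T.h (T.h (T.h (P (nat_lit 0)) (T.h (M (nat_lit 6699686972814614291546111)) (T.h (P (nat_lit 0)) (P (nat_lit 16964788036543971328))))) (T.h (P (nat_lit 0)) (T.h (T.h (P (nat_lit 0)) (M (nat_lit 6907880395153342463))) (P (nat_lit 0))))) (T.h (T.h (P (nat_lit 0)) (T.h (T.h (M (nat_lit 831348500465235001343)) (T.h (P (nat_lit 0)) (P (nat_lit 7225292625543168)))) (T.h (P (nat_lit 0)) (M (nat_lit 799398928056319))))) (T.h (T.h (T.h (P (nat_lit 0)) (M (nat_lit 10572818619601780735))) (P (nat_lit 0))) (T.h (T.h (P (nat_lit 0)) (M (nat_lit 4698632093433855))) (P (nat_lit 0))))))), (T.h (T.h (P (nat_lit 0)) (T.h (T.h (P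 (nat_lit 0)) (T.h (M (nat_lit 2424682419920877020774399)) (T.h (P (nat_lit 0)) (P (nat_lit 6178310966397108224))))) (T.h (P (nat_lit 0)) (T.h (T.h (P (nat_lit 0)) (M (nat_lit 287420047758983167))) (P (nat_lit 0)))))) (T.h (T.h (T.h (P (nat_lit 279908450380878969705594880)) (T.h (P (nat_lit 0)) (P (nat_lit 9901917847013963071488)))) (T.h (P (nat_lit 0)) (P (nat_lit 25474099469558480896)))) (T.h (T.h (P (nat_lit 0)) (T.h (T.h (P (nat_lit 0)) (P (nat_lit 10165924027084832768))) (P (nat_lit 0)))) (M (nat_lit 2829812515106405220351))))), (P (nat_lit 0))]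
def lQp_2 : List (T ℤ) := [(P (nat_lit 0)), (P (nat_lit 0)), (T.h (T.h (T.h (M (nat_lit 231541330990421274629362417663)) (T.h (P (nat_lit 0)) (T.h (M (nat_lit 3569015244786354544967679)) (T.h (P (nat_lit 0)) (P (nat_lit 631264490440097792)))))) (T.h (P (nat_lit 0)) (T.h (T.h (M (nat_lit 3569015244786354544967679)) (T.h (P (nat_lit 0)) (M (nat_lit 40000117314756280319)))) (T.h (P (nat_lit 0)) (P (nat_lit 631264490440097792)))))) (T.h (T.h (P (nat_lit 0)) (T.h (T.h (P (nat_lit 0)) (T.h (M (nat_lit 36647654013845643460607)) (T.h (P (nat_lit 0)) (M (nat_lit 3493448433926143))))) (T.h (P (nat_lit 0)) (T.h (T.h (P (nat_lit 0)) (M (nat_lit 3493448433926143))) (P (nat_lit 0)))))) (T.h (T.h (T.h (P (nat_lit 0)) (T.h (P (nat_lit 0)) (P (nat_lit 4235541714296635392)))) (T.h (P (nat_lit 0)) (P (nat_lit 4235541714296635392)))) (T.h (T.h (P (nat_lit 0)) (T.h (T.h (P (nat_lit 0)) (M (nat_lit 6475149598654463))) (P (nat_lit 0)))) (P (nat_lit 0)))))), (T.h (T.h (T.h (P (nat_lit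 0)) (T.h (P (nat_lit 28945795319755813979670183936)) (T.h (P (nat_lit 0)) (T.h (P (nat_lit 2383344313908043186176)) (T.h (P (nat_lit 0)) (P (nat_lit 1370138480934912))))))) (T.h (P (nat_lit 0)) (T.h (T.h (P (nat_lit 0)) (T.h (M (nat_lit 22221354977772968083455)) (T.h (P (nat_lit 0)) (M (nat_lit 3402348208455679))))) (T.h (P (nat_lit 0)) (T.h (T.h (P (nat_lit 0)) (M (nat_lit 6912399820259327))) (P (nat_lit 0))))))) (T.h (T.h (P (nat_lit 0)) (T.h (T.h (M (nat_lit 8068535727787160463474687)) (T.h (P (nat_lit 0)) (M (nat_lit 43086864515571122175)))) (T.h (P (nat_lit 0)) (M (nat_lit 6315105086901059583))))) (T.h (T.h (T.h (P (nat_lit 0)) (T.h (M (nat_lit 9895294323822176501759)) (T.h (P (nat_lit 0)) (P (nat_lit 12779192124375040))))) (T.h (P (nat_lit 0)) (T.h (T.h (P (nat_lit 0)) (P (nat_lit 19258408876113920))) (P (nat_lit 0))))) (T.h (T.h (P (nat_lit 0)) (P (nat_lit 7916378194117132288))) (T.h (T.h (T.h (P (nat_lit 0)) (M (nat_lit 2847357165699071))) (P (nat_lit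 0))) (P (nat_lit 0))))))), (T.h (T.h (T.h (P (nat_lit 0)) (T.h (P (nat_lit 0)) (T.h (M (nat_lit 202648603037179402256383)) (T.h (P (nat_lit 0)) (P (nat_lit 3437973054217519104)))))) (T.h (P (nat_lit 0)) (T.h (T.h (P (nat_lit 4182641287607808107216896)) (T.h (P (nat_lit 0)) (P (nat_lit 41114478829740490752)))) (T.h (P (nat_lit 0)) (P (nat_lit 6692125328539648000)))))) (T.h (T.h (P (nat_lit 0)) (T.h (T.h (P (nat_lit 0)) (T.h (P (nat_lit 40872332593621807136768)) (T.h (P (nat_lit 0)) (P (nat_lit 5870480457662464))))) (T.h (P (nat_lit 0)) (T.h (T.h (P (nat_lit 0)) (M (nat_lit 2868643210854399))) (P (nat_lit 0)))))) (T.h (T.h (T.h (P (nat_lit 0)) (T.h (P (nat_lit 0)) (M (nat_lit 23194938038433087487)))) (T.h (P (nat_lit 0)) (M (nat_lit 2994911782943850495)))) (T.h (T.h (P (nat_lit 0)) (T.h (T.h (P (nat_lit 0)) (P (nat_lit 7058222133673984))) (P (nat_lit 0)))) (P (nat_lit 552709772135104512)))))), (T.h (T.h (T.h (P (nat_lit 0)) (T.h (M (nat_lit 28844577970459765411969761279))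 (T.h (P (nat_lit 0)) (M (nat_lit 4503094450705800364031))))) (T.h (P (nat_lit 0)) (T.h (T.h (P (nat_lit 0)) (T.h (P (nat_lit 32373734643647391989760)) (T.h (P (nat_lit 0)) (P (nat_lit 206375840382976))))) (T.h (P (nat_lit 0)) (T.h (T.h (P (nat_lit 0)) (P (nat_lit 4531447495655424))) (P (nat_lit 0))))))) (T.h (T.h (P (nat_lit 0)) (T.h (T.h (P (nat_lit 11966167736419842051276800)) (T.h (P (nat_lit 0)) (P (nat_lit 27081893713398464512)))) (T.h (P (nat_lit 0)) (M (nat_lit 2052704746300506111))))) (T.h (T.h (T.h (P (nat_lit 0)) (T.h (M (nat_lit 11022453529369638862847)) (T.h (P (nat_lit 0)) (P (nat_lit 984868572889088))))) (P (nat_lit 0))) (T.h (T.h (P (nat_lit 0)) (M (nat_lit 1048887899719729151))) (T.h (T.h (T.h (P (nat_lit 0)) (P (nat_lit 2527009741733888))) (P (nat_lit 0))) (P (nat_lit 0))))))), (T.h (T.h (T.h (M (nat_lit 14562162258249013777924918083583)) (T.h (P (nat_lit 0)) (T.h (M (nat_lit 5400635009370655693996031)) (T.h (P (nat_lit 0)) (P (nat_lit 1544577741599277056))))))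 (T.h (P (nat_lit 0)) (T.h (T.h (P (nat_lit 1586501907438543587770368)) (T.h (P (nat_lit 0)) (M (nat_lit 272633426224349183)))) (T.h (P (nat_lit 0)) (M (nat_lit 1238029958807289855)))))) (T.h (T.h (P (nat_lit 0)) (T.h (T.h (P (nat_lit 0)) (P (nat_lit 14866527205867955159040))) (P (nat_lit 0)))) (T.h (T.h (T.h (M (nat_lit 472108168470894989017087)) (T.h (P (nat_lit 0)) (P (nat_lit 2606053976117870592)))) (T.h (P (nat_lit 0)) (M (nat_lit 613938376747253759)))) (T.h (P (nat_lit 0)) (M (nat_lit 555935322035191807)))))), (P (nat_lit 0))]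
def lQp_3 : List (T ℤ) := [(P (nat_lit 0)), (T.h (T.h (P (nat_lit 0)) (T.h (T.h (P (nat_lit 0)) (T.h (M (nat_lit 14280217490853106859114495)) (T.h (P (nat_lit 0)) (P (nat_lit 3431769517741572096))))) (T.h (P (nat_lit 0)) (T.h (T.h (P (nat_lit 0)) (M (nat_lit 5463924327831306239))) (P (nat_lit 0)))))) (T.h (T.h (T.h (P (nat_lit 2442310398557518728414625792)) (T.h (P (nat_lit 0)) (T.h (M (nat_lit 3047215125714868109311)) (T.h (P (nat_lit 0)) (M (nat_lit 1626567914815487)))))) (T.h (P (nat_lit 0)) (T.h (T.h (P (nat_lit 10983023708140231196672)) (T.h (P (nat_lit 0)) (P (nat_lit 3547622079004672)))) (T.h (P (nat_lit 0)) (M (nat_lit 664208017784831)))))) (T.h (T.h (P (nat_lit 0)) (T.h (T.h (P (nat_lit 0)) (P (nat_lit 3565072346572128256))) (P (nat_lit 0)))) (T.h (T.h (T.h (P (nat_lit 3679752308041006972928)) (T.h (P (nat_lit 0)) (P (nat_lit 140431119548416)))) (T.h (P (nat_lit 0)) (M (nat_lit 1039951104770047)))) (T.h (P (nat_lit 0)) (M (nat_lit 11815390019583))))))),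 (T.h (T.h (P (nat_lit 0)) (T.h (T.h (P (nat_lit 28945795319755813979670183936)) (T.h (P (nat_lit 0)) (T.h (M (nat_lit 22221354977772968083455)) (T.h (P (nat_lit 0)) (M (nat_lit 6912399820259327)))))) (T.h (P (nat_lit 0)) (T.h (T.h (P (nat_lit 2383344313908043186176)) (T.h (P (nat_lit 0)) (M (nat_lit 3402348208455679)))) (T.h (P (nat_lit 0)) (P (nat_lit 1370138480934912))))))) (T.h (T.h (T.h (P (nat_lit 0)) (T.h (M (nat_lit 8068535727787160463474687)) (T.h (P (nat_lit 0)) (M (nat_lit 6315105086901059583))))) (T.h (P (nat_lit 0)) (T.h (T.h (P (nat_lit 0)) (M (nat_lit 43086864515571122175))) (P (nat_lit 0))))) (T.h (T.h (P (nat_lit 0)) (T.h (T.h (M (nat_lit 9895294323822176501759)) (T.h (P (nat_lit 0)) (P (nat_lit 19258408876113920)))) (T.h (P (nat_lit 0)) (P (nat_lit 12779192124375040))))) (T.h (T.h (T.h (P (nat_lit 0)) (P (nat_lit 7916378194117132288))) (P (nat_lit 0))) (T.h (T.h (P (nat_lit 0)) (M (nat_lit 2847357165699071))) (P (nat_lit 0))))))), (T.h (T.h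 (P (nat_lit 0)) (T.h (T.h (P (nat_lit 0)) (T.h (P (nat_lit 22460120382946506830774272)) (T.h (P (nat_lit 0)) (P (nat_lit 9651679485245784064))))) (T.h (P (nat_lit 0)) (T.h (T.h (P (nat_lit 0)) (P (nat_lit 9651679485245784064))) (P (nat_lit 0)))))) (T.h (T.h (T.h (M (nat_lit 2120122278237486535193657343)) (T.h (P (nat_lit 0)) (T.h (P (nat_lit 13584920725667681665024)) (T.h (P (nat_lit 0)) (P (nat_lit 3993105336041472)))))) (T.h (P (nat_lit 0)) (T.h (T.h (P (nat_lit 13584920725667681665024)) (T.h (P (nat_lit 0)) (M (nat_lit 786403700375551)))) (T.h (P (nat_lit 0)) (P (nat_lit 3993105336041472)))))) (T.h (T.h (P (nat_lit 0)) (T.h (T.h (P (nat_lit 0)) (M (nat_lit 21126162680394022911))) (P (nat_lit 0)))) (T.h (T.h (T.h (P (nat_lit 1352678270254679326720)) (T.h (P (nat_lit 0)) (P (nat_lit 2523038380785664)))) (T.h (P (nat_lit 0)) (P (nat_lit 2523038380785664)))) (P (nat_lit 0)))))), (T.h (T.h (P (nat_lit 0)) (T.h (T.h (M (nat_lit 37893429309236406925974831103))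 (T.h (P (nat_lit 0)) (T.h (P (nat_lit 46722084582422631940096)) (T.h (P (nat_lit 0)) (P (nat_lit 14077589957378048)))))) (T.h (P (nat_lit 0)) (T.h (T.h (P (nat_lit 5387817051542781952000)) (T.h (P (nat_lit 0)) (P (nat_lit 13167663938011136)))) (T.h (P (nat_lit 0)) (M (nat_lit 1532455800799231))))))) (T.h (T.h (T.h (P (nat_lit 0)) (T.h (P (nat_lit 33579549897271383517298688)) (T.h (P (nat_lit 0)) (M (nat_lit 8849408785970626559))))) (T.h (P (nat_lit 0)) (T.h (T.h (P (nat_lit 0)) (M (nat_lit 3982024280127832063))) (P (nat_lit 0))))) (T.h (T.h (P (nat_lit 0)) (T.h (T.h (P (nat_lit 4104446577559067426816)) (T.h (P (nat_lit 0)) (P (nat_lit 45416800770588672)))) (T.h (P (nat_lit 0)) (P (nat_lit 7436073746825216))))) (T.h (T.h (T.h (P (nat_lit 0)) (P (nat_lit 3541372019637485568))) (P (nat_lit 0))) (T.h (T.h (P (nat_lit 0)) (M (nat_lit 11279627034034175))) (P (nat_lit 0))))))), (T.h (T.h (P (nat_lit 0)) (T.h (T.h (P (nat_lit 0)) (T.h (P (nat_lit 7693749846238283348049920))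 (T.h (P (nat_lit 0)) (P (nat_lit 14521116546631204864))))) (T.h (P (nat_lit 0)) (T.h (T.h (P (nat_lit 0)) (P (nat_lit 11382046171812855808))) (P (nat_lit 0)))))) (T.h (T.h (T.h (P (nat_lit 4996804256147560436517044224)) (T.h (P (nat_lit 0)) (M (nat_lit 4296544144108300533759)))) (T.h (P (nat_lit 0)) (M (nat_lit 257028261180969320447)))) (T.h (T.h (P (nat_lit 0)) (T.h (T.h (P (nat_lit 0)) (P (nat_lit 23253401994541400064))) (P (nat_lit 0)))) (M (nat_lit 699374331989025882111))))), (P (nat_lit 0)), (P (nat_lit 0))]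
def lQp_4 : List (T ℤ) := [(T.h (T.h (T.h (M (nat_lit 470961987125908346733519175679)) (T.h (P (nat_lit 0)) (T.h (M (nat_lit 1942057638129030519586815)) (T.h (P (nat_lit 0)) (M (nat_lit 3371299736341446655)))))) (T.h (P (nat_lit 0)) (T.h (T.h (P (nat_lit 57899600867765543501824)) (T.h (P (nat_lit 0)) (P (nat_lit 1192941709491699712)))) (T.h (P (nat_lit 0)) (M (nat_lit 846434129254809599)))))) (T.h (T.h (P (nat_lit 0)) (T.h (T.h (P (nat_lit 0)) (T.h (P (nat_lit 538075358818507685888)) (T.h (P (nat_lit 0)) (M (nat_lit 598511274688511))))) (T.h (P (nat_lit 0)) (T.h (T.h (P (nat_lit 0)) (M (nat_lit 1583080657387519))) (P (nat_lit 0)))))) (T.h (T.h (T.h (M (nat_lit 1942057638129030519586815)) (T.h (P (nat_lit 0)) (M (nat_lit 556449493575270399)))) (T.h (P (nat_lit 0)) (P (nat_lit 1192941709491699712)))) (T.h (T.h (P (nat_lit 0)) (T.h (T.h (P (nat_lit 0)) (M (nat_lit 598511274688511))) (P (nat_lit 0)))) (M (nat_lit 3371299736341446655)))))), (T.h (T.h (T.h (P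 (nat_lit 0)) (T.h (P (nat_lit 18304896387085352232648966144)) (T.h (P (nat_lit 0)) (T.h (M (nat_lit 5654640754338346041343)) (T.h (P (nat_lit 0)) (P (nat_lit 2869922849095680))))))) (T.h (P (nat_lit 0)) (T.h (T.h (P (nat_lit 0)) (T.h (M (nat_lit 7520213398898532679679)) (T.h (P (nat_lit 0)) (M (nat_lit 5111942745948159))))) (T.h (P (nat_lit 0)) (T.h (T.h (P (nat_lit 0)) (M (nat_lit 6019960219729919))) (P (nat_lit 0))))))) (T.h (T.h (P (nat_lit 0)) (T.h (T.h (P (nat_lit 7019409435893459079659520)) (T.h (P (nat_lit 0)) (M (nat_lit 2079363055329738751)))) (T.h (P (nat_lit 0)) (M (nat_lit 9466224910058651647))))) (T.h (T.h (T.h (P (nat_lit 0)) (T.h (M (nat_lit 8117553435009748041727)) (T.h (P (nat_lit 0)) (M (nat_lit 1955038863065087))))) (T.h (P (nat_lit 0)) (T.h (T.h (P (nat_lit 0)) (M (nat_lit 21629963256332287))) (P (nat_lit 0))))) (T.h (T.h (P (nat_lit 0)) (P (nat_lit 14393325072985096192))) (T.h (T.h (T.h (P (nat_lit 0)) (P (nat_lit 3611440046374912)))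 (P (nat_lit 0))) (P (nat_lit 0))))))), (T.h (T.h (T.h (P (nat_lit 0)) (T.h (P (nat_lit 0)) (T.h (P (nat_lit 4182641287607808107216896)) (T.h (P (nat_lit 0)) (P (nat_lit 6692125328539648000)))))) (T.h (P (nat_lit 0)) (T.h (T.h (M (nat_lit 202648603037179402256383)) (T.h (P (nat_lit 0)) (P (nat_lit 41114478829740490752)))) (T.h (P (nat_lit 0)) (P (nat_lit 3437973054217519104)))))) (T.h (T.h (P (nat_lit 0)) (T.h (T.h (P (nat_lit 0)) (T.h (P (nat_lit 40872332593621807136768)) (T.h (P (nat_lit 0)) (M (nat_lit 2868643210854399))))) (T.h (P (nat_lit 0)) (T.h (T.h (P (nat_lit 0)) (P (nat_lit 5870480457662464))) (P (nat_lit 0)))))) (T.h (T.h (T.h (P (nat_lit 0)) (T.h (P (nat_lit 0)) (M (nat_lit 2994911782943850495)))) (T.h (P (nat_lit 0)) (M (nat_lit 23194938038433087487)))) (T.h (T.h (P (nat_lit 0)) (T.h (T.h (P (nat_lit 0)) (P (nat_lit 7058222133673984))) (P (nat_lit 0)))) (P (nat_lit 552709772135104512)))))), (T.h (T.h (T.h (P (nat_lit 0)) (T.h (M (nat_lit 37893429309236406925974831103))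 (T.h (P (nat_lit 0)) (T.h (P (nat_lit 5387817051542781952000)) (T.h (P (nat_lit 0)) (M (nat_lit 1532455800799231))))))) (T.h (P (nat_lit 0)) (T.h (T.h (P (nat_lit 0)) (T.h (P (nat_lit 46722084582422631940096)) (T.h (P (nat_lit 0)) (P (nat_lit 13167663938011136))))) (T.h (P (nat_lit 0)) (T.h (T.h (P (nat_lit 0)) (P (nat_lit 14077589957378048))) (P (nat_lit 0))))))) (T.h (T.h (P (nat_lit 0)) (T.h (T.h (P (nat_lit 33579549897271383517298688)) (T.h (P (nat_lit 0)) (M (nat_lit 3982024280127832063)))) (T.h (P (nat_lit 0)) (M (nat_lit 8849408785970626559))))) (T.h (T.h (T.h (P (nat_lit 0)) (T.h (P (nat_lit 4104446577559067426816)) (T.h (P (nat_lit 0)) (P (nat_lit 7436073746825216))))) (T.h (P (nat_lit 0)) (T.h (T.h (P (nat_lit 0)) (P (nat_lit 45416800770588672))) (P (nat_lit 0))))) (T.h (T.h (P (nat_lit 0)) (P (nat_lit 3541372019637485568))) (T.h (T.h (T.h (P (nat_lit 0)) (M (nat_lit 11279627034034175))) (P (nat_lit 0))) (P (nat_lit 0))))))), (T.h (T.h (T.h (M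 (nat_lit 26617841765287406009037398999039)) (T.h (P (nat_lit 0)) (T.h (P (nat_lit 129977362024824844582912)) (T.h (P (nat_lit 0)) (P (nat_lit 1642319604065763328)))))) (T.h (P (nat_lit 0)) (T.h (T.h (P (nat_lit 129977362024824844582912)) (T.h (P (nat_lit 0)) (P (nat_lit 20225531808785104896)))) (T.h (P (nat_lit 0)) (P (nat_lit 1642319604065763328)))))) (T.h (T.h (P (nat_lit 0)) (T.h (T.h (P (nat_lit 0)) (M (nat_lit 1028113044723877281791))) (P (nat_lit 0)))) (T.h (T.h (T.h (P (nat_lit 3714307327027633757093888)) (T.h (P (nat_lit 0)) (P (nat_lit 17337605634832465920)))) (T.h (P (nat_lit 0)) (P (nat_lit 17337605634832465920)))) (T.h (P (nat_lit 0)) (M (nat_lit 5775169041425498111)))))), (P (nat_lit 0)), (P (nat_lit 0)), (T.h (T.h (P (nat_lit 0)) (T.h (T.h (P (nat_lit 12556200628884101627117568)) (T.h (P (nat_lit 0)) (T.h (M (nat_lit 206023718593120698367)) (T.h (P (nat_lit 0)) (M (nat_lit 882307154673663)))))) (T.h (P (nat_lit 0)) (T.h (T.h (M (nat_lit 961368688894572232703))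 (T.h (P (nat_lit 0)) (M (nat_lit 3263992765448191)))) (T.h (P (nat_lit 0)) (M (nat_lit 520789253947391))))))) (T.h (T.h (T.h (P (nat_lit 0)) (T.h (M (nat_lit 836226289139926597369855)) (T.h (P (nat_lit 0)) (P (nat_lit 1936904125291692032))))) (T.h (P (nat_lit 0)) (T.h (T.h (P (nat_lit 0)) (P (nat_lit 4835318243637854208))) (P (nat_lit 0))))) (T.h (T.h (P (nat_lit 0)) (T.h (T.h (M (nat_lit 206023718593120698367)) (T.h (P (nat_lit 0)) (M (nat_lit 9472520804892671)))) (T.h (P (nat_lit 0)) (M (nat_lit 3263992765448191))))) (T.h (T.h (T.h (P (nat_lit 0)) (P (nat_lit 1936904125291692032))) (P (nat_lit 0))) (T.h (T.h (P (nat_lit 0)) (M (nat_lit 882307154673663))) (P (nat_lit 0)))))))]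
def lQp_5 : List (T ℤ) := [(T.h (T.h (P (nat_lit 0)) (T.h (T.h (P (nat_lit 0)) (T.h (P (nat_lit 11844556794739376483467264)) (T.h (P (nat_lit 0)) (M (nat_lit 4179479936819527679))))) (T.h (P (nat_lit 0)) (T.h (T.h (P (nat_lit 0)) (M (nat_lit 2165209077553037311))) (P (nat_lit 0)))))) (T.h (T.h (T.h (M (nat_lit 3147316493728592057340002303)) (T.h (P (nat_lit 0)) (T.h (M (nat_lit 807578637971415367679)) (T.h (P (nat_lit 0)) (M (nat_lit 1036859366244351)))))) (T.h (P (nat_lit 0)) (T.h (T.h (M (nat_lit 18857449857395644694527)) (T.h (P (nat_lit 0)) (M (nat_lit 11975517620469759)))) (T.h (P (nat_lit 0)) (P (nat_lit 2925128420229120)))))) (T.h (T.h (P (nat_lit 0)) (T.h (T.h (P (nat_lit 0)) (M (nat_lit 14447188899941842943))) (P (nat_lit 0)))) (T.h (T.h (T.h (M (nat_lit 3125302884072949809151)) (T.h (P (nat_lit 0)) (M (nat_lit 652816732782591)))) (T.h (P (nat_lit 0)) (P (nat_lit 822254790705152)))) (T.h (P (nat_lit 0)) (P (nat_lit 845034740580352))))))), (T.h (T.h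 (P (nat_lit 0)) (T.h (T.h (M (nat_lit 28844577970459765411969761279)) (T.h (P (nat_lit 0)) (T.h (P (nat_lit 32373734643647391989760)) (T.h (P (nat_lit 0)) (P (nat_lit 4531447495655424)))))) (T.h (P (nat_lit 0)) (T.h (T.h (M (nat_lit 4503094450705800364031)) (T.h (P (nat_lit 0)) (P (nat_lit 206375840382976)))) (P (nat_lit 0)))))) (T.h (T.h (T.h (P (nat_lit 0)) (T.h (P (nat_lit 11966167736419842051276800)) (T.h (P (nat_lit 0)) (M (nat_lit 2052704746300506111))))) (T.h (P (nat_lit 0)) (T.h (T.h (P (nat_lit 0)) (P (nat_lit 27081893713398464512))) (P (nat_lit 0))))) (T.h (T.h (P (nat_lit 0)) (T.h (M (nat_lit 11022453529369638862847)) (T.h (P (nat_lit 0)) (P (nat_lit 984868572889088))))) (T.h (T.h (T.h (P (nat_lit 0)) (M (nat_lit 1048887899719729151))) (P (nat_lit 0))) (T.h (T.h (P (nat_lit 0)) (P (nat_lit 2527009741733888))) (P (nat_lit 0))))))), (T.h (T.h (P (nat_lit 0)) (T.h (T.h (P (nat_lit 0)) (T.h (P (nat_lit 7693749846238283348049920)) (T.h (P (nat_lit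 0)) (P (nat_lit 11382046171812855808))))) (T.h (P (nat_lit 0)) (T.h (T.h (P (nat_lit 0)) (P (nat_lit 14521116546631204864))) (P (nat_lit 0)))))) (T.h (T.h (T.h (P (nat_lit 4996804256147560436517044224)) (T.h (P (nat_lit 0)) (M (nat_lit 257028261180969320447)))) (T.h (P (nat_lit 0)) (M (nat_lit 4296544144108300533759)))) (T.h (T.h (P (nat_lit 0)) (T.h (T.h (P (nat_lit 0)) (P (nat_lit 23253401994541400064))) (P (nat_lit 0)))) (M (nat_lit 699374331989025882111))))), (P (nat_lit 0)), (P (nat_lit 0)), (T.h (T.h (T.h (M (nat_lit 4555771215876288499418849607679)) (T.h (P (nat_lit 0)) (T.h (P (nat_lit 2197890908742290795134976)) (T.h (P (nat_lit 0)) (P (nat_lit 3789748147635355648)))))) (T.h (P (nat_lit 0)) (T.h (T.h (P (nat_lit 1408964967221915887337472)) (T.h (P (nat_lit 0)) (M (nat_lit 1418544840500576255)))) (T.h (P (nat_lit 0)) (M (nat_lit 547476731234091007)))))) (T.h (T.h (P (nat_lit 0)) (T.h (T.h (P (nat_lit 0)) (M (nat_lit 101896397878233923583))) (T.h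 (P (nat_lit 0)) (T.h (T.h (P (nat_lit 0)) (P (nat_lit 2216312920342528))) (P (nat_lit 0)))))) (T.h (T.h (T.h (P (nat_lit 2197890908742290795134976)) (T.h (P (nat_lit 0)) (M (nat_lit 2005410347908857855)))) (T.h (P (nat_lit 0)) (M (nat_lit 1418544840500576255)))) (T.h (P (nat_lit 0)) (P (nat_lit 3789748147635355648)))))), (T.h (T.h (T.h (P (nat_lit 0)) (T.h (M (nat_lit 18797913578495883706412040191)) (T.h (P (nat_lit 0)) (T.h (P (nat_lit 3679868749620923334656)) (T.h (P (nat_lit 0)) (M (nat_lit 1873500404449279))))))) (T.h (P (nat_lit 0)) (T.h (T.h (P (nat_lit 0)) (T.h (M (nat_lit 1884468549579203149823)) (T.h (P (nat_lit 0)) (M (nat_lit 561367280779263))))) (T.h (P (nat_lit 0)) (T.h (T.h (P (nat_lit 0)) (P (nat_lit 6033506803122176))) (P (nat_lit 0))))))) (T.h (T.h (P (nat_lit 0)) (T.h (T.h (M (nat_lit 6699686972814614291546111)) (T.h (P (nat_lit 0)) (M (nat_lit 6907880395153342463)))) (T.h (P (nat_lit 0)) (P (nat_lit 16964788036543971328))))) (T.h (T.h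 (T.h (P (nat_lit 0)) (T.h (M (nat_lit 831348500465235001343)) (T.h (P (nat_lit 0)) (M (nat_lit 799398928056319))))) (T.h (P (nat_lit 0)) (T.h (T.h (P (nat_lit 0)) (P (nat_lit 7225292625543168))) (P (nat_lit 0))))) (T.h (T.h (P (nat_lit 0)) (M (nat_lit 10572818619601780735))) (T.h (T.h (T.h (P (nat_lit 0)) (M (nat_lit 4698632093433855))) (P (nat_lit 0))) (P (nat_lit 0))))))), (T.h (T.h (T.h (M (nat_lit 14562162258249013777924918083583)) (T.h (P (nat_lit 0)) (T.h (P (nat_lit 1586501907438543587770368)) (T.h (P (nat_lit 0)) (M (nat_lit 1238029958807289855)))))) (T.h (P (nat_lit 0)) (T.h (T.h (M (nat_lit 5400635009370655693996031)) (T.h (P (nat_lit 0)) (M (nat_lit 272633426224349183)))) (T.h (P (nat_lit 0)) (P (nat_lit 1544577741599277056)))))) (T.h (T.h (P (nat_lit 0)) (T.h (T.h (P (nat_lit 0)) (P (nat_lit 14866527205867955159040))) (P (nat_lit 0)))) (T.h (T.h (T.h (M (nat_lit 472108168470894989017087)) (T.h (P (nat_lit 0)) (M (nat_lit 613938376747253759))))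 (T.h (P (nat_lit 0)) (P (nat_lit 2606053976117870592)))) (T.h (P (nat_lit 0)) (M (nat_lit 555935322035191807))))))]
def lQp_6 : List (T ℤ) := [(P (nat_lit 0)), (P (nat_lit 0)), (T.h (T.h (P (nat_lit 0)) (T.h (P (nat_lit 0)) (T.h (P (nat_lit 0)) (T.h (P (nat_lit 1386797677371080048640)) (T.h (P (nat_lit 0)) (P (nat_lit 694385671929856))))))) (T.h (T.h (T.h (P (nat_lit 0)) (P (nat_lit 1093392384300308475412480))) (T.h (P (nat_lit 0)) (T.h (T.h (P (nat_lit 0)) (P (nat_lit 1945289511797784576))) (P (nat_lit 0))))) (T.h (T.h (P (nat_lit 0)) (T.h (T.h (P (nat_lit 0)) (T.h (P (nat_lit 0)) (P (nat_lit 12630027739856896)))) (P (nat_lit 0)))) (P (nat_lit 0))))), (T.h (T.h (P (nat_lit 0)) (T.h (T.h (P (nat_lit 0)) (T.h (M (nat_lit 2424682419920877020774399)) (T.h (P (nat_lit 0)) (M (nat_lit 287420047758983167))))) (T.h (P (nat_lit 0)) (T.h (T.h (P (nat_lit 0)) (P (nat_lit 6178310966397108224))) (P (nat_lit 0)))))) (T.h (T.h (T.h (P (nat_lit 279908450380878969705594880))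 (T.h (P (nat_lit 0)) (P (nat_lit 25474099469558480896)))) (T.h (P (nat_lit 0)) (P (nat_lit 9901917847013963071488)))) (T.h (T.h (P (nat_lit 0)) (T.h (T.h (P (nat_lit 0)) (P (nat_lit 10165924027084832768))) (P (nat_lit 0)))) (M (nat_lit 2829812515106405220351))))), (P (nat_lit 0)), (P (nat_lit 0)), (T.h (T.h (P (nat_lit 0)) (T.h (P (nat_lit 0)) (T.h (P (nat_lit 0)) (T.h (P (nat_lit 0)) (P (nat_lit 888813660070215680)))))) (T.h (P (nat_lit 0)) (T.h (T.h (T.h (P (nat_lit 0)) (T.h (P (nat_lit 0)) (P (nat_lit 3233287101403365376)))) (P (nat_lit 0))) (P (nat_lit 0))))), (P (nat_lit 0))]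
def lQp_7 : List (T ℤ) := [(P (nat_lit 0)), (P (nat_lit 0)), (P (nat_lit 0)), (P (nat_lit 0)), (T.h (T.h (P (nat_lit 0)) (T.h (T.h (P (nat_lit 2442310398557518728414625792)) (T.h (P (nat_lit 0)) (T.h (P (nat_lit 10983023708140231196672)) (T.h (P (nat_lit 0)) (M (nat_lit 664208017784831)))))) (T.h (P (nat_lit 0)) (T.h (T.h (P (nat_lit 3679752308041006972928)) (T.h (P (nat_lit 0)) (M (nat_lit 1039951104770047)))) (T.h (P (nat_lit 0)) (M (nat_lit 11815390019583))))))) (T.h (T.h (T.h (P (nat_lit 0)) (T.h (M (nat_lit 14280217490853106859114495)) (T.h (P (nat_lit 0)) (M (nat_lit 5463924327831306239))))) (T.h (P (nat_lit 0)) (T.h (T.h (P (nat_lit 0)) (P (nat_lit 3565072346572128256))) (P (nat_lit 0))))) (T.h (T.h (P (nat_lit 0)) (T.h (T.h (M (nat_lit 3047215125714868109311)) (T.h (P (nat_lit 0)) (P (nat_lit 3547622079004672)))) (T.h (P (nat_lit 0)) (P (nat_lit 140431119548416))))) (T.h (T.h (T.h (P (nat_lit 0)) (P (nat_lit 3431769517741572096))) (P (nat_lit 0)))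 (T.h (T.h (P (nat_lit 0)) (M (nat_lit 1626567914815487))) (P (nat_lit 0))))))), (T.h (T.h (P (nat_lit 0)) (T.h (T.h (P (nat_lit 0)) (T.h (P (nat_lit 7019409435893459079659520)) (T.h (P (nat_lit 0)) (M (nat_lit 9466224910058651647))))) (T.h (P (nat_lit 0)) (T.h (T.h (P (nat_lit 0)) (P (nat_lit 14393325072985096192))) (P (nat_lit 0)))))) (T.h (T.h (T.h (P (nat_lit 18304896387085352232648966144)) (T.h (P (nat_lit 0)) (T.h (M (nat_lit 7520213398898532679679)) (T.h (P (nat_lit 0)) (M (nat_lit 6019960219729919)))))) (T.h (P (nat_lit 0)) (T.h (T.h (M (nat_lit 8117553435009748041727)) (T.h (P (nat_lit 0)) (M (nat_lit 21629963256332287)))) (T.h (P (nat_lit 0)) (P (nat_lit 3611440046374912)))))) (T.h (T.h (P (nat_lit 0)) (T.h (T.h (P (nat_lit 0)) (M (nat_lit 2079363055329738751))) (P (nat_lit 0)))) (T.h (T.h (T.h (M (nat_lit 5654640754338346041343)) (T.h (P (nat_lit 0)) (M (nat_lit 5111942745948159)))) (T.h (P (nat_lit 0)) (M (nat_lit 1955038863065087)))) (T.h (P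 (nat_lit 0)) (P (nat_lit 2869922849095680))))))), (T.h (T.h (P (nat_lit 0)) (T.h (T.h (M (nat_lit 3147316493728592057340002303)) (T.h (P (nat_lit 0)) (T.h (M (nat_lit 18857449857395644694527)) (T.h (P (nat_lit 0)) (P (nat_lit 2925128420229120)))))) (T.h (P (nat_lit 0)) (T.h (T.h (M (nat_lit 3125302884072949809151)) (T.h (P (nat_lit 0)) (P (nat_lit 822254790705152)))) (T.h (P (nat_lit 0)) (P (nat_lit 845034740580352))))))) (T.h (T.h (T.h (P (nat_lit 0)) (T.h (P (nat_lit 11844556794739376483467264)) (T.h (P (nat_lit 0)) (M (nat_lit 2165209077553037311))))) (T.h (P (nat_lit 0)) (T.h (T.h (P (nat_lit 0)) (M (nat_lit 14447188899941842943))) (P (nat_lit 0))))) (T.h (T.h (P (nat_lit 0)) (T.h (T.h (M (nat_lit 807578637971415367679)) (T.h (P (nat_lit 0)) (M (nat_lit 11975517620469759)))) (T.h (P (nat_lit 0)) (M (nat_lit 652816732782591))))) (T.h (T.h (T.h (P (nat_lit 0)) (M (nat_lit 4179479936819527679))) (P (nat_lit 0))) (T.h (T.h (P (nat_lit 0)) (M (nat_lit 1036859366244351)))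 (P (nat_lit 0))))))), (T.h (T.h (P (nat_lit 0)) (T.h (T.h (P (nat_lit 0)) (T.h (M (nat_lit 6699686972814614291546111)) (T.h (P (nat_lit 0)) (P (nat_lit 16964788036543971328))))) (T.h (P (nat_lit 0)) (T.h (T.h (P (nat_lit 0)) (M (nat_lit 10572818619601780735))) (P (nat_lit 0)))))) (T.h (T.h (T.h (M (nat_lit 18797913578495883706412040191)) (T.h (P (nat_lit 0)) (T.h (M (nat_lit 1884468549579203149823)) (T.h (P (nat_lit 0)) (P (nat_lit 6033506803122176)))))) (T.h (P (nat_lit 0)) (T.h (T.h (M (nat_lit 831348500465235001343)) (T.h (P (nat_lit 0)) (P (nat_lit 7225292625543168)))) (T.h (P (nat_lit 0)) (M (nat_lit 4698632093433855)))))) (T.h (T.h (P (nat_lit 0)) (T.h (T.h (P (nat_lit 0)) (M (nat_lit 6907880395153342463))) (P (nat_lit 0)))) (T.h (T.h (T.h (P (nat_lit 3679868749620923334656)) (T.h (P (nat_lit 0)) (M (nat_lit 561367280779263)))) (T.h (P (nat_lit 0)) (M (nat_lit 799398928056319)))) (T.h (P (nat_lit 0)) (M (nat_lit 1873500404449279)))))))]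
def lQp_8 : List (T ℤ) := [(T.h (T.h (P (nat_lit 0)) (T.h (T.h (P (nat_lit 279908450380878969705594880)) (T.h (P (nat_lit 0)) (P (nat_lit 9901917847013963071488)))) (T.h (P (nat_lit 0)) (M (nat_lit 2829812515106405220351))))) (T.h (T.h (T.h (P (nat_lit 0)) (T.h (M (nat_lit 2424682419920877020774399)) (T.h (P (nat_lit 0)) (P (nat_lit 6178310966397108224))))) (T.h (P (nat_lit 0)) (T.h (T.h (P (nat_lit 0)) (P (nat_lit 10165924027084832768))) (P (nat_lit 0))))) (T.h (T.h (P (nat_lit 0)) (P (nat_lit 25474099469558480896))) (T.h (T.h (T.h (P (nat_lit 0)) (M (nat_lit 287420047758983167))) (P (nat_lit 0))) (P (nat_lit 0)))))), (P (nat_lit 0)), (P (nat_lit 0)), (T.h (T.h (T.h (P (nat_lit 0)) (T.h (P (nat_lit 0)) (T.h (P (nat_lit 0)) (T.h (P (nat_lit 0)) (T.h (P (nat_lit 0)) (M (nat_lit 1517611902173183))))))) (T.h (P (nat_lit 0)) (T.h (T.h (P (nat_lit 0)) (T.h (M (nat_lit 393394788669509861375)) (T.h (P (nat_lit 0)) (M (nat_lit 6466019186049023))))) (T.h (P (nat_lit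 0)) (T.h (T.h (P (nat_lit 0)) (M (nat_lit 9592676862263295))) (P (nat_lit 0))))))) (T.h (T.h (P (nat_lit 0)) (T.h (T.h (P (nat_lit 4522944407224301738000384)) (T.h (P (nat_lit 0)) (M (nat_lit 20828737242849607679)))) (T.h (P (nat_lit 0)) (P (nat_lit 4169824286824988672))))) (T.h (T.h (T.h (P (nat_lit 0)) (T.h (M (nat_lit 393394788669509861375)) (T.h (P (nat_lit 0)) (M (nat_lit 6466019186049023))))) (T.h (P (nat_lit 0)) (T.h (T.h (P (nat_lit 0)) (M (nat_lit 2885507989110783))) (P (nat_lit 0))))) (T.h (T.h (P (nat_lit 0)) (P (nat_lit 4169824286824988672))) (T.h (T.h (T.h (P (nat_lit 0)) (M (nat_lit 9592676862263295))) (P (nat_lit 0))) (P (nat_lit 0))))))), (T.h (T.h (T.h (P (nat_lit 3143737244969936869129166258176)) (T.h (P (nat_lit 0)) (T.h (P (nat_lit 26474240155417147621769216)) (T.h (P (nat_lit 0)) (P (nat_lit 21098483973839912960)))))) (T.h (P (nat_lit 0)) (T.h (T.h (M (nat_lit 12155214700718626088943615)) (T.h (P (nat_lit 0)) (M (nat_lit 102134599549219504127))))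 (T.h (P (nat_lit 0)) (P (nat_lit 14689685651503185920)))))) (T.h (T.h (P (nat_lit 0)) (T.h (T.h (P (nat_lit 0)) (T.h (P (nat_lit 32851468501967855157248)) (T.h (P (nat_lit 0)) (M (nat_lit 13303475283951615))))) (T.h (P (nat_lit 0)) (T.h (T.h (P (nat_lit 0)) (M (nat_lit 16763430138347519))) (P (nat_lit 0)))))) (T.h (T.h (T.h (M (nat_lit 12155214700718626088943615)) (T.h (P (nat_lit 0)) (M (nat_lit 102134599549219504127)))) (T.h (P (nat_lit 0)) (P (nat_lit 10583644917895004160)))) (T.h (T.h (P (nat_lit 0)) (T.h (T.h (P (nat_lit 0)) (M (nat_lit 16763430138347519))) (P (nat_lit 0)))) (P (nat_lit 14689685651503185920)))))), (T.h (T.h (T.h (P (nat_lit 0)) (T.h (P (nat_lit 17534095856328093313800339456)) (T.h (P (nat_lit 0)) (T.h (P (nat_lit 8404049344762782679040)) (T.h (P (nat_lit 0)) (P (nat_lit 1944089406472192))))))) (T.h (P (nat_lit 0)) (T.h (T.h (P (nat_lit 0)) (T.h (M (nat_lit 30443126340952313036799)) (T.h (P (nat_lit 0)) (P (nat_lit 23785446772441088)))))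 (T.h (P (nat_lit 0)) (T.h (T.h (P (nat_lit 0)) (P (nat_lit 9729628367814656))) (P (nat_lit 0))))))) (T.h (T.h (P (nat_lit 0)) (T.h (T.h (P (nat_lit 280063454011845911773184)) (T.h (P (nat_lit 0)) (P (nat_lit 16042218279384645632)))) (T.h (P (nat_lit 0)) (P (nat_lit 5983461280776716288))))) (T.h (T.h (T.h (P (nat_lit 0)) (T.h (M (nat_lit 30443126340952313036799)) (T.h (P (nat_lit 0)) (P (nat_lit 23785446772441088))))) (T.h (P (nat_lit 0)) (T.h (T.h (P (nat_lit 0)) (P (nat_lit 15713127575584768))) (P (nat_lit 0))))) (T.h (T.h (P (nat_lit 0)) (P (nat_lit 5983461280776716288))) (T.h (T.h (T.h (P (nat_lit 0)) (P (nat_lit 9729628367814656))) (P (nat_lit 0))) (P (nat_lit 0))))))), (T.h (T.h (T.h (M (nat_lit 2640985042259987329960279801855)) (T.h (P (nat_lit 0)) (T.h (M (nat_lit 11953613207112808463859711)) (T.h (P (nat_lit 0)) (M (nat_lit 4573725690595115007)))))) (T.h (P (nat_lit 0)) (T.h (T.h (P (nat_lit 15832890018593205873803264)) (T.h (P (nat_lit 0)) (P (nat_lit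 105469962557071556608)))) (T.h (P (nat_lit 0)) (M (nat_lit 15687109414433587199)))))) (T.h (T.h (P (nat_lit 0)) (T.h (T.h (P (nat_lit 0)) (T.h (P (nat_lit 18792191774930400968704)) (T.h (P (nat_lit 0)) (P (nat_lit 6383262989025280))))) (T.h (P (nat_lit 0)) (T.h (T.h (P (nat_lit 0)) (P (nat_lit 15062716752592896))) (P (nat_lit 0)))))) (T.h (T.h (T.h (P (nat_lit 15832890018593205873803264)) (T.h (P (nat_lit 0)) (P (nat_lit 105469962557071556608)))) (T.h (P (nat_lit 0)) (P (nat_lit 6659856347367997440)))) (T.h (T.h (P (nat_lit 0)) (T.h (T.h (P (nat_lit 0)) (P (nat_lit 15062716752592896))) (P (nat_lit 0)))) (M (nat_lit 15687109414433587199)))))), (T.h (T.h (T.h (P (nat_lit 0)) (T.h (M (nat_lit 2613273605147549987961307135)) (T.h (P (nat_lit 0)) (M (nat_lit 2747092652249212518399))))) (T.h (P (nat_lit 0)) (T.h (T.h (P (nat_lit 0)) (P (nat_lit 36272100889309380345856))) (P (nat_lit 0))))) (T.h (T.h (P (nat_lit 0)) (T.h (T.h (M (nat_lit 817752586518847605964799))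 (T.h (P (nat_lit 0)) (P (nat_lit 12301045624127619072)))) (T.h (P (nat_lit 0)) (M (nat_lit 1364636026177323007))))) (T.h (T.h (T.h (P (nat_lit 0)) (P (nat_lit 36272100889309380345856))) (P (nat_lit 0))) (T.h (T.h (P (nat_lit 0)) (M (nat_lit 1364636026177323007))) (P (nat_lit 0))))))]
def lQp_9 : List (T ℤ) := [(P (nat_lit 0)), (P (nat_lit 0)), (T.h (T.h (P (nat_lit 0)) (T.h (T.h (P (nat_lit 0)) (T.h (P (nat_lit 0)) (T.h (M (nat_lit 393394788669509861375)) (T.h (P (nat_lit 0)) (M (nat_lit 9592676862263295)))))) (T.h (P (nat_lit 0)) (T.h (T.h (P (nat_lit 0)) (T.h (P (nat_lit 0)) (M (nat_lit 6466019186049023)))) (T.h (P (nat_lit 0)) (M (nat_lit 1517611902173183))))))) (T.h (T.h (T.h (P (nat_lit 0)) (T.h (P (nat_lit 4522944407224301738000384)) (T.h (P (nat_lit 0)) (P (nat_lit 4169824286824988672))))) (T.h (P (nat_lit 0)) (T.h (T.h (P (nat_lit 0)) (M (nat_lit 20828737242849607679))) (P (nat_lit 0))))) (T.h (T.h (P (nat_lit 0)) (T.h (T.h (M (nat_lit 393394788669509861375))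 (T.h (P (nat_lit 0)) (M (nat_lit 2885507989110783)))) (T.h (P (nat_lit 0)) (M (nat_lit 6466019186049023))))) (T.h (T.h (T.h (P (nat_lit 0)) (P (nat_lit 4169824286824988672))) (P (nat_lit 0))) (T.h (T.h (P (nat_lit 0)) (M (nat_lit 9592676862263295))) (P (nat_lit 0))))))), (T.h (T.h (P (nat_lit 0)) (T.h (T.h (P (nat_lit 0)) (T.h (M (nat_lit 48523233508140057460998143)) (T.h (P (nat_lit 0)) (M (nat_lit 29539676022814801919))))) (T.h (P (nat_lit 0)) (T.h (T.h (P (nat_lit 0)) (M (nat_lit 29539676022814801919))) (P (nat_lit 0)))))) (T.h (T.h (T.h (P (nat_lit 54833597080617216735092670464)) (T.h (P (nat_lit 0)) (T.h (P (nat_lit 21629343101892431970304)) (T.h (P (nat_lit 0)) (P (nat_lit 12776891183661056)))))) (T.h (P (nat_lit 0)) (T.h (T.h (P (nat_lit 21629343101892431970304)) (T.h (P (nat_lit 0)) (P (nat_lit 64676323570876416)))) (T.h (P (nat_lit 0)) (P (nat_lit 12776891183661056)))))) (T.h (T.h (P (nat_lit 0)) (T.h (T.h (P (nat_lit 0)) (M (nat_lit 68746395813700173823)))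 (P (nat_lit 0)))) (T.h (T.h (T.h (P (nat_lit 5178232187410620350464)) (T.h (P (nat_lit 0)) (P (nat_lit 10236741140873216)))) (T.h (P (nat_lit 0)) (P (nat_lit 10236741140873216)))) (T.h (P (nat_lit 0)) (M (nat_lit 2525806349647871))))))), (T.h (T.h (P (nat_lit 0)) (T.h (T.h (M (nat_lit 15323652974161629456552165375)) (T.h (P (nat_lit 0)) (T.h (M (nat_lit 133145752350664754724863)) (T.h (P (nat_lit 0)) (P (nat_lit 16085244215427072)))))) (T.h (P (nat_lit 0)) (T.h (T.h (M (nat_lit 7432244864728912887807)) (T.h (P (nat_lit 0)) (P (nat_lit 29997582427947008)))) (P (nat_lit 0)))))) (T.h (T.h (T.h (P (nat_lit 0)) (T.h (P (nat_lit 34896890260477953133510656)) (T.h (P (nat_lit 0)) (M (nat_lit 4843534344947499007))))) (T.h (P (nat_lit 0)) (T.h (T.h (P (nat_lit 0)) (P (nat_lit 31757819259306115072))) (P (nat_lit 0))))) (T.h (T.h (P (nat_lit 0)) (T.h (T.h (P (nat_lit 16417494585337287016448)) (T.h (P (nat_lit 0)) (P (nat_lit 29603302290817024)))) (T.h (P (nat_lit 0))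 (P (nat_lit 9334012262744064))))) (T.h (T.h (T.h (P (nat_lit 0)) (M (nat_lit 20633998151227801599))) (P (nat_lit 0))) (T.h (T.h (P (nat_lit 0)) (P (nat_lit 13110701554270208))) (P (nat_lit 0))))))), (T.h (T.h (P (nat_lit 0)) (T.h (T.h (P (nat_lit 0)) (T.h (P (nat_lit 18380053101843787370463232)) (T.h (P (nat_lit 0)) (P (nat_lit 99410439369893347328))))) (T.h (P (nat_lit 0)) (T.h (T.h (P (nat_lit 0)) (P (nat_lit 23294325925104058368))) (P (nat_lit 0)))))) (T.h (T.h (T.h (M (nat_lit 58574380961083223437918339071)) (T.h (P (nat_lit 0)) (T.h (M (nat_lit 34599514990749855776767)) (T.h (P (nat_lit 0)) (M (nat_lit 6249999989735423)))))) (T.h (P (nat_lit 0)) (T.h (T.h (P (nat_lit 31221050384512760938496)) (T.h (P (nat_lit 0)) (M (nat_lit 64607531855773695)))) (T.h (P (nat_lit 0)) (M (nat_lit 9702446940815359)))))) (T.h (T.h (P (nat_lit 0)) (T.h (T.h (P (nat_lit 0)) (P (nat_lit 32711687646010671104))) (P (nat_lit 0)))) (T.h (T.h (T.h (M (nat_lit 27880110966639568093183))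 (T.h (P (nat_lit 0)) (P (nat_lit 22955203721953280)))) (T.h (P (nat_lit 0)) (M (nat_lit 232382978588671)))) (T.h (P (nat_lit 0)) (M (nat_lit 4960118145810431))))))), (T.h (T.h (P (nat_lit 0)) (T.h (T.h (P (nat_lit 19472614965897669399187292160)) (T.h (P (nat_lit 0)) (P (nat_lit 102025982773308359180288)))) (T.h (P (nat_lit 0)) (M (nat_lit 21163988139213750009855))))) (T.h (T.h (T.h (P (nat_lit 0)) (T.h (M (nat_lit 9533650392968229510184959)) (T.h (P (nat_lit 0)) (M (nat_lit 4261631954979389439))))) (T.h (P (nat_lit 0)) (T.h (T.h (P (nat_lit 0)) (M (nat_lit 21510889844164788223))) (P (nat_lit 0))))) (T.h (T.h (P (nat_lit 0)) (M (nat_lit 455310933304797036543))) (T.h (T.h (T.h (P (nat_lit 0)) (P (nat_lit 18196777769839362048))) (P (nat_lit 0))) (P (nat_lit 0)))))), (P (nat_lit 0))]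
def lQp_10 : List (T ℤ) := [(P (nat_lit 0)), (T.h (T.h (T.h (P (nat_lit 0)) (T.h (P (nat_lit 2442310398557518728414625792)) (T.h (P (nat_lit 0)) (T.h (P (nat_lit 3679752308041006972928)) (T.h (P (nat_lit 0)) (M (nat_lit 11815390019583))))))) (T.h (P (nat_lit 0)) (T.h (T.h (P (nat_lit 0)) (T.h (P (nat_lit 10983023708140231196672)) (T.h (P (nat_lit 0)) (M (nat_lit 1039951104770047))))) (T.h (P (nat_lit 0)) (T.h (T.h (P (nat_lit 0)) (M (nat_lit 664208017784831))) (P (nat_lit 0))))))) (T.h (T.h (P (nat_lit 0)) (T.h (T.h (M (nat_lit 14280217490853106859114495)) (T.h (P (nat_lit 0)) (P (nat_lit 3565072346572128256)))) (T.h (P (nat_lit 0)) (M (nat_lit 5463924327831306239))))) (T.h (T.h (T.h (P (nat_lit 0)) (T.h (M (nat_lit 3047215125714868109311)) (T.h (P (nat_lit 0)) (P (nat_lit 140431119548416))))) (T.h (P (nat_lit 0)) (T.h (T.h (P (nat_lit 0)) (P (nat_lit 3547622079004672))) (P (nat_lit 0))))) (T.h (T.h (P (nat_lit 0)) (P (nat_lit 3431769517741572096))) (T.h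 (T.h (T.h (P (nat_lit 0)) (M (nat_lit 1626567914815487))) (P (nat_lit 0))) (P (nat_lit 0))))))), (T.h (T.h (T.h (P (nat_lit 3143737244969936869129166258176)) (T.h (P (nat_lit 0)) (T.h (M (nat_lit 12155214700718626088943615)) (T.h (P (nat_lit 0)) (P (nat_lit 14689685651503185920)))))) (T.h (P (nat_lit 0)) (T.h (T.h (P (nat_lit 26474240155417147621769216)) (T.h (P (nat_lit 0)) (M (nat_lit 102134599549219504127)))) (T.h (P (nat_lit 0)) (P (nat_lit 21098483973839912960)))))) (T.h (T.h (P (nat_lit 0)) (T.h (T.h (P (nat_lit 0)) (T.h (P (nat_lit 32851468501967855157248)) (T.h (P (nat_lit 0)) (M (nat_lit 16763430138347519))))) (T.h (P (nat_lit 0)) (T.h (T.h (P (nat_lit 0)) (M (nat_lit 13303475283951615))) (P (nat_lit 0)))))) (T.h (T.h (T.h (M (nat_lit 12155214700718626088943615)) (T.h (P (nat_lit 0)) (P (nat_lit 10583644917895004160)))) (T.h (P (nat_lit 0)) (M (nat_lit 102134599549219504127)))) (T.h (T.h (P (nat_lit 0)) (T.h (T.h (P (nat_lit 0)) (M (nat_lit 16763430138347519)))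 (P (nat_lit 0)))) (P (nat_lit 14689685651503185920)))))), (T.h (T.h (T.h (P (nat_lit 0)) (T.h (M (nat_lit 15323652974161629456552165375)) (T.h (P (nat_lit 0)) (M (nat_lit 7432244864728912887807))))) (T.h (P (nat_lit 0)) (T.h (T.h (P (nat_lit 0)) (T.h (M (nat_lit 133145752350664754724863)) (T.h (P (nat_lit 0)) (P (nat_lit 29997582427947008))))) (T.h (P (nat_lit 0)) (T.h (T.h (P (nat_lit 0)) (P (nat_lit 16085244215427072))) (P (nat_lit 0))))))) (T.h (T.h (P (nat_lit 0)) (T.h (T.h (P (nat_lit 34896890260477953133510656)) (T.h (P (nat_lit 0)) (P (nat_lit 31757819259306115072)))) (T.h (P (nat_lit 0)) (M (nat_lit 4843534344947499007))))) (T.h (T.h (T.h (P (nat_lit 0)) (T.h (P (nat_lit 16417494585337287016448)) (T.h (P (nat_lit 0)) (P (nat_lit 9334012262744064))))) (T.h (P (nat_lit 0)) (T.h (T.h (P (nat_lit 0)) (P (nat_lit 29603302290817024))) (P (nat_lit 0))))) (T.h (T.h (P (nat_lit 0)) (M (nat_lit 20633998151227801599))) (T.h (T.h (T.h (P (nat_lit 0)) (P (nat_lit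 13110701554270208))) (P (nat_lit 0))) (P (nat_lit 0))))))), (T.h (T.h (T.h (M (nat_lit 17765556308971075958502567444479)) (T.h (P (nat_lit 0)) (T.h (M (nat_lit 42099295970988032559939583)) (T.h (P (nat_lit 0)) (M (nat_lit 30418881608041889791)))))) (T.h (P (nat_lit 0)) (T.h (T.h (M (nat_lit 42099295970988032559939583)) (T.h (P (nat_lit 0)) (P (nat_lit 278419749500927082496)))) (T.h (P (nat_lit 0)) (M (nat_lit 30418881608041889791)))))) (T.h (T.h (P (nat_lit 0)) (T.h (T.h (P (nat_lit 0)) (T.h (M (nat_lit 90159392084587043618815)) (T.h (P (nat_lit 0)) (P (nat_lit 18406538656612352))))) (T.h (P (nat_lit 0)) (T.h (T.h (P (nat_lit 0)) (P (nat_lit 18406538656612352))) (P (nat_lit 0)))))) (T.h (T.h (T.h (P (nat_lit 64187238630778862282211328)) (T.h (P (nat_lit 0)) (P (nat_lit 19068183177919987712)))) (T.h (P (nat_lit 0)) (P (nat_lit 19068183177919987712)))) (T.h (T.h (P (nat_lit 0)) (T.h (T.h (P (nat_lit 0)) (P (nat_lit 77949370537345024))) (P (nat_lit 0)))) (P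 (nat_lit 6350658493317382144)))))), (T.h (T.h (T.h (P (nat_lit 0)) (T.h (P (nat_lit 6000969113615189185396736000)) (T.h (P (nat_lit 0)) (M (nat_lit 24438338849772933218303))))) (T.h (P (nat_lit 0)) (T.h (T.h (P (nat_lit 0)) (P (nat_lit 111759690933996743557120))) (P (nat_lit 0))))) (T.h (T.h (P (nat_lit 0)) (T.h (T.h (M (nat_lit 6083335303084980110884863)) (T.h (P (nat_lit 0)) (P (nat_lit 4310567372663554048)))) (T.h (P (nat_lit 0)) (M (nat_lit 1415962012927655935))))) (T.h (P (nat_lit 0)) (T.h (T.h (P (nat_lit 0)) (P (nat_lit 8285720689671929856))) (P (nat_lit 0)))))), (P (nat_lit 0)), (P (nat_lit 0))]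
def lQp_11 : List (T ℤ) := [(T.h (T.h (P (nat_lit 0)) (T.h (T.h (P (nat_lit 0)) (T.h (P (nat_lit 7019409435893459079659520)) (T.h (P (nat_lit 0)) (P (nat_lit 14393325072985096192))))) (T.h (P (nat_lit 0)) (T.h (T.h (P (nat_lit 0)) (M (nat_lit 9466224910058651647))) (P (nat_lit 0)))))) (T.h (T.h (T.h (P (nat_lit 18304896387085352232648966144)) (T.h (P (nat_lit 0)) (T.h (M (nat_lit 8117553435009748041727)) (T.h (P (nat_lit 0)) (P (nat_lit 3611440046374912)))))) (T.h (P (nat_lit 0)) (T.h (T.h (M (nat_lit 7520213398898532679679)) (T.h (P (nat_lit 0)) (M (nat_lit 21629963256332287)))) (T.h (P (nat_lit 0)) (M (nat_lit 6019960219729919)))))) (T.h (T.h (P (nat_lit 0)) (T.h (T.h (P (nat_lit 0)) (M (nat_lit 2079363055329738751))) (P (nat_lit 0)))) (T.h (T.h (T.h (M (nat_lit 5654640754338346041343)) (T.h (P (nat_lit 0)) (M (nat_lit 1955038863065087)))) (T.h (P (nat_lit 0)) (M (nat_lit 5111942745948159)))) (T.h (P (nat_lit 0)) (P (nat_lit 2869922849095680))))))), (T.h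 (T.h (P (nat_lit 0)) (T.h (T.h (P (nat_lit 17534095856328093313800339456)) (T.h (P (nat_lit 0)) (T.h (M (nat_lit 30443126340952313036799)) (T.h (P (nat_lit 0)) (P (nat_lit 9729628367814656)))))) (T.h (P (nat_lit 0)) (T.h (T.h (P (nat_lit 8404049344762782679040)) (T.h (P (nat_lit 0)) (P (nat_lit 23785446772441088)))) (T.h (P (nat_lit 0)) (P (nat_lit 1944089406472192))))))) (T.h (T.h (T.h (P (nat_lit 0)) (T.h (P (nat_lit 280063454011845911773184)) (T.h (P (nat_lit 0)) (P (nat_lit 5983461280776716288))))) (T.h (P (nat_lit 0)) (T.h (T.h (P (nat_lit 0)) (P (nat_lit 16042218279384645632))) (P (nat_lit 0))))) (T.h (T.h (P (nat_lit 0)) (T.h (T.h (M (nat_lit 30443126340952313036799)) (T.h (P (nat_lit 0)) (P (nat_lit 15713127575584768)))) (T.h (P (nat_lit 0)) (P (nat_lit 23785446772441088))))) (T.h (T.h (T.h (P (nat_lit 0)) (P (nat_lit 5983461280776716288))) (P (nat_lit 0))) (T.h (T.h (P (nat_lit 0)) (P (nat_lit 9729628367814656))) (P (nat_lit 0))))))), (T.h (T.h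 (P (nat_lit 0)) (T.h (T.h (P (nat_lit 0)) (T.h (P (nat_lit 18380053101843787370463232)) (T.h (P (nat_lit 0)) (P (nat_lit 23294325925104058368))))) (T.h (P (nat_lit 0)) (T.h (T.h (P (nat_lit 0)) (P (nat_lit 99410439369893347328))) (P (nat_lit 0)))))) (T.h (T.h (T.h (M (nat_lit 58574380961083223437918339071)) (T.h (P (nat_lit 0)) (T.h (P (nat_lit 31221050384512760938496)) (T.h (P (nat_lit 0)) (M (nat_lit 9702446940815359)))))) (T.h (P (nat_lit 0)) (T.h (T.h (M (nat_lit 34599514990749855776767)) (T.h (P (nat_lit 0)) (M (nat_lit 64607531855773695)))) (T.h (P (nat_lit 0)) (M (nat_lit 6249999989735423)))))) (T.h (T.h (P (nat_lit 0)) (T.h (T.h (P (nat_lit 0)) (P (nat_lit 32711687646010671104))) (P (nat_lit 0)))) (T.h (T.h (T.h (M (nat_lit 27880110966639568093183)) (T.h (P (nat_lit 0)) (M (nat_lit 232382978588671)))) (T.h (P (nat_lit 0)) (P (nat_lit 22955203721953280)))) (T.h (P (nat_lit 0)) (M (nat_lit 4960118145810431))))))), (T.h (T.h (P (nat_lit 0)) (T.h (T.h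 (P (nat_lit 6000969113615189185396736000)) (T.h (P (nat_lit 0)) (P (nat_lit 111759690933996743557120)))) (T.h (P (nat_lit 0)) (M (nat_lit 24438338849772933218303))))) (T.h (T.h (T.h (P (nat_lit 0)) (T.h (M (nat_lit 6083335303084980110884863)) (T.h (P (nat_lit 0)) (M (nat_lit 1415962012927655935))))) (T.h (P (nat_lit 0)) (T.h (T.h (P (nat_lit 0)) (P (nat_lit 4310567372663554048))) (P (nat_lit 0))))) (T.h (P (nat_lit 0)) (T.h (T.h (T.h (P (nat_lit 0)) (P (nat_lit 8285720689671929856))) (P (nat_lit 0))) (P (nat_lit 0)))))), (P (nat_lit 0)), (P (nat_lit 0)), (T.h (T.h (T.h (P (nat_lit 0)) (T.h (M (nat_lit 3147316493728592057340002303)) (T.h (P (nat_lit 0)) (T.h (M (nat_lit 3125302884072949809151)) (T.h (P (nat_lit 0)) (P (nat_lit 845034740580352))))))) (T.h (P (nat_lit 0)) (T.h (T.h (P (nat_lit 0)) (T.h (M (nat_lit 18857449857395644694527)) (T.h (P (nat_lit 0)) (P (nat_lit 822254790705152))))) (T.h (P (nat_lit 0)) (T.h (T.h (P (nat_lit 0)) (P (nat_lit 2925128420229120)))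 (P (nat_lit 0))))))) (T.h (T.h (P (nat_lit 0)) (T.h (T.h (P (nat_lit 11844556794739376483467264)) (T.h (P (nat_lit 0)) (M (nat_lit 14447188899941842943)))) (T.h (P (nat_lit 0)) (M (nat_lit 2165209077553037311))))) (T.h (T.h (T.h (P (nat_lit 0)) (T.h (M (nat_lit 807578637971415367679)) (T.h (P (nat_lit 0)) (M (nat_lit 652816732782591))))) (T.h (P (nat_lit 0)) (T.h (T.h (P (nat_lit 0)) (M (nat_lit 11975517620469759))) (P (nat_lit 0))))) (T.h (T.h (P (nat_lit 0)) (M (nat_lit 4179479936819527679))) (T.h (T.h (T.h (P (nat_lit 0)) (M (nat_lit 1036859366244351))) (P (nat_lit 0))) (P (nat_lit 0))))))), (T.h (T.h (T.h (M (nat_lit 2640985042259987329960279801855)) (T.h (P (nat_lit 0)) (T.h (P (nat_lit 15832890018593205873803264)) (T.h (P (nat_lit 0)) (M (nat_lit 15687109414433587199)))))) (T.h (P (nat_lit 0)) (T.h (T.h (M (nat_lit 11953613207112808463859711)) (T.h (P (nat_lit 0)) (P (nat_lit 105469962557071556608)))) (T.h (P (nat_lit 0)) (M (nat_lit 4573725690595115007))))))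 (T.h (T.h (P (nat_lit 0)) (T.h (T.h (P (nat_lit 0)) (T.h (P (nat_lit 18792191774930400968704)) (T.h (P (nat_lit 0)) (P (nat_lit 15062716752592896))))) (T.h (P (nat_lit 0)) (T.h (T.h (P (nat_lit 0)) (P (nat_lit 6383262989025280))) (P (nat_lit 0)))))) (T.h (T.h (T.h (P (nat_lit 15832890018593205873803264)) (T.h (P (nat_lit 0)) (P (nat_lit 6659856347367997440)))) (T.h (P (nat_lit 0)) (P (nat_lit 105469962557071556608)))) (T.h (T.h (P (nat_lit 0)) (T.h (T.h (P (nat_lit 0)) (P (nat_lit 15062716752592896))) (P (nat_lit 0)))) (M (nat_lit 15687109414433587199))))))]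
def lQp_12 : List (T ℤ) := [(T.h (T.h (T.h (P (nat_lit 0)) (T.h (P (nat_lit 19472614965897669399187292160)) (T.h (P (nat_lit 0)) (M (nat_lit 21163988139213750009855))))) (T.h (P (nat_lit 0)) (T.h (T.h (P (nat_lit 0)) (P (nat_lit 102025982773308359180288))) (P (nat_lit 0))))) (T.h (T.h (P (nat_lit 0)) (T.h (T.h (M (nat_lit 9533650392968229510184959)) (T.h (P (nat_lit 0)) (M (nat_lit 21510889844164788223)))) (T.h (P (nat_lit 0)) (M (nat_lit 4261631954979389439))))) (T.h (T.h (T.h (P (nat_lit 0)) (M (nat_lit 455310933304797036543))) (P (nat_lit 0))) (T.h (T.h (P (nat_lit 0)) (P (nat_lit 18196777769839362048))) (P (nat_lit 0)))))), (P (nat_lit 0)), (P (nat_lit 0)), (T.h (T.h (P (nat_lit 0)) (T.h (T.h (P (nat_lit 0)) (T.h (M (nat_lit 6699686972814614291546111)) (T.h (P (nat_lit 0)) (M (nat_lit 10572818619601780735))))) (T.h (P (nat_lit 0)) (T.h (T.h (P (nat_lit 0)) (P (nat_lit 16964788036543971328))) (P (nat_lit 0)))))) (T.h (T.h (T.h (M (nat_lit 18797913578495883706412040191))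 (T.h (P (nat_lit 0)) (T.h (M (nat_lit 831348500465235001343)) (T.h (P (nat_lit 0)) (M (nat_lit 4698632093433855)))))) (T.h (P (nat_lit 0)) (T.h (T.h (M (nat_lit 1884468549579203149823)) (T.h (P (nat_lit 0)) (P (nat_lit 7225292625543168)))) (T.h (P (nat_lit 0)) (P (nat_lit 6033506803122176)))))) (T.h (T.h (P (nat_lit 0)) (T.h (T.h (P (nat_lit 0)) (M (nat_lit 6907880395153342463))) (P (nat_lit 0)))) (T.h (T.h (T.h (P (nat_lit 3679868749620923334656)) (T.h (P (nat_lit 0)) (M (nat_lit 799398928056319)))) (T.h (P (nat_lit 0)) (M (nat_lit 561367280779263)))) (T.h (P (nat_lit 0)) (M (nat_lit 1873500404449279))))))), (T.h (T.h (P (nat_lit 0)) (T.h (T.h (M (nat_lit 2613273605147549987961307135)) (T.h (P (nat_lit 0)) (P (nat_lit 36272100889309380345856)))) (T.h (P (nat_lit 0)) (M (nat_lit 2747092652249212518399))))) (T.h (T.h (T.h (P (nat_lit 0)) (T.h (M (nat_lit 817752586518847605964799)) (T.h (P (nat_lit 0)) (M (nat_lit 1364636026177323007))))) (T.h (P (nat_lit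 0)) (T.h (T.h (P (nat_lit 0)) (P (nat_lit 12301045624127619072))) (P (nat_lit 0))))) (T.h (T.h (P (nat_lit 0)) (P (nat_lit 36272100889309380345856))) (T.h (T.h (T.h (P (nat_lit 0)) (M (nat_lit 1364636026177323007))) (P (nat_lit 0))) (P (nat_lit 0)))))), (P (nat_lit 0)), (P (nat_lit 0)), (T.h (T.h (T.h (P (nat_lit 0)) (T.h (P (nat_lit 279908450380878969705594880)) (T.h (P (nat_lit 0)) (M (nat_lit 2829812515106405220351))))) (T.h (P (nat_lit 0)) (T.h (T.h (P (nat_lit 0)) (P (nat_lit 9901917847013963071488))) (P (nat_lit 0))))) (T.h (T.h (P (nat_lit 0)) (T.h (T.h (M (nat_lit 2424682419920877020774399)) (T.h (P (nat_lit 0)) (P (nat_lit 10165924027084832768)))) (T.h (P (nat_lit 0)) (P (nat_lit 6178310966397108224))))) (T.h (T.h (T.h (P (nat_lit 0)) (P (nat_lit 25474099469558480896))) (P (nat_lit 0))) (T.h (T.h (P (nat_lit 0)) (M (nat_lit 287420047758983167))) (P (nat_lit 0))))))]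
def lQp_13 : List (T ℤ) := [(P (nat_lit 0)), (P (nat_lit 0)), (P (nat_lit 0)), (P (nat_lit 0)), (P (nat_lit 0)), (P (nat_lit 0)), (T.h (T.h (T.h (M (nat_lit 231541330990421274629362417663)) (T.h (P (nat_lit 0)) (T.h (M (nat_lit 3569015244786354544967679)) (T.h (P (nat_lit 0)) (P (nat_lit 631264490440097792)))))) (T.h (P (nat_lit 0)) (T.h (T.h (P (nat_lit 0)) (T.h (P (nat_lit 0)) (P (nat_lit 4235541714296635392)))) (P (nat_lit 0))))) (T.h (T.h (P (nat_lit 0)) (T.h (T.h (P (nat_lit 0)) (T.h (M (nat_lit 36647654013845643460607)) (T.h (P (nat_lit 0)) (M (nat_lit 3493448433926143))))) (T.h (P (nat_lit 0)) (T.h (T.h (P (nat_lit 0)) (M (nat_lit 6475149598654463))) (P (nat_lit 0)))))) (T.h (T.h (T.h (M (nat_lit 3569015244786354544967679)) (T.h (P (nat_lit 0)) (M (nat_lit 40000117314756280319)))) (T.h (P (nat_lit 0)) (P (nat_lit 4235541714296635392)))) (T.h (T.h (P (nat_lit 0)) (T.h (T.h (P (nat_lit 0)) (M (nat_lit 3493448433926143))) (P (nat_lit 0)))) (P (nat_lit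 631264490440097792)))))), (T.h (T.h (T.h (P (nat_lit 0)) (T.h (P (nat_lit 28945795319755813979670183936)) (T.h (P (nat_lit 0)) (T.h (P (nat_lit 2383344313908043186176)) (T.h (P (nat_lit 0)) (P (nat_lit 1370138480934912))))))) (T.h (P (nat_lit 0)) (T.h (T.h (P (nat_lit 0)) (T.h (M (nat_lit 9895294323822176501759)) (T.h (P (nat_lit 0)) (P (nat_lit 12779192124375040))))) (T.h (P (nat_lit 0)) (T.h (T.h (P (nat_lit 0)) (M (nat_lit 2847357165699071))) (P (nat_lit 0))))))) (T.h (T.h (P (nat_lit 0)) (T.h (T.h (M (nat_lit 8068535727787160463474687)) (T.h (P (nat_lit 0)) (M (nat_lit 43086864515571122175)))) (T.h (P (nat_lit 0)) (P (nat_lit 7916378194117132288))))) (T.h (T.h (T.h (P (nat_lit 0)) (T.h (M (nat_lit 22221354977772968083455)) (T.h (P (nat_lit 0)) (M (nat_lit 3402348208455679))))) (T.h (P (nat_lit 0)) (T.h (T.h (P (nat_lit 0)) (P (nat_lit 19258408876113920))) (P (nat_lit 0))))) (T.h (T.h (P (nat_lit 0)) (M (nat_lit 6315105086901059583))) (T.h (T.h (T.h (P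 (nat_lit 0)) (M (nat_lit 6912399820259327))) (P (nat_lit 0))) (P (nat_lit 0)))))))]
def lQp_14 : List (T ℤ) := [(T.h (T.h (T.h (P (nat_lit 0)) (T.h (P (nat_lit 0)) (T.h (M (nat_lit 202648603037179402256383)) (T.h (P (nat_lit 0)) (P (nat_lit 3437973054217519104)))))) (T.h (P (nat_lit 0)) (T.h (T.h (P (nat_lit 0)) (T.h (P (nat_lit 0)) (M (nat_lit 23194938038433087487)))) (T.h (P (nat_lit 0)) (P (nat_lit 552709772135104512)))))) (T.h (T.h (P (nat_lit 0)) (T.h (T.h (P (nat_lit 0)) (T.h (P (nat_lit 40872332593621807136768)) (T.h (P (nat_lit 0)) (P (nat_lit 5870480457662464))))) (T.h (P (nat_lit 0)) (T.h (T.h (P (nat_lit 0)) (P (nat_lit 7058222133673984))) (P (nat_lit 0)))))) (T.h (T.h (T.h (P (nat_lit 4182641287607808107216896)) (T.h (P (nat_lit 0)) (P (nat_lit 41114478829740490752)))) (T.h (P (nat_lit 0)) (M (nat_lit 2994911782943850495)))) (T.h (T.h (P (nat_lit 0)) (T.h (T.h (P (nat_lit 0)) (M (nat_lit 2868643210854399))) (P (nat_lit 0)))) (P (nat_lit 6692125328539648000)))))),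 (T.h (T.h (T.h (P (nat_lit 0)) (T.h (M (nat_lit 28844577970459765411969761279)) (T.h (P (nat_lit 0)) (M (nat_lit 4503094450705800364031))))) (T.h (P (nat_lit 0)) (T.h (T.h (P (nat_lit 0)) (T.h (M (nat_lit 11022453529369638862847)) (T.h (P (nat_lit 0)) (P (nat_lit 984868572889088))))) (T.h (P (nat_lit 0)) (T.h (T.h (P (nat_lit 0)) (P (nat_lit 2527009741733888))) (P (nat_lit 0))))))) (T.h (T.h (P (nat_lit 0)) (T.h (T.h (P (nat_lit 11966167736419842051276800)) (T.h (P (nat_lit 0)) (P (nat_lit 27081893713398464512)))) (T.h (P (nat_lit 0)) (M (nat_lit 1048887899719729151))))) (T.h (T.h (T.h (P (nat_lit 0)) (T.h (P (nat_lit 32373734643647391989760)) (T.h (P (nat_lit 0)) (P (nat_lit 206375840382976))))) (P (nat_lit 0))) (T.h (T.h (P (nat_lit 0)) (M (nat_lit 2052704746300506111))) (T.h (T.h (T.h (P (nat_lit 0)) (P (nat_lit 4531447495655424))) (P (nat_lit 0))) (P (nat_lit 0))))))), (T.h (T.h (T.h (M (nat_lit 14562162258249013777924918083583)) (T.h (P (nat_lit 0))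 (T.h (M (nat_lit 5400635009370655693996031)) (T.h (P (nat_lit 0)) (P (nat_lit 1544577741599277056)))))) (T.h (P (nat_lit 0)) (T.h (T.h (M (nat_lit 472108168470894989017087)) (T.h (P (nat_lit 0)) (P (nat_lit 2606053976117870592)))) (T.h (P (nat_lit 0)) (M (nat_lit 555935322035191807)))))) (T.h (T.h (P (nat_lit 0)) (T.h (T.h (P (nat_lit 0)) (P (nat_lit 14866527205867955159040))) (P (nat_lit 0)))) (T.h (T.h (T.h (P (nat_lit 1586501907438543587770368)) (T.h (P (nat_lit 0)) (M (nat_lit 272633426224349183)))) (T.h (P (nat_lit 0)) (M (nat_lit 613938376747253759)))) (T.h (P (nat_lit 0)) (M (nat_lit 1238029958807289855)))))), (P (nat_lit 0)), (P (nat_lit 0)), (T.h (T.h (P (nat_lit 0)) (T.h (T.h (P (nat_lit 0)) (T.h (P (nat_lit 4522944407224301738000384)) (T.h (P (nat_lit 0)) (P (nat_lit 4169824286824988672))))) (T.h (P (nat_lit 0)) (T.h (T.h (P (nat_lit 0)) (P (nat_lit 4169824286824988672))) (P (nat_lit 0)))))) (T.h (T.h (T.h (P (nat_lit 0)) (T.h (P (nat_lit 0))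 (T.h (M (nat_lit 393394788669509861375)) (T.h (P (nat_lit 0)) (M (nat_lit 9592676862263295)))))) (T.h (P (nat_lit 0)) (T.h (T.h (M (nat_lit 393394788669509861375)) (T.h (P (nat_lit 0)) (M (nat_lit 2885507989110783)))) (T.h (P (nat_lit 0)) (M (nat_lit 9592676862263295)))))) (T.h (T.h (P (nat_lit 0)) (T.h (T.h (P (nat_lit 0)) (M (nat_lit 20828737242849607679))) (P (nat_lit 0)))) (T.h (T.h (T.h (P (nat_lit 0)) (T.h (P (nat_lit 0)) (M (nat_lit 6466019186049023)))) (T.h (P (nat_lit 0)) (M (nat_lit 6466019186049023)))) (T.h (P (nat_lit 0)) (M (nat_lit 1517611902173183))))))), (T.h (T.h (P (nat_lit 0)) (T.h (T.h (P (nat_lit 54833597080617216735092670464)) (T.h (P (nat_lit 0)) (T.h (P (nat_lit 21629343101892431970304)) (T.h (P (nat_lit 0)) (P (nat_lit 12776891183661056)))))) (T.h (P (nat_lit 0)) (T.h (T.h (P (nat_lit 5178232187410620350464)) (T.h (P (nat_lit 0)) (P (nat_lit 10236741140873216)))) (T.h (P (nat_lit 0)) (M (nat_lit 2525806349647871))))))) (T.h (T.h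 (T.h (P (nat_lit 0)) (T.h (M (nat_lit 48523233508140057460998143)) (T.h (P (nat_lit 0)) (M (nat_lit 29539676022814801919))))) (T.h (P (nat_lit 0)) (T.h (T.h (P (nat_lit 0)) (M (nat_lit 68746395813700173823))) (P (nat_lit 0))))) (T.h (T.h (P (nat_lit 0)) (T.h (T.h (P (nat_lit 21629343101892431970304)) (T.h (P (nat_lit 0)) (P (nat_lit 64676323570876416)))) (T.h (P (nat_lit 0)) (P (nat_lit 10236741140873216))))) (T.h (T.h (T.h (P (nat_lit 0)) (M (nat_lit 29539676022814801919))) (P (nat_lit 0))) (T.h (T.h (P (nat_lit 0)) (P (nat_lit 12776891183661056))) (P (nat_lit 0))))))), (T.h (T.h (P (nat_lit 0)) (T.h (T.h (P (nat_lit 0)) (T.h (P (nat_lit 34896890260477953133510656)) (T.h (P (nat_lit 0)) (M (nat_lit 4843534344947499007))))) (T.h (P (nat_lit 0)) (T.h (T.h (P (nat_lit 0)) (M (nat_lit 20633998151227801599))) (P (nat_lit 0)))))) (T.h (T.h (T.h (M (nat_lit 15323652974161629456552165375)) (T.h (P (nat_lit 0)) (T.h (M (nat_lit 133145752350664754724863)) (T.h (P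 (nat_lit 0)) (P (nat_lit 16085244215427072)))))) (T.h (P (nat_lit 0)) (T.h (T.h (P (nat_lit 16417494585337287016448)) (T.h (P (nat_lit 0)) (P (nat_lit 29603302290817024)))) (T.h (P (nat_lit 0)) (P (nat_lit 13110701554270208)))))) (T.h (T.h (P (nat_lit 0)) (T.h (T.h (P (nat_lit 0)) (P (nat_lit 31757819259306115072))) (P (nat_lit 0)))) (T.h (T.h (T.h (M (nat_lit 7432244864728912887807)) (T.h (P (nat_lit 0)) (P (nat_lit 29997582427947008)))) (T.h (P (nat_lit 0)) (P (nat_lit 9334012262744064)))) (P (nat_lit 0))))))]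
def lQp_15 : List (T ℤ) := [(T.h (T.h (P (nat_lit 0)) (T.h (T.h (M (nat_lit 58574380961083223437918339071)) (T.h (P (nat_lit 0)) (T.h (M (nat_lit 34599514990749855776767)) (T.h (P (nat_lit 0)) (M (nat_lit 6249999989735423)))))) (T.h (P (nat_lit 0)) (T.h (T.h (M (nat_lit 27880110966639568093183)) (T.h (P (nat_lit 0)) (P (nat_lit 22955203721953280)))) (T.h (P (nat_lit 0)) (M (nat_lit 4960118145810431))))))) (T.h (T.h (T.h (P (nat_lit 0)) (T.h (P (nat_lit 18380053101843787370463232)) (T.h (P (nat_lit 0)) (P (nat_lit 99410439369893347328))))) (T.h (P (nat_lit 0)) (T.h (T.h (P (nat_lit 0)) (P (nat_lit 32711687646010671104))) (P (nat_lit 0))))) (T.h (T.h (P (nat_lit 0)) (T.h (T.h (P (nat_lit 31221050384512760938496)) (T.h (P (nat_lit 0)) (M (nat_lit 64607531855773695)))) (T.h (P (nat_lit 0)) (M (nat_lit 232382978588671))))) (T.h (T.h (T.h (P (nat_lit 0)) (P (nat_lit 23294325925104058368))) (P (nat_lit 0))) (T.h (T.h (P (nat_lit 0)) (M (nat_lit 9702446940815359)))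 (P (nat_lit 0))))))), (T.h (T.h (P (nat_lit 0)) (T.h (T.h (P (nat_lit 0)) (T.h (M (nat_lit 9533650392968229510184959)) (T.h (P (nat_lit 0)) (M (nat_lit 4261631954979389439))))) (T.h (P (nat_lit 0)) (T.h (T.h (P (nat_lit 0)) (P (nat_lit 18196777769839362048))) (P (nat_lit 0)))))) (T.h (T.h (T.h (P (nat_lit 19472614965897669399187292160)) (T.h (P (nat_lit 0)) (P (nat_lit 102025982773308359180288)))) (T.h (P (nat_lit 0)) (M (nat_lit 455310933304797036543)))) (T.h (T.h (P (nat_lit 0)) (T.h (T.h (P (nat_lit 0)) (M (nat_lit 21510889844164788223))) (P (nat_lit 0)))) (M (nat_lit 21163988139213750009855))))), (P (nat_lit 0)), (P (nat_lit 0)), (T.h (T.h (M (nat_lit 231541330990421274629362417663)) (T.h (P (nat_lit 0)) (T.h (T.h (M (nat_lit 3569015244786354544967679)) (T.h (P (nat_lit 0)) (P (nat_lit 4235541714296635392)))) (T.h (P (nat_lit 0)) (P (nat_lit 631264490440097792)))))) (T.h (T.h (P (nat_lit 0)) (T.h (T.h (P (nat_lit 0)) (T.h (M (nat_lit 36647654013845643460607))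 (T.h (P (nat_lit 0)) (M (nat_lit 6475149598654463))))) (T.h (P (nat_lit 0)) (T.h (T.h (P (nat_lit 0)) (M (nat_lit 3493448433926143))) (P (nat_lit 0)))))) (T.h (T.h (T.h (M (nat_lit 3569015244786354544967679)) (T.h (P (nat_lit 0)) (P (nat_lit 4235541714296635392)))) (T.h (P (nat_lit 0)) (M (nat_lit 40000117314756280319)))) (T.h (T.h (P (nat_lit 0)) (T.h (T.h (P (nat_lit 0)) (M (nat_lit 3493448433926143))) (P (nat_lit 0)))) (P (nat_lit 631264490440097792)))))), (T.h (T.h (T.h (P (nat_lit 0)) (T.h (P (nat_lit 54833597080617216735092670464)) (T.h (P (nat_lit 0)) (T.h (P (nat_lit 5178232187410620350464)) (T.h (P (nat_lit 0)) (M (nat_lit 2525806349647871))))))) (T.h (P (nat_lit 0)) (T.h (T.h (P (nat_lit 0)) (T.h (P (nat_lit 21629343101892431970304)) (T.h (P (nat_lit 0)) (P (nat_lit 10236741140873216))))) (T.h (P (nat_lit 0)) (T.h (T.h (P (nat_lit 0)) (P (nat_lit 12776891183661056))) (P (nat_lit 0))))))) (T.h (T.h (P (nat_lit 0)) (T.h (T.h (M (nat_lit 48523233508140057460998143))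 (T.h (P (nat_lit 0)) (M (nat_lit 68746395813700173823)))) (T.h (P (nat_lit 0)) (M (nat_lit 29539676022814801919))))) (T.h (T.h (T.h (P (nat_lit 0)) (T.h (P (nat_lit 21629343101892431970304)) (T.h (P (nat_lit 0)) (P (nat_lit 10236741140873216))))) (T.h (P (nat_lit 0)) (T.h (T.h (P (nat_lit 0)) (P (nat_lit 64676323570876416))) (P (nat_lit 0))))) (T.h (T.h (P (nat_lit 0)) (M (nat_lit 29539676022814801919))) (T.h (T.h (T.h (P (nat_lit 0)) (P (nat_lit 12776891183661056))) (P (nat_lit 0))) (P (nat_lit 0))))))), (T.h (T.h (T.h (P (nat_lit 4862367950798846767216610770944)) (T.h (P (nat_lit 0)) (T.h (P (nat_lit 43685808395457605964660736)) (T.h (P (nat_lit 0)) (P (nat_lit 23982696426205347840)))))) (T.h (P (nat_lit 0)) (T.h (T.h (P (nat_lit 43685808395457605964660736)) (T.h (P (nat_lit 0)) (P (nat_lit 22981368573302145024)))) (T.h (P (nat_lit 0)) (P (nat_lit 23982696426205347840)))))) (T.h (T.h (P (nat_lit 0)) (T.h (T.h (P (nat_lit 0)) (T.h (M (nat_lit 141641050016982597894143))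 (T.h (P (nat_lit 0)) (P (nat_lit 59011442519572480))))) (T.h (P (nat_lit 0)) (T.h (T.h (P (nat_lit 0)) (P (nat_lit 59011442519572480))) (P (nat_lit 0)))))) (T.h (T.h (T.h (P (nat_lit 43685808395457605964660736)) (T.h (P (nat_lit 0)) (P (nat_lit 22981368573302145024)))) (T.h (P (nat_lit 0)) (P (nat_lit 22981368573302145024)))) (T.h (T.h (P (nat_lit 0)) (T.h (T.h (P (nat_lit 0)) (P (nat_lit 59011442519572480))) (P (nat_lit 0)))) (P (nat_lit 23982696426205347840)))))), (T.h (T.h (T.h (P (nat_lit 0)) (T.h (M (nat_lit 18526433989661232805271568383)) (T.h (P (nat_lit 0)) (T.h (M (nat_lit 30733479734969039323135)) (T.h (P (nat_lit 0)) (M (nat_lit 12727480890163199))))))) (T.h (P (nat_lit 0)) (T.h (T.h (P (nat_lit 0)) (T.h (M (nat_lit 5089872491259180875775)) (T.h (P (nat_lit 0)) (M (nat_lit 18660875513102335))))) (T.h (P (nat_lit 0)) (T.h (T.h (P (nat_lit 0)) (P (nat_lit 1145852948905984))) (P (nat_lit 0))))))) (T.h (T.h (P (nat_lit 0)) (T.h (T.h (M (nat_lit 22252484142401206406348799))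 (T.h (P (nat_lit 0)) (P (nat_lit 340294424677025054720)))) (T.h (P (nat_lit 0)) (M (nat_lit 3952518686148919295))))) (T.h (T.h (T.h (P (nat_lit 0)) (T.h (M (nat_lit 5089872491259180875775)) (T.h (P (nat_lit 0)) (M (nat_lit 18660875513102335))))) (T.h (P (nat_lit 0)) (T.h (T.h (P (nat_lit 0)) (M (nat_lit 109262232649465855))) (P (nat_lit 0))))) (T.h (T.h (P (nat_lit 0)) (M (nat_lit 3952518686148919295))) (T.h (T.h (T.h (P (nat_lit 0)) (P (nat_lit 1145852948905984))) (P (nat_lit 0))) (P (nat_lit 0)))))))]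
def lQp_16 : List (T ℤ) := [(T.h (T.h (T.h (M (nat_lit 45547003984978852827402050994175)) (T.h (P (nat_lit 0)) (T.h (M (nat_lit 35319305880671328002899967)) (T.h (P (nat_lit 0)) (M (nat_lit 19491175534153433087)))))) (T.h (P (nat_lit 0)) (T.h (T.h (M (nat_lit 11990256178027355455881215)) (T.h (P (nat_lit 0)) (M (nat_lit 13241484090680541183)))) (T.h (P (nat_lit 0)) (M (nat_lit 8539439288566153215)))))) (T.h (T.h (P (nat_lit 0)) (T.h (T.h (P (nat_lit 0)) (P (nat_lit 129973717396666441531392))) (P (nat_lit 0)))) (T.h (T.h (T.h (M (nat_lit 11990256178027355455881215)) (T.h (P (nat_lit 0)) (M (nat_lit 13241484090680541183)))) (T.h (P (nat_lit 0)) (M (nat_lit 28328071813375459327)))) (T.h (P (nat_lit 0)) (M (nat_lit 8539439288566153215)))))), (P (nat_lit 0)), (P (nat_lit 0)), (T.h (T.h (P (nat_lit 0)) (T.h (T.h (P (nat_lit 28945795319755813979670183936)) (T.h (P (nat_lit 0)) (T.h (M (nat_lit 9895294323822176501759)) (T.h (P (nat_lit 0)) (M (nat_lit 2847357165699071))))))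 (T.h (P (nat_lit 0)) (T.h (T.h (P (nat_lit 2383344313908043186176)) (T.h (P (nat_lit 0)) (P (nat_lit 12779192124375040)))) (T.h (P (nat_lit 0)) (P (nat_lit 1370138480934912))))))) (T.h (T.h (T.h (P (nat_lit 0)) (T.h (M (nat_lit 8068535727787160463474687)) (T.h (P (nat_lit 0)) (P (nat_lit 7916378194117132288))))) (T.h (P (nat_lit 0)) (T.h (T.h (P (nat_lit 0)) (M (nat_lit 43086864515571122175))) (P (nat_lit 0))))) (T.h (T.h (P (nat_lit 0)) (T.h (T.h (M (nat_lit 22221354977772968083455)) (T.h (P (nat_lit 0)) (P (nat_lit 19258408876113920)))) (T.h (P (nat_lit 0)) (M (nat_lit 3402348208455679))))) (T.h (T.h (T.h (P (nat_lit 0)) (M (nat_lit 6315105086901059583))) (P (nat_lit 0))) (T.h (T.h (P (nat_lit 0)) (M (nat_lit 6912399820259327))) (P (nat_lit 0))))))), (T.h (T.h (P (nat_lit 0)) (T.h (T.h (P (nat_lit 0)) (T.h (P (nat_lit 34896890260477953133510656)) (T.h (P (nat_lit 0)) (M (nat_lit 20633998151227801599))))) (T.h (P (nat_lit 0)) (T.h (T.h (P (nat_lit 0)) (M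 (nat_lit 4843534344947499007))) (P (nat_lit 0)))))) (T.h (T.h (T.h (M (nat_lit 15323652974161629456552165375)) (T.h (P (nat_lit 0)) (T.h (P (nat_lit 16417494585337287016448)) (T.h (P (nat_lit 0)) (P (nat_lit 13110701554270208)))))) (T.h (P (nat_lit 0)) (T.h (T.h (M (nat_lit 133145752350664754724863)) (T.h (P (nat_lit 0)) (P (nat_lit 29603302290817024)))) (T.h (P (nat_lit 0)) (P (nat_lit 16085244215427072)))))) (T.h (T.h (P (nat_lit 0)) (T.h (T.h (P (nat_lit 0)) (P (nat_lit 31757819259306115072))) (P (nat_lit 0)))) (T.h (T.h (T.h (M (nat_lit 7432244864728912887807)) (T.h (P (nat_lit 0)) (P (nat_lit 9334012262744064)))) (T.h (P (nat_lit 0)) (P (nat_lit 29997582427947008)))) (P (nat_lit 0)))))), (T.h (T.h (P (nat_lit 0)) (T.h (T.h (M (nat_lit 18526433989661232805271568383)) (T.h (P (nat_lit 0)) (T.h (M (nat_lit 5089872491259180875775)) (T.h (P (nat_lit 0)) (P (nat_lit 1145852948905984)))))) (T.h (P (nat_lit 0)) (T.h (T.h (M (nat_lit 30733479734969039323135))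 (T.h (P (nat_lit 0)) (M (nat_lit 18660875513102335)))) (T.h (P (nat_lit 0)) (M (nat_lit 12727480890163199))))))) (T.h (T.h (T.h (P (nat_lit 0)) (T.h (M (nat_lit 22252484142401206406348799)) (T.h (P (nat_lit 0)) (M (nat_lit 3952518686148919295))))) (T.h (P (nat_lit 0)) (T.h (T.h (P (nat_lit 0)) (P (nat_lit 340294424677025054720))) (P (nat_lit 0))))) (T.h (T.h (P (nat_lit 0)) (T.h (T.h (M (nat_lit 5089872491259180875775)) (T.h (P (nat_lit 0)) (M (nat_lit 109262232649465855)))) (T.h (P (nat_lit 0)) (M (nat_lit 18660875513102335))))) (T.h (T.h (T.h (P (nat_lit 0)) (M (nat_lit 3952518686148919295))) (P (nat_lit 0))) (T.h (T.h (P (nat_lit 0)) (P (nat_lit 1145852948905984))) (P (nat_lit 0))))))), (T.h (T.h (P (nat_lit 0)) (T.h (T.h (P (nat_lit 0)) (T.h (M (nat_lit 13098764831426538217930751)) (T.h (P (nat_lit 0)) (M (nat_lit 3668940946935906303))))) (T.h (P (nat_lit 0)) (T.h (T.h (P (nat_lit 0)) (M (nat_lit 3668940946935906303))) (P (nat_lit 0)))))) (T.h (T.h (T.h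 (P (nat_lit 21394652370805987842944139264)) (T.h (P (nat_lit 0)) (P (nat_lit 32713518745630160191488)))) (T.h (P (nat_lit 0)) (P (nat_lit 32713518745630160191488)))) (T.h (T.h (P (nat_lit 0)) (T.h (T.h (P (nat_lit 0)) (M (nat_lit 52019409660372058111))) (P (nat_lit 0)))) (M (nat_lit 22868238238723386376191))))), (P (nat_lit 0))]
def lQp_17 : List (T ℤ) := [(P (nat_lit 0)), (T.h (T.h (T.h (P (nat_lit 0)) (T.h (P (nat_lit 0)) (T.h (P (nat_lit 0)) (T.h (P (nat_lit 0)) (P (nat_lit 552709772135104512)))))) (T.h (P (nat_lit 0)) (T.h (T.h (M (nat_lit 202648603037179402256383)) (T.h (P (nat_lit 0)) (M (nat_lit 23194938038433087487)))) (T.h (P (nat_lit 0)) (P (nat_lit 3437973054217519104)))))) (T.h (T.h (P (nat_lit 0)) (T.h (T.h (P (nat_lit 0)) (T.h (P (nat_lit 40872332593621807136768)) (T.h (P (nat_lit 0)) (P (nat_lit 7058222133673984))))) (T.h (P (nat_lit 0)) (T.h (T.h (P (nat_lit 0)) (P (nat_lit 5870480457662464))) (P (nat_lit 0)))))) (T.h (T.h (T.h (P (nat_lit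 4182641287607808107216896)) (T.h (P (nat_lit 0)) (M (nat_lit 2994911782943850495)))) (T.h (P (nat_lit 0)) (P (nat_lit 41114478829740490752)))) (T.h (T.h (P (nat_lit 0)) (T.h (T.h (P (nat_lit 0)) (M (nat_lit 2868643210854399))) (P (nat_lit 0)))) (P (nat_lit 6692125328539648000)))))), (T.h (T.h (T.h (P (nat_lit 0)) (T.h (M (nat_lit 58574380961083223437918339071)) (T.h (P (nat_lit 0)) (T.h (M (nat_lit 27880110966639568093183)) (T.h (P (nat_lit 0)) (M (nat_lit 4960118145810431))))))) (T.h (P (nat_lit 0)) (T.h (T.h (P (nat_lit 0)) (T.h (M (nat_lit 34599514990749855776767)) (T.h (P (nat_lit 0)) (P (nat_lit 22955203721953280))))) (T.h (P (nat_lit 0)) (T.h (T.h (P (nat_lit 0)) (M (nat_lit 6249999989735423))) (P (nat_lit 0))))))) (T.h (T.h (P (nat_lit 0)) (T.h (T.h (P (nat_lit 18380053101843787370463232)) (T.h (P (nat_lit 0)) (P (nat_lit 32711687646010671104)))) (T.h (P (nat_lit 0)) (P (nat_lit 99410439369893347328))))) (T.h (T.h (T.h (P (nat_lit 0)) (T.h (P (nat_lit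 31221050384512760938496)) (T.h (P (nat_lit 0)) (M (nat_lit 232382978588671))))) (T.h (P (nat_lit 0)) (T.h (T.h (P (nat_lit 0)) (M (nat_lit 64607531855773695))) (P (nat_lit 0))))) (T.h (T.h (P (nat_lit 0)) (P (nat_lit 23294325925104058368))) (T.h (T.h (T.h (P (nat_lit 0)) (M (nat_lit 9702446940815359))) (P (nat_lit 0))) (P (nat_lit 0))))))), (T.h (T.h (T.h (M (nat_lit 45547003984978852827402050994175)) (T.h (P (nat_lit 0)) (T.h (M (nat_lit 11990256178027355455881215)) (T.h (P (nat_lit 0)) (M (nat_lit 8539439288566153215)))))) (T.h (P (nat_lit 0)) (T.h (T.h (M (nat_lit 35319305880671328002899967)) (T.h (P (nat_lit 0)) (M (nat_lit 13241484090680541183)))) (T.h (P (nat_lit 0)) (M (nat_lit 19491175534153433087)))))) (T.h (T.h (P (nat_lit 0)) (T.h (T.h (P (nat_lit 0)) (P (nat_lit 129973717396666441531392))) (P (nat_lit 0)))) (T.h (T.h (T.h (M (nat_lit 11990256178027355455881215)) (T.h (P (nat_lit 0)) (M (nat_lit 28328071813375459327)))) (T.h (P (nat_lit 0)) (M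 (nat_lit 13241484090680541183)))) (T.h (P (nat_lit 0)) (M (nat_lit 8539439288566153215)))))), (P (nat_lit 0)), (P (nat_lit 0)), (T.h (T.h (P (nat_lit 0)) (T.h (T.h (M (nat_lit 28844577970459765411969761279)) (T.h (P (nat_lit 0)) (T.h (M (nat_lit 11022453529369638862847)) (T.h (P (nat_lit 0)) (P (nat_lit 2527009741733888)))))) (T.h (P (nat_lit 0)) (T.h (T.h (M (nat_lit 4503094450705800364031)) (T.h (P (nat_lit 0)) (P (nat_lit 984868572889088)))) (P (nat_lit 0)))))) (T.h (T.h (T.h (P (nat_lit 0)) (T.h (P (nat_lit 11966167736419842051276800)) (T.h (P (nat_lit 0)) (M (nat_lit 1048887899719729151))))) (T.h (P (nat_lit 0)) (T.h (T.h (P (nat_lit 0)) (P (nat_lit 27081893713398464512))) (P (nat_lit 0))))) (T.h (T.h (P (nat_lit 0)) (T.h (P (nat_lit 32373734643647391989760)) (T.h (P (nat_lit 0)) (P (nat_lit 206375840382976))))) (T.h (T.h (T.h (P (nat_lit 0)) (M (nat_lit 2052704746300506111))) (P (nat_lit 0))) (T.h (T.h (P (nat_lit 0)) (P (nat_lit 4531447495655424)))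 (P (nat_lit 0))))))), (T.h (T.h (P (nat_lit 0)) (T.h (T.h (P (nat_lit 0)) (T.h (M (nat_lit 9533650392968229510184959)) (T.h (P (nat_lit 0)) (P (nat_lit 18196777769839362048))))) (T.h (P (nat_lit 0)) (T.h (T.h (P (nat_lit 0)) (M (nat_lit 4261631954979389439))) (P (nat_lit 0)))))) (T.h (T.h (T.h (P (nat_lit 19472614965897669399187292160)) (T.h (P (nat_lit 0)) (M (nat_lit 455310933304797036543)))) (T.h (P (nat_lit 0)) (P (nat_lit 102025982773308359180288)))) (T.h (T.h (P (nat_lit 0)) (T.h (T.h (P (nat_lit 0)) (M (nat_lit 21510889844164788223))) (P (nat_lit 0)))) (M (nat_lit 21163988139213750009855)))))]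
def lQp_18 : List (T ℤ) := [(P (nat_lit 0)), (P (nat_lit 0)), (T.h (T.h (T.h (M (nat_lit 14562162258249013777924918083583)) (T.h (P (nat_lit 0)) (T.h (M (nat_lit 472108168470894989017087)) (T.h (P (nat_lit 0)) (M (nat_lit 555935322035191807)))))) (T.h (P (nat_lit 0)) (T.h (T.h (M (nat_lit 5400635009370655693996031)) (T.h (P (nat_lit 0)) (P (nat_lit 2606053976117870592)))) (T.h (P (nat_lit 0)) (P (nat_lit 1544577741599277056)))))) (T.h (T.h (P (nat_lit 0)) (T.h (T.h (P (nat_lit 0)) (P (nat_lit 14866527205867955159040))) (P (nat_lit 0)))) (T.h (T.h (T.h (P (nat_lit 1586501907438543587770368)) (T.h (P (nat_lit 0)) (M (nat_lit 613938376747253759)))) (T.h (P (nat_lit 0)) (M (nat_lit 272633426224349183)))) (T.h (P (nat_lit 0)) (M (nat_lit 1238029958807289855)))))), (P (nat_lit 0)), (P (nat_lit 0)), (P (nat_lit 0)), (P (nat_lit 0)), (P (nat_lit 0))]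
def lQp_19 : List (T ℤ) := [(T.h (T.h (P (nat_lit 0)) (T.h (T.h (P (nat_lit 2442310398557518728414625792)) (T.h (P (nat_lit 0)) (T.h (M (nat_lit 3047215125714868109311)) (T.h (P (nat_lit 0)) (M (nat_lit 1626567914815487)))))) (T.h (P (nat_lit 0)) (T.h (T.h (P (nat_lit 3679752308041006972928)) (T.h (P (nat_lit 0)) (P (nat_lit 140431119548416)))) (T.h (P (nat_lit 0)) (M (nat_lit 11815390019583))))))) (T.h (T.h (T.h (P (nat_lit 0)) (T.h (M (nat_lit 14280217490853106859114495)) (T.h (P (nat_lit 0)) (P (nat_lit 3431769517741572096))))) (T.h (P (nat_lit 0)) (T.h (T.h (P (nat_lit 0)) (P (nat_lit 3565072346572128256))) (P (nat_lit 0))))) (T.h (T.h (P (nat_lit 0)) (T.h (T.h (P (nat_lit 10983023708140231196672)) (T.h (P (nat_lit 0)) (P (nat_lit 3547622079004672)))) (T.h (P (nat_lit 0)) (M (nat_lit 1039951104770047))))) (T.h (T.h (T.h (P (nat_lit 0)) (M (nat_lit 5463924327831306239))) (P (nat_lit 0))) (T.h (T.h (P (nat_lit 0)) (M (nat_lit 664208017784831))) (P (nat_lit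 0))))))), (T.h (T.h (P (nat_lit 0)) (T.h (T.h (P (nat_lit 0)) (T.h (M (nat_lit 8068535727787160463474687)) (T.h (P (nat_lit 0)) (M (nat_lit 6315105086901059583))))) (T.h (P (nat_lit 0)) (T.h (T.h (P (nat_lit 0)) (P (nat_lit 7916378194117132288))) (P (nat_lit 0)))))) (T.h (T.h (T.h (P (nat_lit 28945795319755813979670183936)) (T.h (P (nat_lit 0)) (T.h (M (nat_lit 22221354977772968083455)) (T.h (P (nat_lit 0)) (M (nat_lit 6912399820259327)))))) (T.h (P (nat_lit 0)) (T.h (T.h (M (nat_lit 9895294323822176501759)) (T.h (P (nat_lit 0)) (P (nat_lit 19258408876113920)))) (T.h (P (nat_lit 0)) (M (nat_lit 2847357165699071)))))) (T.h (T.h (P (nat_lit 0)) (T.h (T.h (P (nat_lit 0)) (M (nat_lit 43086864515571122175))) (P (nat_lit 0)))) (T.h (T.h (T.h (P (nat_lit 2383344313908043186176)) (T.h (P (nat_lit 0)) (M (nat_lit 3402348208455679)))) (T.h (P (nat_lit 0)) (P (nat_lit 12779192124375040)))) (T.h (P (nat_lit 0)) (P (nat_lit 1370138480934912))))))), (T.h (T.h (P (nat_lit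 0)) (T.h (T.h (M (nat_lit 2120122278237486535193657343)) (T.h (P (nat_lit 0)) (T.h (P (nat_lit 13584920725667681665024)) (T.h (P (nat_lit 0)) (P (nat_lit 3993105336041472)))))) (T.h (P (nat_lit 0)) (T.h (T.h (P (nat_lit 1352678270254679326720)) (T.h (P (nat_lit 0)) (P (nat_lit 2523038380785664)))) (P (nat_lit 0)))))) (T.h (T.h (T.h (P (nat_lit 0)) (T.h (P (nat_lit 22460120382946506830774272)) (T.h (P (nat_lit 0)) (P (nat_lit 9651679485245784064))))) (T.h (P (nat_lit 0)) (T.h (T.h (P (nat_lit 0)) (M (nat_lit 21126162680394022911))) (P (nat_lit 0))))) (T.h (T.h (P (nat_lit 0)) (T.h (T.h (P (nat_lit 13584920725667681665024)) (T.h (P (nat_lit 0)) (M (nat_lit 786403700375551)))) (T.h (P (nat_lit 0)) (P (nat_lit 2523038380785664))))) (T.h (T.h (T.h (P (nat_lit 0)) (P (nat_lit 9651679485245784064))) (P (nat_lit 0))) (T.h (T.h (P (nat_lit 0)) (P (nat_lit 3993105336041472))) (P (nat_lit 0))))))), (T.h (T.h (P (nat_lit 0)) (T.h (T.h (P (nat_lit 0)) (T.h (P (nat_lit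 33579549897271383517298688)) (T.h (P (nat_lit 0)) (M (nat_lit 8849408785970626559))))) (T.h (P (nat_lit 0)) (T.h (T.h (P (nat_lit 0)) (P (nat_lit 3541372019637485568))) (P (nat_lit 0)))))) (T.h (T.h (T.h (M (nat_lit 37893429309236406925974831103)) (T.h (P (nat_lit 0)) (T.h (P (nat_lit 46722084582422631940096)) (T.h (P (nat_lit 0)) (P (nat_lit 14077589957378048)))))) (T.h (P (nat_lit 0)) (T.h (T.h (P (nat_lit 4104446577559067426816)) (T.h (P (nat_lit 0)) (P (nat_lit 45416800770588672)))) (T.h (P (nat_lit 0)) (M (nat_lit 11279627034034175)))))) (T.h (T.h (P (nat_lit 0)) (T.h (T.h (P (nat_lit 0)) (M (nat_lit 3982024280127832063))) (P (nat_lit 0)))) (T.h (T.h (T.h (P (nat_lit 5387817051542781952000)) (T.h (P (nat_lit 0)) (P (nat_lit 13167663938011136)))) (T.h (P (nat_lit 0)) (P (nat_lit 7436073746825216)))) (T.h (P (nat_lit 0)) (M (nat_lit 1532455800799231))))))), (T.h (T.h (P (nat_lit 0)) (T.h (T.h (P (nat_lit 4996804256147560436517044224)) (T.h (P (nat_lit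 0)) (M (nat_lit 4296544144108300533759)))) (T.h (P (nat_lit 0)) (M (nat_lit 699374331989025882111))))) (T.h (T.h (T.h (P (nat_lit 0)) (T.h (P (nat_lit 7693749846238283348049920)) (T.h (P (nat_lit 0)) (P (nat_lit 14521116546631204864))))) (T.h (P (nat_lit 0)) (T.h (T.h (P (nat_lit 0)) (P (nat_lit 23253401994541400064))) (P (nat_lit 0))))) (T.h (T.h (P (nat_lit 0)) (M (nat_lit 257028261180969320447))) (T.h (T.h (T.h (P (nat_lit 0)) (P (nat_lit 11382046171812855808))) (P (nat_lit 0))) (P (nat_lit 0)))))), (P (nat_lit 0)), (P (nat_lit 0)), (T.h (T.h (T.h (P (nat_lit 0)) (T.h (P (nat_lit 2442310398557518728414625792)) (T.h (P (nat_lit 0)) (T.h (P (nat_lit 3679752308041006972928)) (T.h (P (nat_lit 0)) (M (nat_lit 11815390019583))))))) (T.h (P (nat_lit 0)) (T.h (T.h (P (nat_lit 0)) (T.h (M (nat_lit 3047215125714868109311)) (T.h (P (nat_lit 0)) (P (nat_lit 140431119548416))))) (T.h (P (nat_lit 0)) (T.h (T.h (P (nat_lit 0)) (M (nat_lit 1626567914815487))) (P (nat_lit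 0))))))) (T.h (T.h (P (nat_lit 0)) (T.h (T.h (M (nat_lit 14280217490853106859114495)) (T.h (P (nat_lit 0)) (P (nat_lit 3565072346572128256)))) (T.h (P (nat_lit 0)) (P (nat_lit 3431769517741572096))))) (T.h (T.h (T.h (P (nat_lit 0)) (T.h (P (nat_lit 10983023708140231196672)) (T.h (P (nat_lit 0)) (M (nat_lit 1039951104770047))))) (T.h (P (nat_lit 0)) (T.h (T.h (P (nat_lit 0)) (P (nat_lit 3547622079004672))) (P (nat_lit 0))))) (T.h (T.h (P (nat_lit 0)) (M (nat_lit 5463924327831306239))) (T.h (T.h (T.h (P (nat_lit 0)) (M (nat_lit 664208017784831))) (P (nat_lit 0))) (P (nat_lit 0)))))))]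
def lQp_20 : List (T ℤ) := [(T.h (T.h (T.h (P (nat_lit 3143737244969936869129166258176)) (T.h (P (nat_lit 0)) (T.h (M (nat_lit 12155214700718626088943615)) (T.h (P (nat_lit 0)) (P (nat_lit 14689685651503185920)))))) (T.h (P (nat_lit 0)) (T.h (T.h (M (nat_lit 12155214700718626088943615)) (T.h (P (nat_lit 0)) (P (nat_lit 10583644917895004160)))) (T.h (P (nat_lit 0)) (P (nat_lit 14689685651503185920)))))) (T.h (T.h (P (nat_lit 0)) (T.h (T.h (P (nat_lit 0)) (T.h (P (nat_lit 32851468501967855157248)) (T.h (P (nat_lit 0)) (M (nat_lit 16763430138347519))))) (T.h (P (nat_lit 0)) (T.h (T.h (P (nat_lit 0)) (M (nat_lit 16763430138347519))) (P (nat_lit 0)))))) (T.h (T.h (T.h (P (nat_lit 26474240155417147621769216)) (T.h (P (nat_lit 0)) (M (nat_lit 102134599549219504127)))) (T.h (P (nat_lit 0)) (M (nat_lit 102134599549219504127)))) (T.h (T.h (P (nat_lit 0)) (T.h (T.h (P (nat_lit 0)) (M (nat_lit 13303475283951615))) (P (nat_lit 0)))) (P (nat_lit 21098483973839912960)))))),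 (T.h (T.h (T.h (P (nat_lit 0)) (T.h (M (nat_lit 15323652974161629456552165375)) (T.h (P (nat_lit 0)) (M (nat_lit 7432244864728912887807))))) (T.h (P (nat_lit 0)) (T.h (T.h (P (nat_lit 0)) (T.h (P (nat_lit 16417494585337287016448)) (T.h (P (nat_lit 0)) (P (nat_lit 9334012262744064))))) (T.h (P (nat_lit 0)) (T.h (T.h (P (nat_lit 0)) (P (nat_lit 13110701554270208))) (P (nat_lit 0))))))) (T.h (T.h (P (nat_lit 0)) (T.h (T.h (P (nat_lit 34896890260477953133510656)) (T.h (P (nat_lit 0)) (P (nat_lit 31757819259306115072)))) (T.h (P (nat_lit 0)) (M (nat_lit 20633998151227801599))))) (T.h (T.h (T.h (P (nat_lit 0)) (T.h (M (nat_lit 133145752350664754724863)) (T.h (P (nat_lit 0)) (P (nat_lit 29997582427947008))))) (T.h (P (nat_lit 0)) (T.h (T.h (P (nat_lit 0)) (P (nat_lit 29603302290817024))) (P (nat_lit 0))))) (T.h (T.h (P (nat_lit 0)) (M (nat_lit 4843534344947499007))) (T.h (T.h (T.h (P (nat_lit 0)) (P (nat_lit 16085244215427072))) (P (nat_lit 0))) (P (nat_lit 0))))))),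 (T.h (T.h (T.h (M (nat_lit 17765556308971075958502567444479)) (T.h (P (nat_lit 0)) (T.h (M (nat_lit 42099295970988032559939583)) (T.h (P (nat_lit 0)) (M (nat_lit 30418881608041889791)))))) (T.h (P (nat_lit 0)) (T.h (T.h (P (nat_lit 64187238630778862282211328)) (T.h (P (nat_lit 0)) (P (nat_lit 19068183177919987712)))) (T.h (P (nat_lit 0)) (P (nat_lit 6350658493317382144)))))) (T.h (T.h (P (nat_lit 0)) (T.h (T.h (P (nat_lit 0)) (T.h (M (nat_lit 90159392084587043618815)) (T.h (P (nat_lit 0)) (P (nat_lit 18406538656612352))))) (T.h (P (nat_lit 0)) (T.h (T.h (P (nat_lit 0)) (P (nat_lit 77949370537345024))) (P (nat_lit 0)))))) (T.h (T.h (T.h (M (nat_lit 42099295970988032559939583)) (T.h (P (nat_lit 0)) (P (nat_lit 278419749500927082496)))) (T.h (P (nat_lit 0)) (P (nat_lit 19068183177919987712)))) (T.h (T.h (P (nat_lit 0)) (T.h (T.h (P (nat_lit 0)) (P (nat_lit 18406538656612352))) (P (nat_lit 0)))) (M (nat_lit 30418881608041889791)))))), (T.h (T.h (T.h (P (nat_lit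 0)) (T.h (P (nat_lit 6000969113615189185396736000)) (T.h (P (nat_lit 0)) (M (nat_lit 24438338849772933218303))))) (P (nat_lit 0))) (T.h (T.h (P (nat_lit 0)) (T.h (T.h (M (nat_lit 6083335303084980110884863)) (T.h (P (nat_lit 0)) (P (nat_lit 4310567372663554048)))) (T.h (P (nat_lit 0)) (P (nat_lit 8285720689671929856))))) (T.h (T.h (T.h (P (nat_lit 0)) (P (nat_lit 111759690933996743557120))) (P (nat_lit 0))) (T.h (T.h (P (nat_lit 0)) (M (nat_lit 1415962012927655935))) (P (nat_lit 0)))))), (P (nat_lit 0)), (P (nat_lit 0)), (T.h (T.h (P (nat_lit 0)) (T.h (T.h (P (nat_lit 0)) (T.h (M (nat_lit 8068535727787160463474687)) (T.h (P (nat_lit 0)) (P (nat_lit 7916378194117132288))))) (T.h (P (nat_lit 0)) (T.h (T.h (P (nat_lit 0)) (M (nat_lit 6315105086901059583))) (P (nat_lit 0)))))) (T.h (T.h (T.h (P (nat_lit 28945795319755813979670183936)) (T.h (P (nat_lit 0)) (T.h (M (nat_lit 9895294323822176501759)) (T.h (P (nat_lit 0)) (M (nat_lit 2847357165699071)))))) (T.h (P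 (nat_lit 0)) (T.h (T.h (M (nat_lit 22221354977772968083455)) (T.h (P (nat_lit 0)) (P (nat_lit 19258408876113920)))) (T.h (P (nat_lit 0)) (M (nat_lit 6912399820259327)))))) (T.h (T.h (P (nat_lit 0)) (T.h (T.h (P (nat_lit 0)) (M (nat_lit 43086864515571122175))) (P (nat_lit 0)))) (T.h (T.h (T.h (P (nat_lit 2383344313908043186176)) (T.h (P (nat_lit 0)) (P (nat_lit 12779192124375040)))) (T.h (P (nat_lit 0)) (M (nat_lit 3402348208455679)))) (T.h (P (nat_lit 0)) (P (nat_lit 1370138480934912))))))), (T.h (T.h (P (nat_lit 0)) (T.h (T.h (M (nat_lit 15323652974161629456552165375)) (T.h (P (nat_lit 0)) (T.h (P (nat_lit 16417494585337287016448)) (T.h (P (nat_lit 0)) (P (nat_lit 13110701554270208)))))) (T.h (P (nat_lit 0)) (T.h (T.h (M (nat_lit 7432244864728912887807)) (T.h (P (nat_lit 0)) (P (nat_lit 9334012262744064)))) (P (nat_lit 0)))))) (T.h (T.h (T.h (P (nat_lit 0)) (T.h (P (nat_lit 34896890260477953133510656)) (T.h (P (nat_lit 0)) (M (nat_lit 20633998151227801599)))))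 (T.h (P (nat_lit 0)) (T.h (T.h (P (nat_lit 0)) (P (nat_lit 31757819259306115072))) (P (nat_lit 0))))) (T.h (T.h (P (nat_lit 0)) (T.h (T.h (M (nat_lit 133145752350664754724863)) (T.h (P (nat_lit 0)) (P (nat_lit 29603302290817024)))) (T.h (P (nat_lit 0)) (P (nat_lit 29997582427947008))))) (T.h (T.h (T.h (P (nat_lit 0)) (M (nat_lit 4843534344947499007))) (P (nat_lit 0))) (T.h (T.h (P (nat_lit 0)) (P (nat_lit 16085244215427072))) (P (nat_lit 0)))))))]
def lQp_21 : List (T ℤ) := [(T.h (T.h (P (nat_lit 0)) (T.h (T.h (P (nat_lit 0)) (T.h (M (nat_lit 22252484142401206406348799)) (T.h (P (nat_lit 0)) (M (nat_lit 3952518686148919295))))) (T.h (P (nat_lit 0)) (T.h (T.h (P (nat_lit 0)) (M (nat_lit 3952518686148919295))) (P (nat_lit 0)))))) (T.h (T.h (T.h (M (nat_lit 18526433989661232805271568383)) (T.h (P (nat_lit 0)) (T.h (M (nat_lit 5089872491259180875775)) (T.h (P (nat_lit 0)) (P (nat_lit 1145852948905984)))))) (T.h (P (nat_lit 0)) (T.h (T.h (M (nat_lit 5089872491259180875775))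 (T.h (P (nat_lit 0)) (M (nat_lit 109262232649465855)))) (T.h (P (nat_lit 0)) (P (nat_lit 1145852948905984)))))) (T.h (T.h (P (nat_lit 0)) (T.h (T.h (P (nat_lit 0)) (P (nat_lit 340294424677025054720))) (P (nat_lit 0)))) (T.h (T.h (T.h (M (nat_lit 30733479734969039323135)) (T.h (P (nat_lit 0)) (M (nat_lit 18660875513102335)))) (T.h (P (nat_lit 0)) (M (nat_lit 18660875513102335)))) (T.h (P (nat_lit 0)) (M (nat_lit 12727480890163199))))))), (T.h (T.h (P (nat_lit 0)) (T.h (T.h (P (nat_lit 21394652370805987842944139264)) (T.h (P (nat_lit 0)) (P (nat_lit 32713518745630160191488)))) (T.h (P (nat_lit 0)) (M (nat_lit 22868238238723386376191))))) (T.h (T.h (T.h (P (nat_lit 0)) (T.h (M (nat_lit 13098764831426538217930751)) (T.h (P (nat_lit 0)) (M (nat_lit 3668940946935906303))))) (T.h (P (nat_lit 0)) (T.h (T.h (P (nat_lit 0)) (M (nat_lit 52019409660372058111))) (P (nat_lit 0))))) (T.h (T.h (P (nat_lit 0)) (P (nat_lit 32713518745630160191488))) (T.h (T.h (T.h (P (nat_lit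 0)) (M (nat_lit 3668940946935906303))) (P (nat_lit 0))) (P (nat_lit 0)))))), (P (nat_lit 0)), (P (nat_lit 0)), (T.h (T.h (T.h (P (nat_lit 0)) (T.h (M (nat_lit 2120122278237486535193657343)) (T.h (P (nat_lit 0)) (P (nat_lit 1352678270254679326720))))) (T.h (P (nat_lit 0)) (T.h (T.h (P (nat_lit 0)) (T.h (P (nat_lit 13584920725667681665024)) (T.h (P (nat_lit 0)) (P (nat_lit 2523038380785664))))) (T.h (P (nat_lit 0)) (T.h (T.h (P (nat_lit 0)) (P (nat_lit 3993105336041472))) (P (nat_lit 0))))))) (T.h (T.h (P (nat_lit 0)) (T.h (T.h (P (nat_lit 22460120382946506830774272)) (T.h (P (nat_lit 0)) (M (nat_lit 21126162680394022911)))) (T.h (P (nat_lit 0)) (P (nat_lit 9651679485245784064))))) (T.h (T.h (T.h (P (nat_lit 0)) (T.h (P (nat_lit 13584920725667681665024)) (T.h (P (nat_lit 0)) (P (nat_lit 2523038380785664))))) (T.h (P (nat_lit 0)) (T.h (T.h (P (nat_lit 0)) (M (nat_lit 786403700375551))) (P (nat_lit 0))))) (T.h (T.h (P (nat_lit 0)) (P (nat_lit 9651679485245784064)))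 (T.h (T.h (T.h (P (nat_lit 0)) (P (nat_lit 3993105336041472))) (P (nat_lit 0))) (P (nat_lit 0))))))), (T.h (T.h (T.h (M (nat_lit 17765556308971075958502567444479)) (T.h (P (nat_lit 0)) (T.h (P (nat_lit 64187238630778862282211328)) (T.h (P (nat_lit 0)) (P (nat_lit 6350658493317382144)))))) (T.h (P (nat_lit 0)) (T.h (T.h (M (nat_lit 42099295970988032559939583)) (T.h (P (nat_lit 0)) (P (nat_lit 19068183177919987712)))) (T.h (P (nat_lit 0)) (M (nat_lit 30418881608041889791)))))) (T.h (T.h (P (nat_lit 0)) (T.h (T.h (P (nat_lit 0)) (T.h (M (nat_lit 90159392084587043618815)) (T.h (P (nat_lit 0)) (P (nat_lit 77949370537345024))))) (T.h (P (nat_lit 0)) (T.h (T.h (P (nat_lit 0)) (P (nat_lit 18406538656612352))) (P (nat_lit 0)))))) (T.h (T.h (T.h (M (nat_lit 42099295970988032559939583)) (T.h (P (nat_lit 0)) (P (nat_lit 19068183177919987712)))) (T.h (P (nat_lit 0)) (P (nat_lit 278419749500927082496)))) (T.h (T.h (P (nat_lit 0)) (T.h (T.h (P (nat_lit 0)) (P (nat_lit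 18406538656612352))) (P (nat_lit 0)))) (M (nat_lit 30418881608041889791)))))), (T.h (T.h (T.h (P (nat_lit 0)) (T.h (P (nat_lit 21394652370805987842944139264)) (T.h (P (nat_lit 0)) (M (nat_lit 22868238238723386376191))))) (T.h (P (nat_lit 0)) (T.h (T.h (P (nat_lit 0)) (P (nat_lit 32713518745630160191488))) (P (nat_lit 0))))) (T.h (T.h (P (nat_lit 0)) (T.h (T.h (M (nat_lit 13098764831426538217930751)) (T.h (P (nat_lit 0)) (M (nat_lit 52019409660372058111)))) (T.h (P (nat_lit 0)) (M (nat_lit 3668940946935906303))))) (T.h (T.h (T.h (P (nat_lit 0)) (P (nat_lit 32713518745630160191488))) (P (nat_lit 0))) (T.h (T.h (P (nat_lit 0)) (M (nat_lit 3668940946935906303))) (P (nat_lit 0)))))), (P (nat_lit 0))]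
def lQp_22 : List (T ℤ) := [(P (nat_lit 0)), (T.h (T.h (P (nat_lit 0)) (T.h (T.h (P (nat_lit 0)) (T.h (P (nat_lit 33579549897271383517298688)) (T.h (P (nat_lit 0)) (P (nat_lit 3541372019637485568))))) (T.h (P (nat_lit 0)) (T.h (T.h (P (nat_lit 0)) (M (nat_lit 8849408785970626559))) (P (nat_lit 0)))))) (T.h (T.h (T.h (M (nat_lit 37893429309236406925974831103)) (T.h (P (nat_lit 0)) (T.h (P (nat_lit 4104446577559067426816)) (T.h (P (nat_lit 0)) (M (nat_lit 11279627034034175)))))) (T.h (P (nat_lit 0)) (T.h (T.h (P (nat_lit 46722084582422631940096)) (T.h (P (nat_lit 0)) (P (nat_lit 45416800770588672)))) (T.h (P (nat_lit 0)) (P (nat_lit 14077589957378048)))))) (T.h (T.h (P (nat_lit 0)) (T.h (T.h (P (nat_lit 0)) (M (nat_lit 3982024280127832063))) (P (nat_lit 0)))) (T.h (T.h (T.h (P (nat_lit 5387817051542781952000)) (T.h (P (nat_lit 0)) (P (nat_lit 7436073746825216)))) (T.h (P (nat_lit 0)) (P (nat_lit 13167663938011136)))) (T.h (P (nat_lit 0)) (M (nat_lit 1532455800799231))))))),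 (T.h (T.h (P (nat_lit 0)) (T.h (P (nat_lit 6000969113615189185396736000)) (T.h (P (nat_lit 0)) (M (nat_lit 24438338849772933218303))))) (T.h (T.h (T.h (P (nat_lit 0)) (T.h (M (nat_lit 6083335303084980110884863)) (T.h (P (nat_lit 0)) (P (nat_lit 8285720689671929856))))) (T.h (P (nat_lit 0)) (T.h (T.h (P (nat_lit 0)) (P (nat_lit 4310567372663554048))) (P (nat_lit 0))))) (T.h (T.h (P (nat_lit 0)) (P (nat_lit 111759690933996743557120))) (T.h (T.h (T.h (P (nat_lit 0)) (M (nat_lit 1415962012927655935))) (P (nat_lit 0))) (P (nat_lit 0)))))), (P (nat_lit 0)), (P (nat_lit 0)), (T.h (T.h (T.h (P (nat_lit 0)) (T.h (P (nat_lit 4996804256147560436517044224)) (T.h (P (nat_lit 0)) (M (nat_lit 699374331989025882111))))) (T.h (P (nat_lit 0)) (T.h (T.h (P (nat_lit 0)) (M (nat_lit 4296544144108300533759))) (P (nat_lit 0))))) (T.h (T.h (P (nat_lit 0)) (T.h (T.h (P (nat_lit 7693749846238283348049920)) (T.h (P (nat_lit 0)) (P (nat_lit 23253401994541400064)))) (T.h (P (nat_lit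 0)) (P (nat_lit 14521116546631204864))))) (T.h (T.h (T.h (P (nat_lit 0)) (M (nat_lit 257028261180969320447))) (P (nat_lit 0))) (T.h (T.h (P (nat_lit 0)) (P (nat_lit 11382046171812855808))) (P (nat_lit 0)))))), (P (nat_lit 0)), (P (nat_lit 0))]
def lQp_23 : List (T ℤ) := [(P (nat_lit 0)), (P (nat_lit 0)), (P (nat_lit 0)), (T.h (T.h (T.h (M (nat_lit 470961987125908346733519175679)) (T.h (P (nat_lit 0)) (T.h (M (nat_lit 1942057638129030519586815)) (T.h (P (nat_lit 0)) (M (nat_lit 3371299736341446655)))))) (T.h (P (nat_lit 0)) (T.h (T.h (M (nat_lit 1942057638129030519586815)) (T.h (P (nat_lit 0)) (M (nat_lit 556449493575270399)))) (T.h (P (nat_lit 0)) (M (nat_lit 3371299736341446655)))))) (T.h (T.h (P (nat_lit 0)) (T.h (T.h (P (nat_lit 0)) (T.h (P (nat_lit 538075358818507685888)) (T.h (P (nat_lit 0)) (M (nat_lit 598511274688511))))) (T.h (P (nat_lit 0)) (T.h (T.h (P (nat_lit 0)) (M (nat_lit 598511274688511))) (P (nat_lit 0)))))) (T.h (T.h (T.h (P (nat_lit 57899600867765543501824))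 (T.h (P (nat_lit 0)) (P (nat_lit 1192941709491699712)))) (T.h (P (nat_lit 0)) (P (nat_lit 1192941709491699712)))) (T.h (T.h (P (nat_lit 0)) (T.h (T.h (P (nat_lit 0)) (M (nat_lit 1583080657387519))) (P (nat_lit 0)))) (M (nat_lit 846434129254809599)))))), (T.h (T.h (T.h (P (nat_lit 0)) (T.h (P (nat_lit 18304896387085352232648966144)) (T.h (P (nat_lit 0)) (T.h (M (nat_lit 5654640754338346041343)) (T.h (P (nat_lit 0)) (P (nat_lit 2869922849095680))))))) (T.h (P (nat_lit 0)) (T.h (T.h (P (nat_lit 0)) (T.h (M (nat_lit 8117553435009748041727)) (T.h (P (nat_lit 0)) (M (nat_lit 1955038863065087))))) (T.h (P (nat_lit 0)) (T.h (T.h (P (nat_lit 0)) (P (nat_lit 3611440046374912))) (P (nat_lit 0))))))) (T.h (T.h (P (nat_lit 0)) (T.h (T.h (P (nat_lit 7019409435893459079659520)) (T.h (P (nat_lit 0)) (M (nat_lit 2079363055329738751)))) (T.h (P (nat_lit 0)) (P (nat_lit 14393325072985096192))))) (T.h (T.h (T.h (P (nat_lit 0)) (T.h (M (nat_lit 7520213398898532679679)) (T.h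 (P (nat_lit 0)) (M (nat_lit 5111942745948159))))) (T.h (P (nat_lit 0)) (T.h (T.h (P (nat_lit 0)) (M (nat_lit 21629963256332287))) (P (nat_lit 0))))) (T.h (T.h (P (nat_lit 0)) (M (nat_lit 9466224910058651647))) (T.h (T.h (T.h (P (nat_lit 0)) (M (nat_lit 6019960219729919))) (P (nat_lit 0))) (P (nat_lit 0))))))), (T.h (T.h (T.h (P (nat_lit 0)) (T.h (P (nat_lit 0)) (T.h (P (nat_lit 4182641287607808107216896)) (T.h (P (nat_lit 0)) (P (nat_lit 6692125328539648000)))))) (T.h (P (nat_lit 0)) (T.h (T.h (P (nat_lit 0)) (T.h (P (nat_lit 0)) (M (nat_lit 2994911782943850495)))) (T.h (P (nat_lit 0)) (P (nat_lit 552709772135104512)))))) (T.h (T.h (P (nat_lit 0)) (T.h (T.h (P (nat_lit 0)) (T.h (P (nat_lit 40872332593621807136768)) (T.h (P (nat_lit 0)) (M (nat_lit 2868643210854399))))) (T.h (P (nat_lit 0)) (T.h (T.h (P (nat_lit 0)) (P (nat_lit 7058222133673984))) (P (nat_lit 0)))))) (T.h (T.h (T.h (M (nat_lit 202648603037179402256383)) (T.h (P (nat_lit 0)) (P (nat_lit 41114478829740490752))))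 (T.h (P (nat_lit 0)) (M (nat_lit 23194938038433087487)))) (T.h (T.h (P (nat_lit 0)) (T.h (T.h (P (nat_lit 0)) (P (nat_lit 5870480457662464))) (P (nat_lit 0)))) (P (nat_lit 3437973054217519104)))))), (T.h (T.h (T.h (P (nat_lit 0)) (T.h (M (nat_lit 37893429309236406925974831103)) (T.h (P (nat_lit 0)) (T.h (P (nat_lit 5387817051542781952000)) (T.h (P (nat_lit 0)) (M (nat_lit 1532455800799231))))))) (T.h (P (nat_lit 0)) (T.h (T.h (P (nat_lit 0)) (T.h (P (nat_lit 4104446577559067426816)) (T.h (P (nat_lit 0)) (P (nat_lit 7436073746825216))))) (T.h (P (nat_lit 0)) (T.h (T.h (P (nat_lit 0)) (M (nat_lit 11279627034034175))) (P (nat_lit 0))))))) (T.h (T.h (P (nat_lit 0)) (T.h (T.h (P (nat_lit 33579549897271383517298688)) (T.h (P (nat_lit 0)) (M (nat_lit 3982024280127832063)))) (T.h (P (nat_lit 0)) (P (nat_lit 3541372019637485568))))) (T.h (T.h (T.h (P (nat_lit 0)) (T.h (P (nat_lit 46722084582422631940096)) (T.h (P (nat_lit 0)) (P (nat_lit 13167663938011136))))) (T.h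 (P (nat_lit 0)) (T.h (T.h (P (nat_lit 0)) (P (nat_lit 45416800770588672))) (P (nat_lit 0))))) (T.h (T.h (P (nat_lit 0)) (M (nat_lit 8849408785970626559))) (T.h (T.h (T.h (P (nat_lit 0)) (P (nat_lit 14077589957378048))) (P (nat_lit 0))) (P (nat_lit 0))))))), (T.h (T.h (T.h (M (nat_lit 26617841765287406009037398999039)) (T.h (P (nat_lit 0)) (T.h (P (nat_lit 129977362024824844582912)) (T.h (P (nat_lit 0)) (P (nat_lit 1642319604065763328)))))) (T.h (P (nat_lit 0)) (T.h (T.h (P (nat_lit 3714307327027633757093888)) (T.h (P (nat_lit 0)) (P (nat_lit 17337605634832465920)))) (T.h (P (nat_lit 0)) (M (nat_lit 5775169041425498111)))))) (T.h (T.h (P (nat_lit 0)) (T.h (T.h (P (nat_lit 0)) (M (nat_lit 1028113044723877281791))) (P (nat_lit 0)))) (T.h (T.h (T.h (P (nat_lit 129977362024824844582912)) (T.h (P (nat_lit 0)) (P (nat_lit 20225531808785104896)))) (T.h (P (nat_lit 0)) (P (nat_lit 17337605634832465920)))) (T.h (P (nat_lit 0)) (P (nat_lit 1642319604065763328))))))]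
def lQp_24 : List (T ℤ) := [(P (nat_lit 0)), (P (nat_lit 0)), (T.h (T.h (P (nat_lit 0)) (T.h (T.h (P (nat_lit 18304896387085352232648966144)) (T.h (P (nat_lit 0)) (T.h (M (nat_lit 8117553435009748041727)) (T.h (P (nat_lit 0)) (P (nat_lit 3611440046374912)))))) (T.h (P (nat_lit 0)) (T.h (T.h (M (nat_lit 5654640754338346041343)) (T.h (P (nat_lit 0)) (M (nat_lit 1955038863065087)))) (T.h (P (nat_lit 0)) (P (nat_lit 2869922849095680))))))) (T.h (T.h (T.h (P (nat_lit 0)) (T.h (P (nat_lit 7019409435893459079659520)) (T.h (P (nat_lit 0)) (P (nat_lit 14393325072985096192))))) (T.h (P (nat_lit 0)) (T.h (T.h (P (nat_lit 0)) (M (nat_lit 2079363055329738751))) (P (nat_lit 0))))) (T.h (T.h (P (nat_lit 0)) (T.h (T.h (M (nat_lit 7520213398898532679679)) (T.h (P (nat_lit 0)) (M (nat_lit 21629963256332287)))) (T.h (P (nat_lit 0)) (M (nat_lit 5111942745948159))))) (T.h (T.h (T.h (P (nat_lit 0)) (M (nat_lit 9466224910058651647))) (P (nat_lit 0))) (T.h (T.h (P (nat_lit 0))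 (M (nat_lit 6019960219729919))) (P (nat_lit 0))))))), (T.h (T.h (P (nat_lit 0)) (T.h (T.h (P (nat_lit 0)) (T.h (P (nat_lit 280063454011845911773184)) (T.h (P (nat_lit 0)) (P (nat_lit 5983461280776716288))))) (T.h (P (nat_lit 0)) (T.h (T.h (P (nat_lit 0)) (P (nat_lit 5983461280776716288))) (P (nat_lit 0)))))) (T.h (T.h (T.h (P (nat_lit 17534095856328093313800339456)) (T.h (P (nat_lit 0)) (T.h (M (nat_lit 30443126340952313036799)) (T.h (P (nat_lit 0)) (P (nat_lit 9729628367814656)))))) (T.h (P (nat_lit 0)) (T.h (T.h (M (nat_lit 30443126340952313036799)) (T.h (P (nat_lit 0)) (P (nat_lit 15713127575584768)))) (T.h (P (nat_lit 0)) (P (nat_lit 9729628367814656)))))) (T.h (T.h (P (nat_lit 0)) (T.h (T.h (P (nat_lit 0)) (P (nat_lit 16042218279384645632))) (P (nat_lit 0)))) (T.h (T.h (T.h (P (nat_lit 8404049344762782679040)) (T.h (P (nat_lit 0)) (P (nat_lit 23785446772441088)))) (T.h (P (nat_lit 0)) (P (nat_lit 23785446772441088)))) (T.h (P (nat_lit 0)) (P (nat_lit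 1944089406472192))))))), (T.h (T.h (P (nat_lit 0)) (T.h (T.h (M (nat_lit 58574380961083223437918339071)) (T.h (P (nat_lit 0)) (T.h (P (nat_lit 31221050384512760938496)) (T.h (P (nat_lit 0)) (M (nat_lit 9702446940815359)))))) (T.h (P (nat_lit 0)) (T.h (T.h (M (nat_lit 27880110966639568093183)) (T.h (P (nat_lit 0)) (M (nat_lit 232382978588671)))) (T.h (P (nat_lit 0)) (M (nat_lit 4960118145810431))))))) (T.h (T.h (T.h (P (nat_lit 0)) (T.h (P (nat_lit 18380053101843787370463232)) (T.h (P (nat_lit 0)) (P (nat_lit 23294325925104058368))))) (T.h (P (nat_lit 0)) (T.h (T.h (P (nat_lit 0)) (P (nat_lit 32711687646010671104))) (P (nat_lit 0))))) (T.h (T.h (P (nat_lit 0)) (T.h (T.h (M (nat_lit 34599514990749855776767)) (T.h (P (nat_lit 0)) (M (nat_lit 64607531855773695)))) (T.h (P (nat_lit 0)) (P (nat_lit 22955203721953280))))) (T.h (T.h (T.h (P (nat_lit 0)) (P (nat_lit 99410439369893347328))) (P (nat_lit 0))) (T.h (T.h (P (nat_lit 0)) (M (nat_lit 6249999989735423)))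 (P (nat_lit 0))))))), (T.h (T.h (P (nat_lit 0)) (T.h (T.h (P (nat_lit 0)) (T.h (M (nat_lit 6083335303084980110884863)) (T.h (P (nat_lit 0)) (M (nat_lit 1415962012927655935))))) (T.h (P (nat_lit 0)) (T.h (T.h (P (nat_lit 0)) (P (nat_lit 8285720689671929856))) (P (nat_lit 0)))))) (T.h (T.h (T.h (P (nat_lit 6000969113615189185396736000)) (T.h (P (nat_lit 0)) (P (nat_lit 111759690933996743557120)))) (P (nat_lit 0))) (T.h (T.h (P (nat_lit 0)) (T.h (T.h (P (nat_lit 0)) (P (nat_lit 4310567372663554048))) (P (nat_lit 0)))) (M (nat_lit 24438338849772933218303))))), (P (nat_lit 0)), (P (nat_lit 0))]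
def lQp_25 : List (T ℤ) := [(T.h (T.h (T.h (P (nat_lit 0)) (T.h (P (nat_lit 0)) (T.h (P (nat_lit 0)) (T.h (P (nat_lit 0)) (P (nat_lit 552709772135104512)))))) (T.h (P (nat_lit 0)) (T.h (T.h (P (nat_lit 4182641287607808107216896)) (T.h (P (nat_lit 0)) (M (nat_lit 2994911782943850495)))) (T.h (P (nat_lit 0)) (P (nat_lit 6692125328539648000)))))) (T.h (T.h (P (nat_lit 0)) (T.h (T.h (P (nat_lit 0)) (T.h (P (nat_lit 40872332593621807136768)) (T.h (P (nat_lit 0)) (P (nat_lit 7058222133673984))))) (T.h (P (nat_lit 0)) (T.h (T.h (P (nat_lit 0)) (M (nat_lit 2868643210854399))) (P (nat_lit 0)))))) (T.h (T.h (T.h (M (nat_lit 202648603037179402256383)) (T.h (P (nat_lit 0)) (M (nat_lit 23194938038433087487)))) (T.h (P (nat_lit 0)) (P (nat_lit 41114478829740490752)))) (T.h (T.h (P (nat_lit 0)) (T.h (T.h (P (nat_lit 0)) (P (nat_lit 5870480457662464))) (P (nat_lit 0)))) (P (nat_lit 3437973054217519104)))))), (T.h (T.h (T.h (P (nat_lit 0)) (T.h (M (nat_lit 58574380961083223437918339071))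 (T.h (P (nat_lit 0)) (T.h (M (nat_lit 27880110966639568093183)) (T.h (P (nat_lit 0)) (M (nat_lit 4960118145810431))))))) (T.h (P (nat_lit 0)) (T.h (T.h (P (nat_lit 0)) (T.h (P (nat_lit 31221050384512760938496)) (T.h (P (nat_lit 0)) (M (nat_lit 232382978588671))))) (T.h (P (nat_lit 0)) (T.h (T.h (P (nat_lit 0)) (M (nat_lit 9702446940815359))) (P (nat_lit 0))))))) (T.h (T.h (P (nat_lit 0)) (T.h (T.h (P (nat_lit 18380053101843787370463232)) (T.h (P (nat_lit 0)) (P (nat_lit 32711687646010671104)))) (T.h (P (nat_lit 0)) (P (nat_lit 23294325925104058368))))) (T.h (T.h (T.h (P (nat_lit 0)) (T.h (M (nat_lit 34599514990749855776767)) (T.h (P (nat_lit 0)) (P (nat_lit 22955203721953280))))) (T.h (P (nat_lit 0)) (T.h (T.h (P (nat_lit 0)) (M (nat_lit 64607531855773695))) (P (nat_lit 0))))) (T.h (T.h (P (nat_lit 0)) (P (nat_lit 99410439369893347328))) (T.h (T.h (T.h (P (nat_lit 0)) (M (nat_lit 6249999989735423))) (P (nat_lit 0))) (P (nat_lit 0))))))), (T.h (T.h (T.h (M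 (nat_lit 45547003984978852827402050994175)) (T.h (P (nat_lit 0)) (T.h (M (nat_lit 11990256178027355455881215)) (T.h (P (nat_lit 0)) (M (nat_lit 8539439288566153215)))))) (T.h (P (nat_lit 0)) (T.h (T.h (M (nat_lit 11990256178027355455881215)) (T.h (P (nat_lit 0)) (M (nat_lit 28328071813375459327)))) (T.h (P (nat_lit 0)) (M (nat_lit 8539439288566153215)))))) (T.h (T.h (P (nat_lit 0)) (T.h (T.h (P (nat_lit 0)) (P (nat_lit 129973717396666441531392))) (P (nat_lit 0)))) (T.h (T.h (T.h (M (nat_lit 35319305880671328002899967)) (T.h (P (nat_lit 0)) (M (nat_lit 13241484090680541183)))) (T.h (P (nat_lit 0)) (M (nat_lit 13241484090680541183)))) (T.h (P (nat_lit 0)) (M (nat_lit 19491175534153433087)))))), (P (nat_lit 0)), (P (nat_lit 0)), (T.h (T.h (P (nat_lit 0)) (T.h (T.h (M (nat_lit 37893429309236406925974831103)) (T.h (P (nat_lit 0)) (T.h (P (nat_lit 4104446577559067426816)) (T.h (P (nat_lit 0)) (M (nat_lit 11279627034034175)))))) (T.h (P (nat_lit 0)) (T.h (T.h (P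 (nat_lit 5387817051542781952000)) (T.h (P (nat_lit 0)) (P (nat_lit 7436073746825216)))) (T.h (P (nat_lit 0)) (M (nat_lit 1532455800799231))))))) (T.h (T.h (T.h (P (nat_lit 0)) (T.h (P (nat_lit 33579549897271383517298688)) (T.h (P (nat_lit 0)) (P (nat_lit 3541372019637485568))))) (T.h (P (nat_lit 0)) (T.h (T.h (P (nat_lit 0)) (M (nat_lit 3982024280127832063))) (P (nat_lit 0))))) (T.h (T.h (P (nat_lit 0)) (T.h (T.h (P (nat_lit 46722084582422631940096)) (T.h (P (nat_lit 0)) (P (nat_lit 45416800770588672)))) (T.h (P (nat_lit 0)) (P (nat_lit 13167663938011136))))) (T.h (T.h (T.h (P (nat_lit 0)) (M (nat_lit 8849408785970626559))) (P (nat_lit 0))) (T.h (T.h (P (nat_lit 0)) (P (nat_lit 14077589957378048))) (P (nat_lit 0))))))), (T.h (T.h (P (nat_lit 0)) (T.h (T.h (P (nat_lit 0)) (T.h (M (nat_lit 6083335303084980110884863)) (T.h (P (nat_lit 0)) (P (nat_lit 8285720689671929856))))) (T.h (P (nat_lit 0)) (T.h (T.h (P (nat_lit 0)) (M (nat_lit 1415962012927655935))) (P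 (nat_lit 0)))))) (T.h (T.h (P (nat_lit 6000969113615189185396736000)) (T.h (P (nat_lit 0)) (P (nat_lit 111759690933996743557120)))) (T.h (T.h (P (nat_lit 0)) (T.h (T.h (P (nat_lit 0)) (P (nat_lit 4310567372663554048))) (P (nat_lit 0)))) (M (nat_lit 24438338849772933218303))))), (P (nat_lit 0))]
def lQp_26 : List (T ℤ) := [(P (nat_lit 0)), (T.h (T.h (T.h (M (nat_lit 26617841765287406009037398999039)) (T.h (P (nat_lit 0)) (T.h (P (nat_lit 3714307327027633757093888)) (T.h (P (nat_lit 0)) (M (nat_lit 5775169041425498111)))))) (T.h (P (nat_lit 0)) (T.h (T.h (P (nat_lit 129977362024824844582912)) (T.h (P (nat_lit 0)) (P (nat_lit 17337605634832465920)))) (T.h (P (nat_lit 0)) (P (nat_lit 1642319604065763328)))))) (T.h (T.h (P (nat_lit 0)) (T.h (T.h (P (nat_lit 0)) (M (nat_lit 1028113044723877281791))) (P (nat_lit 0)))) (T.h (T.h (T.h (P (nat_lit 129977362024824844582912)) (T.h (P (nat_lit 0)) (P (nat_lit 17337605634832465920)))) (T.h (P (nat_lit 0)) (P (nat_lit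 20225531808785104896)))) (T.h (P (nat_lit 0)) (P (nat_lit 1642319604065763328)))))), (P (nat_lit 0)), (P (nat_lit 0)), (P (nat_lit 0)), (P (nat_lit 0)), (P (nat_lit 0)), (T.h (T.h (P (nat_lit 0)) (T.h (T.h (P (nat_lit 0)) (T.h (M (nat_lit 836226289139926597369855)) (T.h (P (nat_lit 0)) (P (nat_lit 1936904125291692032))))) (T.h (P (nat_lit 0)) (T.h (T.h (P (nat_lit 0)) (P (nat_lit 1936904125291692032))) (P (nat_lit 0)))))) (T.h (T.h (T.h (P (nat_lit 12556200628884101627117568)) (T.h (P (nat_lit 0)) (T.h (M (nat_lit 206023718593120698367)) (T.h (P (nat_lit 0)) (M (nat_lit 882307154673663)))))) (T.h (P (nat_lit 0)) (T.h (T.h (M (nat_lit 206023718593120698367)) (T.h (P (nat_lit 0)) (M (nat_lit 9472520804892671)))) (T.h (P (nat_lit 0)) (M (nat_lit 882307154673663)))))) (T.h (T.h (P (nat_lit 0)) (T.h (T.h (P (nat_lit 0)) (P (nat_lit 4835318243637854208))) (P (nat_lit 0)))) (T.h (T.h (T.h (M (nat_lit 961368688894572232703)) (T.h (P (nat_lit 0)) (M (nat_lit 3263992765448191))))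 (T.h (P (nat_lit 0)) (M (nat_lit 3263992765448191)))) (T.h (P (nat_lit 0)) (M (nat_lit 520789253947391)))))))]
def lQp_27 : List (T ℤ) := [(T.h (T.h (P (nat_lit 0)) (T.h (T.h (M (nat_lit 3147316493728592057340002303)) (T.h (P (nat_lit 0)) (T.h (M (nat_lit 807578637971415367679)) (T.h (P (nat_lit 0)) (M (nat_lit 1036859366244351)))))) (T.h (P (nat_lit 0)) (T.h (T.h (M (nat_lit 3125302884072949809151)) (T.h (P (nat_lit 0)) (M (nat_lit 652816732782591)))) (T.h (P (nat_lit 0)) (P (nat_lit 845034740580352))))))) (T.h (T.h (T.h (P (nat_lit 0)) (T.h (P (nat_lit 11844556794739376483467264)) (T.h (P (nat_lit 0)) (M (nat_lit 4179479936819527679))))) (T.h (P (nat_lit 0)) (T.h (T.h (P (nat_lit 0)) (M (nat_lit 14447188899941842943))) (P (nat_lit 0))))) (T.h (T.h (P (nat_lit 0)) (T.h (T.h (M (nat_lit 18857449857395644694527)) (T.h (P (nat_lit 0)) (M (nat_lit 11975517620469759)))) (T.h (P (nat_lit 0)) (P (nat_lit 822254790705152))))) (T.h (T.h (T.h (P (nat_lit 0)) (M (nat_lit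 2165209077553037311))) (P (nat_lit 0))) (T.h (T.h (P (nat_lit 0)) (P (nat_lit 2925128420229120))) (P (nat_lit 0))))))), (T.h (T.h (P (nat_lit 0)) (T.h (T.h (P (nat_lit 0)) (T.h (P (nat_lit 11966167736419842051276800)) (T.h (P (nat_lit 0)) (M (nat_lit 2052704746300506111))))) (T.h (P (nat_lit 0)) (T.h (T.h (P (nat_lit 0)) (M (nat_lit 1048887899719729151))) (P (nat_lit 0)))))) (T.h (T.h (T.h (M (nat_lit 28844577970459765411969761279)) (T.h (P (nat_lit 0)) (T.h (P (nat_lit 32373734643647391989760)) (T.h (P (nat_lit 0)) (P (nat_lit 4531447495655424)))))) (T.h (P (nat_lit 0)) (T.h (M (nat_lit 11022453529369638862847)) (T.h (P (nat_lit 0)) (P (nat_lit 2527009741733888)))))) (T.h (T.h (P (nat_lit 0)) (T.h (T.h (P (nat_lit 0)) (P (nat_lit 27081893713398464512))) (P (nat_lit 0)))) (T.h (T.h (T.h (M (nat_lit 4503094450705800364031)) (T.h (P (nat_lit 0)) (P (nat_lit 206375840382976)))) (T.h (P (nat_lit 0)) (P (nat_lit 984868572889088)))) (P (nat_lit 0)))))), (T.h (T.h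 (P (nat_lit 0)) (T.h (T.h (P (nat_lit 4996804256147560436517044224)) (T.h (P (nat_lit 0)) (M (nat_lit 257028261180969320447)))) (T.h (P (nat_lit 0)) (M (nat_lit 699374331989025882111))))) (T.h (T.h (T.h (P (nat_lit 0)) (T.h (P (nat_lit 7693749846238283348049920)) (T.h (P (nat_lit 0)) (P (nat_lit 11382046171812855808))))) (T.h (P (nat_lit 0)) (T.h (T.h (P (nat_lit 0)) (P (nat_lit 23253401994541400064))) (P (nat_lit 0))))) (T.h (T.h (P (nat_lit 0)) (M (nat_lit 4296544144108300533759))) (T.h (T.h (T.h (P (nat_lit 0)) (P (nat_lit 14521116546631204864))) (P (nat_lit 0))) (P (nat_lit 0)))))), (P (nat_lit 0)), (P (nat_lit 0)), (T.h (T.h (T.h (P (nat_lit 0)) (T.h (M (nat_lit 3147316493728592057340002303)) (T.h (P (nat_lit 0)) (T.h (M (nat_lit 3125302884072949809151)) (T.h (P (nat_lit 0)) (P (nat_lit 845034740580352))))))) (T.h (P (nat_lit 0)) (T.h (T.h (P (nat_lit 0)) (T.h (M (nat_lit 807578637971415367679)) (T.h (P (nat_lit 0)) (M (nat_lit 652816732782591)))))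 (T.h (P (nat_lit 0)) (T.h (T.h (P (nat_lit 0)) (M (nat_lit 1036859366244351))) (P (nat_lit 0))))))) (T.h (T.h (P (nat_lit 0)) (T.h (T.h (P (nat_lit 11844556794739376483467264)) (T.h (P (nat_lit 0)) (M (nat_lit 14447188899941842943)))) (T.h (P (nat_lit 0)) (M (nat_lit 4179479936819527679))))) (T.h (T.h (T.h (P (nat_lit 0)) (T.h (M (nat_lit 18857449857395644694527)) (T.h (P (nat_lit 0)) (P (nat_lit 822254790705152))))) (T.h (P (nat_lit 0)) (T.h (T.h (P (nat_lit 0)) (M (nat_lit 11975517620469759))) (P (nat_lit 0))))) (T.h (T.h (P (nat_lit 0)) (M (nat_lit 2165209077553037311))) (T.h (T.h (T.h (P (nat_lit 0)) (P (nat_lit 2925128420229120))) (P (nat_lit 0))) (P (nat_lit 0))))))), (T.h (T.h (T.h (M (nat_lit 2640985042259987329960279801855)) (T.h (P (nat_lit 0)) (T.h (P (nat_lit 15832890018593205873803264)) (T.h (P (nat_lit 0)) (M (nat_lit 15687109414433587199)))))) (T.h (P (nat_lit 0)) (T.h (T.h (P (nat_lit 15832890018593205873803264)) (T.h (P (nat_lit 0)) (P (nat_lit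 6659856347367997440)))) (T.h (P (nat_lit 0)) (M (nat_lit 15687109414433587199)))))) (T.h (T.h (P (nat_lit 0)) (T.h (T.h (P (nat_lit 0)) (T.h (P (nat_lit 18792191774930400968704)) (T.h (P (nat_lit 0)) (P (nat_lit 15062716752592896))))) (T.h (P (nat_lit 0)) (T.h (T.h (P (nat_lit 0)) (P (nat_lit 15062716752592896))) (P (nat_lit 0)))))) (T.h (T.h (T.h (M (nat_lit 11953613207112808463859711)) (T.h (P (nat_lit 0)) (P (nat_lit 105469962557071556608)))) (T.h (P (nat_lit 0)) (P (nat_lit 105469962557071556608)))) (T.h (T.h (P (nat_lit 0)) (T.h (T.h (P (nat_lit 0)) (P (nat_lit 6383262989025280))) (P (nat_lit 0)))) (M (nat_lit 4573725690595115007)))))), (T.h (T.h (T.h (P (nat_lit 0)) (T.h (P (nat_lit 19472614965897669399187292160)) (T.h (P (nat_lit 0)) (M (nat_lit 21163988139213750009855))))) (T.h (P (nat_lit 0)) (T.h (T.h (P (nat_lit 0)) (M (nat_lit 455310933304797036543))) (P (nat_lit 0))))) (T.h (T.h (P (nat_lit 0)) (T.h (T.h (M (nat_lit 9533650392968229510184959))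 (T.h (P (nat_lit 0)) (M (nat_lit 21510889844164788223)))) (T.h (P (nat_lit 0)) (P (nat_lit 18196777769839362048))))) (T.h (T.h (T.h (P (nat_lit 0)) (P (nat_lit 102025982773308359180288))) (P (nat_lit 0))) (T.h (T.h (P (nat_lit 0)) (M (nat_lit 4261631954979389439))) (P (nat_lit 0))))))]
def lQp_28 : List (T ℤ) := [(P (nat_lit 0)), (P (nat_lit 0)), (T.h (T.h (P (nat_lit 0)) (T.h (T.h (P (nat_lit 0)) (T.h (P (nat_lit 11966167736419842051276800)) (T.h (P (nat_lit 0)) (M (nat_lit 1048887899719729151))))) (T.h (P (nat_lit 0)) (T.h (T.h (P (nat_lit 0)) (M (nat_lit 2052704746300506111))) (P (nat_lit 0)))))) (T.h (T.h (T.h (M (nat_lit 28844577970459765411969761279)) (T.h (P (nat_lit 0)) (T.h (M (nat_lit 11022453529369638862847)) (T.h (P (nat_lit 0)) (P (nat_lit 2527009741733888)))))) (T.h (P (nat_lit 0)) (T.h (P (nat_lit 32373734643647391989760)) (T.h (P (nat_lit 0)) (P (nat_lit 4531447495655424)))))) (T.h (T.h (P (nat_lit 0)) (T.h (T.h (P (nat_lit 0)) (P (nat_lit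 27081893713398464512))) (P (nat_lit 0)))) (T.h (T.h (T.h (M (nat_lit 4503094450705800364031)) (T.h (P (nat_lit 0)) (P (nat_lit 984868572889088)))) (T.h (P (nat_lit 0)) (P (nat_lit 206375840382976)))) (P (nat_lit 0)))))), (T.h (T.h (P (nat_lit 0)) (T.h (T.h (P (nat_lit 19472614965897669399187292160)) (T.h (P (nat_lit 0)) (M (nat_lit 455310933304797036543)))) (T.h (P (nat_lit 0)) (M (nat_lit 21163988139213750009855))))) (T.h (T.h (T.h (P (nat_lit 0)) (T.h (M (nat_lit 9533650392968229510184959)) (T.h (P (nat_lit 0)) (P (nat_lit 18196777769839362048))))) (T.h (P (nat_lit 0)) (T.h (T.h (P (nat_lit 0)) (M (nat_lit 21510889844164788223))) (P (nat_lit 0))))) (T.h (T.h (P (nat_lit 0)) (P (nat_lit 102025982773308359180288))) (T.h (T.h (T.h (P (nat_lit 0)) (M (nat_lit 4261631954979389439))) (P (nat_lit 0))) (P (nat_lit 0)))))), (P (nat_lit 0)), (P (nat_lit 0)), (T.h (T.h (T.h (P (nat_lit 0)) (T.h (P (nat_lit 4996804256147560436517044224)) (T.h (P (nat_lit 0)) (M (nat_lit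 699374331989025882111))))) (T.h (P (nat_lit 0)) (T.h (T.h (P (nat_lit 0)) (M (nat_lit 257028261180969320447))) (P (nat_lit 0))))) (T.h (T.h (P (nat_lit 0)) (T.h (T.h (P (nat_lit 7693749846238283348049920)) (T.h (P (nat_lit 0)) (P (nat_lit 23253401994541400064)))) (T.h (P (nat_lit 0)) (P (nat_lit 11382046171812855808))))) (T.h (T.h (T.h (P (nat_lit 0)) (M (nat_lit 4296544144108300533759))) (P (nat_lit 0))) (T.h (T.h (P (nat_lit 0)) (P (nat_lit 14521116546631204864))) (P (nat_lit 0)))))), (P (nat_lit 0))]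
def lQp_29 : List (T ℤ) := [(P (nat_lit 0)), (P (nat_lit 0)), (P (nat_lit 0)), (P (nat_lit 0)), (T.h (T.h (T.h (M (nat_lit 4555771215876288499418849607679)) (T.h (P (nat_lit 0)) (T.h (P (nat_lit 2197890908742290795134976)) (T.h (P (nat_lit 0)) (P (nat_lit 3789748147635355648)))))) (T.h (P (nat_lit 0)) (T.h (T.h (P (nat_lit 2197890908742290795134976)) (T.h (P (nat_lit 0)) (M (nat_lit 2005410347908857855)))) (T.h (P (nat_lit 0)) (P (nat_lit 3789748147635355648)))))) (T.h (T.h (P (nat_lit 0)) (T.h (T.h (P (nat_lit 0)) (M (nat_lit 101896397878233923583))) (P (nat_lit 0)))) (T.h (T.h (T.h (P (nat_lit 1408964967221915887337472)) (T.h (P (nat_lit 0)) (M (nat_lit 1418544840500576255)))) (T.h (P (nat_lit 0)) (M (nat_lit 1418544840500576255)))) (T.h (T.h (P (nat_lit 0)) (T.h (T.h (P (nat_lit 0)) (P (nat_lit 2216312920342528))) (P (nat_lit 0)))) (M (nat_lit 547476731234091007)))))), (T.h (T.h (T.h (P (nat_lit 0)) (T.h (M (nat_lit 18797913578495883706412040191)) (T.h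 (P (nat_lit 0)) (T.h (P (nat_lit 3679868749620923334656)) (T.h (P (nat_lit 0)) (M (nat_lit 1873500404449279))))))) (T.h (P (nat_lit 0)) (T.h (T.h (P (nat_lit 0)) (T.h (M (nat_lit 831348500465235001343)) (T.h (P (nat_lit 0)) (M (nat_lit 799398928056319))))) (T.h (P (nat_lit 0)) (T.h (T.h (P (nat_lit 0)) (M (nat_lit 4698632093433855))) (P (nat_lit 0))))))) (T.h (T.h (P (nat_lit 0)) (T.h (T.h (M (nat_lit 6699686972814614291546111)) (T.h (P (nat_lit 0)) (M (nat_lit 6907880395153342463)))) (T.h (P (nat_lit 0)) (M (nat_lit 10572818619601780735))))) (T.h (T.h (T.h (P (nat_lit 0)) (T.h (M (nat_lit 1884468549579203149823)) (T.h (P (nat_lit 0)) (M (nat_lit 561367280779263))))) (T.h (P (nat_lit 0)) (T.h (T.h (P (nat_lit 0)) (P (nat_lit 7225292625543168))) (P (nat_lit 0))))) (T.h (T.h (P (nat_lit 0)) (P (nat_lit 16964788036543971328))) (T.h (T.h (T.h (P (nat_lit 0)) (P (nat_lit 6033506803122176))) (P (nat_lit 0))) (P (nat_lit 0))))))), (T.h (T.h (T.h (M (nat_lit 14562162258249013777924918083583))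 (T.h (P (nat_lit 0)) (T.h (P (nat_lit 1586501907438543587770368)) (T.h (P (nat_lit 0)) (M (nat_lit 1238029958807289855)))))) (T.h (P (nat_lit 0)) (T.h (T.h (M (nat_lit 472108168470894989017087)) (T.h (P (nat_lit 0)) (M (nat_lit 613938376747253759)))) (T.h (P (nat_lit 0)) (M (nat_lit 555935322035191807)))))) (T.h (T.h (P (nat_lit 0)) (T.h (T.h (P (nat_lit 0)) (P (nat_lit 14866527205867955159040))) (P (nat_lit 0)))) (T.h (T.h (T.h (M (nat_lit 5400635009370655693996031)) (T.h (P (nat_lit 0)) (M (nat_lit 272633426224349183)))) (T.h (P (nat_lit 0)) (P (nat_lit 2606053976117870592)))) (T.h (P (nat_lit 0)) (P (nat_lit 1544577741599277056)))))), (P (nat_lit 0))]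
def lQp_30 : List (T ℤ) := [(P (nat_lit 0)), (T.h (T.h (P (nat_lit 0)) (T.h (T.h (M (nat_lit 18797913578495883706412040191)) (T.h (P (nat_lit 0)) (T.h (M (nat_lit 831348500465235001343)) (T.h (P (nat_lit 0)) (M (nat_lit 4698632093433855)))))) (T.h (P (nat_lit 0)) (T.h (T.h (P (nat_lit 3679868749620923334656)) (T.h (P (nat_lit 0)) (M (nat_lit 799398928056319)))) (T.h (P (nat_lit 0)) (M (nat_lit 1873500404449279))))))) (T.h (T.h (T.h (P (nat_lit 0)) (T.h (M (nat_lit 6699686972814614291546111)) (T.h (P (nat_lit 0)) (M (nat_lit 10572818619601780735))))) (T.h (P (nat_lit 0)) (T.h (T.h (P (nat_lit 0)) (M (nat_lit 6907880395153342463))) (P (nat_lit 0))))) (T.h (T.h (P (nat_lit 0)) (T.h (T.h (M (nat_lit 1884468549579203149823)) (T.h (P (nat_lit 0)) (P (nat_lit 7225292625543168)))) (T.h (P (nat_lit 0)) (M (nat_lit 561367280779263))))) (T.h (T.h (T.h (P (nat_lit 0)) (P (nat_lit 16964788036543971328))) (P (nat_lit 0))) (T.h (T.h (P (nat_lit 0)) (P (nat_lit 6033506803122176)))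 (P (nat_lit 0))))))), (T.h (T.h (P (nat_lit 0)) (T.h (T.h (P (nat_lit 0)) (T.h (M (nat_lit 817752586518847605964799)) (T.h (P (nat_lit 0)) (M (nat_lit 1364636026177323007))))) (T.h (P (nat_lit 0)) (T.h (T.h (P (nat_lit 0)) (M (nat_lit 1364636026177323007))) (P (nat_lit 0)))))) (T.h (T.h (T.h (M (nat_lit 2613273605147549987961307135)) (T.h (P (nat_lit 0)) (P (nat_lit 36272100889309380345856)))) (T.h (P (nat_lit 0)) (P (nat_lit 36272100889309380345856)))) (T.h (T.h (P (nat_lit 0)) (T.h (T.h (P (nat_lit 0)) (P (nat_lit 12301045624127619072))) (P (nat_lit 0)))) (M (nat_lit 2747092652249212518399))))), (P (nat_lit 0)), (P (nat_lit 0)), (T.h (T.h (T.h (M (nat_lit 14562162258249013777924918083583)) (T.h (P (nat_lit 0)) (T.h (M (nat_lit 472108168470894989017087)) (T.h (P (nat_lit 0)) (M (nat_lit 555935322035191807)))))) (T.h (P (nat_lit 0)) (T.h (T.h (P (nat_lit 1586501907438543587770368)) (T.h (P (nat_lit 0)) (M (nat_lit 613938376747253759)))) (T.h (P (nat_lit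 0)) (M (nat_lit 1238029958807289855)))))) (T.h (T.h (P (nat_lit 0)) (T.h (T.h (P (nat_lit 0)) (P (nat_lit 14866527205867955159040))) (P (nat_lit 0)))) (T.h (T.h (T.h (M (nat_lit 5400635009370655693996031)) (T.h (P (nat_lit 0)) (P (nat_lit 2606053976117870592)))) (T.h (P (nat_lit 0)) (M (nat_lit 272633426224349183)))) (T.h (P (nat_lit 0)) (P (nat_lit 1544577741599277056)))))), (P (nat_lit 0)), (P (nat_lit 0))]
def lQp_31 : List (T ℤ) := [(P (nat_lit 0)), (P (nat_lit 0)), (P (nat_lit 0)), (T.h (T.h (P (nat_lit 0)) (T.h (T.h (P (nat_lit 0)) (P (nat_lit 1093392384300308475412480))) (P (nat_lit 0)))) (T.h (T.h (P (nat_lit 0)) (T.h (P (nat_lit 0)) (T.h (T.h (P (nat_lit 0)) (T.h (P (nat_lit 0)) (P (nat_lit 12630027739856896)))) (P (nat_lit 0))))) (T.h (T.h (P (nat_lit 0)) (T.h (T.h (P (nat_lit 0)) (P (nat_lit 1945289511797784576))) (P (nat_lit 0)))) (T.h (P (nat_lit 1386797677371080048640)) (T.h (P (nat_lit 0)) (P (nat_lit 694385671929856))))))), (T.h (T.h (P (nat_lit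 0)) (T.h (T.h (P (nat_lit 279908450380878969705594880)) (T.h (P (nat_lit 0)) (P (nat_lit 25474099469558480896)))) (T.h (P (nat_lit 0)) (M (nat_lit 2829812515106405220351))))) (T.h (T.h (T.h (P (nat_lit 0)) (T.h (M (nat_lit 2424682419920877020774399)) (T.h (P (nat_lit 0)) (M (nat_lit 287420047758983167))))) (T.h (P (nat_lit 0)) (T.h (T.h (P (nat_lit 0)) (P (nat_lit 10165924027084832768))) (P (nat_lit 0))))) (T.h (T.h (P (nat_lit 0)) (P (nat_lit 9901917847013963071488))) (T.h (T.h (T.h (P (nat_lit 0)) (P (nat_lit 6178310966397108224))) (P (nat_lit 0))) (P (nat_lit 0)))))), (P (nat_lit 0)), (P (nat_lit 0)), (T.h (T.h (T.h (P (nat_lit 0)) (T.h (P (nat_lit 279908450380878969705594880)) (T.h (P (nat_lit 0)) (M (nat_lit 2829812515106405220351))))) (T.h (P (nat_lit 0)) (T.h (T.h (P (nat_lit 0)) (P (nat_lit 25474099469558480896))) (P (nat_lit 0))))) (T.h (T.h (P (nat_lit 0)) (T.h (T.h (M (nat_lit 2424682419920877020774399)) (T.h (P (nat_lit 0)) (P (nat_lit 10165924027084832768))))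 (T.h (P (nat_lit 0)) (M (nat_lit 287420047758983167))))) (T.h (T.h (T.h (P (nat_lit 0)) (P (nat_lit 9901917847013963071488))) (P (nat_lit 0))) (T.h (T.h (P (nat_lit 0)) (P (nat_lit 6178310966397108224))) (P (nat_lit 0))))))]
def lQp_32 : List (T ℤ) := [(P (nat_lit 0)), (P (nat_lit 0)), (P (nat_lit 0)), (P (nat_lit 0)), (P (nat_lit 0)), (T.h (T.h (P (nat_lit 0)) (T.h (P (nat_lit 0)) (T.h (T.h (P (nat_lit 0)) (T.h (P (nat_lit 0)) (P (nat_lit 3233287101403365376)))) (P (nat_lit 0))))) (T.h (P (nat_lit 0)) (T.h (P (nat_lit 0)) (T.h (P (nat_lit 0)) (P (nat_lit 888813660070215680)))))), (P (nat_lit 0)), (P (nat_lit 0))]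
def lQp_33 : List (T ℤ) := [(P (nat_lit 0)), (P (nat_lit 0)), (P (nat_lit 0)), (P (nat_lit 0)), (P (nat_lit 0)), (P (nat_lit 0)), (P (nat_lit 0))]

def CQp : List (T ℤ) := lQp_0 ++ (lQp_1 ++ (lQp_2 ++ (lQp_3 ++ (lQp_4 ++ (lQp_5 ++ (lQp_6 ++ (lQp_7 ++ (lQp_8 ++ (lQp_9 ++ (lQp_10 ++ (lQp_11 ++ (lQp_12 ++ (lQp_13 ++ (lQp_14 ++ (lQp_15 ++ (lQp_16 ++ (lQp_17 ++ (lQp_18 ++ (lQp_19 ++ (lQp_20 ++ (lQp_21 ++ (lQp_22 ++ (lQp_23 ++ (lQp_24 ++ (lQp_25 ++ (lQp_26 ++ (lQp_27 ++ (lQp_28 ++ (lQp_29 ++ (lQp_30 ++ (lQp_31 ++ (lQp_32 ++ (lQp_33)))))))))))))))))))))))))))))))))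

/-- norms at radius 1536 -/
def NQp : List ℕ := [(nat_lit 5034231565398356583608483840000), (nat_lit 0), (nat_lit 94111104536634927031048999010304), (nat_lit 211787617567640486707156161134592), (nat_lit 109760872386603750297391666823168), (nat_lit 132354346248350236690236296921088), (nat_lit 22944757197904062714968587370496), (nat_lit 0), (nat_lit 0), (nat_lit 0), (nat_lit 231091795083070456000181868429312), (nat_lit 618458529048272273611841429569536), (nat_lit 387200826076319446894262775447552), (nat_lit 440775304675972956064903719813120), (nat_lit 144957453039664740504518793363456), (nat_lit 0), (nat_lit 0), (nat_lit 0), (nat_lit 541808503216238317317791764447232), (nat_lit 905733403075268342829235480559616), (nat_lit 727624809845088954983554134048768), (nat_lit 484661174977183914511947018534912), (nat_lit 124059401969615875537499448147968), (nat_lit 0), (nat_lit 0), (nat_lit 231091795083070456000181868429312), (nat_lit 905733403075268342829235480559616),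 (nat_lit 502797750673777900012274731450368), (nat_lit 1226641909015175736277500916924416), (nat_lit 318482051959471219009774084423680), (nat_lit 0), (nat_lit 0), (nat_lit 94111104536634927031048999010304), (nat_lit 618458529048272273611841429569536), (nat_lit 727624809845088954983554134048768), (nat_lit 1226641909015175736277500916924416), (nat_lit 395742244383619797459409261559808), (nat_lit 0), (nat_lit 0), (nat_lit 211787617567640486707156161134592), (nat_lit 387200826076319446894262775447552), (nat_lit 484661174977183914511947018534912), (nat_lit 318482051959471219009774084423680), (nat_lit 0), (nat_lit 0), (nat_lit 109760872386603750297391666823168), (nat_lit 440775304675972956064903719813120), (nat_lit 124059401969615875537499448147968), (nat_lit 0), (nat_lit 0), (nat_lit 132354346248350236690236296921088), (nat_lit 144957453039664740504518793363456), (nat_lit 0), (nat_lit 0), (nat_lit 22944757197904062714968587370496), (nat_lit 0), (nat_lit 0), (nat_lit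 0), (nat_lit 0), (nat_lit 0), (nat_lit 231091795083070456000181868429312), (nat_lit 618458529048272273611841429569536), (nat_lit 387200826076319446894262775447552), (nat_lit 440775304675972956064903719813120), (nat_lit 144957453039664740504518793363456), (nat_lit 0), (nat_lit 0), (nat_lit 488124689344007603569875398688768), (nat_lit 2119303988918474068847741825449984), (nat_lit 1158659681460415472350949535645696), (nat_lit 1897111840885948519794913958690816), (nat_lit 362452744372705043325519057125376), (nat_lit 0), (nat_lit 0), (nat_lit 488124689344007603569875398688768), (nat_lit 2053837141000602018084702457430016), (nat_lit 1832389010289657500038510556479488), (nat_lit 2267414455404199492941679234646016), (nat_lit 745223465586490914289884164259840), (nat_lit 0), (nat_lit 0), (nat_lit 231091795083070456000181868429312), (nat_lit 2119303988918474068847741825449984), (nat_lit 1832389010289657500038510556479488), (nat_lit 3811803233099603704507426708389888),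 (nat_lit 595131084266746165283306317283328), (nat_lit 0), (nat_lit 0), (nat_lit 618458529048272273611841429569536), (nat_lit 1158659681460415472350949535645696), (nat_lit 2267414455404199492941679234646016), (nat_lit 595131084266746165283306317283328), (nat_lit 0), (nat_lit 0), (nat_lit 387200826076319446894262775447552), (nat_lit 1897111840885948519794913958690816), (nat_lit 745223465586490914289884164259840), (nat_lit 0), (nat_lit 0), (nat_lit 440775304675972956064903719813120), (nat_lit 362452744372705043325519057125376), (nat_lit 0), (nat_lit 0), (nat_lit 144957453039664740504518793363456), (nat_lit 0), (nat_lit 0), (nat_lit 0), (nat_lit 0), (nat_lit 0), (nat_lit 0), (nat_lit 541808503216238317317791764447232), (nat_lit 905733403075268342829235480559616), (nat_lit 727624809845088954983554134048768), (nat_lit 484661174977183914511947018534912), (nat_lit 124059401969615875537499448147968), (nat_lit 0), (nat_lit 0), (nat_lit 488124689344007603569875398688768),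 (nat_lit 2053837141000602018084702457430016), (nat_lit 1832389010289657500038510556479488), (nat_lit 2267414455404199492941679234646016), (nat_lit 745223465586490914289884164259840), (nat_lit 0), (nat_lit 0), (nat_lit 541808503216238317317791764447232), (nat_lit 2053837141000602018084702457430016), (nat_lit 3125209197925824739268403646169088), (nat_lit 3549071410131532270876190457200640), (nat_lit 1165114346879220067144858320502784), (nat_lit 0), (nat_lit 0), (nat_lit 905733403075268342829235480559616), (nat_lit 1832389010289657500038510556479488), (nat_lit 3549071410131532270876190457200640), (nat_lit 714136577958786384827589354061824), (nat_lit 0), (nat_lit 0), (nat_lit 727624809845088954983554134048768), (nat_lit 2267414455404199492941679234646016), (nat_lit 1165114346879220067144858320502784), (nat_lit 0), (nat_lit 0), (nat_lit 484661174977183914511947018534912), (nat_lit 745223465586490914289884164259840), (nat_lit 0), (nat_lit 0), (nat_lit 124059401969615875537499448147968),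 (nat_lit 0), (nat_lit 0), (nat_lit 0), (nat_lit 0), (nat_lit 0), (nat_lit 231091795083070456000181868429312), (nat_lit 905733403075268342829235480559616), (nat_lit 502797750673777900012274731450368), (nat_lit 1226641909015175736277500916924416), (nat_lit 318482051959471219009774084423680), (nat_lit 0), (nat_lit 0), (nat_lit 231091795083070456000181868429312), (nat_lit 2119303988918474068847741825449984), (nat_lit 1832389010289657500038510556479488), (nat_lit 3811803233099603704507426708389888), (nat_lit 595131084266746165283306317283328), (nat_lit 0), (nat_lit 0), (nat_lit 905733403075268342829235480559616), (nat_lit 1832389010289657500038510556479488), (nat_lit 3549071410131532270876190457200640), (nat_lit 714136577958786384827589354061824), (nat_lit 0), (nat_lit 0), (nat_lit 502797750673777900012274731450368), (nat_lit 3811803233099603704507426708389888), (nat_lit 714136577958786384827589354061824), (nat_lit 0), (nat_lit 0), (nat_lit 1226641909015175736277500916924416),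 (nat_lit 595131084266746165283306317283328), (nat_lit 0), (nat_lit 0), (nat_lit 318482051959471219009774084423680), (nat_lit 0), (nat_lit 0), (nat_lit 0), (nat_lit 0), (nat_lit 0), (nat_lit 94111104536634927031048999010304), (nat_lit 618458529048272273611841429569536), (nat_lit 727624809845088954983554134048768), (nat_lit 1226641909015175736277500916924416), (nat_lit 395742244383619797459409261559808), (nat_lit 0), (nat_lit 0), (nat_lit 618458529048272273611841429569536), (nat_lit 1158659681460415472350949535645696), (nat_lit 2267414455404199492941679234646016), (nat_lit 595131084266746165283306317283328), (nat_lit 0), (nat_lit 0), (nat_lit 727624809845088954983554134048768), (nat_lit 2267414455404199492941679234646016), (nat_lit 1165114346879220067144858320502784), (nat_lit 0), (nat_lit 0), (nat_lit 1226641909015175736277500916924416), (nat_lit 595131084266746165283306317283328), (nat_lit 0), (nat_lit 0), (nat_lit 395742244383619797459409261559808), (nat_lit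 0), (nat_lit 0), (nat_lit 0), (nat_lit 0), (nat_lit 0), (nat_lit 211787617567640486707156161134592), (nat_lit 387200826076319446894262775447552), (nat_lit 484661174977183914511947018534912), (nat_lit 318482051959471219009774084423680), (nat_lit 0), (nat_lit 0), (nat_lit 387200826076319446894262775447552), (nat_lit 1897111840885948519794913958690816), (nat_lit 745223465586490914289884164259840), (nat_lit 0), (nat_lit 0), (nat_lit 484661174977183914511947018534912), (nat_lit 745223465586490914289884164259840), (nat_lit 0), (nat_lit 0), (nat_lit 318482051959471219009774084423680), (nat_lit 0), (nat_lit 0), (nat_lit 0), (nat_lit 0), (nat_lit 0), (nat_lit 109760872386603750297391666823168), (nat_lit 440775304675972956064903719813120), (nat_lit 124059401969615875537499448147968), (nat_lit 0), (nat_lit 0), (nat_lit 440775304675972956064903719813120), (nat_lit 362452744372705043325519057125376), (nat_lit 0), (nat_lit 0), (nat_lit 124059401969615875537499448147968),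 (nat_lit 0), (nat_lit 0), (nat_lit 0), (nat_lit 0), (nat_lit 0), (nat_lit 132354346248350236690236296921088), (nat_lit 144957453039664740504518793363456), (nat_lit 0), (nat_lit 0), (nat_lit 144957453039664740504518793363456), (nat_lit 0), (nat_lit 0), (nat_lit 0), (nat_lit 0), (nat_lit 0), (nat_lit 22944757197904062714968587370496), (nat_lit 0), (nat_lit 0), (nat_lit 0), (nat_lit 0), (nat_lit 0), (nat_lit 0), (nat_lit 0), (nat_lit 0), (nat_lit 0)]


def lQm_0 : List (T ℤ) := [(P (nat_lit 5034231565398356583608483840000)), (P (nat_lit 0)), (T.h (T.h (T.h (M (nat_lit 470961987125908346733519175679)) (T.h (P (nat_lit 0)) (T.h (P (nat_lit 57899600867765543501824)) (T.h (P (nat_lit 0)) (M (nat_lit 846434129254809599)))))) (T.h (P (nat_lit 0)) (T.h (T.h (M (nat_lit 1942057638129030519586815)) (T.h (P (nat_lit 0)) (P (nat_lit 1192941709491699712)))) (T.h (P (nat_lit 0)) (M (nat_lit 3371299736341446655)))))) (T.h (T.h (P (nat_lit 0)) (T.h (T.h (P (nat_lit 0)) (T.h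 (P (nat_lit 538075358818507685888)) (T.h (P (nat_lit 0)) (M (nat_lit 1583080657387519))))) (T.h (P (nat_lit 0)) (T.h (T.h (P (nat_lit 0)) (M (nat_lit 598511274688511))) (P (nat_lit 0)))))) (T.h (T.h (T.h (M (nat_lit 1942057638129030519586815)) (T.h (P (nat_lit 0)) (P (nat_lit 1192941709491699712)))) (T.h (P (nat_lit 0)) (M (nat_lit 556449493575270399)))) (T.h (T.h (P (nat_lit 0)) (T.h (T.h (P (nat_lit 0)) (M (nat_lit 598511274688511))) (P (nat_lit 0)))) (M (nat_lit 3371299736341446655)))))), (T.h (T.h (T.h (P (nat_lit 0)) (T.h (M (nat_lit 12556200628884101627117567)) (T.h (P (nat_lit 0)) (T.h (P (nat_lit 961368688894572232704)) (T.h (P (nat_lit 0)) (P (nat_lit 520789253947392))))))) (T.h (P (nat_lit 0)) (T.h (T.h (P (nat_lit 0)) (T.h (P (nat_lit 206023718593120698368)) (T.h (P (nat_lit 0)) (P (nat_lit 3263992765448192))))) (T.h (P (nat_lit 0)) (T.h (T.h (P (nat_lit 0)) (P (nat_lit 882307154673664))) (P (nat_lit 0))))))) (T.h (T.h (P (nat_lit 0)) (T.h (T.h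 (P (nat_lit 836226289139926597369856)) (T.h (P (nat_lit 0)) (M (nat_lit 4835318243637854207)))) (T.h (P (nat_lit 0)) (M (nat_lit 1936904125291692031))))) (T.h (T.h (T.h (P (nat_lit 0)) (T.h (P (nat_lit 206023718593120698368)) (T.h (P (nat_lit 0)) (P (nat_lit 3263992765448192))))) (T.h (P (nat_lit 0)) (T.h (T.h (P (nat_lit 0)) (P (nat_lit 9472520804892672))) (P (nat_lit 0))))) (T.h (T.h (P (nat_lit 0)) (M (nat_lit 1936904125291692031))) (T.h (T.h (T.h (P (nat_lit 0)) (P (nat_lit 882307154673664))) (P (nat_lit 0))) (P (nat_lit 0))))))), (T.h (T.h (T.h (M (nat_lit 4555771215876288499418849607679)) (T.h (P (nat_lit 0)) (T.h (P (nat_lit 1408964967221915887337472)) (T.h (P (nat_lit 0)) (M (nat_lit 547476731234091007)))))) (T.h (P (nat_lit 0)) (T.h (T.h (P (nat_lit 2197890908742290795134976)) (T.h (P (nat_lit 0)) (M (nat_lit 1418544840500576255)))) (T.h (P (nat_lit 0)) (P (nat_lit 3789748147635355648)))))) (T.h (T.h (P (nat_lit 0)) (T.h (T.h (P (nat_lit 0)) (T.h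 (M (nat_lit 101896397878233923583)) (T.h (P (nat_lit 0)) (P (nat_lit 2216312920342528))))) (P (nat_lit 0)))) (T.h (T.h (T.h (P (nat_lit 2197890908742290795134976)) (T.h (P (nat_lit 0)) (M (nat_lit 1418544840500576255)))) (T.h (P (nat_lit 0)) (M (nat_lit 2005410347908857855)))) (T.h (P (nat_lit 0)) (P (nat_lit 3789748147635355648)))))), (T.h (T.h (T.h (P (nat_lit 0)) (T.h (P (nat_lit 0)) (T.h (P (nat_lit 0)) (T.h (M (nat_lit 1386797677371080048639)) (T.h (P (nat_lit 0)) (M (nat_lit 694385671929855))))))) (P (nat_lit 0))) (T.h (T.h (P (nat_lit 0)) (T.h (T.h (M (nat_lit 1093392384300308475412479)) (T.h (P (nat_lit 0)) (M (nat_lit 1945289511797784575)))) (P (nat_lit 0)))) (T.h (T.h (P (nat_lit 0)) (T.h (P (nat_lit 0)) (T.h (T.h (P (nat_lit 0)) (M (nat_lit 12630027739856895))) (P (nat_lit 0))))) (P (nat_lit 0))))), (T.h (T.h (T.h (P (nat_lit 0)) (T.h (P (nat_lit 0)) (T.h (P (nat_lit 0)) (T.h (P (nat_lit 0)) (P (nat_lit 888813660070215680)))))) (P (nat_lit 0)))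 (T.h (P (nat_lit 0)) (T.h (T.h (P (nat_lit 0)) (T.h (P (nat_lit 0)) (P (nat_lit 3233287101403365376)))) (P (nat_lit 0))))), (P (nat_lit 0))]
def lQm_1 : List (T ℤ) := [(P (nat_lit 0)), (P (nat_lit 0)), (T.h (T.h (P (nat_lit 0)) (T.h (T.h (P (nat_lit 0)) (T.h (M (nat_lit 14280217490853106859114495)) (T.h (P (nat_lit 0)) (M (nat_lit 5463924327831306239))))) (T.h (P (nat_lit 0)) (T.h (T.h (P (nat_lit 0)) (P (nat_lit 3431769517741572096))) (P (nat_lit 0)))))) (T.h (T.h (T.h (P (nat_lit 2442310398557518728414625792)) (T.h (P (nat_lit 0)) (T.h (P (nat_lit 10983023708140231196672)) (T.h (P (nat_lit 0)) (M (nat_lit 664208017784831)))))) (T.h (P (nat_lit 0)) (T.h (T.h (M (nat_lit 3047215125714868109311)) (T.h (P (nat_lit 0)) (P (nat_lit 3547622079004672)))) (T.h (P (nat_lit 0)) (M (nat_lit 1626567914815487)))))) (T.h (T.h (P (nat_lit 0)) (T.h (T.h (P (nat_lit 0)) (P (nat_lit 3565072346572128256))) (P (nat_lit 0)))) (T.h (T.h (T.h (P (nat_lit 3679752308041006972928))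 (T.h (P (nat_lit 0)) (M (nat_lit 1039951104770047)))) (T.h (P (nat_lit 0)) (P (nat_lit 140431119548416)))) (T.h (P (nat_lit 0)) (M (nat_lit 11815390019583))))))), (T.h (T.h (P (nat_lit 0)) (T.h (T.h (M (nat_lit 18304896387085352232648966143)) (T.h (P (nat_lit 0)) (T.h (P (nat_lit 7520213398898532679680)) (T.h (P (nat_lit 0)) (P (nat_lit 6019960219729920)))))) (T.h (P (nat_lit 0)) (T.h (T.h (P (nat_lit 5654640754338346041344)) (T.h (P (nat_lit 0)) (P (nat_lit 5111942745948160)))) (T.h (P (nat_lit 0)) (M (nat_lit 2869922849095679))))))) (T.h (T.h (T.h (P (nat_lit 0)) (T.h (M (nat_lit 7019409435893459079659519)) (T.h (P (nat_lit 0)) (P (nat_lit 9466224910058651648))))) (T.h (P (nat_lit 0)) (T.h (T.h (P (nat_lit 0)) (P (nat_lit 2079363055329738752))) (P (nat_lit 0))))) (T.h (T.h (P (nat_lit 0)) (T.h (T.h (P (nat_lit 8117553435009748041728)) (T.h (P (nat_lit 0)) (P (nat_lit 21629963256332288)))) (T.h (P (nat_lit 0)) (P (nat_lit 1955038863065088))))) (T.h (T.h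 (T.h (P (nat_lit 0)) (M (nat_lit 14393325072985096191))) (P (nat_lit 0))) (T.h (T.h (P (nat_lit 0)) (M (nat_lit 3611440046374911))) (P (nat_lit 0))))))), (T.h (T.h (P (nat_lit 0)) (T.h (T.h (P (nat_lit 0)) (T.h (P (nat_lit 11844556794739376483467264)) (T.h (P (nat_lit 0)) (M (nat_lit 2165209077553037311))))) (T.h (P (nat_lit 0)) (T.h (T.h (P (nat_lit 0)) (M (nat_lit 4179479936819527679))) (P (nat_lit 0)))))) (T.h (T.h (T.h (M (nat_lit 3147316493728592057340002303)) (T.h (P (nat_lit 0)) (T.h (M (nat_lit 18857449857395644694527)) (T.h (P (nat_lit 0)) (P (nat_lit 2925128420229120)))))) (T.h (P (nat_lit 0)) (T.h (T.h (M (nat_lit 807578637971415367679)) (T.h (P (nat_lit 0)) (M (nat_lit 11975517620469759)))) (T.h (P (nat_lit 0)) (M (nat_lit 1036859366244351)))))) (T.h (T.h (P (nat_lit 0)) (T.h (T.h (P (nat_lit 0)) (M (nat_lit 14447188899941842943))) (P (nat_lit 0)))) (T.h (T.h (T.h (M (nat_lit 3125302884072949809151)) (T.h (P (nat_lit 0)) (P (nat_lit 822254790705152))))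 (T.h (P (nat_lit 0)) (M (nat_lit 652816732782591)))) (T.h (P (nat_lit 0)) (P (nat_lit 845034740580352))))))), (T.h (T.h (P (nat_lit 0)) (T.h (T.h (P (nat_lit 18797913578495883706412040192)) (T.h (P (nat_lit 0)) (T.h (P (nat_lit 1884468549579203149824)) (T.h (P (nat_lit 0)) (M (nat_lit 6033506803122175)))))) (T.h (P (nat_lit 0)) (T.h (T.h (M (nat_lit 3679868749620923334655)) (T.h (P (nat_lit 0)) (P (nat_lit 561367280779264)))) (T.h (P (nat_lit 0)) (P (nat_lit 1873500404449280))))))) (T.h (T.h (T.h (P (nat_lit 0)) (T.h (P (nat_lit 6699686972814614291546112)) (T.h (P (nat_lit 0)) (M (nat_lit 16964788036543971327))))) (T.h (P (nat_lit 0)) (T.h (T.h (P (nat_lit 0)) (P (nat_lit 6907880395153342464))) (P (nat_lit 0))))) (T.h (T.h (P (nat_lit 0)) (T.h (T.h (P (nat_lit 831348500465235001344)) (T.h (P (nat_lit 0)) (M (nat_lit 7225292625543167)))) (T.h (P (nat_lit 0)) (P (nat_lit 799398928056320))))) (T.h (T.h (T.h (P (nat_lit 0)) (P (nat_lit 10572818619601780736)))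 (P (nat_lit 0))) (T.h (T.h (P (nat_lit 0)) (P (nat_lit 4698632093433856))) (P (nat_lit 0))))))), (T.h (T.h (P (nat_lit 0)) (T.h (T.h (P (nat_lit 0)) (T.h (M (nat_lit 2424682419920877020774399)) (T.h (P (nat_lit 0)) (P (nat_lit 6178310966397108224))))) (T.h (P (nat_lit 0)) (T.h (T.h (P (nat_lit 0)) (M (nat_lit 287420047758983167))) (P (nat_lit 0)))))) (T.h (T.h (T.h (P (nat_lit 279908450380878969705594880)) (T.h (P (nat_lit 0)) (P (nat_lit 9901917847013963071488)))) (T.h (P (nat_lit 0)) (P (nat_lit 25474099469558480896)))) (T.h (T.h (P (nat_lit 0)) (T.h (T.h (P (nat_lit 0)) (P (nat_lit 10165924027084832768))) (P (nat_lit 0)))) (M (nat_lit 2829812515106405220351))))), (P (nat_lit 0))]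
def lQm_2 : List (T ℤ) := [(P (nat_lit 0)), (P (nat_lit 0)), (T.h (T.h (T.h (M (nat_lit 231541330990421274629362417663)) (T.h (P (nat_lit 0)) (T.h (M (nat_lit 3569015244786354544967679)) (T.h (P (nat_lit 0)) (P (nat_lit 631264490440097792)))))) (T.h (P (nat_lit 0)) (T.h (T.h (M (nat_lit 3569015244786354544967679)) (T.h (P (nat_lit 0)) (M (nat_lit 40000117314756280319)))) (T.h (P (nat_lit 0)) (P (nat_lit 631264490440097792)))))) (T.h (T.h (P (nat_lit 0)) (T.h (T.h (P (nat_lit 0)) (T.h (M (nat_lit 36647654013845643460607)) (T.h (P (nat_lit 0)) (M (nat_lit 3493448433926143))))) (T.h (P (nat_lit 0)) (T.h (T.h (P (nat_lit 0)) (M (nat_lit 3493448433926143))) (P (nat_lit 0)))))) (T.h (T.h (T.h (P (nat_lit 0)) (T.h (P (nat_lit 0)) (P (nat_lit 4235541714296635392)))) (T.h (P (nat_lit 0)) (P (nat_lit 4235541714296635392)))) (T.h (T.h (P (nat_lit 0)) (T.h (T.h (P (nat_lit 0)) (M (nat_lit 6475149598654463))) (P (nat_lit 0)))) (P (nat_lit 0)))))), (T.h (T.h (T.h (P (nat_lit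 0)) (T.h (M (nat_lit 28945795319755813979670183935)) (T.h (P (nat_lit 0)) (T.h (M (nat_lit 2383344313908043186175)) (T.h (P (nat_lit 0)) (M (nat_lit 1370138480934911))))))) (T.h (P (nat_lit 0)) (T.h (T.h (P (nat_lit 0)) (T.h (P (nat_lit 22221354977772968083456)) (T.h (P (nat_lit 0)) (P (nat_lit 3402348208455680))))) (T.h (P (nat_lit 0)) (T.h (T.h (P (nat_lit 0)) (P (nat_lit 6912399820259328))) (P (nat_lit 0))))))) (T.h (T.h (P (nat_lit 0)) (T.h (T.h (P (nat_lit 8068535727787160463474688)) (T.h (P (nat_lit 0)) (P (nat_lit 43086864515571122176)))) (T.h (P (nat_lit 0)) (P (nat_lit 6315105086901059584))))) (T.h (T.h (T.h (P (nat_lit 0)) (T.h (P (nat_lit 9895294323822176501760)) (T.h (P (nat_lit 0)) (M (nat_lit 12779192124375039))))) (T.h (P (nat_lit 0)) (T.h (T.h (P (nat_lit 0)) (M (nat_lit 19258408876113919))) (P (nat_lit 0))))) (T.h (T.h (P (nat_lit 0)) (M (nat_lit 7916378194117132287))) (T.h (T.h (T.h (P (nat_lit 0)) (P (nat_lit 2847357165699072))) (P (nat_lit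 0))) (P (nat_lit 0))))))), (T.h (T.h (T.h (P (nat_lit 0)) (T.h (P (nat_lit 0)) (T.h (M (nat_lit 202648603037179402256383)) (T.h (P (nat_lit 0)) (P (nat_lit 3437973054217519104)))))) (T.h (P (nat_lit 0)) (T.h (T.h (P (nat_lit 4182641287607808107216896)) (T.h (P (nat_lit 0)) (P (nat_lit 41114478829740490752)))) (T.h (P (nat_lit 0)) (P (nat_lit 6692125328539648000)))))) (T.h (T.h (P (nat_lit 0)) (T.h (T.h (P (nat_lit 0)) (T.h (P (nat_lit 40872332593621807136768)) (T.h (P (nat_lit 0)) (P (nat_lit 5870480457662464))))) (T.h (P (nat_lit 0)) (T.h (T.h (P (nat_lit 0)) (M (nat_lit 2868643210854399))) (P (nat_lit 0)))))) (T.h (T.h (T.h (P (nat_lit 0)) (T.h (P (nat_lit 0)) (M (nat_lit 23194938038433087487)))) (T.h (P (nat_lit 0)) (M (nat_lit 2994911782943850495)))) (T.h (T.h (P (nat_lit 0)) (T.h (T.h (P (nat_lit 0)) (P (nat_lit 7058222133673984))) (P (nat_lit 0)))) (P (nat_lit 552709772135104512)))))), (T.h (T.h (T.h (P (nat_lit 0)) (T.h (P (nat_lit 28844577970459765411969761280))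 (T.h (P (nat_lit 0)) (P (nat_lit 4503094450705800364032))))) (T.h (P (nat_lit 0)) (T.h (T.h (P (nat_lit 0)) (T.h (M (nat_lit 32373734643647391989759)) (T.h (P (nat_lit 0)) (M (nat_lit 206375840382975))))) (T.h (P (nat_lit 0)) (T.h (T.h (P (nat_lit 0)) (M (nat_lit 4531447495655423))) (P (nat_lit 0))))))) (T.h (T.h (P (nat_lit 0)) (T.h (T.h (M (nat_lit 11966167736419842051276799)) (T.h (P (nat_lit 0)) (M (nat_lit 27081893713398464511)))) (T.h (P (nat_lit 0)) (P (nat_lit 2052704746300506112))))) (T.h (T.h (T.h (P (nat_lit 0)) (T.h (P (nat_lit 11022453529369638862848)) (T.h (P (nat_lit 0)) (M (nat_lit 984868572889087))))) (P (nat_lit 0))) (T.h (T.h (P (nat_lit 0)) (P (nat_lit 1048887899719729152))) (T.h (T.h (T.h (P (nat_lit 0)) (M (nat_lit 2527009741733887))) (P (nat_lit 0))) (P (nat_lit 0))))))), (T.h (T.h (T.h (M (nat_lit 14562162258249013777924918083583)) (T.h (P (nat_lit 0)) (T.h (M (nat_lit 5400635009370655693996031)) (T.h (P (nat_lit 0)) (P (nat_lit 1544577741599277056))))))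 (T.h (P (nat_lit 0)) (T.h (T.h (P (nat_lit 1586501907438543587770368)) (T.h (P (nat_lit 0)) (M (nat_lit 272633426224349183)))) (T.h (P (nat_lit 0)) (M (nat_lit 1238029958807289855)))))) (T.h (T.h (P (nat_lit 0)) (T.h (T.h (P (nat_lit 0)) (P (nat_lit 14866527205867955159040))) (P (nat_lit 0)))) (T.h (T.h (T.h (M (nat_lit 472108168470894989017087)) (T.h (P (nat_lit 0)) (P (nat_lit 2606053976117870592)))) (T.h (P (nat_lit 0)) (M (nat_lit 613938376747253759)))) (T.h (P (nat_lit 0)) (M (nat_lit 555935322035191807)))))), (P (nat_lit 0))]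
def lQm_3 : List (T ℤ) := [(P (nat_lit 0)), (T.h (T.h (P (nat_lit 0)) (T.h (T.h (P (nat_lit 0)) (T.h (M (nat_lit 14280217490853106859114495)) (T.h (P (nat_lit 0)) (P (nat_lit 3431769517741572096))))) (T.h (P (nat_lit 0)) (T.h (T.h (P (nat_lit 0)) (M (nat_lit 5463924327831306239))) (P (nat_lit 0)))))) (T.h (T.h (T.h (P (nat_lit 2442310398557518728414625792)) (T.h (P (nat_lit 0)) (T.h (M (nat_lit 3047215125714868109311)) (T.h (P (nat_lit 0)) (M (nat_lit 1626567914815487)))))) (T.h (P (nat_lit 0)) (T.h (T.h (P (nat_lit 10983023708140231196672)) (T.h (P (nat_lit 0)) (P (nat_lit 3547622079004672)))) (T.h (P (nat_lit 0)) (M (nat_lit 664208017784831)))))) (T.h (T.h (P (nat_lit 0)) (T.h (T.h (P (nat_lit 0)) (P (nat_lit 3565072346572128256))) (P (nat_lit 0)))) (T.h (T.h (T.h (P (nat_lit 3679752308041006972928)) (T.h (P (nat_lit 0)) (P (nat_lit 140431119548416)))) (T.h (P (nat_lit 0)) (M (nat_lit 1039951104770047)))) (T.h (P (nat_lit 0)) (M (nat_lit 11815390019583))))))),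 (T.h (T.h (P (nat_lit 0)) (T.h (T.h (M (nat_lit 28945795319755813979670183935)) (T.h (P (nat_lit 0)) (T.h (P (nat_lit 22221354977772968083456)) (T.h (P (nat_lit 0)) (P (nat_lit 6912399820259328)))))) (T.h (P (nat_lit 0)) (T.h (T.h (M (nat_lit 2383344313908043186175)) (T.h (P (nat_lit 0)) (P (nat_lit 3402348208455680)))) (T.h (P (nat_lit 0)) (M (nat_lit 1370138480934911))))))) (T.h (T.h (T.h (P (nat_lit 0)) (T.h (P (nat_lit 8068535727787160463474688)) (T.h (P (nat_lit 0)) (P (nat_lit 6315105086901059584))))) (T.h (P (nat_lit 0)) (T.h (T.h (P (nat_lit 0)) (P (nat_lit 43086864515571122176))) (P (nat_lit 0))))) (T.h (T.h (P (nat_lit 0)) (T.h (T.h (P (nat_lit 9895294323822176501760)) (T.h (P (nat_lit 0)) (M (nat_lit 19258408876113919)))) (T.h (P (nat_lit 0)) (M (nat_lit 12779192124375039))))) (T.h (T.h (T.h (P (nat_lit 0)) (M (nat_lit 7916378194117132287))) (P (nat_lit 0))) (T.h (T.h (P (nat_lit 0)) (P (nat_lit 2847357165699072))) (P (nat_lit 0))))))), (T.h (T.h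 (P (nat_lit 0)) (T.h (T.h (P (nat_lit 0)) (T.h (P (nat_lit 22460120382946506830774272)) (T.h (P (nat_lit 0)) (P (nat_lit 9651679485245784064))))) (T.h (P (nat_lit 0)) (T.h (T.h (P (nat_lit 0)) (P (nat_lit 9651679485245784064))) (P (nat_lit 0)))))) (T.h (T.h (T.h (M (nat_lit 2120122278237486535193657343)) (T.h (P (nat_lit 0)) (T.h (P (nat_lit 13584920725667681665024)) (T.h (P (nat_lit 0)) (P (nat_lit 3993105336041472)))))) (T.h (P (nat_lit 0)) (T.h (T.h (P (nat_lit 13584920725667681665024)) (T.h (P (nat_lit 0)) (M (nat_lit 786403700375551)))) (T.h (P (nat_lit 0)) (P (nat_lit 3993105336041472)))))) (T.h (T.h (P (nat_lit 0)) (T.h (T.h (P (nat_lit 0)) (M (nat_lit 21126162680394022911))) (P (nat_lit 0)))) (T.h (T.h (T.h (P (nat_lit 1352678270254679326720)) (T.h (P (nat_lit 0)) (P (nat_lit 2523038380785664)))) (T.h (P (nat_lit 0)) (P (nat_lit 2523038380785664)))) (P (nat_lit 0)))))), (T.h (T.h (P (nat_lit 0)) (T.h (T.h (P (nat_lit 37893429309236406925974831104))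 (T.h (P (nat_lit 0)) (T.h (M (nat_lit 46722084582422631940095)) (T.h (P (nat_lit 0)) (M (nat_lit 14077589957378047)))))) (T.h (P (nat_lit 0)) (T.h (T.h (M (nat_lit 5387817051542781951999)) (T.h (P (nat_lit 0)) (M (nat_lit 13167663938011135)))) (T.h (P (nat_lit 0)) (P (nat_lit 1532455800799232))))))) (T.h (T.h (T.h (P (nat_lit 0)) (T.h (M (nat_lit 33579549897271383517298687)) (T.h (P (nat_lit 0)) (P (nat_lit 8849408785970626560))))) (T.h (P (nat_lit 0)) (T.h (T.h (P (nat_lit 0)) (P (nat_lit 3982024280127832064))) (P (nat_lit 0))))) (T.h (T.h (P (nat_lit 0)) (T.h (T.h (M (nat_lit 4104446577559067426815)) (T.h (P (nat_lit 0)) (M (nat_lit 45416800770588671)))) (T.h (P (nat_lit 0)) (M (nat_lit 7436073746825215))))) (T.h (T.h (T.h (P (nat_lit 0)) (M (nat_lit 3541372019637485567))) (P (nat_lit 0))) (T.h (T.h (P (nat_lit 0)) (P (nat_lit 11279627034034176))) (P (nat_lit 0))))))), (T.h (T.h (P (nat_lit 0)) (T.h (T.h (P (nat_lit 0)) (T.h (P (nat_lit 7693749846238283348049920))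 (T.h (P (nat_lit 0)) (P (nat_lit 14521116546631204864))))) (T.h (P (nat_lit 0)) (T.h (T.h (P (nat_lit 0)) (P (nat_lit 11382046171812855808))) (P (nat_lit 0)))))) (T.h (T.h (T.h (P (nat_lit 4996804256147560436517044224)) (T.h (P (nat_lit 0)) (M (nat_lit 4296544144108300533759)))) (T.h (P (nat_lit 0)) (M (nat_lit 257028261180969320447)))) (T.h (T.h (P (nat_lit 0)) (T.h (T.h (P (nat_lit 0)) (P (nat_lit 23253401994541400064))) (P (nat_lit 0)))) (M (nat_lit 699374331989025882111))))), (P (nat_lit 0)), (P (nat_lit 0))]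
def lQm_4 : List (T ℤ) := [(T.h (T.h (T.h (M (nat_lit 470961987125908346733519175679)) (T.h (P (nat_lit 0)) (T.h (M (nat_lit 1942057638129030519586815)) (T.h (P (nat_lit 0)) (M (nat_lit 3371299736341446655)))))) (T.h (P (nat_lit 0)) (T.h (T.h (P (nat_lit 57899600867765543501824)) (T.h (P (nat_lit 0)) (P (nat_lit 1192941709491699712)))) (T.h (P (nat_lit 0)) (M (nat_lit 846434129254809599)))))) (T.h (T.h (P (nat_lit 0)) (T.h (T.h (P (nat_lit 0)) (T.h (P (nat_lit 538075358818507685888)) (T.h (P (nat_lit 0)) (M (nat_lit 598511274688511))))) (T.h (P (nat_lit 0)) (T.h (T.h (P (nat_lit 0)) (M (nat_lit 1583080657387519))) (P (nat_lit 0)))))) (T.h (T.h (T.h (M (nat_lit 1942057638129030519586815)) (T.h (P (nat_lit 0)) (M (nat_lit 556449493575270399)))) (T.h (P (nat_lit 0)) (P (nat_lit 1192941709491699712)))) (T.h (T.h (P (nat_lit 0)) (T.h (T.h (P (nat_lit 0)) (M (nat_lit 598511274688511))) (P (nat_lit 0)))) (M (nat_lit 3371299736341446655)))))), (T.h (T.h (T.h (P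 (nat_lit 0)) (T.h (M (nat_lit 18304896387085352232648966143)) (T.h (P (nat_lit 0)) (T.h (P (nat_lit 5654640754338346041344)) (T.h (P (nat_lit 0)) (M (nat_lit 2869922849095679))))))) (T.h (P (nat_lit 0)) (T.h (T.h (P (nat_lit 0)) (T.h (P (nat_lit 7520213398898532679680)) (T.h (P (nat_lit 0)) (P (nat_lit 5111942745948160))))) (T.h (P (nat_lit 0)) (T.h (T.h (P (nat_lit 0)) (P (nat_lit 6019960219729920))) (P (nat_lit 0))))))) (T.h (T.h (P (nat_lit 0)) (T.h (T.h (M (nat_lit 7019409435893459079659519)) (T.h (P (nat_lit 0)) (P (nat_lit 2079363055329738752)))) (T.h (P (nat_lit 0)) (P (nat_lit 9466224910058651648))))) (T.h (T.h (T.h (P (nat_lit 0)) (T.h (P (nat_lit 8117553435009748041728)) (T.h (P (nat_lit 0)) (P (nat_lit 1955038863065088))))) (T.h (P (nat_lit 0)) (T.h (T.h (P (nat_lit 0)) (P (nat_lit 21629963256332288))) (P (nat_lit 0))))) (T.h (T.h (P (nat_lit 0)) (M (nat_lit 14393325072985096191))) (T.h (T.h (T.h (P (nat_lit 0)) (M (nat_lit 3611440046374911)))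 (P (nat_lit 0))) (P (nat_lit 0))))))), (T.h (T.h (T.h (P (nat_lit 0)) (T.h (P (nat_lit 0)) (T.h (P (nat_lit 4182641287607808107216896)) (T.h (P (nat_lit 0)) (P (nat_lit 6692125328539648000)))))) (T.h (P (nat_lit 0)) (T.h (T.h (M (nat_lit 202648603037179402256383)) (T.h (P (nat_lit 0)) (P (nat_lit 41114478829740490752)))) (T.h (P (nat_lit 0)) (P (nat_lit 3437973054217519104)))))) (T.h (T.h (P (nat_lit 0)) (T.h (T.h (P (nat_lit 0)) (T.h (P (nat_lit 40872332593621807136768)) (T.h (P (nat_lit 0)) (M (nat_lit 2868643210854399))))) (T.h (P (nat_lit 0)) (T.h (T.h (P (nat_lit 0)) (P (nat_lit 5870480457662464))) (P (nat_lit 0)))))) (T.h (T.h (T.h (P (nat_lit 0)) (T.h (P (nat_lit 0)) (M (nat_lit 2994911782943850495)))) (T.h (P (nat_lit 0)) (M (nat_lit 23194938038433087487)))) (T.h (T.h (P (nat_lit 0)) (T.h (T.h (P (nat_lit 0)) (P (nat_lit 7058222133673984))) (P (nat_lit 0)))) (P (nat_lit 552709772135104512)))))), (T.h (T.h (T.h (P (nat_lit 0)) (T.h (P (nat_lit 37893429309236406925974831104))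 (T.h (P (nat_lit 0)) (T.h (M (nat_lit 5387817051542781951999)) (T.h (P (nat_lit 0)) (P (nat_lit 1532455800799232))))))) (T.h (P (nat_lit 0)) (T.h (T.h (P (nat_lit 0)) (T.h (M (nat_lit 46722084582422631940095)) (T.h (P (nat_lit 0)) (M (nat_lit 13167663938011135))))) (T.h (P (nat_lit 0)) (T.h (T.h (P (nat_lit 0)) (M (nat_lit 14077589957378047))) (P (nat_lit 0))))))) (T.h (T.h (P (nat_lit 0)) (T.h (T.h (M (nat_lit 33579549897271383517298687)) (T.h (P (nat_lit 0)) (P (nat_lit 3982024280127832064)))) (T.h (P (nat_lit 0)) (P (nat_lit 8849408785970626560))))) (T.h (T.h (T.h (P (nat_lit 0)) (T.h (M (nat_lit 4104446577559067426815)) (T.h (P (nat_lit 0)) (M (nat_lit 7436073746825215))))) (T.h (P (nat_lit 0)) (T.h (T.h (P (nat_lit 0)) (M (nat_lit 45416800770588671))) (P (nat_lit 0))))) (T.h (T.h (P (nat_lit 0)) (M (nat_lit 3541372019637485567))) (T.h (T.h (T.h (P (nat_lit 0)) (P (nat_lit 11279627034034176))) (P (nat_lit 0))) (P (nat_lit 0))))))), (T.h (T.h (T.h (M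 (nat_lit 26617841765287406009037398999039)) (T.h (P (nat_lit 0)) (T.h (P (nat_lit 129977362024824844582912)) (T.h (P (nat_lit 0)) (P (nat_lit 1642319604065763328)))))) (T.h (P (nat_lit 0)) (T.h (T.h (P (nat_lit 129977362024824844582912)) (T.h (P (nat_lit 0)) (P (nat_lit 20225531808785104896)))) (T.h (P (nat_lit 0)) (P (nat_lit 1642319604065763328)))))) (T.h (T.h (P (nat_lit 0)) (T.h (T.h (P (nat_lit 0)) (M (nat_lit 1028113044723877281791))) (P (nat_lit 0)))) (T.h (T.h (T.h (P (nat_lit 3714307327027633757093888)) (T.h (P (nat_lit 0)) (P (nat_lit 17337605634832465920)))) (T.h (P (nat_lit 0)) (P (nat_lit 17337605634832465920)))) (T.h (P (nat_lit 0)) (M (nat_lit 5775169041425498111)))))), (P (nat_lit 0)), (P (nat_lit 0)), (T.h (T.h (P (nat_lit 0)) (T.h (T.h (M (nat_lit 12556200628884101627117567)) (T.h (P (nat_lit 0)) (T.h (P (nat_lit 206023718593120698368)) (T.h (P (nat_lit 0)) (P (nat_lit 882307154673664)))))) (T.h (P (nat_lit 0)) (T.h (T.h (P (nat_lit 961368688894572232704))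 (T.h (P (nat_lit 0)) (P (nat_lit 3263992765448192)))) (T.h (P (nat_lit 0)) (P (nat_lit 520789253947392))))))) (T.h (T.h (T.h (P (nat_lit 0)) (T.h (P (nat_lit 836226289139926597369856)) (T.h (P (nat_lit 0)) (M (nat_lit 1936904125291692031))))) (T.h (P (nat_lit 0)) (T.h (T.h (P (nat_lit 0)) (M (nat_lit 4835318243637854207))) (P (nat_lit 0))))) (T.h (T.h (P (nat_lit 0)) (T.h (T.h (P (nat_lit 206023718593120698368)) (T.h (P (nat_lit 0)) (P (nat_lit 9472520804892672)))) (T.h (P (nat_lit 0)) (P (nat_lit 3263992765448192))))) (T.h (T.h (T.h (P (nat_lit 0)) (M (nat_lit 1936904125291692031))) (P (nat_lit 0))) (T.h (T.h (P (nat_lit 0)) (P (nat_lit 882307154673664))) (P (nat_lit 0)))))))]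
def lQm_5 : List (T ℤ) := [(T.h (T.h (P (nat_lit 0)) (T.h (T.h (P (nat_lit 0)) (T.h (P (nat_lit 11844556794739376483467264)) (T.h (P (nat_lit 0)) (M (nat_lit 4179479936819527679))))) (T.h (P (nat_lit 0)) (T.h (T.h (P (nat_lit 0)) (M (nat_lit 2165209077553037311))) (P (nat_lit 0)))))) (T.h (T.h (T.h (M (nat_lit 3147316493728592057340002303)) (T.h (P (nat_lit 0)) (T.h (M (nat_lit 807578637971415367679)) (T.h (P (nat_lit 0)) (M (nat_lit 1036859366244351)))))) (T.h (P (nat_lit 0)) (T.h (T.h (M (nat_lit 18857449857395644694527)) (T.h (P (nat_lit 0)) (M (nat_lit 11975517620469759)))) (T.h (P (nat_lit 0)) (P (nat_lit 2925128420229120)))))) (T.h (T.h (P (nat_lit 0)) (T.h (T.h (P (nat_lit 0)) (M (nat_lit 14447188899941842943))) (P (nat_lit 0)))) (T.h (T.h (T.h (M (nat_lit 3125302884072949809151)) (T.h (P (nat_lit 0)) (M (nat_lit 652816732782591)))) (T.h (P (nat_lit 0)) (P (nat_lit 822254790705152)))) (T.h (P (nat_lit 0)) (P (nat_lit 845034740580352))))))), (T.h (T.h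 (P (nat_lit 0)) (T.h (T.h (P (nat_lit 28844577970459765411969761280)) (T.h (P (nat_lit 0)) (T.h (M (nat_lit 32373734643647391989759)) (T.h (P (nat_lit 0)) (M (nat_lit 4531447495655423)))))) (T.h (P (nat_lit 0)) (T.h (T.h (P (nat_lit 4503094450705800364032)) (T.h (P (nat_lit 0)) (M (nat_lit 206375840382975)))) (P (nat_lit 0)))))) (T.h (T.h (T.h (P (nat_lit 0)) (T.h (M (nat_lit 11966167736419842051276799)) (T.h (P (nat_lit 0)) (P (nat_lit 2052704746300506112))))) (T.h (P (nat_lit 0)) (T.h (T.h (P (nat_lit 0)) (M (nat_lit 27081893713398464511))) (P (nat_lit 0))))) (T.h (T.h (P (nat_lit 0)) (T.h (P (nat_lit 11022453529369638862848)) (T.h (P (nat_lit 0)) (M (nat_lit 984868572889087))))) (T.h (T.h (T.h (P (nat_lit 0)) (P (nat_lit 1048887899719729152))) (P (nat_lit 0))) (T.h (T.h (P (nat_lit 0)) (M (nat_lit 2527009741733887))) (P (nat_lit 0))))))), (T.h (T.h (P (nat_lit 0)) (T.h (T.h (P (nat_lit 0)) (T.h (P (nat_lit 7693749846238283348049920)) (T.h (P (nat_lit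 0)) (P (nat_lit 11382046171812855808))))) (T.h (P (nat_lit 0)) (T.h (T.h (P (nat_lit 0)) (P (nat_lit 14521116546631204864))) (P (nat_lit 0)))))) (T.h (T.h (T.h (P (nat_lit 4996804256147560436517044224)) (T.h (P (nat_lit 0)) (M (nat_lit 257028261180969320447)))) (T.h (P (nat_lit 0)) (M (nat_lit 4296544144108300533759)))) (T.h (T.h (P (nat_lit 0)) (T.h (T.h (P (nat_lit 0)) (P (nat_lit 23253401994541400064))) (P (nat_lit 0)))) (M (nat_lit 699374331989025882111))))), (P (nat_lit 0)), (P (nat_lit 0)), (T.h (T.h (T.h (M (nat_lit 4555771215876288499418849607679)) (T.h (P (nat_lit 0)) (T.h (P (nat_lit 2197890908742290795134976)) (T.h (P (nat_lit 0)) (P (nat_lit 3789748147635355648)))))) (T.h (P (nat_lit 0)) (T.h (T.h (P (nat_lit 1408964967221915887337472)) (T.h (P (nat_lit 0)) (M (nat_lit 1418544840500576255)))) (T.h (P (nat_lit 0)) (M (nat_lit 547476731234091007)))))) (T.h (T.h (P (nat_lit 0)) (T.h (T.h (P (nat_lit 0)) (M (nat_lit 101896397878233923583))) (T.h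 (P (nat_lit 0)) (T.h (T.h (P (nat_lit 0)) (P (nat_lit 2216312920342528))) (P (nat_lit 0)))))) (T.h (T.h (T.h (P (nat_lit 2197890908742290795134976)) (T.h (P (nat_lit 0)) (M (nat_lit 2005410347908857855)))) (T.h (P (nat_lit 0)) (M (nat_lit 1418544840500576255)))) (T.h (P (nat_lit 0)) (P (nat_lit 3789748147635355648)))))), (T.h (T.h (T.h (P (nat_lit 0)) (T.h (P (nat_lit 18797913578495883706412040192)) (T.h (P (nat_lit 0)) (T.h (M (nat_lit 3679868749620923334655)) (T.h (P (nat_lit 0)) (P (nat_lit 1873500404449280))))))) (T.h (P (nat_lit 0)) (T.h (T.h (P (nat_lit 0)) (T.h (P (nat_lit 1884468549579203149824)) (T.h (P (nat_lit 0)) (P (nat_lit 561367280779264))))) (T.h (P (nat_lit 0)) (T.h (T.h (P (nat_lit 0)) (M (nat_lit 6033506803122175))) (P (nat_lit 0))))))) (T.h (T.h (P (nat_lit 0)) (T.h (T.h (P (nat_lit 6699686972814614291546112)) (T.h (P (nat_lit 0)) (P (nat_lit 6907880395153342464)))) (T.h (P (nat_lit 0)) (M (nat_lit 16964788036543971327))))) (T.h (T.h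 (T.h (P (nat_lit 0)) (T.h (P (nat_lit 831348500465235001344)) (T.h (P (nat_lit 0)) (P (nat_lit 799398928056320))))) (T.h (P (nat_lit 0)) (T.h (T.h (P (nat_lit 0)) (M (nat_lit 7225292625543167))) (P (nat_lit 0))))) (T.h (T.h (P (nat_lit 0)) (P (nat_lit 10572818619601780736))) (T.h (T.h (T.h (P (nat_lit 0)) (P (nat_lit 4698632093433856))) (P (nat_lit 0))) (P (nat_lit 0))))))), (T.h (T.h (T.h (M (nat_lit 14562162258249013777924918083583)) (T.h (P (nat_lit 0)) (T.h (P (nat_lit 1586501907438543587770368)) (T.h (P (nat_lit 0)) (M (nat_lit 1238029958807289855)))))) (T.h (P (nat_lit 0)) (T.h (T.h (M (nat_lit 5400635009370655693996031)) (T.h (P (nat_lit 0)) (M (nat_lit 272633426224349183)))) (T.h (P (nat_lit 0)) (P (nat_lit 1544577741599277056)))))) (T.h (T.h (P (nat_lit 0)) (T.h (T.h (P (nat_lit 0)) (P (nat_lit 14866527205867955159040))) (P (nat_lit 0)))) (T.h (T.h (T.h (M (nat_lit 472108168470894989017087)) (T.h (P (nat_lit 0)) (M (nat_lit 613938376747253759))))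 (T.h (P (nat_lit 0)) (P (nat_lit 2606053976117870592)))) (T.h (P (nat_lit 0)) (M (nat_lit 555935322035191807))))))]
def lQm_6 : List (T ℤ) := [(P (nat_lit 0)), (P (nat_lit 0)), (T.h (T.h (P (nat_lit 0)) (T.h (P (nat_lit 0)) (T.h (P (nat_lit 0)) (T.h (M (nat_lit 1386797677371080048639)) (T.h (P (nat_lit 0)) (M (nat_lit 694385671929855))))))) (T.h (T.h (T.h (P (nat_lit 0)) (M (nat_lit 1093392384300308475412479))) (T.h (P (nat_lit 0)) (T.h (T.h (P (nat_lit 0)) (M (nat_lit 1945289511797784575))) (P (nat_lit 0))))) (T.h (T.h (P (nat_lit 0)) (T.h (T.h (P (nat_lit 0)) (T.h (P (nat_lit 0)) (M (nat_lit 12630027739856895)))) (P (nat_lit 0)))) (P (nat_lit 0))))), (T.h (T.h (P (nat_lit 0)) (T.h (T.h (P (nat_lit 0)) (T.h (M (nat_lit 2424682419920877020774399)) (T.h (P (nat_lit 0)) (M (nat_lit 287420047758983167))))) (T.h (P (nat_lit 0)) (T.h (T.h (P (nat_lit 0)) (P (nat_lit 6178310966397108224))) (P (nat_lit 0)))))) (T.h (T.h (T.h (P (nat_lit 279908450380878969705594880))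 (T.h (P (nat_lit 0)) (P (nat_lit 25474099469558480896)))) (T.h (P (nat_lit 0)) (P (nat_lit 9901917847013963071488)))) (T.h (T.h (P (nat_lit 0)) (T.h (T.h (P (nat_lit 0)) (P (nat_lit 10165924027084832768))) (P (nat_lit 0)))) (M (nat_lit 2829812515106405220351))))), (P (nat_lit 0)), (P (nat_lit 0)), (T.h (T.h (P (nat_lit 0)) (T.h (P (nat_lit 0)) (T.h (P (nat_lit 0)) (T.h (P (nat_lit 0)) (P (nat_lit 888813660070215680)))))) (T.h (P (nat_lit 0)) (T.h (T.h (T.h (P (nat_lit 0)) (T.h (P (nat_lit 0)) (P (nat_lit 3233287101403365376)))) (P (nat_lit 0))) (P (nat_lit 0))))), (P (nat_lit 0))]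
def lQm_7 : List (T ℤ) := [(P (nat_lit 0)), (P (nat_lit 0)), (P (nat_lit 0)), (P (nat_lit 0)), (T.h (T.h (P (nat_lit 0)) (T.h (T.h (P (nat_lit 2442310398557518728414625792)) (T.h (P (nat_lit 0)) (T.h (P (nat_lit 10983023708140231196672)) (T.h (P (nat_lit 0)) (M (nat_lit 664208017784831)))))) (T.h (P (nat_lit 0)) (T.h (T.h (P (nat_lit 3679752308041006972928)) (T.h (P (nat_lit 0)) (M (nat_lit 1039951104770047)))) (T.h (P (nat_lit 0)) (M (nat_lit 11815390019583))))))) (T.h (T.h (T.h (P (nat_lit 0)) (T.h (M (nat_lit 14280217490853106859114495)) (T.h (P (nat_lit 0)) (M (nat_lit 5463924327831306239))))) (T.h (P (nat_lit 0)) (T.h (T.h (P (nat_lit 0)) (P (nat_lit 3565072346572128256))) (P (nat_lit 0))))) (T.h (T.h (P (nat_lit 0)) (T.h (T.h (M (nat_lit 3047215125714868109311)) (T.h (P (nat_lit 0)) (P (nat_lit 3547622079004672)))) (T.h (P (nat_lit 0)) (P (nat_lit 140431119548416))))) (T.h (T.h (T.h (P (nat_lit 0)) (P (nat_lit 3431769517741572096))) (P (nat_lit 0)))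 (T.h (T.h (P (nat_lit 0)) (M (nat_lit 1626567914815487))) (P (nat_lit 0))))))), (T.h (T.h (P (nat_lit 0)) (T.h (T.h (P (nat_lit 0)) (T.h (M (nat_lit 7019409435893459079659519)) (T.h (P (nat_lit 0)) (P (nat_lit 9466224910058651648))))) (T.h (P (nat_lit 0)) (T.h (T.h (P (nat_lit 0)) (M (nat_lit 14393325072985096191))) (P (nat_lit 0)))))) (T.h (T.h (T.h (M (nat_lit 18304896387085352232648966143)) (T.h (P (nat_lit 0)) (T.h (P (nat_lit 7520213398898532679680)) (T.h (P (nat_lit 0)) (P (nat_lit 6019960219729920)))))) (T.h (P (nat_lit 0)) (T.h (T.h (P (nat_lit 8117553435009748041728)) (T.h (P (nat_lit 0)) (P (nat_lit 21629963256332288)))) (T.h (P (nat_lit 0)) (M (nat_lit 3611440046374911)))))) (T.h (T.h (P (nat_lit 0)) (T.h (T.h (P (nat_lit 0)) (P (nat_lit 2079363055329738752))) (P (nat_lit 0)))) (T.h (T.h (T.h (P (nat_lit 5654640754338346041344)) (T.h (P (nat_lit 0)) (P (nat_lit 5111942745948160)))) (T.h (P (nat_lit 0)) (P (nat_lit 1955038863065088)))) (T.h (P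 (nat_lit 0)) (M (nat_lit 2869922849095679))))))), (T.h (T.h (P (nat_lit 0)) (T.h (T.h (M (nat_lit 3147316493728592057340002303)) (T.h (P (nat_lit 0)) (T.h (M (nat_lit 18857449857395644694527)) (T.h (P (nat_lit 0)) (P (nat_lit 2925128420229120)))))) (T.h (P (nat_lit 0)) (T.h (T.h (M (nat_lit 3125302884072949809151)) (T.h (P (nat_lit 0)) (P (nat_lit 822254790705152)))) (T.h (P (nat_lit 0)) (P (nat_lit 845034740580352))))))) (T.h (T.h (T.h (P (nat_lit 0)) (T.h (P (nat_lit 11844556794739376483467264)) (T.h (P (nat_lit 0)) (M (nat_lit 2165209077553037311))))) (T.h (P (nat_lit 0)) (T.h (T.h (P (nat_lit 0)) (M (nat_lit 14447188899941842943))) (P (nat_lit 0))))) (T.h (T.h (P (nat_lit 0)) (T.h (T.h (M (nat_lit 807578637971415367679)) (T.h (P (nat_lit 0)) (M (nat_lit 11975517620469759)))) (T.h (P (nat_lit 0)) (M (nat_lit 652816732782591))))) (T.h (T.h (T.h (P (nat_lit 0)) (M (nat_lit 4179479936819527679))) (P (nat_lit 0))) (T.h (T.h (P (nat_lit 0)) (M (nat_lit 1036859366244351)))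 (P (nat_lit 0))))))), (T.h (T.h (P (nat_lit 0)) (T.h (T.h (P (nat_lit 0)) (T.h (P (nat_lit 6699686972814614291546112)) (T.h (P (nat_lit 0)) (M (nat_lit 16964788036543971327))))) (T.h (P (nat_lit 0)) (T.h (T.h (P (nat_lit 0)) (P (nat_lit 10572818619601780736))) (P (nat_lit 0)))))) (T.h (T.h (T.h (P (nat_lit 18797913578495883706412040192)) (T.h (P (nat_lit 0)) (T.h (P (nat_lit 1884468549579203149824)) (T.h (P (nat_lit 0)) (M (nat_lit 6033506803122175)))))) (T.h (P (nat_lit 0)) (T.h (T.h (P (nat_lit 831348500465235001344)) (T.h (P (nat_lit 0)) (M (nat_lit 7225292625543167)))) (T.h (P (nat_lit 0)) (P (nat_lit 4698632093433856)))))) (T.h (T.h (P (nat_lit 0)) (T.h (T.h (P (nat_lit 0)) (P (nat_lit 6907880395153342464))) (P (nat_lit 0)))) (T.h (T.h (T.h (M (nat_lit 3679868749620923334655)) (T.h (P (nat_lit 0)) (P (nat_lit 561367280779264)))) (T.h (P (nat_lit 0)) (P (nat_lit 799398928056320)))) (T.h (P (nat_lit 0)) (P (nat_lit 1873500404449280)))))))]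
def lQm_8 : List (T ℤ) := [(T.h (T.h (P (nat_lit 0)) (T.h (T.h (P (nat_lit 279908450380878969705594880)) (T.h (P (nat_lit 0)) (P (nat_lit 9901917847013963071488)))) (T.h (P (nat_lit 0)) (M (nat_lit 2829812515106405220351))))) (T.h (T.h (T.h (P (nat_lit 0)) (T.h (M (nat_lit 2424682419920877020774399)) (T.h (P (nat_lit 0)) (P (nat_lit 6178310966397108224))))) (T.h (P (nat_lit 0)) (T.h (T.h (P (nat_lit 0)) (P (nat_lit 10165924027084832768))) (P (nat_lit 0))))) (T.h (T.h (P (nat_lit 0)) (P (nat_lit 25474099469558480896))) (T.h (T.h (T.h (P (nat_lit 0)) (M (nat_lit 287420047758983167))) (P (nat_lit 0))) (P (nat_lit 0)))))), (P (nat_lit 0)), (P (nat_lit 0)), (T.h (T.h (T.h (P (nat_lit 0)) (T.h (P (nat_lit 0)) (T.h (P (nat_lit 0)) (T.h (P (nat_lit 0)) (T.h (P (nat_lit 0)) (M (nat_lit 1517611902173183))))))) (T.h (P (nat_lit 0)) (T.h (T.h (P (nat_lit 0)) (T.h (M (nat_lit 393394788669509861375)) (T.h (P (nat_lit 0)) (M (nat_lit 6466019186049023))))) (T.h (P (nat_lit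 0)) (T.h (T.h (P (nat_lit 0)) (M (nat_lit 9592676862263295))) (P (nat_lit 0))))))) (T.h (T.h (P (nat_lit 0)) (T.h (T.h (P (nat_lit 4522944407224301738000384)) (T.h (P (nat_lit 0)) (M (nat_lit 20828737242849607679)))) (T.h (P (nat_lit 0)) (P (nat_lit 4169824286824988672))))) (T.h (T.h (T.h (P (nat_lit 0)) (T.h (M (nat_lit 393394788669509861375)) (T.h (P (nat_lit 0)) (M (nat_lit 6466019186049023))))) (T.h (P (nat_lit 0)) (T.h (T.h (P (nat_lit 0)) (M (nat_lit 2885507989110783))) (P (nat_lit 0))))) (T.h (T.h (P (nat_lit 0)) (P (nat_lit 4169824286824988672))) (T.h (T.h (T.h (P (nat_lit 0)) (M (nat_lit 9592676862263295))) (P (nat_lit 0))) (P (nat_lit 0))))))), (T.h (T.h (T.h (M (nat_lit 3143737244969936869129166258175)) (T.h (P (nat_lit 0)) (T.h (M (nat_lit 26474240155417147621769215)) (T.h (P (nat_lit 0)) (M (nat_lit 21098483973839912959)))))) (T.h (P (nat_lit 0)) (T.h (T.h (P (nat_lit 12155214700718626088943616)) (T.h (P (nat_lit 0)) (P (nat_lit 102134599549219504128))))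 (T.h (P (nat_lit 0)) (M (nat_lit 14689685651503185919)))))) (T.h (T.h (P (nat_lit 0)) (T.h (T.h (P (nat_lit 0)) (T.h (M (nat_lit 32851468501967855157247)) (T.h (P (nat_lit 0)) (P (nat_lit 13303475283951616))))) (T.h (P (nat_lit 0)) (T.h (T.h (P (nat_lit 0)) (P (nat_lit 16763430138347520))) (P (nat_lit 0)))))) (T.h (T.h (T.h (P (nat_lit 12155214700718626088943616)) (T.h (P (nat_lit 0)) (P (nat_lit 102134599549219504128)))) (T.h (P (nat_lit 0)) (M (nat_lit 10583644917895004159)))) (T.h (T.h (P (nat_lit 0)) (T.h (T.h (P (nat_lit 0)) (P (nat_lit 16763430138347520))) (P (nat_lit 0)))) (M (nat_lit 14689685651503185919)))))), (T.h (T.h (T.h (P (nat_lit 0)) (T.h (P (nat_lit 17534095856328093313800339456)) (T.h (P (nat_lit 0)) (T.h (P (nat_lit 8404049344762782679040)) (T.h (P (nat_lit 0)) (P (nat_lit 1944089406472192))))))) (T.h (P (nat_lit 0)) (T.h (T.h (P (nat_lit 0)) (T.h (M (nat_lit 30443126340952313036799)) (T.h (P (nat_lit 0)) (P (nat_lit 23785446772441088)))))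 (T.h (P (nat_lit 0)) (T.h (T.h (P (nat_lit 0)) (P (nat_lit 9729628367814656))) (P (nat_lit 0))))))) (T.h (T.h (P (nat_lit 0)) (T.h (T.h (P (nat_lit 280063454011845911773184)) (T.h (P (nat_lit 0)) (P (nat_lit 16042218279384645632)))) (T.h (P (nat_lit 0)) (P (nat_lit 5983461280776716288))))) (T.h (T.h (T.h (P (nat_lit 0)) (T.h (M (nat_lit 30443126340952313036799)) (T.h (P (nat_lit 0)) (P (nat_lit 23785446772441088))))) (T.h (P (nat_lit 0)) (T.h (T.h (P (nat_lit 0)) (P (nat_lit 15713127575584768))) (P (nat_lit 0))))) (T.h (T.h (P (nat_lit 0)) (P (nat_lit 5983461280776716288))) (T.h (T.h (T.h (P (nat_lit 0)) (P (nat_lit 9729628367814656))) (P (nat_lit 0))) (P (nat_lit 0))))))), (T.h (T.h (T.h (P (nat_lit 2640985042259987329960279801856)) (T.h (P (nat_lit 0)) (T.h (P (nat_lit 11953613207112808463859712)) (T.h (P (nat_lit 0)) (P (nat_lit 4573725690595115008)))))) (T.h (P (nat_lit 0)) (T.h (T.h (M (nat_lit 15832890018593205873803263)) (T.h (P (nat_lit 0)) (M (nat_lit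 105469962557071556607)))) (T.h (P (nat_lit 0)) (P (nat_lit 15687109414433587200)))))) (T.h (T.h (P (nat_lit 0)) (T.h (T.h (P (nat_lit 0)) (T.h (M (nat_lit 18792191774930400968703)) (T.h (P (nat_lit 0)) (M (nat_lit 6383262989025279))))) (T.h (P (nat_lit 0)) (T.h (T.h (P (nat_lit 0)) (M (nat_lit 15062716752592895))) (P (nat_lit 0)))))) (T.h (T.h (T.h (M (nat_lit 15832890018593205873803263)) (T.h (P (nat_lit 0)) (M (nat_lit 105469962557071556607)))) (T.h (P (nat_lit 0)) (M (nat_lit 6659856347367997439)))) (T.h (T.h (P (nat_lit 0)) (T.h (T.h (P (nat_lit 0)) (M (nat_lit 15062716752592895))) (P (nat_lit 0)))) (P (nat_lit 15687109414433587200)))))), (T.h (T.h (T.h (P (nat_lit 0)) (T.h (M (nat_lit 2613273605147549987961307135)) (T.h (P (nat_lit 0)) (M (nat_lit 2747092652249212518399))))) (T.h (P (nat_lit 0)) (T.h (T.h (P (nat_lit 0)) (P (nat_lit 36272100889309380345856))) (P (nat_lit 0))))) (T.h (T.h (P (nat_lit 0)) (T.h (T.h (M (nat_lit 817752586518847605964799))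 (T.h (P (nat_lit 0)) (P (nat_lit 12301045624127619072)))) (T.h (P (nat_lit 0)) (M (nat_lit 1364636026177323007))))) (T.h (T.h (T.h (P (nat_lit 0)) (P (nat_lit 36272100889309380345856))) (P (nat_lit 0))) (T.h (T.h (P (nat_lit 0)) (M (nat_lit 1364636026177323007))) (P (nat_lit 0))))))]
def lQm_9 : List (T ℤ) := [(P (nat_lit 0)), (P (nat_lit 0)), (T.h (T.h (P (nat_lit 0)) (T.h (T.h (P (nat_lit 0)) (T.h (P (nat_lit 0)) (T.h (M (nat_lit 393394788669509861375)) (T.h (P (nat_lit 0)) (M (nat_lit 9592676862263295)))))) (T.h (P (nat_lit 0)) (T.h (T.h (P (nat_lit 0)) (T.h (P (nat_lit 0)) (M (nat_lit 6466019186049023)))) (T.h (P (nat_lit 0)) (M (nat_lit 1517611902173183))))))) (T.h (T.h (T.h (P (nat_lit 0)) (T.h (P (nat_lit 4522944407224301738000384)) (T.h (P (nat_lit 0)) (P (nat_lit 4169824286824988672))))) (T.h (P (nat_lit 0)) (T.h (T.h (P (nat_lit 0)) (M (nat_lit 20828737242849607679))) (P (nat_lit 0))))) (T.h (T.h (P (nat_lit 0)) (T.h (T.h (M (nat_lit 393394788669509861375))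 (T.h (P (nat_lit 0)) (M (nat_lit 2885507989110783)))) (T.h (P (nat_lit 0)) (M (nat_lit 6466019186049023))))) (T.h (T.h (T.h (P (nat_lit 0)) (P (nat_lit 4169824286824988672))) (P (nat_lit 0))) (T.h (T.h (P (nat_lit 0)) (M (nat_lit 9592676862263295))) (P (nat_lit 0))))))), (T.h (T.h (P (nat_lit 0)) (T.h (T.h (P (nat_lit 0)) (T.h (P (nat_lit 48523233508140057460998144)) (T.h (P (nat_lit 0)) (P (nat_lit 29539676022814801920))))) (T.h (P (nat_lit 0)) (T.h (T.h (P (nat_lit 0)) (P (nat_lit 29539676022814801920))) (P (nat_lit 0)))))) (T.h (T.h (T.h (M (nat_lit 54833597080617216735092670463)) (T.h (P (nat_lit 0)) (T.h (M (nat_lit 21629343101892431970303)) (T.h (P (nat_lit 0)) (M (nat_lit 12776891183661055)))))) (T.h (P (nat_lit 0)) (T.h (T.h (M (nat_lit 21629343101892431970303)) (T.h (P (nat_lit 0)) (M (nat_lit 64676323570876415)))) (T.h (P (nat_lit 0)) (M (nat_lit 12776891183661055)))))) (T.h (T.h (P (nat_lit 0)) (T.h (T.h (P (nat_lit 0)) (P (nat_lit 68746395813700173824)))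 (P (nat_lit 0)))) (T.h (T.h (T.h (M (nat_lit 5178232187410620350463)) (T.h (P (nat_lit 0)) (M (nat_lit 10236741140873215)))) (T.h (P (nat_lit 0)) (M (nat_lit 10236741140873215)))) (T.h (P (nat_lit 0)) (P (nat_lit 2525806349647872))))))), (T.h (T.h (P (nat_lit 0)) (T.h (T.h (M (nat_lit 15323652974161629456552165375)) (T.h (P (nat_lit 0)) (T.h (M (nat_lit 133145752350664754724863)) (T.h (P (nat_lit 0)) (P (nat_lit 16085244215427072)))))) (T.h (P (nat_lit 0)) (T.h (T.h (M (nat_lit 7432244864728912887807)) (T.h (P (nat_lit 0)) (P (nat_lit 29997582427947008)))) (P (nat_lit 0)))))) (T.h (T.h (T.h (P (nat_lit 0)) (T.h (P (nat_lit 34896890260477953133510656)) (T.h (P (nat_lit 0)) (M (nat_lit 4843534344947499007))))) (T.h (P (nat_lit 0)) (T.h (T.h (P (nat_lit 0)) (P (nat_lit 31757819259306115072))) (P (nat_lit 0))))) (T.h (T.h (P (nat_lit 0)) (T.h (T.h (P (nat_lit 16417494585337287016448)) (T.h (P (nat_lit 0)) (P (nat_lit 29603302290817024)))) (T.h (P (nat_lit 0))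 (P (nat_lit 9334012262744064))))) (T.h (T.h (T.h (P (nat_lit 0)) (M (nat_lit 20633998151227801599))) (P (nat_lit 0))) (T.h (T.h (P (nat_lit 0)) (P (nat_lit 13110701554270208))) (P (nat_lit 0))))))), (T.h (T.h (P (nat_lit 0)) (T.h (T.h (P (nat_lit 0)) (T.h (M (nat_lit 18380053101843787370463231)) (T.h (P (nat_lit 0)) (M (nat_lit 99410439369893347327))))) (T.h (P (nat_lit 0)) (T.h (T.h (P (nat_lit 0)) (M (nat_lit 23294325925104058367))) (P (nat_lit 0)))))) (T.h (T.h (T.h (P (nat_lit 58574380961083223437918339072)) (T.h (P (nat_lit 0)) (T.h (P (nat_lit 34599514990749855776768)) (T.h (P (nat_lit 0)) (P (nat_lit 6249999989735424)))))) (T.h (P (nat_lit 0)) (T.h (T.h (M (nat_lit 31221050384512760938495)) (T.h (P (nat_lit 0)) (P (nat_lit 64607531855773696)))) (T.h (P (nat_lit 0)) (P (nat_lit 9702446940815360)))))) (T.h (T.h (P (nat_lit 0)) (T.h (T.h (P (nat_lit 0)) (M (nat_lit 32711687646010671103))) (P (nat_lit 0)))) (T.h (T.h (T.h (P (nat_lit 27880110966639568093184))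 (T.h (P (nat_lit 0)) (M (nat_lit 22955203721953279)))) (T.h (P (nat_lit 0)) (P (nat_lit 232382978588672)))) (T.h (P (nat_lit 0)) (P (nat_lit 4960118145810432))))))), (T.h (T.h (P (nat_lit 0)) (T.h (T.h (P (nat_lit 19472614965897669399187292160)) (T.h (P (nat_lit 0)) (P (nat_lit 102025982773308359180288)))) (T.h (P (nat_lit 0)) (M (nat_lit 21163988139213750009855))))) (T.h (T.h (T.h (P (nat_lit 0)) (T.h (M (nat_lit 9533650392968229510184959)) (T.h (P (nat_lit 0)) (M (nat_lit 4261631954979389439))))) (T.h (P (nat_lit 0)) (T.h (T.h (P (nat_lit 0)) (M (nat_lit 21510889844164788223))) (P (nat_lit 0))))) (T.h (T.h (P (nat_lit 0)) (M (nat_lit 455310933304797036543))) (T.h (T.h (T.h (P (nat_lit 0)) (P (nat_lit 18196777769839362048))) (P (nat_lit 0))) (P (nat_lit 0)))))), (P (nat_lit 0))]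
def lQm_10 : List (T ℤ) := [(P (nat_lit 0)), (T.h (T.h (T.h (P (nat_lit 0)) (T.h (P (nat_lit 2442310398557518728414625792)) (T.h (P (nat_lit 0)) (T.h (P (nat_lit 3679752308041006972928)) (T.h (P (nat_lit 0)) (M (nat_lit 11815390019583))))))) (T.h (P (nat_lit 0)) (T.h (T.h (P (nat_lit 0)) (T.h (P (nat_lit 10983023708140231196672)) (T.h (P (nat_lit 0)) (M (nat_lit 1039951104770047))))) (T.h (P (nat_lit 0)) (T.h (T.h (P (nat_lit 0)) (M (nat_lit 664208017784831))) (P (nat_lit 0))))))) (T.h (T.h (P (nat_lit 0)) (T.h (T.h (M (nat_lit 14280217490853106859114495)) (T.h (P (nat_lit 0)) (P (nat_lit 3565072346572128256)))) (T.h (P (nat_lit 0)) (M (nat_lit 5463924327831306239))))) (T.h (T.h (T.h (P (nat_lit 0)) (T.h (M (nat_lit 3047215125714868109311)) (T.h (P (nat_lit 0)) (P (nat_lit 140431119548416))))) (T.h (P (nat_lit 0)) (T.h (T.h (P (nat_lit 0)) (P (nat_lit 3547622079004672))) (P (nat_lit 0))))) (T.h (T.h (P (nat_lit 0)) (P (nat_lit 3431769517741572096))) (T.h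 (T.h (T.h (P (nat_lit 0)) (M (nat_lit 1626567914815487))) (P (nat_lit 0))) (P (nat_lit 0))))))), (T.h (T.h (T.h (M (nat_lit 3143737244969936869129166258175)) (T.h (P (nat_lit 0)) (T.h (P (nat_lit 12155214700718626088943616)) (T.h (P (nat_lit 0)) (M (nat_lit 14689685651503185919)))))) (T.h (P (nat_lit 0)) (T.h (T.h (M (nat_lit 26474240155417147621769215)) (T.h (P (nat_lit 0)) (P (nat_lit 102134599549219504128)))) (T.h (P (nat_lit 0)) (M (nat_lit 21098483973839912959)))))) (T.h (T.h (P (nat_lit 0)) (T.h (T.h (P (nat_lit 0)) (T.h (M (nat_lit 32851468501967855157247)) (T.h (P (nat_lit 0)) (P (nat_lit 16763430138347520))))) (T.h (P (nat_lit 0)) (T.h (T.h (P (nat_lit 0)) (P (nat_lit 13303475283951616))) (P (nat_lit 0)))))) (T.h (T.h (T.h (P (nat_lit 12155214700718626088943616)) (T.h (P (nat_lit 0)) (M (nat_lit 10583644917895004159)))) (T.h (P (nat_lit 0)) (P (nat_lit 102134599549219504128)))) (T.h (T.h (P (nat_lit 0)) (T.h (T.h (P (nat_lit 0)) (P (nat_lit 16763430138347520)))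 (P (nat_lit 0)))) (M (nat_lit 14689685651503185919)))))), (T.h (T.h (T.h (P (nat_lit 0)) (T.h (M (nat_lit 15323652974161629456552165375)) (T.h (P (nat_lit 0)) (M (nat_lit 7432244864728912887807))))) (T.h (P (nat_lit 0)) (T.h (T.h (P (nat_lit 0)) (T.h (M (nat_lit 133145752350664754724863)) (T.h (P (nat_lit 0)) (P (nat_lit 29997582427947008))))) (T.h (P (nat_lit 0)) (T.h (T.h (P (nat_lit 0)) (P (nat_lit 16085244215427072))) (P (nat_lit 0))))))) (T.h (T.h (P (nat_lit 0)) (T.h (T.h (P (nat_lit 34896890260477953133510656)) (T.h (P (nat_lit 0)) (P (nat_lit 31757819259306115072)))) (T.h (P (nat_lit 0)) (M (nat_lit 4843534344947499007))))) (T.h (T.h (T.h (P (nat_lit 0)) (T.h (P (nat_lit 16417494585337287016448)) (T.h (P (nat_lit 0)) (P (nat_lit 9334012262744064))))) (T.h (P (nat_lit 0)) (T.h (T.h (P (nat_lit 0)) (P (nat_lit 29603302290817024))) (P (nat_lit 0))))) (T.h (T.h (P (nat_lit 0)) (M (nat_lit 20633998151227801599))) (T.h (T.h (T.h (P (nat_lit 0)) (P (nat_lit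 13110701554270208))) (P (nat_lit 0))) (P (nat_lit 0))))))), (T.h (T.h (T.h (P (nat_lit 17765556308971075958502567444480)) (T.h (P (nat_lit 0)) (T.h (P (nat_lit 42099295970988032559939584)) (T.h (P (nat_lit 0)) (P (nat_lit 30418881608041889792)))))) (T.h (P (nat_lit 0)) (T.h (T.h (P (nat_lit 42099295970988032559939584)) (T.h (P (nat_lit 0)) (M (nat_lit 278419749500927082495)))) (T.h (P (nat_lit 0)) (P (nat_lit 30418881608041889792)))))) (T.h (T.h (P (nat_lit 0)) (T.h (T.h (P (nat_lit 0)) (T.h (P (nat_lit 90159392084587043618816)) (T.h (P (nat_lit 0)) (M (nat_lit 18406538656612351))))) (T.h (P (nat_lit 0)) (T.h (T.h (P (nat_lit 0)) (M (nat_lit 18406538656612351))) (P (nat_lit 0)))))) (T.h (T.h (T.h (M (nat_lit 64187238630778862282211327)) (T.h (P (nat_lit 0)) (M (nat_lit 19068183177919987711)))) (T.h (P (nat_lit 0)) (M (nat_lit 19068183177919987711)))) (T.h (T.h (P (nat_lit 0)) (T.h (T.h (P (nat_lit 0)) (M (nat_lit 77949370537345023))) (P (nat_lit 0)))) (M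 (nat_lit 6350658493317382143)))))), (T.h (T.h (T.h (P (nat_lit 0)) (T.h (P (nat_lit 6000969113615189185396736000)) (T.h (P (nat_lit 0)) (M (nat_lit 24438338849772933218303))))) (T.h (P (nat_lit 0)) (T.h (T.h (P (nat_lit 0)) (P (nat_lit 111759690933996743557120))) (P (nat_lit 0))))) (T.h (T.h (P (nat_lit 0)) (T.h (T.h (M (nat_lit 6083335303084980110884863)) (T.h (P (nat_lit 0)) (P (nat_lit 4310567372663554048)))) (T.h (P (nat_lit 0)) (M (nat_lit 1415962012927655935))))) (T.h (P (nat_lit 0)) (T.h (T.h (P (nat_lit 0)) (P (nat_lit 8285720689671929856))) (P (nat_lit 0)))))), (P (nat_lit 0)), (P (nat_lit 0))]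
def lQm_11 : List (T ℤ) := [(T.h (T.h (P (nat_lit 0)) (T.h (T.h (P (nat_lit 0)) (T.h (M (nat_lit 7019409435893459079659519)) (T.h (P (nat_lit 0)) (M (nat_lit 14393325072985096191))))) (T.h (P (nat_lit 0)) (T.h (T.h (P (nat_lit 0)) (P (nat_lit 9466224910058651648))) (P (nat_lit 0)))))) (T.h (T.h (T.h (M (nat_lit 18304896387085352232648966143)) (T.h (P (nat_lit 0)) (T.h (P (nat_lit 8117553435009748041728)) (T.h (P (nat_lit 0)) (M (nat_lit 3611440046374911)))))) (T.h (P (nat_lit 0)) (T.h (T.h (P (nat_lit 7520213398898532679680)) (T.h (P (nat_lit 0)) (P (nat_lit 21629963256332288)))) (T.h (P (nat_lit 0)) (P (nat_lit 6019960219729920)))))) (T.h (T.h (P (nat_lit 0)) (T.h (T.h (P (nat_lit 0)) (P (nat_lit 2079363055329738752))) (P (nat_lit 0)))) (T.h (T.h (T.h (P (nat_lit 5654640754338346041344)) (T.h (P (nat_lit 0)) (P (nat_lit 1955038863065088)))) (T.h (P (nat_lit 0)) (P (nat_lit 5111942745948160)))) (T.h (P (nat_lit 0)) (M (nat_lit 2869922849095679))))))), (T.h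 (T.h (P (nat_lit 0)) (T.h (T.h (P (nat_lit 17534095856328093313800339456)) (T.h (P (nat_lit 0)) (T.h (M (nat_lit 30443126340952313036799)) (T.h (P (nat_lit 0)) (P (nat_lit 9729628367814656)))))) (T.h (P (nat_lit 0)) (T.h (T.h (P (nat_lit 8404049344762782679040)) (T.h (P (nat_lit 0)) (P (nat_lit 23785446772441088)))) (T.h (P (nat_lit 0)) (P (nat_lit 1944089406472192))))))) (T.h (T.h (T.h (P (nat_lit 0)) (T.h (P (nat_lit 280063454011845911773184)) (T.h (P (nat_lit 0)) (P (nat_lit 5983461280776716288))))) (T.h (P (nat_lit 0)) (T.h (T.h (P (nat_lit 0)) (P (nat_lit 16042218279384645632))) (P (nat_lit 0))))) (T.h (T.h (P (nat_lit 0)) (T.h (T.h (M (nat_lit 30443126340952313036799)) (T.h (P (nat_lit 0)) (P (nat_lit 15713127575584768)))) (T.h (P (nat_lit 0)) (P (nat_lit 23785446772441088))))) (T.h (T.h (T.h (P (nat_lit 0)) (P (nat_lit 5983461280776716288))) (P (nat_lit 0))) (T.h (T.h (P (nat_lit 0)) (P (nat_lit 9729628367814656))) (P (nat_lit 0))))))), (T.h (T.h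 (P (nat_lit 0)) (T.h (T.h (P (nat_lit 0)) (T.h (M (nat_lit 18380053101843787370463231)) (T.h (P (nat_lit 0)) (M (nat_lit 23294325925104058367))))) (T.h (P (nat_lit 0)) (T.h (T.h (P (nat_lit 0)) (M (nat_lit 99410439369893347327))) (P (nat_lit 0)))))) (T.h (T.h (T.h (P (nat_lit 58574380961083223437918339072)) (T.h (P (nat_lit 0)) (T.h (M (nat_lit 31221050384512760938495)) (T.h (P (nat_lit 0)) (P (nat_lit 9702446940815360)))))) (T.h (P (nat_lit 0)) (T.h (T.h (P (nat_lit 34599514990749855776768)) (T.h (P (nat_lit 0)) (P (nat_lit 64607531855773696)))) (T.h (P (nat_lit 0)) (P (nat_lit 6249999989735424)))))) (T.h (T.h (P (nat_lit 0)) (T.h (T.h (P (nat_lit 0)) (M (nat_lit 32711687646010671103))) (P (nat_lit 0)))) (T.h (T.h (T.h (P (nat_lit 27880110966639568093184)) (T.h (P (nat_lit 0)) (P (nat_lit 232382978588672)))) (T.h (P (nat_lit 0)) (M (nat_lit 22955203721953279)))) (T.h (P (nat_lit 0)) (P (nat_lit 4960118145810432))))))), (T.h (T.h (P (nat_lit 0)) (T.h (T.h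 (P (nat_lit 6000969113615189185396736000)) (T.h (P (nat_lit 0)) (P (nat_lit 111759690933996743557120)))) (T.h (P (nat_lit 0)) (M (nat_lit 24438338849772933218303))))) (T.h (T.h (T.h (P (nat_lit 0)) (T.h (M (nat_lit 6083335303084980110884863)) (T.h (P (nat_lit 0)) (M (nat_lit 1415962012927655935))))) (T.h (P (nat_lit 0)) (T.h (T.h (P (nat_lit 0)) (P (nat_lit 4310567372663554048))) (P (nat_lit 0))))) (T.h (P (nat_lit 0)) (T.h (T.h (T.h (P (nat_lit 0)) (P (nat_lit 8285720689671929856))) (P (nat_lit 0))) (P (nat_lit 0)))))), (P (nat_lit 0)), (P (nat_lit 0)), (T.h (T.h (T.h (P (nat_lit 0)) (T.h (M (nat_lit 3147316493728592057340002303)) (T.h (P (nat_lit 0)) (T.h (M (nat_lit 3125302884072949809151)) (T.h (P (nat_lit 0)) (P (nat_lit 845034740580352))))))) (T.h (P (nat_lit 0)) (T.h (T.h (P (nat_lit 0)) (T.h (M (nat_lit 18857449857395644694527)) (T.h (P (nat_lit 0)) (P (nat_lit 822254790705152))))) (T.h (P (nat_lit 0)) (T.h (T.h (P (nat_lit 0)) (P (nat_lit 2925128420229120)))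 (P (nat_lit 0))))))) (T.h (T.h (P (nat_lit 0)) (T.h (T.h (P (nat_lit 11844556794739376483467264)) (T.h (P (nat_lit 0)) (M (nat_lit 14447188899941842943)))) (T.h (P (nat_lit 0)) (M (nat_lit 2165209077553037311))))) (T.h (T.h (T.h (P (nat_lit 0)) (T.h (M (nat_lit 807578637971415367679)) (T.h (P (nat_lit 0)) (M (nat_lit 652816732782591))))) (T.h (P (nat_lit 0)) (T.h (T.h (P (nat_lit 0)) (M (nat_lit 11975517620469759))) (P (nat_lit 0))))) (T.h (T.h (P (nat_lit 0)) (M (nat_lit 4179479936819527679))) (T.h (T.h (T.h (P (nat_lit 0)) (M (nat_lit 1036859366244351))) (P (nat_lit 0))) (P (nat_lit 0))))))), (T.h (T.h (T.h (P (nat_lit 2640985042259987329960279801856)) (T.h (P (nat_lit 0)) (T.h (M (nat_lit 15832890018593205873803263)) (T.h (P (nat_lit 0)) (P (nat_lit 15687109414433587200)))))) (T.h (P (nat_lit 0)) (T.h (T.h (P (nat_lit 11953613207112808463859712)) (T.h (P (nat_lit 0)) (M (nat_lit 105469962557071556607)))) (T.h (P (nat_lit 0)) (P (nat_lit 4573725690595115008))))))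 (T.h (T.h (P (nat_lit 0)) (T.h (T.h (P (nat_lit 0)) (T.h (M (nat_lit 18792191774930400968703)) (T.h (P (nat_lit 0)) (M (nat_lit 15062716752592895))))) (T.h (P (nat_lit 0)) (T.h (T.h (P (nat_lit 0)) (M (nat_lit 6383262989025279))) (P (nat_lit 0)))))) (T.h (T.h (T.h (M (nat_lit 15832890018593205873803263)) (T.h (P (nat_lit 0)) (M (nat_lit 6659856347367997439)))) (T.h (P (nat_lit 0)) (M (nat_lit 105469962557071556607)))) (T.h (T.h (P (nat_lit 0)) (T.h (T.h (P (nat_lit 0)) (M (nat_lit 15062716752592895))) (P (nat_lit 0)))) (P (nat_lit 15687109414433587200))))))]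
def lQm_12 : List (T ℤ) := [(T.h (T.h (T.h (P (nat_lit 0)) (T.h (P (nat_lit 19472614965897669399187292160)) (T.h (P (nat_lit 0)) (M (nat_lit 21163988139213750009855))))) (T.h (P (nat_lit 0)) (T.h (T.h (P (nat_lit 0)) (P (nat_lit 102025982773308359180288))) (P (nat_lit 0))))) (T.h (T.h (P (nat_lit 0)) (T.h (T.h (M (nat_lit 9533650392968229510184959)) (T.h (P (nat_lit 0)) (M (nat_lit 21510889844164788223)))) (T.h (P (nat_lit 0)) (M (nat_lit 4261631954979389439))))) (T.h (T.h (T.h (P (nat_lit 0)) (M (nat_lit 455310933304797036543))) (P (nat_lit 0))) (T.h (T.h (P (nat_lit 0)) (P (nat_lit 18196777769839362048))) (P (nat_lit 0)))))), (P (nat_lit 0)), (P (nat_lit 0)), (T.h (T.h (P (nat_lit 0)) (T.h (T.h (P (nat_lit 0)) (T.h (P (nat_lit 6699686972814614291546112)) (T.h (P (nat_lit 0)) (P (nat_lit 10572818619601780736))))) (T.h (P (nat_lit 0)) (T.h (T.h (P (nat_lit 0)) (M (nat_lit 16964788036543971327))) (P (nat_lit 0)))))) (T.h (T.h (T.h (P (nat_lit 18797913578495883706412040192))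 (T.h (P (nat_lit 0)) (T.h (P (nat_lit 831348500465235001344)) (T.h (P (nat_lit 0)) (P (nat_lit 4698632093433856)))))) (T.h (P (nat_lit 0)) (T.h (T.h (P (nat_lit 1884468549579203149824)) (T.h (P (nat_lit 0)) (M (nat_lit 7225292625543167)))) (T.h (P (nat_lit 0)) (M (nat_lit 6033506803122175)))))) (T.h (T.h (P (nat_lit 0)) (T.h (T.h (P (nat_lit 0)) (P (nat_lit 6907880395153342464))) (P (nat_lit 0)))) (T.h (T.h (T.h (M (nat_lit 3679868749620923334655)) (T.h (P (nat_lit 0)) (P (nat_lit 799398928056320)))) (T.h (P (nat_lit 0)) (P (nat_lit 561367280779264)))) (T.h (P (nat_lit 0)) (P (nat_lit 1873500404449280))))))), (T.h (T.h (P (nat_lit 0)) (T.h (T.h (M (nat_lit 2613273605147549987961307135)) (T.h (P (nat_lit 0)) (P (nat_lit 36272100889309380345856)))) (T.h (P (nat_lit 0)) (M (nat_lit 2747092652249212518399))))) (T.h (T.h (T.h (P (nat_lit 0)) (T.h (M (nat_lit 817752586518847605964799)) (T.h (P (nat_lit 0)) (M (nat_lit 1364636026177323007))))) (T.h (P (nat_lit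 0)) (T.h (T.h (P (nat_lit 0)) (P (nat_lit 12301045624127619072))) (P (nat_lit 0))))) (T.h (T.h (P (nat_lit 0)) (P (nat_lit 36272100889309380345856))) (T.h (T.h (T.h (P (nat_lit 0)) (M (nat_lit 1364636026177323007))) (P (nat_lit 0))) (P (nat_lit 0)))))), (P (nat_lit 0)), (P (nat_lit 0)), (T.h (T.h (T.h (P (nat_lit 0)) (T.h (P (nat_lit 279908450380878969705594880)) (T.h (P (nat_lit 0)) (M (nat_lit 2829812515106405220351))))) (T.h (P (nat_lit 0)) (T.h (T.h (P (nat_lit 0)) (P (nat_lit 9901917847013963071488))) (P (nat_lit 0))))) (T.h (T.h (P (nat_lit 0)) (T.h (T.h (M (nat_lit 2424682419920877020774399)) (T.h (P (nat_lit 0)) (P (nat_lit 10165924027084832768)))) (T.h (P (nat_lit 0)) (P (nat_lit 6178310966397108224))))) (T.h (T.h (T.h (P (nat_lit 0)) (P (nat_lit 25474099469558480896))) (P (nat_lit 0))) (T.h (T.h (P (nat_lit 0)) (M (nat_lit 287420047758983167))) (P (nat_lit 0))))))]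
def lQm_13 : List (T ℤ) := [(P (nat_lit 0)), (P (nat_lit 0)), (P (nat_lit 0)), (P (nat_lit 0)), (P (nat_lit 0)), (P (nat_lit 0)), (T.h (T.h (T.h (M (nat_lit 231541330990421274629362417663)) (T.h (P (nat_lit 0)) (T.h (M (nat_lit 3569015244786354544967679)) (T.h (P (nat_lit 0)) (P (nat_lit 631264490440097792)))))) (T.h (P (nat_lit 0)) (T.h (T.h (P (nat_lit 0)) (T.h (P (nat_lit 0)) (P (nat_lit 4235541714296635392)))) (P (nat_lit 0))))) (T.h (T.h (P (nat_lit 0)) (T.h (T.h (P (nat_lit 0)) (T.h (M (nat_lit 36647654013845643460607)) (T.h (P (nat_lit 0)) (M (nat_lit 3493448433926143))))) (T.h (P (nat_lit 0)) (T.h (T.h (P (nat_lit 0)) (M (nat_lit 6475149598654463))) (P (nat_lit 0)))))) (T.h (T.h (T.h (M (nat_lit 3569015244786354544967679)) (T.h (P (nat_lit 0)) (M (nat_lit 40000117314756280319)))) (T.h (P (nat_lit 0)) (P (nat_lit 4235541714296635392)))) (T.h (T.h (P (nat_lit 0)) (T.h (T.h (P (nat_lit 0)) (M (nat_lit 3493448433926143))) (P (nat_lit 0)))) (P (nat_lit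 631264490440097792)))))), (T.h (T.h (T.h (P (nat_lit 0)) (T.h (M (nat_lit 28945795319755813979670183935)) (T.h (P (nat_lit 0)) (T.h (M (nat_lit 2383344313908043186175)) (T.h (P (nat_lit 0)) (M (nat_lit 1370138480934911))))))) (T.h (P (nat_lit 0)) (T.h (T.h (P (nat_lit 0)) (T.h (P (nat_lit 9895294323822176501760)) (T.h (P (nat_lit 0)) (M (nat_lit 12779192124375039))))) (T.h (P (nat_lit 0)) (T.h (T.h (P (nat_lit 0)) (P (nat_lit 2847357165699072))) (P (nat_lit 0))))))) (T.h (T.h (P (nat_lit 0)) (T.h (T.h (P (nat_lit 8068535727787160463474688)) (T.h (P (nat_lit 0)) (P (nat_lit 43086864515571122176)))) (T.h (P (nat_lit 0)) (M (nat_lit 7916378194117132287))))) (T.h (T.h (T.h (P (nat_lit 0)) (T.h (P (nat_lit 22221354977772968083456)) (T.h (P (nat_lit 0)) (P (nat_lit 3402348208455680))))) (T.h (P (nat_lit 0)) (T.h (T.h (P (nat_lit 0)) (M (nat_lit 19258408876113919))) (P (nat_lit 0))))) (T.h (T.h (P (nat_lit 0)) (P (nat_lit 6315105086901059584))) (T.h (T.h (T.h (P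 (nat_lit 0)) (P (nat_lit 6912399820259328))) (P (nat_lit 0))) (P (nat_lit 0)))))))]
def lQm_14 : List (T ℤ) := [(T.h (T.h (T.h (P (nat_lit 0)) (T.h (P (nat_lit 0)) (T.h (M (nat_lit 202648603037179402256383)) (T.h (P (nat_lit 0)) (P (nat_lit 3437973054217519104)))))) (T.h (P (nat_lit 0)) (T.h (T.h (P (nat_lit 0)) (T.h (P (nat_lit 0)) (M (nat_lit 23194938038433087487)))) (T.h (P (nat_lit 0)) (P (nat_lit 552709772135104512)))))) (T.h (T.h (P (nat_lit 0)) (T.h (T.h (P (nat_lit 0)) (T.h (P (nat_lit 40872332593621807136768)) (T.h (P (nat_lit 0)) (P (nat_lit 5870480457662464))))) (T.h (P (nat_lit 0)) (T.h (T.h (P (nat_lit 0)) (P (nat_lit 7058222133673984))) (P (nat_lit 0)))))) (T.h (T.h (T.h (P (nat_lit 4182641287607808107216896)) (T.h (P (nat_lit 0)) (P (nat_lit 41114478829740490752)))) (T.h (P (nat_lit 0)) (M (nat_lit 2994911782943850495)))) (T.h (T.h (P (nat_lit 0)) (T.h (T.h (P (nat_lit 0)) (M (nat_lit 2868643210854399))) (P (nat_lit 0)))) (P (nat_lit 6692125328539648000)))))),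 (T.h (T.h (T.h (P (nat_lit 0)) (T.h (P (nat_lit 28844577970459765411969761280)) (T.h (P (nat_lit 0)) (P (nat_lit 4503094450705800364032))))) (T.h (P (nat_lit 0)) (T.h (T.h (P (nat_lit 0)) (T.h (P (nat_lit 11022453529369638862848)) (T.h (P (nat_lit 0)) (M (nat_lit 984868572889087))))) (T.h (P (nat_lit 0)) (T.h (T.h (P (nat_lit 0)) (M (nat_lit 2527009741733887))) (P (nat_lit 0))))))) (T.h (T.h (P (nat_lit 0)) (T.h (T.h (M (nat_lit 11966167736419842051276799)) (T.h (P (nat_lit 0)) (M (nat_lit 27081893713398464511)))) (T.h (P (nat_lit 0)) (P (nat_lit 1048887899719729152))))) (T.h (T.h (T.h (P (nat_lit 0)) (T.h (M (nat_lit 32373734643647391989759)) (T.h (P (nat_lit 0)) (M (nat_lit 206375840382975))))) (P (nat_lit 0))) (T.h (T.h (P (nat_lit 0)) (P (nat_lit 2052704746300506112))) (T.h (T.h (T.h (P (nat_lit 0)) (M (nat_lit 4531447495655423))) (P (nat_lit 0))) (P (nat_lit 0))))))), (T.h (T.h (T.h (M (nat_lit 14562162258249013777924918083583)) (T.h (P (nat_lit 0))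 (T.h (M (nat_lit 5400635009370655693996031)) (T.h (P (nat_lit 0)) (P (nat_lit 1544577741599277056)))))) (T.h (P (nat_lit 0)) (T.h (T.h (M (nat_lit 472108168470894989017087)) (T.h (P (nat_lit 0)) (P (nat_lit 2606053976117870592)))) (T.h (P (nat_lit 0)) (M (nat_lit 555935322035191807)))))) (T.h (T.h (P (nat_lit 0)) (T.h (T.h (P (nat_lit 0)) (P (nat_lit 14866527205867955159040))) (P (nat_lit 0)))) (T.h (T.h (T.h (P (nat_lit 1586501907438543587770368)) (T.h (P (nat_lit 0)) (M (nat_lit 272633426224349183)))) (T.h (P (nat_lit 0)) (M (nat_lit 613938376747253759)))) (T.h (P (nat_lit 0)) (M (nat_lit 1238029958807289855)))))), (P (nat_lit 0)), (P (nat_lit 0)), (T.h (T.h (P (nat_lit 0)) (T.h (T.h (P (nat_lit 0)) (T.h (P (nat_lit 4522944407224301738000384)) (T.h (P (nat_lit 0)) (P (nat_lit 4169824286824988672))))) (T.h (P (nat_lit 0)) (T.h (T.h (P (nat_lit 0)) (P (nat_lit 4169824286824988672))) (P (nat_lit 0)))))) (T.h (T.h (T.h (P (nat_lit 0)) (T.h (P (nat_lit 0))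 (T.h (M (nat_lit 393394788669509861375)) (T.h (P (nat_lit 0)) (M (nat_lit 9592676862263295)))))) (T.h (P (nat_lit 0)) (T.h (T.h (M (nat_lit 393394788669509861375)) (T.h (P (nat_lit 0)) (M (nat_lit 2885507989110783)))) (T.h (P (nat_lit 0)) (M (nat_lit 9592676862263295)))))) (T.h (T.h (P (nat_lit 0)) (T.h (T.h (P (nat_lit 0)) (M (nat_lit 20828737242849607679))) (P (nat_lit 0)))) (T.h (T.h (T.h (P (nat_lit 0)) (T.h (P (nat_lit 0)) (M (nat_lit 6466019186049023)))) (T.h (P (nat_lit 0)) (M (nat_lit 6466019186049023)))) (T.h (P (nat_lit 0)) (M (nat_lit 1517611902173183))))))), (T.h (T.h (P (nat_lit 0)) (T.h (T.h (M (nat_lit 54833597080617216735092670463)) (T.h (P (nat_lit 0)) (T.h (M (nat_lit 21629343101892431970303)) (T.h (P (nat_lit 0)) (M (nat_lit 12776891183661055)))))) (T.h (P (nat_lit 0)) (T.h (T.h (M (nat_lit 5178232187410620350463)) (T.h (P (nat_lit 0)) (M (nat_lit 10236741140873215)))) (T.h (P (nat_lit 0)) (P (nat_lit 2525806349647872))))))) (T.h (T.h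 (T.h (P (nat_lit 0)) (T.h (P (nat_lit 48523233508140057460998144)) (T.h (P (nat_lit 0)) (P (nat_lit 29539676022814801920))))) (T.h (P (nat_lit 0)) (T.h (T.h (P (nat_lit 0)) (P (nat_lit 68746395813700173824))) (P (nat_lit 0))))) (T.h (T.h (P (nat_lit 0)) (T.h (T.h (M (nat_lit 21629343101892431970303)) (T.h (P (nat_lit 0)) (M (nat_lit 64676323570876415)))) (T.h (P (nat_lit 0)) (M (nat_lit 10236741140873215))))) (T.h (T.h (T.h (P (nat_lit 0)) (P (nat_lit 29539676022814801920))) (P (nat_lit 0))) (T.h (T.h (P (nat_lit 0)) (M (nat_lit 12776891183661055))) (P (nat_lit 0))))))), (T.h (T.h (P (nat_lit 0)) (T.h (T.h (P (nat_lit 0)) (T.h (P (nat_lit 34896890260477953133510656)) (T.h (P (nat_lit 0)) (M (nat_lit 4843534344947499007))))) (T.h (P (nat_lit 0)) (T.h (T.h (P (nat_lit 0)) (M (nat_lit 20633998151227801599))) (P (nat_lit 0)))))) (T.h (T.h (T.h (M (nat_lit 15323652974161629456552165375)) (T.h (P (nat_lit 0)) (T.h (M (nat_lit 133145752350664754724863)) (T.h (P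 (nat_lit 0)) (P (nat_lit 16085244215427072)))))) (T.h (P (nat_lit 0)) (T.h (T.h (P (nat_lit 16417494585337287016448)) (T.h (P (nat_lit 0)) (P (nat_lit 29603302290817024)))) (T.h (P (nat_lit 0)) (P (nat_lit 13110701554270208)))))) (T.h (T.h (P (nat_lit 0)) (T.h (T.h (P (nat_lit 0)) (P (nat_lit 31757819259306115072))) (P (nat_lit 0)))) (T.h (T.h (T.h (M (nat_lit 7432244864728912887807)) (T.h (P (nat_lit 0)) (P (nat_lit 29997582427947008)))) (T.h (P (nat_lit 0)) (P (nat_lit 9334012262744064)))) (P (nat_lit 0))))))]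
def lQm_15 : List (T ℤ) := [(T.h (T.h (P (nat_lit 0)) (T.h (T.h (P (nat_lit 58574380961083223437918339072)) (T.h (P (nat_lit 0)) (T.h (P (nat_lit 34599514990749855776768)) (T.h (P (nat_lit 0)) (P (nat_lit 6249999989735424)))))) (T.h (P (nat_lit 0)) (T.h (T.h (P (nat_lit 27880110966639568093184)) (T.h (P (nat_lit 0)) (M (nat_lit 22955203721953279)))) (T.h (P (nat_lit 0)) (P (nat_lit 4960118145810432))))))) (T.h (T.h (T.h (P (nat_lit 0)) (T.h (M (nat_lit 18380053101843787370463231)) (T.h (P (nat_lit 0)) (M (nat_lit 99410439369893347327))))) (T.h (P (nat_lit 0)) (T.h (T.h (P (nat_lit 0)) (M (nat_lit 32711687646010671103))) (P (nat_lit 0))))) (T.h (T.h (P (nat_lit 0)) (T.h (T.h (M (nat_lit 31221050384512760938495)) (T.h (P (nat_lit 0)) (P (nat_lit 64607531855773696)))) (T.h (P (nat_lit 0)) (P (nat_lit 232382978588672))))) (T.h (T.h (T.h (P (nat_lit 0)) (M (nat_lit 23294325925104058367))) (P (nat_lit 0))) (T.h (T.h (P (nat_lit 0)) (P (nat_lit 9702446940815360)))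 (P (nat_lit 0))))))), (T.h (T.h (P (nat_lit 0)) (T.h (T.h (P (nat_lit 0)) (T.h (M (nat_lit 9533650392968229510184959)) (T.h (P (nat_lit 0)) (M (nat_lit 4261631954979389439))))) (T.h (P (nat_lit 0)) (T.h (T.h (P (nat_lit 0)) (P (nat_lit 18196777769839362048))) (P (nat_lit 0)))))) (T.h (T.h (T.h (P (nat_lit 19472614965897669399187292160)) (T.h (P (nat_lit 0)) (P (nat_lit 102025982773308359180288)))) (T.h (P (nat_lit 0)) (M (nat_lit 455310933304797036543)))) (T.h (T.h (P (nat_lit 0)) (T.h (T.h (P (nat_lit 0)) (M (nat_lit 21510889844164788223))) (P (nat_lit 0)))) (M (nat_lit 21163988139213750009855))))), (P (nat_lit 0)), (P (nat_lit 0)), (T.h (T.h (M (nat_lit 231541330990421274629362417663)) (T.h (P (nat_lit 0)) (T.h (T.h (M (nat_lit 3569015244786354544967679)) (T.h (P (nat_lit 0)) (P (nat_lit 4235541714296635392)))) (T.h (P (nat_lit 0)) (P (nat_lit 631264490440097792)))))) (T.h (T.h (P (nat_lit 0)) (T.h (T.h (P (nat_lit 0)) (T.h (M (nat_lit 36647654013845643460607))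 (T.h (P (nat_lit 0)) (M (nat_lit 6475149598654463))))) (T.h (P (nat_lit 0)) (T.h (T.h (P (nat_lit 0)) (M (nat_lit 3493448433926143))) (P (nat_lit 0)))))) (T.h (T.h (T.h (M (nat_lit 3569015244786354544967679)) (T.h (P (nat_lit 0)) (P (nat_lit 4235541714296635392)))) (T.h (P (nat_lit 0)) (M (nat_lit 40000117314756280319)))) (T.h (T.h (P (nat_lit 0)) (T.h (T.h (P (nat_lit 0)) (M (nat_lit 3493448433926143))) (P (nat_lit 0)))) (P (nat_lit 631264490440097792)))))), (T.h (T.h (T.h (P (nat_lit 0)) (T.h (M (nat_lit 54833597080617216735092670463)) (T.h (P (nat_lit 0)) (T.h (M (nat_lit 5178232187410620350463)) (T.h (P (nat_lit 0)) (P (nat_lit 2525806349647872))))))) (T.h (P (nat_lit 0)) (T.h (T.h (P (nat_lit 0)) (T.h (M (nat_lit 21629343101892431970303)) (T.h (P (nat_lit 0)) (M (nat_lit 10236741140873215))))) (T.h (P (nat_lit 0)) (T.h (T.h (P (nat_lit 0)) (M (nat_lit 12776891183661055))) (P (nat_lit 0))))))) (T.h (T.h (P (nat_lit 0)) (T.h (T.h (P (nat_lit 48523233508140057460998144))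 (T.h (P (nat_lit 0)) (P (nat_lit 68746395813700173824)))) (T.h (P (nat_lit 0)) (P (nat_lit 29539676022814801920))))) (T.h (T.h (T.h (P (nat_lit 0)) (T.h (M (nat_lit 21629343101892431970303)) (T.h (P (nat_lit 0)) (M (nat_lit 10236741140873215))))) (T.h (P (nat_lit 0)) (T.h (T.h (P (nat_lit 0)) (M (nat_lit 64676323570876415))) (P (nat_lit 0))))) (T.h (T.h (P (nat_lit 0)) (P (nat_lit 29539676022814801920))) (T.h (T.h (T.h (P (nat_lit 0)) (M (nat_lit 12776891183661055))) (P (nat_lit 0))) (P (nat_lit 0))))))), (T.h (T.h (T.h (P (nat_lit 4862367950798846767216610770944)) (T.h (P (nat_lit 0)) (T.h (P (nat_lit 43685808395457605964660736)) (T.h (P (nat_lit 0)) (P (nat_lit 23982696426205347840)))))) (T.h (P (nat_lit 0)) (T.h (T.h (P (nat_lit 43685808395457605964660736)) (T.h (P (nat_lit 0)) (P (nat_lit 22981368573302145024)))) (T.h (P (nat_lit 0)) (P (nat_lit 23982696426205347840)))))) (T.h (T.h (P (nat_lit 0)) (T.h (T.h (P (nat_lit 0)) (T.h (M (nat_lit 141641050016982597894143))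 (T.h (P (nat_lit 0)) (P (nat_lit 59011442519572480))))) (T.h (P (nat_lit 0)) (T.h (T.h (P (nat_lit 0)) (P (nat_lit 59011442519572480))) (P (nat_lit 0)))))) (T.h (T.h (T.h (P (nat_lit 43685808395457605964660736)) (T.h (P (nat_lit 0)) (P (nat_lit 22981368573302145024)))) (T.h (P (nat_lit 0)) (P (nat_lit 22981368573302145024)))) (T.h (T.h (P (nat_lit 0)) (T.h (T.h (P (nat_lit 0)) (P (nat_lit 59011442519572480))) (P (nat_lit 0)))) (P (nat_lit 23982696426205347840)))))), (T.h (T.h (T.h (P (nat_lit 0)) (T.h (P (nat_lit 18526433989661232805271568384)) (T.h (P (nat_lit 0)) (T.h (P (nat_lit 30733479734969039323136)) (T.h (P (nat_lit 0)) (P (nat_lit 12727480890163200))))))) (T.h (P (nat_lit 0)) (T.h (T.h (P (nat_lit 0)) (T.h (P (nat_lit 5089872491259180875776)) (T.h (P (nat_lit 0)) (P (nat_lit 18660875513102336))))) (T.h (P (nat_lit 0)) (T.h (T.h (P (nat_lit 0)) (M (nat_lit 1145852948905983))) (P (nat_lit 0))))))) (T.h (T.h (P (nat_lit 0)) (T.h (T.h (P (nat_lit 22252484142401206406348800))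 (T.h (P (nat_lit 0)) (M (nat_lit 340294424677025054719)))) (T.h (P (nat_lit 0)) (P (nat_lit 3952518686148919296))))) (T.h (T.h (T.h (P (nat_lit 0)) (T.h (P (nat_lit 5089872491259180875776)) (T.h (P (nat_lit 0)) (P (nat_lit 18660875513102336))))) (T.h (P (nat_lit 0)) (T.h (T.h (P (nat_lit 0)) (P (nat_lit 109262232649465856))) (P (nat_lit 0))))) (T.h (T.h (P (nat_lit 0)) (P (nat_lit 3952518686148919296))) (T.h (T.h (T.h (P (nat_lit 0)) (M (nat_lit 1145852948905983))) (P (nat_lit 0))) (P (nat_lit 0)))))))]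
def lQm_16 : List (T ℤ) := [(T.h (T.h (T.h (M (nat_lit 45547003984978852827402050994175)) (T.h (P (nat_lit 0)) (T.h (M (nat_lit 35319305880671328002899967)) (T.h (P (nat_lit 0)) (M (nat_lit 19491175534153433087)))))) (T.h (P (nat_lit 0)) (T.h (T.h (M (nat_lit 11990256178027355455881215)) (T.h (P (nat_lit 0)) (M (nat_lit 13241484090680541183)))) (T.h (P (nat_lit 0)) (M (nat_lit 8539439288566153215)))))) (T.h (T.h (P (nat_lit 0)) (T.h (T.h (P (nat_lit 0)) (P (nat_lit 129973717396666441531392))) (P (nat_lit 0)))) (T.h (T.h (T.h (M (nat_lit 11990256178027355455881215)) (T.h (P (nat_lit 0)) (M (nat_lit 13241484090680541183)))) (T.h (P (nat_lit 0)) (M (nat_lit 28328071813375459327)))) (T.h (P (nat_lit 0)) (M (nat_lit 8539439288566153215)))))), (P (nat_lit 0)), (P (nat_lit 0)), (T.h (T.h (P (nat_lit 0)) (T.h (T.h (M (nat_lit 28945795319755813979670183935)) (T.h (P (nat_lit 0)) (T.h (P (nat_lit 9895294323822176501760)) (T.h (P (nat_lit 0)) (P (nat_lit 2847357165699072))))))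 (T.h (P (nat_lit 0)) (T.h (T.h (M (nat_lit 2383344313908043186175)) (T.h (P (nat_lit 0)) (M (nat_lit 12779192124375039)))) (T.h (P (nat_lit 0)) (M (nat_lit 1370138480934911))))))) (T.h (T.h (T.h (P (nat_lit 0)) (T.h (P (nat_lit 8068535727787160463474688)) (T.h (P (nat_lit 0)) (M (nat_lit 7916378194117132287))))) (T.h (P (nat_lit 0)) (T.h (T.h (P (nat_lit 0)) (P (nat_lit 43086864515571122176))) (P (nat_lit 0))))) (T.h (T.h (P (nat_lit 0)) (T.h (T.h (P (nat_lit 22221354977772968083456)) (T.h (P (nat_lit 0)) (M (nat_lit 19258408876113919)))) (T.h (P (nat_lit 0)) (P (nat_lit 3402348208455680))))) (T.h (T.h (T.h (P (nat_lit 0)) (P (nat_lit 6315105086901059584))) (P (nat_lit 0))) (T.h (T.h (P (nat_lit 0)) (P (nat_lit 6912399820259328))) (P (nat_lit 0))))))), (T.h (T.h (P (nat_lit 0)) (T.h (T.h (P (nat_lit 0)) (T.h (P (nat_lit 34896890260477953133510656)) (T.h (P (nat_lit 0)) (M (nat_lit 20633998151227801599))))) (T.h (P (nat_lit 0)) (T.h (T.h (P (nat_lit 0)) (M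 (nat_lit 4843534344947499007))) (P (nat_lit 0)))))) (T.h (T.h (T.h (M (nat_lit 15323652974161629456552165375)) (T.h (P (nat_lit 0)) (T.h (P (nat_lit 16417494585337287016448)) (T.h (P (nat_lit 0)) (P (nat_lit 13110701554270208)))))) (T.h (P (nat_lit 0)) (T.h (T.h (M (nat_lit 133145752350664754724863)) (T.h (P (nat_lit 0)) (P (nat_lit 29603302290817024)))) (T.h (P (nat_lit 0)) (P (nat_lit 16085244215427072)))))) (T.h (T.h (P (nat_lit 0)) (T.h (T.h (P (nat_lit 0)) (P (nat_lit 31757819259306115072))) (P (nat_lit 0)))) (T.h (T.h (T.h (M (nat_lit 7432244864728912887807)) (T.h (P (nat_lit 0)) (P (nat_lit 9334012262744064)))) (T.h (P (nat_lit 0)) (P (nat_lit 29997582427947008)))) (P (nat_lit 0)))))), (T.h (T.h (P (nat_lit 0)) (T.h (T.h (P (nat_lit 18526433989661232805271568384)) (T.h (P (nat_lit 0)) (T.h (P (nat_lit 5089872491259180875776)) (T.h (P (nat_lit 0)) (M (nat_lit 1145852948905983)))))) (T.h (P (nat_lit 0)) (T.h (T.h (P (nat_lit 30733479734969039323136))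 (T.h (P (nat_lit 0)) (P (nat_lit 18660875513102336)))) (T.h (P (nat_lit 0)) (P (nat_lit 12727480890163200))))))) (T.h (T.h (T.h (P (nat_lit 0)) (T.h (P (nat_lit 22252484142401206406348800)) (T.h (P (nat_lit 0)) (P (nat_lit 3952518686148919296))))) (T.h (P (nat_lit 0)) (T.h (T.h (P (nat_lit 0)) (M (nat_lit 340294424677025054719))) (P (nat_lit 0))))) (T.h (T.h (P (nat_lit 0)) (T.h (T.h (P (nat_lit 5089872491259180875776)) (T.h (P (nat_lit 0)) (P (nat_lit 109262232649465856)))) (T.h (P (nat_lit 0)) (P (nat_lit 18660875513102336))))) (T.h (T.h (T.h (P (nat_lit 0)) (P (nat_lit 3952518686148919296))) (P (nat_lit 0))) (T.h (T.h (P (nat_lit 0)) (M (nat_lit 1145852948905983))) (P (nat_lit 0))))))), (T.h (T.h (P (nat_lit 0)) (T.h (T.h (P (nat_lit 0)) (T.h (M (nat_lit 13098764831426538217930751)) (T.h (P (nat_lit 0)) (M (nat_lit 3668940946935906303))))) (T.h (P (nat_lit 0)) (T.h (T.h (P (nat_lit 0)) (M (nat_lit 3668940946935906303))) (P (nat_lit 0)))))) (T.h (T.h (T.h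 (P (nat_lit 21394652370805987842944139264)) (T.h (P (nat_lit 0)) (P (nat_lit 32713518745630160191488)))) (T.h (P (nat_lit 0)) (P (nat_lit 32713518745630160191488)))) (T.h (T.h (P (nat_lit 0)) (T.h (T.h (P (nat_lit 0)) (M (nat_lit 52019409660372058111))) (P (nat_lit 0)))) (M (nat_lit 22868238238723386376191))))), (P (nat_lit 0))]
def lQm_17 : List (T ℤ) := [(P (nat_lit 0)), (T.h (T.h (T.h (P (nat_lit 0)) (T.h (P (nat_lit 0)) (T.h (P (nat_lit 0)) (T.h (P (nat_lit 0)) (P (nat_lit 552709772135104512)))))) (T.h (P (nat_lit 0)) (T.h (T.h (M (nat_lit 202648603037179402256383)) (T.h (P (nat_lit 0)) (M (nat_lit 23194938038433087487)))) (T.h (P (nat_lit 0)) (P (nat_lit 3437973054217519104)))))) (T.h (T.h (P (nat_lit 0)) (T.h (T.h (P (nat_lit 0)) (T.h (P (nat_lit 40872332593621807136768)) (T.h (P (nat_lit 0)) (P (nat_lit 7058222133673984))))) (T.h (P (nat_lit 0)) (T.h (T.h (P (nat_lit 0)) (P (nat_lit 5870480457662464))) (P (nat_lit 0)))))) (T.h (T.h (T.h (P (nat_lit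 4182641287607808107216896)) (T.h (P (nat_lit 0)) (M (nat_lit 2994911782943850495)))) (T.h (P (nat_lit 0)) (P (nat_lit 41114478829740490752)))) (T.h (T.h (P (nat_lit 0)) (T.h (T.h (P (nat_lit 0)) (M (nat_lit 2868643210854399))) (P (nat_lit 0)))) (P (nat_lit 6692125328539648000)))))), (T.h (T.h (T.h (P (nat_lit 0)) (T.h (P (nat_lit 58574380961083223437918339072)) (T.h (P (nat_lit 0)) (T.h (P (nat_lit 27880110966639568093184)) (T.h (P (nat_lit 0)) (P (nat_lit 4960118145810432))))))) (T.h (P (nat_lit 0)) (T.h (T.h (P (nat_lit 0)) (T.h (P (nat_lit 34599514990749855776768)) (T.h (P (nat_lit 0)) (M (nat_lit 22955203721953279))))) (T.h (P (nat_lit 0)) (T.h (T.h (P (nat_lit 0)) (P (nat_lit 6249999989735424))) (P (nat_lit 0))))))) (T.h (T.h (P (nat_lit 0)) (T.h (T.h (M (nat_lit 18380053101843787370463231)) (T.h (P (nat_lit 0)) (M (nat_lit 32711687646010671103)))) (T.h (P (nat_lit 0)) (M (nat_lit 99410439369893347327))))) (T.h (T.h (T.h (P (nat_lit 0)) (T.h (M (nat_lit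 31221050384512760938495)) (T.h (P (nat_lit 0)) (P (nat_lit 232382978588672))))) (T.h (P (nat_lit 0)) (T.h (T.h (P (nat_lit 0)) (P (nat_lit 64607531855773696))) (P (nat_lit 0))))) (T.h (T.h (P (nat_lit 0)) (M (nat_lit 23294325925104058367))) (T.h (T.h (T.h (P (nat_lit 0)) (P (nat_lit 9702446940815360))) (P (nat_lit 0))) (P (nat_lit 0))))))), (T.h (T.h (T.h (M (nat_lit 45547003984978852827402050994175)) (T.h (P (nat_lit 0)) (T.h (M (nat_lit 11990256178027355455881215)) (T.h (P (nat_lit 0)) (M (nat_lit 8539439288566153215)))))) (T.h (P (nat_lit 0)) (T.h (T.h (M (nat_lit 35319305880671328002899967)) (T.h (P (nat_lit 0)) (M (nat_lit 13241484090680541183)))) (T.h (P (nat_lit 0)) (M (nat_lit 19491175534153433087)))))) (T.h (T.h (P (nat_lit 0)) (T.h (T.h (P (nat_lit 0)) (P (nat_lit 129973717396666441531392))) (P (nat_lit 0)))) (T.h (T.h (T.h (M (nat_lit 11990256178027355455881215)) (T.h (P (nat_lit 0)) (M (nat_lit 28328071813375459327)))) (T.h (P (nat_lit 0)) (M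 (nat_lit 13241484090680541183)))) (T.h (P (nat_lit 0)) (M (nat_lit 8539439288566153215)))))), (P (nat_lit 0)), (P (nat_lit 0)), (T.h (T.h (P (nat_lit 0)) (T.h (T.h (P (nat_lit 28844577970459765411969761280)) (T.h (P (nat_lit 0)) (T.h (P (nat_lit 11022453529369638862848)) (T.h (P (nat_lit 0)) (M (nat_lit 2527009741733887)))))) (T.h (P (nat_lit 0)) (T.h (T.h (P (nat_lit 4503094450705800364032)) (T.h (P (nat_lit 0)) (M (nat_lit 984868572889087)))) (P (nat_lit 0)))))) (T.h (T.h (T.h (P (nat_lit 0)) (T.h (M (nat_lit 11966167736419842051276799)) (T.h (P (nat_lit 0)) (P (nat_lit 1048887899719729152))))) (T.h (P (nat_lit 0)) (T.h (T.h (P (nat_lit 0)) (M (nat_lit 27081893713398464511))) (P (nat_lit 0))))) (T.h (T.h (P (nat_lit 0)) (T.h (M (nat_lit 32373734643647391989759)) (T.h (P (nat_lit 0)) (M (nat_lit 206375840382975))))) (T.h (T.h (T.h (P (nat_lit 0)) (P (nat_lit 2052704746300506112))) (P (nat_lit 0))) (T.h (T.h (P (nat_lit 0)) (M (nat_lit 4531447495655423)))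 (P (nat_lit 0))))))), (T.h (T.h (P (nat_lit 0)) (T.h (T.h (P (nat_lit 0)) (T.h (M (nat_lit 9533650392968229510184959)) (T.h (P (nat_lit 0)) (P (nat_lit 18196777769839362048))))) (T.h (P (nat_lit 0)) (T.h (T.h (P (nat_lit 0)) (M (nat_lit 4261631954979389439))) (P (nat_lit 0)))))) (T.h (T.h (T.h (P (nat_lit 19472614965897669399187292160)) (T.h (P (nat_lit 0)) (M (nat_lit 455310933304797036543)))) (T.h (P (nat_lit 0)) (P (nat_lit 102025982773308359180288)))) (T.h (T.h (P (nat_lit 0)) (T.h (T.h (P (nat_lit 0)) (M (nat_lit 21510889844164788223))) (P (nat_lit 0)))) (M (nat_lit 21163988139213750009855)))))]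
def lQm_18 : List (T ℤ) := [(P (nat_lit 0)), (P (nat_lit 0)), (T.h (T.h (T.h (M (nat_lit 14562162258249013777924918083583)) (T.h (P (nat_lit 0)) (T.h (M (nat_lit 472108168470894989017087)) (T.h (P (nat_lit 0)) (M (nat_lit 555935322035191807)))))) (T.h (P (nat_lit 0)) (T.h (T.h (M (nat_lit 5400635009370655693996031)) (T.h (P (nat_lit 0)) (P (nat_lit 2606053976117870592)))) (T.h (P (nat_lit 0)) (P (nat_lit 1544577741599277056)))))) (T.h (T.h (P (nat_lit 0)) (T.h (T.h (P (nat_lit 0)) (P (nat_lit 14866527205867955159040))) (P (nat_lit 0)))) (T.h (T.h (T.h (P (nat_lit 1586501907438543587770368)) (T.h (P (nat_lit 0)) (M (nat_lit 613938376747253759)))) (T.h (P (nat_lit 0)) (M (nat_lit 272633426224349183)))) (T.h (P (nat_lit 0)) (M (nat_lit 1238029958807289855)))))), (P (nat_lit 0)), (P (nat_lit 0)), (P (nat_lit 0)), (P (nat_lit 0)), (P (nat_lit 0))]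
def lQm_19 : List (T ℤ) := [(T.h (T.h (P (nat_lit 0)) (T.h (T.h (P (nat_lit 2442310398557518728414625792)) (T.h (P (nat_lit 0)) (T.h (M (nat_lit 3047215125714868109311)) (T.h (P (nat_lit 0)) (M (nat_lit 1626567914815487)))))) (T.h (P (nat_lit 0)) (T.h (T.h (P (nat_lit 3679752308041006972928)) (T.h (P (nat_lit 0)) (P (nat_lit 140431119548416)))) (T.h (P (nat_lit 0)) (M (nat_lit 11815390019583))))))) (T.h (T.h (T.h (P (nat_lit 0)) (T.h (M (nat_lit 14280217490853106859114495)) (T.h (P (nat_lit 0)) (P (nat_lit 3431769517741572096))))) (T.h (P (nat_lit 0)) (T.h (T.h (P (nat_lit 0)) (P (nat_lit 3565072346572128256))) (P (nat_lit 0))))) (T.h (T.h (P (nat_lit 0)) (T.h (T.h (P (nat_lit 10983023708140231196672)) (T.h (P (nat_lit 0)) (P (nat_lit 3547622079004672)))) (T.h (P (nat_lit 0)) (M (nat_lit 1039951104770047))))) (T.h (T.h (T.h (P (nat_lit 0)) (M (nat_lit 5463924327831306239))) (P (nat_lit 0))) (T.h (T.h (P (nat_lit 0)) (M (nat_lit 664208017784831))) (P (nat_lit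 0))))))), (T.h (T.h (P (nat_lit 0)) (T.h (T.h (P (nat_lit 0)) (T.h (P (nat_lit 8068535727787160463474688)) (T.h (P (nat_lit 0)) (P (nat_lit 6315105086901059584))))) (T.h (P (nat_lit 0)) (T.h (T.h (P (nat_lit 0)) (M (nat_lit 7916378194117132287))) (P (nat_lit 0)))))) (T.h (T.h (T.h (M (nat_lit 28945795319755813979670183935)) (T.h (P (nat_lit 0)) (T.h (P (nat_lit 22221354977772968083456)) (T.h (P (nat_lit 0)) (P (nat_lit 6912399820259328)))))) (T.h (P (nat_lit 0)) (T.h (T.h (P (nat_lit 9895294323822176501760)) (T.h (P (nat_lit 0)) (M (nat_lit 19258408876113919)))) (T.h (P (nat_lit 0)) (P (nat_lit 2847357165699072)))))) (T.h (T.h (P (nat_lit 0)) (T.h (T.h (P (nat_lit 0)) (P (nat_lit 43086864515571122176))) (P (nat_lit 0)))) (T.h (T.h (T.h (M (nat_lit 2383344313908043186175)) (T.h (P (nat_lit 0)) (P (nat_lit 3402348208455680)))) (T.h (P (nat_lit 0)) (M (nat_lit 12779192124375039)))) (T.h (P (nat_lit 0)) (M (nat_lit 1370138480934911))))))), (T.h (T.h (P (nat_lit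 0)) (T.h (T.h (M (nat_lit 2120122278237486535193657343)) (T.h (P (nat_lit 0)) (T.h (P (nat_lit 13584920725667681665024)) (T.h (P (nat_lit 0)) (P (nat_lit 3993105336041472)))))) (T.h (P (nat_lit 0)) (T.h (T.h (P (nat_lit 1352678270254679326720)) (T.h (P (nat_lit 0)) (P (nat_lit 2523038380785664)))) (P (nat_lit 0)))))) (T.h (T.h (T.h (P (nat_lit 0)) (T.h (P (nat_lit 22460120382946506830774272)) (T.h (P (nat_lit 0)) (P (nat_lit 9651679485245784064))))) (T.h (P (nat_lit 0)) (T.h (T.h (P (nat_lit 0)) (M (nat_lit 21126162680394022911))) (P (nat_lit 0))))) (T.h (T.h (P (nat_lit 0)) (T.h (T.h (P (nat_lit 13584920725667681665024)) (T.h (P (nat_lit 0)) (M (nat_lit 786403700375551)))) (T.h (P (nat_lit 0)) (P (nat_lit 2523038380785664))))) (T.h (T.h (T.h (P (nat_lit 0)) (P (nat_lit 9651679485245784064))) (P (nat_lit 0))) (T.h (T.h (P (nat_lit 0)) (P (nat_lit 3993105336041472))) (P (nat_lit 0))))))), (T.h (T.h (P (nat_lit 0)) (T.h (T.h (P (nat_lit 0)) (T.h (M (nat_lit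 33579549897271383517298687)) (T.h (P (nat_lit 0)) (P (nat_lit 8849408785970626560))))) (T.h (P (nat_lit 0)) (T.h (T.h (P (nat_lit 0)) (M (nat_lit 3541372019637485567))) (P (nat_lit 0)))))) (T.h (T.h (T.h (P (nat_lit 37893429309236406925974831104)) (T.h (P (nat_lit 0)) (T.h (M (nat_lit 46722084582422631940095)) (T.h (P (nat_lit 0)) (M (nat_lit 14077589957378047)))))) (T.h (P (nat_lit 0)) (T.h (T.h (M (nat_lit 4104446577559067426815)) (T.h (P (nat_lit 0)) (M (nat_lit 45416800770588671)))) (T.h (P (nat_lit 0)) (P (nat_lit 11279627034034176)))))) (T.h (T.h (P (nat_lit 0)) (T.h (T.h (P (nat_lit 0)) (P (nat_lit 3982024280127832064))) (P (nat_lit 0)))) (T.h (T.h (T.h (M (nat_lit 5387817051542781951999)) (T.h (P (nat_lit 0)) (M (nat_lit 13167663938011135)))) (T.h (P (nat_lit 0)) (M (nat_lit 7436073746825215)))) (T.h (P (nat_lit 0)) (P (nat_lit 1532455800799232))))))), (T.h (T.h (P (nat_lit 0)) (T.h (T.h (P (nat_lit 4996804256147560436517044224)) (T.h (P (nat_lit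 0)) (M (nat_lit 4296544144108300533759)))) (T.h (P (nat_lit 0)) (M (nat_lit 699374331989025882111))))) (T.h (T.h (T.h (P (nat_lit 0)) (T.h (P (nat_lit 7693749846238283348049920)) (T.h (P (nat_lit 0)) (P (nat_lit 14521116546631204864))))) (T.h (P (nat_lit 0)) (T.h (T.h (P (nat_lit 0)) (P (nat_lit 23253401994541400064))) (P (nat_lit 0))))) (T.h (T.h (P (nat_lit 0)) (M (nat_lit 257028261180969320447))) (T.h (T.h (T.h (P (nat_lit 0)) (P (nat_lit 11382046171812855808))) (P (nat_lit 0))) (P (nat_lit 0)))))), (P (nat_lit 0)), (P (nat_lit 0)), (T.h (T.h (T.h (P (nat_lit 0)) (T.h (P (nat_lit 2442310398557518728414625792)) (T.h (P (nat_lit 0)) (T.h (P (nat_lit 3679752308041006972928)) (T.h (P (nat_lit 0)) (M (nat_lit 11815390019583))))))) (T.h (P (nat_lit 0)) (T.h (T.h (P (nat_lit 0)) (T.h (M (nat_lit 3047215125714868109311)) (T.h (P (nat_lit 0)) (P (nat_lit 140431119548416))))) (T.h (P (nat_lit 0)) (T.h (T.h (P (nat_lit 0)) (M (nat_lit 1626567914815487))) (P (nat_lit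 0))))))) (T.h (T.h (P (nat_lit 0)) (T.h (T.h (M (nat_lit 14280217490853106859114495)) (T.h (P (nat_lit 0)) (P (nat_lit 3565072346572128256)))) (T.h (P (nat_lit 0)) (P (nat_lit 3431769517741572096))))) (T.h (T.h (T.h (P (nat_lit 0)) (T.h (P (nat_lit 10983023708140231196672)) (T.h (P (nat_lit 0)) (M (nat_lit 1039951104770047))))) (T.h (P (nat_lit 0)) (T.h (T.h (P (nat_lit 0)) (P (nat_lit 3547622079004672))) (P (nat_lit 0))))) (T.h (T.h (P (nat_lit 0)) (M (nat_lit 5463924327831306239))) (T.h (T.h (T.h (P (nat_lit 0)) (M (nat_lit 664208017784831))) (P (nat_lit 0))) (P (nat_lit 0)))))))]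
def lQm_20 : List (T ℤ) := [(T.h (T.h (T.h (M (nat_lit 3143737244969936869129166258175)) (T.h (P (nat_lit 0)) (T.h (P (nat_lit 12155214700718626088943616)) (T.h (P (nat_lit 0)) (M (nat_lit 14689685651503185919)))))) (T.h (P (nat_lit 0)) (T.h (T.h (P (nat_lit 12155214700718626088943616)) (T.h (P (nat_lit 0)) (M (nat_lit 10583644917895004159)))) (T.h (P (nat_lit 0)) (M (nat_lit 14689685651503185919)))))) (T.h (T.h (P (nat_lit 0)) (T.h (T.h (P (nat_lit 0)) (T.h (M (nat_lit 32851468501967855157247)) (T.h (P (nat_lit 0)) (P (nat_lit 16763430138347520))))) (T.h (P (nat_lit 0)) (T.h (T.h (P (nat_lit 0)) (P (nat_lit 16763430138347520))) (P (nat_lit 0)))))) (T.h (T.h (T.h (M (nat_lit 26474240155417147621769215)) (T.h (P (nat_lit 0)) (P (nat_lit 102134599549219504128)))) (T.h (P (nat_lit 0)) (P (nat_lit 102134599549219504128)))) (T.h (T.h (P (nat_lit 0)) (T.h (T.h (P (nat_lit 0)) (P (nat_lit 13303475283951616))) (P (nat_lit 0)))) (M (nat_lit 21098483973839912959)))))),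 (T.h (T.h (T.h (P (nat_lit 0)) (T.h (M (nat_lit 15323652974161629456552165375)) (T.h (P (nat_lit 0)) (M (nat_lit 7432244864728912887807))))) (T.h (P (nat_lit 0)) (T.h (T.h (P (nat_lit 0)) (T.h (P (nat_lit 16417494585337287016448)) (T.h (P (nat_lit 0)) (P (nat_lit 9334012262744064))))) (T.h (P (nat_lit 0)) (T.h (T.h (P (nat_lit 0)) (P (nat_lit 13110701554270208))) (P (nat_lit 0))))))) (T.h (T.h (P (nat_lit 0)) (T.h (T.h (P (nat_lit 34896890260477953133510656)) (T.h (P (nat_lit 0)) (P (nat_lit 31757819259306115072)))) (T.h (P (nat_lit 0)) (M (nat_lit 20633998151227801599))))) (T.h (T.h (T.h (P (nat_lit 0)) (T.h (M (nat_lit 133145752350664754724863)) (T.h (P (nat_lit 0)) (P (nat_lit 29997582427947008))))) (T.h (P (nat_lit 0)) (T.h (T.h (P (nat_lit 0)) (P (nat_lit 29603302290817024))) (P (nat_lit 0))))) (T.h (T.h (P (nat_lit 0)) (M (nat_lit 4843534344947499007))) (T.h (T.h (T.h (P (nat_lit 0)) (P (nat_lit 16085244215427072))) (P (nat_lit 0))) (P (nat_lit 0))))))),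 (T.h (T.h (T.h (P (nat_lit 17765556308971075958502567444480)) (T.h (P (nat_lit 0)) (T.h (P (nat_lit 42099295970988032559939584)) (T.h (P (nat_lit 0)) (P (nat_lit 30418881608041889792)))))) (T.h (P (nat_lit 0)) (T.h (T.h (M (nat_lit 64187238630778862282211327)) (T.h (P (nat_lit 0)) (M (nat_lit 19068183177919987711)))) (T.h (P (nat_lit 0)) (M (nat_lit 6350658493317382143)))))) (T.h (T.h (P (nat_lit 0)) (T.h (T.h (P (nat_lit 0)) (T.h (P (nat_lit 90159392084587043618816)) (T.h (P (nat_lit 0)) (M (nat_lit 18406538656612351))))) (T.h (P (nat_lit 0)) (T.h (T.h (P (nat_lit 0)) (M (nat_lit 77949370537345023))) (P (nat_lit 0)))))) (T.h (T.h (T.h (P (nat_lit 42099295970988032559939584)) (T.h (P (nat_lit 0)) (M (nat_lit 278419749500927082495)))) (T.h (P (nat_lit 0)) (M (nat_lit 19068183177919987711)))) (T.h (T.h (P (nat_lit 0)) (T.h (T.h (P (nat_lit 0)) (M (nat_lit 18406538656612351))) (P (nat_lit 0)))) (P (nat_lit 30418881608041889792)))))), (T.h (T.h (T.h (P (nat_lit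 0)) (T.h (P (nat_lit 6000969113615189185396736000)) (T.h (P (nat_lit 0)) (M (nat_lit 24438338849772933218303))))) (P (nat_lit 0))) (T.h (T.h (P (nat_lit 0)) (T.h (T.h (M (nat_lit 6083335303084980110884863)) (T.h (P (nat_lit 0)) (P (nat_lit 4310567372663554048)))) (T.h (P (nat_lit 0)) (P (nat_lit 8285720689671929856))))) (T.h (T.h (T.h (P (nat_lit 0)) (P (nat_lit 111759690933996743557120))) (P (nat_lit 0))) (T.h (T.h (P (nat_lit 0)) (M (nat_lit 1415962012927655935))) (P (nat_lit 0)))))), (P (nat_lit 0)), (P (nat_lit 0)), (T.h (T.h (P (nat_lit 0)) (T.h (T.h (P (nat_lit 0)) (T.h (P (nat_lit 8068535727787160463474688)) (T.h (P (nat_lit 0)) (M (nat_lit 7916378194117132287))))) (T.h (P (nat_lit 0)) (T.h (T.h (P (nat_lit 0)) (P (nat_lit 6315105086901059584))) (P (nat_lit 0)))))) (T.h (T.h (T.h (M (nat_lit 28945795319755813979670183935)) (T.h (P (nat_lit 0)) (T.h (P (nat_lit 9895294323822176501760)) (T.h (P (nat_lit 0)) (P (nat_lit 2847357165699072)))))) (T.h (P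 (nat_lit 0)) (T.h (T.h (P (nat_lit 22221354977772968083456)) (T.h (P (nat_lit 0)) (M (nat_lit 19258408876113919)))) (T.h (P (nat_lit 0)) (P (nat_lit 6912399820259328)))))) (T.h (T.h (P (nat_lit 0)) (T.h (T.h (P (nat_lit 0)) (P (nat_lit 43086864515571122176))) (P (nat_lit 0)))) (T.h (T.h (T.h (M (nat_lit 2383344313908043186175)) (T.h (P (nat_lit 0)) (M (nat_lit 12779192124375039)))) (T.h (P (nat_lit 0)) (P (nat_lit 3402348208455680)))) (T.h (P (nat_lit 0)) (M (nat_lit 1370138480934911))))))), (T.h (T.h (P (nat_lit 0)) (T.h (T.h (M (nat_lit 15323652974161629456552165375)) (T.h (P (nat_lit 0)) (T.h (P (nat_lit 16417494585337287016448)) (T.h (P (nat_lit 0)) (P (nat_lit 13110701554270208)))))) (T.h (P (nat_lit 0)) (T.h (T.h (M (nat_lit 7432244864728912887807)) (T.h (P (nat_lit 0)) (P (nat_lit 9334012262744064)))) (P (nat_lit 0)))))) (T.h (T.h (T.h (P (nat_lit 0)) (T.h (P (nat_lit 34896890260477953133510656)) (T.h (P (nat_lit 0)) (M (nat_lit 20633998151227801599)))))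 (T.h (P (nat_lit 0)) (T.h (T.h (P (nat_lit 0)) (P (nat_lit 31757819259306115072))) (P (nat_lit 0))))) (T.h (T.h (P (nat_lit 0)) (T.h (T.h (M (nat_lit 133145752350664754724863)) (T.h (P (nat_lit 0)) (P (nat_lit 29603302290817024)))) (T.h (P (nat_lit 0)) (P (nat_lit 29997582427947008))))) (T.h (T.h (T.h (P (nat_lit 0)) (M (nat_lit 4843534344947499007))) (P (nat_lit 0))) (T.h (T.h (P (nat_lit 0)) (P (nat_lit 16085244215427072))) (P (nat_lit 0)))))))]
def lQm_21 : List (T ℤ) := [(T.h (T.h (P (nat_lit 0)) (T.h (T.h (P (nat_lit 0)) (T.h (P (nat_lit 22252484142401206406348800)) (T.h (P (nat_lit 0)) (P (nat_lit 3952518686148919296))))) (T.h (P (nat_lit 0)) (T.h (T.h (P (nat_lit 0)) (P (nat_lit 3952518686148919296))) (P (nat_lit 0)))))) (T.h (T.h (T.h (P (nat_lit 18526433989661232805271568384)) (T.h (P (nat_lit 0)) (T.h (P (nat_lit 5089872491259180875776)) (T.h (P (nat_lit 0)) (M (nat_lit 1145852948905983)))))) (T.h (P (nat_lit 0)) (T.h (T.h (P (nat_lit 5089872491259180875776))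 (T.h (P (nat_lit 0)) (P (nat_lit 109262232649465856)))) (T.h (P (nat_lit 0)) (M (nat_lit 1145852948905983)))))) (T.h (T.h (P (nat_lit 0)) (T.h (T.h (P (nat_lit 0)) (M (nat_lit 340294424677025054719))) (P (nat_lit 0)))) (T.h (T.h (T.h (P (nat_lit 30733479734969039323136)) (T.h (P (nat_lit 0)) (P (nat_lit 18660875513102336)))) (T.h (P (nat_lit 0)) (P (nat_lit 18660875513102336)))) (T.h (P (nat_lit 0)) (P (nat_lit 12727480890163200))))))), (T.h (T.h (P (nat_lit 0)) (T.h (T.h (P (nat_lit 21394652370805987842944139264)) (T.h (P (nat_lit 0)) (P (nat_lit 32713518745630160191488)))) (T.h (P (nat_lit 0)) (M (nat_lit 22868238238723386376191))))) (T.h (T.h (T.h (P (nat_lit 0)) (T.h (M (nat_lit 13098764831426538217930751)) (T.h (P (nat_lit 0)) (M (nat_lit 3668940946935906303))))) (T.h (P (nat_lit 0)) (T.h (T.h (P (nat_lit 0)) (M (nat_lit 52019409660372058111))) (P (nat_lit 0))))) (T.h (T.h (P (nat_lit 0)) (P (nat_lit 32713518745630160191488))) (T.h (T.h (T.h (P (nat_lit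 0)) (M (nat_lit 3668940946935906303))) (P (nat_lit 0))) (P (nat_lit 0)))))), (P (nat_lit 0)), (P (nat_lit 0)), (T.h (T.h (T.h (P (nat_lit 0)) (T.h (M (nat_lit 2120122278237486535193657343)) (T.h (P (nat_lit 0)) (P (nat_lit 1352678270254679326720))))) (T.h (P (nat_lit 0)) (T.h (T.h (P (nat_lit 0)) (T.h (P (nat_lit 13584920725667681665024)) (T.h (P (nat_lit 0)) (P (nat_lit 2523038380785664))))) (T.h (P (nat_lit 0)) (T.h (T.h (P (nat_lit 0)) (P (nat_lit 3993105336041472))) (P (nat_lit 0))))))) (T.h (T.h (P (nat_lit 0)) (T.h (T.h (P (nat_lit 22460120382946506830774272)) (T.h (P (nat_lit 0)) (M (nat_lit 21126162680394022911)))) (T.h (P (nat_lit 0)) (P (nat_lit 9651679485245784064))))) (T.h (T.h (T.h (P (nat_lit 0)) (T.h (P (nat_lit 13584920725667681665024)) (T.h (P (nat_lit 0)) (P (nat_lit 2523038380785664))))) (T.h (P (nat_lit 0)) (T.h (T.h (P (nat_lit 0)) (M (nat_lit 786403700375551))) (P (nat_lit 0))))) (T.h (T.h (P (nat_lit 0)) (P (nat_lit 9651679485245784064)))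 (T.h (T.h (T.h (P (nat_lit 0)) (P (nat_lit 3993105336041472))) (P (nat_lit 0))) (P (nat_lit 0))))))), (T.h (T.h (T.h (P (nat_lit 17765556308971075958502567444480)) (T.h (P (nat_lit 0)) (T.h (M (nat_lit 64187238630778862282211327)) (T.h (P (nat_lit 0)) (M (nat_lit 6350658493317382143)))))) (T.h (P (nat_lit 0)) (T.h (T.h (P (nat_lit 42099295970988032559939584)) (T.h (P (nat_lit 0)) (M (nat_lit 19068183177919987711)))) (T.h (P (nat_lit 0)) (P (nat_lit 30418881608041889792)))))) (T.h (T.h (P (nat_lit 0)) (T.h (T.h (P (nat_lit 0)) (T.h (P (nat_lit 90159392084587043618816)) (T.h (P (nat_lit 0)) (M (nat_lit 77949370537345023))))) (T.h (P (nat_lit 0)) (T.h (T.h (P (nat_lit 0)) (M (nat_lit 18406538656612351))) (P (nat_lit 0)))))) (T.h (T.h (T.h (P (nat_lit 42099295970988032559939584)) (T.h (P (nat_lit 0)) (M (nat_lit 19068183177919987711)))) (T.h (P (nat_lit 0)) (M (nat_lit 278419749500927082495)))) (T.h (T.h (P (nat_lit 0)) (T.h (T.h (P (nat_lit 0)) (M (nat_lit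 18406538656612351))) (P (nat_lit 0)))) (P (nat_lit 30418881608041889792)))))), (T.h (T.h (T.h (P (nat_lit 0)) (T.h (P (nat_lit 21394652370805987842944139264)) (T.h (P (nat_lit 0)) (M (nat_lit 22868238238723386376191))))) (T.h (P (nat_lit 0)) (T.h (T.h (P (nat_lit 0)) (P (nat_lit 32713518745630160191488))) (P (nat_lit 0))))) (T.h (T.h (P (nat_lit 0)) (T.h (T.h (M (nat_lit 13098764831426538217930751)) (T.h (P (nat_lit 0)) (M (nat_lit 52019409660372058111)))) (T.h (P (nat_lit 0)) (M (nat_lit 3668940946935906303))))) (T.h (T.h (T.h (P (nat_lit 0)) (P (nat_lit 32713518745630160191488))) (P (nat_lit 0))) (T.h (T.h (P (nat_lit 0)) (M (nat_lit 3668940946935906303))) (P (nat_lit 0)))))), (P (nat_lit 0))]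
def lQm_22 : List (T ℤ) := [(P (nat_lit 0)), (T.h (T.h (P (nat_lit 0)) (T.h (T.h (P (nat_lit 0)) (T.h (M (nat_lit 33579549897271383517298687)) (T.h (P (nat_lit 0)) (M (nat_lit 3541372019637485567))))) (T.h (P (nat_lit 0)) (T.h (T.h (P (nat_lit 0)) (P (nat_lit 8849408785970626560))) (P (nat_lit 0)))))) (T.h (T.h (T.h (P (nat_lit 37893429309236406925974831104)) (T.h (P (nat_lit 0)) (T.h (M (nat_lit 4104446577559067426815)) (T.h (P (nat_lit 0)) (P (nat_lit 11279627034034176)))))) (T.h (P (nat_lit 0)) (T.h (T.h (M (nat_lit 46722084582422631940095)) (T.h (P (nat_lit 0)) (M (nat_lit 45416800770588671)))) (T.h (P (nat_lit 0)) (M (nat_lit 14077589957378047)))))) (T.h (T.h (P (nat_lit 0)) (T.h (T.h (P (nat_lit 0)) (P (nat_lit 3982024280127832064))) (P (nat_lit 0)))) (T.h (T.h (T.h (M (nat_lit 5387817051542781951999)) (T.h (P (nat_lit 0)) (M (nat_lit 7436073746825215)))) (T.h (P (nat_lit 0)) (M (nat_lit 13167663938011135)))) (T.h (P (nat_lit 0)) (P (nat_lit 1532455800799232))))))),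 (T.h (T.h (P (nat_lit 0)) (T.h (P (nat_lit 6000969113615189185396736000)) (T.h (P (nat_lit 0)) (M (nat_lit 24438338849772933218303))))) (T.h (T.h (T.h (P (nat_lit 0)) (T.h (M (nat_lit 6083335303084980110884863)) (T.h (P (nat_lit 0)) (P (nat_lit 8285720689671929856))))) (T.h (P (nat_lit 0)) (T.h (T.h (P (nat_lit 0)) (P (nat_lit 4310567372663554048))) (P (nat_lit 0))))) (T.h (T.h (P (nat_lit 0)) (P (nat_lit 111759690933996743557120))) (T.h (T.h (T.h (P (nat_lit 0)) (M (nat_lit 1415962012927655935))) (P (nat_lit 0))) (P (nat_lit 0)))))), (P (nat_lit 0)), (P (nat_lit 0)), (T.h (T.h (T.h (P (nat_lit 0)) (T.h (P (nat_lit 4996804256147560436517044224)) (T.h (P (nat_lit 0)) (M (nat_lit 699374331989025882111))))) (T.h (P (nat_lit 0)) (T.h (T.h (P (nat_lit 0)) (M (nat_lit 4296544144108300533759))) (P (nat_lit 0))))) (T.h (T.h (P (nat_lit 0)) (T.h (T.h (P (nat_lit 7693749846238283348049920)) (T.h (P (nat_lit 0)) (P (nat_lit 23253401994541400064)))) (T.h (P (nat_lit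 0)) (P (nat_lit 14521116546631204864))))) (T.h (T.h (T.h (P (nat_lit 0)) (M (nat_lit 257028261180969320447))) (P (nat_lit 0))) (T.h (T.h (P (nat_lit 0)) (P (nat_lit 11382046171812855808))) (P (nat_lit 0)))))), (P (nat_lit 0)), (P (nat_lit 0))]
def lQm_23 : List (T ℤ) := [(P (nat_lit 0)), (P (nat_lit 0)), (P (nat_lit 0)), (T.h (T.h (T.h (M (nat_lit 470961987125908346733519175679)) (T.h (P (nat_lit 0)) (T.h (M (nat_lit 1942057638129030519586815)) (T.h (P (nat_lit 0)) (M (nat_lit 3371299736341446655)))))) (T.h (P (nat_lit 0)) (T.h (T.h (M (nat_lit 1942057638129030519586815)) (T.h (P (nat_lit 0)) (M (nat_lit 556449493575270399)))) (T.h (P (nat_lit 0)) (M (nat_lit 3371299736341446655)))))) (T.h (T.h (P (nat_lit 0)) (T.h (T.h (P (nat_lit 0)) (T.h (P (nat_lit 538075358818507685888)) (T.h (P (nat_lit 0)) (M (nat_lit 598511274688511))))) (T.h (P (nat_lit 0)) (T.h (T.h (P (nat_lit 0)) (M (nat_lit 598511274688511))) (P (nat_lit 0)))))) (T.h (T.h (T.h (P (nat_lit 57899600867765543501824))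 (T.h (P (nat_lit 0)) (P (nat_lit 1192941709491699712)))) (T.h (P (nat_lit 0)) (P (nat_lit 1192941709491699712)))) (T.h (T.h (P (nat_lit 0)) (T.h (T.h (P (nat_lit 0)) (M (nat_lit 1583080657387519))) (P (nat_lit 0)))) (M (nat_lit 846434129254809599)))))), (T.h (T.h (T.h (P (nat_lit 0)) (T.h (M (nat_lit 18304896387085352232648966143)) (T.h (P (nat_lit 0)) (T.h (P (nat_lit 5654640754338346041344)) (T.h (P (nat_lit 0)) (M (nat_lit 2869922849095679))))))) (T.h (P (nat_lit 0)) (T.h (T.h (P (nat_lit 0)) (T.h (P (nat_lit 8117553435009748041728)) (T.h (P (nat_lit 0)) (P (nat_lit 1955038863065088))))) (T.h (P (nat_lit 0)) (T.h (T.h (P (nat_lit 0)) (M (nat_lit 3611440046374911))) (P (nat_lit 0))))))) (T.h (T.h (P (nat_lit 0)) (T.h (T.h (M (nat_lit 7019409435893459079659519)) (T.h (P (nat_lit 0)) (P (nat_lit 2079363055329738752)))) (T.h (P (nat_lit 0)) (M (nat_lit 14393325072985096191))))) (T.h (T.h (T.h (P (nat_lit 0)) (T.h (P (nat_lit 7520213398898532679680)) (T.h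 (P (nat_lit 0)) (P (nat_lit 5111942745948160))))) (T.h (P (nat_lit 0)) (T.h (T.h (P (nat_lit 0)) (P (nat_lit 21629963256332288))) (P (nat_lit 0))))) (T.h (T.h (P (nat_lit 0)) (P (nat_lit 9466224910058651648))) (T.h (T.h (T.h (P (nat_lit 0)) (P (nat_lit 6019960219729920))) (P (nat_lit 0))) (P (nat_lit 0))))))), (T.h (T.h (T.h (P (nat_lit 0)) (T.h (P (nat_lit 0)) (T.h (P (nat_lit 4182641287607808107216896)) (T.h (P (nat_lit 0)) (P (nat_lit 6692125328539648000)))))) (T.h (P (nat_lit 0)) (T.h (T.h (P (nat_lit 0)) (T.h (P (nat_lit 0)) (M (nat_lit 2994911782943850495)))) (T.h (P (nat_lit 0)) (P (nat_lit 552709772135104512)))))) (T.h (T.h (P (nat_lit 0)) (T.h (T.h (P (nat_lit 0)) (T.h (P (nat_lit 40872332593621807136768)) (T.h (P (nat_lit 0)) (M (nat_lit 2868643210854399))))) (T.h (P (nat_lit 0)) (T.h (T.h (P (nat_lit 0)) (P (nat_lit 7058222133673984))) (P (nat_lit 0)))))) (T.h (T.h (T.h (M (nat_lit 202648603037179402256383)) (T.h (P (nat_lit 0)) (P (nat_lit 41114478829740490752))))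 (T.h (P (nat_lit 0)) (M (nat_lit 23194938038433087487)))) (T.h (T.h (P (nat_lit 0)) (T.h (T.h (P (nat_lit 0)) (P (nat_lit 5870480457662464))) (P (nat_lit 0)))) (P (nat_lit 3437973054217519104)))))), (T.h (T.h (T.h (P (nat_lit 0)) (T.h (P (nat_lit 37893429309236406925974831104)) (T.h (P (nat_lit 0)) (T.h (M (nat_lit 5387817051542781951999)) (T.h (P (nat_lit 0)) (P (nat_lit 1532455800799232))))))) (T.h (P (nat_lit 0)) (T.h (T.h (P (nat_lit 0)) (T.h (M (nat_lit 4104446577559067426815)) (T.h (P (nat_lit 0)) (M (nat_lit 7436073746825215))))) (T.h (P (nat_lit 0)) (T.h (T.h (P (nat_lit 0)) (P (nat_lit 11279627034034176))) (P (nat_lit 0))))))) (T.h (T.h (P (nat_lit 0)) (T.h (T.h (M (nat_lit 33579549897271383517298687)) (T.h (P (nat_lit 0)) (P (nat_lit 3982024280127832064)))) (T.h (P (nat_lit 0)) (M (nat_lit 3541372019637485567))))) (T.h (T.h (T.h (P (nat_lit 0)) (T.h (M (nat_lit 46722084582422631940095)) (T.h (P (nat_lit 0)) (M (nat_lit 13167663938011135))))) (T.h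 (P (nat_lit 0)) (T.h (T.h (P (nat_lit 0)) (M (nat_lit 45416800770588671))) (P (nat_lit 0))))) (T.h (T.h (P (nat_lit 0)) (P (nat_lit 8849408785970626560))) (T.h (T.h (T.h (P (nat_lit 0)) (M (nat_lit 14077589957378047))) (P (nat_lit 0))) (P (nat_lit 0))))))), (T.h (T.h (T.h (M (nat_lit 26617841765287406009037398999039)) (T.h (P (nat_lit 0)) (T.h (P (nat_lit 129977362024824844582912)) (T.h (P (nat_lit 0)) (P (nat_lit 1642319604065763328)))))) (T.h (P (nat_lit 0)) (T.h (T.h (P (nat_lit 3714307327027633757093888)) (T.h (P (nat_lit 0)) (P (nat_lit 17337605634832465920)))) (T.h (P (nat_lit 0)) (M (nat_lit 5775169041425498111)))))) (T.h (T.h (P (nat_lit 0)) (T.h (T.h (P (nat_lit 0)) (M (nat_lit 1028113044723877281791))) (P (nat_lit 0)))) (T.h (T.h (T.h (P (nat_lit 129977362024824844582912)) (T.h (P (nat_lit 0)) (P (nat_lit 20225531808785104896)))) (T.h (P (nat_lit 0)) (P (nat_lit 17337605634832465920)))) (T.h (P (nat_lit 0)) (P (nat_lit 1642319604065763328))))))]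
def lQm_24 : List (T ℤ) := [(P (nat_lit 0)), (P (nat_lit 0)), (T.h (T.h (P (nat_lit 0)) (T.h (T.h (M (nat_lit 18304896387085352232648966143)) (T.h (P (nat_lit 0)) (T.h (P (nat_lit 8117553435009748041728)) (T.h (P (nat_lit 0)) (M (nat_lit 3611440046374911)))))) (T.h (P (nat_lit 0)) (T.h (T.h (P (nat_lit 5654640754338346041344)) (T.h (P (nat_lit 0)) (P (nat_lit 1955038863065088)))) (T.h (P (nat_lit 0)) (M (nat_lit 2869922849095679))))))) (T.h (T.h (T.h (P (nat_lit 0)) (T.h (M (nat_lit 7019409435893459079659519)) (T.h (P (nat_lit 0)) (M (nat_lit 14393325072985096191))))) (T.h (P (nat_lit 0)) (T.h (T.h (P (nat_lit 0)) (P (nat_lit 2079363055329738752))) (P (nat_lit 0))))) (T.h (T.h (P (nat_lit 0)) (T.h (T.h (P (nat_lit 7520213398898532679680)) (T.h (P (nat_lit 0)) (P (nat_lit 21629963256332288)))) (T.h (P (nat_lit 0)) (P (nat_lit 5111942745948160))))) (T.h (T.h (T.h (P (nat_lit 0)) (P (nat_lit 9466224910058651648))) (P (nat_lit 0))) (T.h (T.h (P (nat_lit 0))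 (P (nat_lit 6019960219729920))) (P (nat_lit 0))))))), (T.h (T.h (P (nat_lit 0)) (T.h (T.h (P (nat_lit 0)) (T.h (P (nat_lit 280063454011845911773184)) (T.h (P (nat_lit 0)) (P (nat_lit 5983461280776716288))))) (T.h (P (nat_lit 0)) (T.h (T.h (P (nat_lit 0)) (P (nat_lit 5983461280776716288))) (P (nat_lit 0)))))) (T.h (T.h (T.h (P (nat_lit 17534095856328093313800339456)) (T.h (P (nat_lit 0)) (T.h (M (nat_lit 30443126340952313036799)) (T.h (P (nat_lit 0)) (P (nat_lit 9729628367814656)))))) (T.h (P (nat_lit 0)) (T.h (T.h (M (nat_lit 30443126340952313036799)) (T.h (P (nat_lit 0)) (P (nat_lit 15713127575584768)))) (T.h (P (nat_lit 0)) (P (nat_lit 9729628367814656)))))) (T.h (T.h (P (nat_lit 0)) (T.h (T.h (P (nat_lit 0)) (P (nat_lit 16042218279384645632))) (P (nat_lit 0)))) (T.h (T.h (T.h (P (nat_lit 8404049344762782679040)) (T.h (P (nat_lit 0)) (P (nat_lit 23785446772441088)))) (T.h (P (nat_lit 0)) (P (nat_lit 23785446772441088)))) (T.h (P (nat_lit 0)) (P (nat_lit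 1944089406472192))))))), (T.h (T.h (P (nat_lit 0)) (T.h (T.h (P (nat_lit 58574380961083223437918339072)) (T.h (P (nat_lit 0)) (T.h (M (nat_lit 31221050384512760938495)) (T.h (P (nat_lit 0)) (P (nat_lit 9702446940815360)))))) (T.h (P (nat_lit 0)) (T.h (T.h (P (nat_lit 27880110966639568093184)) (T.h (P (nat_lit 0)) (P (nat_lit 232382978588672)))) (T.h (P (nat_lit 0)) (P (nat_lit 4960118145810432))))))) (T.h (T.h (T.h (P (nat_lit 0)) (T.h (M (nat_lit 18380053101843787370463231)) (T.h (P (nat_lit 0)) (M (nat_lit 23294325925104058367))))) (T.h (P (nat_lit 0)) (T.h (T.h (P (nat_lit 0)) (M (nat_lit 32711687646010671103))) (P (nat_lit 0))))) (T.h (T.h (P (nat_lit 0)) (T.h (T.h (P (nat_lit 34599514990749855776768)) (T.h (P (nat_lit 0)) (P (nat_lit 64607531855773696)))) (T.h (P (nat_lit 0)) (M (nat_lit 22955203721953279))))) (T.h (T.h (T.h (P (nat_lit 0)) (M (nat_lit 99410439369893347327))) (P (nat_lit 0))) (T.h (T.h (P (nat_lit 0)) (P (nat_lit 6249999989735424)))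 (P (nat_lit 0))))))), (T.h (T.h (P (nat_lit 0)) (T.h (T.h (P (nat_lit 0)) (T.h (M (nat_lit 6083335303084980110884863)) (T.h (P (nat_lit 0)) (M (nat_lit 1415962012927655935))))) (T.h (P (nat_lit 0)) (T.h (T.h (P (nat_lit 0)) (P (nat_lit 8285720689671929856))) (P (nat_lit 0)))))) (T.h (T.h (T.h (P (nat_lit 6000969113615189185396736000)) (T.h (P (nat_lit 0)) (P (nat_lit 111759690933996743557120)))) (P (nat_lit 0))) (T.h (T.h (P (nat_lit 0)) (T.h (T.h (P (nat_lit 0)) (P (nat_lit 4310567372663554048))) (P (nat_lit 0)))) (M (nat_lit 24438338849772933218303))))), (P (nat_lit 0)), (P (nat_lit 0))]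
def lQm_25 : List (T ℤ) := [(T.h (T.h (T.h (P (nat_lit 0)) (T.h (P (nat_lit 0)) (T.h (P (nat_lit 0)) (T.h (P (nat_lit 0)) (P (nat_lit 552709772135104512)))))) (T.h (P (nat_lit 0)) (T.h (T.h (P (nat_lit 4182641287607808107216896)) (T.h (P (nat_lit 0)) (M (nat_lit 2994911782943850495)))) (T.h (P (nat_lit 0)) (P (nat_lit 6692125328539648000)))))) (T.h (T.h (P (nat_lit 0)) (T.h (T.h (P (nat_lit 0)) (T.h (P (nat_lit 40872332593621807136768)) (T.h (P (nat_lit 0)) (P (nat_lit 7058222133673984))))) (T.h (P (nat_lit 0)) (T.h (T.h (P (nat_lit 0)) (M (nat_lit 2868643210854399))) (P (nat_lit 0)))))) (T.h (T.h (T.h (M (nat_lit 202648603037179402256383)) (T.h (P (nat_lit 0)) (M (nat_lit 23194938038433087487)))) (T.h (P (nat_lit 0)) (P (nat_lit 41114478829740490752)))) (T.h (T.h (P (nat_lit 0)) (T.h (T.h (P (nat_lit 0)) (P (nat_lit 5870480457662464))) (P (nat_lit 0)))) (P (nat_lit 3437973054217519104)))))), (T.h (T.h (T.h (P (nat_lit 0)) (T.h (P (nat_lit 58574380961083223437918339072))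 (T.h (P (nat_lit 0)) (T.h (P (nat_lit 27880110966639568093184)) (T.h (P (nat_lit 0)) (P (nat_lit 4960118145810432))))))) (T.h (P (nat_lit 0)) (T.h (T.h (P (nat_lit 0)) (T.h (M (nat_lit 31221050384512760938495)) (T.h (P (nat_lit 0)) (P (nat_lit 232382978588672))))) (T.h (P (nat_lit 0)) (T.h (T.h (P (nat_lit 0)) (P (nat_lit 9702446940815360))) (P (nat_lit 0))))))) (T.h (T.h (P (nat_lit 0)) (T.h (T.h (M (nat_lit 18380053101843787370463231)) (T.h (P (nat_lit 0)) (M (nat_lit 32711687646010671103)))) (T.h (P (nat_lit 0)) (M (nat_lit 23294325925104058367))))) (T.h (T.h (T.h (P (nat_lit 0)) (T.h (P (nat_lit 34599514990749855776768)) (T.h (P (nat_lit 0)) (M (nat_lit 22955203721953279))))) (T.h (P (nat_lit 0)) (T.h (T.h (P (nat_lit 0)) (P (nat_lit 64607531855773696))) (P (nat_lit 0))))) (T.h (T.h (P (nat_lit 0)) (M (nat_lit 99410439369893347327))) (T.h (T.h (T.h (P (nat_lit 0)) (P (nat_lit 6249999989735424))) (P (nat_lit 0))) (P (nat_lit 0))))))), (T.h (T.h (T.h (M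 (nat_lit 45547003984978852827402050994175)) (T.h (P (nat_lit 0)) (T.h (M (nat_lit 11990256178027355455881215)) (T.h (P (nat_lit 0)) (M (nat_lit 8539439288566153215)))))) (T.h (P (nat_lit 0)) (T.h (T.h (M (nat_lit 11990256178027355455881215)) (T.h (P (nat_lit 0)) (M (nat_lit 28328071813375459327)))) (T.h (P (nat_lit 0)) (M (nat_lit 8539439288566153215)))))) (T.h (T.h (P (nat_lit 0)) (T.h (T.h (P (nat_lit 0)) (P (nat_lit 129973717396666441531392))) (P (nat_lit 0)))) (T.h (T.h (T.h (M (nat_lit 35319305880671328002899967)) (T.h (P (nat_lit 0)) (M (nat_lit 13241484090680541183)))) (T.h (P (nat_lit 0)) (M (nat_lit 13241484090680541183)))) (T.h (P (nat_lit 0)) (M (nat_lit 19491175534153433087)))))), (P (nat_lit 0)), (P (nat_lit 0)), (T.h (T.h (P (nat_lit 0)) (T.h (T.h (P (nat_lit 37893429309236406925974831104)) (T.h (P (nat_lit 0)) (T.h (M (nat_lit 4104446577559067426815)) (T.h (P (nat_lit 0)) (P (nat_lit 11279627034034176)))))) (T.h (P (nat_lit 0)) (T.h (T.h (M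 (nat_lit 5387817051542781951999)) (T.h (P (nat_lit 0)) (M (nat_lit 7436073746825215)))) (T.h (P (nat_lit 0)) (P (nat_lit 1532455800799232))))))) (T.h (T.h (T.h (P (nat_lit 0)) (T.h (M (nat_lit 33579549897271383517298687)) (T.h (P (nat_lit 0)) (M (nat_lit 3541372019637485567))))) (T.h (P (nat_lit 0)) (T.h (T.h (P (nat_lit 0)) (P (nat_lit 3982024280127832064))) (P (nat_lit 0))))) (T.h (T.h (P (nat_lit 0)) (T.h (T.h (M (nat_lit 46722084582422631940095)) (T.h (P (nat_lit 0)) (M (nat_lit 45416800770588671)))) (T.h (P (nat_lit 0)) (M (nat_lit 13167663938011135))))) (T.h (T.h (T.h (P (nat_lit 0)) (P (nat_lit 8849408785970626560))) (P (nat_lit 0))) (T.h (T.h (P (nat_lit 0)) (M (nat_lit 14077589957378047))) (P (nat_lit 0))))))), (T.h (T.h (P (nat_lit 0)) (T.h (T.h (P (nat_lit 0)) (T.h (M (nat_lit 6083335303084980110884863)) (T.h (P (nat_lit 0)) (P (nat_lit 8285720689671929856))))) (T.h (P (nat_lit 0)) (T.h (T.h (P (nat_lit 0)) (M (nat_lit 1415962012927655935))) (P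 (nat_lit 0)))))) (T.h (T.h (P (nat_lit 6000969113615189185396736000)) (T.h (P (nat_lit 0)) (P (nat_lit 111759690933996743557120)))) (T.h (T.h (P (nat_lit 0)) (T.h (T.h (P (nat_lit 0)) (P (nat_lit 4310567372663554048))) (P (nat_lit 0)))) (M (nat_lit 24438338849772933218303))))), (P (nat_lit 0))]
def lQm_26 : List (T ℤ) := [(P (nat_lit 0)), (T.h (T.h (T.h (M (nat_lit 26617841765287406009037398999039)) (T.h (P (nat_lit 0)) (T.h (P (nat_lit 3714307327027633757093888)) (T.h (P (nat_lit 0)) (M (nat_lit 5775169041425498111)))))) (T.h (P (nat_lit 0)) (T.h (T.h (P (nat_lit 129977362024824844582912)) (T.h (P (nat_lit 0)) (P (nat_lit 17337605634832465920)))) (T.h (P (nat_lit 0)) (P (nat_lit 1642319604065763328)))))) (T.h (T.h (P (nat_lit 0)) (T.h (T.h (P (nat_lit 0)) (M (nat_lit 1028113044723877281791))) (P (nat_lit 0)))) (T.h (T.h (T.h (P (nat_lit 129977362024824844582912)) (T.h (P (nat_lit 0)) (P (nat_lit 17337605634832465920)))) (T.h (P (nat_lit 0)) (P (nat_lit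 20225531808785104896)))) (T.h (P (nat_lit 0)) (P (nat_lit 1642319604065763328)))))), (P (nat_lit 0)), (P (nat_lit 0)), (P (nat_lit 0)), (P (nat_lit 0)), (P (nat_lit 0)), (T.h (T.h (P (nat_lit 0)) (T.h (T.h (P (nat_lit 0)) (T.h (P (nat_lit 836226289139926597369856)) (T.h (P (nat_lit 0)) (M (nat_lit 1936904125291692031))))) (T.h (P (nat_lit 0)) (T.h (T.h (P (nat_lit 0)) (M (nat_lit 1936904125291692031))) (P (nat_lit 0)))))) (T.h (T.h (T.h (M (nat_lit 12556200628884101627117567)) (T.h (P (nat_lit 0)) (T.h (P (nat_lit 206023718593120698368)) (T.h (P (nat_lit 0)) (P (nat_lit 882307154673664)))))) (T.h (P (nat_lit 0)) (T.h (T.h (P (nat_lit 206023718593120698368)) (T.h (P (nat_lit 0)) (P (nat_lit 9472520804892672)))) (T.h (P (nat_lit 0)) (P (nat_lit 882307154673664)))))) (T.h (T.h (P (nat_lit 0)) (T.h (T.h (P (nat_lit 0)) (M (nat_lit 4835318243637854207))) (P (nat_lit 0)))) (T.h (T.h (T.h (P (nat_lit 961368688894572232704)) (T.h (P (nat_lit 0)) (P (nat_lit 3263992765448192))))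 (T.h (P (nat_lit 0)) (P (nat_lit 3263992765448192)))) (T.h (P (nat_lit 0)) (P (nat_lit 520789253947392)))))))]
def lQm_27 : List (T ℤ) := [(T.h (T.h (P (nat_lit 0)) (T.h (T.h (M (nat_lit 3147316493728592057340002303)) (T.h (P (nat_lit 0)) (T.h (M (nat_lit 807578637971415367679)) (T.h (P (nat_lit 0)) (M (nat_lit 1036859366244351)))))) (T.h (P (nat_lit 0)) (T.h (T.h (M (nat_lit 3125302884072949809151)) (T.h (P (nat_lit 0)) (M (nat_lit 652816732782591)))) (T.h (P (nat_lit 0)) (P (nat_lit 845034740580352))))))) (T.h (T.h (T.h (P (nat_lit 0)) (T.h (P (nat_lit 11844556794739376483467264)) (T.h (P (nat_lit 0)) (M (nat_lit 4179479936819527679))))) (T.h (P (nat_lit 0)) (T.h (T.h (P (nat_lit 0)) (M (nat_lit 14447188899941842943))) (P (nat_lit 0))))) (T.h (T.h (P (nat_lit 0)) (T.h (T.h (M (nat_lit 18857449857395644694527)) (T.h (P (nat_lit 0)) (M (nat_lit 11975517620469759)))) (T.h (P (nat_lit 0)) (P (nat_lit 822254790705152))))) (T.h (T.h (T.h (P (nat_lit 0)) (M (nat_lit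 2165209077553037311))) (P (nat_lit 0))) (T.h (T.h (P (nat_lit 0)) (P (nat_lit 2925128420229120))) (P (nat_lit 0))))))), (T.h (T.h (P (nat_lit 0)) (T.h (T.h (P (nat_lit 0)) (T.h (M (nat_lit 11966167736419842051276799)) (T.h (P (nat_lit 0)) (P (nat_lit 2052704746300506112))))) (T.h (P (nat_lit 0)) (T.h (T.h (P (nat_lit 0)) (P (nat_lit 1048887899719729152))) (P (nat_lit 0)))))) (T.h (T.h (T.h (P (nat_lit 28844577970459765411969761280)) (T.h (P (nat_lit 0)) (T.h (M (nat_lit 32373734643647391989759)) (T.h (P (nat_lit 0)) (M (nat_lit 4531447495655423)))))) (T.h (P (nat_lit 0)) (T.h (P (nat_lit 11022453529369638862848)) (T.h (P (nat_lit 0)) (M (nat_lit 2527009741733887)))))) (T.h (T.h (P (nat_lit 0)) (T.h (T.h (P (nat_lit 0)) (M (nat_lit 27081893713398464511))) (P (nat_lit 0)))) (T.h (T.h (T.h (P (nat_lit 4503094450705800364032)) (T.h (P (nat_lit 0)) (M (nat_lit 206375840382975)))) (T.h (P (nat_lit 0)) (M (nat_lit 984868572889087)))) (P (nat_lit 0)))))), (T.h (T.h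 (P (nat_lit 0)) (T.h (T.h (P (nat_lit 4996804256147560436517044224)) (T.h (P (nat_lit 0)) (M (nat_lit 257028261180969320447)))) (T.h (P (nat_lit 0)) (M (nat_lit 699374331989025882111))))) (T.h (T.h (T.h (P (nat_lit 0)) (T.h (P (nat_lit 7693749846238283348049920)) (T.h (P (nat_lit 0)) (P (nat_lit 11382046171812855808))))) (T.h (P (nat_lit 0)) (T.h (T.h (P (nat_lit 0)) (P (nat_lit 23253401994541400064))) (P (nat_lit 0))))) (T.h (T.h (P (nat_lit 0)) (M (nat_lit 4296544144108300533759))) (T.h (T.h (T.h (P (nat_lit 0)) (P (nat_lit 14521116546631204864))) (P (nat_lit 0))) (P (nat_lit 0)))))), (P (nat_lit 0)), (P (nat_lit 0)), (T.h (T.h (T.h (P (nat_lit 0)) (T.h (M (nat_lit 3147316493728592057340002303)) (T.h (P (nat_lit 0)) (T.h (M (nat_lit 3125302884072949809151)) (T.h (P (nat_lit 0)) (P (nat_lit 845034740580352))))))) (T.h (P (nat_lit 0)) (T.h (T.h (P (nat_lit 0)) (T.h (M (nat_lit 807578637971415367679)) (T.h (P (nat_lit 0)) (M (nat_lit 652816732782591)))))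 (T.h (P (nat_lit 0)) (T.h (T.h (P (nat_lit 0)) (M (nat_lit 1036859366244351))) (P (nat_lit 0))))))) (T.h (T.h (P (nat_lit 0)) (T.h (T.h (P (nat_lit 11844556794739376483467264)) (T.h (P (nat_lit 0)) (M (nat_lit 14447188899941842943)))) (T.h (P (nat_lit 0)) (M (nat_lit 4179479936819527679))))) (T.h (T.h (T.h (P (nat_lit 0)) (T.h (M (nat_lit 18857449857395644694527)) (T.h (P (nat_lit 0)) (P (nat_lit 822254790705152))))) (T.h (P (nat_lit 0)) (T.h (T.h (P (nat_lit 0)) (M (nat_lit 11975517620469759))) (P (nat_lit 0))))) (T.h (T.h (P (nat_lit 0)) (M (nat_lit 2165209077553037311))) (T.h (T.h (T.h (P (nat_lit 0)) (P (nat_lit 2925128420229120))) (P (nat_lit 0))) (P (nat_lit 0))))))), (T.h (T.h (T.h (P (nat_lit 2640985042259987329960279801856)) (T.h (P (nat_lit 0)) (T.h (M (nat_lit 15832890018593205873803263)) (T.h (P (nat_lit 0)) (P (nat_lit 15687109414433587200)))))) (T.h (P (nat_lit 0)) (T.h (T.h (M (nat_lit 15832890018593205873803263)) (T.h (P (nat_lit 0)) (M (nat_lit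 6659856347367997439)))) (T.h (P (nat_lit 0)) (P (nat_lit 15687109414433587200)))))) (T.h (T.h (P (nat_lit 0)) (T.h (T.h (P (nat_lit 0)) (T.h (M (nat_lit 18792191774930400968703)) (T.h (P (nat_lit 0)) (M (nat_lit 15062716752592895))))) (T.h (P (nat_lit 0)) (T.h (T.h (P (nat_lit 0)) (M (nat_lit 15062716752592895))) (P (nat_lit 0)))))) (T.h (T.h (T.h (P (nat_lit 11953613207112808463859712)) (T.h (P (nat_lit 0)) (M (nat_lit 105469962557071556607)))) (T.h (P (nat_lit 0)) (M (nat_lit 105469962557071556607)))) (T.h (T.h (P (nat_lit 0)) (T.h (T.h (P (nat_lit 0)) (M (nat_lit 6383262989025279))) (P (nat_lit 0)))) (P (nat_lit 4573725690595115008)))))), (T.h (T.h (T.h (P (nat_lit 0)) (T.h (P (nat_lit 19472614965897669399187292160)) (T.h (P (nat_lit 0)) (M (nat_lit 21163988139213750009855))))) (T.h (P (nat_lit 0)) (T.h (T.h (P (nat_lit 0)) (M (nat_lit 455310933304797036543))) (P (nat_lit 0))))) (T.h (T.h (P (nat_lit 0)) (T.h (T.h (M (nat_lit 9533650392968229510184959))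 (T.h (P (nat_lit 0)) (M (nat_lit 21510889844164788223)))) (T.h (P (nat_lit 0)) (P (nat_lit 18196777769839362048))))) (T.h (T.h (T.h (P (nat_lit 0)) (P (nat_lit 102025982773308359180288))) (P (nat_lit 0))) (T.h (T.h (P (nat_lit 0)) (M (nat_lit 4261631954979389439))) (P (nat_lit 0))))))]
def lQm_28 : List (T ℤ) := [(P (nat_lit 0)), (P (nat_lit 0)), (T.h (T.h (P (nat_lit 0)) (T.h (T.h (P (nat_lit 0)) (T.h (M (nat_lit 11966167736419842051276799)) (T.h (P (nat_lit 0)) (P (nat_lit 1048887899719729152))))) (T.h (P (nat_lit 0)) (T.h (T.h (P (nat_lit 0)) (P (nat_lit 2052704746300506112))) (P (nat_lit 0)))))) (T.h (T.h (T.h (P (nat_lit 28844577970459765411969761280)) (T.h (P (nat_lit 0)) (T.h (P (nat_lit 11022453529369638862848)) (T.h (P (nat_lit 0)) (M (nat_lit 2527009741733887)))))) (T.h (P (nat_lit 0)) (T.h (M (nat_lit 32373734643647391989759)) (T.h (P (nat_lit 0)) (M (nat_lit 4531447495655423)))))) (T.h (T.h (P (nat_lit 0)) (T.h (T.h (P (nat_lit 0)) (M (nat_lit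 27081893713398464511))) (P (nat_lit 0)))) (T.h (T.h (T.h (P (nat_lit 4503094450705800364032)) (T.h (P (nat_lit 0)) (M (nat_lit 984868572889087)))) (T.h (P (nat_lit 0)) (M (nat_lit 206375840382975)))) (P (nat_lit 0)))))), (T.h (T.h (P (nat_lit 0)) (T.h (T.h (P (nat_lit 19472614965897669399187292160)) (T.h (P (nat_lit 0)) (M (nat_lit 455310933304797036543)))) (T.h (P (nat_lit 0)) (M (nat_lit 21163988139213750009855))))) (T.h (T.h (T.h (P (nat_lit 0)) (T.h (M (nat_lit 9533650392968229510184959)) (T.h (P (nat_lit 0)) (P (nat_lit 18196777769839362048))))) (T.h (P (nat_lit 0)) (T.h (T.h (P (nat_lit 0)) (M (nat_lit 21510889844164788223))) (P (nat_lit 0))))) (T.h (T.h (P (nat_lit 0)) (P (nat_lit 102025982773308359180288))) (T.h (T.h (T.h (P (nat_lit 0)) (M (nat_lit 4261631954979389439))) (P (nat_lit 0))) (P (nat_lit 0)))))), (P (nat_lit 0)), (P (nat_lit 0)), (T.h (T.h (T.h (P (nat_lit 0)) (T.h (P (nat_lit 4996804256147560436517044224)) (T.h (P (nat_lit 0)) (M (nat_lit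 699374331989025882111))))) (T.h (P (nat_lit 0)) (T.h (T.h (P (nat_lit 0)) (M (nat_lit 257028261180969320447))) (P (nat_lit 0))))) (T.h (T.h (P (nat_lit 0)) (T.h (T.h (P (nat_lit 7693749846238283348049920)) (T.h (P (nat_lit 0)) (P (nat_lit 23253401994541400064)))) (T.h (P (nat_lit 0)) (P (nat_lit 11382046171812855808))))) (T.h (T.h (T.h (P (nat_lit 0)) (M (nat_lit 4296544144108300533759))) (P (nat_lit 0))) (T.h (T.h (P (nat_lit 0)) (P (nat_lit 14521116546631204864))) (P (nat_lit 0)))))), (P (nat_lit 0))]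
def lQm_29 : List (T ℤ) := [(P (nat_lit 0)), (P (nat_lit 0)), (P (nat_lit 0)), (P (nat_lit 0)), (T.h (T.h (T.h (M (nat_lit 4555771215876288499418849607679)) (T.h (P (nat_lit 0)) (T.h (P (nat_lit 2197890908742290795134976)) (T.h (P (nat_lit 0)) (P (nat_lit 3789748147635355648)))))) (T.h (P (nat_lit 0)) (T.h (T.h (P (nat_lit 2197890908742290795134976)) (T.h (P (nat_lit 0)) (M (nat_lit 2005410347908857855)))) (T.h (P (nat_lit 0)) (P (nat_lit 3789748147635355648)))))) (T.h (T.h (P (nat_lit 0)) (T.h (T.h (P (nat_lit 0)) (M (nat_lit 101896397878233923583))) (P (nat_lit 0)))) (T.h (T.h (T.h (P (nat_lit 1408964967221915887337472)) (T.h (P (nat_lit 0)) (M (nat_lit 1418544840500576255)))) (T.h (P (nat_lit 0)) (M (nat_lit 1418544840500576255)))) (T.h (T.h (P (nat_lit 0)) (T.h (T.h (P (nat_lit 0)) (P (nat_lit 2216312920342528))) (P (nat_lit 0)))) (M (nat_lit 547476731234091007)))))), (T.h (T.h (T.h (P (nat_lit 0)) (T.h (P (nat_lit 18797913578495883706412040192)) (T.h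 (P (nat_lit 0)) (T.h (M (nat_lit 3679868749620923334655)) (T.h (P (nat_lit 0)) (P (nat_lit 1873500404449280))))))) (T.h (P (nat_lit 0)) (T.h (T.h (P (nat_lit 0)) (T.h (P (nat_lit 831348500465235001344)) (T.h (P (nat_lit 0)) (P (nat_lit 799398928056320))))) (T.h (P (nat_lit 0)) (T.h (T.h (P (nat_lit 0)) (P (nat_lit 4698632093433856))) (P (nat_lit 0))))))) (T.h (T.h (P (nat_lit 0)) (T.h (T.h (P (nat_lit 6699686972814614291546112)) (T.h (P (nat_lit 0)) (P (nat_lit 6907880395153342464)))) (T.h (P (nat_lit 0)) (P (nat_lit 10572818619601780736))))) (T.h (T.h (T.h (P (nat_lit 0)) (T.h (P (nat_lit 1884468549579203149824)) (T.h (P (nat_lit 0)) (P (nat_lit 561367280779264))))) (T.h (P (nat_lit 0)) (T.h (T.h (P (nat_lit 0)) (M (nat_lit 7225292625543167))) (P (nat_lit 0))))) (T.h (T.h (P (nat_lit 0)) (M (nat_lit 16964788036543971327))) (T.h (T.h (T.h (P (nat_lit 0)) (M (nat_lit 6033506803122175))) (P (nat_lit 0))) (P (nat_lit 0))))))), (T.h (T.h (T.h (M (nat_lit 14562162258249013777924918083583))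 (T.h (P (nat_lit 0)) (T.h (P (nat_lit 1586501907438543587770368)) (T.h (P (nat_lit 0)) (M (nat_lit 1238029958807289855)))))) (T.h (P (nat_lit 0)) (T.h (T.h (M (nat_lit 472108168470894989017087)) (T.h (P (nat_lit 0)) (M (nat_lit 613938376747253759)))) (T.h (P (nat_lit 0)) (M (nat_lit 555935322035191807)))))) (T.h (T.h (P (nat_lit 0)) (T.h (T.h (P (nat_lit 0)) (P (nat_lit 14866527205867955159040))) (P (nat_lit 0)))) (T.h (T.h (T.h (M (nat_lit 5400635009370655693996031)) (T.h (P (nat_lit 0)) (M (nat_lit 272633426224349183)))) (T.h (P (nat_lit 0)) (P (nat_lit 2606053976117870592)))) (T.h (P (nat_lit 0)) (P (nat_lit 1544577741599277056)))))), (P (nat_lit 0))]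
def lQm_30 : List (T ℤ) := [(P (nat_lit 0)), (T.h (T.h (P (nat_lit 0)) (T.h (T.h (P (nat_lit 18797913578495883706412040192)) (T.h (P (nat_lit 0)) (T.h (P (nat_lit 831348500465235001344)) (T.h (P (nat_lit 0)) (P (nat_lit 4698632093433856)))))) (T.h (P (nat_lit 0)) (T.h (T.h (M (nat_lit 3679868749620923334655)) (T.h (P (nat_lit 0)) (P (nat_lit 799398928056320)))) (T.h (P (nat_lit 0)) (P (nat_lit 1873500404449280))))))) (T.h (T.h (T.h (P (nat_lit 0)) (T.h (P (nat_lit 6699686972814614291546112)) (T.h (P (nat_lit 0)) (P (nat_lit 10572818619601780736))))) (T.h (P (nat_lit 0)) (T.h (T.h (P (nat_lit 0)) (P (nat_lit 6907880395153342464))) (P (nat_lit 0))))) (T.h (T.h (P (nat_lit 0)) (T.h (T.h (P (nat_lit 1884468549579203149824)) (T.h (P (nat_lit 0)) (M (nat_lit 7225292625543167)))) (T.h (P (nat_lit 0)) (P (nat_lit 561367280779264))))) (T.h (T.h (T.h (P (nat_lit 0)) (M (nat_lit 16964788036543971327))) (P (nat_lit 0))) (T.h (T.h (P (nat_lit 0)) (M (nat_lit 6033506803122175)))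 (P (nat_lit 0))))))), (T.h (T.h (P (nat_lit 0)) (T.h (T.h (P (nat_lit 0)) (T.h (M (nat_lit 817752586518847605964799)) (T.h (P (nat_lit 0)) (M (nat_lit 1364636026177323007))))) (T.h (P (nat_lit 0)) (T.h (T.h (P (nat_lit 0)) (M (nat_lit 1364636026177323007))) (P (nat_lit 0)))))) (T.h (T.h (T.h (M (nat_lit 2613273605147549987961307135)) (T.h (P (nat_lit 0)) (P (nat_lit 36272100889309380345856)))) (T.h (P (nat_lit 0)) (P (nat_lit 36272100889309380345856)))) (T.h (T.h (P (nat_lit 0)) (T.h (T.h (P (nat_lit 0)) (P (nat_lit 12301045624127619072))) (P (nat_lit 0)))) (M (nat_lit 2747092652249212518399))))), (P (nat_lit 0)), (P (nat_lit 0)), (T.h (T.h (T.h (M (nat_lit 14562162258249013777924918083583)) (T.h (P (nat_lit 0)) (T.h (M (nat_lit 472108168470894989017087)) (T.h (P (nat_lit 0)) (M (nat_lit 555935322035191807)))))) (T.h (P (nat_lit 0)) (T.h (T.h (P (nat_lit 1586501907438543587770368)) (T.h (P (nat_lit 0)) (M (nat_lit 613938376747253759)))) (T.h (P (nat_lit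 0)) (M (nat_lit 1238029958807289855)))))) (T.h (T.h (P (nat_lit 0)) (T.h (T.h (P (nat_lit 0)) (P (nat_lit 14866527205867955159040))) (P (nat_lit 0)))) (T.h (T.h (T.h (M (nat_lit 5400635009370655693996031)) (T.h (P (nat_lit 0)) (P (nat_lit 2606053976117870592)))) (T.h (P (nat_lit 0)) (M (nat_lit 272633426224349183)))) (T.h (P (nat_lit 0)) (P (nat_lit 1544577741599277056)))))), (P (nat_lit 0)), (P (nat_lit 0))]
def lQm_31 : List (T ℤ) := [(P (nat_lit 0)), (P (nat_lit 0)), (P (nat_lit 0)), (T.h (T.h (P (nat_lit 0)) (T.h (T.h (P (nat_lit 0)) (M (nat_lit 1093392384300308475412479))) (P (nat_lit 0)))) (T.h (T.h (P (nat_lit 0)) (T.h (P (nat_lit 0)) (T.h (T.h (P (nat_lit 0)) (T.h (P (nat_lit 0)) (M (nat_lit 12630027739856895)))) (P (nat_lit 0))))) (T.h (T.h (P (nat_lit 0)) (T.h (T.h (P (nat_lit 0)) (M (nat_lit 1945289511797784575))) (P (nat_lit 0)))) (T.h (M (nat_lit 1386797677371080048639)) (T.h (P (nat_lit 0)) (M (nat_lit 694385671929855))))))), (T.h (T.h (P (nat_lit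 0)) (T.h (T.h (P (nat_lit 279908450380878969705594880)) (T.h (P (nat_lit 0)) (P (nat_lit 25474099469558480896)))) (T.h (P (nat_lit 0)) (M (nat_lit 2829812515106405220351))))) (T.h (T.h (T.h (P (nat_lit 0)) (T.h (M (nat_lit 2424682419920877020774399)) (T.h (P (nat_lit 0)) (M (nat_lit 287420047758983167))))) (T.h (P (nat_lit 0)) (T.h (T.h (P (nat_lit 0)) (P (nat_lit 10165924027084832768))) (P (nat_lit 0))))) (T.h (T.h (P (nat_lit 0)) (P (nat_lit 9901917847013963071488))) (T.h (T.h (T.h (P (nat_lit 0)) (P (nat_lit 6178310966397108224))) (P (nat_lit 0))) (P (nat_lit 0)))))), (P (nat_lit 0)), (P (nat_lit 0)), (T.h (T.h (T.h (P (nat_lit 0)) (T.h (P (nat_lit 279908450380878969705594880)) (T.h (P (nat_lit 0)) (M (nat_lit 2829812515106405220351))))) (T.h (P (nat_lit 0)) (T.h (T.h (P (nat_lit 0)) (P (nat_lit 25474099469558480896))) (P (nat_lit 0))))) (T.h (T.h (P (nat_lit 0)) (T.h (T.h (M (nat_lit 2424682419920877020774399)) (T.h (P (nat_lit 0)) (P (nat_lit 10165924027084832768))))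 (T.h (P (nat_lit 0)) (M (nat_lit 287420047758983167))))) (T.h (T.h (T.h (P (nat_lit 0)) (P (nat_lit 9901917847013963071488))) (P (nat_lit 0))) (T.h (T.h (P (nat_lit 0)) (P (nat_lit 6178310966397108224))) (P (nat_lit 0))))))]
def lQm_32 : List (T ℤ) := [(P (nat_lit 0)), (P (nat_lit 0)), (P (nat_lit 0)), (P (nat_lit 0)), (P (nat_lit 0)), (T.h (T.h (P (nat_lit 0)) (T.h (P (nat_lit 0)) (T.h (T.h (P (nat_lit 0)) (T.h (P (nat_lit 0)) (P (nat_lit 3233287101403365376)))) (P (nat_lit 0))))) (T.h (P (nat_lit 0)) (T.h (P (nat_lit 0)) (T.h (P (nat_lit 0)) (P (nat_lit 888813660070215680)))))), (P (nat_lit 0)), (P (nat_lit 0))]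
def lQm_33 : List (T ℤ) := [(P (nat_lit 0)), (P (nat_lit 0)), (P (nat_lit 0)), (P (nat_lit 0)), (P (nat_lit 0)), (P (nat_lit 0)), (P (nat_lit 0))]

def CQm : List (T ℤ) := lQm_0 ++ (lQm_1 ++ (lQm_2 ++ (lQm_3 ++ (lQm_4 ++ (lQm_5 ++ (lQm_6 ++ (lQm_7 ++ (lQm_8 ++ (lQm_9 ++ (lQm_10 ++ (lQm_11 ++ (lQm_12 ++ (lQm_13 ++ (lQm_14 ++ (lQm_15 ++ (lQm_16 ++ (lQm_17 ++ (lQm_18 ++ (lQm_19 ++ (lQm_20 ++ (lQm_21 ++ (lQm_22 ++ (lQm_23 ++ (lQm_24 ++ (lQm_25 ++ (lQm_26 ++ (lQm_27 ++ (lQm_28 ++ (lQm_29 ++ (lQm_30 ++ (lQm_31 ++ (lQm_32 ++ (lQm_33)))))))))))))))))))))))))))))))))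

/-- norms at radius 1536 -/
def NQm : List ℕ := [(nat_lit 5034231565398356583608483840000), (nat_lit 0), (nat_lit 94111104536634927031048999010304), (nat_lit 211787617567640486707156161134592), (nat_lit 109760872386603750297391666823168), (nat_lit 132354346248350236690236296921088), (nat_lit 22944757197904062714968587370496), (nat_lit 0), (nat_lit 0), (nat_lit 0), (nat_lit 231091795083070456000181868429312), (nat_lit 618458529048272273611841429569536), (nat_lit 387200826076319446894262775447552), (nat_lit 440775304675972956064903719813120), (nat_lit 144957453039664740504518793363456), (nat_lit 0), (nat_lit 0), (nat_lit 0), (nat_lit 541808503216238317317791764447232), (nat_lit 905733403075268342829235480559616), (nat_lit 727624809845088954983554134048768), (nat_lit 484661174977183914511947018534912), (nat_lit 124059401969615875537499448147968), (nat_lit 0), (nat_lit 0), (nat_lit 231091795083070456000181868429312), (nat_lit 905733403075268342829235480559616),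 (nat_lit 502797750673777900012274731450368), (nat_lit 1226641909015175736277500916924416), (nat_lit 318482051959471219009774084423680), (nat_lit 0), (nat_lit 0), (nat_lit 94111104536634927031048999010304), (nat_lit 618458529048272273611841429569536), (nat_lit 727624809845088954983554134048768), (nat_lit 1226641909015175736277500916924416), (nat_lit 395742244383619797459409261559808), (nat_lit 0), (nat_lit 0), (nat_lit 211787617567640486707156161134592), (nat_lit 387200826076319446894262775447552), (nat_lit 484661174977183914511947018534912), (nat_lit 318482051959471219009774084423680), (nat_lit 0), (nat_lit 0), (nat_lit 109760872386603750297391666823168), (nat_lit 440775304675972956064903719813120), (nat_lit 124059401969615875537499448147968), (nat_lit 0), (nat_lit 0), (nat_lit 132354346248350236690236296921088), (nat_lit 144957453039664740504518793363456), (nat_lit 0), (nat_lit 0), (nat_lit 22944757197904062714968587370496), (nat_lit 0), (nat_lit 0), (nat_lit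 0), (nat_lit 0), (nat_lit 0), (nat_lit 231091795083070456000181868429312), (nat_lit 618458529048272273611841429569536), (nat_lit 387200826076319446894262775447552), (nat_lit 440775304675972956064903719813120), (nat_lit 144957453039664740504518793363456), (nat_lit 0), (nat_lit 0), (nat_lit 488124689344007603569875398688768), (nat_lit 2119303988918474068847741825449984), (nat_lit 1158659681460415472350949535645696), (nat_lit 1897111840885948519794913958690816), (nat_lit 362452744372705043325519057125376), (nat_lit 0), (nat_lit 0), (nat_lit 488124689344007603569875398688768), (nat_lit 2053837141000602018084702457430016), (nat_lit 1832389010289657500038510556479488), (nat_lit 2267414455404199492941679234646016), (nat_lit 745223465586490914289884164259840), (nat_lit 0), (nat_lit 0), (nat_lit 231091795083070456000181868429312), (nat_lit 2119303988918474068847741825449984), (nat_lit 1832389010289657500038510556479488), (nat_lit 3811803233099603704507426708389888),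 (nat_lit 595131084266746165283306317283328), (nat_lit 0), (nat_lit 0), (nat_lit 618458529048272273611841429569536), (nat_lit 1158659681460415472350949535645696), (nat_lit 2267414455404199492941679234646016), (nat_lit 595131084266746165283306317283328), (nat_lit 0), (nat_lit 0), (nat_lit 387200826076319446894262775447552), (nat_lit 1897111840885948519794913958690816), (nat_lit 745223465586490914289884164259840), (nat_lit 0), (nat_lit 0), (nat_lit 440775304675972956064903719813120), (nat_lit 362452744372705043325519057125376), (nat_lit 0), (nat_lit 0), (nat_lit 144957453039664740504518793363456), (nat_lit 0), (nat_lit 0), (nat_lit 0), (nat_lit 0), (nat_lit 0), (nat_lit 0), (nat_lit 541808503216238317317791764447232), (nat_lit 905733403075268342829235480559616), (nat_lit 727624809845088954983554134048768), (nat_lit 484661174977183914511947018534912), (nat_lit 124059401969615875537499448147968), (nat_lit 0), (nat_lit 0), (nat_lit 488124689344007603569875398688768),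 (nat_lit 2053837141000602018084702457430016), (nat_lit 1832389010289657500038510556479488), (nat_lit 2267414455404199492941679234646016), (nat_lit 745223465586490914289884164259840), (nat_lit 0), (nat_lit 0), (nat_lit 541808503216238317317791764447232), (nat_lit 2053837141000602018084702457430016), (nat_lit 3125209197925824739268403646169088), (nat_lit 3549071410131532270876190457200640), (nat_lit 1165114346879220067144858320502784), (nat_lit 0), (nat_lit 0), (nat_lit 905733403075268342829235480559616), (nat_lit 1832389010289657500038510556479488), (nat_lit 3549071410131532270876190457200640), (nat_lit 714136577958786384827589354061824), (nat_lit 0), (nat_lit 0), (nat_lit 727624809845088954983554134048768), (nat_lit 2267414455404199492941679234646016), (nat_lit 1165114346879220067144858320502784), (nat_lit 0), (nat_lit 0), (nat_lit 484661174977183914511947018534912), (nat_lit 745223465586490914289884164259840), (nat_lit 0), (nat_lit 0), (nat_lit 124059401969615875537499448147968),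 (nat_lit 0), (nat_lit 0), (nat_lit 0), (nat_lit 0), (nat_lit 0), (nat_lit 231091795083070456000181868429312), (nat_lit 905733403075268342829235480559616), (nat_lit 502797750673777900012274731450368), (nat_lit 1226641909015175736277500916924416), (nat_lit 318482051959471219009774084423680), (nat_lit 0), (nat_lit 0), (nat_lit 231091795083070456000181868429312), (nat_lit 2119303988918474068847741825449984), (nat_lit 1832389010289657500038510556479488), (nat_lit 3811803233099603704507426708389888), (nat_lit 595131084266746165283306317283328), (nat_lit 0), (nat_lit 0), (nat_lit 905733403075268342829235480559616), (nat_lit 1832389010289657500038510556479488), (nat_lit 3549071410131532270876190457200640), (nat_lit 714136577958786384827589354061824), (nat_lit 0), (nat_lit 0), (nat_lit 502797750673777900012274731450368), (nat_lit 3811803233099603704507426708389888), (nat_lit 714136577958786384827589354061824), (nat_lit 0), (nat_lit 0), (nat_lit 1226641909015175736277500916924416),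 (nat_lit 595131084266746165283306317283328), (nat_lit 0), (nat_lit 0), (nat_lit 318482051959471219009774084423680), (nat_lit 0), (nat_lit 0), (nat_lit 0), (nat_lit 0), (nat_lit 0), (nat_lit 94111104536634927031048999010304), (nat_lit 618458529048272273611841429569536), (nat_lit 727624809845088954983554134048768), (nat_lit 1226641909015175736277500916924416), (nat_lit 395742244383619797459409261559808), (nat_lit 0), (nat_lit 0), (nat_lit 618458529048272273611841429569536), (nat_lit 1158659681460415472350949535645696), (nat_lit 2267414455404199492941679234646016), (nat_lit 595131084266746165283306317283328), (nat_lit 0), (nat_lit 0), (nat_lit 727624809845088954983554134048768), (nat_lit 2267414455404199492941679234646016), (nat_lit 1165114346879220067144858320502784), (nat_lit 0), (nat_lit 0), (nat_lit 1226641909015175736277500916924416), (nat_lit 595131084266746165283306317283328), (nat_lit 0), (nat_lit 0), (nat_lit 395742244383619797459409261559808), (nat_lit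 0), (nat_lit 0), (nat_lit 0), (nat_lit 0), (nat_lit 0), (nat_lit 211787617567640486707156161134592), (nat_lit 387200826076319446894262775447552), (nat_lit 484661174977183914511947018534912), (nat_lit 318482051959471219009774084423680), (nat_lit 0), (nat_lit 0), (nat_lit 387200826076319446894262775447552), (nat_lit 1897111840885948519794913958690816), (nat_lit 745223465586490914289884164259840), (nat_lit 0), (nat_lit 0), (nat_lit 484661174977183914511947018534912), (nat_lit 745223465586490914289884164259840), (nat_lit 0), (nat_lit 0), (nat_lit 318482051959471219009774084423680), (nat_lit 0), (nat_lit 0), (nat_lit 0), (nat_lit 0), (nat_lit 0), (nat_lit 109760872386603750297391666823168), (nat_lit 440775304675972956064903719813120), (nat_lit 124059401969615875537499448147968), (nat_lit 0), (nat_lit 0), (nat_lit 440775304675972956064903719813120), (nat_lit 362452744372705043325519057125376), (nat_lit 0), (nat_lit 0), (nat_lit 124059401969615875537499448147968),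 (nat_lit 0), (nat_lit 0), (nat_lit 0), (nat_lit 0), (nat_lit 0), (nat_lit 132354346248350236690236296921088), (nat_lit 144957453039664740504518793363456), (nat_lit 0), (nat_lit 0), (nat_lit 144957453039664740504518793363456), (nat_lit 0), (nat_lit 0), (nat_lit 0), (nat_lit 0), (nat_lit 0), (nat_lit 22944757197904062714968587370496), (nat_lit 0), (nat_lit 0), (nat_lit 0), (nat_lit 0), (nat_lit 0), (nat_lit 0), (nat_lit 0), (nat_lit 0), (nat_lit 0)]


def lP11_0 : List (T ℤ) := [(P (nat_lit 0)), (P (nat_lit 0)), (P (nat_lit 0)), (P (nat_lit 0)), (P (nat_lit 0)), (P (nat_lit 0)), (P (nat_lit 0)), (P (nat_lit 0))]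
def lP11_1 : List (T ℤ) := [(P (nat_lit 0)), (P (nat_lit 0)), (P (nat_lit 0)), (P (nat_lit 0)), (P (nat_lit 0)), (P (nat_lit 0)), (P (nat_lit 0)), (P (nat_lit 0))]
def lP11_2 : List (T ℤ) := [(P (nat_lit 0)), (M (nat_lit 4410501400340933843783516159999)), (P (nat_lit 0)), (P (nat_lit 0)), (T.h (T.h (T.h (M (nat_lit 470961987125908346733519175679)) (T.h (P (nat_lit 0)) (T.h (P (nat_lit 57899600867765543501824)) (T.h (P (nat_lit 0)) (M (nat_lit 846434129254809599)))))) (T.h (P (nat_lit 0)) (T.h (T.h (M (nat_lit 1942057638129030519586815)) (T.h (P (nat_lit 0)) (P (nat_lit 1192941709491699712)))) (T.h (P (nat_lit 0)) (M (nat_lit 3371299736341446655)))))) (T.h (T.h (P (nat_lit 0)) (T.h (T.h (P (nat_lit 0)) (T.h (P (nat_lit 538075358818507685888)) (T.h (P (nat_lit 0)) (M (nat_lit 1583080657387519))))) (T.h (P (nat_lit 0)) (T.h (T.h (P (nat_lit 0)) (M (nat_lit 598511274688511))) (P (nat_lit 0)))))) (T.h (T.h (T.h (M (nat_lit 1942057638129030519586815)) (T.h (P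 (nat_lit 0)) (P (nat_lit 1192941709491699712)))) (T.h (P (nat_lit 0)) (M (nat_lit 556449493575270399)))) (T.h (T.h (P (nat_lit 0)) (T.h (T.h (P (nat_lit 0)) (M (nat_lit 598511274688511))) (P (nat_lit 0)))) (M (nat_lit 3371299736341446655)))))), (T.h (T.h (T.h (P (nat_lit 0)) (T.h (P (nat_lit 0)) (T.h (P (nat_lit 0)) (T.h (P (nat_lit 1386797677371080048640)) (T.h (P (nat_lit 0)) (M (nat_lit 520789253947391))))))) (T.h (P (nat_lit 0)) (T.h (T.h (P (nat_lit 0)) (T.h (M (nat_lit 1277770570003986251775)) (T.h (P (nat_lit 0)) (P (nat_lit 3212398805352448))))) (T.h (P (nat_lit 0)) (T.h (T.h (P (nat_lit 0)) (M (nat_lit 250554719240191))) (P (nat_lit 0))))))) (T.h (T.h (P (nat_lit 0)) (T.h (T.h (M (nat_lit 820044288225231356559359)) (T.h (P (nat_lit 0)) (P (nat_lit 1945289511797784576)))) (T.h (P (nat_lit 0)) (M (nat_lit 1172922028869550079))))) (T.h (T.h (T.h (P (nat_lit 0)) (T.h (P (nat_lit 1277770570003986251776)) (T.h (P (nat_lit 0)) (M (nat_lit 3212398805352447)))))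 (T.h (P (nat_lit 0)) (T.h (T.h (P (nat_lit 0)) (M (nat_lit 9472520804892671))) (P (nat_lit 0))))) (T.h (T.h (P (nat_lit 0)) (P (nat_lit 1172922028869550080))) (T.h (T.h (T.h (P (nat_lit 0)) (P (nat_lit 250554719240192))) (P (nat_lit 0))) (P (nat_lit 0))))))), (T.h (T.h (T.h (P (nat_lit 5874464779828831870272703299584)) (T.h (P (nat_lit 0)) (T.h (M (nat_lit 1408964967221915887337471)) (T.h (P (nat_lit 0)) (P (nat_lit 2917492293147557888)))))) (T.h (P (nat_lit 0)) (T.h (T.h (P (nat_lit 1789014615482866992152576)) (T.h (P (nat_lit 0)) (P (nat_lit 1418544840500576256)))) (T.h (P (nat_lit 0)) (P (nat_lit 2729902727365656576)))))) (T.h (T.h (P (nat_lit 0)) (T.h (T.h (P (nat_lit 0)) (T.h (P (nat_lit 101896397878233923584)) (T.h (P (nat_lit 0)) (P (nat_lit 2216312920342528))))) (P (nat_lit 0)))) (T.h (T.h (T.h (P (nat_lit 1789014615482866992152576)) (T.h (P (nat_lit 0)) (P (nat_lit 1418544840500576256)))) (T.h (P (nat_lit 0)) (P (nat_lit 2005410347908857856))))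 (T.h (P (nat_lit 0)) (P (nat_lit 2729902727365656576)))))), (T.h (T.h (T.h (P (nat_lit 0)) (T.h (P (nat_lit 0)) (T.h (P (nat_lit 0)) (T.h (M (nat_lit 1386797677371080048639)) (T.h (P (nat_lit 0)) (P (nat_lit 520789253947392))))))) (P (nat_lit 0))) (T.h (T.h (P (nat_lit 0)) (T.h (T.h (P (nat_lit 820044288225231356559360)) (T.h (P (nat_lit 0)) (M (nat_lit 1945289511797784575)))) (P (nat_lit 0)))) (T.h (T.h (P (nat_lit 0)) (T.h (P (nat_lit 0)) (T.h (T.h (P (nat_lit 0)) (P (nat_lit 9472520804892672))) (P (nat_lit 0))))) (P (nat_lit 0)))))]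
def lP11_3 : List (T ℤ) := [(T.h (T.h (T.h (P (nat_lit 0)) (T.h (P (nat_lit 0)) (T.h (P (nat_lit 0)) (T.h (P (nat_lit 0)) (M (nat_lit 888813660070215679)))))) (P (nat_lit 0))) (T.h (P (nat_lit 0)) (T.h (T.h (P (nat_lit 0)) (T.h (P (nat_lit 0)) (M (nat_lit 3233287101403365375)))) (P (nat_lit 0))))), (P (nat_lit 0)), (P (nat_lit 0)), (T.h (T.h (P (nat_lit 0)) (T.h (T.h (P (nat_lit 0)) (T.h (M (nat_lit 14280217490853106859114495)) (T.h (P (nat_lit 0)) (M (nat_lit 5463924327831306239))))) (T.h (P (nat_lit 0)) (T.h (T.h (P (nat_lit 0)) (P (nat_lit 3431769517741572096))) (P (nat_lit 0)))))) (T.h (T.h (T.h (P (nat_lit 2442310398557518728414625792)) (T.h (P (nat_lit 0)) (T.h (P (nat_lit 10983023708140231196672)) (T.h (P (nat_lit 0)) (M (nat_lit 664208017784831)))))) (T.h (P (nat_lit 0)) (T.h (T.h (M (nat_lit 3047215125714868109311)) (T.h (P (nat_lit 0)) (P (nat_lit 3547622079004672)))) (T.h (P (nat_lit 0)) (M (nat_lit 1626567914815487)))))) (T.h (T.h (P (nat_lit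 0)) (T.h (T.h (P (nat_lit 0)) (P (nat_lit 3565072346572128256))) (P (nat_lit 0)))) (T.h (T.h (T.h (P (nat_lit 3679752308041006972928)) (T.h (P (nat_lit 0)) (M (nat_lit 1039951104770047)))) (T.h (P (nat_lit 0)) (P (nat_lit 140431119548416)))) (T.h (P (nat_lit 0)) (M (nat_lit 11815390019583))))))), (T.h (T.h (P (nat_lit 0)) (T.h (T.h (P (nat_lit 22549686110619622894297153536)) (T.h (P (nat_lit 0)) (T.h (P (nat_lit 538372468300809502720)) (T.h (P (nat_lit 0)) (P (nat_lit 537820007137280)))))) (T.h (P (nat_lit 0)) (T.h (T.h (P (nat_lit 4987765701830972014592)) (T.h (P (nat_lit 0)) (P (nat_lit 3255958531735552)))) (T.h (P (nat_lit 0)) (P (nat_lit 129108033208320))))))) (T.h (T.h (T.h (P (nat_lit 0)) (T.h (M (nat_lit 8807245776857616942628863)) (T.h (P (nat_lit 0)) (M (nat_lit 5996092034685861887))))) (T.h (P (nat_lit 0)) (T.h (T.h (P (nat_lit 0)) (M (nat_lit 7115061308898148351))) (P (nat_lit 0))))) (T.h (T.h (P (nat_lit 0)) (T.h (T.h (M (nat_lit 4276355499288042668031))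 (T.h (P (nat_lit 0)) (M (nat_lit 17651129576325119)))) (T.h (P (nat_lit 0)) (M (nat_lit 1762998010347519))))) (T.h (T.h (T.h (P (nat_lit 0)) (P (nat_lit 5476563799450320896))) (P (nat_lit 0))) (T.h (T.h (P (nat_lit 0)) (P (nat_lit 4056569522847744))) (P (nat_lit 0))))))), (T.h (T.h (P (nat_lit 0)) (T.h (T.h (P (nat_lit 0)) (T.h (P (nat_lit 16159129519095628567674880)) (T.h (P (nat_lit 0)) (P (nat_lit 8662173632501383168))))) (T.h (P (nat_lit 0)) (T.h (T.h (P (nat_lit 0)) (P (nat_lit 3256229217427259392))) (P (nat_lit 0)))))) (T.h (T.h (T.h (M (nat_lit 3147316493728592057340002303)) (T.h (P (nat_lit 0)) (T.h (M (nat_lit 4041870850466806497279)) (T.h (P (nat_lit 0)) (P (nat_lit 2925128420229120)))))) (T.h (P (nat_lit 0)) (T.h (T.h (P (nat_lit 835233424690865242112)) (T.h (P (nat_lit 0)) (M (nat_lit 11975517620469759)))) (T.h (P (nat_lit 0)) (M (nat_lit 1036859366244351)))))) (T.h (T.h (P (nat_lit 0)) (T.h (T.h (P (nat_lit 0)) (P (nat_lit 14223229982607409152)))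 (P (nat_lit 0)))) (T.h (T.h (T.h (M (nat_lit 4524051548051001573375)) (T.h (P (nat_lit 0)) (P (nat_lit 822254790705152)))) (T.h (P (nat_lit 0)) (M (nat_lit 652816732782591)))) (T.h (P (nat_lit 0)) (P (nat_lit 845034740580352))))))), (T.h (T.h (P (nat_lit 0)) (T.h (T.h (M (nat_lit 23308674508616954859992645631)) (T.h (P (nat_lit 0)) (T.h (M (nat_lit 6403020190384731979775)) (T.h (P (nat_lit 0)) (P (nat_lit 4525130102341632)))))) (T.h (P (nat_lit 0)) (T.h (T.h (M (nat_lit 3679868749620923334655)) (T.h (P (nat_lit 0)) (M (nat_lit 421025460584447)))) (T.h (P (nat_lit 0)) (M (nat_lit 1405125303336959))))))) (T.h (T.h (T.h (P (nat_lit 0)) (T.h (P (nat_lit 6699686972814614291546112)) (T.h (P (nat_lit 0)) (P (nat_lit 5598175807563366400))))) (T.h (P (nat_lit 0)) (T.h (T.h (P (nat_lit 0)) (P (nat_lit 7082019746996027392))) (P (nat_lit 0))))) (T.h (T.h (P (nat_lit 0)) (T.h (T.h (M (nat_lit 566177892511311200255)) (T.h (P (nat_lit 0)) (P (nat_lit 5418969469157376))))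 (T.h (P (nat_lit 0)) (M (nat_lit 599549196042239))))) (T.h (T.h (T.h (P (nat_lit 0)) (M (nat_lit 8771602870383411199))) (P (nat_lit 0))) (T.h (T.h (P (nat_lit 0)) (M (nat_lit 3523974070075391))) (P (nat_lit 0))))))), (T.h (T.h (P (nat_lit 0)) (T.h (T.h (P (nat_lit 0)) (T.h (P (nat_lit 2424682419920877020774400)) (T.h (P (nat_lit 0)) (M (nat_lit 6178310966397108223))))) (T.h (P (nat_lit 0)) (T.h (T.h (P (nat_lit 0)) (P (nat_lit 287420047758983168))) (P (nat_lit 0)))))) (T.h (T.h (T.h (M (nat_lit 279908450380878969705594879)) (T.h (P (nat_lit 0)) (M (nat_lit 9901917847013963071487)))) (T.h (P (nat_lit 0)) (M (nat_lit 25474099469558480895)))) (T.h (T.h (P (nat_lit 0)) (T.h (T.h (P (nat_lit 0)) (M (nat_lit 10165924027084832767))) (P (nat_lit 0)))) (P (nat_lit 2829812515106405220352)))))]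
def lP11_4 : List (T ℤ) := [(P (nat_lit 0)), (P (nat_lit 0)), (T.h (T.h (T.h (M (nat_lit 231541330990421274629362417663)) (T.h (P (nat_lit 0)) (T.h (M (nat_lit 3569015244786354544967679)) (T.h (P (nat_lit 0)) (P (nat_lit 631264490440097792)))))) (T.h (P (nat_lit 0)) (T.h (T.h (M (nat_lit 3569015244786354544967679)) (T.h (P (nat_lit 0)) (M (nat_lit 40000117314756280319)))) (T.h (P (nat_lit 0)) (P (nat_lit 631264490440097792)))))) (T.h (T.h (P (nat_lit 0)) (T.h (T.h (P (nat_lit 0)) (T.h (M (nat_lit 36647654013845643460607)) (T.h (P (nat_lit 0)) (M (nat_lit 3493448433926143))))) (T.h (P (nat_lit 0)) (T.h (T.h (P (nat_lit 0)) (M (nat_lit 3493448433926143))) (P (nat_lit 0)))))) (T.h (T.h (T.h (P (nat_lit 0)) (T.h (P (nat_lit 0)) (P (nat_lit 4235541714296635392)))) (T.h (P (nat_lit 0)) (P (nat_lit 4235541714296635392)))) (T.h (T.h (P (nat_lit 0)) (T.h (T.h (P (nat_lit 0)) (M (nat_lit 6475149598654463))) (P (nat_lit 0)))) (P (nat_lit 0)))))), (T.h (T.h (T.h (P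 (nat_lit 0)) (T.h (P (nat_lit 32656553038288046060575129600)) (T.h (P (nat_lit 0)) (T.h (P (nat_lit 7363688533803120197632)) (T.h (P (nat_lit 0)) (M (nat_lit 220796630335487))))))) (T.h (P (nat_lit 0)) (T.h (T.h (P (nat_lit 0)) (T.h (P (nat_lit 30084483994422802907136)) (T.h (P (nat_lit 0)) (M (nat_lit 3689423423733759))))) (T.h (P (nat_lit 0)) (T.h (T.h (P (nat_lit 0)) (M (nat_lit 3645792647774207))) (P (nat_lit 0))))))) (T.h (T.h (P (nat_lit 0)) (T.h (T.h (P (nat_lit 18361088292942342694895616)) (T.h (P (nat_lit 0)) (M (nat_lit 13036727460421435391)))) (T.h (P (nat_lit 0)) (M (nat_lit 2157869546520707071))))) (T.h (T.h (T.h (P (nat_lit 0)) (T.h (M (nat_lit 15880694973642691313663)) (T.h (P (nat_lit 0)) (P (nat_lit 12141505585938432))))) (T.h (P (nat_lit 0)) (T.h (T.h (P (nat_lit 0)) (P (nat_lit 5600629794930688))) (P (nat_lit 0))))) (T.h (T.h (P (nat_lit 0)) (P (nat_lit 5552322172325724160))) (T.h (T.h (T.h (P (nat_lit 0)) (M (nat_lit 194936912609279)))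 (P (nat_lit 0))) (P (nat_lit 0))))))), (T.h (T.h (T.h (P (nat_lit 0)) (T.h (P (nat_lit 0)) (T.h (M (nat_lit 202648603037179402256383)) (T.h (P (nat_lit 0)) (M (nat_lit 3437973054217519103)))))) (T.h (P (nat_lit 0)) (T.h (T.h (P (nat_lit 12490453405460551285342208)) (T.h (P (nat_lit 0)) (P (nat_lit 49740724873375776768)))) (T.h (P (nat_lit 0)) (P (nat_lit 812847327025823744)))))) (T.h (T.h (P (nat_lit 0)) (T.h (T.h (P (nat_lit 0)) (T.h (P (nat_lit 40872332593621807136768)) (T.h (P (nat_lit 0)) (P (nat_lit 5870480457662464))))) (T.h (P (nat_lit 0)) (T.h (T.h (P (nat_lit 0)) (M (nat_lit 2868643210854399))) (P (nat_lit 0)))))) (T.h (T.h (T.h (P (nat_lit 0)) (T.h (P (nat_lit 0)) (M (nat_lit 10793703863186620415)))) (T.h (P (nat_lit 0)) (P (nat_lit 6890058237970743296)))) (T.h (T.h (P (nat_lit 0)) (T.h (T.h (P (nat_lit 0)) (P (nat_lit 7058222133673984))) (P (nat_lit 0)))) (M (nat_lit 552709772135104511)))))), (T.h (T.h (T.h (P (nat_lit 0)) (T.h (M (nat_lit 28594865004676513644159172607))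 (T.h (P (nat_lit 0)) (M (nat_lit 5040543764096126812159))))) (T.h (P (nat_lit 0)) (T.h (T.h (P (nat_lit 0)) (T.h (M (nat_lit 21528506760766722932735)) (T.h (P (nat_lit 0)) (P (nat_lit 154781880287232))))) (T.h (P (nat_lit 0)) (T.h (T.h (P (nat_lit 0)) (P (nat_lit 3398585621741568))) (P (nat_lit 0))))))) (T.h (T.h (P (nat_lit 0)) (T.h (T.h (M (nat_lit 11966167736419842051276799)) (T.h (P (nat_lit 0)) (P (nat_lit 23557292345440337920)))) (T.h (P (nat_lit 0)) (P (nat_lit 2052704746300506112))))) (T.h (T.h (T.h (P (nat_lit 0)) (T.h (P (nat_lit 9192677989439676350464)) (T.h (P (nat_lit 0)) (P (nat_lit 738651429666816))))) (P (nat_lit 0))) (T.h (T.h (P (nat_lit 0)) (M (nat_lit 3731991322861502463))) (T.h (T.h (T.h (P (nat_lit 0)) (P (nat_lit 1895257306300416))) (P (nat_lit 0))) (P (nat_lit 0))))))), (T.h (T.h (T.h (P (nat_lit 14562162258249013777924918083584)) (T.h (P (nat_lit 0)) (T.h (P (nat_lit 5400635009370655693996032)) (T.h (P (nat_lit 0)) (M (nat_lit 1544577741599277055))))))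 (T.h (P (nat_lit 0)) (T.h (T.h (M (nat_lit 1586501907438543587770367)) (T.h (P (nat_lit 0)) (P (nat_lit 272633426224349184)))) (T.h (P (nat_lit 0)) (P (nat_lit 1238029958807289856)))))) (T.h (T.h (P (nat_lit 0)) (T.h (T.h (P (nat_lit 0)) (M (nat_lit 14866527205867955159039))) (P (nat_lit 0)))) (T.h (T.h (T.h (P (nat_lit 472108168470894989017088)) (T.h (P (nat_lit 0)) (M (nat_lit 2606053976117870591)))) (T.h (P (nat_lit 0)) (P (nat_lit 613938376747253760)))) (T.h (P (nat_lit 0)) (P (nat_lit 555935322035191808)))))), (P (nat_lit 0))]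
def lP11_5 : List (T ℤ) := [(T.h (T.h (P (nat_lit 0)) (T.h (T.h (P (nat_lit 0)) (T.h (M (nat_lit 14280217490853106859114495)) (T.h (P (nat_lit 0)) (P (nat_lit 3431769517741572096))))) (T.h (P (nat_lit 0)) (T.h (T.h (P (nat_lit 0)) (M (nat_lit 5463924327831306239))) (P (nat_lit 0)))))) (T.h (T.h (T.h (P (nat_lit 2442310398557518728414625792)) (T.h (P (nat_lit 0)) (T.h (M (nat_lit 3047215125714868109311)) (T.h (P (nat_lit 0)) (M (nat_lit 1626567914815487)))))) (T.h (P (nat_lit 0)) (T.h (T.h (P (nat_lit 10983023708140231196672)) (T.h (P (nat_lit 0)) (P (nat_lit 3547622079004672)))) (T.h (P (nat_lit 0)) (M (nat_lit 664208017784831)))))) (T.h (T.h (P (nat_lit 0)) (T.h (T.h (P (nat_lit 0)) (P (nat_lit 3565072346572128256))) (P (nat_lit 0)))) (T.h (T.h (T.h (P (nat_lit 3679752308041006972928)) (T.h (P (nat_lit 0)) (P (nat_lit 140431119548416)))) (T.h (P (nat_lit 0)) (M (nat_lit 1039951104770047)))) (T.h (P (nat_lit 0)) (M (nat_lit 11815390019583))))))), (T.h (T.h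 (P (nat_lit 0)) (T.h (T.h (P (nat_lit 32656553038288046060575129600)) (T.h (P (nat_lit 0)) (T.h (P (nat_lit 30084483994422802907136)) (T.h (P (nat_lit 0)) (M (nat_lit 3645792647774207)))))) (T.h (P (nat_lit 0)) (T.h (T.h (P (nat_lit 7363688533803120197632)) (T.h (P (nat_lit 0)) (M (nat_lit 3689423423733759)))) (T.h (P (nat_lit 0)) (M (nat_lit 220796630335487))))))) (T.h (T.h (T.h (P (nat_lit 0)) (T.h (P (nat_lit 18361088292942342694895616)) (T.h (P (nat_lit 0)) (M (nat_lit 2157869546520707071))))) (T.h (P (nat_lit 0)) (T.h (T.h (P (nat_lit 0)) (M (nat_lit 13036727460421435391))) (P (nat_lit 0))))) (T.h (T.h (P (nat_lit 0)) (T.h (T.h (M (nat_lit 15880694973642691313663)) (T.h (P (nat_lit 0)) (P (nat_lit 5600629794930688)))) (T.h (P (nat_lit 0)) (P (nat_lit 12141505585938432))))) (T.h (T.h (T.h (P (nat_lit 0)) (P (nat_lit 5552322172325724160))) (P (nat_lit 0))) (T.h (T.h (P (nat_lit 0)) (M (nat_lit 194936912609279))) (P (nat_lit 0))))))), (T.h (T.h (P (nat_lit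 0)) (T.h (T.h (P (nat_lit 0)) (T.h (P (nat_lit 40543104508391291520811008)) (T.h (P (nat_lit 0)) (P (nat_lit 16121777625906544640))))) (T.h (P (nat_lit 0)) (T.h (T.h (P (nat_lit 0)) (P (nat_lit 16121777625906544640))) (P (nat_lit 0)))))) (T.h (T.h (T.h (P (nat_lit 2120122278237486535193657344)) (T.h (P (nat_lit 0)) (T.h (M (nat_lit 6397935496113302798335)) (T.h (P (nat_lit 0)) (P (nat_lit 3993105336041472)))))) (T.h (P (nat_lit 0)) (T.h (T.h (M (nat_lit 6397935496113302798335)) (T.h (P (nat_lit 0)) (M (nat_lit 786403700375551)))) (T.h (P (nat_lit 0)) (P (nat_lit 3993105336041472)))))) (T.h (T.h (P (nat_lit 0)) (T.h (T.h (P (nat_lit 0)) (M (nat_lit 8197742967738335231))) (P (nat_lit 0)))) (T.h (T.h (T.h (M (nat_lit 1352678270254679326719)) (T.h (P (nat_lit 0)) (P (nat_lit 2523038380785664)))) (T.h (P (nat_lit 0)) (P (nat_lit 2523038380785664)))) (P (nat_lit 0)))))), (T.h (T.h (P (nat_lit 0)) (T.h (T.h (M (nat_lit 53085522036960781581477216255)) (T.h (P (nat_lit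 0)) (T.h (M (nat_lit 31270315920543543459839)) (T.h (P (nat_lit 0)) (P (nat_lit 10558192468033536)))))) (T.h (P (nat_lit 0)) (T.h (T.h (M (nat_lit 10242234231096952750079)) (T.h (P (nat_lit 0)) (P (nat_lit 9875747953508352)))) (T.h (P (nat_lit 0)) (M (nat_lit 1149341850599423))))))) (T.h (T.h (T.h (P (nat_lit 0)) (T.h (P (nat_lit 578291697487330404204544)) (T.h (P (nat_lit 0)) (M (nat_lit 17820622312014086143))))) (T.h (P (nat_lit 0)) (T.h (T.h (P (nat_lit 0)) (P (nat_lit 2224995150961049600))) (P (nat_lit 0))))) (T.h (T.h (P (nat_lit 0)) (T.h (T.h (P (nat_lit 8590939794117415141376)) (T.h (P (nat_lit 0)) (P (nat_lit 34062600577941504)))) (T.h (P (nat_lit 0)) (P (nat_lit 5577055310118912))))) (T.h (T.h (T.h (P (nat_lit 0)) (M (nat_lit 3541372019637485567))) (P (nat_lit 0))) (T.h (T.h (P (nat_lit 0)) (M (nat_lit 8459720275525631))) (P (nat_lit 0))))))), (T.h (T.h (P (nat_lit 0)) (T.h (T.h (P (nat_lit 0)) (T.h (M (nat_lit 7693749846238283348049919)) (T.h (P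 (nat_lit 0)) (M (nat_lit 14521116546631204863))))) (T.h (P (nat_lit 0)) (T.h (T.h (P (nat_lit 0)) (M (nat_lit 11382046171812855807))) (P (nat_lit 0)))))) (T.h (T.h (T.h (M (nat_lit 4996804256147560436517044223)) (T.h (P (nat_lit 0)) (P (nat_lit 4296544144108300533760)))) (T.h (P (nat_lit 0)) (P (nat_lit 257028261180969320448)))) (T.h (T.h (P (nat_lit 0)) (T.h (T.h (P (nat_lit 0)) (M (nat_lit 23253401994541400063))) (P (nat_lit 0)))) (P (nat_lit 699374331989025882112))))), (T.h (T.h (T.h (M (nat_lit 470961987125908346733519175679)) (T.h (P (nat_lit 0)) (T.h (M (nat_lit 1942057638129030519586815)) (T.h (P (nat_lit 0)) (M (nat_lit 3371299736341446655)))))) (T.h (P (nat_lit 0)) (T.h (T.h (P (nat_lit 57899600867765543501824)) (T.h (P (nat_lit 0)) (P (nat_lit 1192941709491699712)))) (T.h (P (nat_lit 0)) (M (nat_lit 846434129254809599)))))) (T.h (T.h (P (nat_lit 0)) (T.h (T.h (P (nat_lit 0)) (T.h (P (nat_lit 538075358818507685888)) (T.h (P (nat_lit 0)) (M (nat_lit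 598511274688511))))) (T.h (P (nat_lit 0)) (T.h (T.h (P (nat_lit 0)) (M (nat_lit 1583080657387519))) (P (nat_lit 0)))))) (T.h (T.h (T.h (M (nat_lit 1942057638129030519586815)) (T.h (P (nat_lit 0)) (M (nat_lit 556449493575270399)))) (T.h (P (nat_lit 0)) (P (nat_lit 1192941709491699712)))) (T.h (T.h (P (nat_lit 0)) (T.h (T.h (P (nat_lit 0)) (M (nat_lit 598511274688511))) (P (nat_lit 0)))) (M (nat_lit 3371299736341446655)))))), (T.h (T.h (T.h (P (nat_lit 0)) (T.h (P (nat_lit 22549686110619622894297153536)) (T.h (P (nat_lit 0)) (T.h (P (nat_lit 4987765701830972014592)) (T.h (P (nat_lit 0)) (P (nat_lit 129108033208320))))))) (T.h (P (nat_lit 0)) (T.h (T.h (P (nat_lit 0)) (T.h (P (nat_lit 538372468300809502720)) (T.h (P (nat_lit 0)) (P (nat_lit 3255958531735552))))) (T.h (P (nat_lit 0)) (T.h (T.h (P (nat_lit 0)) (P (nat_lit 537820007137280))) (P (nat_lit 0))))))) (T.h (T.h (P (nat_lit 0)) (T.h (T.h (M (nat_lit 8807245776857616942628863)) (T.h (P (nat_lit 0)) (M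 (nat_lit 7115061308898148351)))) (T.h (P (nat_lit 0)) (M (nat_lit 5996092034685861887))))) (T.h (T.h (T.h (P (nat_lit 0)) (T.h (M (nat_lit 4276355499288042668031)) (T.h (P (nat_lit 0)) (M (nat_lit 1762998010347519))))) (T.h (P (nat_lit 0)) (T.h (T.h (P (nat_lit 0)) (M (nat_lit 17651129576325119))) (P (nat_lit 0))))) (T.h (T.h (P (nat_lit 0)) (P (nat_lit 5476563799450320896))) (T.h (T.h (T.h (P (nat_lit 0)) (P (nat_lit 4056569522847744))) (P (nat_lit 0))) (P (nat_lit 0))))))), (T.h (T.h (T.h (P (nat_lit 0)) (T.h (P (nat_lit 0)) (T.h (P (nat_lit 12490453405460551285342208)) (T.h (P (nat_lit 0)) (P (nat_lit 812847327025823744)))))) (T.h (P (nat_lit 0)) (T.h (T.h (M (nat_lit 202648603037179402256383)) (T.h (P (nat_lit 0)) (P (nat_lit 49740724873375776768)))) (T.h (P (nat_lit 0)) (M (nat_lit 3437973054217519103)))))) (T.h (T.h (P (nat_lit 0)) (T.h (T.h (P (nat_lit 0)) (T.h (P (nat_lit 40872332593621807136768)) (T.h (P (nat_lit 0)) (M (nat_lit 2868643210854399)))))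 (T.h (P (nat_lit 0)) (T.h (T.h (P (nat_lit 0)) (P (nat_lit 5870480457662464))) (P (nat_lit 0)))))) (T.h (T.h (T.h (P (nat_lit 0)) (T.h (P (nat_lit 0)) (P (nat_lit 6890058237970743296)))) (T.h (P (nat_lit 0)) (M (nat_lit 10793703863186620415)))) (T.h (T.h (P (nat_lit 0)) (T.h (T.h (P (nat_lit 0)) (P (nat_lit 7058222133673984))) (P (nat_lit 0)))) (M (nat_lit 552709772135104511))))))]
def lP11_6 : List (T ℤ) := [(T.h (T.h (T.h (P (nat_lit 0)) (T.h (M (nat_lit 53085522036960781581477216255)) (T.h (P (nat_lit 0)) (T.h (M (nat_lit 10242234231096952750079)) (T.h (P (nat_lit 0)) (M (nat_lit 1149341850599423))))))) (T.h (P (nat_lit 0)) (T.h (T.h (P (nat_lit 0)) (T.h (M (nat_lit 31270315920543543459839)) (T.h (P (nat_lit 0)) (P (nat_lit 9875747953508352))))) (T.h (P (nat_lit 0)) (T.h (T.h (P (nat_lit 0)) (P (nat_lit 10558192468033536))) (P (nat_lit 0))))))) (T.h (T.h (P (nat_lit 0)) (T.h (T.h (P (nat_lit 578291697487330404204544)) (T.h (P (nat_lit 0)) (P (nat_lit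 2224995150961049600)))) (T.h (P (nat_lit 0)) (M (nat_lit 17820622312014086143))))) (T.h (T.h (T.h (P (nat_lit 0)) (T.h (P (nat_lit 8590939794117415141376)) (T.h (P (nat_lit 0)) (P (nat_lit 5577055310118912))))) (T.h (P (nat_lit 0)) (T.h (T.h (P (nat_lit 0)) (P (nat_lit 34062600577941504))) (P (nat_lit 0))))) (T.h (T.h (P (nat_lit 0)) (M (nat_lit 3541372019637485567))) (T.h (T.h (T.h (P (nat_lit 0)) (M (nat_lit 8459720275525631))) (P (nat_lit 0))) (P (nat_lit 0))))))), (T.h (T.h (T.h (P (nat_lit 26617841765287406009037398999040)) (T.h (P (nat_lit 0)) (T.h (M (nat_lit 129977362024824844582911)) (T.h (P (nat_lit 0)) (M (nat_lit 1642319604065763327)))))) (T.h (P (nat_lit 0)) (T.h (T.h (M (nat_lit 129977362024824844582911)) (T.h (P (nat_lit 0)) (M (nat_lit 20225531808785104895)))) (T.h (P (nat_lit 0)) (M (nat_lit 1642319604065763327)))))) (T.h (T.h (P (nat_lit 0)) (T.h (T.h (P (nat_lit 0)) (P (nat_lit 1028113044723877281792))) (P (nat_lit 0)))) (T.h (T.h (T.h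 (M (nat_lit 3714307327027633757093887)) (T.h (P (nat_lit 0)) (M (nat_lit 17337605634832465919)))) (T.h (P (nat_lit 0)) (M (nat_lit 17337605634832465919)))) (T.h (P (nat_lit 0)) (P (nat_lit 5775169041425498112)))))), (T.h (T.h (P (nat_lit 0)) (T.h (T.h (P (nat_lit 0)) (T.h (P (nat_lit 0)) (T.h (M (nat_lit 1277770570003986251775)) (T.h (P (nat_lit 0)) (M (nat_lit 250554719240191)))))) (T.h (P (nat_lit 0)) (T.h (T.h (P (nat_lit 1386797677371080048640)) (T.h (P (nat_lit 0)) (P (nat_lit 3212398805352448)))) (T.h (P (nat_lit 0)) (M (nat_lit 520789253947391))))))) (T.h (T.h (T.h (P (nat_lit 0)) (T.h (M (nat_lit 820044288225231356559359)) (T.h (P (nat_lit 0)) (M (nat_lit 1172922028869550079))))) (T.h (P (nat_lit 0)) (T.h (T.h (P (nat_lit 0)) (P (nat_lit 1945289511797784576))) (P (nat_lit 0))))) (T.h (T.h (P (nat_lit 0)) (T.h (T.h (P (nat_lit 1277770570003986251776)) (T.h (P (nat_lit 0)) (M (nat_lit 9472520804892671)))) (T.h (P (nat_lit 0)) (M (nat_lit 3212398805352447)))))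 (T.h (T.h (T.h (P (nat_lit 0)) (P (nat_lit 1172922028869550080))) (P (nat_lit 0))) (T.h (T.h (P (nat_lit 0)) (P (nat_lit 250554719240192))) (P (nat_lit 0))))))), (T.h (T.h (P (nat_lit 0)) (T.h (T.h (P (nat_lit 0)) (T.h (P (nat_lit 16159129519095628567674880)) (T.h (P (nat_lit 0)) (P (nat_lit 3256229217427259392))))) (T.h (P (nat_lit 0)) (T.h (T.h (P (nat_lit 0)) (P (nat_lit 8662173632501383168))) (P (nat_lit 0)))))) (T.h (T.h (T.h (M (nat_lit 3147316493728592057340002303)) (T.h (P (nat_lit 0)) (T.h (P (nat_lit 835233424690865242112)) (T.h (P (nat_lit 0)) (M (nat_lit 1036859366244351)))))) (T.h (P (nat_lit 0)) (T.h (T.h (M (nat_lit 4041870850466806497279)) (T.h (P (nat_lit 0)) (M (nat_lit 11975517620469759)))) (T.h (P (nat_lit 0)) (P (nat_lit 2925128420229120)))))) (T.h (T.h (P (nat_lit 0)) (T.h (T.h (P (nat_lit 0)) (P (nat_lit 14223229982607409152))) (P (nat_lit 0)))) (T.h (T.h (T.h (M (nat_lit 4524051548051001573375)) (T.h (P (nat_lit 0)) (M (nat_lit 652816732782591))))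 (T.h (P (nat_lit 0)) (P (nat_lit 822254790705152)))) (T.h (P (nat_lit 0)) (P (nat_lit 845034740580352))))))), (T.h (T.h (P (nat_lit 0)) (T.h (T.h (M (nat_lit 28594865004676513644159172607)) (T.h (P (nat_lit 0)) (T.h (M (nat_lit 21528506760766722932735)) (T.h (P (nat_lit 0)) (P (nat_lit 3398585621741568)))))) (T.h (P (nat_lit 0)) (T.h (T.h (M (nat_lit 5040543764096126812159)) (T.h (P (nat_lit 0)) (P (nat_lit 154781880287232)))) (P (nat_lit 0)))))) (T.h (T.h (T.h (P (nat_lit 0)) (T.h (M (nat_lit 11966167736419842051276799)) (T.h (P (nat_lit 0)) (P (nat_lit 2052704746300506112))))) (T.h (P (nat_lit 0)) (T.h (T.h (P (nat_lit 0)) (P (nat_lit 23557292345440337920))) (P (nat_lit 0))))) (T.h (T.h (P (nat_lit 0)) (T.h (P (nat_lit 9192677989439676350464)) (T.h (P (nat_lit 0)) (P (nat_lit 738651429666816))))) (T.h (T.h (T.h (P (nat_lit 0)) (M (nat_lit 3731991322861502463))) (P (nat_lit 0))) (T.h (T.h (P (nat_lit 0)) (P (nat_lit 1895257306300416))) (P (nat_lit 0))))))),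 (T.h (T.h (P (nat_lit 0)) (T.h (T.h (P (nat_lit 0)) (T.h (M (nat_lit 7693749846238283348049919)) (T.h (P (nat_lit 0)) (M (nat_lit 11382046171812855807))))) (T.h (P (nat_lit 0)) (T.h (T.h (P (nat_lit 0)) (M (nat_lit 14521116546631204863))) (P (nat_lit 0)))))) (T.h (T.h (T.h (M (nat_lit 4996804256147560436517044223)) (T.h (P (nat_lit 0)) (P (nat_lit 257028261180969320448)))) (T.h (P (nat_lit 0)) (P (nat_lit 4296544144108300533760)))) (T.h (T.h (P (nat_lit 0)) (T.h (T.h (P (nat_lit 0)) (M (nat_lit 23253401994541400063))) (P (nat_lit 0)))) (P (nat_lit 699374331989025882112))))), (T.h (T.h (T.h (P (nat_lit 5874464779828831870272703299584)) (T.h (P (nat_lit 0)) (T.h (P (nat_lit 1789014615482866992152576)) (T.h (P (nat_lit 0)) (P (nat_lit 2729902727365656576)))))) (T.h (P (nat_lit 0)) (T.h (T.h (M (nat_lit 1408964967221915887337471)) (T.h (P (nat_lit 0)) (P (nat_lit 1418544840500576256)))) (T.h (P (nat_lit 0)) (P (nat_lit 2917492293147557888)))))) (T.h (T.h (P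 (nat_lit 0)) (T.h (T.h (P (nat_lit 0)) (P (nat_lit 101896397878233923584))) (T.h (P (nat_lit 0)) (T.h (T.h (P (nat_lit 0)) (P (nat_lit 2216312920342528))) (P (nat_lit 0)))))) (T.h (T.h (T.h (P (nat_lit 1789014615482866992152576)) (T.h (P (nat_lit 0)) (P (nat_lit 2005410347908857856)))) (T.h (P (nat_lit 0)) (P (nat_lit 1418544840500576256)))) (T.h (P (nat_lit 0)) (P (nat_lit 2729902727365656576)))))), (T.h (T.h (T.h (P (nat_lit 0)) (T.h (M (nat_lit 23308674508616954859992645631)) (T.h (P (nat_lit 0)) (T.h (M (nat_lit 3679868749620923334655)) (T.h (P (nat_lit 0)) (M (nat_lit 1405125303336959))))))) (T.h (P (nat_lit 0)) (T.h (T.h (P (nat_lit 0)) (T.h (M (nat_lit 6403020190384731979775)) (T.h (P (nat_lit 0)) (M (nat_lit 421025460584447))))) (T.h (P (nat_lit 0)) (T.h (T.h (P (nat_lit 0)) (P (nat_lit 4525130102341632))) (P (nat_lit 0))))))) (T.h (T.h (P (nat_lit 0)) (T.h (T.h (P (nat_lit 6699686972814614291546112)) (T.h (P (nat_lit 0)) (P (nat_lit 7082019746996027392))))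 (T.h (P (nat_lit 0)) (P (nat_lit 5598175807563366400))))) (T.h (T.h (T.h (P (nat_lit 0)) (T.h (M (nat_lit 566177892511311200255)) (T.h (P (nat_lit 0)) (M (nat_lit 599549196042239))))) (T.h (P (nat_lit 0)) (T.h (T.h (P (nat_lit 0)) (P (nat_lit 5418969469157376))) (P (nat_lit 0))))) (T.h (T.h (P (nat_lit 0)) (M (nat_lit 8771602870383411199))) (T.h (T.h (T.h (P (nat_lit 0)) (M (nat_lit 3523974070075391))) (P (nat_lit 0))) (P (nat_lit 0)))))))]
def lP11_7 : List (T ℤ) := [(T.h (T.h (T.h (P (nat_lit 14562162258249013777924918083584)) (T.h (P (nat_lit 0)) (T.h (M (nat_lit 1586501907438543587770367)) (T.h (P (nat_lit 0)) (P (nat_lit 1238029958807289856)))))) (T.h (P (nat_lit 0)) (T.h (T.h (P (nat_lit 5400635009370655693996032)) (T.h (P (nat_lit 0)) (P (nat_lit 272633426224349184)))) (T.h (P (nat_lit 0)) (M (nat_lit 1544577741599277055)))))) (T.h (T.h (P (nat_lit 0)) (T.h (T.h (P (nat_lit 0)) (M (nat_lit 14866527205867955159039))) (P (nat_lit 0)))) (T.h (T.h (T.h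 (P (nat_lit 472108168470894989017088)) (T.h (P (nat_lit 0)) (P (nat_lit 613938376747253760)))) (T.h (P (nat_lit 0)) (M (nat_lit 2606053976117870591)))) (T.h (P (nat_lit 0)) (P (nat_lit 555935322035191808)))))), (T.h (T.h (P (nat_lit 0)) (T.h (P (nat_lit 0)) (T.h (P (nat_lit 0)) (T.h (M (nat_lit 1386797677371080048639)) (T.h (P (nat_lit 0)) (P (nat_lit 520789253947392))))))) (T.h (T.h (T.h (P (nat_lit 0)) (P (nat_lit 820044288225231356559360))) (T.h (P (nat_lit 0)) (T.h (T.h (P (nat_lit 0)) (M (nat_lit 1945289511797784575))) (P (nat_lit 0))))) (T.h (T.h (P (nat_lit 0)) (T.h (T.h (P (nat_lit 0)) (T.h (P (nat_lit 0)) (P (nat_lit 9472520804892672)))) (P (nat_lit 0)))) (P (nat_lit 0))))), (T.h (T.h (P (nat_lit 0)) (T.h (T.h (P (nat_lit 0)) (T.h (P (nat_lit 2424682419920877020774400)) (T.h (P (nat_lit 0)) (P (nat_lit 287420047758983168))))) (T.h (P (nat_lit 0)) (T.h (T.h (P (nat_lit 0)) (M (nat_lit 6178310966397108223))) (P (nat_lit 0)))))) (T.h (T.h (T.h (M (nat_lit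 279908450380878969705594879)) (T.h (P (nat_lit 0)) (M (nat_lit 25474099469558480895)))) (T.h (P (nat_lit 0)) (M (nat_lit 9901917847013963071487)))) (T.h (T.h (P (nat_lit 0)) (T.h (T.h (P (nat_lit 0)) (M (nat_lit 10165924027084832767))) (P (nat_lit 0)))) (P (nat_lit 2829812515106405220352))))), (T.h (T.h (P (nat_lit 0)) (T.h (P (nat_lit 0)) (T.h (P (nat_lit 0)) (T.h (P (nat_lit 0)) (M (nat_lit 888813660070215679)))))) (T.h (P (nat_lit 0)) (T.h (T.h (T.h (P (nat_lit 0)) (T.h (P (nat_lit 0)) (M (nat_lit 3233287101403365375)))) (P (nat_lit 0))) (P (nat_lit 0))))), (P (nat_lit 0)), (P (nat_lit 0)), (P (nat_lit 0)), (P (nat_lit 0))]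
def lP11_8 : List (T ℤ) := [(P (nat_lit 0)), (P (nat_lit 0)), (P (nat_lit 0)), (P (nat_lit 0)), (P (nat_lit 0)), (P (nat_lit 0)), (T.h (T.h (T.h (P (nat_lit 1981752654889396678819009527808)) (T.h (P (nat_lit 0)) (T.h (M (nat_lit 2867248966553156760633343)) (T.h (P (nat_lit 0)) (P (nat_lit 1877028074533421056)))))) (T.h (P (nat_lit 0)) (T.h (T.h (M (nat_lit 334550641413155811491839)) (T.h (P (nat_lit 0)) (P (nat_lit 6116466494009245696)))) (T.h (P (nat_lit 0)) (M (nat_lit 1170422682978615295)))))) (T.h (T.h (P (nat_lit 0)) (T.h (T.h (P (nat_lit 0)) (T.h (M (nat_lit 262095921543383089151)) (T.h (P (nat_lit 0)) (M (nat_lit 1595815747256319))))) (T.h (P (nat_lit 0)) (T.h (T.h (P (nat_lit 0)) (M (nat_lit 3765679188148223))) (P (nat_lit 0)))))) (T.h (T.h (T.h (M (nat_lit 334550641413155811491839)) (T.h (P (nat_lit 0)) (P (nat_lit 6116466494009245696)))) (T.h (P (nat_lit 0)) (M (nat_lit 3094100616738242559)))) (T.h (T.h (P (nat_lit 0)) (T.h (T.h (P (nat_lit 0))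 (M (nat_lit 3765679188148223))) (P (nat_lit 0)))) (M (nat_lit 1170422682978615295)))))), (P (nat_lit 0))]
def lP11_9 : List (T ℤ) := [(P (nat_lit 0)), (P (nat_lit 0)), (P (nat_lit 0)), (P (nat_lit 0)), (T.h (T.h (P (nat_lit 0)) (T.h (T.h (P (nat_lit 2442310398557518728414625792)) (T.h (P (nat_lit 0)) (T.h (P (nat_lit 10983023708140231196672)) (T.h (P (nat_lit 0)) (M (nat_lit 664208017784831)))))) (T.h (P (nat_lit 0)) (T.h (T.h (P (nat_lit 3679752308041006972928)) (T.h (P (nat_lit 0)) (M (nat_lit 1039951104770047)))) (T.h (P (nat_lit 0)) (M (nat_lit 11815390019583))))))) (T.h (T.h (T.h (P (nat_lit 0)) (T.h (M (nat_lit 14280217490853106859114495)) (T.h (P (nat_lit 0)) (M (nat_lit 5463924327831306239))))) (T.h (P (nat_lit 0)) (T.h (T.h (P (nat_lit 0)) (P (nat_lit 3565072346572128256))) (P (nat_lit 0))))) (T.h (T.h (P (nat_lit 0)) (T.h (T.h (M (nat_lit 3047215125714868109311)) (T.h (P (nat_lit 0)) (P (nat_lit 3547622079004672)))) (T.h (P (nat_lit 0)) (P (nat_lit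 140431119548416))))) (T.h (T.h (T.h (P (nat_lit 0)) (P (nat_lit 3431769517741572096))) (P (nat_lit 0))) (T.h (T.h (P (nat_lit 0)) (M (nat_lit 1626567914815487))) (P (nat_lit 0))))))), (T.h (T.h (P (nat_lit 0)) (T.h (T.h (P (nat_lit 0)) (T.h (P (nat_lit 7635818693151528446853120)) (T.h (P (nat_lit 0)) (M (nat_lit 18711846820710973439))))) (T.h (P (nat_lit 0)) (T.h (T.h (P (nat_lit 0)) (P (nat_lit 22440819617605615616))) (P (nat_lit 0)))))) (T.h (T.h (T.h (P (nat_lit 22212443436440339672616402944)) (T.h (P (nat_lit 0)) (T.h (M (nat_lit 650868203350780805119)) (T.h (P (nat_lit 0)) (M (nat_lit 5862949325078527)))))) (T.h (P (nat_lit 0)) (T.h (T.h (M (nat_lit 1118880798883495018495)) (T.h (P (nat_lit 0)) (P (nat_lit 10816180136968192)))) (T.h (P (nat_lit 0)) (P (nat_lit 1239783424032768)))))) (T.h (T.h (P (nat_lit 0)) (T.h (T.h (P (nat_lit 0)) (P (nat_lit 28699690470066880512))) (P (nat_lit 0)))) (T.h (T.h (T.h (P (nat_lit 5587234294597026840576)) (T.h (P (nat_lit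 0)) (M (nat_lit 15027371136778239)))) (T.h (P (nat_lit 0)) (P (nat_lit 2071230352359424)))) (T.h (P (nat_lit 0)) (P (nat_lit 4293038005878784))))))), (T.h (T.h (P (nat_lit 0)) (T.h (T.h (M (nat_lit 3147316493728592057340002303)) (T.h (P (nat_lit 0)) (T.h (M (nat_lit 4041870850466806497279)) (T.h (P (nat_lit 0)) (P (nat_lit 2925128420229120)))))) (T.h (P (nat_lit 0)) (T.h (T.h (M (nat_lit 4524051548051001573375)) (T.h (P (nat_lit 0)) (P (nat_lit 822254790705152)))) (T.h (P (nat_lit 0)) (P (nat_lit 845034740580352))))))) (T.h (T.h (T.h (P (nat_lit 0)) (T.h (P (nat_lit 16159129519095628567674880)) (T.h (P (nat_lit 0)) (P (nat_lit 8662173632501383168))))) (T.h (P (nat_lit 0)) (T.h (T.h (P (nat_lit 0)) (P (nat_lit 14223229982607409152))) (P (nat_lit 0))))) (T.h (T.h (P (nat_lit 0)) (T.h (T.h (P (nat_lit 835233424690865242112)) (T.h (P (nat_lit 0)) (M (nat_lit 11975517620469759)))) (T.h (P (nat_lit 0)) (M (nat_lit 652816732782591))))) (T.h (T.h (T.h (P (nat_lit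 0)) (P (nat_lit 3256229217427259392))) (P (nat_lit 0))) (T.h (T.h (P (nat_lit 0)) (M (nat_lit 1036859366244351))) (P (nat_lit 0))))))), (T.h (T.h (P (nat_lit 0)) (T.h (T.h (P (nat_lit 0)) (T.h (P (nat_lit 6699686972814614291546112)) (T.h (P (nat_lit 0)) (P (nat_lit 5598175807563366400))))) (T.h (P (nat_lit 0)) (T.h (T.h (P (nat_lit 0)) (M (nat_lit 8771602870383411199))) (P (nat_lit 0)))))) (T.h (T.h (T.h (M (nat_lit 23308674508616954859992645631)) (T.h (P (nat_lit 0)) (T.h (M (nat_lit 6403020190384731979775)) (T.h (P (nat_lit 0)) (P (nat_lit 4525130102341632)))))) (T.h (P (nat_lit 0)) (T.h (T.h (M (nat_lit 566177892511311200255)) (T.h (P (nat_lit 0)) (P (nat_lit 5418969469157376)))) (T.h (P (nat_lit 0)) (M (nat_lit 3523974070075391)))))) (T.h (T.h (P (nat_lit 0)) (T.h (T.h (P (nat_lit 0)) (P (nat_lit 7082019746996027392))) (P (nat_lit 0)))) (T.h (T.h (T.h (M (nat_lit 3679868749620923334655)) (T.h (P (nat_lit 0)) (M (nat_lit 421025460584447)))) (T.h (P (nat_lit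 0)) (M (nat_lit 599549196042239)))) (T.h (P (nat_lit 0)) (M (nat_lit 1405125303336959)))))))]
def lP11_10 : List (T ℤ) := [(T.h (T.h (P (nat_lit 0)) (T.h (T.h (M (nat_lit 279908450380878969705594879)) (T.h (P (nat_lit 0)) (M (nat_lit 9901917847013963071487)))) (T.h (P (nat_lit 0)) (P (nat_lit 2829812515106405220352))))) (T.h (T.h (T.h (P (nat_lit 0)) (T.h (P (nat_lit 2424682419920877020774400)) (T.h (P (nat_lit 0)) (M (nat_lit 6178310966397108223))))) (T.h (P (nat_lit 0)) (T.h (T.h (P (nat_lit 0)) (M (nat_lit 10165924027084832767))) (P (nat_lit 0))))) (T.h (T.h (P (nat_lit 0)) (M (nat_lit 25474099469558480895))) (T.h (T.h (T.h (P (nat_lit 0)) (P (nat_lit 287420047758983168))) (P (nat_lit 0))) (P (nat_lit 0)))))), (P (nat_lit 0)), (P (nat_lit 0)), (T.h (T.h (T.h (P (nat_lit 0)) (T.h (P (nat_lit 0)) (T.h (P (nat_lit 0)) (T.h (P (nat_lit 0)) (T.h (P (nat_lit 0)) (M (nat_lit 1517611902173183))))))) (T.h (P (nat_lit 0)) (T.h (T.h (P (nat_lit 0)) (T.h (M (nat_lit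 393394788669509861375)) (T.h (P (nat_lit 0)) (M (nat_lit 6466019186049023))))) (T.h (P (nat_lit 0)) (T.h (T.h (P (nat_lit 0)) (M (nat_lit 9592676862263295))) (P (nat_lit 0))))))) (T.h (T.h (P (nat_lit 0)) (T.h (T.h (P (nat_lit 4522944407224301738000384)) (T.h (P (nat_lit 0)) (M (nat_lit 20828737242849607679)))) (T.h (P (nat_lit 0)) (P (nat_lit 4169824286824988672))))) (T.h (T.h (T.h (P (nat_lit 0)) (T.h (M (nat_lit 393394788669509861375)) (T.h (P (nat_lit 0)) (M (nat_lit 6466019186049023))))) (T.h (P (nat_lit 0)) (T.h (T.h (P (nat_lit 0)) (M (nat_lit 2885507989110783))) (P (nat_lit 0))))) (T.h (T.h (P (nat_lit 0)) (P (nat_lit 4169824286824988672))) (T.h (T.h (T.h (P (nat_lit 0)) (M (nat_lit 9592676862263295))) (P (nat_lit 0))) (P (nat_lit 0))))))), (T.h (T.h (T.h (P (nat_lit 2172901658626308867120382869504)) (T.h (P (nat_lit 0)) (T.h (P (nat_lit 7307570208912929812643840)) (T.h (P (nat_lit 0)) (P (nat_lit 14810173141883551744)))))) (T.h (P (nat_lit 0)) (T.h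 (T.h (M (nat_lit 6297130738538266463567871)) (T.h (P (nat_lit 0)) (M (nat_lit 80266014916329078783)))) (T.h (P (nat_lit 0)) (P (nat_lit 12232929879535910912)))))) (T.h (T.h (P (nat_lit 0)) (T.h (T.h (P (nat_lit 0)) (T.h (M (nat_lit 27147433252628683816959)) (T.h (P (nat_lit 0)) (P (nat_lit 40286892671303680))))) (T.h (P (nat_lit 0)) (T.h (T.h (P (nat_lit 0)) (P (nat_lit 22913739071815680))) (P (nat_lit 0)))))) (T.h (T.h (T.h (M (nat_lit 18595559493076108607225855)) (T.h (P (nat_lit 0)) (M (nat_lit 16302925201312579583)))) (T.h (P (nat_lit 0)) (P (nat_lit 31397850390422618112)))) (T.h (T.h (P (nat_lit 0)) (T.h (T.h (P (nat_lit 0)) (M (nat_lit 32196628729430015))) (P (nat_lit 0)))) (P (nat_lit 14302589763541008384)))))), (T.h (T.h (T.h (P (nat_lit 0)) (T.h (M (nat_lit 4865143931512019742722359295)) (T.h (P (nat_lit 0)) (T.h (M (nat_lit 8745564178652984246271)) (T.h (P (nat_lit 0)) (P (nat_lit 1944089406472192))))))) (T.h (P (nat_lit 0)) (T.h (T.h (P (nat_lit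 0)) (T.h (P (nat_lit 26712386562715379826688)) (T.h (P (nat_lit 0)) (P (nat_lit 23785446772441088))))) (T.h (P (nat_lit 0)) (T.h (T.h (P (nat_lit 0)) (P (nat_lit 9729628367814656))) (P (nat_lit 0))))))) (T.h (T.h (P (nat_lit 0)) (T.h (T.h (P (nat_lit 13075810249838208814678016)) (T.h (P (nat_lit 0)) (P (nat_lit 48636823786003365888)))) (T.h (P (nat_lit 0)) (P (nat_lit 10416561284773314560))))) (T.h (T.h (T.h (P (nat_lit 0)) (T.h (P (nat_lit 26712386562715379826688)) (T.h (P (nat_lit 0)) (P (nat_lit 23785446772441088))))) (T.h (P (nat_lit 0)) (T.h (T.h (P (nat_lit 0)) (P (nat_lit 15713127575584768))) (P (nat_lit 0))))) (T.h (T.h (P (nat_lit 0)) (P (nat_lit 10416561284773314560))) (T.h (T.h (T.h (P (nat_lit 0)) (P (nat_lit 9729628367814656))) (P (nat_lit 0))) (P (nat_lit 0))))))), (T.h (T.h (T.h (M (nat_lit 2001138384869827064950010413055)) (T.h (P (nat_lit 0)) (T.h (P (nat_lit 3021525689518643465945088)) (T.h (P (nat_lit 0)) (M (nat_lit 11402494650829766655))))))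 (T.h (P (nat_lit 0)) (T.h (T.h (P (nat_lit 18697361475644574801068032)) (T.h (P (nat_lit 0)) (P (nat_lit 47436507338491559936)))) (T.h (P (nat_lit 0)) (M (nat_lit 18379318725514887167)))))) (T.h (T.h (P (nat_lit 0)) (T.h (T.h (P (nat_lit 0)) (T.h (M (nat_lit 18792191774930400968703)) (T.h (P (nat_lit 0)) (P (nat_lit 4787447241768960))))) (T.h (P (nat_lit 0)) (T.h (T.h (P (nat_lit 0)) (P (nat_lit 11297037564444672))) (P (nat_lit 0)))))) (T.h (T.h (T.h (P (nat_lit 18697361475644574801068032)) (T.h (P (nat_lit 0)) (P (nat_lit 47436507338491559936)))) (T.h (P (nat_lit 0)) (M (nat_lit 1044776055065280511)))) (T.h (T.h (P (nat_lit 0)) (T.h (T.h (P (nat_lit 0)) (P (nat_lit 11297037564444672))) (P (nat_lit 0)))) (M (nat_lit 18379318725514887167)))))), (T.h (T.h (T.h (P (nat_lit 0)) (T.h (P (nat_lit 2613273605147549987961307136)) (T.h (P (nat_lit 0)) (P (nat_lit 2747092652249212518400))))) (T.h (P (nat_lit 0)) (T.h (T.h (P (nat_lit 0)) (M (nat_lit 36272100889309380345855)))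 (P (nat_lit 0))))) (T.h (T.h (P (nat_lit 0)) (T.h (T.h (P (nat_lit 817752586518847605964800)) (T.h (P (nat_lit 0)) (M (nat_lit 12301045624127619071)))) (T.h (P (nat_lit 0)) (P (nat_lit 1364636026177323008))))) (T.h (T.h (T.h (P (nat_lit 0)) (M (nat_lit 36272100889309380345855))) (P (nat_lit 0))) (T.h (T.h (P (nat_lit 0)) (P (nat_lit 1364636026177323008))) (P (nat_lit 0))))))]
def lP11_11 : List (T ℤ) := [(P (nat_lit 0)), (T.h (T.h (P (nat_lit 0)) (T.h (T.h (P (nat_lit 0)) (T.h (P (nat_lit 0)) (T.h (M (nat_lit 393394788669509861375)) (T.h (P (nat_lit 0)) (M (nat_lit 9592676862263295)))))) (T.h (P (nat_lit 0)) (T.h (T.h (P (nat_lit 0)) (T.h (P (nat_lit 0)) (M (nat_lit 6466019186049023)))) (T.h (P (nat_lit 0)) (M (nat_lit 1517611902173183))))))) (T.h (T.h (T.h (P (nat_lit 0)) (T.h (P (nat_lit 4522944407224301738000384)) (T.h (P (nat_lit 0)) (P (nat_lit 4169824286824988672))))) (T.h (P (nat_lit 0)) (T.h (T.h (P (nat_lit 0)) (M (nat_lit 20828737242849607679)))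 (P (nat_lit 0))))) (T.h (T.h (P (nat_lit 0)) (T.h (T.h (M (nat_lit 393394788669509861375)) (T.h (P (nat_lit 0)) (M (nat_lit 2885507989110783)))) (T.h (P (nat_lit 0)) (M (nat_lit 6466019186049023))))) (T.h (T.h (T.h (P (nat_lit 0)) (P (nat_lit 4169824286824988672))) (P (nat_lit 0))) (T.h (T.h (P (nat_lit 0)) (M (nat_lit 9592676862263295))) (P (nat_lit 0))))))), (T.h (T.h (P (nat_lit 0)) (T.h (T.h (P (nat_lit 0)) (T.h (M (nat_lit 38685949959920147863961599)) (T.h (P (nat_lit 0)) (M (nat_lit 11553737432293703679))))) (T.h (P (nat_lit 0)) (T.h (T.h (P (nat_lit 0)) (M (nat_lit 34114175090991038463))) (P (nat_lit 0)))))) (T.h (T.h (T.h (P (nat_lit 39693271727488054299933540352)) (T.h (P (nat_lit 0)) (T.h (M (nat_lit 19299222592263443972095)) (T.h (P (nat_lit 0)) (P (nat_lit 12994727653670912)))))) (T.h (P (nat_lit 0)) (T.h (T.h (M (nat_lit 12139391851846667599871)) (T.h (P (nat_lit 0)) (P (nat_lit 80522866575802368)))) (T.h (P (nat_lit 0)) (P (nat_lit 19704229713543168))))))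 (T.h (T.h (P (nat_lit 0)) (T.h (T.h (P (nat_lit 0)) (P (nat_lit 46056362005355298816))) (P (nat_lit 0)))) (T.h (T.h (T.h (P (nat_lit 1600137620552457125888)) (T.h (P (nat_lit 0)) (P (nat_lit 3756373281210368)))) (T.h (P (nat_lit 0)) (P (nat_lit 279660247908352)))) (T.h (P (nat_lit 0)) (M (nat_lit 6003141117739007))))))), (T.h (T.h (P (nat_lit 0)) (T.h (T.h (P (nat_lit 8894116918151559282853675008)) (T.h (P (nat_lit 0)) (T.h (P (nat_lit 33722942832664821891072)) (T.h (P (nat_lit 0)) (P (nat_lit 16085244215427072)))))) (T.h (P (nat_lit 0)) (T.h (T.h (M (nat_lit 20519660205683568017407)) (T.h (P (nat_lit 0)) (P (nat_lit 29997582427947008)))) (P (nat_lit 0)))))) (T.h (T.h (T.h (P (nat_lit 0)) (T.h (P (nat_lit 8907670941466001565286400)) (T.h (P (nat_lit 0)) (M (nat_lit 32850290879351488511))))) (T.h (P (nat_lit 0)) (T.h (T.h (P (nat_lit 0)) (M (nat_lit 28954702120136736767))) (P (nat_lit 0))))) (T.h (T.h (P (nat_lit 0)) (T.h (T.h (M (nat_lit 16248505565719696506879))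 (T.h (P (nat_lit 0)) (P (nat_lit 29603302290817024)))) (T.h (P (nat_lit 0)) (P (nat_lit 9334012262744064))))) (T.h (T.h (T.h (P (nat_lit 0)) (M (nat_lit 10157880130408546303))) (P (nat_lit 0))) (T.h (T.h (P (nat_lit 0)) (P (nat_lit 13110701554270208))) (P (nat_lit 0))))))), (T.h (T.h (P (nat_lit 0)) (T.h (T.h (P (nat_lit 0)) (T.h (P (nat_lit 45673022778121750688301056)) (T.h (P (nat_lit 0)) (P (nat_lit 14253265884922511360))))) (T.h (P (nat_lit 0)) (T.h (T.h (P (nat_lit 0)) (M (nat_lit 31704313535716655103))) (P (nat_lit 0)))))) (T.h (T.h (T.h (M (nat_lit 58563857056695683991302307839)) (T.h (P (nat_lit 0)) (T.h (P (nat_lit 3843571414089190080512)) (T.h (P (nat_lit 0)) (M (nat_lit 4687499992301567)))))) (T.h (P (nat_lit 0)) (T.h (T.h (P (nat_lit 8108657485441017053184)) (T.h (P (nat_lit 0)) (M (nat_lit 48455648891830271)))) (T.h (P (nat_lit 0)) (M (nat_lit 7276835205611519)))))) (T.h (T.h (P (nat_lit 0)) (T.h (T.h (P (nat_lit 0)) (M (nat_lit 32711687646010671103)))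 (P (nat_lit 0)))) (T.h (T.h (T.h (M (nat_lit 17225768161661578903551)) (T.h (P (nat_lit 0)) (P (nat_lit 17216402791464960)))) (T.h (P (nat_lit 0)) (M (nat_lit 174287233941503)))) (T.h (P (nat_lit 0)) (M (nat_lit 3720088609357823))))))), (T.h (T.h (P (nat_lit 0)) (T.h (T.h (M (nat_lit 19472614965897669399187292159)) (T.h (P (nat_lit 0)) (M (nat_lit 102025982773308359180287)))) (T.h (P (nat_lit 0)) (P (nat_lit 21163988139213750009856))))) (T.h (T.h (T.h (P (nat_lit 0)) (T.h (P (nat_lit 9533650392968229510184960)) (T.h (P (nat_lit 0)) (P (nat_lit 4261631954979389440))))) (T.h (P (nat_lit 0)) (T.h (T.h (P (nat_lit 0)) (P (nat_lit 21510889844164788224))) (P (nat_lit 0))))) (T.h (T.h (P (nat_lit 0)) (P (nat_lit 455310933304797036544))) (T.h (T.h (T.h (P (nat_lit 0)) (M (nat_lit 18196777769839362047))) (P (nat_lit 0))) (P (nat_lit 0)))))), (T.h (T.h (T.h (P (nat_lit 0)) (T.h (P (nat_lit 2442310398557518728414625792)) (T.h (P (nat_lit 0)) (T.h (P (nat_lit 3679752308041006972928))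 (T.h (P (nat_lit 0)) (M (nat_lit 11815390019583))))))) (T.h (P (nat_lit 0)) (T.h (T.h (P (nat_lit 0)) (T.h (P (nat_lit 10983023708140231196672)) (T.h (P (nat_lit 0)) (M (nat_lit 1039951104770047))))) (T.h (P (nat_lit 0)) (T.h (T.h (P (nat_lit 0)) (M (nat_lit 664208017784831))) (P (nat_lit 0))))))) (T.h (T.h (P (nat_lit 0)) (T.h (T.h (M (nat_lit 14280217490853106859114495)) (T.h (P (nat_lit 0)) (P (nat_lit 3565072346572128256)))) (T.h (P (nat_lit 0)) (M (nat_lit 5463924327831306239))))) (T.h (T.h (T.h (P (nat_lit 0)) (T.h (M (nat_lit 3047215125714868109311)) (T.h (P (nat_lit 0)) (P (nat_lit 140431119548416))))) (T.h (P (nat_lit 0)) (T.h (T.h (P (nat_lit 0)) (P (nat_lit 3547622079004672))) (P (nat_lit 0))))) (T.h (T.h (P (nat_lit 0)) (P (nat_lit 3431769517741572096))) (T.h (T.h (T.h (P (nat_lit 0)) (M (nat_lit 1626567914815487))) (P (nat_lit 0))) (P (nat_lit 0))))))), (T.h (T.h (T.h (P (nat_lit 1010262057425128725540505649152)) (T.h (P (nat_lit 0)) (T.h (M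 (nat_lit 18926181072577156459003903)) (T.h (P (nat_lit 0)) (P (nat_lit 18314824017116135424)))))) (T.h (P (nat_lit 0)) (T.h (T.h (M (nat_lit 1587901206242065085628415)) (T.h (P (nat_lit 0)) (M (nat_lit 47841265680042164223)))) (T.h (P (nat_lit 0)) (P (nat_lit 10463980613563056128)))))) (T.h (T.h (P (nat_lit 0)) (T.h (T.h (P (nat_lit 0)) (T.h (P (nat_lit 18923239735702092513280)) (T.h (P (nat_lit 0)) (M (nat_lit 5925133438943231))))) (T.h (P (nat_lit 0)) (T.h (T.h (P (nat_lit 0)) (M (nat_lit 3989539368140799))) (P (nat_lit 0)))))) (T.h (T.h (T.h (M (nat_lit 18133991237298837331640319)) (T.h (P (nat_lit 0)) (P (nat_lit 2591826363434401792)))) (T.h (P (nat_lit 0)) (M (nat_lit 53148215490950201343)))) (T.h (T.h (P (nat_lit 0)) (T.h (T.h (P (nat_lit 0)) (M (nat_lit 12903262501797887))) (P (nat_lit 0)))) (P (nat_lit 19614236116892254208))))))]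
def lP11_12 : List (T ℤ) := [(T.h (T.h (T.h (P (nat_lit 0)) (T.h (P (nat_lit 8894116918151559282853675008)) (T.h (P (nat_lit 0)) (M (nat_lit 20519660205683568017407))))) (T.h (P (nat_lit 0)) (T.h (T.h (P (nat_lit 0)) (T.h (P (nat_lit 33722942832664821891072)) (T.h (P (nat_lit 0)) (P (nat_lit 29997582427947008))))) (T.h (P (nat_lit 0)) (T.h (T.h (P (nat_lit 0)) (P (nat_lit 16085244215427072))) (P (nat_lit 0))))))) (T.h (T.h (P (nat_lit 0)) (T.h (T.h (P (nat_lit 8907670941466001565286400)) (T.h (P (nat_lit 0)) (M (nat_lit 28954702120136736767)))) (T.h (P (nat_lit 0)) (M (nat_lit 32850290879351488511))))) (T.h (T.h (T.h (P (nat_lit 0)) (T.h (M (nat_lit 16248505565719696506879)) (T.h (P (nat_lit 0)) (P (nat_lit 9334012262744064))))) (T.h (P (nat_lit 0)) (T.h (T.h (P (nat_lit 0)) (P (nat_lit 29603302290817024))) (P (nat_lit 0))))) (T.h (T.h (P (nat_lit 0)) (M (nat_lit 10157880130408546303))) (T.h (T.h (T.h (P (nat_lit 0)) (P (nat_lit 13110701554270208))) (P (nat_lit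 0))) (P (nat_lit 0))))))), (T.h (T.h (T.h (M (nat_lit 10032244771051151039943298514943)) (T.h (P (nat_lit 0)) (T.h (P (nat_lit 13504962133677822730829824)) (T.h (P (nat_lit 0)) (M (nat_lit 33094276176383311871)))))) (T.h (P (nat_lit 0)) (T.h (T.h (P (nat_lit 13504962133677822730829824)) (T.h (P (nat_lit 0)) (P (nat_lit 117064877601634385920)))) (T.h (P (nat_lit 0)) (M (nat_lit 33094276176383311871)))))) (T.h (T.h (P (nat_lit 0)) (T.h (T.h (P (nat_lit 0)) (T.h (M (nat_lit 55476096322105958727679)) (T.h (P (nat_lit 0)) (P (nat_lit 13804903992459264))))) (T.h (P (nat_lit 0)) (T.h (T.h (P (nat_lit 0)) (P (nat_lit 13804903992459264))) (P (nat_lit 0)))))) (T.h (T.h (T.h (P (nat_lit 48053906595039940370759680)) (T.h (P (nat_lit 0)) (M (nat_lit 19068183177919987711)))) (T.h (P (nat_lit 0)) (M (nat_lit 19068183177919987711)))) (T.h (T.h (P (nat_lit 0)) (T.h (T.h (P (nat_lit 0)) (P (nat_lit 58462027903008768))) (P (nat_lit 0)))) (M (nat_lit 8662364521584656383)))))),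 (T.h (T.h (T.h (P (nat_lit 0)) (T.h (M (nat_lit 6000969113615189185396735999)) (T.h (P (nat_lit 0)) (P (nat_lit 24438338849772933218304))))) (T.h (P (nat_lit 0)) (T.h (T.h (P (nat_lit 0)) (M (nat_lit 111759690933996743557119))) (P (nat_lit 0))))) (T.h (T.h (P (nat_lit 0)) (T.h (T.h (P (nat_lit 6083335303084980110884864)) (T.h (P (nat_lit 0)) (M (nat_lit 4310567372663554047)))) (T.h (P (nat_lit 0)) (P (nat_lit 1415962012927655936))))) (T.h (P (nat_lit 0)) (T.h (T.h (P (nat_lit 0)) (M (nat_lit 8285720689671929855))) (P (nat_lit 0)))))), (T.h (T.h (P (nat_lit 0)) (T.h (T.h (P (nat_lit 0)) (T.h (M (nat_lit 4592128168771611640463359)) (T.h (P (nat_lit 0)) (P (nat_lit 12066641941316501504))))) (T.h (P (nat_lit 0)) (T.h (T.h (P (nat_lit 0)) (M (nat_lit 5200259580440870911))) (P (nat_lit 0)))))) (T.h (T.h (T.h (P (nat_lit 24067662906614286825688137728)) (T.h (P (nat_lit 0)) (T.h (P (nat_lit 5408711284310665068544)) (T.h (P (nat_lit 0)) (P (nat_lit 2991378617303040))))))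 (T.h (P (nat_lit 0)) (T.h (T.h (P (nat_lit 12267667912468654456832)) (T.h (P (nat_lit 0)) (P (nat_lit 6813190638010368)))) (T.h (P (nat_lit 0)) (M (nat_lit 9588080211820543)))))) (T.h (T.h (P (nat_lit 0)) (T.h (T.h (P (nat_lit 0)) (M (nat_lit 7048978185093906431))) (P (nat_lit 0)))) (T.h (T.h (T.h (P (nat_lit 2371971797410874654720)) (T.h (P (nat_lit 0)) (P (nat_lit 2962096402432000)))) (T.h (P (nat_lit 0)) (M (nat_lit 2413907610566655)))) (T.h (P (nat_lit 0)) (P (nat_lit 2681142573465600))))))), (T.h (T.h (P (nat_lit 0)) (T.h (T.h (M (nat_lit 4865143931512019742722359295)) (T.h (P (nat_lit 0)) (T.h (P (nat_lit 26712386562715379826688)) (T.h (P (nat_lit 0)) (P (nat_lit 9729628367814656)))))) (T.h (P (nat_lit 0)) (T.h (T.h (M (nat_lit 8745564178652984246271)) (T.h (P (nat_lit 0)) (P (nat_lit 23785446772441088)))) (T.h (P (nat_lit 0)) (P (nat_lit 1944089406472192))))))) (T.h (T.h (T.h (P (nat_lit 0)) (T.h (P (nat_lit 13075810249838208814678016)) (T.h (P (nat_lit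 0)) (P (nat_lit 10416561284773314560))))) (T.h (P (nat_lit 0)) (T.h (T.h (P (nat_lit 0)) (P (nat_lit 48636823786003365888))) (P (nat_lit 0))))) (T.h (T.h (P (nat_lit 0)) (T.h (T.h (P (nat_lit 26712386562715379826688)) (T.h (P (nat_lit 0)) (P (nat_lit 15713127575584768)))) (T.h (P (nat_lit 0)) (P (nat_lit 23785446772441088))))) (T.h (T.h (T.h (P (nat_lit 0)) (P (nat_lit 10416561284773314560))) (P (nat_lit 0))) (T.h (T.h (P (nat_lit 0)) (P (nat_lit 9729628367814656))) (P (nat_lit 0))))))), (T.h (T.h (P (nat_lit 0)) (T.h (T.h (P (nat_lit 0)) (T.h (P (nat_lit 45673022778121750688301056)) (T.h (P (nat_lit 0)) (M (nat_lit 31704313535716655103))))) (T.h (P (nat_lit 0)) (T.h (T.h (P (nat_lit 0)) (P (nat_lit 14253265884922511360))) (P (nat_lit 0)))))) (T.h (T.h (T.h (M (nat_lit 58563857056695683991302307839)) (T.h (P (nat_lit 0)) (T.h (P (nat_lit 8108657485441017053184)) (T.h (P (nat_lit 0)) (M (nat_lit 7276835205611519)))))) (T.h (P (nat_lit 0)) (T.h (T.h (P (nat_lit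 3843571414089190080512)) (T.h (P (nat_lit 0)) (M (nat_lit 48455648891830271)))) (T.h (P (nat_lit 0)) (M (nat_lit 4687499992301567)))))) (T.h (T.h (P (nat_lit 0)) (T.h (T.h (P (nat_lit 0)) (M (nat_lit 32711687646010671103))) (P (nat_lit 0)))) (T.h (T.h (T.h (M (nat_lit 17225768161661578903551)) (T.h (P (nat_lit 0)) (M (nat_lit 174287233941503)))) (T.h (P (nat_lit 0)) (P (nat_lit 17216402791464960)))) (T.h (P (nat_lit 0)) (M (nat_lit 3720088609357823))))))), (T.h (T.h (P (nat_lit 0)) (T.h (T.h (M (nat_lit 6000969113615189185396735999)) (T.h (P (nat_lit 0)) (M (nat_lit 111759690933996743557119)))) (T.h (P (nat_lit 0)) (P (nat_lit 24438338849772933218304))))) (T.h (T.h (T.h (P (nat_lit 0)) (T.h (P (nat_lit 6083335303084980110884864)) (T.h (P (nat_lit 0)) (P (nat_lit 1415962012927655936))))) (T.h (P (nat_lit 0)) (T.h (T.h (P (nat_lit 0)) (M (nat_lit 4310567372663554047))) (P (nat_lit 0))))) (T.h (P (nat_lit 0)) (T.h (T.h (T.h (P (nat_lit 0)) (M (nat_lit 8285720689671929855)))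 (P (nat_lit 0))) (P (nat_lit 0)))))), (T.h (T.h (T.h (P (nat_lit 0)) (T.h (M (nat_lit 3147316493728592057340002303)) (T.h (P (nat_lit 0)) (T.h (M (nat_lit 4524051548051001573375)) (T.h (P (nat_lit 0)) (P (nat_lit 845034740580352))))))) (T.h (P (nat_lit 0)) (T.h (T.h (P (nat_lit 0)) (T.h (M (nat_lit 4041870850466806497279)) (T.h (P (nat_lit 0)) (P (nat_lit 822254790705152))))) (T.h (P (nat_lit 0)) (T.h (T.h (P (nat_lit 0)) (P (nat_lit 2925128420229120))) (P (nat_lit 0))))))) (T.h (T.h (P (nat_lit 0)) (T.h (T.h (P (nat_lit 16159129519095628567674880)) (T.h (P (nat_lit 0)) (P (nat_lit 14223229982607409152)))) (T.h (P (nat_lit 0)) (P (nat_lit 8662173632501383168))))) (T.h (T.h (T.h (P (nat_lit 0)) (T.h (P (nat_lit 835233424690865242112)) (T.h (P (nat_lit 0)) (M (nat_lit 652816732782591))))) (T.h (P (nat_lit 0)) (T.h (T.h (P (nat_lit 0)) (M (nat_lit 11975517620469759))) (P (nat_lit 0))))) (T.h (T.h (P (nat_lit 0)) (P (nat_lit 3256229217427259392))) (T.h (T.h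 (T.h (P (nat_lit 0)) (M (nat_lit 1036859366244351))) (P (nat_lit 0))) (P (nat_lit 0)))))))]
def lP11_13 : List (T ℤ) := [(T.h (T.h (T.h (M (nat_lit 2001138384869827064950010413055)) (T.h (P (nat_lit 0)) (T.h (P (nat_lit 18697361475644574801068032)) (T.h (P (nat_lit 0)) (M (nat_lit 18379318725514887167)))))) (T.h (P (nat_lit 0)) (T.h (T.h (P (nat_lit 3021525689518643465945088)) (T.h (P (nat_lit 0)) (P (nat_lit 47436507338491559936)))) (T.h (P (nat_lit 0)) (M (nat_lit 11402494650829766655)))))) (T.h (T.h (P (nat_lit 0)) (T.h (T.h (P (nat_lit 0)) (T.h (M (nat_lit 18792191774930400968703)) (T.h (P (nat_lit 0)) (P (nat_lit 11297037564444672))))) (T.h (P (nat_lit 0)) (T.h (T.h (P (nat_lit 0)) (P (nat_lit 4787447241768960))) (P (nat_lit 0)))))) (T.h (T.h (T.h (P (nat_lit 18697361475644574801068032)) (T.h (P (nat_lit 0)) (M (nat_lit 1044776055065280511)))) (T.h (P (nat_lit 0)) (P (nat_lit 47436507338491559936)))) (T.h (T.h (P (nat_lit 0)) (T.h (T.h (P (nat_lit 0))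 (P (nat_lit 11297037564444672))) (P (nat_lit 0)))) (M (nat_lit 18379318725514887167)))))), (T.h (T.h (T.h (P (nat_lit 0)) (T.h (M (nat_lit 19472614965897669399187292159)) (T.h (P (nat_lit 0)) (P (nat_lit 21163988139213750009856))))) (T.h (P (nat_lit 0)) (T.h (T.h (P (nat_lit 0)) (M (nat_lit 102025982773308359180287))) (P (nat_lit 0))))) (T.h (T.h (P (nat_lit 0)) (T.h (T.h (P (nat_lit 9533650392968229510184960)) (T.h (P (nat_lit 0)) (P (nat_lit 21510889844164788224)))) (T.h (P (nat_lit 0)) (P (nat_lit 4261631954979389440))))) (T.h (T.h (T.h (P (nat_lit 0)) (P (nat_lit 455310933304797036544))) (P (nat_lit 0))) (T.h (T.h (P (nat_lit 0)) (M (nat_lit 18196777769839362047))) (P (nat_lit 0)))))), (T.h (T.h (P (nat_lit 0)) (T.h (T.h (P (nat_lit 0)) (T.h (P (nat_lit 6699686972814614291546112)) (T.h (P (nat_lit 0)) (M (nat_lit 8771602870383411199))))) (T.h (P (nat_lit 0)) (T.h (T.h (P (nat_lit 0)) (P (nat_lit 5598175807563366400))) (P (nat_lit 0)))))) (T.h (T.h (T.h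 (M (nat_lit 23308674508616954859992645631)) (T.h (P (nat_lit 0)) (T.h (M (nat_lit 566177892511311200255)) (T.h (P (nat_lit 0)) (M (nat_lit 3523974070075391)))))) (T.h (P (nat_lit 0)) (T.h (T.h (M (nat_lit 6403020190384731979775)) (T.h (P (nat_lit 0)) (P (nat_lit 5418969469157376)))) (T.h (P (nat_lit 0)) (P (nat_lit 4525130102341632)))))) (T.h (T.h (P (nat_lit 0)) (T.h (T.h (P (nat_lit 0)) (P (nat_lit 7082019746996027392))) (P (nat_lit 0)))) (T.h (T.h (T.h (M (nat_lit 3679868749620923334655)) (T.h (P (nat_lit 0)) (M (nat_lit 599549196042239)))) (T.h (P (nat_lit 0)) (M (nat_lit 421025460584447)))) (T.h (P (nat_lit 0)) (M (nat_lit 1405125303336959))))))), (T.h (T.h (P (nat_lit 0)) (T.h (T.h (P (nat_lit 2613273605147549987961307136)) (T.h (P (nat_lit 0)) (M (nat_lit 36272100889309380345855)))) (T.h (P (nat_lit 0)) (P (nat_lit 2747092652249212518400))))) (T.h (T.h (T.h (P (nat_lit 0)) (T.h (P (nat_lit 817752586518847605964800)) (T.h (P (nat_lit 0)) (P (nat_lit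 1364636026177323008))))) (T.h (P (nat_lit 0)) (T.h (T.h (P (nat_lit 0)) (M (nat_lit 12301045624127619071))) (P (nat_lit 0))))) (T.h (T.h (P (nat_lit 0)) (M (nat_lit 36272100889309380345855))) (T.h (T.h (T.h (P (nat_lit 0)) (P (nat_lit 1364636026177323008))) (P (nat_lit 0))) (P (nat_lit 0)))))), (T.h (T.h (T.h (P (nat_lit 0)) (T.h (M (nat_lit 279908450380878969705594879)) (T.h (P (nat_lit 0)) (P (nat_lit 2829812515106405220352))))) (T.h (P (nat_lit 0)) (T.h (T.h (P (nat_lit 0)) (M (nat_lit 9901917847013963071487))) (P (nat_lit 0))))) (T.h (T.h (P (nat_lit 0)) (T.h (T.h (P (nat_lit 2424682419920877020774400)) (T.h (P (nat_lit 0)) (M (nat_lit 10165924027084832767)))) (T.h (P (nat_lit 0)) (M (nat_lit 6178310966397108223))))) (T.h (T.h (T.h (P (nat_lit 0)) (M (nat_lit 25474099469558480895))) (P (nat_lit 0))) (T.h (T.h (P (nat_lit 0)) (P (nat_lit 287420047758983168))) (P (nat_lit 0)))))), (M (nat_lit 4410501400340933843783516159999)), (P (nat_lit 0)), (P (nat_lit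 0))]
def lP11_14 : List (T ℤ) := [(T.h (T.h (T.h (M (nat_lit 470961987125908346733519175679)) (T.h (P (nat_lit 0)) (T.h (P (nat_lit 57899600867765543501824)) (T.h (P (nat_lit 0)) (M (nat_lit 846434129254809599)))))) (T.h (P (nat_lit 0)) (T.h (T.h (M (nat_lit 1942057638129030519586815)) (T.h (P (nat_lit 0)) (P (nat_lit 1192941709491699712)))) (T.h (P (nat_lit 0)) (M (nat_lit 3371299736341446655)))))) (T.h (T.h (P (nat_lit 0)) (T.h (T.h (P (nat_lit 0)) (T.h (P (nat_lit 538075358818507685888)) (T.h (P (nat_lit 0)) (M (nat_lit 1583080657387519))))) (T.h (P (nat_lit 0)) (T.h (T.h (P (nat_lit 0)) (M (nat_lit 598511274688511))) (P (nat_lit 0)))))) (T.h (T.h (T.h (M (nat_lit 1942057638129030519586815)) (T.h (P (nat_lit 0)) (P (nat_lit 1192941709491699712)))) (T.h (P (nat_lit 0)) (M (nat_lit 556449493575270399)))) (T.h (T.h (P (nat_lit 0)) (T.h (T.h (P (nat_lit 0)) (M (nat_lit 598511274688511))) (P (nat_lit 0)))) (M (nat_lit 3371299736341446655)))))), (T.h (T.h (T.h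 (P (nat_lit 0)) (T.h (P (nat_lit 0)) (T.h (P (nat_lit 0)) (T.h (P (nat_lit 1386797677371080048640)) (T.h (P (nat_lit 0)) (M (nat_lit 520789253947391))))))) (T.h (P (nat_lit 0)) (T.h (T.h (P (nat_lit 0)) (T.h (P (nat_lit 1277770570003986251776)) (T.h (P (nat_lit 0)) (M (nat_lit 3212398805352447))))) (T.h (P (nat_lit 0)) (T.h (T.h (P (nat_lit 0)) (P (nat_lit 250554719240192))) (P (nat_lit 0))))))) (T.h (T.h (P (nat_lit 0)) (T.h (T.h (M (nat_lit 820044288225231356559359)) (T.h (P (nat_lit 0)) (P (nat_lit 1945289511797784576)))) (T.h (P (nat_lit 0)) (P (nat_lit 1172922028869550080))))) (T.h (T.h (T.h (P (nat_lit 0)) (T.h (M (nat_lit 1277770570003986251775)) (T.h (P (nat_lit 0)) (P (nat_lit 3212398805352448))))) (T.h (P (nat_lit 0)) (T.h (T.h (P (nat_lit 0)) (M (nat_lit 9472520804892671))) (P (nat_lit 0))))) (T.h (T.h (P (nat_lit 0)) (M (nat_lit 1172922028869550079))) (T.h (T.h (T.h (P (nat_lit 0)) (M (nat_lit 250554719240191))) (P (nat_lit 0))) (P (nat_lit 0))))))),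 (T.h (T.h (T.h (P (nat_lit 5874464779828831870272703299584)) (T.h (P (nat_lit 0)) (T.h (M (nat_lit 1408964967221915887337471)) (T.h (P (nat_lit 0)) (P (nat_lit 2917492293147557888)))))) (T.h (P (nat_lit 0)) (T.h (T.h (P (nat_lit 1789014615482866992152576)) (T.h (P (nat_lit 0)) (P (nat_lit 1418544840500576256)))) (T.h (P (nat_lit 0)) (P (nat_lit 2729902727365656576)))))) (T.h (T.h (P (nat_lit 0)) (T.h (T.h (P (nat_lit 0)) (T.h (P (nat_lit 101896397878233923584)) (T.h (P (nat_lit 0)) (P (nat_lit 2216312920342528))))) (P (nat_lit 0)))) (T.h (T.h (T.h (P (nat_lit 1789014615482866992152576)) (T.h (P (nat_lit 0)) (P (nat_lit 1418544840500576256)))) (T.h (P (nat_lit 0)) (P (nat_lit 2005410347908857856)))) (T.h (P (nat_lit 0)) (P (nat_lit 2729902727365656576)))))), (T.h (T.h (T.h (P (nat_lit 0)) (T.h (P (nat_lit 0)) (T.h (P (nat_lit 0)) (T.h (M (nat_lit 1386797677371080048639)) (T.h (P (nat_lit 0)) (P (nat_lit 520789253947392))))))) (P (nat_lit 0))) (T.h (T.h (P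 (nat_lit 0)) (T.h (T.h (P (nat_lit 820044288225231356559360)) (T.h (P (nat_lit 0)) (M (nat_lit 1945289511797784575)))) (P (nat_lit 0)))) (T.h (T.h (P (nat_lit 0)) (T.h (P (nat_lit 0)) (T.h (T.h (P (nat_lit 0)) (P (nat_lit 9472520804892672))) (P (nat_lit 0))))) (P (nat_lit 0))))), (T.h (T.h (T.h (P (nat_lit 0)) (T.h (P (nat_lit 0)) (T.h (P (nat_lit 0)) (T.h (P (nat_lit 0)) (M (nat_lit 888813660070215679)))))) (P (nat_lit 0))) (T.h (P (nat_lit 0)) (T.h (T.h (P (nat_lit 0)) (T.h (P (nat_lit 0)) (M (nat_lit 3233287101403365375)))) (P (nat_lit 0))))), (P (nat_lit 0)), (P (nat_lit 0)), (T.h (T.h (P (nat_lit 0)) (T.h (T.h (P (nat_lit 0)) (T.h (M (nat_lit 14280217490853106859114495)) (T.h (P (nat_lit 0)) (M (nat_lit 5463924327831306239))))) (T.h (P (nat_lit 0)) (T.h (T.h (P (nat_lit 0)) (P (nat_lit 3431769517741572096))) (P (nat_lit 0)))))) (T.h (T.h (T.h (P (nat_lit 2442310398557518728414625792)) (T.h (P (nat_lit 0)) (T.h (P (nat_lit 10983023708140231196672)) (T.h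 (P (nat_lit 0)) (M (nat_lit 664208017784831)))))) (T.h (P (nat_lit 0)) (T.h (T.h (M (nat_lit 3047215125714868109311)) (T.h (P (nat_lit 0)) (P (nat_lit 3547622079004672)))) (T.h (P (nat_lit 0)) (M (nat_lit 1626567914815487)))))) (T.h (T.h (P (nat_lit 0)) (T.h (T.h (P (nat_lit 0)) (P (nat_lit 3565072346572128256))) (P (nat_lit 0)))) (T.h (T.h (T.h (P (nat_lit 3679752308041006972928)) (T.h (P (nat_lit 0)) (M (nat_lit 1039951104770047)))) (T.h (P (nat_lit 0)) (P (nat_lit 140431119548416)))) (T.h (P (nat_lit 0)) (M (nat_lit 11815390019583)))))))]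
def lP11_15 : List (T ℤ) := [(T.h (T.h (P (nat_lit 0)) (T.h (T.h (P (nat_lit 22212443436440339672616402944)) (T.h (P (nat_lit 0)) (T.h (M (nat_lit 650868203350780805119)) (T.h (P (nat_lit 0)) (M (nat_lit 5862949325078527)))))) (T.h (P (nat_lit 0)) (T.h (T.h (P (nat_lit 5587234294597026840576)) (T.h (P (nat_lit 0)) (M (nat_lit 15027371136778239)))) (T.h (P (nat_lit 0)) (P (nat_lit 4293038005878784))))))) (T.h (T.h (T.h (P (nat_lit 0)) (T.h (P (nat_lit 7635818693151528446853120)) (T.h (P (nat_lit 0)) (M (nat_lit 18711846820710973439))))) (T.h (P (nat_lit 0)) (T.h (T.h (P (nat_lit 0)) (P (nat_lit 28699690470066880512))) (P (nat_lit 0))))) (T.h (T.h (P (nat_lit 0)) (T.h (T.h (M (nat_lit 1118880798883495018495)) (T.h (P (nat_lit 0)) (P (nat_lit 10816180136968192)))) (T.h (P (nat_lit 0)) (P (nat_lit 2071230352359424))))) (T.h (T.h (T.h (P (nat_lit 0)) (P (nat_lit 22440819617605615616))) (P (nat_lit 0))) (T.h (T.h (P (nat_lit 0)) (P (nat_lit 1239783424032768)))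 (P (nat_lit 0))))))), (T.h (T.h (P (nat_lit 0)) (T.h (T.h (P (nat_lit 0)) (T.h (P (nat_lit 16159129519095628567674880)) (T.h (P (nat_lit 0)) (P (nat_lit 8662173632501383168))))) (T.h (P (nat_lit 0)) (T.h (T.h (P (nat_lit 0)) (P (nat_lit 3256229217427259392))) (P (nat_lit 0)))))) (T.h (T.h (T.h (M (nat_lit 3147316493728592057340002303)) (T.h (P (nat_lit 0)) (T.h (M (nat_lit 4041870850466806497279)) (T.h (P (nat_lit 0)) (P (nat_lit 2925128420229120)))))) (T.h (P (nat_lit 0)) (T.h (T.h (P (nat_lit 835233424690865242112)) (T.h (P (nat_lit 0)) (M (nat_lit 11975517620469759)))) (T.h (P (nat_lit 0)) (M (nat_lit 1036859366244351)))))) (T.h (T.h (P (nat_lit 0)) (T.h (T.h (P (nat_lit 0)) (P (nat_lit 14223229982607409152))) (P (nat_lit 0)))) (T.h (T.h (T.h (M (nat_lit 4524051548051001573375)) (T.h (P (nat_lit 0)) (P (nat_lit 822254790705152)))) (T.h (P (nat_lit 0)) (M (nat_lit 652816732782591)))) (T.h (P (nat_lit 0)) (P (nat_lit 845034740580352))))))), (T.h (T.h (P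 (nat_lit 0)) (T.h (T.h (M (nat_lit 23308674508616954859992645631)) (T.h (P (nat_lit 0)) (T.h (M (nat_lit 6403020190384731979775)) (T.h (P (nat_lit 0)) (P (nat_lit 4525130102341632)))))) (T.h (P (nat_lit 0)) (T.h (T.h (M (nat_lit 3679868749620923334655)) (T.h (P (nat_lit 0)) (M (nat_lit 421025460584447)))) (T.h (P (nat_lit 0)) (M (nat_lit 1405125303336959))))))) (T.h (T.h (T.h (P (nat_lit 0)) (T.h (P (nat_lit 6699686972814614291546112)) (T.h (P (nat_lit 0)) (P (nat_lit 5598175807563366400))))) (T.h (P (nat_lit 0)) (T.h (T.h (P (nat_lit 0)) (P (nat_lit 7082019746996027392))) (P (nat_lit 0))))) (T.h (T.h (P (nat_lit 0)) (T.h (T.h (M (nat_lit 566177892511311200255)) (T.h (P (nat_lit 0)) (P (nat_lit 5418969469157376)))) (T.h (P (nat_lit 0)) (M (nat_lit 599549196042239))))) (T.h (T.h (T.h (P (nat_lit 0)) (M (nat_lit 8771602870383411199))) (P (nat_lit 0))) (T.h (T.h (P (nat_lit 0)) (M (nat_lit 3523974070075391))) (P (nat_lit 0))))))), (T.h (T.h (P (nat_lit 0))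 (T.h (T.h (P (nat_lit 0)) (T.h (P (nat_lit 2424682419920877020774400)) (T.h (P (nat_lit 0)) (M (nat_lit 6178310966397108223))))) (T.h (P (nat_lit 0)) (T.h (T.h (P (nat_lit 0)) (P (nat_lit 287420047758983168))) (P (nat_lit 0)))))) (T.h (T.h (T.h (M (nat_lit 279908450380878969705594879)) (T.h (P (nat_lit 0)) (M (nat_lit 9901917847013963071487)))) (T.h (P (nat_lit 0)) (M (nat_lit 25474099469558480895)))) (T.h (T.h (P (nat_lit 0)) (T.h (T.h (P (nat_lit 0)) (M (nat_lit 10165924027084832767))) (P (nat_lit 0)))) (P (nat_lit 2829812515106405220352))))), (P (nat_lit 0)), (P (nat_lit 0)), (T.h (T.h (T.h (M (nat_lit 463082661980842549258724835327)) (T.h (P (nat_lit 0)) (T.h (M (nat_lit 7138030489572709089935359)) (T.h (P (nat_lit 0)) (P (nat_lit 1262528980880195584)))))) (T.h (P (nat_lit 0)) (T.h (T.h (M (nat_lit 3569015244786354544967679)) (T.h (P (nat_lit 0)) (M (nat_lit 35764575600459644927)))) (T.h (P (nat_lit 0)) (P (nat_lit 631264490440097792)))))) (T.h (T.h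 (P (nat_lit 0)) (T.h (T.h (P (nat_lit 0)) (T.h (M (nat_lit 73295308027691286921215)) (T.h (P (nat_lit 0)) (M (nat_lit 6986896867852287))))) (T.h (P (nat_lit 0)) (T.h (T.h (P (nat_lit 0)) (M (nat_lit 9968598032580607))) (P (nat_lit 0)))))) (T.h (T.h (T.h (M (nat_lit 3569015244786354544967679)) (T.h (P (nat_lit 0)) (M (nat_lit 35764575600459644927)))) (T.h (P (nat_lit 0)) (P (nat_lit 8471083428593270784)))) (T.h (T.h (P (nat_lit 0)) (T.h (T.h (P (nat_lit 0)) (M (nat_lit 9968598032580607))) (P (nat_lit 0)))) (P (nat_lit 631264490440097792)))))), (T.h (T.h (T.h (P (nat_lit 0)) (T.h (P (nat_lit 36827404734363630945095909376)) (T.h (P (nat_lit 0)) (T.h (P (nat_lit 2408687731472838164480)) (T.h (P (nat_lit 0)) (P (nat_lit 6805333705752576))))))) (T.h (P (nat_lit 0)) (T.h (T.h (P (nat_lit 0)) (T.h (M (nat_lit 34473863033374812143615)) (T.h (P (nat_lit 0)) (P (nat_lit 18318139055538176))))) (T.h (P (nat_lit 0)) (T.h (T.h (P (nat_lit 0)) (M (nat_lit 7997325290766335)))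 (P (nat_lit 0))))))) (T.h (T.h (P (nat_lit 0)) (T.h (T.h (P (nat_lit 57593690791621456694345728)) (T.h (P (nat_lit 0)) (M (nat_lit 90420078701805830143)))) (T.h (P (nat_lit 0)) (P (nat_lit 18518465322013425664))))) (T.h (T.h (T.h (P (nat_lit 0)) (T.h (M (nat_lit 34473863033374812143615)) (T.h (P (nat_lit 0)) (P (nat_lit 18318139055538176))))) (T.h (P (nat_lit 0)) (T.h (T.h (P (nat_lit 0)) (P (nat_lit 43429856734871552))) (P (nat_lit 0))))) (T.h (T.h (P (nat_lit 0)) (P (nat_lit 18518465322013425664))) (T.h (T.h (T.h (P (nat_lit 0)) (M (nat_lit 7997325290766335))) (P (nat_lit 0))) (P (nat_lit 0)))))))]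
def lP11_16 : List (T ℤ) := [(T.h (T.h (T.h (P (nat_lit 0)) (T.h (P (nat_lit 0)) (T.h (M (nat_lit 405297206074358804512767)) (T.h (P (nat_lit 0)) (M (nat_lit 6875946108435038207)))))) (T.h (P (nat_lit 0)) (T.h (T.h (P (nat_lit 12490453405460551285342208)) (T.h (P (nat_lit 0)) (P (nat_lit 38947021010189156352)))) (T.h (P (nat_lit 0)) (P (nat_lit 260137554890719232)))))) (T.h (T.h (P (nat_lit 0)) (T.h (T.h (P (nat_lit 0)) (T.h (P (nat_lit 81744665187243614273536)) (T.h (P (nat_lit 0)) (P (nat_lit 11740960915324928))))) (T.h (P (nat_lit 0)) (T.h (T.h (P (nat_lit 0)) (P (nat_lit 4189578922819584))) (P (nat_lit 0)))))) (T.h (T.h (T.h (P (nat_lit 12490453405460551285342208)) (T.h (P (nat_lit 0)) (P (nat_lit 38947021010189156352)))) (T.h (P (nat_lit 0)) (P (nat_lit 13780116475941486592)))) (T.h (T.h (P (nat_lit 0)) (T.h (T.h (P (nat_lit 0)) (P (nat_lit 4189578922819584))) (P (nat_lit 0)))) (P (nat_lit 260137554890719232)))))), (T.h (T.h (T.h (P (nat_lit 0)) (T.h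 (M (nat_lit 57189730009353027288318345215)) (T.h (P (nat_lit 0)) (M (nat_lit 10081087528192253624319))))) (T.h (P (nat_lit 0)) (T.h (T.h (P (nat_lit 0)) (T.h (M (nat_lit 12335828771327046582271)) (T.h (P (nat_lit 0)) (P (nat_lit 893433309954048))))) (T.h (P (nat_lit 0)) (T.h (T.h (P (nat_lit 0)) (P (nat_lit 5293842928041984))) (P (nat_lit 0))))))) (T.h (T.h (P (nat_lit 0)) (T.h (T.h (M (nat_lit 23932335472839684102553599)) (T.h (P (nat_lit 0)) (P (nat_lit 47114584690880675840)))) (T.h (P (nat_lit 0)) (M (nat_lit 1679286576560996351))))) (T.h (T.h (T.h (P (nat_lit 0)) (T.h (M (nat_lit 12335828771327046582271)) (T.h (P (nat_lit 0)) (P (nat_lit 893433309954048))))) (P (nat_lit 0))) (T.h (T.h (P (nat_lit 0)) (M (nat_lit 1679286576560996351))) (T.h (T.h (T.h (P (nat_lit 0)) (P (nat_lit 5293842928041984))) (P (nat_lit 0))) (P (nat_lit 0))))))), (T.h (T.h (T.h (P (nat_lit 29124324516498027555849836167168)) (T.h (P (nat_lit 0)) (T.h (P (nat_lit 10801270018741311387992064))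 (T.h (P (nat_lit 0)) (M (nat_lit 3089155483198554111)))))) (T.h (P (nat_lit 0)) (T.h (T.h (M (nat_lit 1114393738967648598753279)) (T.h (P (nat_lit 0)) (M (nat_lit 2333420549893521407)))) (T.h (P (nat_lit 0)) (P (nat_lit 1793965280842481664)))))) (T.h (T.h (P (nat_lit 0)) (T.h (T.h (P (nat_lit 0)) (M (nat_lit 29733054411735910318079))) (P (nat_lit 0)))) (T.h (T.h (T.h (M (nat_lit 1114393738967648598753279)) (T.h (P (nat_lit 0)) (M (nat_lit 2333420549893521407)))) (T.h (P (nat_lit 0)) (P (nat_lit 1227876753494507520)))) (T.h (P (nat_lit 0)) (P (nat_lit 1793965280842481664)))))), (P (nat_lit 0)), (T.h (T.h (P (nat_lit 0)) (T.h (T.h (P (nat_lit 0)) (T.h (M (nat_lit 9757273083628805121114111)) (T.h (P (nat_lit 0)) (P (nat_lit 7601593804566560768))))) (T.h (P (nat_lit 0)) (T.h (T.h (P (nat_lit 0)) (M (nat_lit 1294100041006317567))) (P (nat_lit 0)))))) (T.h (T.h (T.h (P (nat_lit 2442310398557518728414625792)) (T.h (P (nat_lit 0)) (T.h (M (nat_lit 3440609914384377970687))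 (T.h (P (nat_lit 0)) (M (nat_lit 11219244777078783)))))) (T.h (P (nat_lit 0)) (T.h (T.h (P (nat_lit 10589628919470721335296)) (T.h (P (nat_lit 0)) (P (nat_lit 662114089893888)))) (T.h (P (nat_lit 0)) (M (nat_lit 10256884880048127)))))) (T.h (T.h (P (nat_lit 0)) (T.h (T.h (P (nat_lit 0)) (M (nat_lit 17263664896277479423))) (P (nat_lit 0)))) (T.h (T.h (T.h (P (nat_lit 3679752308041006972928)) (T.h (P (nat_lit 0)) (M (nat_lit 6325588066500607)))) (T.h (P (nat_lit 0)) (M (nat_lit 7505970290819071)))) (T.h (P (nat_lit 0)) (M (nat_lit 1529427292192767))))))), (T.h (T.h (P (nat_lit 0)) (T.h (T.h (P (nat_lit 40139860161165513613557891072)) (T.h (P (nat_lit 0)) (T.h (P (nat_lit 3865137828342911729664)) (T.h (P (nat_lit 0)) (P (nat_lit 7329798222643200)))))) (T.h (P (nat_lit 0)) (T.h (T.h (P (nat_lit 28038403196071316553728)) (T.h (P (nat_lit 0)) (P (nat_lit 15176532827373568)))) (T.h (P (nat_lit 0)) (P (nat_lit 6142943814746112))))))) (T.h (T.h (T.h (P (nat_lit 0))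 (T.h (M (nat_lit 11934437532921410860613631)) (T.h (P (nat_lit 0)) (P (nat_lit 53826327935916703744))))) (T.h (P (nat_lit 0)) (T.h (T.h (P (nat_lit 0)) (M (nat_lit 58741640355209281535))) (P (nat_lit 0))))) (T.h (T.h (P (nat_lit 0)) (T.h (T.h (M (nat_lit 7617595123418036961279)) (T.h (P (nat_lit 0)) (P (nat_lit 60231746119663616)))) (T.h (P (nat_lit 0)) (M (nat_lit 5503358613258239))))) (T.h (T.h (T.h (P (nat_lit 0)) (P (nat_lit 66829192591726084096))) (P (nat_lit 0))) (T.h (T.h (P (nat_lit 0)) (M (nat_lit 1051252355235839))) (P (nat_lit 0))))))), (T.h (T.h (P (nat_lit 0)) (T.h (T.h (P (nat_lit 0)) (T.h (P (nat_lit 49450775449857293086097408)) (T.h (P (nat_lit 0)) (M (nat_lit 16728513253444943871))))) (T.h (P (nat_lit 0)) (T.h (T.h (P (nat_lit 0)) (P (nat_lit 5963897495497998336))) (P (nat_lit 0)))))) (T.h (T.h (T.h (P (nat_lit 11014239196389045818047332352)) (T.h (P (nat_lit 0)) (T.h (P (nat_lit 27325007336551519092736)) (T.h (P (nat_lit 0)) (P (nat_lit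 20078349551468544)))))) (T.h (P (nat_lit 0)) (T.h (T.h (M (nat_lit 22646441061832999305215)) (T.h (P (nat_lit 0)) (P (nat_lit 28816898590441472)))) (T.h (P (nat_lit 0)) (P (nat_lit 17103806890311680)))))) (T.h (T.h (P (nat_lit 0)) (T.h (T.h (P (nat_lit 0)) (M (nat_lit 37152445087875071999))) (P (nat_lit 0)))) (T.h (T.h (T.h (M (nat_lit 21872338475938247344127)) (T.h (P (nat_lit 0)) (P (nat_lit 32520620808732672)))) (T.h (P (nat_lit 0)) (P (nat_lit 11857050643529728)))) (P (nat_lit 0)))))), (T.h (T.h (P (nat_lit 0)) (T.h (T.h (M (nat_lit 111649379093656465572779524095)) (T.h (P (nat_lit 0)) (T.h (M (nat_lit 27426744506454353379327)) (T.h (P (nat_lit 0)) (P (nat_lit 5870692475731968)))))) (T.h (P (nat_lit 0)) (T.h (T.h (M (nat_lit 27468002392758531653631)) (T.h (P (nat_lit 0)) (P (nat_lit 27092150744973312)))) (T.h (P (nat_lit 0)) (M (nat_lit 4869430459957247))))))) (T.h (T.h (T.h (P (nat_lit 0)) (T.h (P (nat_lit 46251314475609081092505600)) (T.h (P (nat_lit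 0)) (M (nat_lit 3567356427091574783))))) (T.h (P (nat_lit 0)) (T.h (T.h (P (nat_lit 0)) (M (nat_lit 30486692495049621503))) (P (nat_lit 0))))) (T.h (T.h (P (nat_lit 0)) (T.h (T.h (P (nat_lit 16699597279558432194560)) (T.h (P (nat_lit 0)) (M (nat_lit 14393048313888767)))) (T.h (P (nat_lit 0)) (P (nat_lit 5402768076177408))))) (T.h (T.h (T.h (P (nat_lit 0)) (M (nat_lit 35245685555354140671))) (P (nat_lit 0))) (T.h (T.h (P (nat_lit 0)) (M (nat_lit 15736555481137151))) (P (nat_lit 0)))))))]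
def lP11_17 : List (T ℤ) := [(T.h (T.h (P (nat_lit 0)) (T.h (T.h (P (nat_lit 0)) (T.h (P (nat_lit 1839900546729946162135040)) (T.h (P (nat_lit 0)) (M (nat_lit 10259484591651815423))))) (T.h (P (nat_lit 0)) (T.h (T.h (P (nat_lit 0)) (M (nat_lit 29578823941652217855))) (P (nat_lit 0)))))) (T.h (T.h (T.h (M (nat_lit 24469419222045229835704336383)) (T.h (P (nat_lit 0)) (M (nat_lit 97729438629200058646527)))) (T.h (P (nat_lit 0)) (P (nat_lit 712339194485766356992)))) (T.h (T.h (P (nat_lit 0)) (T.h (T.h (P (nat_lit 0)) (M (nat_lit 1742512150376611839))) (P (nat_lit 0)))) (P (nat_lit 21863362471202775891968))))), (T.h (T.h (T.h (M (nat_lit 702503318116329621362881593343)) (T.h (P (nat_lit 0)) (T.h (M (nat_lit 1942057638129030519586815)) (T.h (P (nat_lit 0)) (M (nat_lit 3371299736341446655)))))) (T.h (P (nat_lit 0)) (T.h (T.h (M (nat_lit 3511115643918589001465855)) (T.h (P (nat_lit 0)) (P (nat_lit 5428483423788335104)))) (T.h (P (nat_lit 0)) (M (nat_lit 215169638814711807))))))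 (T.h (T.h (P (nat_lit 0)) (T.h (T.h (P (nat_lit 0)) (T.h (M (nat_lit 36109578655027135774719)) (T.h (P (nat_lit 0)) (M (nat_lit 7073660873342975))))) (T.h (P (nat_lit 0)) (T.h (T.h (P (nat_lit 0)) (M (nat_lit 5076529091313663))) (P (nat_lit 0)))))) (T.h (T.h (T.h (M (nat_lit 5511072882915385064554495)) (T.h (P (nat_lit 0)) (P (nat_lit 3679092220721364992)))) (T.h (P (nat_lit 0)) (M (nat_lit 38807175605264580607)))) (T.h (T.h (P (nat_lit 0)) (T.h (T.h (P (nat_lit 0)) (M (nat_lit 4091959708614655))) (P (nat_lit 0)))) (M (nat_lit 2740035245901348863)))))), (T.h (T.h (T.h (P (nat_lit 0)) (T.h (P (nat_lit 55221998949462974010054672384)) (T.h (P (nat_lit 0)) (T.h (P (nat_lit 27264164408173673840640)) (T.h (P (nat_lit 0)) (P (nat_lit 9150280330575872))))))) (T.h (P (nat_lit 0)) (T.h (T.h (P (nat_lit 0)) (T.h (P (nat_lit 5103117227019068243968)) (T.h (P (nat_lit 0)) (M (nat_lit 19685094694060031))))) (T.h (P (nat_lit 0)) (T.h (T.h (P (nat_lit 0)) (M (nat_lit 4466280403861503)))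 (P (nat_lit 0))))))) (T.h (T.h (P (nat_lit 0)) (T.h (T.h (M (nat_lit 60295914289474881959493631)) (T.h (P (nat_lit 0)) (M (nat_lit 9332677183400837119)))) (T.h (P (nat_lit 0)) (P (nat_lit 24319490141856989184))))) (T.h (T.h (T.h (P (nat_lit 0)) (T.h (P (nat_lit 4200788420264904884224)) (T.h (P (nat_lit 0)) (M (nat_lit 5479029165686783))))) (T.h (P (nat_lit 0)) (T.h (T.h (P (nat_lit 0)) (P (nat_lit 5572251070889984))) (P (nat_lit 0))))) (T.h (T.h (P (nat_lit 0)) (P (nat_lit 52521544886121398272))) (T.h (T.h (T.h (P (nat_lit 0)) (P (nat_lit 319159333519360))) (P (nat_lit 0))) (P (nat_lit 0))))))), (T.h (T.h (T.h (P (nat_lit 4862367950798846767216610770944)) (T.h (P (nat_lit 0)) (T.h (P (nat_lit 12224179581694546251087872)) (T.h (P (nat_lit 0)) (P (nat_lit 1724560837756059648)))))) (T.h (P (nat_lit 0)) (T.h (T.h (M (nat_lit 468922426803184436510719)) (T.h (P (nat_lit 0)) (P (nat_lit 26759356300073631744)))) (T.h (P (nat_lit 0)) (M (nat_lit 2526259543487283199))))))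 (T.h (T.h (P (nat_lit 0)) (T.h (T.h (P (nat_lit 0)) (T.h (P (nat_lit 182513382610604405030912)) (T.h (P (nat_lit 0)) (P (nat_lit 56142799308718080))))) (T.h (P (nat_lit 0)) (T.h (T.h (P (nat_lit 0)) (P (nat_lit 64881922977234944))) (P (nat_lit 0)))))) (T.h (T.h (T.h (M (nat_lit 266273823766005034254335)) (T.h (P (nat_lit 0)) (M (nat_lit 16091310335331401727)))) (T.h (P (nat_lit 0)) (M (nat_lit 33775072436488765439)))) (T.h (T.h (P (nat_lit 0)) (T.h (T.h (P (nat_lit 0)) (P (nat_lit 66069664653246464))) (P (nat_lit 0)))) (P (nat_lit 359003738595131392)))))), (T.h (T.h (T.h (P (nat_lit 0)) (T.h (M (nat_lit 111639084565308110667583062015)) (T.h (P (nat_lit 0)) (T.h (M (nat_lit 39484981292904688386047)) (T.h (P (nat_lit 0)) (M (nat_lit 10694952518221823))))))) (T.h (P (nat_lit 0)) (T.h (T.h (P (nat_lit 0)) (T.h (M (nat_lit 12157155756318574772223)) (T.h (P (nat_lit 0)) (M (nat_lit 4119908681318399))))) (T.h (P (nat_lit 0)) (T.h (T.h (P (nat_lit 0)) (P (nat_lit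 11417582179713024))) (P (nat_lit 0))))))) (T.h (T.h (P (nat_lit 0)) (T.h (T.h (M (nat_lit 16284116165401987082354687)) (T.h (P (nat_lit 0)) (P (nat_lit 106176674857073246208)))) (T.h (P (nat_lit 0)) (M (nat_lit 87407615236842192895))))) (T.h (T.h (T.h (P (nat_lit 0)) (T.h (P (nat_lit 27704099958342383828992)) (T.h (P (nat_lit 0)) (M (nat_lit 8418601324707839))))) (T.h (P (nat_lit 0)) (T.h (T.h (P (nat_lit 0)) (M (nat_lit 47884073909157887))) (P (nat_lit 0))))) (T.h (T.h (P (nat_lit 0)) (M (nat_lit 73128364944465592319))) (T.h (T.h (T.h (P (nat_lit 0)) (M (nat_lit 7600330563846143))) (P (nat_lit 0))) (P (nat_lit 0))))))), (T.h (T.h (T.h (P (nat_lit 72164845750266258836439449993216)) (T.h (P (nat_lit 0)) (T.h (P (nat_lit 35189328518646503158317056)) (T.h (P (nat_lit 0)) (P (nat_lit 17848855930087669760)))))) (T.h (P (nat_lit 0)) (T.h (T.h (P (nat_lit 11860278816002530611298304)) (T.h (P (nat_lit 0)) (M (nat_lit 6984047718104563711)))) (T.h (P (nat_lit 0))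 (P (nat_lit 6897119684500389888)))))) (T.h (T.h (P (nat_lit 0)) (T.h (T.h (P (nat_lit 0)) (M (nat_lit 128945604351942564249599))) (P (nat_lit 0)))) (T.h (T.h (T.h (P (nat_lit 8275948850999721698787328)) (T.h (P (nat_lit 0)) (M (nat_lit 4096121544151924735)))) (T.h (P (nat_lit 0)) (P (nat_lit 10990466178542993408)))) (T.h (P (nat_lit 0)) (P (nat_lit 14314608329991651328)))))), (T.h (T.h (P (nat_lit 0)) (T.h (T.h (P (nat_lit 24533176971064981227743215616)) (T.h (P (nat_lit 0)) (T.h (M (nat_lit 3782431575240647639039)) (T.h (P (nat_lit 0)) (M (nat_lit 3846132419231743)))))) (T.h (P (nat_lit 0)) (T.h (T.h (P (nat_lit 1330601317018053378048)) (T.h (P (nat_lit 0)) (M (nat_lit 10406409639919615)))) (T.h (P (nat_lit 0)) (P (nat_lit 741585884282880))))))) (T.h (T.h (T.h (P (nat_lit 0)) (T.h (P (nat_lit 6391291468122572764217344)) (T.h (P (nat_lit 0)) (P (nat_lit 738738444527730688))))) (T.h (P (nat_lit 0)) (T.h (T.h (P (nat_lit 0)) (M (nat_lit 36023146742257025023)))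 (P (nat_lit 0))))) (T.h (T.h (P (nat_lit 0)) (T.h (T.h (P (nat_lit 14250300097114629210112)) (T.h (P (nat_lit 0)) (P (nat_lit 3871891009961984)))) (T.h (P (nat_lit 0)) (P (nat_lit 167460857806848))))) (T.h (T.h (T.h (P (nat_lit 0)) (M (nat_lit 774617917210755071))) (P (nat_lit 0))) (T.h (T.h (P (nat_lit 0)) (M (nat_lit 2900823876468735))) (P (nat_lit 0))))))), (T.h (T.h (P (nat_lit 0)) (T.h (T.h (P (nat_lit 0)) (T.h (P (nat_lit 25066800460561630132961280)) (T.h (P (nat_lit 0)) (M (nat_lit 6901650912981286911))))) (T.h (P (nat_lit 0)) (T.h (T.h (P (nat_lit 0)) (M (nat_lit 24188117246850105343))) (P (nat_lit 0)))))) (T.h (T.h (T.h (P (nat_lit 5746800424422967225513672704)) (T.h (P (nat_lit 0)) (T.h (M (nat_lit 15413272141028831264767)) (T.h (P (nat_lit 0)) (P (nat_lit 12073842188025856)))))) (T.h (P (nat_lit 0)) (T.h (T.h (P (nat_lit 29681071982198015393792)) (T.h (P (nat_lit 0)) (P (nat_lit 17627784670347264)))) (T.h (P (nat_lit 0)) (P (nat_lit 19010372635656192))))))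 (T.h (T.h (P (nat_lit 0)) (T.h (T.h (P (nat_lit 0)) (M (nat_lit 14731472137529327615))) (P (nat_lit 0)))) (T.h (T.h (T.h (M (nat_lit 25043711753734569590783)) (T.h (P (nat_lit 0)) (P (nat_lit 8681195529961472)))) (T.h (P (nat_lit 0)) (P (nat_lit 30819837218652160)))) (T.h (P (nat_lit 0)) (P (nat_lit 845034740580352)))))))]
def lP11_18 : List (T ℤ) := [(T.h (T.h (P (nat_lit 0)) (T.h (T.h (M (nat_lit 87148427533023842730265018367)) (T.h (P (nat_lit 0)) (T.h (M (nat_lit 2415346596541754245119)) (T.h (P (nat_lit 0)) (P (nat_lit 4257975333421056)))))) (T.h (P (nat_lit 0)) (T.h (T.h (M (nat_lit 34283290825903862448127)) (T.h (P (nat_lit 0)) (M (nat_lit 13840874754539519)))) (T.h (P (nat_lit 0)) (M (nat_lit 9545610667622399))))))) (T.h (T.h (T.h (P (nat_lit 0)) (T.h (M (nat_lit 28828575599309159537836031)) (T.h (P (nat_lit 0)) (M (nat_lit 67534288178527600639))))) (T.h (P (nat_lit 0)) (T.h (T.h (P (nat_lit 0)) (P (nat_lit 127508972051552534528))) (P (nat_lit 0)))))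 (T.h (T.h (P (nat_lit 0)) (T.h (T.h (P (nat_lit 28305838153664645038080)) (T.h (P (nat_lit 0)) (M (nat_lit 81946674487099391)))) (T.h (P (nat_lit 0)) (M (nat_lit 13257005205159935))))) (T.h (T.h (T.h (P (nat_lit 0)) (M (nat_lit 73318984247689609215))) (P (nat_lit 0))) (T.h (T.h (P (nat_lit 0)) (P (nat_lit 2754647017979904))) (P (nat_lit 0))))))), (T.h (T.h (P (nat_lit 0)) (T.h (T.h (P (nat_lit 0)) (T.h (P (nat_lit 5405014985188254869880832)) (T.h (P (nat_lit 0)) (M (nat_lit 7713105224876949503))))) (T.h (P (nat_lit 0)) (T.h (T.h (P (nat_lit 0)) (M (nat_lit 10852175599695298559))) (P (nat_lit 0)))))) (T.h (T.h (T.h (M (nat_lit 26391456626953548279461183487)) (T.h (P (nat_lit 0)) (M (nat_lit 32456490484449190871039)))) (T.h (P (nat_lit 0)) (M (nat_lit 28416974601521859657727)))) (T.h (T.h (P (nat_lit 0)) (T.h (T.h (P (nat_lit 0)) (P (nat_lit 28766007665830658048))) (P (nat_lit 0)))) (P (nat_lit 23567612570712412258304))))), (T.h (T.h (T.h (P (nat_lit 5874464779828831870272703299584))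 (T.h (P (nat_lit 0)) (T.h (P (nat_lit 1789014615482866992152576)) (T.h (P (nat_lit 0)) (P (nat_lit 2177192955230552064)))))) (T.h (P (nat_lit 0)) (T.h (T.h (M (nat_lit 1611613570259095289593855)) (T.h (P (nat_lit 0)) (M (nat_lit 9375159022686044159)))) (T.h (P (nat_lit 0)) (M (nat_lit 520480761069961215)))))) (T.h (T.h (P (nat_lit 0)) (T.h (T.h (P (nat_lit 0)) (T.h (P (nat_lit 40974228991500041060352)) (T.h (P (nat_lit 0)) (P (nat_lit 7058222133673984))))) (T.h (P (nat_lit 0)) (T.h (T.h (P (nat_lit 0)) (P (nat_lit 8086793378004992))) (P (nat_lit 0)))))) (T.h (T.h (T.h (P (nat_lit 14279468020943418277494784)) (T.h (P (nat_lit 0)) (P (nat_lit 8895468585879601152)))) (T.h (P (nat_lit 0)) (P (nat_lit 51159269713876353024)))) (T.h (T.h (P (nat_lit 0)) (T.h (T.h (P (nat_lit 0)) (M (nat_lit 2868643210854399))) (P (nat_lit 0)))) (P (nat_lit 3542750054391480320)))))), (T.h (T.h (T.h (P (nat_lit 0)) (T.h (M (nat_lit 81872531565312638851294953471)) (T.h (P (nat_lit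 0)) (T.h (M (nat_lit 20905636911282502238207)) (T.h (P (nat_lit 0)) (M (nat_lit 5125213912694783))))))) (T.h (P (nat_lit 0)) (T.h (T.h (P (nat_lit 0)) (T.h (M (nat_lit 2559448776295541899263)) (T.h (P (nat_lit 0)) (P (nat_lit 16795377330880512))))) (T.h (P (nat_lit 0)) (T.h (T.h (P (nat_lit 0)) (M (nat_lit 162369889959935))) (P (nat_lit 0))))))) (T.h (T.h (P (nat_lit 0)) (T.h (T.h (P (nat_lit 52372709750936364979847168)) (T.h (P (nat_lit 0)) (M (nat_lit 25629667899014643711)))) (T.h (P (nat_lit 0)) (P (nat_lit 19851441692485877760))))) (T.h (T.h (T.h (P (nat_lit 0)) (T.h (P (nat_lit 7542479592929705852928)) (T.h (P (nat_lit 0)) (M (nat_lit 773836429983743))))) (T.h (P (nat_lit 0)) (T.h (T.h (P (nat_lit 0)) (M (nat_lit 43036679422672895))) (P (nat_lit 0))))) (T.h (T.h (P (nat_lit 0)) (M (nat_lit 40475916406100066303))) (T.h (T.h (T.h (P (nat_lit 0)) (M (nat_lit 10800809275686911))) (P (nat_lit 0))) (P (nat_lit 0))))))), (T.h (T.h (T.h (P (nat_lit 60109166243227866605326969077760))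 (T.h (P (nat_lit 0)) (T.h (P (nat_lit 10403754270588811868110848)) (T.h (P (nat_lit 0)) (P (nat_lit 9777469247373443072)))))) (T.h (P (nat_lit 0)) (T.h (T.h (P (nat_lit 40719940890041983696896000)) (T.h (P (nat_lit 0)) (P (nat_lit 13514117516904890368)))) (T.h (P (nat_lit 0)) (P (nat_lit 17946597792554156032)))))) (T.h (T.h (P (nat_lit 0)) (T.h (T.h (P (nat_lit 0)) (M (nat_lit 144840244602534396690431))) (P (nat_lit 0)))) (T.h (T.h (T.h (P (nat_lit 12462364346498250444898304)) (T.h (P (nat_lit 0)) (P (nat_lit 28942010190122713088)))) (T.h (P (nat_lit 0)) (P (nat_lit 10635430114562670592)))) (T.h (P (nat_lit 0)) (P (nat_lit 9095374610601345024)))))), (T.h (T.h (P (nat_lit 0)) (T.h (T.h (M (nat_lit 28594865004676513644159172607)) (T.h (P (nat_lit 0)) (T.h (P (nat_lit 9192677989439676350464)) (T.h (P (nat_lit 0)) (P (nat_lit 1895257306300416)))))) (T.h (P (nat_lit 0)) (T.h (T.h (M (nat_lit 6427341441467206860799)) (T.h (P (nat_lit 0)) (P (nat_lit 738651429666816))))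 (T.h (P (nat_lit 0)) (P (nat_lit 520789253947392))))))) (T.h (T.h (T.h (P (nat_lit 0)) (T.h (M (nat_lit 11146123448194610694717439)) (T.h (P (nat_lit 0)) (M (nat_lit 3731991322861502463))))) (T.h (P (nat_lit 0)) (T.h (T.h (P (nat_lit 0)) (P (nat_lit 21612002833642553344))) (P (nat_lit 0))))) (T.h (T.h (P (nat_lit 0)) (T.h (T.h (M (nat_lit 21528506760766722932735)) (T.h (P (nat_lit 0)) (P (nat_lit 9472520804892672)))) (T.h (P (nat_lit 0)) (P (nat_lit 154781880287232))))) (T.h (T.h (T.h (P (nat_lit 0)) (P (nat_lit 2052704746300506112))) (P (nat_lit 0))) (T.h (T.h (P (nat_lit 0)) (P (nat_lit 3398585621741568))) (P (nat_lit 0))))))), (T.h (T.h (P (nat_lit 0)) (T.h (T.h (P (nat_lit 0)) (T.h (P (nat_lit 11958332812889106530959360)) (T.h (P (nat_lit 0)) (M (nat_lit 17909357722080378879))))) (T.h (P (nat_lit 0)) (T.h (T.h (P (nat_lit 0)) (M (nat_lit 1916679011417718783))) (P (nat_lit 0)))))) (T.h (T.h (T.h (M (nat_lit 19752523416278548368892887039)) (T.h (P (nat_lit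 0)) (P (nat_lit 429836833835238555648)))) (T.h (P (nat_lit 0)) (M (nat_lit 111927900620322322251775)))) (T.h (T.h (P (nat_lit 0)) (T.h (T.h (P (nat_lit 0)) (P (nat_lit 11344965817079955456))) (P (nat_lit 0)))) (P (nat_lit 23993800654320155230208))))), (T.h (T.h (T.h (P (nat_lit 14562162258249013777924918083584)) (T.h (P (nat_lit 0)) (T.h (P (nat_lit 472108168470894989017088)) (T.h (P (nat_lit 0)) (P (nat_lit 555935322035191808)))))) (T.h (P (nat_lit 0)) (T.h (T.h (P (nat_lit 5400635009370655693996032)) (T.h (P (nat_lit 0)) (M (nat_lit 2606053976117870591)))) (T.h (P (nat_lit 0)) (M (nat_lit 2433391401669492735)))))) (T.h (T.h (P (nat_lit 0)) (T.h (T.h (P (nat_lit 0)) (M (nat_lit 14866527205867955159039))) (P (nat_lit 0)))) (T.h (T.h (T.h (M (nat_lit 1586501907438543587770367)) (T.h (P (nat_lit 0)) (M (nat_lit 2619348724656111615)))) (T.h (P (nat_lit 0)) (P (nat_lit 272633426224349184)))) (T.h (P (nat_lit 0)) (P (nat_lit 1238029958807289856))))))]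
def lP11_19 : List (T ℤ) := [(P (nat_lit 0)), (P (nat_lit 0)), (T.h (T.h (P (nat_lit 0)) (T.h (T.h (P (nat_lit 2442310398557518728414625792)) (T.h (P (nat_lit 0)) (T.h (P (nat_lit 10983023708140231196672)) (T.h (P (nat_lit 0)) (M (nat_lit 664208017784831)))))) (T.h (P (nat_lit 0)) (T.h (T.h (P (nat_lit 3679752308041006972928)) (T.h (P (nat_lit 0)) (M (nat_lit 1039951104770047)))) (T.h (P (nat_lit 0)) (M (nat_lit 11815390019583))))))) (T.h (T.h (T.h (P (nat_lit 0)) (T.h (M (nat_lit 14280217490853106859114495)) (T.h (P (nat_lit 0)) (M (nat_lit 5463924327831306239))))) (T.h (P (nat_lit 0)) (T.h (T.h (P (nat_lit 0)) (P (nat_lit 3565072346572128256))) (P (nat_lit 0))))) (T.h (T.h (P (nat_lit 0)) (T.h (T.h (M (nat_lit 3047215125714868109311)) (T.h (P (nat_lit 0)) (P (nat_lit 3547622079004672)))) (T.h (P (nat_lit 0)) (P (nat_lit 140431119548416))))) (T.h (T.h (T.h (P (nat_lit 0)) (P (nat_lit 3431769517741572096))) (P (nat_lit 0))) (T.h (T.h (P (nat_lit 0)) (M (nat_lit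 1626567914815487))) (P (nat_lit 0))))))), (T.h (T.h (P (nat_lit 0)) (T.h (T.h (P (nat_lit 0)) (T.h (M (nat_lit 8807245776857616942628863)) (T.h (P (nat_lit 0)) (M (nat_lit 5996092034685861887))))) (T.h (P (nat_lit 0)) (T.h (T.h (P (nat_lit 0)) (P (nat_lit 5476563799450320896))) (P (nat_lit 0)))))) (T.h (T.h (T.h (P (nat_lit 22549686110619622894297153536)) (T.h (P (nat_lit 0)) (T.h (P (nat_lit 538372468300809502720)) (T.h (P (nat_lit 0)) (P (nat_lit 537820007137280)))))) (T.h (P (nat_lit 0)) (T.h (T.h (M (nat_lit 4276355499288042668031)) (T.h (P (nat_lit 0)) (M (nat_lit 17651129576325119)))) (T.h (P (nat_lit 0)) (P (nat_lit 4056569522847744)))))) (T.h (T.h (P (nat_lit 0)) (T.h (T.h (P (nat_lit 0)) (M (nat_lit 7115061308898148351))) (P (nat_lit 0)))) (T.h (T.h (T.h (P (nat_lit 4987765701830972014592)) (T.h (P (nat_lit 0)) (P (nat_lit 3255958531735552)))) (T.h (P (nat_lit 0)) (M (nat_lit 1762998010347519)))) (T.h (P (nat_lit 0)) (P (nat_lit 129108033208320))))))),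 (T.h (T.h (P (nat_lit 0)) (T.h (T.h (M (nat_lit 3147316493728592057340002303)) (T.h (P (nat_lit 0)) (T.h (M (nat_lit 4041870850466806497279)) (T.h (P (nat_lit 0)) (P (nat_lit 2925128420229120)))))) (T.h (P (nat_lit 0)) (T.h (T.h (M (nat_lit 4524051548051001573375)) (T.h (P (nat_lit 0)) (P (nat_lit 822254790705152)))) (T.h (P (nat_lit 0)) (P (nat_lit 845034740580352))))))) (T.h (T.h (T.h (P (nat_lit 0)) (T.h (P (nat_lit 16159129519095628567674880)) (T.h (P (nat_lit 0)) (P (nat_lit 8662173632501383168))))) (T.h (P (nat_lit 0)) (T.h (T.h (P (nat_lit 0)) (P (nat_lit 14223229982607409152))) (P (nat_lit 0))))) (T.h (T.h (P (nat_lit 0)) (T.h (T.h (P (nat_lit 835233424690865242112)) (T.h (P (nat_lit 0)) (M (nat_lit 11975517620469759)))) (T.h (P (nat_lit 0)) (M (nat_lit 652816732782591))))) (T.h (T.h (T.h (P (nat_lit 0)) (P (nat_lit 3256229217427259392))) (P (nat_lit 0))) (T.h (T.h (P (nat_lit 0)) (M (nat_lit 1036859366244351))) (P (nat_lit 0))))))), (T.h (T.h (P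 (nat_lit 0)) (T.h (T.h (P (nat_lit 0)) (T.h (P (nat_lit 6699686972814614291546112)) (T.h (P (nat_lit 0)) (P (nat_lit 5598175807563366400))))) (T.h (P (nat_lit 0)) (T.h (T.h (P (nat_lit 0)) (M (nat_lit 8771602870383411199))) (P (nat_lit 0)))))) (T.h (T.h (T.h (M (nat_lit 23308674508616954859992645631)) (T.h (P (nat_lit 0)) (T.h (M (nat_lit 6403020190384731979775)) (T.h (P (nat_lit 0)) (P (nat_lit 4525130102341632)))))) (T.h (P (nat_lit 0)) (T.h (T.h (M (nat_lit 566177892511311200255)) (T.h (P (nat_lit 0)) (P (nat_lit 5418969469157376)))) (T.h (P (nat_lit 0)) (M (nat_lit 3523974070075391)))))) (T.h (T.h (P (nat_lit 0)) (T.h (T.h (P (nat_lit 0)) (P (nat_lit 7082019746996027392))) (P (nat_lit 0)))) (T.h (T.h (T.h (M (nat_lit 3679868749620923334655)) (T.h (P (nat_lit 0)) (M (nat_lit 421025460584447)))) (T.h (P (nat_lit 0)) (M (nat_lit 599549196042239)))) (T.h (P (nat_lit 0)) (M (nat_lit 1405125303336959))))))), (T.h (T.h (P (nat_lit 0)) (T.h (T.h (M (nat_lit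 279908450380878969705594879)) (T.h (P (nat_lit 0)) (M (nat_lit 9901917847013963071487)))) (T.h (P (nat_lit 0)) (P (nat_lit 2829812515106405220352))))) (T.h (T.h (T.h (P (nat_lit 0)) (T.h (P (nat_lit 2424682419920877020774400)) (T.h (P (nat_lit 0)) (M (nat_lit 6178310966397108223))))) (T.h (P (nat_lit 0)) (T.h (T.h (P (nat_lit 0)) (M (nat_lit 10165924027084832767))) (P (nat_lit 0))))) (T.h (T.h (P (nat_lit 0)) (M (nat_lit 25474099469558480895))) (T.h (T.h (T.h (P (nat_lit 0)) (P (nat_lit 287420047758983168))) (P (nat_lit 0))) (P (nat_lit 0)))))), (P (nat_lit 0))]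
def lP11_20 : List (T ℤ) := [(P (nat_lit 0)), (T.h (T.h (T.h (P (nat_lit 0)) (T.h (P (nat_lit 0)) (T.h (P (nat_lit 0)) (T.h (P (nat_lit 0)) (T.h (P (nat_lit 0)) (M (nat_lit 1517611902173183))))))) (T.h (P (nat_lit 0)) (T.h (T.h (P (nat_lit 0)) (T.h (M (nat_lit 393394788669509861375)) (T.h (P (nat_lit 0)) (M (nat_lit 6466019186049023))))) (T.h (P (nat_lit 0)) (T.h (T.h (P (nat_lit 0)) (M (nat_lit 9592676862263295))) (P (nat_lit 0))))))) (T.h (T.h (P (nat_lit 0)) (T.h (T.h (P (nat_lit 4522944407224301738000384)) (T.h (P (nat_lit 0)) (M (nat_lit 20828737242849607679)))) (T.h (P (nat_lit 0)) (P (nat_lit 4169824286824988672))))) (T.h (T.h (T.h (P (nat_lit 0)) (T.h (M (nat_lit 393394788669509861375)) (T.h (P (nat_lit 0)) (M (nat_lit 6466019186049023))))) (T.h (P (nat_lit 0)) (T.h (T.h (P (nat_lit 0)) (M (nat_lit 2885507989110783))) (P (nat_lit 0))))) (T.h (T.h (P (nat_lit 0)) (P (nat_lit 4169824286824988672))) (T.h (T.h (T.h (P (nat_lit 0)) (M (nat_lit 9592676862263295)))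 (P (nat_lit 0))) (P (nat_lit 0))))))), (T.h (T.h (T.h (P (nat_lit 2172901658626308867120382869504)) (T.h (P (nat_lit 0)) (T.h (P (nat_lit 7307570208912929812643840)) (T.h (P (nat_lit 0)) (P (nat_lit 14810173141883551744)))))) (T.h (P (nat_lit 0)) (T.h (T.h (M (nat_lit 18595559493076108607225855)) (T.h (P (nat_lit 0)) (M (nat_lit 16302925201312579583)))) (T.h (P (nat_lit 0)) (P (nat_lit 14302589763541008384)))))) (T.h (T.h (P (nat_lit 0)) (T.h (T.h (P (nat_lit 0)) (T.h (M (nat_lit 27147433252628683816959)) (T.h (P (nat_lit 0)) (P (nat_lit 40286892671303680))))) (T.h (P (nat_lit 0)) (T.h (T.h (P (nat_lit 0)) (M (nat_lit 32196628729430015))) (P (nat_lit 0)))))) (T.h (T.h (T.h (M (nat_lit 6297130738538266463567871)) (T.h (P (nat_lit 0)) (M (nat_lit 80266014916329078783)))) (T.h (P (nat_lit 0)) (P (nat_lit 31397850390422618112)))) (T.h (T.h (P (nat_lit 0)) (T.h (T.h (P (nat_lit 0)) (P (nat_lit 22913739071815680))) (P (nat_lit 0)))) (P (nat_lit 12232929879535910912)))))),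 (T.h (T.h (T.h (P (nat_lit 0)) (T.h (M (nat_lit 4865143931512019742722359295)) (T.h (P (nat_lit 0)) (T.h (M (nat_lit 8745564178652984246271)) (T.h (P (nat_lit 0)) (P (nat_lit 1944089406472192))))))) (T.h (P (nat_lit 0)) (T.h (T.h (P (nat_lit 0)) (T.h (P (nat_lit 26712386562715379826688)) (T.h (P (nat_lit 0)) (P (nat_lit 23785446772441088))))) (T.h (P (nat_lit 0)) (T.h (T.h (P (nat_lit 0)) (P (nat_lit 9729628367814656))) (P (nat_lit 0))))))) (T.h (T.h (P (nat_lit 0)) (T.h (T.h (P (nat_lit 13075810249838208814678016)) (T.h (P (nat_lit 0)) (P (nat_lit 48636823786003365888)))) (T.h (P (nat_lit 0)) (P (nat_lit 10416561284773314560))))) (T.h (T.h (T.h (P (nat_lit 0)) (T.h (P (nat_lit 26712386562715379826688)) (T.h (P (nat_lit 0)) (P (nat_lit 23785446772441088))))) (T.h (P (nat_lit 0)) (T.h (T.h (P (nat_lit 0)) (P (nat_lit 15713127575584768))) (P (nat_lit 0))))) (T.h (T.h (P (nat_lit 0)) (P (nat_lit 10416561284773314560))) (T.h (T.h (T.h (P (nat_lit 0)) (P (nat_lit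 9729628367814656))) (P (nat_lit 0))) (P (nat_lit 0))))))), (T.h (T.h (T.h (M (nat_lit 2001138384869827064950010413055)) (T.h (P (nat_lit 0)) (T.h (P (nat_lit 3021525689518643465945088)) (T.h (P (nat_lit 0)) (M (nat_lit 11402494650829766655)))))) (T.h (P (nat_lit 0)) (T.h (T.h (P (nat_lit 18697361475644574801068032)) (T.h (P (nat_lit 0)) (P (nat_lit 47436507338491559936)))) (T.h (P (nat_lit 0)) (M (nat_lit 18379318725514887167)))))) (T.h (T.h (P (nat_lit 0)) (T.h (T.h (P (nat_lit 0)) (T.h (M (nat_lit 18792191774930400968703)) (T.h (P (nat_lit 0)) (P (nat_lit 4787447241768960))))) (T.h (P (nat_lit 0)) (T.h (T.h (P (nat_lit 0)) (P (nat_lit 11297037564444672))) (P (nat_lit 0)))))) (T.h (T.h (T.h (P (nat_lit 18697361475644574801068032)) (T.h (P (nat_lit 0)) (P (nat_lit 47436507338491559936)))) (T.h (P (nat_lit 0)) (M (nat_lit 1044776055065280511)))) (T.h (T.h (P (nat_lit 0)) (T.h (T.h (P (nat_lit 0)) (P (nat_lit 11297037564444672))) (P (nat_lit 0)))) (M (nat_lit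 18379318725514887167)))))), (T.h (T.h (T.h (P (nat_lit 0)) (T.h (P (nat_lit 2613273605147549987961307136)) (T.h (P (nat_lit 0)) (P (nat_lit 2747092652249212518400))))) (T.h (P (nat_lit 0)) (T.h (T.h (P (nat_lit 0)) (M (nat_lit 36272100889309380345855))) (P (nat_lit 0))))) (T.h (T.h (P (nat_lit 0)) (T.h (T.h (P (nat_lit 817752586518847605964800)) (T.h (P (nat_lit 0)) (M (nat_lit 12301045624127619071)))) (T.h (P (nat_lit 0)) (P (nat_lit 1364636026177323008))))) (T.h (T.h (T.h (P (nat_lit 0)) (M (nat_lit 36272100889309380345855))) (P (nat_lit 0))) (T.h (T.h (P (nat_lit 0)) (P (nat_lit 1364636026177323008))) (P (nat_lit 0)))))), (P (nat_lit 0)), (T.h (T.h (P (nat_lit 0)) (T.h (T.h (P (nat_lit 2442310398557518728414625792)) (T.h (P (nat_lit 0)) (T.h (M (nat_lit 3440609914384377970687)) (T.h (P (nat_lit 0)) (M (nat_lit 11219244777078783)))))) (T.h (P (nat_lit 0)) (T.h (T.h (P (nat_lit 3679752308041006972928)) (T.h (P (nat_lit 0)) (M (nat_lit 6325588066500607))))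 (T.h (P (nat_lit 0)) (M (nat_lit 1529427292192767))))))) (T.h (T.h (T.h (P (nat_lit 0)) (T.h (M (nat_lit 9757273083628805121114111)) (T.h (P (nat_lit 0)) (P (nat_lit 7601593804566560768))))) (T.h (P (nat_lit 0)) (T.h (T.h (P (nat_lit 0)) (M (nat_lit 17263664896277479423))) (P (nat_lit 0))))) (T.h (T.h (P (nat_lit 0)) (T.h (T.h (P (nat_lit 10589628919470721335296)) (T.h (P (nat_lit 0)) (P (nat_lit 662114089893888)))) (T.h (P (nat_lit 0)) (M (nat_lit 7505970290819071))))) (T.h (T.h (T.h (P (nat_lit 0)) (M (nat_lit 1294100041006317567))) (P (nat_lit 0))) (T.h (T.h (P (nat_lit 0)) (M (nat_lit 10256884880048127))) (P (nat_lit 0)))))))]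
def lP11_21 : List (T ℤ) := [(T.h (T.h (P (nat_lit 0)) (T.h (T.h (P (nat_lit 0)) (T.h (M (nat_lit 11934437532921410860613631)) (T.h (P (nat_lit 0)) (P (nat_lit 53826327935916703744))))) (T.h (P (nat_lit 0)) (T.h (T.h (P (nat_lit 0)) (P (nat_lit 66829192591726084096))) (P (nat_lit 0)))))) (T.h (T.h (T.h (P (nat_lit 40139860161165513613557891072)) (T.h (P (nat_lit 0)) (T.h (P (nat_lit 3865137828342911729664)) (T.h (P (nat_lit 0)) (P (nat_lit 7329798222643200)))))) (T.h (P (nat_lit 0)) (T.h (T.h (M (nat_lit 7617595123418036961279)) (T.h (P (nat_lit 0)) (P (nat_lit 60231746119663616)))) (T.h (P (nat_lit 0)) (M (nat_lit 1051252355235839)))))) (T.h (T.h (P (nat_lit 0)) (T.h (T.h (P (nat_lit 0)) (M (nat_lit 58741640355209281535))) (P (nat_lit 0)))) (T.h (T.h (T.h (P (nat_lit 28038403196071316553728)) (T.h (P (nat_lit 0)) (P (nat_lit 15176532827373568)))) (T.h (P (nat_lit 0)) (M (nat_lit 5503358613258239)))) (T.h (P (nat_lit 0)) (P (nat_lit 6142943814746112))))))),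 (T.h (T.h (P (nat_lit 0)) (T.h (T.h (P (nat_lit 11014239196389045818047332352)) (T.h (P (nat_lit 0)) (T.h (P (nat_lit 27325007336551519092736)) (T.h (P (nat_lit 0)) (P (nat_lit 20078349551468544)))))) (T.h (P (nat_lit 0)) (T.h (T.h (M (nat_lit 21872338475938247344127)) (T.h (P (nat_lit 0)) (P (nat_lit 32520620808732672)))) (P (nat_lit 0)))))) (T.h (T.h (T.h (P (nat_lit 0)) (T.h (P (nat_lit 49450775449857293086097408)) (T.h (P (nat_lit 0)) (M (nat_lit 16728513253444943871))))) (T.h (P (nat_lit 0)) (T.h (T.h (P (nat_lit 0)) (M (nat_lit 37152445087875071999))) (P (nat_lit 0))))) (T.h (T.h (P (nat_lit 0)) (T.h (T.h (M (nat_lit 22646441061832999305215)) (T.h (P (nat_lit 0)) (P (nat_lit 28816898590441472)))) (T.h (P (nat_lit 0)) (P (nat_lit 11857050643529728))))) (T.h (T.h (T.h (P (nat_lit 0)) (P (nat_lit 5963897495497998336))) (P (nat_lit 0))) (T.h (T.h (P (nat_lit 0)) (P (nat_lit 17103806890311680))) (P (nat_lit 0))))))), (T.h (T.h (P (nat_lit 0)) (T.h (T.h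 (P (nat_lit 0)) (T.h (P (nat_lit 46251314475609081092505600)) (T.h (P (nat_lit 0)) (M (nat_lit 3567356427091574783))))) (T.h (P (nat_lit 0)) (T.h (T.h (P (nat_lit 0)) (M (nat_lit 35245685555354140671))) (P (nat_lit 0)))))) (T.h (T.h (T.h (M (nat_lit 111649379093656465572779524095)) (T.h (P (nat_lit 0)) (T.h (M (nat_lit 27426744506454353379327)) (T.h (P (nat_lit 0)) (P (nat_lit 5870692475731968)))))) (T.h (P (nat_lit 0)) (T.h (T.h (P (nat_lit 16699597279558432194560)) (T.h (P (nat_lit 0)) (M (nat_lit 14393048313888767)))) (T.h (P (nat_lit 0)) (M (nat_lit 15736555481137151)))))) (T.h (T.h (P (nat_lit 0)) (T.h (T.h (P (nat_lit 0)) (M (nat_lit 30486692495049621503))) (P (nat_lit 0)))) (T.h (T.h (T.h (M (nat_lit 27468002392758531653631)) (T.h (P (nat_lit 0)) (P (nat_lit 27092150744973312)))) (T.h (P (nat_lit 0)) (P (nat_lit 5402768076177408)))) (T.h (P (nat_lit 0)) (M (nat_lit 4869430459957247))))))), (T.h (T.h (P (nat_lit 0)) (T.h (T.h (M (nat_lit 24469419222045229835704336383))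 (T.h (P (nat_lit 0)) (M (nat_lit 97729438629200058646527)))) (T.h (P (nat_lit 0)) (P (nat_lit 21863362471202775891968))))) (T.h (T.h (T.h (P (nat_lit 0)) (T.h (P (nat_lit 1839900546729946162135040)) (T.h (P (nat_lit 0)) (M (nat_lit 10259484591651815423))))) (T.h (P (nat_lit 0)) (T.h (T.h (P (nat_lit 0)) (M (nat_lit 1742512150376611839))) (P (nat_lit 0))))) (T.h (T.h (P (nat_lit 0)) (P (nat_lit 712339194485766356992))) (T.h (T.h (T.h (P (nat_lit 0)) (M (nat_lit 29578823941652217855))) (P (nat_lit 0))) (P (nat_lit 0)))))), (T.h (T.h (T.h (P (nat_lit 0)) (T.h (P (nat_lit 4884620797115037456829251584)) (T.h (P (nat_lit 0)) (T.h (P (nat_lit 7359504616082013945856)) (T.h (P (nat_lit 0)) (M (nat_lit 23630780039167))))))) (T.h (P (nat_lit 0)) (T.h (T.h (P (nat_lit 0)) (T.h (P (nat_lit 7935808582425363087360)) (T.h (P (nat_lit 0)) (M (nat_lit 899519985221631))))) (T.h (P (nat_lit 0)) (T.h (T.h (P (nat_lit 0)) (M (nat_lit 2290775932600319))) (P (nat_lit 0))))))) (T.h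 (T.h (P (nat_lit 0)) (T.h (T.h (M (nat_lit 28560434981706213718228991)) (T.h (P (nat_lit 0)) (P (nat_lit 7130144693144256512)))) (T.h (P (nat_lit 0)) (M (nat_lit 2032154810089734143))))) (T.h (T.h (T.h (P (nat_lit 0)) (T.h (P (nat_lit 7935808582425363087360)) (T.h (P (nat_lit 0)) (M (nat_lit 899519985221631))))) (T.h (P (nat_lit 0)) (T.h (T.h (P (nat_lit 0)) (P (nat_lit 7095244158009344))) (P (nat_lit 0))))) (T.h (T.h (P (nat_lit 0)) (M (nat_lit 2032154810089734143))) (T.h (T.h (T.h (P (nat_lit 0)) (M (nat_lit 2290775932600319))) (P (nat_lit 0))) (P (nat_lit 0))))))), (T.h (T.h (T.h (P (nat_lit 15718686224849684345645831290880)) (T.h (P (nat_lit 0)) (T.h (M (nat_lit 58916694203927663527067647)) (T.h (P (nat_lit 0)) (M (nat_lit 11280450483912703999)))))) (T.h (P (nat_lit 0)) (T.h (T.h (M (nat_lit 28020363737730308810735615)) (T.h (P (nat_lit 0)) (P (nat_lit 23041441166729936896)))) (T.h (P (nat_lit 0)) (P (nat_lit 39145449331347161088)))))) (T.h (T.h (P (nat_lit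 0)) (T.h (T.h (P (nat_lit 0)) (T.h (P (nat_lit 165247059149469285089280)) (T.h (P (nat_lit 0)) (M (nat_lit 52530798347157503))))) (T.h (P (nat_lit 0)) (T.h (T.h (P (nat_lit 0)) (M (nat_lit 90810439728037887))) (P (nat_lit 0)))))) (T.h (T.h (T.h (M (nat_lit 28020363737730308810735615)) (T.h (P (nat_lit 0)) (P (nat_lit 23041441166729936896)))) (T.h (P (nat_lit 0)) (M (nat_lit 73597725370610614271)))) (T.h (T.h (P (nat_lit 0)) (T.h (T.h (P (nat_lit 0)) (M (nat_lit 90810439728037887))) (P (nat_lit 0)))) (P (nat_lit 39145449331347161088)))))), (T.h (T.h (T.h (P (nat_lit 0)) (T.h (P (nat_lit 17788233836303118565707350016)) (T.h (P (nat_lit 0)) (M (nat_lit 41039320411367136034815))))) (T.h (P (nat_lit 0)) (T.h (T.h (P (nat_lit 0)) (T.h (P (nat_lit 17474437266945125384192)) (T.h (P (nat_lit 0)) (P (nat_lit 39331594690691072))))) (T.h (P (nat_lit 0)) (T.h (T.h (P (nat_lit 0)) (P (nat_lit 29195945769697280))) (P (nat_lit 0))))))) (T.h (T.h (P (nat_lit 0)) (T.h (T.h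 (P (nat_lit 17815341882932003130572800)) (T.h (P (nat_lit 0)) (M (nat_lit 57909404240273473535)))) (T.h (P (nat_lit 0)) (M (nat_lit 43008171009760034815))))) (T.h (T.h (T.h (P (nat_lit 0)) (T.h (P (nat_lit 17474437266945125384192)) (T.h (P (nat_lit 0)) (P (nat_lit 39331594690691072))))) (T.h (P (nat_lit 0)) (T.h (T.h (P (nat_lit 0)) (P (nat_lit 59206604581634048))) (P (nat_lit 0))))) (T.h (T.h (P (nat_lit 0)) (M (nat_lit 43008171009760034815))) (T.h (T.h (T.h (P (nat_lit 0)) (P (nat_lit 29195945769697280))) (P (nat_lit 0))) (P (nat_lit 0))))))), (T.h (T.h (T.h (M (nat_lit 20064489542102302079886597029887)) (T.h (P (nat_lit 0)) (T.h (P (nat_lit 27009924267355645461659648)) (T.h (P (nat_lit 0)) (M (nat_lit 66188552352766623743)))))) (T.h (P (nat_lit 0)) (T.h (T.h (P (nat_lit 61558868728717763101589504)) (T.h (P (nat_lit 0)) (P (nat_lit 97996694423714398208)))) (T.h (P (nat_lit 0)) (M (nat_lit 41756640697967968255)))))) (T.h (T.h (P (nat_lit 0)) (T.h (T.h (P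 (nat_lit 0)) (T.h (M (nat_lit 110952192644211917455359)) (T.h (P (nat_lit 0)) (P (nat_lit 27609807984918528))))) (T.h (P (nat_lit 0)) (T.h (T.h (P (nat_lit 0)) (P (nat_lit 72266931895468032))) (P (nat_lit 0)))))) (T.h (T.h (T.h (P (nat_lit 61558868728717763101589504)) (T.h (P (nat_lit 0)) (P (nat_lit 97996694423714398208)))) (T.h (P (nat_lit 0)) (M (nat_lit 38136366355839975423)))) (T.h (T.h (P (nat_lit 0)) (T.h (T.h (P (nat_lit 0)) (P (nat_lit 72266931895468032))) (P (nat_lit 0)))) (M (nat_lit 41756640697967968255))))))]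
def lP11_22 : List (T ℤ) := [(T.h (T.h (T.h (P (nat_lit 0)) (T.h (M (nat_lit 12001938227230378370793471999)) (T.h (P (nat_lit 0)) (P (nat_lit 48876677699545866436608))))) (T.h (P (nat_lit 0)) (T.h (T.h (P (nat_lit 0)) (M (nat_lit 111759690933996743557119))) (P (nat_lit 0))))) (T.h (T.h (P (nat_lit 0)) (T.h (T.h (P (nat_lit 12166670606169960221769728)) (T.h (P (nat_lit 0)) (M (nat_lit 8621134745327108095)))) (T.h (P (nat_lit 0)) (M (nat_lit 6869758676744273919))))) (T.h (T.h (T.h (P (nat_lit 0)) (M (nat_lit 111759690933996743557119))) (P (nat_lit 0))) (T.h (T.h (P (nat_lit 0)) (M (nat_lit 6869758676744273919))) (P (nat_lit 0)))))), (T.h (T.h (P (nat_lit 0)) (T.h (T.h (P (nat_lit 0)) (T.h (M (nat_lit 10710425911059386560675839)) (T.h (P (nat_lit 0)) (M (nat_lit 3946141932501073919))))) (T.h (P (nat_lit 0)) (T.h (T.h (P (nat_lit 0)) (P (nat_lit 43795206205234741248))) (P (nat_lit 0)))))) (T.h (T.h (T.h (P (nat_lit 50964804925013894208082149376)) (T.h (P (nat_lit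 0)) (T.h (P (nat_lit 2975170884695903698944)) (T.h (P (nat_lit 0)) (P (nat_lit 13057807940812800)))))) (T.h (P (nat_lit 0)) (T.h (T.h (P (nat_lit 31917775378363474509824)) (T.h (P (nat_lit 0)) (M (nat_lit 56074701374488575)))) (T.h (P (nat_lit 0)) (M (nat_lit 18008412295430143)))))) (T.h (T.h (P (nat_lit 0)) (T.h (T.h (P (nat_lit 0)) (P (nat_lit 15701798467397484544))) (P (nat_lit 0)))) (T.h (T.h (T.h (P (nat_lit 8133014226559813287936)) (T.h (P (nat_lit 0)) (M (nat_lit 21532618195828735)))) (T.h (P (nat_lit 0)) (M (nat_lit 19318031015018495)))) (T.h (P (nat_lit 0)) (P (nat_lit 2390372298326016))))))), (T.h (T.h (P (nat_lit 0)) (T.h (T.h (P (nat_lit 4028972986639539540131315712)) (T.h (P (nat_lit 0)) (T.h (P (nat_lit 10463880996995683319808)) (T.h (P (nat_lit 0)) (P (nat_lit 22840329922084864)))))) (T.h (P (nat_lit 0)) (T.h (T.h (M (nat_lit 29265224384336552263679)) (T.h (P (nat_lit 0)) (P (nat_lit 33119459035185152)))) (T.h (P (nat_lit 0)) (P (nat_lit 1944089406472192)))))))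 (T.h (T.h (T.h (P (nat_lit 0)) (T.h (P (nat_lit 21983481191304210379964416)) (T.h (P (nat_lit 0)) (P (nat_lit 258681154364768256))))) (T.h (P (nat_lit 0)) (T.h (T.h (P (nat_lit 0)) (P (nat_lit 19682121665866629120))) (P (nat_lit 0))))) (T.h (T.h (P (nat_lit 0)) (T.h (T.h (P (nat_lit 60435329395380201717760)) (T.h (P (nat_lit 0)) (P (nat_lit 45316429866401792)))) (T.h (P (nat_lit 0)) (P (nat_lit 53783029200388096))))) (T.h (T.h (T.h (P (nat_lit 0)) (M (nat_lit 22433729594578173951))) (P (nat_lit 0))) (T.h (T.h (P (nat_lit 0)) (P (nat_lit 25814872583241728))) (P (nat_lit 0))))))), (T.h (T.h (P (nat_lit 0)) (T.h (T.h (P (nat_lit 0)) (T.h (P (nat_lit 28810614915232433201741824)) (T.h (P (nat_lit 0)) (M (nat_lit 101291306460544761855))))) (T.h (P (nat_lit 0)) (T.h (T.h (P (nat_lit 0)) (M (nat_lit 55333727039905595391))) (P (nat_lit 0)))))) (T.h (T.h (T.h (M (nat_lit 117117419585043013077408153599)) (T.h (P (nat_lit 0)) (T.h (P (nat_lit 27221817649665985740800))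 (T.h (P (nat_lit 0)) (M (nat_lit 6417445493932031)))))) (T.h (P (nat_lit 0)) (T.h (T.h (P (nat_lit 22956731578314158768128)) (T.h (P (nat_lit 0)) (M (nat_lit 130402323378929663)))) (T.h (P (nat_lit 0)) (M (nat_lit 3828110280622079)))))) (T.h (T.h (P (nat_lit 0)) (T.h (T.h (P (nat_lit 0)) (P (nat_lit 71239992060101525504))) (P (nat_lit 0)))) (T.h (T.h (T.h (M (nat_lit 46468515223469314539519)) (T.h (P (nat_lit 0)) (M (nat_lit 14169943868768255)))) (T.h (P (nat_lit 0)) (P (nat_lit 3220746156638208)))) (T.h (P (nat_lit 0)) (M (nat_lit 13265699276980223))))))), (T.h (T.h (P (nat_lit 0)) (T.h (T.h (M (nat_lit 27395621484421177028340875263)) (T.h (P (nat_lit 0)) (M (nat_lit 144473209679626903748607)))) (T.h (P (nat_lit 0)) (P (nat_lit 47306577088496319594496))))) (T.h (T.h (T.h (P (nat_lit 0)) (T.h (P (nat_lit 19182100134511518328815616)) (T.h (P (nat_lit 0)) (P (nat_lit 5084902959863562240))))) (T.h (P (nat_lit 0)) (T.h (T.h (P (nat_lit 0)) (P (nat_lit 47708842287708504064)))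 (P (nat_lit 0))))) (T.h (T.h (P (nat_lit 0)) (M (nat_lit 32713518745630160191487))) (T.h (T.h (T.h (P (nat_lit 0)) (M (nat_lit 4616779742736023551))) (P (nat_lit 0))) (P (nat_lit 0)))))), (T.h (T.h (T.h (P (nat_lit 0)) (T.h (M (nat_lit 1027194215491105522146344959)) (T.h (P (nat_lit 0)) (T.h (M (nat_lit 5876729818305680900095)) (T.h (P (nat_lit 0)) (P (nat_lit 845034740580352))))))) (T.h (P (nat_lit 0)) (T.h (T.h (P (nat_lit 0)) (T.h (M (nat_lit 10439806346580109295615)) (T.h (P (nat_lit 0)) (P (nat_lit 3345293171490816))))) (T.h (P (nat_lit 0)) (T.h (T.h (P (nat_lit 0)) (P (nat_lit 6918233756270592))) (P (nat_lit 0))))))) (T.h (T.h (P (nat_lit 0)) (T.h (T.h (P (nat_lit 56702234027486920088485888)) (T.h (P (nat_lit 0)) (P (nat_lit 6025487014869073920)))) (T.h (P (nat_lit 0)) (P (nat_lit 24783951258407927808))))) (T.h (T.h (T.h (P (nat_lit 0)) (T.h (M (nat_lit 5562702071422437556223)) (T.h (P (nat_lit 0)) (P (nat_lit 1870221648003072))))) (T.h (P (nat_lit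 0)) (T.h (T.h (P (nat_lit 0)) (M (nat_lit 12761921320845311))) (P (nat_lit 0))))) (T.h (T.h (P (nat_lit 0)) (P (nat_lit 19378006843333804032))) (T.h (T.h (T.h (P (nat_lit 0)) (P (nat_lit 2956245969797120))) (P (nat_lit 0))) (P (nat_lit 0))))))), (T.h (T.h (T.h (M (nat_lit 12033383155920978104893308927999)) (T.h (P (nat_lit 0)) (T.h (P (nat_lit 66751268070684515171827712)) (T.h (P (nat_lit 0)) (M (nat_lit 27041683247099543551)))))) (T.h (P (nat_lit 0)) (T.h (T.h (P (nat_lit 16526487823196466196774912)) (T.h (P (nat_lit 0)) (P (nat_lit 28368324160571572224)))) (T.h (P (nat_lit 0)) (M (nat_lit 44496770827213078527)))))) (T.h (T.h (P (nat_lit 0)) (T.h (T.h (P (nat_lit 0)) (T.h (M (nat_lit 74268288097036359696383)) (T.h (P (nat_lit 0)) (P (nat_lit 69759065467453440))))) (T.h (P (nat_lit 0)) (T.h (T.h (P (nat_lit 0)) (P (nat_lit 18592351234228224))) (P (nat_lit 0)))))) (T.h (T.h (T.h (P (nat_lit 32202323609322397531897856)) (T.h (P (nat_lit 0)) (M (nat_lit 20112959232985268223))))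 (T.h (P (nat_lit 0)) (P (nat_lit 164501384940125945856)))) (T.h (T.h (P (nat_lit 0)) (T.h (T.h (P (nat_lit 0)) (P (nat_lit 25101941556903936))) (P (nat_lit 0)))) (M (nat_lit 51473594901898199039)))))), (T.h (T.h (T.h (P (nat_lit 0)) (T.h (M (nat_lit 40867267336703657242131431423)) (T.h (P (nat_lit 0)) (P (nat_lit 44032226377937136386048))))) (T.h (P (nat_lit 0)) (T.h (T.h (P (nat_lit 0)) (M (nat_lit 134739501518938519371775))) (P (nat_lit 0))))) (T.h (T.h (P (nat_lit 0)) (T.h (T.h (P (nat_lit 22632415224394767728115712)) (T.h (P (nat_lit 0)) (P (nat_lit 73530299504536846336)))) (T.h (P (nat_lit 0)) (P (nat_lit 7930572901915295744))))) (T.h (T.h (T.h (P (nat_lit 0)) (M (nat_lit 32258207812325363154943))) (P (nat_lit 0))) (T.h (T.h (P (nat_lit 0)) (M (nat_lit 14527836822903455743))) (P (nat_lit 0))))))]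
def lP11_23 : List (T ℤ) := [(T.h (T.h (P (nat_lit 0)) (T.h (T.h (P (nat_lit 0)) (T.h (P (nat_lit 7277978670301944695750656)) (T.h (P (nat_lit 0)) (M (nat_lit 12312974890020896767))))) (T.h (P (nat_lit 0)) (T.h (T.h (P (nat_lit 0)) (M (nat_lit 12222446504450719743))) (P (nat_lit 0)))))) (T.h (T.h (T.h (M (nat_lit 76394196545577736441469861887)) (T.h (P (nat_lit 0)) (T.h (P (nat_lit 8024761901606103941120)) (T.h (P (nat_lit 0)) (M (nat_lit 11983694345601023)))))) (T.h (P (nat_lit 0)) (T.h (T.h (M (nat_lit 37673336110928275439615)) (T.h (P (nat_lit 0)) (P (nat_lit 39481570047098880)))) (T.h (P (nat_lit 0)) (P (nat_lit 15083322570375168)))))) (T.h (T.h (P (nat_lit 0)) (T.h (T.h (P (nat_lit 0)) (P (nat_lit 9307014897957076992))) (P (nat_lit 0)))) (T.h (T.h (T.h (M (nat_lit 13922102980717876084735)) (T.h (P (nat_lit 0)) (P (nat_lit 4977506114076672)))) (T.h (P (nat_lit 0)) (P (nat_lit 9454722492923904)))) (T.h (P (nat_lit 0)) (M (nat_lit 2554467153936383))))))),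 (T.h (T.h (P (nat_lit 0)) (T.h (T.h (M (nat_lit 3387695508467639197435428863)) (T.h (P (nat_lit 0)) (M (nat_lit 36272100889309380345855)))) (T.h (P (nat_lit 0)) (P (nat_lit 27185431502022145736704))))) (T.h (T.h (T.h (P (nat_lit 0)) (T.h (P (nat_lit 6901087889603827716849664)) (T.h (P (nat_lit 0)) (M (nat_lit 6921084663494606847))))) (T.h (P (nat_lit 0)) (T.h (T.h (P (nat_lit 0)) (M (nat_lit 16611612996791173119))) (P (nat_lit 0))))) (T.h (T.h (P (nat_lit 0)) (M (nat_lit 148031791823306123902975))) (T.h (T.h (T.h (P (nat_lit 0)) (P (nat_lit 2780598039104978944))) (P (nat_lit 0))) (P (nat_lit 0)))))), (T.h (T.h (T.h (P (nat_lit 0)) (T.h (M (nat_lit 5276712706528439406222639103)) (T.h (P (nat_lit 0)) (P (nat_lit 3529186847095431102464))))) (T.h (P (nat_lit 0)) (T.h (T.h (P (nat_lit 0)) (M (nat_lit 5605373702905662537727))) (P (nat_lit 0))))) (T.h (T.h (P (nat_lit 0)) (T.h (T.h (M (nat_lit 5269067426317406327275519)) (T.h (P (nat_lit 0)) (M (nat_lit 33419326021626232831))))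 (T.h (P (nat_lit 0)) (M (nat_lit 20699427513028313087))))) (T.h (T.h (T.h (P (nat_lit 0)) (P (nat_lit 231554161711410839552))) (P (nat_lit 0))) (T.h (T.h (P (nat_lit 0)) (M (nat_lit 11094626124053872639))) (P (nat_lit 0)))))), (P (nat_lit 0)), (P (nat_lit 0)), (T.h (T.h (T.h (M (nat_lit 231541330990421274629362417663)) (T.h (P (nat_lit 0)) (T.h (M (nat_lit 3569015244786354544967679)) (T.h (P (nat_lit 0)) (P (nat_lit 631264490440097792)))))) (T.h (P (nat_lit 0)) (T.h (T.h (P (nat_lit 0)) (T.h (P (nat_lit 0)) (P (nat_lit 4235541714296635392)))) (P (nat_lit 0))))) (T.h (T.h (P (nat_lit 0)) (T.h (T.h (P (nat_lit 0)) (T.h (M (nat_lit 36647654013845643460607)) (T.h (P (nat_lit 0)) (M (nat_lit 3493448433926143))))) (T.h (P (nat_lit 0)) (T.h (T.h (P (nat_lit 0)) (M (nat_lit 6475149598654463))) (P (nat_lit 0)))))) (T.h (T.h (T.h (M (nat_lit 3569015244786354544967679)) (T.h (P (nat_lit 0)) (M (nat_lit 40000117314756280319)))) (T.h (P (nat_lit 0)) (P (nat_lit 4235541714296635392))))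 (T.h (T.h (P (nat_lit 0)) (T.h (T.h (P (nat_lit 0)) (M (nat_lit 3493448433926143))) (P (nat_lit 0)))) (P (nat_lit 631264490440097792)))))), (T.h (T.h (T.h (P (nat_lit 0)) (T.h (P (nat_lit 32656553038288046060575129600)) (T.h (P (nat_lit 0)) (T.h (P (nat_lit 7363688533803120197632)) (T.h (P (nat_lit 0)) (M (nat_lit 220796630335487))))))) (T.h (P (nat_lit 0)) (T.h (T.h (P (nat_lit 0)) (T.h (M (nat_lit 15880694973642691313663)) (T.h (P (nat_lit 0)) (P (nat_lit 12141505585938432))))) (T.h (P (nat_lit 0)) (T.h (T.h (P (nat_lit 0)) (M (nat_lit 194936912609279))) (P (nat_lit 0))))))) (T.h (T.h (P (nat_lit 0)) (T.h (T.h (P (nat_lit 18361088292942342694895616)) (T.h (P (nat_lit 0)) (M (nat_lit 13036727460421435391)))) (T.h (P (nat_lit 0)) (P (nat_lit 5552322172325724160))))) (T.h (T.h (T.h (P (nat_lit 0)) (T.h (P (nat_lit 30084483994422802907136)) (T.h (P (nat_lit 0)) (M (nat_lit 3689423423733759))))) (T.h (P (nat_lit 0)) (T.h (T.h (P (nat_lit 0)) (P (nat_lit 5600629794930688)))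 (P (nat_lit 0))))) (T.h (T.h (P (nat_lit 0)) (M (nat_lit 2157869546520707071))) (T.h (T.h (T.h (P (nat_lit 0)) (M (nat_lit 3645792647774207))) (P (nat_lit 0))) (P (nat_lit 0))))))), (T.h (T.h (T.h (P (nat_lit 0)) (T.h (P (nat_lit 0)) (T.h (M (nat_lit 202648603037179402256383)) (T.h (P (nat_lit 0)) (M (nat_lit 3437973054217519103)))))) (T.h (P (nat_lit 0)) (T.h (T.h (P (nat_lit 0)) (T.h (P (nat_lit 0)) (M (nat_lit 10793703863186620415)))) (T.h (P (nat_lit 0)) (M (nat_lit 552709772135104511)))))) (T.h (T.h (P (nat_lit 0)) (T.h (T.h (P (nat_lit 0)) (T.h (P (nat_lit 40872332593621807136768)) (T.h (P (nat_lit 0)) (P (nat_lit 5870480457662464))))) (T.h (P (nat_lit 0)) (T.h (T.h (P (nat_lit 0)) (P (nat_lit 7058222133673984))) (P (nat_lit 0)))))) (T.h (T.h (T.h (P (nat_lit 12490453405460551285342208)) (T.h (P (nat_lit 0)) (P (nat_lit 49740724873375776768)))) (T.h (P (nat_lit 0)) (P (nat_lit 6890058237970743296)))) (T.h (T.h (P (nat_lit 0)) (T.h (T.h (P (nat_lit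 0)) (M (nat_lit 2868643210854399))) (P (nat_lit 0)))) (P (nat_lit 812847327025823744))))))]
def lP11_24 : List (T ℤ) := [(T.h (T.h (T.h (P (nat_lit 0)) (T.h (M (nat_lit 28594865004676513644159172607)) (T.h (P (nat_lit 0)) (M (nat_lit 5040543764096126812159))))) (T.h (P (nat_lit 0)) (T.h (T.h (P (nat_lit 0)) (T.h (P (nat_lit 9192677989439676350464)) (T.h (P (nat_lit 0)) (P (nat_lit 738651429666816))))) (T.h (P (nat_lit 0)) (T.h (T.h (P (nat_lit 0)) (P (nat_lit 1895257306300416))) (P (nat_lit 0))))))) (T.h (T.h (P (nat_lit 0)) (T.h (T.h (M (nat_lit 11966167736419842051276799)) (T.h (P (nat_lit 0)) (P (nat_lit 23557292345440337920)))) (T.h (P (nat_lit 0)) (M (nat_lit 3731991322861502463))))) (T.h (T.h (T.h (P (nat_lit 0)) (T.h (M (nat_lit 21528506760766722932735)) (T.h (P (nat_lit 0)) (P (nat_lit 154781880287232))))) (P (nat_lit 0))) (T.h (T.h (P (nat_lit 0)) (P (nat_lit 2052704746300506112))) (T.h (T.h (T.h (P (nat_lit 0)) (P (nat_lit 3398585621741568))) (P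 (nat_lit 0))) (P (nat_lit 0))))))), (T.h (T.h (T.h (P (nat_lit 14562162258249013777924918083584)) (T.h (P (nat_lit 0)) (T.h (P (nat_lit 5400635009370655693996032)) (T.h (P (nat_lit 0)) (M (nat_lit 1544577741599277055)))))) (T.h (P (nat_lit 0)) (T.h (T.h (P (nat_lit 472108168470894989017088)) (T.h (P (nat_lit 0)) (M (nat_lit 2606053976117870591)))) (T.h (P (nat_lit 0)) (P (nat_lit 555935322035191808)))))) (T.h (T.h (P (nat_lit 0)) (T.h (T.h (P (nat_lit 0)) (M (nat_lit 14866527205867955159039))) (P (nat_lit 0)))) (T.h (T.h (T.h (M (nat_lit 1586501907438543587770367)) (T.h (P (nat_lit 0)) (P (nat_lit 272633426224349184)))) (T.h (P (nat_lit 0)) (P (nat_lit 613938376747253760)))) (T.h (P (nat_lit 0)) (P (nat_lit 1238029958807289856)))))), (P (nat_lit 0)), (T.h (T.h (P (nat_lit 0)) (T.h (T.h (P (nat_lit 0)) (T.h (P (nat_lit 4522944407224301738000384)) (T.h (P (nat_lit 0)) (P (nat_lit 4169824286824988672))))) (T.h (P (nat_lit 0)) (T.h (T.h (P (nat_lit 0)) (P (nat_lit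 4169824286824988672))) (P (nat_lit 0)))))) (T.h (T.h (T.h (P (nat_lit 0)) (T.h (P (nat_lit 0)) (T.h (M (nat_lit 393394788669509861375)) (T.h (P (nat_lit 0)) (M (nat_lit 9592676862263295)))))) (T.h (P (nat_lit 0)) (T.h (T.h (M (nat_lit 393394788669509861375)) (T.h (P (nat_lit 0)) (M (nat_lit 2885507989110783)))) (T.h (P (nat_lit 0)) (M (nat_lit 9592676862263295)))))) (T.h (T.h (P (nat_lit 0)) (T.h (T.h (P (nat_lit 0)) (M (nat_lit 20828737242849607679))) (P (nat_lit 0)))) (T.h (T.h (T.h (P (nat_lit 0)) (T.h (P (nat_lit 0)) (M (nat_lit 6466019186049023)))) (T.h (P (nat_lit 0)) (M (nat_lit 6466019186049023)))) (T.h (P (nat_lit 0)) (M (nat_lit 1517611902173183))))))), (T.h (T.h (P (nat_lit 0)) (T.h (T.h (P (nat_lit 39693271727488054299933540352)) (T.h (P (nat_lit 0)) (T.h (M (nat_lit 19299222592263443972095)) (T.h (P (nat_lit 0)) (P (nat_lit 12994727653670912)))))) (T.h (P (nat_lit 0)) (T.h (T.h (P (nat_lit 1600137620552457125888)) (T.h (P (nat_lit 0)) (P (nat_lit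 3756373281210368)))) (T.h (P (nat_lit 0)) (M (nat_lit 6003141117739007))))))) (T.h (T.h (T.h (P (nat_lit 0)) (T.h (M (nat_lit 38685949959920147863961599)) (T.h (P (nat_lit 0)) (M (nat_lit 11553737432293703679))))) (T.h (P (nat_lit 0)) (T.h (T.h (P (nat_lit 0)) (P (nat_lit 46056362005355298816))) (P (nat_lit 0))))) (T.h (T.h (P (nat_lit 0)) (T.h (T.h (M (nat_lit 12139391851846667599871)) (T.h (P (nat_lit 0)) (P (nat_lit 80522866575802368)))) (T.h (P (nat_lit 0)) (P (nat_lit 279660247908352))))) (T.h (T.h (T.h (P (nat_lit 0)) (M (nat_lit 34114175090991038463))) (P (nat_lit 0))) (T.h (T.h (P (nat_lit 0)) (P (nat_lit 19704229713543168))) (P (nat_lit 0))))))), (T.h (T.h (P (nat_lit 0)) (T.h (T.h (P (nat_lit 0)) (T.h (P (nat_lit 8907670941466001565286400)) (T.h (P (nat_lit 0)) (M (nat_lit 32850290879351488511))))) (T.h (P (nat_lit 0)) (T.h (T.h (P (nat_lit 0)) (M (nat_lit 10157880130408546303))) (P (nat_lit 0)))))) (T.h (T.h (T.h (P (nat_lit 8894116918151559282853675008))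 (T.h (P (nat_lit 0)) (T.h (P (nat_lit 33722942832664821891072)) (T.h (P (nat_lit 0)) (P (nat_lit 16085244215427072)))))) (T.h (P (nat_lit 0)) (T.h (T.h (M (nat_lit 16248505565719696506879)) (T.h (P (nat_lit 0)) (P (nat_lit 29603302290817024)))) (T.h (P (nat_lit 0)) (P (nat_lit 13110701554270208)))))) (T.h (T.h (P (nat_lit 0)) (T.h (T.h (P (nat_lit 0)) (M (nat_lit 28954702120136736767))) (P (nat_lit 0)))) (T.h (T.h (T.h (M (nat_lit 20519660205683568017407)) (T.h (P (nat_lit 0)) (P (nat_lit 29997582427947008)))) (T.h (P (nat_lit 0)) (P (nat_lit 9334012262744064)))) (P (nat_lit 0)))))), (T.h (T.h (P (nat_lit 0)) (T.h (T.h (M (nat_lit 58563857056695683991302307839)) (T.h (P (nat_lit 0)) (T.h (P (nat_lit 3843571414089190080512)) (T.h (P (nat_lit 0)) (M (nat_lit 4687499992301567)))))) (T.h (P (nat_lit 0)) (T.h (T.h (M (nat_lit 17225768161661578903551)) (T.h (P (nat_lit 0)) (P (nat_lit 17216402791464960)))) (T.h (P (nat_lit 0)) (M (nat_lit 3720088609357823)))))))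 (T.h (T.h (T.h (P (nat_lit 0)) (T.h (P (nat_lit 45673022778121750688301056)) (T.h (P (nat_lit 0)) (P (nat_lit 14253265884922511360))))) (T.h (P (nat_lit 0)) (T.h (T.h (P (nat_lit 0)) (M (nat_lit 32711687646010671103))) (P (nat_lit 0))))) (T.h (T.h (P (nat_lit 0)) (T.h (T.h (P (nat_lit 8108657485441017053184)) (T.h (P (nat_lit 0)) (M (nat_lit 48455648891830271)))) (T.h (P (nat_lit 0)) (M (nat_lit 174287233941503))))) (T.h (T.h (T.h (P (nat_lit 0)) (M (nat_lit 31704313535716655103))) (P (nat_lit 0))) (T.h (T.h (P (nat_lit 0)) (M (nat_lit 7276835205611519))) (P (nat_lit 0))))))), (T.h (T.h (P (nat_lit 0)) (T.h (T.h (P (nat_lit 0)) (T.h (P (nat_lit 9533650392968229510184960)) (T.h (P (nat_lit 0)) (P (nat_lit 4261631954979389440))))) (T.h (P (nat_lit 0)) (T.h (T.h (P (nat_lit 0)) (M (nat_lit 18196777769839362047))) (P (nat_lit 0)))))) (T.h (T.h (T.h (M (nat_lit 19472614965897669399187292159)) (T.h (P (nat_lit 0)) (M (nat_lit 102025982773308359180287)))) (T.h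 (P (nat_lit 0)) (P (nat_lit 455310933304797036544)))) (T.h (T.h (P (nat_lit 0)) (T.h (T.h (P (nat_lit 0)) (P (nat_lit 21510889844164788224))) (P (nat_lit 0)))) (P (nat_lit 21163988139213750009856)))))]
def lP11_25 : List (T ℤ) := [(T.h (T.h (T.h (M (nat_lit 702503318116329621362881593343)) (T.h (P (nat_lit 0)) (T.h (M (nat_lit 1942057638129030519586815)) (T.h (P (nat_lit 0)) (M (nat_lit 3371299736341446655)))))) (T.h (P (nat_lit 0)) (T.h (T.h (M (nat_lit 5511072882915385064554495)) (T.h (P (nat_lit 0)) (P (nat_lit 3679092220721364992)))) (T.h (P (nat_lit 0)) (M (nat_lit 2740035245901348863)))))) (T.h (T.h (P (nat_lit 0)) (T.h (T.h (P (nat_lit 0)) (T.h (M (nat_lit 36109578655027135774719)) (T.h (P (nat_lit 0)) (M (nat_lit 7073660873342975))))) (T.h (P (nat_lit 0)) (T.h (T.h (P (nat_lit 0)) (M (nat_lit 4091959708614655))) (P (nat_lit 0)))))) (T.h (T.h (T.h (M (nat_lit 3511115643918589001465855)) (T.h (P (nat_lit 0)) (P (nat_lit 5428483423788335104)))) (T.h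 (P (nat_lit 0)) (M (nat_lit 38807175605264580607)))) (T.h (T.h (P (nat_lit 0)) (T.h (T.h (P (nat_lit 0)) (M (nat_lit 5076529091313663))) (P (nat_lit 0)))) (M (nat_lit 215169638814711807)))))), (T.h (T.h (T.h (P (nat_lit 0)) (T.h (P (nat_lit 55221998949462974010054672384)) (T.h (P (nat_lit 0)) (T.h (P (nat_lit 27264164408173673840640)) (T.h (P (nat_lit 0)) (P (nat_lit 9150280330575872))))))) (T.h (P (nat_lit 0)) (T.h (T.h (P (nat_lit 0)) (T.h (P (nat_lit 4200788420264904884224)) (T.h (P (nat_lit 0)) (M (nat_lit 5479029165686783))))) (T.h (P (nat_lit 0)) (T.h (T.h (P (nat_lit 0)) (P (nat_lit 319159333519360))) (P (nat_lit 0))))))) (T.h (T.h (P (nat_lit 0)) (T.h (T.h (M (nat_lit 60295914289474881959493631)) (T.h (P (nat_lit 0)) (M (nat_lit 9332677183400837119)))) (T.h (P (nat_lit 0)) (P (nat_lit 52521544886121398272))))) (T.h (T.h (T.h (P (nat_lit 0)) (T.h (P (nat_lit 5103117227019068243968)) (T.h (P (nat_lit 0)) (M (nat_lit 19685094694060031))))) (T.h (P (nat_lit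 0)) (T.h (T.h (P (nat_lit 0)) (P (nat_lit 5572251070889984))) (P (nat_lit 0))))) (T.h (T.h (P (nat_lit 0)) (P (nat_lit 24319490141856989184))) (T.h (T.h (T.h (P (nat_lit 0)) (M (nat_lit 4466280403861503))) (P (nat_lit 0))) (P (nat_lit 0))))))), (T.h (T.h (T.h (P (nat_lit 4862367950798846767216610770944)) (T.h (P (nat_lit 0)) (T.h (P (nat_lit 12224179581694546251087872)) (T.h (P (nat_lit 0)) (P (nat_lit 1724560837756059648)))))) (T.h (P (nat_lit 0)) (T.h (T.h (M (nat_lit 266273823766005034254335)) (T.h (P (nat_lit 0)) (M (nat_lit 16091310335331401727)))) (T.h (P (nat_lit 0)) (P (nat_lit 359003738595131392)))))) (T.h (T.h (P (nat_lit 0)) (T.h (T.h (P (nat_lit 0)) (T.h (P (nat_lit 182513382610604405030912)) (T.h (P (nat_lit 0)) (P (nat_lit 56142799308718080))))) (T.h (P (nat_lit 0)) (T.h (T.h (P (nat_lit 0)) (P (nat_lit 66069664653246464))) (P (nat_lit 0)))))) (T.h (T.h (T.h (M (nat_lit 468922426803184436510719)) (T.h (P (nat_lit 0)) (P (nat_lit 26759356300073631744))))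 (T.h (P (nat_lit 0)) (M (nat_lit 33775072436488765439)))) (T.h (T.h (P (nat_lit 0)) (T.h (T.h (P (nat_lit 0)) (P (nat_lit 64881922977234944))) (P (nat_lit 0)))) (M (nat_lit 2526259543487283199)))))), (T.h (T.h (T.h (P (nat_lit 0)) (T.h (M (nat_lit 111639084565308110667583062015)) (T.h (P (nat_lit 0)) (T.h (M (nat_lit 39484981292904688386047)) (T.h (P (nat_lit 0)) (M (nat_lit 10694952518221823))))))) (T.h (P (nat_lit 0)) (T.h (T.h (P (nat_lit 0)) (T.h (P (nat_lit 27704099958342383828992)) (T.h (P (nat_lit 0)) (M (nat_lit 8418601324707839))))) (T.h (P (nat_lit 0)) (T.h (T.h (P (nat_lit 0)) (M (nat_lit 7600330563846143))) (P (nat_lit 0))))))) (T.h (T.h (P (nat_lit 0)) (T.h (T.h (M (nat_lit 16284116165401987082354687)) (T.h (P (nat_lit 0)) (P (nat_lit 106176674857073246208)))) (T.h (P (nat_lit 0)) (M (nat_lit 73128364944465592319))))) (T.h (T.h (T.h (P (nat_lit 0)) (T.h (M (nat_lit 12157155756318574772223)) (T.h (P (nat_lit 0)) (M (nat_lit 4119908681318399)))))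 (T.h (P (nat_lit 0)) (T.h (T.h (P (nat_lit 0)) (M (nat_lit 47884073909157887))) (P (nat_lit 0))))) (T.h (T.h (P (nat_lit 0)) (M (nat_lit 87407615236842192895))) (T.h (T.h (T.h (P (nat_lit 0)) (P (nat_lit 11417582179713024))) (P (nat_lit 0))) (P (nat_lit 0))))))), (T.h (T.h (T.h (P (nat_lit 72164845750266258836439449993216)) (T.h (P (nat_lit 0)) (T.h (P (nat_lit 35189328518646503158317056)) (T.h (P (nat_lit 0)) (P (nat_lit 17848855930087669760)))))) (T.h (P (nat_lit 0)) (T.h (T.h (P (nat_lit 8275948850999721698787328)) (T.h (P (nat_lit 0)) (M (nat_lit 4096121544151924735)))) (T.h (P (nat_lit 0)) (P (nat_lit 14314608329991651328)))))) (T.h (T.h (P (nat_lit 0)) (T.h (T.h (P (nat_lit 0)) (M (nat_lit 128945604351942564249599))) (P (nat_lit 0)))) (T.h (T.h (T.h (P (nat_lit 11860278816002530611298304)) (T.h (P (nat_lit 0)) (M (nat_lit 6984047718104563711)))) (T.h (P (nat_lit 0)) (P (nat_lit 10990466178542993408)))) (T.h (P (nat_lit 0)) (P (nat_lit 6897119684500389888)))))),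 (T.h (T.h (P (nat_lit 0)) (T.h (T.h (P (nat_lit 50964804925013894208082149376)) (T.h (P (nat_lit 0)) (T.h (P (nat_lit 2975170884695903698944)) (T.h (P (nat_lit 0)) (P (nat_lit 13057807940812800)))))) (T.h (P (nat_lit 0)) (T.h (T.h (P (nat_lit 8133014226559813287936)) (T.h (P (nat_lit 0)) (M (nat_lit 21532618195828735)))) (T.h (P (nat_lit 0)) (P (nat_lit 2390372298326016))))))) (T.h (T.h (T.h (P (nat_lit 0)) (T.h (M (nat_lit 10710425911059386560675839)) (T.h (P (nat_lit 0)) (M (nat_lit 3946141932501073919))))) (T.h (P (nat_lit 0)) (T.h (T.h (P (nat_lit 0)) (P (nat_lit 15701798467397484544))) (P (nat_lit 0))))) (T.h (T.h (P (nat_lit 0)) (T.h (T.h (P (nat_lit 31917775378363474509824)) (T.h (P (nat_lit 0)) (M (nat_lit 56074701374488575)))) (T.h (P (nat_lit 0)) (M (nat_lit 19318031015018495))))) (T.h (T.h (T.h (P (nat_lit 0)) (P (nat_lit 43795206205234741248))) (P (nat_lit 0))) (T.h (T.h (P (nat_lit 0)) (M (nat_lit 18008412295430143))) (P (nat_lit 0))))))), (T.h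 (T.h (P (nat_lit 0)) (T.h (T.h (P (nat_lit 0)) (T.h (P (nat_lit 21983481191304210379964416)) (T.h (P (nat_lit 0)) (P (nat_lit 258681154364768256))))) (T.h (P (nat_lit 0)) (T.h (T.h (P (nat_lit 0)) (M (nat_lit 22433729594578173951))) (P (nat_lit 0)))))) (T.h (T.h (T.h (P (nat_lit 4028972986639539540131315712)) (T.h (P (nat_lit 0)) (T.h (P (nat_lit 10463880996995683319808)) (T.h (P (nat_lit 0)) (P (nat_lit 22840329922084864)))))) (T.h (P (nat_lit 0)) (T.h (T.h (P (nat_lit 60435329395380201717760)) (T.h (P (nat_lit 0)) (P (nat_lit 45316429866401792)))) (T.h (P (nat_lit 0)) (P (nat_lit 25814872583241728)))))) (T.h (T.h (P (nat_lit 0)) (T.h (T.h (P (nat_lit 0)) (P (nat_lit 19682121665866629120))) (P (nat_lit 0)))) (T.h (T.h (T.h (M (nat_lit 29265224384336552263679)) (T.h (P (nat_lit 0)) (P (nat_lit 33119459035185152)))) (T.h (P (nat_lit 0)) (P (nat_lit 53783029200388096)))) (T.h (P (nat_lit 0)) (P (nat_lit 1944089406472192))))))), (T.h (T.h (P (nat_lit 0)) (T.h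 (T.h (M (nat_lit 117117419585043013077408153599)) (T.h (P (nat_lit 0)) (T.h (P (nat_lit 27221817649665985740800)) (T.h (P (nat_lit 0)) (M (nat_lit 6417445493932031)))))) (T.h (P (nat_lit 0)) (T.h (T.h (M (nat_lit 46468515223469314539519)) (T.h (P (nat_lit 0)) (M (nat_lit 14169943868768255)))) (T.h (P (nat_lit 0)) (M (nat_lit 13265699276980223))))))) (T.h (T.h (T.h (P (nat_lit 0)) (T.h (P (nat_lit 28810614915232433201741824)) (T.h (P (nat_lit 0)) (M (nat_lit 101291306460544761855))))) (T.h (P (nat_lit 0)) (T.h (T.h (P (nat_lit 0)) (P (nat_lit 71239992060101525504))) (P (nat_lit 0))))) (T.h (T.h (P (nat_lit 0)) (T.h (T.h (P (nat_lit 22956731578314158768128)) (T.h (P (nat_lit 0)) (M (nat_lit 130402323378929663)))) (T.h (P (nat_lit 0)) (P (nat_lit 3220746156638208))))) (T.h (T.h (T.h (P (nat_lit 0)) (M (nat_lit 55333727039905595391))) (P (nat_lit 0))) (T.h (T.h (P (nat_lit 0)) (M (nat_lit 3828110280622079))) (P (nat_lit 0)))))))]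
def lP11_26 : List (T ℤ) := [(T.h (T.h (P (nat_lit 0)) (T.h (T.h (P (nat_lit 0)) (T.h (P (nat_lit 19182100134511518328815616)) (T.h (P (nat_lit 0)) (P (nat_lit 5084902959863562240))))) (T.h (P (nat_lit 0)) (T.h (T.h (P (nat_lit 0)) (M (nat_lit 4616779742736023551))) (P (nat_lit 0)))))) (T.h (T.h (T.h (M (nat_lit 27395621484421177028340875263)) (T.h (P (nat_lit 0)) (M (nat_lit 144473209679626903748607)))) (T.h (P (nat_lit 0)) (M (nat_lit 32713518745630160191487)))) (T.h (T.h (P (nat_lit 0)) (T.h (T.h (P (nat_lit 0)) (P (nat_lit 47708842287708504064))) (P (nat_lit 0)))) (P (nat_lit 47306577088496319594496))))), (T.h (T.h (T.h (P (nat_lit 0)) (T.h (P (nat_lit 0)) (T.h (P (nat_lit 0)) (T.h (P (nat_lit 0)) (M (nat_lit 1105419544270209023)))))) (T.h (P (nat_lit 0)) (T.h (T.h (P (nat_lit 12287804802423371883085824)) (T.h (P (nat_lit 0)) (M (nat_lit 3903645625215877119)))) (T.h (P (nat_lit 0)) (M (nat_lit 2625125727191695359)))))) (T.h (T.h (P (nat_lit 0)) (T.h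 (T.h (P (nat_lit 0)) (T.h (P (nat_lit 81744665187243614273536)) (T.h (P (nat_lit 0)) (P (nat_lit 14116444267347968))))) (T.h (P (nat_lit 0)) (T.h (T.h (P (nat_lit 0)) (P (nat_lit 3001837246808064))) (P (nat_lit 0)))))) (T.h (T.h (T.h (P (nat_lit 12287804802423371883085824)) (T.h (P (nat_lit 0)) (M (nat_lit 3903645625215877119)))) (T.h (P (nat_lit 0)) (P (nat_lit 99481449746751553536)))) (T.h (T.h (P (nat_lit 0)) (T.h (T.h (P (nat_lit 0)) (P (nat_lit 3001837246808064))) (P (nat_lit 0)))) (M (nat_lit 2625125727191695359)))))), (T.h (T.h (T.h (P (nat_lit 0)) (T.h (M (nat_lit 117127714113391367982604615679)) (T.h (P (nat_lit 0)) (T.h (M (nat_lit 34451536323323157807103)) (T.h (P (nat_lit 0)) (M (nat_lit 7440177218715647))))))) (T.h (P (nat_lit 0)) (T.h (T.h (P (nat_lit 0)) (T.h (P (nat_lit 11952228899530207133696)) (T.h (P (nat_lit 0)) (P (nat_lit 17042115557523456))))) (T.h (P (nat_lit 0)) (T.h (T.h (P (nat_lit 0)) (M (nat_lit 11964335197913087))) (P (nat_lit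 0))))))) (T.h (T.h (P (nat_lit 0)) (T.h (T.h (P (nat_lit 91346045556243501376602112)) (T.h (P (nat_lit 0)) (M (nat_lit 65423375292021342207)))) (T.h (P (nat_lit 0)) (M (nat_lit 17451047650794143743))))) (T.h (T.h (T.h (P (nat_lit 0)) (T.h (P (nat_lit 11952228899530207133696)) (T.h (P (nat_lit 0)) (P (nat_lit 17042115557523456))))) (T.h (P (nat_lit 0)) (T.h (T.h (P (nat_lit 0)) (M (nat_lit 96911297783660543))) (P (nat_lit 0))))) (T.h (T.h (P (nat_lit 0)) (M (nat_lit 17451047650794143743))) (T.h (T.h (T.h (P (nat_lit 0)) (M (nat_lit 11964335197913087))) (P (nat_lit 0))) (P (nat_lit 0))))))), (T.h (T.h (T.h (P (nat_lit 91094007969957705654804101988352)) (T.h (P (nat_lit 0)) (T.h (P (nat_lit 23980512356054710911762432)) (T.h (P (nat_lit 0)) (P (nat_lit 17078878577132306432)))))) (T.h (P (nat_lit 0)) (T.h (T.h (P (nat_lit 47309562058698683458781184)) (T.h (P (nat_lit 0)) (P (nat_lit 41569555904056000512)))) (T.h (P (nat_lit 0)) (P (nat_lit 28030614822719586304))))))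 (T.h (T.h (P (nat_lit 0)) (T.h (T.h (P (nat_lit 0)) (M (nat_lit 259947434793332883062783))) (P (nat_lit 0)))) (T.h (T.h (T.h (P (nat_lit 47309562058698683458781184)) (T.h (P (nat_lit 0)) (P (nat_lit 41569555904056000512)))) (T.h (P (nat_lit 0)) (P (nat_lit 26482968181361082368)))) (T.h (P (nat_lit 0)) (P (nat_lit 28030614822719586304)))))), (T.h (T.h (P (nat_lit 0)) (T.h (T.h (M (nat_lit 81680387041637295225636388863)) (T.h (P (nat_lit 0)) (T.h (P (nat_lit 17783617783557091491840)) (T.h (P (nat_lit 0)) (M (nat_lit 6564462969225215)))))) (T.h (P (nat_lit 0)) (T.h (T.h (M (nat_lit 15282777995193079562239)) (T.h (P (nat_lit 0)) (P (nat_lit 6315706739785728)))) (T.h (P (nat_lit 0)) (M (nat_lit 1149341850599423))))))) (T.h (T.h (T.h (P (nat_lit 0)) (T.h (M (nat_lit 11387876038932511647072255)) (T.h (P (nat_lit 0)) (M (nat_lit 7273363342498988031))))) (T.h (P (nat_lit 0)) (T.h (T.h (P (nat_lit 0)) (P (nat_lit 25782287496401387520))) (P (nat_lit 0))))) (T.h (T.h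 (P (nat_lit 0)) (T.h (T.h (M (nat_lit 52798822681310266392575)) (T.h (P (nat_lit 0)) (P (nat_lit 34062600577941504)))) (T.h (P (nat_lit 0)) (P (nat_lit 10030529833795584))))) (T.h (T.h (T.h (P (nat_lit 0)) (M (nat_lit 15767917565713580031))) (P (nat_lit 0))) (T.h (T.h (P (nat_lit 0)) (P (nat_lit 13956778089775104))) (P (nat_lit 0))))))), (T.h (T.h (P (nat_lit 0)) (T.h (T.h (P (nat_lit 0)) (T.h (P (nat_lit 15616985696053209621069824)) (T.h (P (nat_lit 0)) (M (nat_lit 26482498459511291903))))) (T.h (P (nat_lit 0)) (T.h (T.h (P (nat_lit 0)) (P (nat_lit 5677593967907045376))) (P (nat_lit 0)))))) (T.h (T.h (T.h (M (nat_lit 25473584079512858584584028159)) (T.h (P (nat_lit 0)) (P (nat_lit 455310933304797036544)))) (T.h (P (nat_lit 0)) (M (nat_lit 213785673707305102737407)))) (T.h (T.h (P (nat_lit 0)) (T.h (T.h (P (nat_lit 0)) (P (nat_lit 17200322471501234176))) (P (nat_lit 0)))) (P (nat_lit 45602326988986683228160))))), (T.h (T.h (T.h (P (nat_lit 41180004023536419786962317082624))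 (T.h (P (nat_lit 0)) (T.h (M (nat_lit 3242199158556738768076799)) (T.h (P (nat_lit 0)) (P (nat_lit 6331104363460689920)))))) (T.h (P (nat_lit 0)) (T.h (T.h (P (nat_lit 5270657647345830849413120)) (T.h (P (nat_lit 0)) (M (nat_lit 19943659610950336511)))) (T.h (P (nat_lit 0)) (M (nat_lit 3186897345665040383)))))) (T.h (T.h (P (nat_lit 0)) (T.h (T.h (P (nat_lit 0)) (M (nat_lit 13838414161144077877247))) (P (nat_lit 0)))) (T.h (T.h (T.h (M (nat_lit 1716479269463368432353279)) (T.h (P (nat_lit 0)) (M (nat_lit 16723667258085212159)))) (T.h (P (nat_lit 0)) (M (nat_lit 19952898382560755711)))) (T.h (P (nat_lit 0)) (M (nat_lit 404289645258473471)))))), (P (nat_lit 0))]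
def lP11_27 : List (T ℤ) := [(T.h (T.h (P (nat_lit 0)) (T.h (T.h (P (nat_lit 2442310398557518728414625792)) (T.h (P (nat_lit 0)) (T.h (M (nat_lit 3047215125714868109311)) (T.h (P (nat_lit 0)) (M (nat_lit 1626567914815487)))))) (T.h (P (nat_lit 0)) (T.h (T.h (P (nat_lit 3679752308041006972928)) (T.h (P (nat_lit 0)) (P (nat_lit 140431119548416)))) (T.h (P (nat_lit 0)) (M (nat_lit 11815390019583))))))) (T.h (T.h (T.h (P (nat_lit 0)) (T.h (M (nat_lit 14280217490853106859114495)) (T.h (P (nat_lit 0)) (P (nat_lit 3431769517741572096))))) (T.h (P (nat_lit 0)) (T.h (T.h (P (nat_lit 0)) (P (nat_lit 3565072346572128256))) (P (nat_lit 0))))) (T.h (T.h (P (nat_lit 0)) (T.h (T.h (P (nat_lit 10983023708140231196672)) (T.h (P (nat_lit 0)) (P (nat_lit 3547622079004672)))) (T.h (P (nat_lit 0)) (M (nat_lit 1039951104770047))))) (T.h (T.h (T.h (P (nat_lit 0)) (M (nat_lit 5463924327831306239))) (P (nat_lit 0))) (T.h (T.h (P (nat_lit 0)) (M (nat_lit 664208017784831))) (P (nat_lit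 0))))))), (T.h (T.h (P (nat_lit 0)) (T.h (T.h (P (nat_lit 0)) (T.h (P (nat_lit 18361088292942342694895616)) (T.h (P (nat_lit 0)) (M (nat_lit 2157869546520707071))))) (T.h (P (nat_lit 0)) (T.h (T.h (P (nat_lit 0)) (P (nat_lit 5552322172325724160))) (P (nat_lit 0)))))) (T.h (T.h (T.h (P (nat_lit 32656553038288046060575129600)) (T.h (P (nat_lit 0)) (T.h (P (nat_lit 30084483994422802907136)) (T.h (P (nat_lit 0)) (M (nat_lit 3645792647774207)))))) (T.h (P (nat_lit 0)) (T.h (T.h (M (nat_lit 15880694973642691313663)) (T.h (P (nat_lit 0)) (P (nat_lit 5600629794930688)))) (T.h (P (nat_lit 0)) (M (nat_lit 194936912609279)))))) (T.h (T.h (P (nat_lit 0)) (T.h (T.h (P (nat_lit 0)) (M (nat_lit 13036727460421435391))) (P (nat_lit 0)))) (T.h (T.h (T.h (P (nat_lit 7363688533803120197632)) (T.h (P (nat_lit 0)) (M (nat_lit 3689423423733759)))) (T.h (P (nat_lit 0)) (P (nat_lit 12141505585938432)))) (T.h (P (nat_lit 0)) (M (nat_lit 220796630335487))))))), (T.h (T.h (P (nat_lit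 0)) (T.h (T.h (P (nat_lit 2120122278237486535193657344)) (T.h (P (nat_lit 0)) (T.h (M (nat_lit 6397935496113302798335)) (T.h (P (nat_lit 0)) (P (nat_lit 3993105336041472)))))) (T.h (P (nat_lit 0)) (T.h (T.h (M (nat_lit 1352678270254679326719)) (T.h (P (nat_lit 0)) (P (nat_lit 2523038380785664)))) (P (nat_lit 0)))))) (T.h (T.h (T.h (P (nat_lit 0)) (T.h (P (nat_lit 40543104508391291520811008)) (T.h (P (nat_lit 0)) (P (nat_lit 16121777625906544640))))) (T.h (P (nat_lit 0)) (T.h (T.h (P (nat_lit 0)) (M (nat_lit 8197742967738335231))) (P (nat_lit 0))))) (T.h (T.h (P (nat_lit 0)) (T.h (T.h (M (nat_lit 6397935496113302798335)) (T.h (P (nat_lit 0)) (M (nat_lit 786403700375551)))) (T.h (P (nat_lit 0)) (P (nat_lit 2523038380785664))))) (T.h (T.h (T.h (P (nat_lit 0)) (P (nat_lit 16121777625906544640))) (P (nat_lit 0))) (T.h (T.h (P (nat_lit 0)) (P (nat_lit 3993105336041472))) (P (nat_lit 0))))))), (T.h (T.h (P (nat_lit 0)) (T.h (T.h (P (nat_lit 0)) (T.h (P (nat_lit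 578291697487330404204544)) (T.h (P (nat_lit 0)) (M (nat_lit 17820622312014086143))))) (T.h (P (nat_lit 0)) (T.h (T.h (P (nat_lit 0)) (M (nat_lit 3541372019637485567))) (P (nat_lit 0)))))) (T.h (T.h (T.h (M (nat_lit 53085522036960781581477216255)) (T.h (P (nat_lit 0)) (T.h (M (nat_lit 31270315920543543459839)) (T.h (P (nat_lit 0)) (P (nat_lit 10558192468033536)))))) (T.h (P (nat_lit 0)) (T.h (T.h (P (nat_lit 8590939794117415141376)) (T.h (P (nat_lit 0)) (P (nat_lit 34062600577941504)))) (T.h (P (nat_lit 0)) (M (nat_lit 8459720275525631)))))) (T.h (T.h (P (nat_lit 0)) (T.h (T.h (P (nat_lit 0)) (P (nat_lit 2224995150961049600))) (P (nat_lit 0)))) (T.h (T.h (T.h (M (nat_lit 10242234231096952750079)) (T.h (P (nat_lit 0)) (P (nat_lit 9875747953508352)))) (T.h (P (nat_lit 0)) (P (nat_lit 5577055310118912)))) (T.h (P (nat_lit 0)) (M (nat_lit 1149341850599423))))))), (T.h (T.h (P (nat_lit 0)) (T.h (T.h (M (nat_lit 4996804256147560436517044223)) (T.h (P (nat_lit 0))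 (P (nat_lit 4296544144108300533760)))) (T.h (P (nat_lit 0)) (P (nat_lit 699374331989025882112))))) (T.h (T.h (T.h (P (nat_lit 0)) (T.h (M (nat_lit 7693749846238283348049919)) (T.h (P (nat_lit 0)) (M (nat_lit 14521116546631204863))))) (T.h (P (nat_lit 0)) (T.h (T.h (P (nat_lit 0)) (M (nat_lit 23253401994541400063))) (P (nat_lit 0))))) (T.h (T.h (P (nat_lit 0)) (P (nat_lit 257028261180969320448))) (T.h (T.h (T.h (P (nat_lit 0)) (M (nat_lit 11382046171812855807))) (P (nat_lit 0))) (P (nat_lit 0)))))), (T.h (T.h (T.h (P (nat_lit 0)) (T.h (P (nat_lit 2442310398557518728414625792)) (T.h (P (nat_lit 0)) (T.h (P (nat_lit 3679752308041006972928)) (T.h (P (nat_lit 0)) (M (nat_lit 11815390019583))))))) (T.h (P (nat_lit 0)) (T.h (T.h (P (nat_lit 0)) (T.h (M (nat_lit 3047215125714868109311)) (T.h (P (nat_lit 0)) (P (nat_lit 140431119548416))))) (T.h (P (nat_lit 0)) (T.h (T.h (P (nat_lit 0)) (M (nat_lit 1626567914815487))) (P (nat_lit 0))))))) (T.h (T.h (P (nat_lit 0))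 (T.h (T.h (M (nat_lit 14280217490853106859114495)) (T.h (P (nat_lit 0)) (P (nat_lit 3565072346572128256)))) (T.h (P (nat_lit 0)) (P (nat_lit 3431769517741572096))))) (T.h (T.h (T.h (P (nat_lit 0)) (T.h (P (nat_lit 10983023708140231196672)) (T.h (P (nat_lit 0)) (M (nat_lit 1039951104770047))))) (T.h (P (nat_lit 0)) (T.h (T.h (P (nat_lit 0)) (P (nat_lit 3547622079004672))) (P (nat_lit 0))))) (T.h (T.h (P (nat_lit 0)) (M (nat_lit 5463924327831306239))) (T.h (T.h (T.h (P (nat_lit 0)) (M (nat_lit 664208017784831))) (P (nat_lit 0))) (P (nat_lit 0))))))), (T.h (T.h (T.h (P (nat_lit 1010262057425128725540505649152)) (T.h (P (nat_lit 0)) (T.h (M (nat_lit 18926181072577156459003903)) (T.h (P (nat_lit 0)) (P (nat_lit 18314824017116135424)))))) (T.h (P (nat_lit 0)) (T.h (T.h (M (nat_lit 18133991237298837331640319)) (T.h (P (nat_lit 0)) (P (nat_lit 2591826363434401792)))) (T.h (P (nat_lit 0)) (P (nat_lit 19614236116892254208)))))) (T.h (T.h (P (nat_lit 0)) (T.h (T.h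 (P (nat_lit 0)) (T.h (P (nat_lit 18923239735702092513280)) (T.h (P (nat_lit 0)) (M (nat_lit 5925133438943231))))) (T.h (P (nat_lit 0)) (T.h (T.h (P (nat_lit 0)) (M (nat_lit 12903262501797887))) (P (nat_lit 0)))))) (T.h (T.h (T.h (M (nat_lit 1587901206242065085628415)) (T.h (P (nat_lit 0)) (M (nat_lit 47841265680042164223)))) (T.h (P (nat_lit 0)) (M (nat_lit 53148215490950201343)))) (T.h (T.h (P (nat_lit 0)) (T.h (T.h (P (nat_lit 0)) (M (nat_lit 3989539368140799))) (P (nat_lit 0)))) (P (nat_lit 10463980613563056128)))))), (T.h (T.h (T.h (P (nat_lit 0)) (T.h (P (nat_lit 8894116918151559282853675008)) (T.h (P (nat_lit 0)) (M (nat_lit 20519660205683568017407))))) (T.h (P (nat_lit 0)) (T.h (T.h (P (nat_lit 0)) (T.h (M (nat_lit 16248505565719696506879)) (T.h (P (nat_lit 0)) (P (nat_lit 9334012262744064))))) (T.h (P (nat_lit 0)) (T.h (T.h (P (nat_lit 0)) (P (nat_lit 13110701554270208))) (P (nat_lit 0))))))) (T.h (T.h (P (nat_lit 0)) (T.h (T.h (P (nat_lit 8907670941466001565286400))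 (T.h (P (nat_lit 0)) (M (nat_lit 28954702120136736767)))) (T.h (P (nat_lit 0)) (M (nat_lit 10157880130408546303))))) (T.h (T.h (T.h (P (nat_lit 0)) (T.h (P (nat_lit 33722942832664821891072)) (T.h (P (nat_lit 0)) (P (nat_lit 29997582427947008))))) (T.h (P (nat_lit 0)) (T.h (T.h (P (nat_lit 0)) (P (nat_lit 29603302290817024))) (P (nat_lit 0))))) (T.h (T.h (P (nat_lit 0)) (M (nat_lit 32850290879351488511))) (T.h (T.h (T.h (P (nat_lit 0)) (P (nat_lit 16085244215427072))) (P (nat_lit 0))) (P (nat_lit 0)))))))]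
def lP11_28 : List (T ℤ) := [(T.h (T.h (T.h (M (nat_lit 10032244771051151039943298514943)) (T.h (P (nat_lit 0)) (T.h (P (nat_lit 13504962133677822730829824)) (T.h (P (nat_lit 0)) (M (nat_lit 33094276176383311871)))))) (T.h (P (nat_lit 0)) (T.h (T.h (P (nat_lit 48053906595039940370759680)) (T.h (P (nat_lit 0)) (M (nat_lit 19068183177919987711)))) (T.h (P (nat_lit 0)) (M (nat_lit 8662364521584656383)))))) (T.h (T.h (P (nat_lit 0)) (T.h (T.h (P (nat_lit 0)) (T.h (M (nat_lit 55476096322105958727679)) (T.h (P (nat_lit 0)) (P (nat_lit 13804903992459264))))) (T.h (P (nat_lit 0)) (T.h (T.h (P (nat_lit 0)) (P (nat_lit 58462027903008768))) (P (nat_lit 0)))))) (T.h (T.h (T.h (P (nat_lit 13504962133677822730829824)) (T.h (P (nat_lit 0)) (P (nat_lit 117064877601634385920)))) (T.h (P (nat_lit 0)) (M (nat_lit 19068183177919987711)))) (T.h (T.h (P (nat_lit 0)) (T.h (T.h (P (nat_lit 0)) (P (nat_lit 13804903992459264))) (P (nat_lit 0)))) (M (nat_lit 33094276176383311871)))))),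 (T.h (T.h (T.h (P (nat_lit 0)) (T.h (M (nat_lit 6000969113615189185396735999)) (T.h (P (nat_lit 0)) (P (nat_lit 24438338849772933218304))))) (P (nat_lit 0))) (T.h (T.h (P (nat_lit 0)) (T.h (T.h (P (nat_lit 6083335303084980110884864)) (T.h (P (nat_lit 0)) (M (nat_lit 4310567372663554047)))) (T.h (P (nat_lit 0)) (M (nat_lit 8285720689671929855))))) (T.h (T.h (T.h (P (nat_lit 0)) (M (nat_lit 111759690933996743557119))) (P (nat_lit 0))) (T.h (T.h (P (nat_lit 0)) (P (nat_lit 1415962012927655936))) (P (nat_lit 0)))))), (T.h (T.h (P (nat_lit 0)) (T.h (T.h (P (nat_lit 0)) (T.h (P (nat_lit 6391291468122572764217344)) (T.h (P (nat_lit 0)) (P (nat_lit 738738444527730688))))) (T.h (P (nat_lit 0)) (T.h (T.h (P (nat_lit 0)) (M (nat_lit 774617917210755071))) (P (nat_lit 0)))))) (T.h (T.h (T.h (P (nat_lit 24533176971064981227743215616)) (T.h (P (nat_lit 0)) (T.h (M (nat_lit 3782431575240647639039)) (T.h (P (nat_lit 0)) (M (nat_lit 3846132419231743)))))) (T.h (P (nat_lit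 0)) (T.h (T.h (P (nat_lit 14250300097114629210112)) (T.h (P (nat_lit 0)) (P (nat_lit 3871891009961984)))) (T.h (P (nat_lit 0)) (M (nat_lit 2900823876468735)))))) (T.h (T.h (P (nat_lit 0)) (T.h (T.h (P (nat_lit 0)) (M (nat_lit 36023146742257025023))) (P (nat_lit 0)))) (T.h (T.h (T.h (P (nat_lit 1330601317018053378048)) (T.h (P (nat_lit 0)) (M (nat_lit 10406409639919615)))) (T.h (P (nat_lit 0)) (P (nat_lit 167460857806848)))) (T.h (P (nat_lit 0)) (P (nat_lit 741585884282880))))))), (T.h (T.h (P (nat_lit 0)) (T.h (T.h (P (nat_lit 5746800424422967225513672704)) (T.h (P (nat_lit 0)) (T.h (M (nat_lit 15413272141028831264767)) (T.h (P (nat_lit 0)) (P (nat_lit 12073842188025856)))))) (T.h (P (nat_lit 0)) (T.h (T.h (M (nat_lit 25043711753734569590783)) (T.h (P (nat_lit 0)) (P (nat_lit 8681195529961472)))) (T.h (P (nat_lit 0)) (P (nat_lit 845034740580352))))))) (T.h (T.h (T.h (P (nat_lit 0)) (T.h (P (nat_lit 25066800460561630132961280)) (T.h (P (nat_lit 0)) (M (nat_lit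 6901650912981286911))))) (T.h (P (nat_lit 0)) (T.h (T.h (P (nat_lit 0)) (M (nat_lit 14731472137529327615))) (P (nat_lit 0))))) (T.h (T.h (P (nat_lit 0)) (T.h (T.h (P (nat_lit 29681071982198015393792)) (T.h (P (nat_lit 0)) (P (nat_lit 17627784670347264)))) (T.h (P (nat_lit 0)) (P (nat_lit 30819837218652160))))) (T.h (T.h (T.h (P (nat_lit 0)) (M (nat_lit 24188117246850105343))) (P (nat_lit 0))) (T.h (T.h (P (nat_lit 0)) (P (nat_lit 19010372635656192))) (P (nat_lit 0))))))), (T.h (T.h (P (nat_lit 0)) (T.h (T.h (P (nat_lit 0)) (T.h (M (nat_lit 28828575599309159537836031)) (T.h (P (nat_lit 0)) (M (nat_lit 67534288178527600639))))) (T.h (P (nat_lit 0)) (T.h (T.h (P (nat_lit 0)) (M (nat_lit 73318984247689609215))) (P (nat_lit 0)))))) (T.h (T.h (T.h (M (nat_lit 87148427533023842730265018367)) (T.h (P (nat_lit 0)) (T.h (M (nat_lit 2415346596541754245119)) (T.h (P (nat_lit 0)) (P (nat_lit 4257975333421056)))))) (T.h (P (nat_lit 0)) (T.h (T.h (P (nat_lit 28305838153664645038080))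 (T.h (P (nat_lit 0)) (M (nat_lit 81946674487099391)))) (T.h (P (nat_lit 0)) (P (nat_lit 2754647017979904)))))) (T.h (T.h (P (nat_lit 0)) (T.h (T.h (P (nat_lit 0)) (P (nat_lit 127508972051552534528))) (P (nat_lit 0)))) (T.h (T.h (T.h (M (nat_lit 34283290825903862448127)) (T.h (P (nat_lit 0)) (M (nat_lit 13840874754539519)))) (T.h (P (nat_lit 0)) (M (nat_lit 13257005205159935)))) (T.h (P (nat_lit 0)) (M (nat_lit 9545610667622399))))))), (T.h (T.h (P (nat_lit 0)) (T.h (T.h (M (nat_lit 26391456626953548279461183487)) (T.h (P (nat_lit 0)) (M (nat_lit 32456490484449190871039)))) (T.h (P (nat_lit 0)) (P (nat_lit 23567612570712412258304))))) (T.h (T.h (T.h (P (nat_lit 0)) (T.h (P (nat_lit 5405014985188254869880832)) (T.h (P (nat_lit 0)) (M (nat_lit 7713105224876949503))))) (T.h (P (nat_lit 0)) (T.h (T.h (P (nat_lit 0)) (P (nat_lit 28766007665830658048))) (P (nat_lit 0))))) (T.h (T.h (P (nat_lit 0)) (M (nat_lit 28416974601521859657727))) (T.h (T.h (T.h (P (nat_lit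 0)) (M (nat_lit 10852175599695298559))) (P (nat_lit 0))) (P (nat_lit 0)))))), (T.h (T.h (T.h (P (nat_lit 0)) (T.h (M (nat_lit 1027194215491105522146344959)) (T.h (P (nat_lit 0)) (T.h (M (nat_lit 5876729818305680900095)) (T.h (P (nat_lit 0)) (P (nat_lit 845034740580352))))))) (T.h (P (nat_lit 0)) (T.h (T.h (P (nat_lit 0)) (T.h (M (nat_lit 5562702071422437556223)) (T.h (P (nat_lit 0)) (P (nat_lit 1870221648003072))))) (T.h (P (nat_lit 0)) (T.h (T.h (P (nat_lit 0)) (P (nat_lit 2956245969797120))) (P (nat_lit 0))))))) (T.h (T.h (P (nat_lit 0)) (T.h (T.h (P (nat_lit 56702234027486920088485888)) (T.h (P (nat_lit 0)) (P (nat_lit 6025487014869073920)))) (T.h (P (nat_lit 0)) (P (nat_lit 19378006843333804032))))) (T.h (T.h (T.h (P (nat_lit 0)) (T.h (M (nat_lit 10439806346580109295615)) (T.h (P (nat_lit 0)) (P (nat_lit 3345293171490816))))) (T.h (P (nat_lit 0)) (T.h (T.h (P (nat_lit 0)) (M (nat_lit 12761921320845311))) (P (nat_lit 0))))) (T.h (T.h (P (nat_lit 0)) (P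 (nat_lit 24783951258407927808))) (T.h (T.h (T.h (P (nat_lit 0)) (P (nat_lit 6918233756270592))) (P (nat_lit 0))) (P (nat_lit 0))))))), (T.h (T.h (T.h (M (nat_lit 12033383155920978104893308927999)) (T.h (P (nat_lit 0)) (T.h (P (nat_lit 66751268070684515171827712)) (T.h (P (nat_lit 0)) (M (nat_lit 27041683247099543551)))))) (T.h (P (nat_lit 0)) (T.h (T.h (P (nat_lit 32202323609322397531897856)) (T.h (P (nat_lit 0)) (M (nat_lit 20112959232985268223)))) (T.h (P (nat_lit 0)) (M (nat_lit 51473594901898199039)))))) (T.h (T.h (P (nat_lit 0)) (T.h (T.h (P (nat_lit 0)) (T.h (M (nat_lit 74268288097036359696383)) (T.h (P (nat_lit 0)) (P (nat_lit 69759065467453440))))) (T.h (P (nat_lit 0)) (T.h (T.h (P (nat_lit 0)) (P (nat_lit 25101941556903936))) (P (nat_lit 0)))))) (T.h (T.h (T.h (P (nat_lit 16526487823196466196774912)) (T.h (P (nat_lit 0)) (P (nat_lit 28368324160571572224)))) (T.h (P (nat_lit 0)) (P (nat_lit 164501384940125945856)))) (T.h (T.h (P (nat_lit 0)) (T.h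 (T.h (P (nat_lit 0)) (P (nat_lit 18592351234228224))) (P (nat_lit 0)))) (M (nat_lit 44496770827213078527))))))]
def lP11_29 : List (T ℤ) := [(T.h (T.h (T.h (P (nat_lit 0)) (T.h (M (nat_lit 40867267336703657242131431423)) (T.h (P (nat_lit 0)) (P (nat_lit 44032226377937136386048))))) (T.h (P (nat_lit 0)) (T.h (T.h (P (nat_lit 0)) (M (nat_lit 32258207812325363154943))) (P (nat_lit 0))))) (T.h (T.h (P (nat_lit 0)) (T.h (T.h (P (nat_lit 22632415224394767728115712)) (T.h (P (nat_lit 0)) (P (nat_lit 73530299504536846336)))) (T.h (P (nat_lit 0)) (M (nat_lit 14527836822903455743))))) (T.h (T.h (T.h (P (nat_lit 0)) (M (nat_lit 134739501518938519371775))) (P (nat_lit 0))) (T.h (T.h (P (nat_lit 0)) (P (nat_lit 7930572901915295744))) (P (nat_lit 0)))))), (T.h (T.h (P (nat_lit 0)) (T.h (T.h (P (nat_lit 0)) (T.h (M (nat_lit 11387876038932511647072255)) (T.h (P (nat_lit 0)) (M (nat_lit 7273363342498988031))))) (T.h (P (nat_lit 0)) (T.h (T.h (P (nat_lit 0)) (M (nat_lit 15767917565713580031)))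 (P (nat_lit 0)))))) (T.h (T.h (T.h (M (nat_lit 81680387041637295225636388863)) (T.h (P (nat_lit 0)) (T.h (P (nat_lit 17783617783557091491840)) (T.h (P (nat_lit 0)) (M (nat_lit 6564462969225215)))))) (T.h (P (nat_lit 0)) (T.h (T.h (M (nat_lit 52798822681310266392575)) (T.h (P (nat_lit 0)) (P (nat_lit 34062600577941504)))) (T.h (P (nat_lit 0)) (P (nat_lit 13956778089775104)))))) (T.h (T.h (P (nat_lit 0)) (T.h (T.h (P (nat_lit 0)) (P (nat_lit 25782287496401387520))) (P (nat_lit 0)))) (T.h (T.h (T.h (M (nat_lit 15282777995193079562239)) (T.h (P (nat_lit 0)) (P (nat_lit 6315706739785728)))) (T.h (P (nat_lit 0)) (P (nat_lit 10030529833795584)))) (T.h (P (nat_lit 0)) (M (nat_lit 1149341850599423))))))), (T.h (T.h (P (nat_lit 0)) (T.h (T.h (M (nat_lit 25473584079512858584584028159)) (T.h (P (nat_lit 0)) (P (nat_lit 455310933304797036544)))) (T.h (P (nat_lit 0)) (P (nat_lit 45602326988986683228160))))) (T.h (T.h (T.h (P (nat_lit 0)) (T.h (P (nat_lit 15616985696053209621069824))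 (T.h (P (nat_lit 0)) (M (nat_lit 26482498459511291903))))) (T.h (P (nat_lit 0)) (T.h (T.h (P (nat_lit 0)) (P (nat_lit 17200322471501234176))) (P (nat_lit 0))))) (T.h (T.h (P (nat_lit 0)) (M (nat_lit 213785673707305102737407))) (T.h (T.h (T.h (P (nat_lit 0)) (P (nat_lit 5677593967907045376))) (P (nat_lit 0))) (P (nat_lit 0)))))), (T.h (T.h (T.h (P (nat_lit 0)) (T.h (M (nat_lit 9993608512295120873034088447)) (T.h (P (nat_lit 0)) (P (nat_lit 1398748663978051764224))))) (T.h (P (nat_lit 0)) (T.h (T.h (P (nat_lit 0)) (P (nat_lit 4553572405289269854208))) (P (nat_lit 0))))) (T.h (T.h (P (nat_lit 0)) (T.h (T.h (M (nat_lit 15387499692476566696099839)) (T.h (P (nat_lit 0)) (M (nat_lit 46506803989082800127)))) (T.h (P (nat_lit 0)) (M (nat_lit 25903162718444060671))))) (T.h (T.h (T.h (P (nat_lit 0)) (P (nat_lit 4553572405289269854208))) (P (nat_lit 0))) (T.h (T.h (P (nat_lit 0)) (M (nat_lit 25903162718444060671))) (P (nat_lit 0)))))), (T.h (T.h (T.h (M (nat_lit 470961987125908346733519175679))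 (T.h (P (nat_lit 0)) (T.h (M (nat_lit 1942057638129030519586815)) (T.h (P (nat_lit 0)) (M (nat_lit 3371299736341446655)))))) (T.h (P (nat_lit 0)) (T.h (T.h (M (nat_lit 1942057638129030519586815)) (T.h (P (nat_lit 0)) (M (nat_lit 556449493575270399)))) (T.h (P (nat_lit 0)) (M (nat_lit 3371299736341446655)))))) (T.h (T.h (P (nat_lit 0)) (T.h (T.h (P (nat_lit 0)) (T.h (P (nat_lit 538075358818507685888)) (T.h (P (nat_lit 0)) (M (nat_lit 598511274688511))))) (T.h (P (nat_lit 0)) (T.h (T.h (P (nat_lit 0)) (M (nat_lit 598511274688511))) (P (nat_lit 0)))))) (T.h (T.h (T.h (P (nat_lit 57899600867765543501824)) (T.h (P (nat_lit 0)) (P (nat_lit 1192941709491699712)))) (T.h (P (nat_lit 0)) (P (nat_lit 1192941709491699712)))) (T.h (T.h (P (nat_lit 0)) (T.h (T.h (P (nat_lit 0)) (M (nat_lit 1583080657387519))) (P (nat_lit 0)))) (M (nat_lit 846434129254809599)))))), (T.h (T.h (T.h (P (nat_lit 0)) (T.h (P (nat_lit 22549686110619622894297153536)) (T.h (P (nat_lit 0)) (T.h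 (P (nat_lit 4987765701830972014592)) (T.h (P (nat_lit 0)) (P (nat_lit 129108033208320))))))) (T.h (P (nat_lit 0)) (T.h (T.h (P (nat_lit 0)) (T.h (M (nat_lit 4276355499288042668031)) (T.h (P (nat_lit 0)) (M (nat_lit 1762998010347519))))) (T.h (P (nat_lit 0)) (T.h (T.h (P (nat_lit 0)) (P (nat_lit 4056569522847744))) (P (nat_lit 0))))))) (T.h (T.h (P (nat_lit 0)) (T.h (T.h (M (nat_lit 8807245776857616942628863)) (T.h (P (nat_lit 0)) (M (nat_lit 7115061308898148351)))) (T.h (P (nat_lit 0)) (P (nat_lit 5476563799450320896))))) (T.h (T.h (T.h (P (nat_lit 0)) (T.h (P (nat_lit 538372468300809502720)) (T.h (P (nat_lit 0)) (P (nat_lit 3255958531735552))))) (T.h (P (nat_lit 0)) (T.h (T.h (P (nat_lit 0)) (M (nat_lit 17651129576325119))) (P (nat_lit 0))))) (T.h (T.h (P (nat_lit 0)) (M (nat_lit 5996092034685861887))) (T.h (T.h (T.h (P (nat_lit 0)) (P (nat_lit 537820007137280))) (P (nat_lit 0))) (P (nat_lit 0))))))), (T.h (T.h (T.h (P (nat_lit 0)) (T.h (P (nat_lit 0))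 (T.h (P (nat_lit 12490453405460551285342208)) (T.h (P (nat_lit 0)) (P (nat_lit 812847327025823744)))))) (T.h (P (nat_lit 0)) (T.h (T.h (P (nat_lit 0)) (T.h (P (nat_lit 0)) (P (nat_lit 6890058237970743296)))) (T.h (P (nat_lit 0)) (M (nat_lit 552709772135104511)))))) (T.h (T.h (P (nat_lit 0)) (T.h (T.h (P (nat_lit 0)) (T.h (P (nat_lit 40872332593621807136768)) (T.h (P (nat_lit 0)) (M (nat_lit 2868643210854399))))) (T.h (P (nat_lit 0)) (T.h (T.h (P (nat_lit 0)) (P (nat_lit 7058222133673984))) (P (nat_lit 0)))))) (T.h (T.h (T.h (M (nat_lit 202648603037179402256383)) (T.h (P (nat_lit 0)) (P (nat_lit 49740724873375776768)))) (T.h (P (nat_lit 0)) (M (nat_lit 10793703863186620415)))) (T.h (T.h (P (nat_lit 0)) (T.h (T.h (P (nat_lit 0)) (P (nat_lit 5870480457662464))) (P (nat_lit 0)))) (M (nat_lit 3437973054217519103)))))), (T.h (T.h (T.h (P (nat_lit 0)) (T.h (M (nat_lit 53085522036960781581477216255)) (T.h (P (nat_lit 0)) (T.h (M (nat_lit 10242234231096952750079))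 (T.h (P (nat_lit 0)) (M (nat_lit 1149341850599423))))))) (T.h (P (nat_lit 0)) (T.h (T.h (P (nat_lit 0)) (T.h (P (nat_lit 8590939794117415141376)) (T.h (P (nat_lit 0)) (P (nat_lit 5577055310118912))))) (T.h (P (nat_lit 0)) (T.h (T.h (P (nat_lit 0)) (M (nat_lit 8459720275525631))) (P (nat_lit 0))))))) (T.h (T.h (P (nat_lit 0)) (T.h (T.h (P (nat_lit 578291697487330404204544)) (T.h (P (nat_lit 0)) (P (nat_lit 2224995150961049600)))) (T.h (P (nat_lit 0)) (M (nat_lit 3541372019637485567))))) (T.h (T.h (T.h (P (nat_lit 0)) (T.h (M (nat_lit 31270315920543543459839)) (T.h (P (nat_lit 0)) (P (nat_lit 9875747953508352))))) (T.h (P (nat_lit 0)) (T.h (T.h (P (nat_lit 0)) (P (nat_lit 34062600577941504))) (P (nat_lit 0))))) (T.h (T.h (P (nat_lit 0)) (M (nat_lit 17820622312014086143))) (T.h (T.h (T.h (P (nat_lit 0)) (P (nat_lit 10558192468033536))) (P (nat_lit 0))) (P (nat_lit 0)))))))]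
def lP11_30 : List (T ℤ) := [(T.h (T.h (T.h (P (nat_lit 26617841765287406009037398999040)) (T.h (P (nat_lit 0)) (T.h (M (nat_lit 129977362024824844582911)) (T.h (P (nat_lit 0)) (M (nat_lit 1642319604065763327)))))) (T.h (P (nat_lit 0)) (T.h (T.h (M (nat_lit 3714307327027633757093887)) (T.h (P (nat_lit 0)) (M (nat_lit 17337605634832465919)))) (T.h (P (nat_lit 0)) (P (nat_lit 5775169041425498112)))))) (T.h (T.h (P (nat_lit 0)) (T.h (T.h (P (nat_lit 0)) (P (nat_lit 1028113044723877281792))) (P (nat_lit 0)))) (T.h (T.h (T.h (M (nat_lit 129977362024824844582911)) (T.h (P (nat_lit 0)) (M (nat_lit 20225531808785104895)))) (T.h (P (nat_lit 0)) (M (nat_lit 17337605634832465919)))) (T.h (P (nat_lit 0)) (M (nat_lit 1642319604065763327)))))), (T.h (T.h (P (nat_lit 0)) (T.h (T.h (P (nat_lit 24067662906614286825688137728)) (T.h (P (nat_lit 0)) (T.h (P (nat_lit 5408711284310665068544)) (T.h (P (nat_lit 0)) (P (nat_lit 2991378617303040)))))) (T.h (P (nat_lit 0)) (T.h (T.h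 (P (nat_lit 2371971797410874654720)) (T.h (P (nat_lit 0)) (P (nat_lit 2962096402432000)))) (T.h (P (nat_lit 0)) (P (nat_lit 2681142573465600))))))) (T.h (T.h (T.h (P (nat_lit 0)) (T.h (M (nat_lit 4592128168771611640463359)) (T.h (P (nat_lit 0)) (P (nat_lit 12066641941316501504))))) (T.h (P (nat_lit 0)) (T.h (T.h (P (nat_lit 0)) (M (nat_lit 7048978185093906431))) (P (nat_lit 0))))) (T.h (T.h (P (nat_lit 0)) (T.h (T.h (P (nat_lit 12267667912468654456832)) (T.h (P (nat_lit 0)) (P (nat_lit 6813190638010368)))) (T.h (P (nat_lit 0)) (M (nat_lit 2413907610566655))))) (T.h (T.h (T.h (P (nat_lit 0)) (M (nat_lit 5200259580440870911))) (P (nat_lit 0))) (T.h (T.h (P (nat_lit 0)) (M (nat_lit 9588080211820543))) (P (nat_lit 0))))))), (T.h (T.h (P (nat_lit 0)) (T.h (T.h (P (nat_lit 0)) (T.h (P (nat_lit 13075810249838208814678016)) (T.h (P (nat_lit 0)) (P (nat_lit 10416561284773314560))))) (T.h (P (nat_lit 0)) (T.h (T.h (P (nat_lit 0)) (P (nat_lit 10416561284773314560)))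 (P (nat_lit 0)))))) (T.h (T.h (T.h (M (nat_lit 4865143931512019742722359295)) (T.h (P (nat_lit 0)) (T.h (P (nat_lit 26712386562715379826688)) (T.h (P (nat_lit 0)) (P (nat_lit 9729628367814656)))))) (T.h (P (nat_lit 0)) (T.h (T.h (P (nat_lit 26712386562715379826688)) (T.h (P (nat_lit 0)) (P (nat_lit 15713127575584768)))) (T.h (P (nat_lit 0)) (P (nat_lit 9729628367814656)))))) (T.h (T.h (P (nat_lit 0)) (T.h (T.h (P (nat_lit 0)) (P (nat_lit 48636823786003365888))) (P (nat_lit 0)))) (T.h (T.h (T.h (M (nat_lit 8745564178652984246271)) (T.h (P (nat_lit 0)) (P (nat_lit 23785446772441088)))) (T.h (P (nat_lit 0)) (P (nat_lit 23785446772441088)))) (T.h (P (nat_lit 0)) (P (nat_lit 1944089406472192))))))), (T.h (T.h (P (nat_lit 0)) (T.h (T.h (M (nat_lit 58563857056695683991302307839)) (T.h (P (nat_lit 0)) (T.h (P (nat_lit 8108657485441017053184)) (T.h (P (nat_lit 0)) (M (nat_lit 7276835205611519)))))) (T.h (P (nat_lit 0)) (T.h (T.h (M (nat_lit 17225768161661578903551))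 (T.h (P (nat_lit 0)) (M (nat_lit 174287233941503)))) (T.h (P (nat_lit 0)) (M (nat_lit 3720088609357823))))))) (T.h (T.h (T.h (P (nat_lit 0)) (T.h (P (nat_lit 45673022778121750688301056)) (T.h (P (nat_lit 0)) (M (nat_lit 31704313535716655103))))) (T.h (P (nat_lit 0)) (T.h (T.h (P (nat_lit 0)) (M (nat_lit 32711687646010671103))) (P (nat_lit 0))))) (T.h (T.h (P (nat_lit 0)) (T.h (T.h (P (nat_lit 3843571414089190080512)) (T.h (P (nat_lit 0)) (M (nat_lit 48455648891830271)))) (T.h (P (nat_lit 0)) (P (nat_lit 17216402791464960))))) (T.h (T.h (T.h (P (nat_lit 0)) (P (nat_lit 14253265884922511360))) (P (nat_lit 0))) (T.h (T.h (P (nat_lit 0)) (M (nat_lit 4687499992301567))) (P (nat_lit 0))))))), (T.h (T.h (P (nat_lit 0)) (T.h (T.h (P (nat_lit 0)) (T.h (P (nat_lit 6083335303084980110884864)) (T.h (P (nat_lit 0)) (P (nat_lit 1415962012927655936))))) (T.h (P (nat_lit 0)) (T.h (T.h (P (nat_lit 0)) (M (nat_lit 8285720689671929855))) (P (nat_lit 0)))))) (T.h (T.h (T.h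 (M (nat_lit 6000969113615189185396735999)) (T.h (P (nat_lit 0)) (M (nat_lit 111759690933996743557119)))) (P (nat_lit 0))) (T.h (T.h (P (nat_lit 0)) (T.h (T.h (P (nat_lit 0)) (M (nat_lit 4310567372663554047))) (P (nat_lit 0)))) (P (nat_lit 24438338849772933218304))))), (T.h (T.h (T.h (P (nat_lit 5874464779828831870272703299584)) (T.h (P (nat_lit 0)) (T.h (P (nat_lit 1789014615482866992152576)) (T.h (P (nat_lit 0)) (P (nat_lit 2177192955230552064)))))) (T.h (P (nat_lit 0)) (T.h (T.h (P (nat_lit 14279468020943418277494784)) (T.h (P (nat_lit 0)) (P (nat_lit 8895468585879601152)))) (T.h (P (nat_lit 0)) (P (nat_lit 3542750054391480320)))))) (T.h (T.h (P (nat_lit 0)) (T.h (T.h (P (nat_lit 0)) (T.h (P (nat_lit 40974228991500041060352)) (T.h (P (nat_lit 0)) (P (nat_lit 7058222133673984))))) (T.h (P (nat_lit 0)) (T.h (T.h (P (nat_lit 0)) (M (nat_lit 2868643210854399))) (P (nat_lit 0)))))) (T.h (T.h (T.h (M (nat_lit 1611613570259095289593855)) (T.h (P (nat_lit 0))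 (M (nat_lit 9375159022686044159)))) (T.h (P (nat_lit 0)) (P (nat_lit 51159269713876353024)))) (T.h (T.h (P (nat_lit 0)) (T.h (T.h (P (nat_lit 0)) (P (nat_lit 8086793378004992))) (P (nat_lit 0)))) (M (nat_lit 520480761069961215)))))), (T.h (T.h (T.h (P (nat_lit 0)) (T.h (M (nat_lit 81872531565312638851294953471)) (T.h (P (nat_lit 0)) (T.h (M (nat_lit 20905636911282502238207)) (T.h (P (nat_lit 0)) (M (nat_lit 5125213912694783))))))) (T.h (P (nat_lit 0)) (T.h (T.h (P (nat_lit 0)) (T.h (P (nat_lit 7542479592929705852928)) (T.h (P (nat_lit 0)) (M (nat_lit 773836429983743))))) (T.h (P (nat_lit 0)) (T.h (T.h (P (nat_lit 0)) (M (nat_lit 10800809275686911))) (P (nat_lit 0))))))) (T.h (T.h (P (nat_lit 0)) (T.h (T.h (P (nat_lit 52372709750936364979847168)) (T.h (P (nat_lit 0)) (M (nat_lit 25629667899014643711)))) (T.h (P (nat_lit 0)) (M (nat_lit 40475916406100066303))))) (T.h (T.h (T.h (P (nat_lit 0)) (T.h (M (nat_lit 2559448776295541899263)) (T.h (P (nat_lit 0)) (P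 (nat_lit 16795377330880512))))) (T.h (P (nat_lit 0)) (T.h (T.h (P (nat_lit 0)) (M (nat_lit 43036679422672895))) (P (nat_lit 0))))) (T.h (T.h (P (nat_lit 0)) (P (nat_lit 19851441692485877760))) (T.h (T.h (T.h (P (nat_lit 0)) (M (nat_lit 162369889959935))) (P (nat_lit 0))) (P (nat_lit 0))))))), (T.h (T.h (T.h (P (nat_lit 60109166243227866605326969077760)) (T.h (P (nat_lit 0)) (T.h (P (nat_lit 10403754270588811868110848)) (T.h (P (nat_lit 0)) (P (nat_lit 9777469247373443072)))))) (T.h (P (nat_lit 0)) (T.h (T.h (P (nat_lit 12462364346498250444898304)) (T.h (P (nat_lit 0)) (P (nat_lit 28942010190122713088)))) (T.h (P (nat_lit 0)) (P (nat_lit 9095374610601345024)))))) (T.h (T.h (P (nat_lit 0)) (T.h (T.h (P (nat_lit 0)) (M (nat_lit 144840244602534396690431))) (P (nat_lit 0)))) (T.h (T.h (T.h (P (nat_lit 40719940890041983696896000)) (T.h (P (nat_lit 0)) (P (nat_lit 13514117516904890368)))) (T.h (P (nat_lit 0)) (P (nat_lit 10635430114562670592)))) (T.h (P (nat_lit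 0)) (P (nat_lit 17946597792554156032))))))]
def lP11_31 : List (T ℤ) := [(T.h (T.h (P (nat_lit 0)) (T.h (T.h (M (nat_lit 76394196545577736441469861887)) (T.h (P (nat_lit 0)) (T.h (P (nat_lit 8024761901606103941120)) (T.h (P (nat_lit 0)) (M (nat_lit 11983694345601023)))))) (T.h (P (nat_lit 0)) (T.h (T.h (M (nat_lit 13922102980717876084735)) (T.h (P (nat_lit 0)) (P (nat_lit 4977506114076672)))) (T.h (P (nat_lit 0)) (M (nat_lit 2554467153936383))))))) (T.h (T.h (T.h (P (nat_lit 0)) (T.h (P (nat_lit 7277978670301944695750656)) (T.h (P (nat_lit 0)) (M (nat_lit 12312974890020896767))))) (T.h (P (nat_lit 0)) (T.h (T.h (P (nat_lit 0)) (P (nat_lit 9307014897957076992))) (P (nat_lit 0))))) (T.h (T.h (P (nat_lit 0)) (T.h (T.h (M (nat_lit 37673336110928275439615)) (T.h (P (nat_lit 0)) (P (nat_lit 39481570047098880)))) (T.h (P (nat_lit 0)) (P (nat_lit 9454722492923904))))) (T.h (T.h (T.h (P (nat_lit 0)) (M (nat_lit 12222446504450719743))) (P (nat_lit 0))) (T.h (T.h (P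 (nat_lit 0)) (P (nat_lit 15083322570375168))) (P (nat_lit 0))))))), (T.h (T.h (P (nat_lit 0)) (T.h (T.h (P (nat_lit 0)) (T.h (P (nat_lit 6901087889603827716849664)) (T.h (P (nat_lit 0)) (M (nat_lit 6921084663494606847))))) (T.h (P (nat_lit 0)) (T.h (T.h (P (nat_lit 0)) (P (nat_lit 2780598039104978944))) (P (nat_lit 0)))))) (T.h (T.h (T.h (M (nat_lit 3387695508467639197435428863)) (T.h (P (nat_lit 0)) (M (nat_lit 36272100889309380345855)))) (T.h (P (nat_lit 0)) (M (nat_lit 148031791823306123902975)))) (T.h (T.h (P (nat_lit 0)) (T.h (T.h (P (nat_lit 0)) (M (nat_lit 16611612996791173119))) (P (nat_lit 0)))) (P (nat_lit 27185431502022145736704))))), (T.h (T.h (T.h (P (nat_lit 41180004023536419786962317082624)) (T.h (P (nat_lit 0)) (T.h (M (nat_lit 3242199158556738768076799)) (T.h (P (nat_lit 0)) (P (nat_lit 6331104363460689920)))))) (T.h (P (nat_lit 0)) (T.h (T.h (M (nat_lit 1716479269463368432353279)) (T.h (P (nat_lit 0)) (M (nat_lit 16723667258085212159))))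 (T.h (P (nat_lit 0)) (M (nat_lit 404289645258473471)))))) (T.h (T.h (P (nat_lit 0)) (T.h (T.h (P (nat_lit 0)) (M (nat_lit 13838414161144077877247))) (P (nat_lit 0)))) (T.h (T.h (T.h (P (nat_lit 5270657647345830849413120)) (T.h (P (nat_lit 0)) (M (nat_lit 19943659610950336511)))) (T.h (P (nat_lit 0)) (M (nat_lit 19952898382560755711)))) (T.h (P (nat_lit 0)) (M (nat_lit 3186897345665040383)))))), (T.h (T.h (P (nat_lit 0)) (T.h (T.h (P (nat_lit 0)) (T.h (M (nat_lit 820044288225231356559359)) (T.h (P (nat_lit 0)) (M (nat_lit 1172922028869550079))))) (T.h (P (nat_lit 0)) (T.h (T.h (P (nat_lit 0)) (P (nat_lit 1172922028869550080))) (P (nat_lit 0)))))) (T.h (T.h (T.h (P (nat_lit 0)) (T.h (P (nat_lit 0)) (T.h (M (nat_lit 1277770570003986251775)) (T.h (P (nat_lit 0)) (M (nat_lit 250554719240191)))))) (T.h (P (nat_lit 0)) (T.h (T.h (P (nat_lit 1277770570003986251776)) (T.h (P (nat_lit 0)) (M (nat_lit 9472520804892671)))) (T.h (P (nat_lit 0)) (P (nat_lit 250554719240192))))))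 (T.h (T.h (P (nat_lit 0)) (T.h (T.h (P (nat_lit 0)) (P (nat_lit 1945289511797784576))) (P (nat_lit 0)))) (T.h (T.h (T.h (P (nat_lit 1386797677371080048640)) (T.h (P (nat_lit 0)) (P (nat_lit 3212398805352448)))) (T.h (P (nat_lit 0)) (M (nat_lit 3212398805352447)))) (T.h (P (nat_lit 0)) (M (nat_lit 520789253947391))))))), (T.h (T.h (P (nat_lit 0)) (T.h (T.h (M (nat_lit 3147316493728592057340002303)) (T.h (P (nat_lit 0)) (T.h (P (nat_lit 835233424690865242112)) (T.h (P (nat_lit 0)) (M (nat_lit 1036859366244351)))))) (T.h (P (nat_lit 0)) (T.h (T.h (M (nat_lit 4524051548051001573375)) (T.h (P (nat_lit 0)) (M (nat_lit 652816732782591)))) (T.h (P (nat_lit 0)) (P (nat_lit 845034740580352))))))) (T.h (T.h (T.h (P (nat_lit 0)) (T.h (P (nat_lit 16159129519095628567674880)) (T.h (P (nat_lit 0)) (P (nat_lit 3256229217427259392))))) (T.h (P (nat_lit 0)) (T.h (T.h (P (nat_lit 0)) (P (nat_lit 14223229982607409152))) (P (nat_lit 0))))) (T.h (T.h (P (nat_lit 0)) (T.h (T.h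 (M (nat_lit 4041870850466806497279)) (T.h (P (nat_lit 0)) (M (nat_lit 11975517620469759)))) (T.h (P (nat_lit 0)) (P (nat_lit 822254790705152))))) (T.h (T.h (T.h (P (nat_lit 0)) (P (nat_lit 8662173632501383168))) (P (nat_lit 0))) (T.h (T.h (P (nat_lit 0)) (P (nat_lit 2925128420229120))) (P (nat_lit 0))))))), (T.h (T.h (P (nat_lit 0)) (T.h (T.h (P (nat_lit 0)) (T.h (M (nat_lit 11966167736419842051276799)) (T.h (P (nat_lit 0)) (P (nat_lit 2052704746300506112))))) (T.h (P (nat_lit 0)) (T.h (T.h (P (nat_lit 0)) (M (nat_lit 3731991322861502463))) (P (nat_lit 0)))))) (T.h (T.h (T.h (M (nat_lit 28594865004676513644159172607)) (T.h (P (nat_lit 0)) (T.h (M (nat_lit 21528506760766722932735)) (T.h (P (nat_lit 0)) (P (nat_lit 3398585621741568)))))) (T.h (P (nat_lit 0)) (T.h (P (nat_lit 9192677989439676350464)) (T.h (P (nat_lit 0)) (P (nat_lit 1895257306300416)))))) (T.h (T.h (P (nat_lit 0)) (T.h (T.h (P (nat_lit 0)) (P (nat_lit 23557292345440337920))) (P (nat_lit 0))))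 (T.h (T.h (T.h (M (nat_lit 5040543764096126812159)) (T.h (P (nat_lit 0)) (P (nat_lit 154781880287232)))) (T.h (P (nat_lit 0)) (P (nat_lit 738651429666816)))) (P (nat_lit 0)))))), (T.h (T.h (P (nat_lit 0)) (T.h (T.h (M (nat_lit 4996804256147560436517044223)) (T.h (P (nat_lit 0)) (P (nat_lit 257028261180969320448)))) (T.h (P (nat_lit 0)) (P (nat_lit 699374331989025882112))))) (T.h (T.h (T.h (P (nat_lit 0)) (T.h (M (nat_lit 7693749846238283348049919)) (T.h (P (nat_lit 0)) (M (nat_lit 11382046171812855807))))) (T.h (P (nat_lit 0)) (T.h (T.h (P (nat_lit 0)) (M (nat_lit 23253401994541400063))) (P (nat_lit 0))))) (T.h (T.h (P (nat_lit 0)) (P (nat_lit 4296544144108300533760))) (T.h (T.h (T.h (P (nat_lit 0)) (M (nat_lit 14521116546631204863))) (P (nat_lit 0))) (P (nat_lit 0)))))), (T.h (T.h (T.h (P (nat_lit 0)) (T.h (M (nat_lit 3147316493728592057340002303)) (T.h (P (nat_lit 0)) (T.h (M (nat_lit 4524051548051001573375)) (T.h (P (nat_lit 0)) (P (nat_lit 845034740580352)))))))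 (T.h (P (nat_lit 0)) (T.h (T.h (P (nat_lit 0)) (T.h (P (nat_lit 835233424690865242112)) (T.h (P (nat_lit 0)) (M (nat_lit 652816732782591))))) (T.h (P (nat_lit 0)) (T.h (T.h (P (nat_lit 0)) (M (nat_lit 1036859366244351))) (P (nat_lit 0))))))) (T.h (T.h (P (nat_lit 0)) (T.h (T.h (P (nat_lit 16159129519095628567674880)) (T.h (P (nat_lit 0)) (P (nat_lit 14223229982607409152)))) (T.h (P (nat_lit 0)) (P (nat_lit 3256229217427259392))))) (T.h (T.h (T.h (P (nat_lit 0)) (T.h (M (nat_lit 4041870850466806497279)) (T.h (P (nat_lit 0)) (P (nat_lit 822254790705152))))) (T.h (P (nat_lit 0)) (T.h (T.h (P (nat_lit 0)) (M (nat_lit 11975517620469759))) (P (nat_lit 0))))) (T.h (T.h (P (nat_lit 0)) (P (nat_lit 8662173632501383168))) (T.h (T.h (T.h (P (nat_lit 0)) (P (nat_lit 2925128420229120))) (P (nat_lit 0))) (P (nat_lit 0)))))))]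
def lP11_32 : List (T ℤ) := [(T.h (T.h (T.h (M (nat_lit 2001138384869827064950010413055)) (T.h (P (nat_lit 0)) (T.h (P (nat_lit 18697361475644574801068032)) (T.h (P (nat_lit 0)) (M (nat_lit 18379318725514887167)))))) (T.h (P (nat_lit 0)) (T.h (T.h (P (nat_lit 18697361475644574801068032)) (T.h (P (nat_lit 0)) (M (nat_lit 1044776055065280511)))) (T.h (P (nat_lit 0)) (M (nat_lit 18379318725514887167)))))) (T.h (T.h (P (nat_lit 0)) (T.h (T.h (P (nat_lit 0)) (T.h (M (nat_lit 18792191774930400968703)) (T.h (P (nat_lit 0)) (P (nat_lit 11297037564444672))))) (T.h (P (nat_lit 0)) (T.h (T.h (P (nat_lit 0)) (P (nat_lit 11297037564444672))) (P (nat_lit 0)))))) (T.h (T.h (T.h (P (nat_lit 3021525689518643465945088)) (T.h (P (nat_lit 0)) (P (nat_lit 47436507338491559936)))) (T.h (P (nat_lit 0)) (P (nat_lit 47436507338491559936)))) (T.h (T.h (P (nat_lit 0)) (T.h (T.h (P (nat_lit 0)) (P (nat_lit 4787447241768960))) (P (nat_lit 0)))) (M (nat_lit 11402494650829766655)))))),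 (T.h (T.h (T.h (P (nat_lit 0)) (T.h (M (nat_lit 19472614965897669399187292159)) (T.h (P (nat_lit 0)) (P (nat_lit 21163988139213750009856))))) (T.h (P (nat_lit 0)) (T.h (T.h (P (nat_lit 0)) (P (nat_lit 455310933304797036544))) (P (nat_lit 0))))) (T.h (T.h (P (nat_lit 0)) (T.h (T.h (P (nat_lit 9533650392968229510184960)) (T.h (P (nat_lit 0)) (P (nat_lit 21510889844164788224)))) (T.h (P (nat_lit 0)) (M (nat_lit 18196777769839362047))))) (T.h (T.h (T.h (P (nat_lit 0)) (M (nat_lit 102025982773308359180287))) (P (nat_lit 0))) (T.h (T.h (P (nat_lit 0)) (P (nat_lit 4261631954979389440))) (P (nat_lit 0)))))), (T.h (T.h (P (nat_lit 0)) (T.h (T.h (P (nat_lit 0)) (T.h (M (nat_lit 11146123448194610694717439)) (T.h (P (nat_lit 0)) (M (nat_lit 3731991322861502463))))) (T.h (P (nat_lit 0)) (T.h (T.h (P (nat_lit 0)) (P (nat_lit 2052704746300506112))) (P (nat_lit 0)))))) (T.h (T.h (T.h (M (nat_lit 28594865004676513644159172607)) (T.h (P (nat_lit 0)) (T.h (P (nat_lit 9192677989439676350464))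 (T.h (P (nat_lit 0)) (P (nat_lit 1895257306300416)))))) (T.h (P (nat_lit 0)) (T.h (T.h (M (nat_lit 21528506760766722932735)) (T.h (P (nat_lit 0)) (P (nat_lit 9472520804892672)))) (T.h (P (nat_lit 0)) (P (nat_lit 3398585621741568)))))) (T.h (T.h (P (nat_lit 0)) (T.h (T.h (P (nat_lit 0)) (P (nat_lit 21612002833642553344))) (P (nat_lit 0)))) (T.h (T.h (T.h (M (nat_lit 6427341441467206860799)) (T.h (P (nat_lit 0)) (P (nat_lit 738651429666816)))) (T.h (P (nat_lit 0)) (P (nat_lit 154781880287232)))) (T.h (P (nat_lit 0)) (P (nat_lit 520789253947392))))))), (T.h (T.h (P (nat_lit 0)) (T.h (T.h (M (nat_lit 19752523416278548368892887039)) (T.h (P (nat_lit 0)) (P (nat_lit 429836833835238555648)))) (T.h (P (nat_lit 0)) (P (nat_lit 23993800654320155230208))))) (T.h (T.h (T.h (P (nat_lit 0)) (T.h (P (nat_lit 11958332812889106530959360)) (T.h (P (nat_lit 0)) (M (nat_lit 17909357722080378879))))) (T.h (P (nat_lit 0)) (T.h (T.h (P (nat_lit 0)) (P (nat_lit 11344965817079955456)))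 (P (nat_lit 0))))) (T.h (T.h (P (nat_lit 0)) (M (nat_lit 111927900620322322251775))) (T.h (T.h (T.h (P (nat_lit 0)) (M (nat_lit 1916679011417718783))) (P (nat_lit 0))) (P (nat_lit 0)))))), (T.h (T.h (T.h (P (nat_lit 0)) (T.h (M (nat_lit 5276712706528439406222639103)) (T.h (P (nat_lit 0)) (P (nat_lit 3529186847095431102464))))) (T.h (P (nat_lit 0)) (T.h (T.h (P (nat_lit 0)) (P (nat_lit 231554161711410839552))) (P (nat_lit 0))))) (T.h (T.h (P (nat_lit 0)) (T.h (T.h (M (nat_lit 5269067426317406327275519)) (T.h (P (nat_lit 0)) (M (nat_lit 33419326021626232831)))) (T.h (P (nat_lit 0)) (M (nat_lit 11094626124053872639))))) (T.h (T.h (T.h (P (nat_lit 0)) (M (nat_lit 5605373702905662537727))) (P (nat_lit 0))) (T.h (T.h (P (nat_lit 0)) (M (nat_lit 20699427513028313087))) (P (nat_lit 0)))))), (T.h (T.h (T.h (P (nat_lit 5874464779828831870272703299584)) (T.h (P (nat_lit 0)) (T.h (P (nat_lit 1789014615482866992152576)) (T.h (P (nat_lit 0)) (P (nat_lit 2729902727365656576))))))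 (T.h (P (nat_lit 0)) (T.h (T.h (P (nat_lit 1789014615482866992152576)) (T.h (P (nat_lit 0)) (P (nat_lit 2005410347908857856)))) (T.h (P (nat_lit 0)) (P (nat_lit 2729902727365656576)))))) (T.h (T.h (P (nat_lit 0)) (T.h (T.h (P (nat_lit 0)) (P (nat_lit 101896397878233923584))) (P (nat_lit 0)))) (T.h (T.h (T.h (M (nat_lit 1408964967221915887337471)) (T.h (P (nat_lit 0)) (P (nat_lit 1418544840500576256)))) (T.h (P (nat_lit 0)) (P (nat_lit 1418544840500576256)))) (T.h (T.h (P (nat_lit 0)) (T.h (T.h (P (nat_lit 0)) (P (nat_lit 2216312920342528))) (P (nat_lit 0)))) (P (nat_lit 2917492293147557888)))))), (T.h (T.h (T.h (P (nat_lit 0)) (T.h (M (nat_lit 23308674508616954859992645631)) (T.h (P (nat_lit 0)) (T.h (M (nat_lit 3679868749620923334655)) (T.h (P (nat_lit 0)) (M (nat_lit 1405125303336959))))))) (T.h (P (nat_lit 0)) (T.h (T.h (P (nat_lit 0)) (T.h (M (nat_lit 566177892511311200255)) (T.h (P (nat_lit 0)) (M (nat_lit 599549196042239))))) (T.h (P (nat_lit 0)) (T.h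 (T.h (P (nat_lit 0)) (M (nat_lit 3523974070075391))) (P (nat_lit 0))))))) (T.h (T.h (P (nat_lit 0)) (T.h (T.h (P (nat_lit 6699686972814614291546112)) (T.h (P (nat_lit 0)) (P (nat_lit 7082019746996027392)))) (T.h (P (nat_lit 0)) (M (nat_lit 8771602870383411199))))) (T.h (T.h (T.h (P (nat_lit 0)) (T.h (M (nat_lit 6403020190384731979775)) (T.h (P (nat_lit 0)) (M (nat_lit 421025460584447))))) (T.h (P (nat_lit 0)) (T.h (T.h (P (nat_lit 0)) (P (nat_lit 5418969469157376))) (P (nat_lit 0))))) (T.h (T.h (P (nat_lit 0)) (P (nat_lit 5598175807563366400))) (T.h (T.h (T.h (P (nat_lit 0)) (P (nat_lit 4525130102341632))) (P (nat_lit 0))) (P (nat_lit 0))))))), (T.h (T.h (T.h (P (nat_lit 14562162258249013777924918083584)) (T.h (P (nat_lit 0)) (T.h (M (nat_lit 1586501907438543587770367)) (T.h (P (nat_lit 0)) (P (nat_lit 1238029958807289856)))))) (T.h (P (nat_lit 0)) (T.h (T.h (P (nat_lit 472108168470894989017088)) (T.h (P (nat_lit 0)) (P (nat_lit 613938376747253760)))) (T.h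 (P (nat_lit 0)) (P (nat_lit 555935322035191808)))))) (T.h (T.h (P (nat_lit 0)) (T.h (T.h (P (nat_lit 0)) (M (nat_lit 14866527205867955159039))) (P (nat_lit 0)))) (T.h (T.h (T.h (P (nat_lit 5400635009370655693996032)) (T.h (P (nat_lit 0)) (P (nat_lit 272633426224349184)))) (T.h (P (nat_lit 0)) (M (nat_lit 2606053976117870591)))) (T.h (P (nat_lit 0)) (M (nat_lit 1544577741599277055))))))]
def lP11_33 : List (T ℤ) := [(T.h (T.h (P (nat_lit 0)) (T.h (T.h (M (nat_lit 23308674508616954859992645631)) (T.h (P (nat_lit 0)) (T.h (M (nat_lit 566177892511311200255)) (T.h (P (nat_lit 0)) (M (nat_lit 3523974070075391)))))) (T.h (P (nat_lit 0)) (T.h (T.h (M (nat_lit 3679868749620923334655)) (T.h (P (nat_lit 0)) (M (nat_lit 599549196042239)))) (T.h (P (nat_lit 0)) (M (nat_lit 1405125303336959))))))) (T.h (T.h (T.h (P (nat_lit 0)) (T.h (P (nat_lit 6699686972814614291546112)) (T.h (P (nat_lit 0)) (M (nat_lit 8771602870383411199))))) (T.h (P (nat_lit 0)) (T.h (T.h (P (nat_lit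 0)) (P (nat_lit 7082019746996027392))) (P (nat_lit 0))))) (T.h (T.h (P (nat_lit 0)) (T.h (T.h (M (nat_lit 6403020190384731979775)) (T.h (P (nat_lit 0)) (P (nat_lit 5418969469157376)))) (T.h (P (nat_lit 0)) (M (nat_lit 421025460584447))))) (T.h (T.h (T.h (P (nat_lit 0)) (P (nat_lit 5598175807563366400))) (P (nat_lit 0))) (T.h (T.h (P (nat_lit 0)) (P (nat_lit 4525130102341632))) (P (nat_lit 0))))))), (T.h (T.h (P (nat_lit 0)) (T.h (T.h (P (nat_lit 0)) (T.h (P (nat_lit 817752586518847605964800)) (T.h (P (nat_lit 0)) (P (nat_lit 1364636026177323008))))) (T.h (P (nat_lit 0)) (T.h (T.h (P (nat_lit 0)) (P (nat_lit 1364636026177323008))) (P (nat_lit 0)))))) (T.h (T.h (T.h (P (nat_lit 2613273605147549987961307136)) (T.h (P (nat_lit 0)) (M (nat_lit 36272100889309380345855)))) (T.h (P (nat_lit 0)) (M (nat_lit 36272100889309380345855)))) (T.h (T.h (P (nat_lit 0)) (T.h (T.h (P (nat_lit 0)) (M (nat_lit 12301045624127619071))) (P (nat_lit 0)))) (P (nat_lit 2747092652249212518400))))),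 (T.h (T.h (T.h (P (nat_lit 14562162258249013777924918083584)) (T.h (P (nat_lit 0)) (T.h (P (nat_lit 472108168470894989017088)) (T.h (P (nat_lit 0)) (P (nat_lit 555935322035191808)))))) (T.h (P (nat_lit 0)) (T.h (T.h (M (nat_lit 1586501907438543587770367)) (T.h (P (nat_lit 0)) (M (nat_lit 2619348724656111615)))) (T.h (P (nat_lit 0)) (P (nat_lit 1238029958807289856)))))) (T.h (T.h (P (nat_lit 0)) (T.h (T.h (P (nat_lit 0)) (M (nat_lit 14866527205867955159039))) (P (nat_lit 0)))) (T.h (T.h (T.h (P (nat_lit 5400635009370655693996032)) (T.h (P (nat_lit 0)) (M (nat_lit 2606053976117870591)))) (T.h (P (nat_lit 0)) (P (nat_lit 272633426224349184)))) (T.h (P (nat_lit 0)) (M (nat_lit 2433391401669492735)))))), (T.h (T.h (P (nat_lit 0)) (T.h (T.h (P (nat_lit 0)) (P (nat_lit 820044288225231356559360))) (P (nat_lit 0)))) (T.h (T.h (P (nat_lit 0)) (T.h (P (nat_lit 0)) (T.h (T.h (P (nat_lit 0)) (T.h (P (nat_lit 0)) (P (nat_lit 9472520804892672)))) (P (nat_lit 0))))) (T.h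 (T.h (P (nat_lit 0)) (T.h (T.h (P (nat_lit 0)) (M (nat_lit 1945289511797784575))) (P (nat_lit 0)))) (T.h (M (nat_lit 1386797677371080048639)) (T.h (P (nat_lit 0)) (P (nat_lit 520789253947392))))))), (T.h (T.h (P (nat_lit 0)) (T.h (T.h (M (nat_lit 279908450380878969705594879)) (T.h (P (nat_lit 0)) (M (nat_lit 25474099469558480895)))) (T.h (P (nat_lit 0)) (P (nat_lit 2829812515106405220352))))) (T.h (T.h (T.h (P (nat_lit 0)) (T.h (P (nat_lit 2424682419920877020774400)) (T.h (P (nat_lit 0)) (P (nat_lit 287420047758983168))))) (T.h (P (nat_lit 0)) (T.h (T.h (P (nat_lit 0)) (M (nat_lit 10165924027084832767))) (P (nat_lit 0))))) (T.h (T.h (P (nat_lit 0)) (M (nat_lit 9901917847013963071487))) (T.h (T.h (T.h (P (nat_lit 0)) (M (nat_lit 6178310966397108223))) (P (nat_lit 0))) (P (nat_lit 0)))))), (T.h (T.h (T.h (P (nat_lit 0)) (T.h (M (nat_lit 279908450380878969705594879)) (T.h (P (nat_lit 0)) (P (nat_lit 2829812515106405220352))))) (T.h (P (nat_lit 0)) (T.h (T.h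 (P (nat_lit 0)) (M (nat_lit 25474099469558480895))) (P (nat_lit 0))))) (T.h (T.h (P (nat_lit 0)) (T.h (T.h (P (nat_lit 2424682419920877020774400)) (T.h (P (nat_lit 0)) (M (nat_lit 10165924027084832767)))) (T.h (P (nat_lit 0)) (P (nat_lit 287420047758983168))))) (T.h (T.h (T.h (P (nat_lit 0)) (M (nat_lit 9901917847013963071487))) (P (nat_lit 0))) (T.h (T.h (P (nat_lit 0)) (M (nat_lit 6178310966397108223))) (P (nat_lit 0)))))), (T.h (T.h (P (nat_lit 0)) (T.h (P (nat_lit 0)) (T.h (T.h (P (nat_lit 0)) (T.h (P (nat_lit 0)) (M (nat_lit 3233287101403365375)))) (P (nat_lit 0))))) (T.h (P (nat_lit 0)) (T.h (P (nat_lit 0)) (T.h (P (nat_lit 0)) (M (nat_lit 888813660070215679))))))]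

def CP11 : List (T ℤ) := lP11_0 ++ (lP11_1 ++ (lP11_2 ++ (lP11_3 ++ (lP11_4 ++ (lP11_5 ++ (lP11_6 ++ (lP11_7 ++ (lP11_8 ++ (lP11_9 ++ (lP11_10 ++ (lP11_11 ++ (lP11_12 ++ (lP11_13 ++ (lP11_14 ++ (lP11_15 ++ (lP11_16 ++ (lP11_17 ++ (lP11_18 ++ (lP11_19 ++ (lP11_20 ++ (lP11_21 ++ (lP11_22 ++ (lP11_23 ++ (lP11_24 ++ (lP11_25 ++ (lP11_26 ++ (lP11_27 ++ (lP11_28 ++ (lP11_29 ++ (lP11_30 ++ (lP11_31 ++ (lP11_32 ++ (lP11_33)))))))))))))))))))))))))))))))))

/-- norms at radius 1536 -/
def NP11 : List ℕ := [(nat_lit 0), (nat_lit 0), (nat_lit 0), (nat_lit 0), (nat_lit 0), (nat_lit 0), (nat_lit 0), (nat_lit 0), (nat_lit 0), (nat_lit 0), (nat_lit 0), (nat_lit 0), (nat_lit 0), (nat_lit 0), (nat_lit 0), (nat_lit 0), (nat_lit 0), (nat_lit 4410501400340933843783516160000), (nat_lit 0), (nat_lit 0), (nat_lit 94111104536634927031048999010304), (nat_lit 184762888771644886781633004306432), (nat_lit 110543622437412513461917762715648), (nat_lit 103229161678419681570472832532480),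 (nat_lit 22944757197904062714968587370496), (nat_lit 0), (nat_lit 0), (nat_lit 231091795083070456000181868429312), (nat_lit 428612387028434246327240088354816), (nat_lit 378637653777267327046968831639552), (nat_lit 345494884072588079869542638026752), (nat_lit 144957453039664740504518793363456), (nat_lit 0), (nat_lit 0), (nat_lit 541808503216238317317791764447232), (nat_lit 620181003865955521011338987962368), (nat_lit 715168538793639313381727013961728), (nat_lit 417975251635452047430142201430016), (nat_lit 124059401969615875537499448147968), (nat_lit 0), (nat_lit 231091795083070456000181868429312), (nat_lit 620181003865955521011338987962368), (nat_lit 493436889690817924456492900024320), (nat_lit 991537384077479696790565806931968), (nat_lit 318482051959471219009774084423680), (nat_lit 94111104536634927031048999010304), (nat_lit 428612387028434246327240088354816), (nat_lit 715168538793639313381727013961728), (nat_lit 991537384077479696790565806931968), (nat_lit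 395742244383619797459409261559808), (nat_lit 184762888771644886781633004306432), (nat_lit 378637653777267327046968831639552), (nat_lit 417975251635452047430142201430016), (nat_lit 318482051959471219009774084423680), (nat_lit 110543622437412513461917762715648), (nat_lit 345494884072588079869542638026752), (nat_lit 124059401969615875537499448147968), (nat_lit 103229161678419681570472832532480), (nat_lit 144957453039664740504518793363456), (nat_lit 22944757197904062714968587370496), (nat_lit 0), (nat_lit 0), (nat_lit 0), (nat_lit 0), (nat_lit 0), (nat_lit 0), (nat_lit 0), (nat_lit 0), (nat_lit 0), (nat_lit 0), (nat_lit 198102767441292515708136054587392), (nat_lit 0), (nat_lit 0), (nat_lit 0), (nat_lit 0), (nat_lit 0), (nat_lit 231091795083070456000181868429312), (nat_lit 803709350801482065775301838766080), (nat_lit 378637653777267327046968831639552), (nat_lit 345494884072588079869542638026752), (nat_lit 144957453039664740504518793363456), (nat_lit 0), (nat_lit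 0), (nat_lit 488124689344007603569875398688768), (nat_lit 1934589865261928789448553962405888), (nat_lit 1374369591008052757895213802848256), (nat_lit 1201545544025053208170421909716992), (nat_lit 362452744372705043325519057125376), (nat_lit 0), (nat_lit 488124689344007603569875398688768), (nat_lit 1836388860653246381423919988998144), (nat_lit 1529693066368241174864351899680768), (nat_lit 1438414677721950086652835072573440), (nat_lit 745223465586490914289884164259840), (nat_lit 231091795083070456000181868429312), (nat_lit 1201788283350410461726293845082112), (nat_lit 1529693066368241174864351899680768), (nat_lit 2404600065872221851631213304872960), (nat_lit 595131084266746165283306317283328), (nat_lit 490494180678031006956849431838720), (nat_lit 1374369591008052757895213802848256), (nat_lit 1438414677721950086652835072573440), (nat_lit 595131084266746165283306317283328), (nat_lit 378637653777267327046968831639552), (nat_lit 1201545544025053208170421909716992),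 (nat_lit 745223465586490914289884164259840), (nat_lit 345494884072588079869542638026752), (nat_lit 362452744372705043325519057125376), (nat_lit 144957453039664740504518793363456), (nat_lit 4410501400340933843783516160000), (nat_lit 0), (nat_lit 0), (nat_lit 94111104536634927031048999010304), (nat_lit 184762888771644886781633004306432), (nat_lit 110543622437412513461917762715648), (nat_lit 103229161678419681570472832532480), (nat_lit 22944757197904062714968587370496), (nat_lit 0), (nat_lit 0), (nat_lit 231091795083070456000181868429312), (nat_lit 803709350801482065775301838766080), (nat_lit 378637653777267327046968831639552), (nat_lit 345494884072588079869542638026752), (nat_lit 144957453039664740504518793363456), (nat_lit 0), (nat_lit 0), (nat_lit 989312202295287911642331218968576), (nat_lit 2039980535042066310256553204121600), (nat_lit 1079602594006612222174963395723264), (nat_lit 656994207118053439323836963094528), (nat_lit 237593218934823752333378996666368),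 (nat_lit 0), (nat_lit 557171798182092759613737736863744), (nat_lit 2047561695410447598673884755263488), (nat_lit 1670752338338008173265840917970944), (nat_lit 1553057987979580399295880014856192), (nat_lit 709347519457605951052406128115712), (nat_lit 598216195743277282856770155315200), (nat_lit 1221199539505311430756211191971840), (nat_lit 2748643461946955878003127221223424), (nat_lit 2752674781575600540453952617971712), (nat_lit 1010250770633015086228977773182976), (nat_lit 519404837045538725013246393188352), (nat_lit 1338621511762845666556531112411136), (nat_lit 3005101229616539200568878474199040), (nat_lit 622752618265581967993243711832064), (nat_lit 771287916290905379909528855773184), (nat_lit 1495868250915648259270854699909120), (nat_lit 1235480556798422196431801087426560), (nat_lit 495678915964981288060907887263744), (nat_lit 726181005157196735540382255808512), (nat_lit 140169456279808215938290254086144), (nat_lit 0), (nat_lit 0), (nat_lit 231091795083070456000181868429312),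 (nat_lit 428612387028434246327240088354816), (nat_lit 378637653777267327046968831639552), (nat_lit 345494884072588079869542638026752), (nat_lit 144957453039664740504518793363456), (nat_lit 0), (nat_lit 0), (nat_lit 488124689344007603569875398688768), (nat_lit 1934589865261928789448553962405888), (nat_lit 1374369591008052757895213802848256), (nat_lit 1201545544025053208170421909716992), (nat_lit 362452744372705043325519057125376), (nat_lit 0), (nat_lit 557171798182092759613737736863744), (nat_lit 2047561695410447598673884755263488), (nat_lit 1670752338338008173265840917970944), (nat_lit 1553057987979580399295880014856192), (nat_lit 709347519457605951052406128115712), (nat_lit 336801278052956608655375915286528), (nat_lit 4052477626387589586633688780636160), (nat_lit 2823855682690447095928383042748416), (nat_lit 4384644926969557340462509092503552), (nat_lit 1158735617905005192762844199780352), (nat_lit 1727353884555853186344783980789760), (nat_lit 2219965784233119732589862508822528),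 (nat_lit 3331079998786638559284814348812288), (nat_lit 1220435345139516312014313895231488), (nat_lit 739353338715722639001780693762048), (nat_lit 3393868007509831878401676455968768), (nat_lit 1415215372667291300625175604625408), (nat_lit 1253155323484772113100045782351872), (nat_lit 934363966192489929301448045101056), (nat_lit 417473759046227624511065385074688), (nat_lit 0), (nat_lit 0), (nat_lit 541808503216238317317791764447232), (nat_lit 620181003865955521011338987962368), (nat_lit 715168538793639313381727013961728), (nat_lit 417975251635452047430142201430016), (nat_lit 124059401969615875537499448147968), (nat_lit 0), (nat_lit 488124689344007603569875398688768), (nat_lit 1836388860653246381423919988998144), (nat_lit 1529693066368241174864351899680768), (nat_lit 1438414677721950086652835072573440), (nat_lit 745223465586490914289884164259840), (nat_lit 598216195743277282856770155315200), (nat_lit 1221199539505311430756211191971840), (nat_lit 2748643461946955878003127221223424),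 (nat_lit 2752674781575600540453952617971712), (nat_lit 1010250770633015086228977773182976), (nat_lit 1727353884555853186344783980789760), (nat_lit 2219965784233119732589862508822528), (nat_lit 3331079998786638559284814348812288), (nat_lit 1220435345139516312014313895231488), (nat_lit 1158813271509076093693401382256640), (nat_lit 2553518330408800848876383999361024), (nat_lit 2330228693758440134289716641005568), (nat_lit 1351523913175188831374470042091520), (nat_lit 1292366920499113452922618911916032), (nat_lit 485856890090886412250982826115072), (nat_lit 0), (nat_lit 231091795083070456000181868429312), (nat_lit 620181003865955521011338987962368), (nat_lit 493436889690817924456492900024320), (nat_lit 991537384077479696790565806931968), (nat_lit 318482051959471219009774084423680), (nat_lit 231091795083070456000181868429312), (nat_lit 1201788283350410461726293845082112), (nat_lit 1529693066368241174864351899680768), (nat_lit 2404600065872221851631213304872960),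 (nat_lit 595131084266746165283306317283328), (nat_lit 519404837045538725013246393188352), (nat_lit 1338621511762845666556531112411136), (nat_lit 3005101229616539200568878474199040), (nat_lit 622752618265581967993243711832064), (nat_lit 739353338715722639001780693762048), (nat_lit 3393868007509831878401676455968768), (nat_lit 1415215372667291300625175604625408), (nat_lit 1351523913175188831374470042091520), (nat_lit 1292366920499113452922618911916032), (nat_lit 636964103918942438019548168847360), (nat_lit 94111104536634927031048999010304), (nat_lit 428612387028434246327240088354816), (nat_lit 715168538793639313381727013961728), (nat_lit 991537384077479696790565806931968), (nat_lit 395742244383619797459409261559808), (nat_lit 490494180678031006956849431838720), (nat_lit 1374369591008052757895213802848256), (nat_lit 1438414677721950086652835072573440), (nat_lit 595131084266746165283306317283328), (nat_lit 771287916290905379909528855773184), (nat_lit 1495868250915648259270854699909120),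 (nat_lit 1235480556798422196431801087426560), (nat_lit 1253155323484772113100045782351872), (nat_lit 934363966192489929301448045101056), (nat_lit 485856890090886412250982826115072), (nat_lit 184762888771644886781633004306432), (nat_lit 378637653777267327046968831639552), (nat_lit 417975251635452047430142201430016), (nat_lit 318482051959471219009774084423680), (nat_lit 378637653777267327046968831639552), (nat_lit 1201545544025053208170421909716992), (nat_lit 745223465586490914289884164259840), (nat_lit 495678915964981288060907887263744), (nat_lit 726181005157196735540382255808512), (nat_lit 417473759046227624511065385074688), (nat_lit 110543622437412513461917762715648), (nat_lit 345494884072588079869542638026752), (nat_lit 124059401969615875537499448147968), (nat_lit 345494884072588079869542638026752), (nat_lit 362452744372705043325519057125376), (nat_lit 140169456279808215938290254086144), (nat_lit 103229161678419681570472832532480), (nat_lit 144957453039664740504518793363456),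 (nat_lit 144957453039664740504518793363456), (nat_lit 22944757197904062714968587370496)]


def lP12_0 : List (T ℤ) := [(P (nat_lit 0)), (P (nat_lit 0)), (P (nat_lit 0)), (P (nat_lit 0)), (P (nat_lit 0)), (P (nat_lit 0)), (P (nat_lit 0)), (P (nat_lit 0))]
def lP12_1 : List (T ℤ) := [(P (nat_lit 0)), (M (nat_lit 4410501400340933843783516159999)), (P (nat_lit 0)), (P (nat_lit 0)), (T.h (T.h (T.h (M (nat_lit 470961987125908346733519175679)) (T.h (P (nat_lit 0)) (T.h (P (nat_lit 57899600867765543501824)) (T.h (P (nat_lit 0)) (M (nat_lit 846434129254809599)))))) (T.h (P (nat_lit 0)) (T.h (T.h (M (nat_lit 1942057638129030519586815)) (T.h (P (nat_lit 0)) (P (nat_lit 1192941709491699712)))) (T.h (P (nat_lit 0)) (M (nat_lit 3371299736341446655)))))) (T.h (T.h (P (nat_lit 0)) (T.h (T.h (P (nat_lit 0)) (T.h (P (nat_lit 538075358818507685888)) (T.h (P (nat_lit 0)) (M (nat_lit 1583080657387519))))) (T.h (P (nat_lit 0)) (T.h (T.h (P (nat_lit 0)) (M (nat_lit 598511274688511)))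 (P (nat_lit 0)))))) (T.h (T.h (T.h (M (nat_lit 1942057638129030519586815)) (T.h (P (nat_lit 0)) (P (nat_lit 1192941709491699712)))) (T.h (P (nat_lit 0)) (M (nat_lit 556449493575270399)))) (T.h (T.h (P (nat_lit 0)) (T.h (T.h (P (nat_lit 0)) (M (nat_lit 598511274688511))) (P (nat_lit 0)))) (M (nat_lit 3371299736341446655)))))), (T.h (T.h (T.h (P (nat_lit 0)) (T.h (P (nat_lit 0)) (T.h (P (nat_lit 0)) (T.h (P (nat_lit 1386797677371080048640)) (T.h (P (nat_lit 0)) (M (nat_lit 520789253947391))))))) (T.h (P (nat_lit 0)) (T.h (T.h (P (nat_lit 0)) (T.h (M (nat_lit 1277770570003986251775)) (T.h (P (nat_lit 0)) (P (nat_lit 3212398805352448))))) (T.h (P (nat_lit 0)) (T.h (T.h (P (nat_lit 0)) (M (nat_lit 250554719240191))) (P (nat_lit 0))))))) (T.h (T.h (P (nat_lit 0)) (T.h (T.h (M (nat_lit 820044288225231356559359)) (T.h (P (nat_lit 0)) (P (nat_lit 1945289511797784576)))) (T.h (P (nat_lit 0)) (M (nat_lit 1172922028869550079))))) (T.h (T.h (T.h (P (nat_lit 0)) (T.h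 (P (nat_lit 1277770570003986251776)) (T.h (P (nat_lit 0)) (M (nat_lit 3212398805352447))))) (T.h (P (nat_lit 0)) (T.h (T.h (P (nat_lit 0)) (M (nat_lit 9472520804892671))) (P (nat_lit 0))))) (T.h (T.h (P (nat_lit 0)) (P (nat_lit 1172922028869550080))) (T.h (T.h (T.h (P (nat_lit 0)) (P (nat_lit 250554719240192))) (P (nat_lit 0))) (P (nat_lit 0))))))), (T.h (T.h (T.h (P (nat_lit 5874464779828831870272703299584)) (T.h (P (nat_lit 0)) (T.h (M (nat_lit 1408964967221915887337471)) (T.h (P (nat_lit 0)) (P (nat_lit 2917492293147557888)))))) (T.h (P (nat_lit 0)) (T.h (T.h (P (nat_lit 1789014615482866992152576)) (T.h (P (nat_lit 0)) (P (nat_lit 1418544840500576256)))) (T.h (P (nat_lit 0)) (P (nat_lit 2729902727365656576)))))) (T.h (T.h (P (nat_lit 0)) (T.h (T.h (P (nat_lit 0)) (T.h (P (nat_lit 101896397878233923584)) (T.h (P (nat_lit 0)) (P (nat_lit 2216312920342528))))) (P (nat_lit 0)))) (T.h (T.h (T.h (P (nat_lit 1789014615482866992152576)) (T.h (P (nat_lit 0)) (P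 (nat_lit 1418544840500576256)))) (T.h (P (nat_lit 0)) (P (nat_lit 2005410347908857856)))) (T.h (P (nat_lit 0)) (P (nat_lit 2729902727365656576)))))), (T.h (T.h (T.h (P (nat_lit 0)) (T.h (P (nat_lit 0)) (T.h (P (nat_lit 0)) (T.h (M (nat_lit 1386797677371080048639)) (T.h (P (nat_lit 0)) (P (nat_lit 520789253947392))))))) (P (nat_lit 0))) (T.h (T.h (P (nat_lit 0)) (T.h (T.h (P (nat_lit 820044288225231356559360)) (T.h (P (nat_lit 0)) (M (nat_lit 1945289511797784575)))) (P (nat_lit 0)))) (T.h (T.h (P (nat_lit 0)) (T.h (P (nat_lit 0)) (T.h (T.h (P (nat_lit 0)) (P (nat_lit 9472520804892672))) (P (nat_lit 0))))) (P (nat_lit 0)))))]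
def lP12_2 : List (T ℤ) := [(T.h (T.h (T.h (P (nat_lit 0)) (T.h (P (nat_lit 0)) (T.h (P (nat_lit 0)) (T.h (P (nat_lit 0)) (M (nat_lit 888813660070215679)))))) (P (nat_lit 0))) (T.h (P (nat_lit 0)) (T.h (T.h (P (nat_lit 0)) (T.h (P (nat_lit 0)) (M (nat_lit 3233287101403365375)))) (P (nat_lit 0))))), (P (nat_lit 0)), (P (nat_lit 0)), (P (nat_lit 0)), (T.h (T.h (P (nat_lit 0)) (T.h (T.h (P (nat_lit 0)) (T.h (M (nat_lit 14280217490853106859114495)) (T.h (P (nat_lit 0)) (M (nat_lit 5463924327831306239))))) (T.h (P (nat_lit 0)) (T.h (T.h (P (nat_lit 0)) (P (nat_lit 3431769517741572096))) (P (nat_lit 0)))))) (T.h (T.h (T.h (P (nat_lit 2442310398557518728414625792)) (T.h (P (nat_lit 0)) (T.h (P (nat_lit 10983023708140231196672)) (T.h (P (nat_lit 0)) (M (nat_lit 664208017784831)))))) (T.h (P (nat_lit 0)) (T.h (T.h (M (nat_lit 3047215125714868109311)) (T.h (P (nat_lit 0)) (P (nat_lit 3547622079004672)))) (T.h (P (nat_lit 0)) (M (nat_lit 1626567914815487)))))) (T.h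 (T.h (P (nat_lit 0)) (T.h (T.h (P (nat_lit 0)) (P (nat_lit 3565072346572128256))) (P (nat_lit 0)))) (T.h (T.h (T.h (P (nat_lit 3679752308041006972928)) (T.h (P (nat_lit 0)) (M (nat_lit 1039951104770047)))) (T.h (P (nat_lit 0)) (P (nat_lit 140431119548416)))) (T.h (P (nat_lit 0)) (M (nat_lit 11815390019583))))))), (T.h (T.h (P (nat_lit 0)) (T.h (T.h (P (nat_lit 22549686110619622894297153536)) (T.h (P (nat_lit 0)) (T.h (P (nat_lit 538372468300809502720)) (T.h (P (nat_lit 0)) (P (nat_lit 537820007137280)))))) (T.h (P (nat_lit 0)) (T.h (T.h (P (nat_lit 4987765701830972014592)) (T.h (P (nat_lit 0)) (P (nat_lit 3255958531735552)))) (T.h (P (nat_lit 0)) (P (nat_lit 129108033208320))))))) (T.h (T.h (T.h (P (nat_lit 0)) (T.h (M (nat_lit 8807245776857616942628863)) (T.h (P (nat_lit 0)) (M (nat_lit 5996092034685861887))))) (T.h (P (nat_lit 0)) (T.h (T.h (P (nat_lit 0)) (M (nat_lit 7115061308898148351))) (P (nat_lit 0))))) (T.h (T.h (P (nat_lit 0)) (T.h (T.h (M (nat_lit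 4276355499288042668031)) (T.h (P (nat_lit 0)) (M (nat_lit 17651129576325119)))) (T.h (P (nat_lit 0)) (M (nat_lit 1762998010347519))))) (T.h (T.h (T.h (P (nat_lit 0)) (P (nat_lit 5476563799450320896))) (P (nat_lit 0))) (T.h (T.h (P (nat_lit 0)) (P (nat_lit 4056569522847744))) (P (nat_lit 0))))))), (T.h (T.h (P (nat_lit 0)) (T.h (T.h (P (nat_lit 0)) (T.h (P (nat_lit 16159129519095628567674880)) (T.h (P (nat_lit 0)) (P (nat_lit 8662173632501383168))))) (T.h (P (nat_lit 0)) (T.h (T.h (P (nat_lit 0)) (P (nat_lit 3256229217427259392))) (P (nat_lit 0)))))) (T.h (T.h (T.h (M (nat_lit 3147316493728592057340002303)) (T.h (P (nat_lit 0)) (T.h (M (nat_lit 4041870850466806497279)) (T.h (P (nat_lit 0)) (P (nat_lit 2925128420229120)))))) (T.h (P (nat_lit 0)) (T.h (T.h (P (nat_lit 835233424690865242112)) (T.h (P (nat_lit 0)) (M (nat_lit 11975517620469759)))) (T.h (P (nat_lit 0)) (M (nat_lit 1036859366244351)))))) (T.h (T.h (P (nat_lit 0)) (T.h (T.h (P (nat_lit 0)) (P (nat_lit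 14223229982607409152))) (P (nat_lit 0)))) (T.h (T.h (T.h (M (nat_lit 4524051548051001573375)) (T.h (P (nat_lit 0)) (P (nat_lit 822254790705152)))) (T.h (P (nat_lit 0)) (M (nat_lit 652816732782591)))) (T.h (P (nat_lit 0)) (P (nat_lit 845034740580352))))))), (T.h (T.h (P (nat_lit 0)) (T.h (T.h (M (nat_lit 23308674508616954859992645631)) (T.h (P (nat_lit 0)) (T.h (M (nat_lit 6403020190384731979775)) (T.h (P (nat_lit 0)) (P (nat_lit 4525130102341632)))))) (T.h (P (nat_lit 0)) (T.h (T.h (M (nat_lit 3679868749620923334655)) (T.h (P (nat_lit 0)) (M (nat_lit 421025460584447)))) (T.h (P (nat_lit 0)) (M (nat_lit 1405125303336959))))))) (T.h (T.h (T.h (P (nat_lit 0)) (T.h (P (nat_lit 6699686972814614291546112)) (T.h (P (nat_lit 0)) (P (nat_lit 5598175807563366400))))) (T.h (P (nat_lit 0)) (T.h (T.h (P (nat_lit 0)) (P (nat_lit 7082019746996027392))) (P (nat_lit 0))))) (T.h (T.h (P (nat_lit 0)) (T.h (T.h (M (nat_lit 566177892511311200255)) (T.h (P (nat_lit 0)) (P (nat_lit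 5418969469157376)))) (T.h (P (nat_lit 0)) (M (nat_lit 599549196042239))))) (T.h (T.h (T.h (P (nat_lit 0)) (M (nat_lit 8771602870383411199))) (P (nat_lit 0))) (T.h (T.h (P (nat_lit 0)) (M (nat_lit 3523974070075391))) (P (nat_lit 0)))))))]
def lP12_3 : List (T ℤ) := [(T.h (T.h (P (nat_lit 0)) (T.h (T.h (P (nat_lit 0)) (T.h (P (nat_lit 2424682419920877020774400)) (T.h (P (nat_lit 0)) (M (nat_lit 6178310966397108223))))) (T.h (P (nat_lit 0)) (T.h (T.h (P (nat_lit 0)) (P (nat_lit 287420047758983168))) (P (nat_lit 0)))))) (T.h (T.h (T.h (M (nat_lit 279908450380878969705594879)) (T.h (P (nat_lit 0)) (M (nat_lit 9901917847013963071487)))) (T.h (P (nat_lit 0)) (M (nat_lit 25474099469558480895)))) (T.h (T.h (P (nat_lit 0)) (T.h (T.h (P (nat_lit 0)) (M (nat_lit 10165924027084832767))) (P (nat_lit 0)))) (P (nat_lit 2829812515106405220352))))), (P (nat_lit 0)), (P (nat_lit 0)), (T.h (T.h (T.h (M (nat_lit 231541330990421274629362417663)) (T.h (P (nat_lit 0)) (T.h (M (nat_lit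 3569015244786354544967679)) (T.h (P (nat_lit 0)) (P (nat_lit 631264490440097792)))))) (T.h (P (nat_lit 0)) (T.h (T.h (M (nat_lit 3569015244786354544967679)) (T.h (P (nat_lit 0)) (M (nat_lit 40000117314756280319)))) (T.h (P (nat_lit 0)) (P (nat_lit 631264490440097792)))))) (T.h (T.h (P (nat_lit 0)) (T.h (T.h (P (nat_lit 0)) (T.h (M (nat_lit 36647654013845643460607)) (T.h (P (nat_lit 0)) (M (nat_lit 3493448433926143))))) (T.h (P (nat_lit 0)) (T.h (T.h (P (nat_lit 0)) (M (nat_lit 3493448433926143))) (P (nat_lit 0)))))) (T.h (T.h (T.h (P (nat_lit 0)) (T.h (P (nat_lit 0)) (P (nat_lit 4235541714296635392)))) (T.h (P (nat_lit 0)) (P (nat_lit 4235541714296635392)))) (T.h (T.h (P (nat_lit 0)) (T.h (T.h (P (nat_lit 0)) (M (nat_lit 6475149598654463))) (P (nat_lit 0)))) (P (nat_lit 0)))))), (T.h (T.h (T.h (P (nat_lit 0)) (T.h (P (nat_lit 32656553038288046060575129600)) (T.h (P (nat_lit 0)) (T.h (P (nat_lit 7363688533803120197632)) (T.h (P (nat_lit 0)) (M (nat_lit 220796630335487)))))))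 (T.h (P (nat_lit 0)) (T.h (T.h (P (nat_lit 0)) (T.h (P (nat_lit 30084483994422802907136)) (T.h (P (nat_lit 0)) (M (nat_lit 3689423423733759))))) (T.h (P (nat_lit 0)) (T.h (T.h (P (nat_lit 0)) (M (nat_lit 3645792647774207))) (P (nat_lit 0))))))) (T.h (T.h (P (nat_lit 0)) (T.h (T.h (P (nat_lit 18361088292942342694895616)) (T.h (P (nat_lit 0)) (M (nat_lit 13036727460421435391)))) (T.h (P (nat_lit 0)) (M (nat_lit 2157869546520707071))))) (T.h (T.h (T.h (P (nat_lit 0)) (T.h (M (nat_lit 15880694973642691313663)) (T.h (P (nat_lit 0)) (P (nat_lit 12141505585938432))))) (T.h (P (nat_lit 0)) (T.h (T.h (P (nat_lit 0)) (P (nat_lit 5600629794930688))) (P (nat_lit 0))))) (T.h (T.h (P (nat_lit 0)) (P (nat_lit 5552322172325724160))) (T.h (T.h (T.h (P (nat_lit 0)) (M (nat_lit 194936912609279))) (P (nat_lit 0))) (P (nat_lit 0))))))), (T.h (T.h (T.h (P (nat_lit 0)) (T.h (P (nat_lit 0)) (T.h (M (nat_lit 202648603037179402256383)) (T.h (P (nat_lit 0)) (M (nat_lit 3437973054217519103))))))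 (T.h (P (nat_lit 0)) (T.h (T.h (P (nat_lit 12490453405460551285342208)) (T.h (P (nat_lit 0)) (P (nat_lit 49740724873375776768)))) (T.h (P (nat_lit 0)) (P (nat_lit 812847327025823744)))))) (T.h (T.h (P (nat_lit 0)) (T.h (T.h (P (nat_lit 0)) (T.h (P (nat_lit 40872332593621807136768)) (T.h (P (nat_lit 0)) (P (nat_lit 5870480457662464))))) (T.h (P (nat_lit 0)) (T.h (T.h (P (nat_lit 0)) (M (nat_lit 2868643210854399))) (P (nat_lit 0)))))) (T.h (T.h (T.h (P (nat_lit 0)) (T.h (P (nat_lit 0)) (M (nat_lit 10793703863186620415)))) (T.h (P (nat_lit 0)) (P (nat_lit 6890058237970743296)))) (T.h (T.h (P (nat_lit 0)) (T.h (T.h (P (nat_lit 0)) (P (nat_lit 7058222133673984))) (P (nat_lit 0)))) (M (nat_lit 552709772135104511)))))), (T.h (T.h (T.h (P (nat_lit 0)) (T.h (M (nat_lit 28594865004676513644159172607)) (T.h (P (nat_lit 0)) (M (nat_lit 5040543764096126812159))))) (T.h (P (nat_lit 0)) (T.h (T.h (P (nat_lit 0)) (T.h (M (nat_lit 21528506760766722932735)) (T.h (P (nat_lit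 0)) (P (nat_lit 154781880287232))))) (T.h (P (nat_lit 0)) (T.h (T.h (P (nat_lit 0)) (P (nat_lit 3398585621741568))) (P (nat_lit 0))))))) (T.h (T.h (P (nat_lit 0)) (T.h (T.h (M (nat_lit 11966167736419842051276799)) (T.h (P (nat_lit 0)) (P (nat_lit 23557292345440337920)))) (T.h (P (nat_lit 0)) (P (nat_lit 2052704746300506112))))) (T.h (T.h (T.h (P (nat_lit 0)) (T.h (P (nat_lit 9192677989439676350464)) (T.h (P (nat_lit 0)) (P (nat_lit 738651429666816))))) (P (nat_lit 0))) (T.h (T.h (P (nat_lit 0)) (M (nat_lit 3731991322861502463))) (T.h (T.h (T.h (P (nat_lit 0)) (P (nat_lit 1895257306300416))) (P (nat_lit 0))) (P (nat_lit 0))))))), (T.h (T.h (T.h (P (nat_lit 14562162258249013777924918083584)) (T.h (P (nat_lit 0)) (T.h (P (nat_lit 5400635009370655693996032)) (T.h (P (nat_lit 0)) (M (nat_lit 1544577741599277055)))))) (T.h (P (nat_lit 0)) (T.h (T.h (M (nat_lit 1586501907438543587770367)) (T.h (P (nat_lit 0)) (P (nat_lit 272633426224349184)))) (T.h (P (nat_lit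 0)) (P (nat_lit 1238029958807289856)))))) (T.h (T.h (P (nat_lit 0)) (T.h (T.h (P (nat_lit 0)) (M (nat_lit 14866527205867955159039))) (P (nat_lit 0)))) (T.h (T.h (T.h (P (nat_lit 472108168470894989017088)) (T.h (P (nat_lit 0)) (M (nat_lit 2606053976117870591)))) (T.h (P (nat_lit 0)) (P (nat_lit 613938376747253760)))) (T.h (P (nat_lit 0)) (P (nat_lit 555935322035191808))))))]
def lP12_4 : List (T ℤ) := [(P (nat_lit 0)), (P (nat_lit 0)), (T.h (T.h (P (nat_lit 0)) (T.h (T.h (P (nat_lit 0)) (T.h (M (nat_lit 14280217490853106859114495)) (T.h (P (nat_lit 0)) (P (nat_lit 3431769517741572096))))) (T.h (P (nat_lit 0)) (T.h (T.h (P (nat_lit 0)) (M (nat_lit 5463924327831306239))) (P (nat_lit 0)))))) (T.h (T.h (T.h (P (nat_lit 2442310398557518728414625792)) (T.h (P (nat_lit 0)) (T.h (M (nat_lit 3047215125714868109311)) (T.h (P (nat_lit 0)) (M (nat_lit 1626567914815487)))))) (T.h (P (nat_lit 0)) (T.h (T.h (P (nat_lit 10983023708140231196672)) (T.h (P (nat_lit 0)) (P (nat_lit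 3547622079004672)))) (T.h (P (nat_lit 0)) (M (nat_lit 664208017784831)))))) (T.h (T.h (P (nat_lit 0)) (T.h (T.h (P (nat_lit 0)) (P (nat_lit 3565072346572128256))) (P (nat_lit 0)))) (T.h (T.h (T.h (P (nat_lit 3679752308041006972928)) (T.h (P (nat_lit 0)) (P (nat_lit 140431119548416)))) (T.h (P (nat_lit 0)) (M (nat_lit 1039951104770047)))) (T.h (P (nat_lit 0)) (M (nat_lit 11815390019583))))))), (T.h (T.h (P (nat_lit 0)) (T.h (T.h (P (nat_lit 32656553038288046060575129600)) (T.h (P (nat_lit 0)) (T.h (P (nat_lit 30084483994422802907136)) (T.h (P (nat_lit 0)) (M (nat_lit 3645792647774207)))))) (T.h (P (nat_lit 0)) (T.h (T.h (P (nat_lit 7363688533803120197632)) (T.h (P (nat_lit 0)) (M (nat_lit 3689423423733759)))) (T.h (P (nat_lit 0)) (M (nat_lit 220796630335487))))))) (T.h (T.h (T.h (P (nat_lit 0)) (T.h (P (nat_lit 18361088292942342694895616)) (T.h (P (nat_lit 0)) (M (nat_lit 2157869546520707071))))) (T.h (P (nat_lit 0)) (T.h (T.h (P (nat_lit 0)) (M (nat_lit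 13036727460421435391))) (P (nat_lit 0))))) (T.h (T.h (P (nat_lit 0)) (T.h (T.h (M (nat_lit 15880694973642691313663)) (T.h (P (nat_lit 0)) (P (nat_lit 5600629794930688)))) (T.h (P (nat_lit 0)) (P (nat_lit 12141505585938432))))) (T.h (T.h (T.h (P (nat_lit 0)) (P (nat_lit 5552322172325724160))) (P (nat_lit 0))) (T.h (T.h (P (nat_lit 0)) (M (nat_lit 194936912609279))) (P (nat_lit 0))))))), (T.h (T.h (P (nat_lit 0)) (T.h (T.h (P (nat_lit 0)) (T.h (P (nat_lit 40543104508391291520811008)) (T.h (P (nat_lit 0)) (P (nat_lit 16121777625906544640))))) (T.h (P (nat_lit 0)) (T.h (T.h (P (nat_lit 0)) (P (nat_lit 16121777625906544640))) (P (nat_lit 0)))))) (T.h (T.h (T.h (P (nat_lit 2120122278237486535193657344)) (T.h (P (nat_lit 0)) (T.h (M (nat_lit 6397935496113302798335)) (T.h (P (nat_lit 0)) (P (nat_lit 3993105336041472)))))) (T.h (P (nat_lit 0)) (T.h (T.h (M (nat_lit 6397935496113302798335)) (T.h (P (nat_lit 0)) (M (nat_lit 786403700375551)))) (T.h (P (nat_lit 0))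 (P (nat_lit 3993105336041472)))))) (T.h (T.h (P (nat_lit 0)) (T.h (T.h (P (nat_lit 0)) (M (nat_lit 8197742967738335231))) (P (nat_lit 0)))) (T.h (T.h (T.h (M (nat_lit 1352678270254679326719)) (T.h (P (nat_lit 0)) (P (nat_lit 2523038380785664)))) (T.h (P (nat_lit 0)) (P (nat_lit 2523038380785664)))) (P (nat_lit 0)))))), (T.h (T.h (P (nat_lit 0)) (T.h (T.h (M (nat_lit 53085522036960781581477216255)) (T.h (P (nat_lit 0)) (T.h (M (nat_lit 31270315920543543459839)) (T.h (P (nat_lit 0)) (P (nat_lit 10558192468033536)))))) (T.h (P (nat_lit 0)) (T.h (T.h (M (nat_lit 10242234231096952750079)) (T.h (P (nat_lit 0)) (P (nat_lit 9875747953508352)))) (T.h (P (nat_lit 0)) (M (nat_lit 1149341850599423))))))) (T.h (T.h (T.h (P (nat_lit 0)) (T.h (P (nat_lit 578291697487330404204544)) (T.h (P (nat_lit 0)) (M (nat_lit 17820622312014086143))))) (T.h (P (nat_lit 0)) (T.h (T.h (P (nat_lit 0)) (P (nat_lit 2224995150961049600))) (P (nat_lit 0))))) (T.h (T.h (P (nat_lit 0)) (T.h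 (T.h (P (nat_lit 8590939794117415141376)) (T.h (P (nat_lit 0)) (P (nat_lit 34062600577941504)))) (T.h (P (nat_lit 0)) (P (nat_lit 5577055310118912))))) (T.h (T.h (T.h (P (nat_lit 0)) (M (nat_lit 3541372019637485567))) (P (nat_lit 0))) (T.h (T.h (P (nat_lit 0)) (M (nat_lit 8459720275525631))) (P (nat_lit 0))))))), (T.h (T.h (P (nat_lit 0)) (T.h (T.h (P (nat_lit 0)) (T.h (M (nat_lit 7693749846238283348049919)) (T.h (P (nat_lit 0)) (M (nat_lit 14521116546631204863))))) (T.h (P (nat_lit 0)) (T.h (T.h (P (nat_lit 0)) (M (nat_lit 11382046171812855807))) (P (nat_lit 0)))))) (T.h (T.h (T.h (M (nat_lit 4996804256147560436517044223)) (T.h (P (nat_lit 0)) (P (nat_lit 4296544144108300533760)))) (T.h (P (nat_lit 0)) (P (nat_lit 257028261180969320448)))) (T.h (T.h (P (nat_lit 0)) (T.h (T.h (P (nat_lit 0)) (M (nat_lit 23253401994541400063))) (P (nat_lit 0)))) (P (nat_lit 699374331989025882112))))), (P (nat_lit 0))]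
def lP12_5 : List (T ℤ) := [(T.h (T.h (T.h (M (nat_lit 470961987125908346733519175679)) (T.h (P (nat_lit 0)) (T.h (M (nat_lit 1942057638129030519586815)) (T.h (P (nat_lit 0)) (M (nat_lit 3371299736341446655)))))) (T.h (P (nat_lit 0)) (T.h (T.h (P (nat_lit 57899600867765543501824)) (T.h (P (nat_lit 0)) (P (nat_lit 1192941709491699712)))) (T.h (P (nat_lit 0)) (M (nat_lit 846434129254809599)))))) (T.h (T.h (P (nat_lit 0)) (T.h (T.h (P (nat_lit 0)) (T.h (P (nat_lit 538075358818507685888)) (T.h (P (nat_lit 0)) (M (nat_lit 598511274688511))))) (T.h (P (nat_lit 0)) (T.h (T.h (P (nat_lit 0)) (M (nat_lit 1583080657387519))) (P (nat_lit 0)))))) (T.h (T.h (T.h (M (nat_lit 1942057638129030519586815)) (T.h (P (nat_lit 0)) (M (nat_lit 556449493575270399)))) (T.h (P (nat_lit 0)) (P (nat_lit 1192941709491699712)))) (T.h (T.h (P (nat_lit 0)) (T.h (T.h (P (nat_lit 0)) (M (nat_lit 598511274688511))) (P (nat_lit 0)))) (M (nat_lit 3371299736341446655)))))), (T.h (T.h (T.h (P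 (nat_lit 0)) (T.h (P (nat_lit 22549686110619622894297153536)) (T.h (P (nat_lit 0)) (T.h (P (nat_lit 4987765701830972014592)) (T.h (P (nat_lit 0)) (P (nat_lit 129108033208320))))))) (T.h (P (nat_lit 0)) (T.h (T.h (P (nat_lit 0)) (T.h (P (nat_lit 538372468300809502720)) (T.h (P (nat_lit 0)) (P (nat_lit 3255958531735552))))) (T.h (P (nat_lit 0)) (T.h (T.h (P (nat_lit 0)) (P (nat_lit 537820007137280))) (P (nat_lit 0))))))) (T.h (T.h (P (nat_lit 0)) (T.h (T.h (M (nat_lit 8807245776857616942628863)) (T.h (P (nat_lit 0)) (M (nat_lit 7115061308898148351)))) (T.h (P (nat_lit 0)) (M (nat_lit 5996092034685861887))))) (T.h (T.h (T.h (P (nat_lit 0)) (T.h (M (nat_lit 4276355499288042668031)) (T.h (P (nat_lit 0)) (M (nat_lit 1762998010347519))))) (T.h (P (nat_lit 0)) (T.h (T.h (P (nat_lit 0)) (M (nat_lit 17651129576325119))) (P (nat_lit 0))))) (T.h (T.h (P (nat_lit 0)) (P (nat_lit 5476563799450320896))) (T.h (T.h (T.h (P (nat_lit 0)) (P (nat_lit 4056569522847744))) (P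 (nat_lit 0))) (P (nat_lit 0))))))), (T.h (T.h (T.h (P (nat_lit 0)) (T.h (P (nat_lit 0)) (T.h (P (nat_lit 12490453405460551285342208)) (T.h (P (nat_lit 0)) (P (nat_lit 812847327025823744)))))) (T.h (P (nat_lit 0)) (T.h (T.h (M (nat_lit 202648603037179402256383)) (T.h (P (nat_lit 0)) (P (nat_lit 49740724873375776768)))) (T.h (P (nat_lit 0)) (M (nat_lit 3437973054217519103)))))) (T.h (T.h (P (nat_lit 0)) (T.h (T.h (P (nat_lit 0)) (T.h (P (nat_lit 40872332593621807136768)) (T.h (P (nat_lit 0)) (M (nat_lit 2868643210854399))))) (T.h (P (nat_lit 0)) (T.h (T.h (P (nat_lit 0)) (P (nat_lit 5870480457662464))) (P (nat_lit 0)))))) (T.h (T.h (T.h (P (nat_lit 0)) (T.h (P (nat_lit 0)) (P (nat_lit 6890058237970743296)))) (T.h (P (nat_lit 0)) (M (nat_lit 10793703863186620415)))) (T.h (T.h (P (nat_lit 0)) (T.h (T.h (P (nat_lit 0)) (P (nat_lit 7058222133673984))) (P (nat_lit 0)))) (M (nat_lit 552709772135104511)))))), (T.h (T.h (T.h (P (nat_lit 0)) (T.h (M (nat_lit 53085522036960781581477216255))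 (T.h (P (nat_lit 0)) (T.h (M (nat_lit 10242234231096952750079)) (T.h (P (nat_lit 0)) (M (nat_lit 1149341850599423))))))) (T.h (P (nat_lit 0)) (T.h (T.h (P (nat_lit 0)) (T.h (M (nat_lit 31270315920543543459839)) (T.h (P (nat_lit 0)) (P (nat_lit 9875747953508352))))) (T.h (P (nat_lit 0)) (T.h (T.h (P (nat_lit 0)) (P (nat_lit 10558192468033536))) (P (nat_lit 0))))))) (T.h (T.h (P (nat_lit 0)) (T.h (T.h (P (nat_lit 578291697487330404204544)) (T.h (P (nat_lit 0)) (P (nat_lit 2224995150961049600)))) (T.h (P (nat_lit 0)) (M (nat_lit 17820622312014086143))))) (T.h (T.h (T.h (P (nat_lit 0)) (T.h (P (nat_lit 8590939794117415141376)) (T.h (P (nat_lit 0)) (P (nat_lit 5577055310118912))))) (T.h (P (nat_lit 0)) (T.h (T.h (P (nat_lit 0)) (P (nat_lit 34062600577941504))) (P (nat_lit 0))))) (T.h (T.h (P (nat_lit 0)) (M (nat_lit 3541372019637485567))) (T.h (T.h (T.h (P (nat_lit 0)) (M (nat_lit 8459720275525631))) (P (nat_lit 0))) (P (nat_lit 0))))))), (T.h (T.h (T.h (P (nat_lit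 26617841765287406009037398999040)) (T.h (P (nat_lit 0)) (T.h (M (nat_lit 129977362024824844582911)) (T.h (P (nat_lit 0)) (M (nat_lit 1642319604065763327)))))) (T.h (P (nat_lit 0)) (T.h (T.h (M (nat_lit 129977362024824844582911)) (T.h (P (nat_lit 0)) (M (nat_lit 20225531808785104895)))) (T.h (P (nat_lit 0)) (M (nat_lit 1642319604065763327)))))) (T.h (T.h (P (nat_lit 0)) (T.h (T.h (P (nat_lit 0)) (P (nat_lit 1028113044723877281792))) (P (nat_lit 0)))) (T.h (T.h (T.h (M (nat_lit 3714307327027633757093887)) (T.h (P (nat_lit 0)) (M (nat_lit 17337605634832465919)))) (T.h (P (nat_lit 0)) (M (nat_lit 17337605634832465919)))) (T.h (P (nat_lit 0)) (P (nat_lit 5775169041425498112)))))), (P (nat_lit 0)), (T.h (T.h (P (nat_lit 0)) (T.h (T.h (P (nat_lit 0)) (T.h (P (nat_lit 0)) (T.h (M (nat_lit 1277770570003986251775)) (T.h (P (nat_lit 0)) (M (nat_lit 250554719240191)))))) (T.h (P (nat_lit 0)) (T.h (T.h (P (nat_lit 1386797677371080048640)) (T.h (P (nat_lit 0)) (P (nat_lit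 3212398805352448)))) (T.h (P (nat_lit 0)) (M (nat_lit 520789253947391))))))) (T.h (T.h (T.h (P (nat_lit 0)) (T.h (M (nat_lit 820044288225231356559359)) (T.h (P (nat_lit 0)) (M (nat_lit 1172922028869550079))))) (T.h (P (nat_lit 0)) (T.h (T.h (P (nat_lit 0)) (P (nat_lit 1945289511797784576))) (P (nat_lit 0))))) (T.h (T.h (P (nat_lit 0)) (T.h (T.h (P (nat_lit 1277770570003986251776)) (T.h (P (nat_lit 0)) (M (nat_lit 9472520804892671)))) (T.h (P (nat_lit 0)) (M (nat_lit 3212398805352447))))) (T.h (T.h (T.h (P (nat_lit 0)) (P (nat_lit 1172922028869550080))) (P (nat_lit 0))) (T.h (T.h (P (nat_lit 0)) (P (nat_lit 250554719240192))) (P (nat_lit 0))))))), (T.h (T.h (P (nat_lit 0)) (T.h (T.h (P (nat_lit 0)) (T.h (P (nat_lit 16159129519095628567674880)) (T.h (P (nat_lit 0)) (P (nat_lit 3256229217427259392))))) (T.h (P (nat_lit 0)) (T.h (T.h (P (nat_lit 0)) (P (nat_lit 8662173632501383168))) (P (nat_lit 0)))))) (T.h (T.h (T.h (M (nat_lit 3147316493728592057340002303))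 (T.h (P (nat_lit 0)) (T.h (P (nat_lit 835233424690865242112)) (T.h (P (nat_lit 0)) (M (nat_lit 1036859366244351)))))) (T.h (P (nat_lit 0)) (T.h (T.h (M (nat_lit 4041870850466806497279)) (T.h (P (nat_lit 0)) (M (nat_lit 11975517620469759)))) (T.h (P (nat_lit 0)) (P (nat_lit 2925128420229120)))))) (T.h (T.h (P (nat_lit 0)) (T.h (T.h (P (nat_lit 0)) (P (nat_lit 14223229982607409152))) (P (nat_lit 0)))) (T.h (T.h (T.h (M (nat_lit 4524051548051001573375)) (T.h (P (nat_lit 0)) (M (nat_lit 652816732782591)))) (T.h (P (nat_lit 0)) (P (nat_lit 822254790705152)))) (T.h (P (nat_lit 0)) (P (nat_lit 845034740580352)))))))]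
def lP12_6 : List (T ℤ) := [(T.h (T.h (P (nat_lit 0)) (T.h (T.h (M (nat_lit 28594865004676513644159172607)) (T.h (P (nat_lit 0)) (T.h (M (nat_lit 21528506760766722932735)) (T.h (P (nat_lit 0)) (P (nat_lit 3398585621741568)))))) (T.h (P (nat_lit 0)) (T.h (T.h (M (nat_lit 5040543764096126812159)) (T.h (P (nat_lit 0)) (P (nat_lit 154781880287232)))) (P (nat_lit 0)))))) (T.h (T.h (T.h (P (nat_lit 0)) (T.h (M (nat_lit 11966167736419842051276799)) (T.h (P (nat_lit 0)) (P (nat_lit 2052704746300506112))))) (T.h (P (nat_lit 0)) (T.h (T.h (P (nat_lit 0)) (P (nat_lit 23557292345440337920))) (P (nat_lit 0))))) (T.h (T.h (P (nat_lit 0)) (T.h (P (nat_lit 9192677989439676350464)) (T.h (P (nat_lit 0)) (P (nat_lit 738651429666816))))) (T.h (T.h (T.h (P (nat_lit 0)) (M (nat_lit 3731991322861502463))) (P (nat_lit 0))) (T.h (T.h (P (nat_lit 0)) (P (nat_lit 1895257306300416))) (P (nat_lit 0))))))), (T.h (T.h (P (nat_lit 0)) (T.h (T.h (P (nat_lit 0)) (T.h (M (nat_lit 7693749846238283348049919))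 (T.h (P (nat_lit 0)) (M (nat_lit 11382046171812855807))))) (T.h (P (nat_lit 0)) (T.h (T.h (P (nat_lit 0)) (M (nat_lit 14521116546631204863))) (P (nat_lit 0)))))) (T.h (T.h (T.h (M (nat_lit 4996804256147560436517044223)) (T.h (P (nat_lit 0)) (P (nat_lit 257028261180969320448)))) (T.h (P (nat_lit 0)) (P (nat_lit 4296544144108300533760)))) (T.h (T.h (P (nat_lit 0)) (T.h (T.h (P (nat_lit 0)) (M (nat_lit 23253401994541400063))) (P (nat_lit 0)))) (P (nat_lit 699374331989025882112))))), (P (nat_lit 0)), (T.h (T.h (T.h (P (nat_lit 5874464779828831870272703299584)) (T.h (P (nat_lit 0)) (T.h (P (nat_lit 1789014615482866992152576)) (T.h (P (nat_lit 0)) (P (nat_lit 2729902727365656576)))))) (T.h (P (nat_lit 0)) (T.h (T.h (M (nat_lit 1408964967221915887337471)) (T.h (P (nat_lit 0)) (P (nat_lit 1418544840500576256)))) (T.h (P (nat_lit 0)) (P (nat_lit 2917492293147557888)))))) (T.h (T.h (P (nat_lit 0)) (T.h (T.h (P (nat_lit 0)) (P (nat_lit 101896397878233923584))) (T.h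 (P (nat_lit 0)) (T.h (T.h (P (nat_lit 0)) (P (nat_lit 2216312920342528))) (P (nat_lit 0)))))) (T.h (T.h (T.h (P (nat_lit 1789014615482866992152576)) (T.h (P (nat_lit 0)) (P (nat_lit 2005410347908857856)))) (T.h (P (nat_lit 0)) (P (nat_lit 1418544840500576256)))) (T.h (P (nat_lit 0)) (P (nat_lit 2729902727365656576)))))), (T.h (T.h (T.h (P (nat_lit 0)) (T.h (M (nat_lit 23308674508616954859992645631)) (T.h (P (nat_lit 0)) (T.h (M (nat_lit 3679868749620923334655)) (T.h (P (nat_lit 0)) (M (nat_lit 1405125303336959))))))) (T.h (P (nat_lit 0)) (T.h (T.h (P (nat_lit 0)) (T.h (M (nat_lit 6403020190384731979775)) (T.h (P (nat_lit 0)) (M (nat_lit 421025460584447))))) (T.h (P (nat_lit 0)) (T.h (T.h (P (nat_lit 0)) (P (nat_lit 4525130102341632))) (P (nat_lit 0))))))) (T.h (T.h (P (nat_lit 0)) (T.h (T.h (P (nat_lit 6699686972814614291546112)) (T.h (P (nat_lit 0)) (P (nat_lit 7082019746996027392)))) (T.h (P (nat_lit 0)) (P (nat_lit 5598175807563366400))))) (T.h (T.h (T.h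 (P (nat_lit 0)) (T.h (M (nat_lit 566177892511311200255)) (T.h (P (nat_lit 0)) (M (nat_lit 599549196042239))))) (T.h (P (nat_lit 0)) (T.h (T.h (P (nat_lit 0)) (P (nat_lit 5418969469157376))) (P (nat_lit 0))))) (T.h (T.h (P (nat_lit 0)) (M (nat_lit 8771602870383411199))) (T.h (T.h (T.h (P (nat_lit 0)) (M (nat_lit 3523974070075391))) (P (nat_lit 0))) (P (nat_lit 0))))))), (T.h (T.h (T.h (P (nat_lit 14562162258249013777924918083584)) (T.h (P (nat_lit 0)) (T.h (M (nat_lit 1586501907438543587770367)) (T.h (P (nat_lit 0)) (P (nat_lit 1238029958807289856)))))) (T.h (P (nat_lit 0)) (T.h (T.h (P (nat_lit 5400635009370655693996032)) (T.h (P (nat_lit 0)) (P (nat_lit 272633426224349184)))) (T.h (P (nat_lit 0)) (M (nat_lit 1544577741599277055)))))) (T.h (T.h (P (nat_lit 0)) (T.h (T.h (P (nat_lit 0)) (M (nat_lit 14866527205867955159039))) (P (nat_lit 0)))) (T.h (T.h (T.h (P (nat_lit 472108168470894989017088)) (T.h (P (nat_lit 0)) (P (nat_lit 613938376747253760)))) (T.h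 (P (nat_lit 0)) (M (nat_lit 2606053976117870591)))) (T.h (P (nat_lit 0)) (P (nat_lit 555935322035191808)))))), (P (nat_lit 0)), (T.h (T.h (P (nat_lit 0)) (T.h (P (nat_lit 0)) (T.h (P (nat_lit 0)) (T.h (M (nat_lit 1386797677371080048639)) (T.h (P (nat_lit 0)) (P (nat_lit 520789253947392))))))) (T.h (T.h (T.h (P (nat_lit 0)) (P (nat_lit 820044288225231356559360))) (T.h (P (nat_lit 0)) (T.h (T.h (P (nat_lit 0)) (M (nat_lit 1945289511797784575))) (P (nat_lit 0))))) (T.h (T.h (P (nat_lit 0)) (T.h (T.h (P (nat_lit 0)) (T.h (P (nat_lit 0)) (P (nat_lit 9472520804892672)))) (P (nat_lit 0)))) (P (nat_lit 0)))))]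
def lP12_7 : List (T ℤ) := [(T.h (T.h (P (nat_lit 0)) (T.h (T.h (P (nat_lit 0)) (T.h (P (nat_lit 2424682419920877020774400)) (T.h (P (nat_lit 0)) (P (nat_lit 287420047758983168))))) (T.h (P (nat_lit 0)) (T.h (T.h (P (nat_lit 0)) (M (nat_lit 6178310966397108223))) (P (nat_lit 0)))))) (T.h (T.h (T.h (M (nat_lit 279908450380878969705594879)) (T.h (P (nat_lit 0)) (M (nat_lit 25474099469558480895)))) (T.h (P (nat_lit 0)) (M (nat_lit 9901917847013963071487)))) (T.h (T.h (P (nat_lit 0)) (T.h (T.h (P (nat_lit 0)) (M (nat_lit 10165924027084832767))) (P (nat_lit 0)))) (P (nat_lit 2829812515106405220352))))), (P (nat_lit 0)), (T.h (T.h (P (nat_lit 0)) (T.h (P (nat_lit 0)) (T.h (P (nat_lit 0)) (T.h (P (nat_lit 0)) (M (nat_lit 888813660070215679)))))) (T.h (P (nat_lit 0)) (T.h (T.h (T.h (P (nat_lit 0)) (T.h (P (nat_lit 0)) (M (nat_lit 3233287101403365375)))) (P (nat_lit 0))) (P (nat_lit 0))))), (P (nat_lit 0)), (P (nat_lit 0)), (P (nat_lit 0)), (P (nat_lit 0)), (T.h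 (T.h (T.h (P (nat_lit 990876327444698339409504763904)) (T.h (P (nat_lit 0)) (T.h (M (nat_lit 1433624483276578380316671)) (T.h (P (nat_lit 0)) (P (nat_lit 938514037266710528)))))) (T.h (P (nat_lit 0)) (T.h (T.h (M (nat_lit 167275320706577905745919)) (T.h (P (nat_lit 0)) (P (nat_lit 3058233247004622848)))) (T.h (P (nat_lit 0)) (M (nat_lit 585211341489307647)))))) (T.h (T.h (P (nat_lit 0)) (T.h (T.h (P (nat_lit 0)) (T.h (M (nat_lit 131047960771691544575)) (T.h (P (nat_lit 0)) (M (nat_lit 797907873628159))))) (T.h (P (nat_lit 0)) (T.h (T.h (P (nat_lit 0)) (M (nat_lit 1882839594074111))) (P (nat_lit 0)))))) (T.h (T.h (T.h (M (nat_lit 167275320706577905745919)) (T.h (P (nat_lit 0)) (P (nat_lit 3058233247004622848)))) (T.h (P (nat_lit 0)) (M (nat_lit 1547050308369121279)))) (T.h (T.h (P (nat_lit 0)) (T.h (T.h (P (nat_lit 0)) (M (nat_lit 1882839594074111))) (P (nat_lit 0)))) (M (nat_lit 585211341489307647))))))]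
def lP12_8 : List (T ℤ) := [(P (nat_lit 0)), (P (nat_lit 0)), (P (nat_lit 0)), (P (nat_lit 0)), (P (nat_lit 0)), (T.h (T.h (P (nat_lit 0)) (T.h (T.h (P (nat_lit 2442310398557518728414625792)) (T.h (P (nat_lit 0)) (T.h (P (nat_lit 10983023708140231196672)) (T.h (P (nat_lit 0)) (M (nat_lit 664208017784831)))))) (T.h (P (nat_lit 0)) (T.h (T.h (P (nat_lit 3679752308041006972928)) (T.h (P (nat_lit 0)) (M (nat_lit 1039951104770047)))) (T.h (P (nat_lit 0)) (M (nat_lit 11815390019583))))))) (T.h (T.h (T.h (P (nat_lit 0)) (T.h (M (nat_lit 14280217490853106859114495)) (T.h (P (nat_lit 0)) (M (nat_lit 5463924327831306239))))) (T.h (P (nat_lit 0)) (T.h (T.h (P (nat_lit 0)) (P (nat_lit 3565072346572128256))) (P (nat_lit 0))))) (T.h (T.h (P (nat_lit 0)) (T.h (T.h (M (nat_lit 3047215125714868109311)) (T.h (P (nat_lit 0)) (P (nat_lit 3547622079004672)))) (T.h (P (nat_lit 0)) (P (nat_lit 140431119548416))))) (T.h (T.h (T.h (P (nat_lit 0)) (P (nat_lit 3431769517741572096)))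 (P (nat_lit 0))) (T.h (T.h (P (nat_lit 0)) (M (nat_lit 1626567914815487))) (P (nat_lit 0))))))), (T.h (T.h (P (nat_lit 0)) (T.h (T.h (P (nat_lit 0)) (T.h (P (nat_lit 1521845262189958403194880)) (T.h (P (nat_lit 0)) (M (nat_lit 11956053200575922175))))) (T.h (P (nat_lit 0)) (T.h (T.h (P (nat_lit 0)) (P (nat_lit 17253730779461058560))) (P (nat_lit 0)))))) (T.h (T.h (T.h (P (nat_lit 23140053171527313249152270336)) (T.h (P (nat_lit 0)) (T.h (P (nat_lit 5808399854558936825856)) (T.h (P (nat_lit 0)) (M (nat_lit 7725514768449535)))))) (T.h (P (nat_lit 0)) (T.h (T.h (P (nat_lit 2144915242713585025024)) (T.h (P (nat_lit 0)) (P (nat_lit 8814685387489280)))) (T.h (P (nat_lit 0)) (P (nat_lit 2115581020667904)))))) (T.h (T.h (P (nat_lit 0)) (T.h (T.h (P (nat_lit 0)) (P (nat_lit 10825356142486487040))) (P (nat_lit 0)))) (T.h (T.h (T.h (P (nat_lit 3979603046003950747648)) (T.h (P (nat_lit 0)) (M (nat_lit 8720639373672447)))) (T.h (P (nat_lit 0)) (P (nat_lit 2516663377395712))))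 (T.h (P (nat_lit 0)) (P (nat_lit 3487090289672192))))))), (T.h (T.h (P (nat_lit 0)) (T.h (T.h (M (nat_lit 3147316493728592057340002303)) (T.h (P (nat_lit 0)) (T.h (M (nat_lit 4041870850466806497279)) (T.h (P (nat_lit 0)) (P (nat_lit 2925128420229120)))))) (T.h (P (nat_lit 0)) (T.h (T.h (M (nat_lit 4524051548051001573375)) (T.h (P (nat_lit 0)) (P (nat_lit 822254790705152)))) (T.h (P (nat_lit 0)) (P (nat_lit 845034740580352))))))) (T.h (T.h (T.h (P (nat_lit 0)) (T.h (P (nat_lit 16159129519095628567674880)) (T.h (P (nat_lit 0)) (P (nat_lit 8662173632501383168))))) (T.h (P (nat_lit 0)) (T.h (T.h (P (nat_lit 0)) (P (nat_lit 14223229982607409152))) (P (nat_lit 0))))) (T.h (T.h (P (nat_lit 0)) (T.h (T.h (P (nat_lit 835233424690865242112)) (T.h (P (nat_lit 0)) (M (nat_lit 11975517620469759)))) (T.h (P (nat_lit 0)) (M (nat_lit 652816732782591))))) (T.h (T.h (T.h (P (nat_lit 0)) (P (nat_lit 3256229217427259392))) (P (nat_lit 0))) (T.h (T.h (P (nat_lit 0)) (M (nat_lit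 1036859366244351))) (P (nat_lit 0)))))))]
def lP12_9 : List (T ℤ) := [(T.h (T.h (P (nat_lit 0)) (T.h (T.h (P (nat_lit 0)) (T.h (P (nat_lit 6699686972814614291546112)) (T.h (P (nat_lit 0)) (P (nat_lit 5598175807563366400))))) (T.h (P (nat_lit 0)) (T.h (T.h (P (nat_lit 0)) (M (nat_lit 8771602870383411199))) (P (nat_lit 0)))))) (T.h (T.h (T.h (M (nat_lit 23308674508616954859992645631)) (T.h (P (nat_lit 0)) (T.h (M (nat_lit 6403020190384731979775)) (T.h (P (nat_lit 0)) (P (nat_lit 4525130102341632)))))) (T.h (P (nat_lit 0)) (T.h (T.h (M (nat_lit 566177892511311200255)) (T.h (P (nat_lit 0)) (P (nat_lit 5418969469157376)))) (T.h (P (nat_lit 0)) (M (nat_lit 3523974070075391)))))) (T.h (T.h (P (nat_lit 0)) (T.h (T.h (P (nat_lit 0)) (P (nat_lit 7082019746996027392))) (P (nat_lit 0)))) (T.h (T.h (T.h (M (nat_lit 3679868749620923334655)) (T.h (P (nat_lit 0)) (M (nat_lit 421025460584447)))) (T.h (P (nat_lit 0)) (M (nat_lit 599549196042239)))) (T.h (P (nat_lit 0)) (M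 (nat_lit 1405125303336959))))))), (T.h (T.h (P (nat_lit 0)) (T.h (T.h (M (nat_lit 279908450380878969705594879)) (T.h (P (nat_lit 0)) (M (nat_lit 9901917847013963071487)))) (T.h (P (nat_lit 0)) (P (nat_lit 2829812515106405220352))))) (T.h (T.h (T.h (P (nat_lit 0)) (T.h (P (nat_lit 2424682419920877020774400)) (T.h (P (nat_lit 0)) (M (nat_lit 6178310966397108223))))) (T.h (P (nat_lit 0)) (T.h (T.h (P (nat_lit 0)) (M (nat_lit 10165924027084832767))) (P (nat_lit 0))))) (T.h (T.h (P (nat_lit 0)) (M (nat_lit 25474099469558480895))) (T.h (T.h (T.h (P (nat_lit 0)) (P (nat_lit 287420047758983168))) (P (nat_lit 0))) (P (nat_lit 0)))))), (P (nat_lit 0)), (P (nat_lit 0)), (T.h (T.h (T.h (P (nat_lit 0)) (T.h (P (nat_lit 0)) (T.h (P (nat_lit 0)) (T.h (P (nat_lit 0)) (T.h (P (nat_lit 0)) (M (nat_lit 1517611902173183))))))) (T.h (P (nat_lit 0)) (T.h (T.h (P (nat_lit 0)) (T.h (M (nat_lit 393394788669509861375)) (T.h (P (nat_lit 0)) (M (nat_lit 6466019186049023))))) (T.h (P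 (nat_lit 0)) (T.h (T.h (P (nat_lit 0)) (M (nat_lit 9592676862263295))) (P (nat_lit 0))))))) (T.h (T.h (P (nat_lit 0)) (T.h (T.h (P (nat_lit 4522944407224301738000384)) (T.h (P (nat_lit 0)) (M (nat_lit 20828737242849607679)))) (T.h (P (nat_lit 0)) (P (nat_lit 4169824286824988672))))) (T.h (T.h (T.h (P (nat_lit 0)) (T.h (M (nat_lit 393394788669509861375)) (T.h (P (nat_lit 0)) (M (nat_lit 6466019186049023))))) (T.h (P (nat_lit 0)) (T.h (T.h (P (nat_lit 0)) (M (nat_lit 2885507989110783))) (P (nat_lit 0))))) (T.h (T.h (P (nat_lit 0)) (P (nat_lit 4169824286824988672))) (T.h (T.h (T.h (P (nat_lit 0)) (M (nat_lit 9592676862263295))) (P (nat_lit 0))) (P (nat_lit 0))))))), (T.h (T.h (T.h (P (nat_lit 1591581858025718796330444259328)) (T.h (P (nat_lit 0)) (T.h (P (nat_lit 2859834501335432363507712)) (T.h (P (nat_lit 0)) (P (nat_lit 12637076877723303936)))))) (T.h (P (nat_lit 0)) (T.h (T.h (M (nat_lit 12611655905557711461285887)) (T.h (P (nat_lit 0)) (M (nat_lit 64053640298185621503))))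 (T.h (P (nat_lit 0)) (P (nat_lit 15273876948326023168)))))) (T.h (T.h (P (nat_lit 0)) (T.h (T.h (P (nat_lit 0)) (T.h (M (nat_lit 4112096758463295651839)) (T.h (P (nat_lit 0)) (P (nat_lit 18148676651581440))))) (T.h (P (nat_lit 0)) (T.h (T.h (P (nat_lit 0)) (P (nat_lit 8494302816436224))) (P (nat_lit 0)))))) (T.h (T.h (T.h (M (nat_lit 18364775365187472969433087)) (T.h (P (nat_lit 0)) (M (nat_lit 34725570346131390463)))) (T.h (P (nat_lit 0)) (P (nat_lit 16994838376928509952)))) (T.h (T.h (P (nat_lit 0)) (T.h (T.h (P (nat_lit 0)) (M (nat_lit 22549945615613951))) (P (nat_lit 0)))) (P (nat_lit 16958412940216631296)))))), (T.h (T.h (T.h (P (nat_lit 0)) (T.h (M (nat_lit 4865143931512019742722359295)) (T.h (P (nat_lit 0)) (T.h (M (nat_lit 8745564178652984246271)) (T.h (P (nat_lit 0)) (P (nat_lit 1944089406472192))))))) (T.h (P (nat_lit 0)) (T.h (T.h (P (nat_lit 0)) (T.h (P (nat_lit 26712386562715379826688)) (T.h (P (nat_lit 0)) (P (nat_lit 23785446772441088)))))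 (T.h (P (nat_lit 0)) (T.h (T.h (P (nat_lit 0)) (P (nat_lit 9729628367814656))) (P (nat_lit 0))))))) (T.h (T.h (P (nat_lit 0)) (T.h (T.h (P (nat_lit 13075810249838208814678016)) (T.h (P (nat_lit 0)) (P (nat_lit 48636823786003365888)))) (T.h (P (nat_lit 0)) (P (nat_lit 10416561284773314560))))) (T.h (T.h (T.h (P (nat_lit 0)) (T.h (P (nat_lit 26712386562715379826688)) (T.h (P (nat_lit 0)) (P (nat_lit 23785446772441088))))) (T.h (P (nat_lit 0)) (T.h (T.h (P (nat_lit 0)) (P (nat_lit 15713127575584768))) (P (nat_lit 0))))) (T.h (T.h (P (nat_lit 0)) (P (nat_lit 10416561284773314560))) (T.h (T.h (T.h (P (nat_lit 0)) (P (nat_lit 9729628367814656))) (P (nat_lit 0))) (P (nat_lit 0))))))), (T.h (T.h (T.h (M (nat_lit 2001138384869827064950010413055)) (T.h (P (nat_lit 0)) (T.h (P (nat_lit 3021525689518643465945088)) (T.h (P (nat_lit 0)) (M (nat_lit 11402494650829766655)))))) (T.h (P (nat_lit 0)) (T.h (T.h (P (nat_lit 18697361475644574801068032)) (T.h (P (nat_lit 0)) (P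 (nat_lit 47436507338491559936)))) (T.h (P (nat_lit 0)) (M (nat_lit 18379318725514887167)))))) (T.h (T.h (P (nat_lit 0)) (T.h (T.h (P (nat_lit 0)) (T.h (M (nat_lit 18792191774930400968703)) (T.h (P (nat_lit 0)) (P (nat_lit 4787447241768960))))) (T.h (P (nat_lit 0)) (T.h (T.h (P (nat_lit 0)) (P (nat_lit 11297037564444672))) (P (nat_lit 0)))))) (T.h (T.h (T.h (P (nat_lit 18697361475644574801068032)) (T.h (P (nat_lit 0)) (P (nat_lit 47436507338491559936)))) (T.h (P (nat_lit 0)) (M (nat_lit 1044776055065280511)))) (T.h (T.h (P (nat_lit 0)) (T.h (T.h (P (nat_lit 0)) (P (nat_lit 11297037564444672))) (P (nat_lit 0)))) (M (nat_lit 18379318725514887167))))))]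
def lP12_10 : List (T ℤ) := [(T.h (T.h (T.h (P (nat_lit 0)) (T.h (P (nat_lit 2613273605147549987961307136)) (T.h (P (nat_lit 0)) (P (nat_lit 2747092652249212518400))))) (T.h (P (nat_lit 0)) (T.h (T.h (P (nat_lit 0)) (M (nat_lit 36272100889309380345855))) (P (nat_lit 0))))) (T.h (T.h (P (nat_lit 0)) (T.h (T.h (P (nat_lit 817752586518847605964800)) (T.h (P (nat_lit 0)) (M (nat_lit 12301045624127619071)))) (T.h (P (nat_lit 0)) (P (nat_lit 1364636026177323008))))) (T.h (T.h (T.h (P (nat_lit 0)) (M (nat_lit 36272100889309380345855))) (P (nat_lit 0))) (T.h (T.h (P (nat_lit 0)) (P (nat_lit 1364636026177323008))) (P (nat_lit 0)))))), (P (nat_lit 0)), (P (nat_lit 0)), (T.h (T.h (P (nat_lit 0)) (T.h (T.h (P (nat_lit 0)) (T.h (P (nat_lit 0)) (T.h (M (nat_lit 393394788669509861375)) (T.h (P (nat_lit 0)) (M (nat_lit 9592676862263295)))))) (T.h (P (nat_lit 0)) (T.h (T.h (P (nat_lit 0)) (T.h (P (nat_lit 0)) (M (nat_lit 6466019186049023)))) (T.h (P (nat_lit 0)) (M (nat_lit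 1517611902173183))))))) (T.h (T.h (T.h (P (nat_lit 0)) (T.h (P (nat_lit 4522944407224301738000384)) (T.h (P (nat_lit 0)) (P (nat_lit 4169824286824988672))))) (T.h (P (nat_lit 0)) (T.h (T.h (P (nat_lit 0)) (M (nat_lit 20828737242849607679))) (P (nat_lit 0))))) (T.h (T.h (P (nat_lit 0)) (T.h (T.h (M (nat_lit 393394788669509861375)) (T.h (P (nat_lit 0)) (M (nat_lit 2885507989110783)))) (T.h (P (nat_lit 0)) (M (nat_lit 6466019186049023))))) (T.h (T.h (T.h (P (nat_lit 0)) (P (nat_lit 4169824286824988672))) (P (nat_lit 0))) (T.h (T.h (P (nat_lit 0)) (M (nat_lit 9592676862263295))) (P (nat_lit 0))))))), (T.h (T.h (P (nat_lit 0)) (T.h (T.h (P (nat_lit 0)) (T.h (M (nat_lit 38685949959920147863961599)) (T.h (P (nat_lit 0)) (M (nat_lit 22833956261642371071))))) (T.h (P (nat_lit 0)) (T.h (T.h (P (nat_lit 0)) (M (nat_lit 22833956261642371071))) (P (nat_lit 0)))))) (T.h (T.h (T.h (P (nat_lit 39693271727488054299933540352)) (T.h (P (nat_lit 0)) (T.h (M (nat_lit 15719307222055055785983))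 (T.h (P (nat_lit 0)) (P (nat_lit 16349478683607040)))))) (T.h (P (nat_lit 0)) (T.h (T.h (M (nat_lit 15719307222055055785983)) (T.h (P (nat_lit 0)) (P (nat_lit 80522866575802368)))) (T.h (P (nat_lit 0)) (P (nat_lit 16349478683607040)))))) (T.h (T.h (P (nat_lit 0)) (T.h (T.h (P (nat_lit 0)) (P (nat_lit 46056362005355298816))) (P (nat_lit 0)))) (T.h (T.h (T.h (P (nat_lit 1600137620552457125888)) (T.h (P (nat_lit 0)) (P (nat_lit 2018016764559360)))) (T.h (P (nat_lit 0)) (P (nat_lit 2018016764559360)))) (T.h (P (nat_lit 0)) (M (nat_lit 6003141117739007))))))), (T.h (T.h (P (nat_lit 0)) (T.h (T.h (P (nat_lit 8894116918151559282853675008)) (T.h (P (nat_lit 0)) (T.h (P (nat_lit 33722942832664821891072)) (T.h (P (nat_lit 0)) (P (nat_lit 16085244215427072)))))) (T.h (P (nat_lit 0)) (T.h (T.h (M (nat_lit 20519660205683568017407)) (T.h (P (nat_lit 0)) (P (nat_lit 29997582427947008)))) (P (nat_lit 0)))))) (T.h (T.h (T.h (P (nat_lit 0)) (T.h (P (nat_lit 8907670941466001565286400))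 (T.h (P (nat_lit 0)) (M (nat_lit 32850290879351488511))))) (T.h (P (nat_lit 0)) (T.h (T.h (P (nat_lit 0)) (M (nat_lit 28954702120136736767))) (P (nat_lit 0))))) (T.h (T.h (P (nat_lit 0)) (T.h (T.h (M (nat_lit 16248505565719696506879)) (T.h (P (nat_lit 0)) (P (nat_lit 29603302290817024)))) (T.h (P (nat_lit 0)) (P (nat_lit 9334012262744064))))) (T.h (T.h (T.h (P (nat_lit 0)) (M (nat_lit 10157880130408546303))) (P (nat_lit 0))) (T.h (T.h (P (nat_lit 0)) (P (nat_lit 13110701554270208))) (P (nat_lit 0))))))), (T.h (T.h (P (nat_lit 0)) (T.h (T.h (P (nat_lit 0)) (T.h (P (nat_lit 45673022778121750688301056)) (T.h (P (nat_lit 0)) (P (nat_lit 14253265884922511360))))) (T.h (P (nat_lit 0)) (T.h (T.h (P (nat_lit 0)) (M (nat_lit 31704313535716655103))) (P (nat_lit 0)))))) (T.h (T.h (T.h (M (nat_lit 58563857056695683991302307839)) (T.h (P (nat_lit 0)) (T.h (P (nat_lit 3843571414089190080512)) (T.h (P (nat_lit 0)) (M (nat_lit 4687499992301567)))))) (T.h (P (nat_lit 0))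 (T.h (T.h (P (nat_lit 8108657485441017053184)) (T.h (P (nat_lit 0)) (M (nat_lit 48455648891830271)))) (T.h (P (nat_lit 0)) (M (nat_lit 7276835205611519)))))) (T.h (T.h (P (nat_lit 0)) (T.h (T.h (P (nat_lit 0)) (M (nat_lit 32711687646010671103))) (P (nat_lit 0)))) (T.h (T.h (T.h (M (nat_lit 17225768161661578903551)) (T.h (P (nat_lit 0)) (P (nat_lit 17216402791464960)))) (T.h (P (nat_lit 0)) (M (nat_lit 174287233941503)))) (T.h (P (nat_lit 0)) (M (nat_lit 3720088609357823))))))), (T.h (T.h (P (nat_lit 0)) (T.h (T.h (M (nat_lit 19472614965897669399187292159)) (T.h (P (nat_lit 0)) (M (nat_lit 102025982773308359180287)))) (T.h (P (nat_lit 0)) (P (nat_lit 21163988139213750009856))))) (T.h (T.h (T.h (P (nat_lit 0)) (T.h (P (nat_lit 9533650392968229510184960)) (T.h (P (nat_lit 0)) (P (nat_lit 4261631954979389440))))) (T.h (P (nat_lit 0)) (T.h (T.h (P (nat_lit 0)) (P (nat_lit 21510889844164788224))) (P (nat_lit 0))))) (T.h (T.h (P (nat_lit 0)) (P (nat_lit 455310933304797036544)))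 (T.h (T.h (T.h (P (nat_lit 0)) (M (nat_lit 18196777769839362047))) (P (nat_lit 0))) (P (nat_lit 0))))))]
def lP12_11 : List (T ℤ) := [(P (nat_lit 0)), (T.h (T.h (T.h (P (nat_lit 0)) (T.h (P (nat_lit 2442310398557518728414625792)) (T.h (P (nat_lit 0)) (T.h (P (nat_lit 3679752308041006972928)) (T.h (P (nat_lit 0)) (M (nat_lit 11815390019583))))))) (T.h (P (nat_lit 0)) (T.h (T.h (P (nat_lit 0)) (T.h (P (nat_lit 10983023708140231196672)) (T.h (P (nat_lit 0)) (M (nat_lit 1039951104770047))))) (T.h (P (nat_lit 0)) (T.h (T.h (P (nat_lit 0)) (M (nat_lit 664208017784831))) (P (nat_lit 0))))))) (T.h (T.h (P (nat_lit 0)) (T.h (T.h (M (nat_lit 14280217490853106859114495)) (T.h (P (nat_lit 0)) (P (nat_lit 3565072346572128256)))) (T.h (P (nat_lit 0)) (M (nat_lit 5463924327831306239))))) (T.h (T.h (T.h (P (nat_lit 0)) (T.h (M (nat_lit 3047215125714868109311)) (T.h (P (nat_lit 0)) (P (nat_lit 140431119548416))))) (T.h (P (nat_lit 0)) (T.h (T.h (P (nat_lit 0)) (P (nat_lit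 3547622079004672))) (P (nat_lit 0))))) (T.h (T.h (P (nat_lit 0)) (P (nat_lit 3431769517741572096))) (T.h (T.h (T.h (P (nat_lit 0)) (M (nat_lit 1626567914815487))) (P (nat_lit 0))) (P (nat_lit 0))))))), (T.h (T.h (T.h (P (nat_lit 1591581858025718796330444259328)) (T.h (P (nat_lit 0)) (T.h (M (nat_lit 12611655905557711461285887)) (T.h (P (nat_lit 0)) (P (nat_lit 15273876948326023168)))))) (T.h (P (nat_lit 0)) (T.h (T.h (P (nat_lit 2859834501335432363507712)) (T.h (P (nat_lit 0)) (M (nat_lit 64053640298185621503)))) (T.h (P (nat_lit 0)) (P (nat_lit 12637076877723303936)))))) (T.h (T.h (P (nat_lit 0)) (T.h (T.h (P (nat_lit 0)) (T.h (M (nat_lit 4112096758463295651839)) (T.h (P (nat_lit 0)) (P (nat_lit 8494302816436224))))) (T.h (P (nat_lit 0)) (T.h (T.h (P (nat_lit 0)) (P (nat_lit 18148676651581440))) (P (nat_lit 0)))))) (T.h (T.h (T.h (M (nat_lit 18364775365187472969433087)) (T.h (P (nat_lit 0)) (P (nat_lit 16994838376928509952)))) (T.h (P (nat_lit 0)) (M (nat_lit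 34725570346131390463)))) (T.h (T.h (P (nat_lit 0)) (T.h (T.h (P (nat_lit 0)) (M (nat_lit 22549945615613951))) (P (nat_lit 0)))) (P (nat_lit 16958412940216631296)))))), (T.h (T.h (T.h (P (nat_lit 0)) (T.h (P (nat_lit 8894116918151559282853675008)) (T.h (P (nat_lit 0)) (M (nat_lit 20519660205683568017407))))) (T.h (P (nat_lit 0)) (T.h (T.h (P (nat_lit 0)) (T.h (P (nat_lit 33722942832664821891072)) (T.h (P (nat_lit 0)) (P (nat_lit 29997582427947008))))) (T.h (P (nat_lit 0)) (T.h (T.h (P (nat_lit 0)) (P (nat_lit 16085244215427072))) (P (nat_lit 0))))))) (T.h (T.h (P (nat_lit 0)) (T.h (T.h (P (nat_lit 8907670941466001565286400)) (T.h (P (nat_lit 0)) (M (nat_lit 28954702120136736767)))) (T.h (P (nat_lit 0)) (M (nat_lit 32850290879351488511))))) (T.h (T.h (T.h (P (nat_lit 0)) (T.h (M (nat_lit 16248505565719696506879)) (T.h (P (nat_lit 0)) (P (nat_lit 9334012262744064))))) (T.h (P (nat_lit 0)) (T.h (T.h (P (nat_lit 0)) (P (nat_lit 29603302290817024))) (P (nat_lit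 0))))) (T.h (T.h (P (nat_lit 0)) (M (nat_lit 10157880130408546303))) (T.h (T.h (T.h (P (nat_lit 0)) (P (nat_lit 13110701554270208))) (P (nat_lit 0))) (P (nat_lit 0))))))), (T.h (T.h (T.h (M (nat_lit 10032244771051151039943298514943)) (T.h (P (nat_lit 0)) (T.h (P (nat_lit 13504962133677822730829824)) (T.h (P (nat_lit 0)) (M (nat_lit 33094276176383311871)))))) (T.h (P (nat_lit 0)) (T.h (T.h (P (nat_lit 13504962133677822730829824)) (T.h (P (nat_lit 0)) (P (nat_lit 117064877601634385920)))) (T.h (P (nat_lit 0)) (M (nat_lit 33094276176383311871)))))) (T.h (T.h (P (nat_lit 0)) (T.h (T.h (P (nat_lit 0)) (T.h (M (nat_lit 55476096322105958727679)) (T.h (P (nat_lit 0)) (P (nat_lit 13804903992459264))))) (T.h (P (nat_lit 0)) (T.h (T.h (P (nat_lit 0)) (P (nat_lit 13804903992459264))) (P (nat_lit 0)))))) (T.h (T.h (T.h (P (nat_lit 48053906595039940370759680)) (T.h (P (nat_lit 0)) (M (nat_lit 19068183177919987711)))) (T.h (P (nat_lit 0)) (M (nat_lit 19068183177919987711))))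 (T.h (T.h (P (nat_lit 0)) (T.h (T.h (P (nat_lit 0)) (P (nat_lit 58462027903008768))) (P (nat_lit 0)))) (M (nat_lit 8662364521584656383)))))), (T.h (T.h (T.h (P (nat_lit 0)) (T.h (M (nat_lit 6000969113615189185396735999)) (T.h (P (nat_lit 0)) (P (nat_lit 24438338849772933218304))))) (T.h (P (nat_lit 0)) (T.h (T.h (P (nat_lit 0)) (M (nat_lit 111759690933996743557119))) (P (nat_lit 0))))) (T.h (T.h (P (nat_lit 0)) (T.h (T.h (P (nat_lit 6083335303084980110884864)) (T.h (P (nat_lit 0)) (M (nat_lit 4310567372663554047)))) (T.h (P (nat_lit 0)) (P (nat_lit 1415962012927655936))))) (T.h (P (nat_lit 0)) (T.h (T.h (P (nat_lit 0)) (M (nat_lit 8285720689671929855))) (P (nat_lit 0)))))), (P (nat_lit 0)), (T.h (T.h (P (nat_lit 0)) (T.h (T.h (P (nat_lit 0)) (T.h (P (nat_lit 1521845262189958403194880)) (T.h (P (nat_lit 0)) (P (nat_lit 17253730779461058560))))) (T.h (P (nat_lit 0)) (T.h (T.h (P (nat_lit 0)) (M (nat_lit 11956053200575922175))) (P (nat_lit 0)))))) (T.h (T.h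 (T.h (P (nat_lit 23140053171527313249152270336)) (T.h (P (nat_lit 0)) (T.h (P (nat_lit 2144915242713585025024)) (T.h (P (nat_lit 0)) (P (nat_lit 2115581020667904)))))) (T.h (P (nat_lit 0)) (T.h (T.h (P (nat_lit 5808399854558936825856)) (T.h (P (nat_lit 0)) (P (nat_lit 8814685387489280)))) (T.h (P (nat_lit 0)) (M (nat_lit 7725514768449535)))))) (T.h (T.h (P (nat_lit 0)) (T.h (T.h (P (nat_lit 0)) (P (nat_lit 10825356142486487040))) (P (nat_lit 0)))) (T.h (T.h (T.h (P (nat_lit 3979603046003950747648)) (T.h (P (nat_lit 0)) (P (nat_lit 2516663377395712)))) (T.h (P (nat_lit 0)) (M (nat_lit 8720639373672447)))) (T.h (P (nat_lit 0)) (P (nat_lit 3487090289672192)))))))]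
def lP12_12 : List (T ℤ) := [(T.h (T.h (P (nat_lit 0)) (T.h (T.h (M (nat_lit 4865143931512019742722359295)) (T.h (P (nat_lit 0)) (T.h (P (nat_lit 26712386562715379826688)) (T.h (P (nat_lit 0)) (P (nat_lit 9729628367814656)))))) (T.h (P (nat_lit 0)) (T.h (T.h (M (nat_lit 8745564178652984246271)) (T.h (P (nat_lit 0)) (P (nat_lit 23785446772441088)))) (T.h (P (nat_lit 0)) (P (nat_lit 1944089406472192))))))) (T.h (T.h (T.h (P (nat_lit 0)) (T.h (P (nat_lit 13075810249838208814678016)) (T.h (P (nat_lit 0)) (P (nat_lit 10416561284773314560))))) (T.h (P (nat_lit 0)) (T.h (T.h (P (nat_lit 0)) (P (nat_lit 48636823786003365888))) (P (nat_lit 0))))) (T.h (T.h (P (nat_lit 0)) (T.h (T.h (P (nat_lit 26712386562715379826688)) (T.h (P (nat_lit 0)) (P (nat_lit 15713127575584768)))) (T.h (P (nat_lit 0)) (P (nat_lit 23785446772441088))))) (T.h (T.h (T.h (P (nat_lit 0)) (P (nat_lit 10416561284773314560))) (P (nat_lit 0))) (T.h (T.h (P (nat_lit 0)) (P (nat_lit 9729628367814656)))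 (P (nat_lit 0))))))), (T.h (T.h (P (nat_lit 0)) (T.h (T.h (P (nat_lit 0)) (T.h (P (nat_lit 45673022778121750688301056)) (T.h (P (nat_lit 0)) (M (nat_lit 31704313535716655103))))) (T.h (P (nat_lit 0)) (T.h (T.h (P (nat_lit 0)) (P (nat_lit 14253265884922511360))) (P (nat_lit 0)))))) (T.h (T.h (T.h (M (nat_lit 58563857056695683991302307839)) (T.h (P (nat_lit 0)) (T.h (P (nat_lit 8108657485441017053184)) (T.h (P (nat_lit 0)) (M (nat_lit 7276835205611519)))))) (T.h (P (nat_lit 0)) (T.h (T.h (P (nat_lit 3843571414089190080512)) (T.h (P (nat_lit 0)) (M (nat_lit 48455648891830271)))) (T.h (P (nat_lit 0)) (M (nat_lit 4687499992301567)))))) (T.h (T.h (P (nat_lit 0)) (T.h (T.h (P (nat_lit 0)) (M (nat_lit 32711687646010671103))) (P (nat_lit 0)))) (T.h (T.h (T.h (M (nat_lit 17225768161661578903551)) (T.h (P (nat_lit 0)) (M (nat_lit 174287233941503)))) (T.h (P (nat_lit 0)) (P (nat_lit 17216402791464960)))) (T.h (P (nat_lit 0)) (M (nat_lit 3720088609357823))))))), (T.h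 (T.h (P (nat_lit 0)) (T.h (T.h (M (nat_lit 6000969113615189185396735999)) (T.h (P (nat_lit 0)) (M (nat_lit 111759690933996743557119)))) (T.h (P (nat_lit 0)) (P (nat_lit 24438338849772933218304))))) (T.h (T.h (T.h (P (nat_lit 0)) (T.h (P (nat_lit 6083335303084980110884864)) (T.h (P (nat_lit 0)) (P (nat_lit 1415962012927655936))))) (T.h (P (nat_lit 0)) (T.h (T.h (P (nat_lit 0)) (M (nat_lit 4310567372663554047))) (P (nat_lit 0))))) (T.h (P (nat_lit 0)) (T.h (T.h (T.h (P (nat_lit 0)) (M (nat_lit 8285720689671929855))) (P (nat_lit 0))) (P (nat_lit 0)))))), (T.h (T.h (T.h (P (nat_lit 990876327444698339409504763904)) (T.h (P (nat_lit 0)) (T.h (M (nat_lit 167275320706577905745919)) (T.h (P (nat_lit 0)) (M (nat_lit 585211341489307647)))))) (T.h (P (nat_lit 0)) (T.h (T.h (M (nat_lit 1433624483276578380316671)) (T.h (P (nat_lit 0)) (P (nat_lit 3058233247004622848)))) (T.h (P (nat_lit 0)) (P (nat_lit 938514037266710528)))))) (T.h (T.h (P (nat_lit 0)) (T.h (T.h (P (nat_lit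 0)) (T.h (M (nat_lit 131047960771691544575)) (T.h (P (nat_lit 0)) (M (nat_lit 1882839594074111))))) (T.h (P (nat_lit 0)) (T.h (T.h (P (nat_lit 0)) (M (nat_lit 797907873628159))) (P (nat_lit 0)))))) (T.h (T.h (T.h (M (nat_lit 167275320706577905745919)) (T.h (P (nat_lit 0)) (M (nat_lit 1547050308369121279)))) (T.h (P (nat_lit 0)) (P (nat_lit 3058233247004622848)))) (T.h (T.h (P (nat_lit 0)) (T.h (T.h (P (nat_lit 0)) (M (nat_lit 1882839594074111))) (P (nat_lit 0)))) (M (nat_lit 585211341489307647)))))), (T.h (T.h (T.h (P (nat_lit 0)) (T.h (M (nat_lit 3147316493728592057340002303)) (T.h (P (nat_lit 0)) (T.h (M (nat_lit 4524051548051001573375)) (T.h (P (nat_lit 0)) (P (nat_lit 845034740580352))))))) (T.h (P (nat_lit 0)) (T.h (T.h (P (nat_lit 0)) (T.h (M (nat_lit 4041870850466806497279)) (T.h (P (nat_lit 0)) (P (nat_lit 822254790705152))))) (T.h (P (nat_lit 0)) (T.h (T.h (P (nat_lit 0)) (P (nat_lit 2925128420229120))) (P (nat_lit 0))))))) (T.h (T.h (P (nat_lit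 0)) (T.h (T.h (P (nat_lit 16159129519095628567674880)) (T.h (P (nat_lit 0)) (P (nat_lit 14223229982607409152)))) (T.h (P (nat_lit 0)) (P (nat_lit 8662173632501383168))))) (T.h (T.h (T.h (P (nat_lit 0)) (T.h (P (nat_lit 835233424690865242112)) (T.h (P (nat_lit 0)) (M (nat_lit 652816732782591))))) (T.h (P (nat_lit 0)) (T.h (T.h (P (nat_lit 0)) (M (nat_lit 11975517620469759))) (P (nat_lit 0))))) (T.h (T.h (P (nat_lit 0)) (P (nat_lit 3256229217427259392))) (T.h (T.h (T.h (P (nat_lit 0)) (M (nat_lit 1036859366244351))) (P (nat_lit 0))) (P (nat_lit 0))))))), (T.h (T.h (T.h (M (nat_lit 2001138384869827064950010413055)) (T.h (P (nat_lit 0)) (T.h (P (nat_lit 18697361475644574801068032)) (T.h (P (nat_lit 0)) (M (nat_lit 18379318725514887167)))))) (T.h (P (nat_lit 0)) (T.h (T.h (P (nat_lit 3021525689518643465945088)) (T.h (P (nat_lit 0)) (P (nat_lit 47436507338491559936)))) (T.h (P (nat_lit 0)) (M (nat_lit 11402494650829766655)))))) (T.h (T.h (P (nat_lit 0)) (T.h (T.h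 (P (nat_lit 0)) (T.h (M (nat_lit 18792191774930400968703)) (T.h (P (nat_lit 0)) (P (nat_lit 11297037564444672))))) (T.h (P (nat_lit 0)) (T.h (T.h (P (nat_lit 0)) (P (nat_lit 4787447241768960))) (P (nat_lit 0)))))) (T.h (T.h (T.h (P (nat_lit 18697361475644574801068032)) (T.h (P (nat_lit 0)) (M (nat_lit 1044776055065280511)))) (T.h (P (nat_lit 0)) (P (nat_lit 47436507338491559936)))) (T.h (T.h (P (nat_lit 0)) (T.h (T.h (P (nat_lit 0)) (P (nat_lit 11297037564444672))) (P (nat_lit 0)))) (M (nat_lit 18379318725514887167)))))), (T.h (T.h (T.h (P (nat_lit 0)) (T.h (M (nat_lit 19472614965897669399187292159)) (T.h (P (nat_lit 0)) (P (nat_lit 21163988139213750009856))))) (T.h (P (nat_lit 0)) (T.h (T.h (P (nat_lit 0)) (M (nat_lit 102025982773308359180287))) (P (nat_lit 0))))) (T.h (T.h (P (nat_lit 0)) (T.h (T.h (P (nat_lit 9533650392968229510184960)) (T.h (P (nat_lit 0)) (P (nat_lit 21510889844164788224)))) (T.h (P (nat_lit 0)) (P (nat_lit 4261631954979389440)))))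 (T.h (T.h (T.h (P (nat_lit 0)) (P (nat_lit 455310933304797036544))) (P (nat_lit 0))) (T.h (T.h (P (nat_lit 0)) (M (nat_lit 18196777769839362047))) (P (nat_lit 0)))))), (P (nat_lit 0))]
def lP12_13 : List (T ℤ) := [(T.h (T.h (P (nat_lit 0)) (T.h (T.h (P (nat_lit 0)) (T.h (P (nat_lit 6699686972814614291546112)) (T.h (P (nat_lit 0)) (M (nat_lit 8771602870383411199))))) (T.h (P (nat_lit 0)) (T.h (T.h (P (nat_lit 0)) (P (nat_lit 5598175807563366400))) (P (nat_lit 0)))))) (T.h (T.h (T.h (M (nat_lit 23308674508616954859992645631)) (T.h (P (nat_lit 0)) (T.h (M (nat_lit 566177892511311200255)) (T.h (P (nat_lit 0)) (M (nat_lit 3523974070075391)))))) (T.h (P (nat_lit 0)) (T.h (T.h (M (nat_lit 6403020190384731979775)) (T.h (P (nat_lit 0)) (P (nat_lit 5418969469157376)))) (T.h (P (nat_lit 0)) (P (nat_lit 4525130102341632)))))) (T.h (T.h (P (nat_lit 0)) (T.h (T.h (P (nat_lit 0)) (P (nat_lit 7082019746996027392))) (P (nat_lit 0)))) (T.h (T.h (T.h (M (nat_lit 3679868749620923334655))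 (T.h (P (nat_lit 0)) (M (nat_lit 599549196042239)))) (T.h (P (nat_lit 0)) (M (nat_lit 421025460584447)))) (T.h (P (nat_lit 0)) (M (nat_lit 1405125303336959))))))), (T.h (T.h (P (nat_lit 0)) (T.h (T.h (P (nat_lit 2613273605147549987961307136)) (T.h (P (nat_lit 0)) (M (nat_lit 36272100889309380345855)))) (T.h (P (nat_lit 0)) (P (nat_lit 2747092652249212518400))))) (T.h (T.h (T.h (P (nat_lit 0)) (T.h (P (nat_lit 817752586518847605964800)) (T.h (P (nat_lit 0)) (P (nat_lit 1364636026177323008))))) (T.h (P (nat_lit 0)) (T.h (T.h (P (nat_lit 0)) (M (nat_lit 12301045624127619071))) (P (nat_lit 0))))) (T.h (T.h (P (nat_lit 0)) (M (nat_lit 36272100889309380345855))) (T.h (T.h (T.h (P (nat_lit 0)) (P (nat_lit 1364636026177323008))) (P (nat_lit 0))) (P (nat_lit 0)))))), (P (nat_lit 0)), (T.h (T.h (T.h (P (nat_lit 0)) (T.h (M (nat_lit 279908450380878969705594879)) (T.h (P (nat_lit 0)) (P (nat_lit 2829812515106405220352))))) (T.h (P (nat_lit 0)) (T.h (T.h (P (nat_lit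 0)) (M (nat_lit 9901917847013963071487))) (P (nat_lit 0))))) (T.h (T.h (P (nat_lit 0)) (T.h (T.h (P (nat_lit 2424682419920877020774400)) (T.h (P (nat_lit 0)) (M (nat_lit 10165924027084832767)))) (T.h (P (nat_lit 0)) (M (nat_lit 6178310966397108223))))) (T.h (T.h (T.h (P (nat_lit 0)) (M (nat_lit 25474099469558480895))) (P (nat_lit 0))) (T.h (T.h (P (nat_lit 0)) (P (nat_lit 287420047758983168))) (P (nat_lit 0)))))), (P (nat_lit 0)), (P (nat_lit 0)), (P (nat_lit 0)), (P (nat_lit 0))]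
def lP12_14 : List (T ℤ) := [(P (nat_lit 0)), (T.h (T.h (P (nat_lit 0)) (T.h (T.h (M (nat_lit 927609735086973576535867391)) (T.h (P (nat_lit 0)) (T.h (M (nat_lit 6459268057909717630975)) (T.h (P (nat_lit 0)) (P (nat_lit 1862565443371008)))))) (T.h (P (nat_lit 0)) (T.h (T.h (P (nat_lit 1607631248593076092928)) (T.h (P (nat_lit 0)) (M (nat_lit 6306731763105791)))) (T.h (P (nat_lit 0)) (P (nat_lit 805947716206592))))))) (T.h (T.h (T.h (P (nat_lit 0)) (T.h (P (nat_lit 6113973430961570043658240)) (T.h (P (nat_lit 0)) (M (nat_lit 6755793620135051263))))) (T.h (P (nat_lit 0)) (T.h (T.h (P (nat_lit 0)) (P (nat_lit 17874334327580393472))) (P (nat_lit 0))))) (T.h (T.h (P (nat_lit 0)) (T.h (T.h (M (nat_lit 3263796041597080043519)) (T.h (P (nat_lit 0)) (P (nat_lit 2001494749478912)))) (T.h (P (nat_lit 0)) (M (nat_lit 445433025036287))))) (T.h (T.h (T.h (P (nat_lit 0)) (P (nat_lit 5187088838144557056))) (P (nat_lit 0))) (T.h (T.h (P (nat_lit 0)) (M (nat_lit 875797596635135)))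 (P (nat_lit 0))))))), (P (nat_lit 0)), (P (nat_lit 0)), (P (nat_lit 0)), (P (nat_lit 0)), (P (nat_lit 0)), (T.h (T.h (T.h (M (nat_lit 231541330990421274629362417663)) (T.h (P (nat_lit 0)) (T.h (M (nat_lit 3569015244786354544967679)) (T.h (P (nat_lit 0)) (P (nat_lit 631264490440097792)))))) (T.h (P (nat_lit 0)) (T.h (T.h (P (nat_lit 0)) (T.h (P (nat_lit 0)) (P (nat_lit 4235541714296635392)))) (P (nat_lit 0))))) (T.h (T.h (P (nat_lit 0)) (T.h (T.h (P (nat_lit 0)) (T.h (M (nat_lit 36647654013845643460607)) (T.h (P (nat_lit 0)) (M (nat_lit 3493448433926143))))) (T.h (P (nat_lit 0)) (T.h (T.h (P (nat_lit 0)) (M (nat_lit 6475149598654463))) (P (nat_lit 0)))))) (T.h (T.h (T.h (M (nat_lit 3569015244786354544967679)) (T.h (P (nat_lit 0)) (M (nat_lit 40000117314756280319)))) (T.h (P (nat_lit 0)) (P (nat_lit 4235541714296635392)))) (T.h (T.h (P (nat_lit 0)) (T.h (T.h (P (nat_lit 0)) (M (nat_lit 3493448433926143))) (P (nat_lit 0)))) (P (nat_lit 631264490440097792))))))]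
def lP12_15 : List (T ℤ) := [(T.h (T.h (T.h (P (nat_lit 0)) (T.h (P (nat_lit 18413702367181815472547954688)) (T.h (P (nat_lit 0)) (T.h (P (nat_lit 1204343865736419082240)) (T.h (P (nat_lit 0)) (P (nat_lit 3402666852876288))))))) (T.h (P (nat_lit 0)) (T.h (T.h (P (nat_lit 0)) (T.h (M (nat_lit 26253297352865044496383)) (T.h (P (nat_lit 0)) (P (nat_lit 3872134278905856))))) (T.h (P (nat_lit 0)) (T.h (T.h (P (nat_lit 0)) (M (nat_lit 4471316916764671))) (P (nat_lit 0))))))) (T.h (T.h (P (nat_lit 0)) (T.h (T.h (P (nat_lit 28796845395810728347172864)) (T.h (P (nat_lit 0)) (M (nat_lit 45210039350902915071)))) (T.h (P (nat_lit 0)) (P (nat_lit 10015910841875955712))))) (T.h (T.h (T.h (P (nat_lit 0)) (T.h (M (nat_lit 8220565680509767647231)) (T.h (P (nat_lit 0)) (P (nat_lit 14446004776632320))))) (T.h (P (nat_lit 0)) (T.h (T.h (P (nat_lit 0)) (P (nat_lit 21714928367435776))) (P (nat_lit 0))))) (T.h (T.h (P (nat_lit 0)) (P (nat_lit 8502554480137469952))) (T.h (T.h (T.h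 (P (nat_lit 0)) (M (nat_lit 3526008374001663))) (P (nat_lit 0))) (P (nat_lit 0))))))), (T.h (T.h (T.h (P (nat_lit 0)) (T.h (P (nat_lit 0)) (T.h (M (nat_lit 202648603037179402256383)) (T.h (P (nat_lit 0)) (M (nat_lit 3437973054217519103)))))) (T.h (P (nat_lit 0)) (T.h (T.h (P (nat_lit 0)) (T.h (P (nat_lit 0)) (M (nat_lit 10793703863186620415)))) (T.h (P (nat_lit 0)) (M (nat_lit 552709772135104511)))))) (T.h (T.h (P (nat_lit 0)) (T.h (T.h (P (nat_lit 0)) (T.h (P (nat_lit 40872332593621807136768)) (T.h (P (nat_lit 0)) (P (nat_lit 5870480457662464))))) (T.h (P (nat_lit 0)) (T.h (T.h (P (nat_lit 0)) (P (nat_lit 7058222133673984))) (P (nat_lit 0)))))) (T.h (T.h (T.h (P (nat_lit 12490453405460551285342208)) (T.h (P (nat_lit 0)) (P (nat_lit 49740724873375776768)))) (T.h (P (nat_lit 0)) (P (nat_lit 6890058237970743296)))) (T.h (T.h (P (nat_lit 0)) (T.h (T.h (P (nat_lit 0)) (M (nat_lit 2868643210854399))) (P (nat_lit 0)))) (P (nat_lit 812847327025823744)))))), (T.h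 (T.h (T.h (P (nat_lit 0)) (T.h (M (nat_lit 28594865004676513644159172607)) (T.h (P (nat_lit 0)) (M (nat_lit 5040543764096126812159))))) (T.h (P (nat_lit 0)) (T.h (T.h (P (nat_lit 0)) (T.h (P (nat_lit 9192677989439676350464)) (T.h (P (nat_lit 0)) (P (nat_lit 738651429666816))))) (T.h (P (nat_lit 0)) (T.h (T.h (P (nat_lit 0)) (P (nat_lit 1895257306300416))) (P (nat_lit 0))))))) (T.h (T.h (P (nat_lit 0)) (T.h (T.h (M (nat_lit 11966167736419842051276799)) (T.h (P (nat_lit 0)) (P (nat_lit 23557292345440337920)))) (T.h (P (nat_lit 0)) (M (nat_lit 3731991322861502463))))) (T.h (T.h (T.h (P (nat_lit 0)) (T.h (M (nat_lit 21528506760766722932735)) (T.h (P (nat_lit 0)) (P (nat_lit 154781880287232))))) (P (nat_lit 0))) (T.h (T.h (P (nat_lit 0)) (P (nat_lit 2052704746300506112))) (T.h (T.h (T.h (P (nat_lit 0)) (P (nat_lit 3398585621741568))) (P (nat_lit 0))) (P (nat_lit 0))))))), (T.h (T.h (T.h (P (nat_lit 14562162258249013777924918083584)) (T.h (P (nat_lit 0)) (T.h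 (P (nat_lit 5400635009370655693996032)) (T.h (P (nat_lit 0)) (M (nat_lit 1544577741599277055)))))) (T.h (P (nat_lit 0)) (T.h (T.h (P (nat_lit 472108168470894989017088)) (T.h (P (nat_lit 0)) (M (nat_lit 2606053976117870591)))) (T.h (P (nat_lit 0)) (P (nat_lit 555935322035191808)))))) (T.h (T.h (P (nat_lit 0)) (T.h (T.h (P (nat_lit 0)) (M (nat_lit 14866527205867955159039))) (P (nat_lit 0)))) (T.h (T.h (T.h (M (nat_lit 1586501907438543587770367)) (T.h (P (nat_lit 0)) (P (nat_lit 272633426224349184)))) (T.h (P (nat_lit 0)) (P (nat_lit 613938376747253760)))) (T.h (P (nat_lit 0)) (P (nat_lit 1238029958807289856)))))), (P (nat_lit 0)), (P (nat_lit 0)), (T.h (T.h (P (nat_lit 0)) (T.h (T.h (P (nat_lit 0)) (T.h (P (nat_lit 4522944407224301738000384)) (T.h (P (nat_lit 0)) (P (nat_lit 4169824286824988672))))) (T.h (P (nat_lit 0)) (T.h (T.h (P (nat_lit 0)) (P (nat_lit 4169824286824988672))) (P (nat_lit 0)))))) (T.h (T.h (T.h (P (nat_lit 0)) (T.h (P (nat_lit 0)) (T.h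 (M (nat_lit 393394788669509861375)) (T.h (P (nat_lit 0)) (M (nat_lit 9592676862263295)))))) (T.h (P (nat_lit 0)) (T.h (T.h (M (nat_lit 393394788669509861375)) (T.h (P (nat_lit 0)) (M (nat_lit 2885507989110783)))) (T.h (P (nat_lit 0)) (M (nat_lit 9592676862263295)))))) (T.h (T.h (P (nat_lit 0)) (T.h (T.h (P (nat_lit 0)) (M (nat_lit 20828737242849607679))) (P (nat_lit 0)))) (T.h (T.h (T.h (P (nat_lit 0)) (T.h (P (nat_lit 0)) (M (nat_lit 6466019186049023)))) (T.h (P (nat_lit 0)) (M (nat_lit 6466019186049023)))) (T.h (P (nat_lit 0)) (M (nat_lit 1517611902173183))))))), (T.h (T.h (P (nat_lit 0)) (T.h (T.h (P (nat_lit 22198527092807296707765207040)) (T.h (P (nat_lit 0)) (T.h (M (nat_lit 11474760161500747268095)) (T.h (P (nat_lit 0)) (P (nat_lit 10435965057105920)))))) (T.h (P (nat_lit 0)) (T.h (T.h (P (nat_lit 23584776688842588553216)) (T.h (P (nat_lit 0)) (P (nat_lit 7404734574166016)))) (T.h (P (nat_lit 0)) (P (nat_lit 6451425923497984))))))) (T.h (T.h (T.h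 (P (nat_lit 0)) (T.h (M (nat_lit 30759962955668453129715711)) (T.h (P (nat_lit 0)) (P (nat_lit 17175305936269475840))))) (T.h (P (nat_lit 0)) (T.h (T.h (P (nat_lit 0)) (M (nat_lit 41888058003003801599))) (P (nat_lit 0))))) (T.h (T.h (P (nat_lit 0)) (T.h (T.h (M (nat_lit 3195988793924517887999)) (T.h (P (nat_lit 0)) (P (nat_lit 60939349282521088)))) (T.h (P (nat_lit 0)) (P (nat_lit 5275115208441856))))) (T.h (T.h (T.h (P (nat_lit 0)) (P (nat_lit 61648439705174278144))) (P (nat_lit 0))) (T.h (T.h (P (nat_lit 0)) (M (nat_lit 6894950481264639))) (P (nat_lit 0)))))))]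
def lP12_16 : List (T ℤ) := [(T.h (T.h (P (nat_lit 0)) (T.h (T.h (P (nat_lit 0)) (T.h (P (nat_lit 8907670941466001565286400)) (T.h (P (nat_lit 0)) (M (nat_lit 32850290879351488511))))) (T.h (P (nat_lit 0)) (T.h (T.h (P (nat_lit 0)) (M (nat_lit 10157880130408546303))) (P (nat_lit 0)))))) (T.h (T.h (T.h (P (nat_lit 8894116918151559282853675008)) (T.h (P (nat_lit 0)) (T.h (P (nat_lit 33722942832664821891072)) (T.h (P (nat_lit 0)) (P (nat_lit 16085244215427072)))))) (T.h (P (nat_lit 0)) (T.h (T.h (M (nat_lit 16248505565719696506879)) (T.h (P (nat_lit 0)) (P (nat_lit 29603302290817024)))) (T.h (P (nat_lit 0)) (P (nat_lit 13110701554270208)))))) (T.h (T.h (P (nat_lit 0)) (T.h (T.h (P (nat_lit 0)) (M (nat_lit 28954702120136736767))) (P (nat_lit 0)))) (T.h (T.h (T.h (M (nat_lit 20519660205683568017407)) (T.h (P (nat_lit 0)) (P (nat_lit 29997582427947008)))) (T.h (P (nat_lit 0)) (P (nat_lit 9334012262744064)))) (P (nat_lit 0)))))), (T.h (T.h (P (nat_lit 0)) (T.h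 (T.h (M (nat_lit 58563857056695683991302307839)) (T.h (P (nat_lit 0)) (T.h (P (nat_lit 3843571414089190080512)) (T.h (P (nat_lit 0)) (M (nat_lit 4687499992301567)))))) (T.h (P (nat_lit 0)) (T.h (T.h (M (nat_lit 17225768161661578903551)) (T.h (P (nat_lit 0)) (P (nat_lit 17216402791464960)))) (T.h (P (nat_lit 0)) (M (nat_lit 3720088609357823))))))) (T.h (T.h (T.h (P (nat_lit 0)) (T.h (P (nat_lit 45673022778121750688301056)) (T.h (P (nat_lit 0)) (P (nat_lit 14253265884922511360))))) (T.h (P (nat_lit 0)) (T.h (T.h (P (nat_lit 0)) (M (nat_lit 32711687646010671103))) (P (nat_lit 0))))) (T.h (T.h (P (nat_lit 0)) (T.h (T.h (P (nat_lit 8108657485441017053184)) (T.h (P (nat_lit 0)) (M (nat_lit 48455648891830271)))) (T.h (P (nat_lit 0)) (M (nat_lit 174287233941503))))) (T.h (T.h (T.h (P (nat_lit 0)) (M (nat_lit 31704313535716655103))) (P (nat_lit 0))) (T.h (T.h (P (nat_lit 0)) (M (nat_lit 7276835205611519))) (P (nat_lit 0))))))), (T.h (T.h (P (nat_lit 0)) (T.h (T.h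 (P (nat_lit 0)) (T.h (P (nat_lit 9533650392968229510184960)) (T.h (P (nat_lit 0)) (P (nat_lit 4261631954979389440))))) (T.h (P (nat_lit 0)) (T.h (T.h (P (nat_lit 0)) (M (nat_lit 18196777769839362047))) (P (nat_lit 0)))))) (T.h (T.h (T.h (M (nat_lit 19472614965897669399187292159)) (T.h (P (nat_lit 0)) (M (nat_lit 102025982773308359180287)))) (T.h (P (nat_lit 0)) (P (nat_lit 455310933304797036544)))) (T.h (T.h (P (nat_lit 0)) (T.h (T.h (P (nat_lit 0)) (P (nat_lit 21510889844164788224))) (P (nat_lit 0)))) (P (nat_lit 21163988139213750009856))))), (P (nat_lit 0)), (T.h (T.h (M (nat_lit 231541330990421274629362417663)) (T.h (P (nat_lit 0)) (T.h (T.h (M (nat_lit 3569015244786354544967679)) (T.h (P (nat_lit 0)) (P (nat_lit 4235541714296635392)))) (T.h (P (nat_lit 0)) (P (nat_lit 631264490440097792)))))) (T.h (T.h (P (nat_lit 0)) (T.h (T.h (P (nat_lit 0)) (T.h (M (nat_lit 36647654013845643460607)) (T.h (P (nat_lit 0)) (M (nat_lit 6475149598654463))))) (T.h (P (nat_lit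 0)) (T.h (T.h (P (nat_lit 0)) (M (nat_lit 3493448433926143))) (P (nat_lit 0)))))) (T.h (T.h (T.h (M (nat_lit 3569015244786354544967679)) (T.h (P (nat_lit 0)) (P (nat_lit 4235541714296635392)))) (T.h (P (nat_lit 0)) (M (nat_lit 40000117314756280319)))) (T.h (T.h (P (nat_lit 0)) (T.h (T.h (P (nat_lit 0)) (M (nat_lit 3493448433926143))) (P (nat_lit 0)))) (P (nat_lit 631264490440097792)))))), (T.h (T.h (T.h (P (nat_lit 0)) (T.h (P (nat_lit 22198527092807296707765207040)) (T.h (P (nat_lit 0)) (T.h (P (nat_lit 23584776688842588553216)) (T.h (P (nat_lit 0)) (P (nat_lit 6451425923497984))))))) (T.h (P (nat_lit 0)) (T.h (T.h (P (nat_lit 0)) (T.h (M (nat_lit 11474760161500747268095)) (T.h (P (nat_lit 0)) (P (nat_lit 7404734574166016))))) (T.h (P (nat_lit 0)) (T.h (T.h (P (nat_lit 0)) (P (nat_lit 10435965057105920))) (P (nat_lit 0))))))) (T.h (T.h (P (nat_lit 0)) (T.h (T.h (M (nat_lit 30759962955668453129715711)) (T.h (P (nat_lit 0)) (M (nat_lit 41888058003003801599))))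 (T.h (P (nat_lit 0)) (P (nat_lit 17175305936269475840))))) (T.h (T.h (T.h (P (nat_lit 0)) (T.h (M (nat_lit 3195988793924517887999)) (T.h (P (nat_lit 0)) (P (nat_lit 5275115208441856))))) (T.h (P (nat_lit 0)) (T.h (T.h (P (nat_lit 0)) (P (nat_lit 60939349282521088))) (P (nat_lit 0))))) (T.h (T.h (P (nat_lit 0)) (P (nat_lit 61648439705174278144))) (T.h (T.h (T.h (P (nat_lit 0)) (M (nat_lit 6894950481264639))) (P (nat_lit 0))) (P (nat_lit 0))))))), (T.h (T.h (T.h (P (nat_lit 4862367950798846767216610770944)) (T.h (P (nat_lit 0)) (T.h (M (nat_lit 266273823766005034254335)) (T.h (P (nat_lit 0)) (P (nat_lit 911713510730235904)))))) (T.h (P (nat_lit 0)) (T.h (T.h (M (nat_lit 266273823766005034254335)) (T.h (P (nat_lit 0)) (M (nat_lit 22981368573302145023)))) (T.h (P (nat_lit 0)) (P (nat_lit 911713510730235904)))))) (T.h (T.h (P (nat_lit 0)) (T.h (T.h (P (nat_lit 0)) (T.h (P (nat_lit 141641050016982597894144)) (T.h (P (nat_lit 0)) (P (nat_lit 59011442519572480)))))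 (T.h (P (nat_lit 0)) (T.h (T.h (P (nat_lit 0)) (P (nat_lit 59011442519572480))) (P (nat_lit 0)))))) (T.h (T.h (T.h (M (nat_lit 266273823766005034254335)) (T.h (P (nat_lit 0)) (M (nat_lit 22981368573302145023)))) (T.h (P (nat_lit 0)) (M (nat_lit 22981368573302145023)))) (T.h (T.h (P (nat_lit 0)) (T.h (T.h (P (nat_lit 0)) (P (nat_lit 59011442519572480))) (P (nat_lit 0)))) (P (nat_lit 911713510730235904)))))), (T.h (T.h (T.h (P (nat_lit 0)) (T.h (M (nat_lit 58553562528347329086105845759)) (T.h (P (nat_lit 0)) (T.h (M (nat_lit 29242747061807735635967)) (T.h (P (nat_lit 0)) (M (nat_lit 9545610667622399))))))) (T.h (P (nat_lit 0)) (T.h (T.h (P (nat_lit 0)) (T.h (P (nat_lit 19113160164224968687616)) (T.h (P (nat_lit 0)) (M (nat_lit 13995656634826751))))) (T.h (P (nat_lit 0)) (T.h (T.h (P (nat_lit 0)) (P (nat_lit 859389711679488))) (P (nat_lit 0))))))) (T.h (T.h (P (nat_lit 0)) (T.h (T.h (M (nat_lit 16862407862889317486559231)) (T.h (P (nat_lit 0)) (P (nat_lit 103951679706112196608))))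 (T.h (P (nat_lit 0)) (M (nat_lit 69586992924828106751))))) (T.h (T.h (T.h (P (nat_lit 0)) (T.h (P (nat_lit 19113160164224968687616)) (T.h (P (nat_lit 0)) (M (nat_lit 13995656634826751))))) (T.h (P (nat_lit 0)) (T.h (T.h (P (nat_lit 0)) (M (nat_lit 81946674487099391))) (P (nat_lit 0))))) (T.h (T.h (P (nat_lit 0)) (M (nat_lit 69586992924828106751))) (T.h (T.h (T.h (P (nat_lit 0)) (P (nat_lit 859389711679488))) (P (nat_lit 0))) (P (nat_lit 0)))))))]
def lP12_17 : List (T ℤ) := [(T.h (T.h (T.h (P (nat_lit 45547003984978852827402050994176)) (T.h (P (nat_lit 0)) (T.h (P (nat_lit 35319305880671328002899968)) (T.h (P (nat_lit 0)) (P (nat_lit 19491175534153433088)))))) (T.h (P (nat_lit 0)) (T.h (T.h (P (nat_lit 11990256178027355455881216)) (T.h (P (nat_lit 0)) (P (nat_lit 13241484090680541184)))) (T.h (P (nat_lit 0)) (P (nat_lit 8539439288566153216)))))) (T.h (T.h (P (nat_lit 0)) (T.h (T.h (P (nat_lit 0)) (M (nat_lit 129973717396666441531391))) (P (nat_lit 0))))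 (T.h (T.h (T.h (P (nat_lit 11990256178027355455881216)) (T.h (P (nat_lit 0)) (P (nat_lit 13241484090680541184)))) (T.h (P (nat_lit 0)) (P (nat_lit 28328071813375459328)))) (T.h (P (nat_lit 0)) (P (nat_lit 8539439288566153216)))))), (P (nat_lit 0)), (T.h (T.h (P (nat_lit 0)) (T.h (T.h (P (nat_lit 18413702367181815472547954688)) (T.h (P (nat_lit 0)) (T.h (M (nat_lit 26253297352865044496383)) (T.h (P (nat_lit 0)) (M (nat_lit 4471316916764671)))))) (T.h (P (nat_lit 0)) (T.h (T.h (P (nat_lit 1204343865736419082240)) (T.h (P (nat_lit 0)) (P (nat_lit 3872134278905856)))) (T.h (P (nat_lit 0)) (P (nat_lit 3402666852876288))))))) (T.h (T.h (T.h (P (nat_lit 0)) (T.h (P (nat_lit 28796845395810728347172864)) (T.h (P (nat_lit 0)) (P (nat_lit 10015910841875955712))))) (T.h (P (nat_lit 0)) (T.h (T.h (P (nat_lit 0)) (M (nat_lit 45210039350902915071))) (P (nat_lit 0))))) (T.h (T.h (P (nat_lit 0)) (T.h (T.h (M (nat_lit 8220565680509767647231)) (T.h (P (nat_lit 0)) (P (nat_lit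 21714928367435776)))) (T.h (P (nat_lit 0)) (P (nat_lit 14446004776632320))))) (T.h (T.h (T.h (P (nat_lit 0)) (P (nat_lit 8502554480137469952))) (P (nat_lit 0))) (T.h (T.h (P (nat_lit 0)) (M (nat_lit 3526008374001663))) (P (nat_lit 0))))))), (T.h (T.h (P (nat_lit 0)) (T.h (T.h (P (nat_lit 0)) (T.h (P (nat_lit 8907670941466001565286400)) (T.h (P (nat_lit 0)) (M (nat_lit 10157880130408546303))))) (T.h (P (nat_lit 0)) (T.h (T.h (P (nat_lit 0)) (M (nat_lit 32850290879351488511))) (P (nat_lit 0)))))) (T.h (T.h (T.h (P (nat_lit 8894116918151559282853675008)) (T.h (P (nat_lit 0)) (T.h (M (nat_lit 16248505565719696506879)) (T.h (P (nat_lit 0)) (P (nat_lit 13110701554270208)))))) (T.h (P (nat_lit 0)) (T.h (T.h (P (nat_lit 33722942832664821891072)) (T.h (P (nat_lit 0)) (P (nat_lit 29603302290817024)))) (T.h (P (nat_lit 0)) (P (nat_lit 16085244215427072)))))) (T.h (T.h (P (nat_lit 0)) (T.h (T.h (P (nat_lit 0)) (M (nat_lit 28954702120136736767))) (P (nat_lit 0)))) (T.h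 (T.h (T.h (M (nat_lit 20519660205683568017407)) (T.h (P (nat_lit 0)) (P (nat_lit 9334012262744064)))) (T.h (P (nat_lit 0)) (P (nat_lit 29997582427947008)))) (P (nat_lit 0)))))), (T.h (T.h (P (nat_lit 0)) (T.h (T.h (M (nat_lit 58553562528347329086105845759)) (T.h (P (nat_lit 0)) (T.h (P (nat_lit 19113160164224968687616)) (T.h (P (nat_lit 0)) (P (nat_lit 859389711679488)))))) (T.h (P (nat_lit 0)) (T.h (T.h (M (nat_lit 29242747061807735635967)) (T.h (P (nat_lit 0)) (M (nat_lit 13995656634826751)))) (T.h (P (nat_lit 0)) (M (nat_lit 9545610667622399))))))) (T.h (T.h (T.h (P (nat_lit 0)) (T.h (M (nat_lit 16862407862889317486559231)) (T.h (P (nat_lit 0)) (M (nat_lit 69586992924828106751))))) (T.h (P (nat_lit 0)) (T.h (T.h (P (nat_lit 0)) (P (nat_lit 103951679706112196608))) (P (nat_lit 0))))) (T.h (T.h (P (nat_lit 0)) (T.h (T.h (P (nat_lit 19113160164224968687616)) (T.h (P (nat_lit 0)) (M (nat_lit 81946674487099391)))) (T.h (P (nat_lit 0)) (M (nat_lit 13995656634826751)))))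 (T.h (T.h (T.h (P (nat_lit 0)) (M (nat_lit 69586992924828106751))) (P (nat_lit 0))) (T.h (T.h (P (nat_lit 0)) (P (nat_lit 859389711679488))) (P (nat_lit 0))))))), (T.h (T.h (P (nat_lit 0)) (T.h (T.h (P (nat_lit 0)) (T.h (P (nat_lit 13098764831426538217930752)) (T.h (P (nat_lit 0)) (P (nat_lit 3668940946935906304))))) (T.h (P (nat_lit 0)) (T.h (T.h (P (nat_lit 0)) (P (nat_lit 3668940946935906304))) (P (nat_lit 0)))))) (T.h (T.h (T.h (M (nat_lit 21394652370805987842944139263)) (T.h (P (nat_lit 0)) (M (nat_lit 32713518745630160191487)))) (T.h (P (nat_lit 0)) (M (nat_lit 32713518745630160191487)))) (T.h (T.h (P (nat_lit 0)) (T.h (T.h (P (nat_lit 0)) (P (nat_lit 52019409660372058112))) (P (nat_lit 0)))) (P (nat_lit 22868238238723386376192))))), (T.h (T.h (T.h (P (nat_lit 0)) (T.h (M (nat_lit 927609735086973576535867391)) (T.h (P (nat_lit 0)) (T.h (P (nat_lit 1607631248593076092928)) (T.h (P (nat_lit 0)) (P (nat_lit 805947716206592))))))) (T.h (P (nat_lit 0))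 (T.h (T.h (P (nat_lit 0)) (T.h (M (nat_lit 6459268057909717630975)) (T.h (P (nat_lit 0)) (M (nat_lit 6306731763105791))))) (T.h (P (nat_lit 0)) (T.h (T.h (P (nat_lit 0)) (P (nat_lit 1862565443371008))) (P (nat_lit 0))))))) (T.h (T.h (P (nat_lit 0)) (T.h (T.h (P (nat_lit 6113973430961570043658240)) (T.h (P (nat_lit 0)) (P (nat_lit 17874334327580393472)))) (T.h (P (nat_lit 0)) (M (nat_lit 6755793620135051263))))) (T.h (T.h (T.h (P (nat_lit 0)) (T.h (M (nat_lit 3263796041597080043519)) (T.h (P (nat_lit 0)) (M (nat_lit 445433025036287))))) (T.h (P (nat_lit 0)) (T.h (T.h (P (nat_lit 0)) (P (nat_lit 2001494749478912))) (P (nat_lit 0))))) (T.h (T.h (P (nat_lit 0)) (P (nat_lit 5187088838144557056))) (T.h (T.h (T.h (P (nat_lit 0)) (M (nat_lit 875797596635135))) (P (nat_lit 0))) (P (nat_lit 0))))))), (T.h (T.h (T.h (P (nat_lit 0)) (T.h (P (nat_lit 0)) (T.h (P (nat_lit 0)) (T.h (P (nat_lit 0)) (M (nat_lit 552709772135104511)))))) (T.h (P (nat_lit 0)) (T.h (T.h (M (nat_lit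 202648603037179402256383)) (T.h (P (nat_lit 0)) (M (nat_lit 10793703863186620415)))) (T.h (P (nat_lit 0)) (M (nat_lit 3437973054217519103)))))) (T.h (T.h (P (nat_lit 0)) (T.h (T.h (P (nat_lit 0)) (T.h (P (nat_lit 40872332593621807136768)) (T.h (P (nat_lit 0)) (P (nat_lit 7058222133673984))))) (T.h (P (nat_lit 0)) (T.h (T.h (P (nat_lit 0)) (P (nat_lit 5870480457662464))) (P (nat_lit 0)))))) (T.h (T.h (T.h (P (nat_lit 12490453405460551285342208)) (T.h (P (nat_lit 0)) (P (nat_lit 6890058237970743296)))) (T.h (P (nat_lit 0)) (P (nat_lit 49740724873375776768)))) (T.h (T.h (P (nat_lit 0)) (T.h (T.h (P (nat_lit 0)) (M (nat_lit 2868643210854399))) (P (nat_lit 0)))) (P (nat_lit 812847327025823744))))))]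
def lP12_18 : List (T ℤ) := [(T.h (T.h (T.h (P (nat_lit 0)) (T.h (M (nat_lit 58563857056695683991302307839)) (T.h (P (nat_lit 0)) (T.h (M (nat_lit 17225768161661578903551)) (T.h (P (nat_lit 0)) (M (nat_lit 3720088609357823))))))) (T.h (P (nat_lit 0)) (T.h (T.h (P (nat_lit 0)) (T.h (P (nat_lit 3843571414089190080512)) (T.h (P (nat_lit 0)) (P (nat_lit 17216402791464960))))) (T.h (P (nat_lit 0)) (T.h (T.h (P (nat_lit 0)) (M (nat_lit 4687499992301567))) (P (nat_lit 0))))))) (T.h (T.h (P (nat_lit 0)) (T.h (T.h (P (nat_lit 45673022778121750688301056)) (T.h (P (nat_lit 0)) (M (nat_lit 32711687646010671103)))) (T.h (P (nat_lit 0)) (P (nat_lit 14253265884922511360))))) (T.h (T.h (T.h (P (nat_lit 0)) (T.h (P (nat_lit 8108657485441017053184)) (T.h (P (nat_lit 0)) (M (nat_lit 174287233941503))))) (T.h (P (nat_lit 0)) (T.h (T.h (P (nat_lit 0)) (M (nat_lit 48455648891830271))) (P (nat_lit 0))))) (T.h (T.h (P (nat_lit 0)) (M (nat_lit 31704313535716655103))) (T.h (T.h (T.h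 (P (nat_lit 0)) (M (nat_lit 7276835205611519))) (P (nat_lit 0))) (P (nat_lit 0))))))), (T.h (T.h (T.h (P (nat_lit 45547003984978852827402050994176)) (T.h (P (nat_lit 0)) (T.h (P (nat_lit 11990256178027355455881216)) (T.h (P (nat_lit 0)) (P (nat_lit 8539439288566153216)))))) (T.h (P (nat_lit 0)) (T.h (T.h (P (nat_lit 35319305880671328002899968)) (T.h (P (nat_lit 0)) (P (nat_lit 13241484090680541184)))) (T.h (P (nat_lit 0)) (P (nat_lit 19491175534153433088)))))) (T.h (T.h (P (nat_lit 0)) (T.h (T.h (P (nat_lit 0)) (M (nat_lit 129973717396666441531391))) (P (nat_lit 0)))) (T.h (T.h (T.h (P (nat_lit 11990256178027355455881216)) (T.h (P (nat_lit 0)) (P (nat_lit 28328071813375459328)))) (T.h (P (nat_lit 0)) (P (nat_lit 13241484090680541184)))) (T.h (P (nat_lit 0)) (P (nat_lit 8539439288566153216)))))), (P (nat_lit 0)), (T.h (T.h (P (nat_lit 0)) (T.h (T.h (M (nat_lit 28594865004676513644159172607)) (T.h (P (nat_lit 0)) (T.h (P (nat_lit 9192677989439676350464)) (T.h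 (P (nat_lit 0)) (P (nat_lit 1895257306300416)))))) (T.h (P (nat_lit 0)) (T.h (T.h (M (nat_lit 5040543764096126812159)) (T.h (P (nat_lit 0)) (P (nat_lit 738651429666816)))) (P (nat_lit 0)))))) (T.h (T.h (T.h (P (nat_lit 0)) (T.h (M (nat_lit 11966167736419842051276799)) (T.h (P (nat_lit 0)) (M (nat_lit 3731991322861502463))))) (T.h (P (nat_lit 0)) (T.h (T.h (P (nat_lit 0)) (P (nat_lit 23557292345440337920))) (P (nat_lit 0))))) (T.h (T.h (P (nat_lit 0)) (T.h (M (nat_lit 21528506760766722932735)) (T.h (P (nat_lit 0)) (P (nat_lit 154781880287232))))) (T.h (T.h (T.h (P (nat_lit 0)) (P (nat_lit 2052704746300506112))) (P (nat_lit 0))) (T.h (T.h (P (nat_lit 0)) (P (nat_lit 3398585621741568))) (P (nat_lit 0))))))), (T.h (T.h (P (nat_lit 0)) (T.h (T.h (P (nat_lit 0)) (T.h (P (nat_lit 9533650392968229510184960)) (T.h (P (nat_lit 0)) (M (nat_lit 18196777769839362047))))) (T.h (P (nat_lit 0)) (T.h (T.h (P (nat_lit 0)) (P (nat_lit 4261631954979389440))) (P (nat_lit 0))))))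 (T.h (T.h (T.h (M (nat_lit 19472614965897669399187292159)) (T.h (P (nat_lit 0)) (P (nat_lit 455310933304797036544)))) (T.h (P (nat_lit 0)) (M (nat_lit 102025982773308359180287)))) (T.h (T.h (P (nat_lit 0)) (T.h (T.h (P (nat_lit 0)) (P (nat_lit 21510889844164788224))) (P (nat_lit 0)))) (P (nat_lit 21163988139213750009856))))), (P (nat_lit 0)), (T.h (T.h (T.h (P (nat_lit 14562162258249013777924918083584)) (T.h (P (nat_lit 0)) (T.h (P (nat_lit 472108168470894989017088)) (T.h (P (nat_lit 0)) (P (nat_lit 555935322035191808)))))) (T.h (P (nat_lit 0)) (T.h (T.h (P (nat_lit 5400635009370655693996032)) (T.h (P (nat_lit 0)) (M (nat_lit 2606053976117870591)))) (T.h (P (nat_lit 0)) (M (nat_lit 1544577741599277055)))))) (T.h (T.h (P (nat_lit 0)) (T.h (T.h (P (nat_lit 0)) (M (nat_lit 14866527205867955159039))) (P (nat_lit 0)))) (T.h (T.h (T.h (M (nat_lit 1586501907438543587770367)) (T.h (P (nat_lit 0)) (P (nat_lit 613938376747253760)))) (T.h (P (nat_lit 0)) (P (nat_lit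 272633426224349184)))) (T.h (P (nat_lit 0)) (P (nat_lit 1238029958807289856)))))), (P (nat_lit 0))]
def lP12_19 : List (T ℤ) := [(P (nat_lit 0)), (P (nat_lit 0)), (P (nat_lit 0)), (T.h (T.h (T.h (P (nat_lit 581319800600590070789938610176)) (T.h (P (nat_lit 0)) (T.h (P (nat_lit 4447735707577497449136128)) (T.h (P (nat_lit 0)) (P (nat_lit 2173096264160247808)))))) (T.h (P (nat_lit 0)) (T.h (T.h (M (nat_lit 230784127888635637792767)) (T.h (P (nat_lit 0)) (P (nat_lit 18422645144818810880)))) (T.h (P (nat_lit 0)) (M (nat_lit 2655823176675622911)))))) (T.h (T.h (P (nat_lit 0)) (T.h (T.h (P (nat_lit 0)) (T.h (M (nat_lit 23035336494165388165119)) (T.h (P (nat_lit 0)) (P (nat_lit 22138216019722240))))) (T.h (P (nat_lit 0)) (T.h (T.h (P (nat_lit 0)) (M (nat_lit 9646683113816063))) (P (nat_lit 0)))))) (T.h (T.h (T.h (P (nat_lit 6314525167019444997718016)) (T.h (P (nat_lit 0)) (M (nat_lit 16212374618143457279)))) (T.h (P (nat_lit 0)) (P (nat_lit 14403012013494108160))))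 (T.h (T.h (P (nat_lit 0)) (T.h (T.h (P (nat_lit 0)) (P (nat_lit 14419436255379456))) (P (nat_lit 0)))) (M (nat_lit 3040947068790112255)))))), (P (nat_lit 0)), (P (nat_lit 0)), (P (nat_lit 0)), (P (nat_lit 0))]
def lP12_20 : List (T ℤ) := [(P (nat_lit 0)), (T.h (T.h (P (nat_lit 0)) (T.h (T.h (P (nat_lit 2442310398557518728414625792)) (T.h (P (nat_lit 0)) (T.h (M (nat_lit 3047215125714868109311)) (T.h (P (nat_lit 0)) (M (nat_lit 1626567914815487)))))) (T.h (P (nat_lit 0)) (T.h (T.h (P (nat_lit 3679752308041006972928)) (T.h (P (nat_lit 0)) (P (nat_lit 140431119548416)))) (T.h (P (nat_lit 0)) (M (nat_lit 11815390019583))))))) (T.h (T.h (T.h (P (nat_lit 0)) (T.h (M (nat_lit 14280217490853106859114495)) (T.h (P (nat_lit 0)) (P (nat_lit 3431769517741572096))))) (T.h (P (nat_lit 0)) (T.h (T.h (P (nat_lit 0)) (P (nat_lit 3565072346572128256))) (P (nat_lit 0))))) (T.h (T.h (P (nat_lit 0)) (T.h (T.h (P (nat_lit 10983023708140231196672)) (T.h (P (nat_lit 0)) (P (nat_lit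 3547622079004672)))) (T.h (P (nat_lit 0)) (M (nat_lit 1039951104770047))))) (T.h (T.h (T.h (P (nat_lit 0)) (M (nat_lit 5463924327831306239))) (P (nat_lit 0))) (T.h (T.h (P (nat_lit 0)) (M (nat_lit 664208017784831))) (P (nat_lit 0))))))), (T.h (T.h (P (nat_lit 0)) (T.h (T.h (P (nat_lit 0)) (T.h (P (nat_lit 18825525422747042269102080)) (T.h (P (nat_lit 0)) (P (nat_lit 36651021999647227904))))) (T.h (P (nat_lit 0)) (T.h (T.h (P (nat_lit 0)) (P (nat_lit 5180752886551805952))) (P (nat_lit 0)))))) (T.h (T.h (T.h (P (nat_lit 17941333068358216905792684032)) (T.h (P (nat_lit 0)) (T.h (P (nat_lit 15339897989843658997760)) (T.h (P (nat_lit 0)) (M (nat_lit 3106166834462719)))))) (T.h (P (nat_lit 0)) (T.h (T.h (M (nat_lit 4421606329493519073279)) (T.h (P (nat_lit 0)) (M (nat_lit 707603162857471)))) (T.h (P (nat_lit 0)) (P (nat_lit 5843698126028800)))))) (T.h (T.h (P (nat_lit 0)) (T.h (T.h (P (nat_lit 0)) (M (nat_lit 16853582352205479935))) (P (nat_lit 0)))) (T.h (T.h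 (T.h (P (nat_lit 4453626507228728000512)) (T.h (P (nat_lit 0)) (P (nat_lit 7771798253207552)))) (T.h (P (nat_lit 0)) (M (nat_lit 10778473821700095)))) (T.h (P (nat_lit 0)) (M (nat_lit 308482108751871))))))), (T.h (T.h (P (nat_lit 0)) (T.h (T.h (P (nat_lit 2120122278237486535193657344)) (T.h (P (nat_lit 0)) (T.h (M (nat_lit 6397935496113302798335)) (T.h (P (nat_lit 0)) (P (nat_lit 3993105336041472)))))) (T.h (P (nat_lit 0)) (T.h (T.h (M (nat_lit 1352678270254679326719)) (T.h (P (nat_lit 0)) (P (nat_lit 2523038380785664)))) (P (nat_lit 0)))))) (T.h (T.h (T.h (P (nat_lit 0)) (T.h (P (nat_lit 40543104508391291520811008)) (T.h (P (nat_lit 0)) (P (nat_lit 16121777625906544640))))) (T.h (P (nat_lit 0)) (T.h (T.h (P (nat_lit 0)) (M (nat_lit 8197742967738335231))) (P (nat_lit 0))))) (T.h (T.h (P (nat_lit 0)) (T.h (T.h (M (nat_lit 6397935496113302798335)) (T.h (P (nat_lit 0)) (M (nat_lit 786403700375551)))) (T.h (P (nat_lit 0)) (P (nat_lit 2523038380785664))))) (T.h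 (T.h (T.h (P (nat_lit 0)) (P (nat_lit 16121777625906544640))) (P (nat_lit 0))) (T.h (T.h (P (nat_lit 0)) (P (nat_lit 3993105336041472))) (P (nat_lit 0))))))), (T.h (T.h (P (nat_lit 0)) (T.h (T.h (P (nat_lit 0)) (T.h (P (nat_lit 578291697487330404204544)) (T.h (P (nat_lit 0)) (M (nat_lit 17820622312014086143))))) (T.h (P (nat_lit 0)) (T.h (T.h (P (nat_lit 0)) (M (nat_lit 3541372019637485567))) (P (nat_lit 0)))))) (T.h (T.h (T.h (M (nat_lit 53085522036960781581477216255)) (T.h (P (nat_lit 0)) (T.h (M (nat_lit 31270315920543543459839)) (T.h (P (nat_lit 0)) (P (nat_lit 10558192468033536)))))) (T.h (P (nat_lit 0)) (T.h (T.h (P (nat_lit 8590939794117415141376)) (T.h (P (nat_lit 0)) (P (nat_lit 34062600577941504)))) (T.h (P (nat_lit 0)) (M (nat_lit 8459720275525631)))))) (T.h (T.h (P (nat_lit 0)) (T.h (T.h (P (nat_lit 0)) (P (nat_lit 2224995150961049600))) (P (nat_lit 0)))) (T.h (T.h (T.h (M (nat_lit 10242234231096952750079)) (T.h (P (nat_lit 0)) (P (nat_lit 9875747953508352))))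 (T.h (P (nat_lit 0)) (P (nat_lit 5577055310118912)))) (T.h (P (nat_lit 0)) (M (nat_lit 1149341850599423))))))), (T.h (T.h (P (nat_lit 0)) (T.h (T.h (M (nat_lit 4996804256147560436517044223)) (T.h (P (nat_lit 0)) (P (nat_lit 4296544144108300533760)))) (T.h (P (nat_lit 0)) (P (nat_lit 699374331989025882112))))) (T.h (T.h (T.h (P (nat_lit 0)) (T.h (M (nat_lit 7693749846238283348049919)) (T.h (P (nat_lit 0)) (M (nat_lit 14521116546631204863))))) (T.h (P (nat_lit 0)) (T.h (T.h (P (nat_lit 0)) (M (nat_lit 23253401994541400063))) (P (nat_lit 0))))) (T.h (T.h (P (nat_lit 0)) (P (nat_lit 257028261180969320448))) (T.h (T.h (T.h (P (nat_lit 0)) (M (nat_lit 11382046171812855807))) (P (nat_lit 0))) (P (nat_lit 0)))))), (P (nat_lit 0)), (T.h (T.h (T.h (P (nat_lit 0)) (T.h (P (nat_lit 2442310398557518728414625792)) (T.h (P (nat_lit 0)) (T.h (P (nat_lit 3679752308041006972928)) (T.h (P (nat_lit 0)) (M (nat_lit 11815390019583))))))) (T.h (P (nat_lit 0)) (T.h (T.h (P (nat_lit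 0)) (T.h (M (nat_lit 3047215125714868109311)) (T.h (P (nat_lit 0)) (P (nat_lit 140431119548416))))) (T.h (P (nat_lit 0)) (T.h (T.h (P (nat_lit 0)) (M (nat_lit 1626567914815487))) (P (nat_lit 0))))))) (T.h (T.h (P (nat_lit 0)) (T.h (T.h (M (nat_lit 14280217490853106859114495)) (T.h (P (nat_lit 0)) (P (nat_lit 3565072346572128256)))) (T.h (P (nat_lit 0)) (P (nat_lit 3431769517741572096))))) (T.h (T.h (T.h (P (nat_lit 0)) (T.h (P (nat_lit 10983023708140231196672)) (T.h (P (nat_lit 0)) (M (nat_lit 1039951104770047))))) (T.h (P (nat_lit 0)) (T.h (T.h (P (nat_lit 0)) (P (nat_lit 3547622079004672))) (P (nat_lit 0))))) (T.h (T.h (P (nat_lit 0)) (M (nat_lit 5463924327831306239))) (T.h (T.h (T.h (P (nat_lit 0)) (M (nat_lit 664208017784831))) (P (nat_lit 0))) (P (nat_lit 0)))))))]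
def lP12_21 : List (T ℤ) := [(T.h (T.h (T.h (P (nat_lit 7859343112424842172822915645440)) (T.h (P (nat_lit 0)) (T.h (M (nat_lit 29458347101963831763533823)) (T.h (P (nat_lit 0)) (M (nat_lit 5640225241956351999)))))) (T.h (P (nat_lit 0)) (T.h (T.h (M (nat_lit 29458347101963831763533823)) (T.h (P (nat_lit 0)) (P (nat_lit 59840303852035244032)))) (T.h (P (nat_lit 0)) (M (nat_lit 5640225241956351999)))))) (T.h (T.h (P (nat_lit 0)) (T.h (T.h (P (nat_lit 0)) (T.h (P (nat_lit 82623529574734642544640)) (T.h (P (nat_lit 0)) (M (nat_lit 26265399173578751))))) (T.h (P (nat_lit 0)) (T.h (T.h (P (nat_lit 0)) (M (nat_lit 26265399173578751))) (P (nat_lit 0)))))) (T.h (T.h (T.h (P (nat_lit 1437983364233522952798208)) (T.h (P (nat_lit 0)) (M (nat_lit 36798862685305307135)))) (T.h (P (nat_lit 0)) (M (nat_lit 36798862685305307135)))) (T.h (T.h (P (nat_lit 0)) (T.h (T.h (P (nat_lit 0)) (M (nat_lit 64545040554459135))) (P (nat_lit 0)))) (P (nat_lit 44785674573303513088)))))),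 (T.h (T.h (T.h (P (nat_lit 0)) (T.h (P (nat_lit 8894116918151559282853675008)) (T.h (P (nat_lit 0)) (M (nat_lit 20519660205683568017407))))) (T.h (P (nat_lit 0)) (T.h (T.h (P (nat_lit 0)) (T.h (M (nat_lit 16248505565719696506879)) (T.h (P (nat_lit 0)) (P (nat_lit 9334012262744064))))) (T.h (P (nat_lit 0)) (T.h (T.h (P (nat_lit 0)) (P (nat_lit 13110701554270208))) (P (nat_lit 0))))))) (T.h (T.h (P (nat_lit 0)) (T.h (T.h (P (nat_lit 8907670941466001565286400)) (T.h (P (nat_lit 0)) (M (nat_lit 28954702120136736767)))) (T.h (P (nat_lit 0)) (M (nat_lit 10157880130408546303))))) (T.h (T.h (T.h (P (nat_lit 0)) (T.h (P (nat_lit 33722942832664821891072)) (T.h (P (nat_lit 0)) (P (nat_lit 29997582427947008))))) (T.h (P (nat_lit 0)) (T.h (T.h (P (nat_lit 0)) (P (nat_lit 29603302290817024))) (P (nat_lit 0))))) (T.h (T.h (P (nat_lit 0)) (M (nat_lit 32850290879351488511))) (T.h (T.h (T.h (P (nat_lit 0)) (P (nat_lit 16085244215427072))) (P (nat_lit 0))) (P (nat_lit 0))))))),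 (T.h (T.h (T.h (M (nat_lit 10032244771051151039943298514943)) (T.h (P (nat_lit 0)) (T.h (P (nat_lit 13504962133677822730829824)) (T.h (P (nat_lit 0)) (M (nat_lit 33094276176383311871)))))) (T.h (P (nat_lit 0)) (T.h (T.h (P (nat_lit 48053906595039940370759680)) (T.h (P (nat_lit 0)) (M (nat_lit 19068183177919987711)))) (T.h (P (nat_lit 0)) (M (nat_lit 8662364521584656383)))))) (T.h (T.h (P (nat_lit 0)) (T.h (T.h (P (nat_lit 0)) (T.h (M (nat_lit 55476096322105958727679)) (T.h (P (nat_lit 0)) (P (nat_lit 13804903992459264))))) (T.h (P (nat_lit 0)) (T.h (T.h (P (nat_lit 0)) (P (nat_lit 58462027903008768))) (P (nat_lit 0)))))) (T.h (T.h (T.h (P (nat_lit 13504962133677822730829824)) (T.h (P (nat_lit 0)) (P (nat_lit 117064877601634385920)))) (T.h (P (nat_lit 0)) (M (nat_lit 19068183177919987711)))) (T.h (T.h (P (nat_lit 0)) (T.h (T.h (P (nat_lit 0)) (P (nat_lit 13804903992459264))) (P (nat_lit 0)))) (M (nat_lit 33094276176383311871)))))), (T.h (T.h (T.h (P (nat_lit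 0)) (T.h (M (nat_lit 6000969113615189185396735999)) (T.h (P (nat_lit 0)) (P (nat_lit 24438338849772933218304))))) (P (nat_lit 0))) (T.h (T.h (P (nat_lit 0)) (T.h (T.h (P (nat_lit 6083335303084980110884864)) (T.h (P (nat_lit 0)) (M (nat_lit 4310567372663554047)))) (T.h (P (nat_lit 0)) (M (nat_lit 8285720689671929855))))) (T.h (T.h (T.h (P (nat_lit 0)) (M (nat_lit 111759690933996743557119))) (P (nat_lit 0))) (T.h (T.h (P (nat_lit 0)) (P (nat_lit 1415962012927655936))) (P (nat_lit 0)))))), (P (nat_lit 0)), (T.h (T.h (P (nat_lit 0)) (T.h (T.h (P (nat_lit 0)) (T.h (P (nat_lit 18825525422747042269102080)) (T.h (P (nat_lit 0)) (P (nat_lit 5180752886551805952))))) (T.h (P (nat_lit 0)) (T.h (T.h (P (nat_lit 0)) (P (nat_lit 36651021999647227904))) (P (nat_lit 0)))))) (T.h (T.h (T.h (P (nat_lit 17941333068358216905792684032)) (T.h (P (nat_lit 0)) (T.h (M (nat_lit 4421606329493519073279)) (T.h (P (nat_lit 0)) (P (nat_lit 5843698126028800)))))) (T.h (P (nat_lit 0)) (T.h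 (T.h (P (nat_lit 15339897989843658997760)) (T.h (P (nat_lit 0)) (M (nat_lit 707603162857471)))) (T.h (P (nat_lit 0)) (M (nat_lit 3106166834462719)))))) (T.h (T.h (P (nat_lit 0)) (T.h (T.h (P (nat_lit 0)) (M (nat_lit 16853582352205479935))) (P (nat_lit 0)))) (T.h (T.h (T.h (P (nat_lit 4453626507228728000512)) (T.h (P (nat_lit 0)) (M (nat_lit 10778473821700095)))) (T.h (P (nat_lit 0)) (P (nat_lit 7771798253207552)))) (T.h (P (nat_lit 0)) (M (nat_lit 308482108751871))))))), (T.h (T.h (P (nat_lit 0)) (T.h (T.h (P (nat_lit 8894116918151559282853675008)) (T.h (P (nat_lit 0)) (T.h (M (nat_lit 16248505565719696506879)) (T.h (P (nat_lit 0)) (P (nat_lit 13110701554270208)))))) (T.h (P (nat_lit 0)) (T.h (T.h (M (nat_lit 20519660205683568017407)) (T.h (P (nat_lit 0)) (P (nat_lit 9334012262744064)))) (P (nat_lit 0)))))) (T.h (T.h (T.h (P (nat_lit 0)) (T.h (P (nat_lit 8907670941466001565286400)) (T.h (P (nat_lit 0)) (M (nat_lit 10157880130408546303))))) (T.h (P (nat_lit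 0)) (T.h (T.h (P (nat_lit 0)) (M (nat_lit 28954702120136736767))) (P (nat_lit 0))))) (T.h (T.h (P (nat_lit 0)) (T.h (T.h (P (nat_lit 33722942832664821891072)) (T.h (P (nat_lit 0)) (P (nat_lit 29603302290817024)))) (T.h (P (nat_lit 0)) (P (nat_lit 29997582427947008))))) (T.h (T.h (T.h (P (nat_lit 0)) (M (nat_lit 32850290879351488511))) (P (nat_lit 0))) (T.h (T.h (P (nat_lit 0)) (P (nat_lit 16085244215427072))) (P (nat_lit 0))))))), (T.h (T.h (P (nat_lit 0)) (T.h (T.h (P (nat_lit 0)) (T.h (M (nat_lit 16862407862889317486559231)) (T.h (P (nat_lit 0)) (M (nat_lit 69586992924828106751))))) (T.h (P (nat_lit 0)) (T.h (T.h (P (nat_lit 0)) (M (nat_lit 69586992924828106751))) (P (nat_lit 0)))))) (T.h (T.h (T.h (M (nat_lit 58553562528347329086105845759)) (T.h (P (nat_lit 0)) (T.h (P (nat_lit 19113160164224968687616)) (T.h (P (nat_lit 0)) (P (nat_lit 859389711679488)))))) (T.h (P (nat_lit 0)) (T.h (T.h (P (nat_lit 19113160164224968687616)) (T.h (P (nat_lit 0)) (M (nat_lit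 81946674487099391)))) (T.h (P (nat_lit 0)) (P (nat_lit 859389711679488)))))) (T.h (T.h (P (nat_lit 0)) (T.h (T.h (P (nat_lit 0)) (P (nat_lit 103951679706112196608))) (P (nat_lit 0)))) (T.h (T.h (T.h (M (nat_lit 29242747061807735635967)) (T.h (P (nat_lit 0)) (M (nat_lit 13995656634826751)))) (T.h (P (nat_lit 0)) (M (nat_lit 13995656634826751)))) (T.h (P (nat_lit 0)) (M (nat_lit 9545610667622399)))))))]
def lP12_22 : List (T ℤ) := [(T.h (T.h (P (nat_lit 0)) (T.h (T.h (M (nat_lit 21394652370805987842944139263)) (T.h (P (nat_lit 0)) (M (nat_lit 32713518745630160191487)))) (T.h (P (nat_lit 0)) (P (nat_lit 22868238238723386376192))))) (T.h (T.h (T.h (P (nat_lit 0)) (T.h (P (nat_lit 13098764831426538217930752)) (T.h (P (nat_lit 0)) (P (nat_lit 3668940946935906304))))) (T.h (P (nat_lit 0)) (T.h (T.h (P (nat_lit 0)) (P (nat_lit 52019409660372058112))) (P (nat_lit 0))))) (T.h (T.h (P (nat_lit 0)) (M (nat_lit 32713518745630160191487))) (T.h (T.h (T.h (P (nat_lit 0))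 (P (nat_lit 3668940946935906304))) (P (nat_lit 0))) (P (nat_lit 0)))))), (T.h (T.h (T.h (P (nat_lit 581319800600590070789938610176)) (T.h (P (nat_lit 0)) (T.h (M (nat_lit 230784127888635637792767)) (T.h (P (nat_lit 0)) (M (nat_lit 2655823176675622911)))))) (T.h (P (nat_lit 0)) (T.h (T.h (P (nat_lit 4447735707577497449136128)) (T.h (P (nat_lit 0)) (P (nat_lit 18422645144818810880)))) (T.h (P (nat_lit 0)) (P (nat_lit 2173096264160247808)))))) (T.h (T.h (P (nat_lit 0)) (T.h (T.h (P (nat_lit 0)) (T.h (M (nat_lit 23035336494165388165119)) (T.h (P (nat_lit 0)) (M (nat_lit 9646683113816063))))) (T.h (P (nat_lit 0)) (T.h (T.h (P (nat_lit 0)) (P (nat_lit 22138216019722240))) (P (nat_lit 0)))))) (T.h (T.h (T.h (P (nat_lit 6314525167019444997718016)) (T.h (P (nat_lit 0)) (P (nat_lit 14403012013494108160)))) (T.h (P (nat_lit 0)) (M (nat_lit 16212374618143457279)))) (T.h (T.h (P (nat_lit 0)) (T.h (T.h (P (nat_lit 0)) (P (nat_lit 14419436255379456))) (P (nat_lit 0))))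 (M (nat_lit 3040947068790112255)))))), (T.h (T.h (T.h (P (nat_lit 0)) (T.h (P (nat_lit 2120122278237486535193657344)) (T.h (P (nat_lit 0)) (M (nat_lit 1352678270254679326719))))) (T.h (P (nat_lit 0)) (T.h (T.h (P (nat_lit 0)) (T.h (M (nat_lit 6397935496113302798335)) (T.h (P (nat_lit 0)) (P (nat_lit 2523038380785664))))) (T.h (P (nat_lit 0)) (T.h (T.h (P (nat_lit 0)) (P (nat_lit 3993105336041472))) (P (nat_lit 0))))))) (T.h (T.h (P (nat_lit 0)) (T.h (T.h (P (nat_lit 40543104508391291520811008)) (T.h (P (nat_lit 0)) (M (nat_lit 8197742967738335231)))) (T.h (P (nat_lit 0)) (P (nat_lit 16121777625906544640))))) (T.h (T.h (T.h (P (nat_lit 0)) (T.h (M (nat_lit 6397935496113302798335)) (T.h (P (nat_lit 0)) (P (nat_lit 2523038380785664))))) (T.h (P (nat_lit 0)) (T.h (T.h (P (nat_lit 0)) (M (nat_lit 786403700375551))) (P (nat_lit 0))))) (T.h (T.h (P (nat_lit 0)) (P (nat_lit 16121777625906544640))) (T.h (T.h (T.h (P (nat_lit 0)) (P (nat_lit 3993105336041472))) (P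 (nat_lit 0))) (P (nat_lit 0))))))), (T.h (T.h (T.h (M (nat_lit 10032244771051151039943298514943)) (T.h (P (nat_lit 0)) (T.h (P (nat_lit 48053906595039940370759680)) (T.h (P (nat_lit 0)) (M (nat_lit 8662364521584656383)))))) (T.h (P (nat_lit 0)) (T.h (T.h (P (nat_lit 13504962133677822730829824)) (T.h (P (nat_lit 0)) (M (nat_lit 19068183177919987711)))) (T.h (P (nat_lit 0)) (M (nat_lit 33094276176383311871)))))) (T.h (T.h (P (nat_lit 0)) (T.h (T.h (P (nat_lit 0)) (T.h (M (nat_lit 55476096322105958727679)) (T.h (P (nat_lit 0)) (P (nat_lit 58462027903008768))))) (T.h (P (nat_lit 0)) (T.h (T.h (P (nat_lit 0)) (P (nat_lit 13804903992459264))) (P (nat_lit 0)))))) (T.h (T.h (T.h (P (nat_lit 13504962133677822730829824)) (T.h (P (nat_lit 0)) (M (nat_lit 19068183177919987711)))) (T.h (P (nat_lit 0)) (P (nat_lit 117064877601634385920)))) (T.h (T.h (P (nat_lit 0)) (T.h (T.h (P (nat_lit 0)) (P (nat_lit 13804903992459264))) (P (nat_lit 0)))) (M (nat_lit 33094276176383311871)))))),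 (T.h (T.h (T.h (P (nat_lit 0)) (T.h (M (nat_lit 21394652370805987842944139263)) (T.h (P (nat_lit 0)) (P (nat_lit 22868238238723386376192))))) (T.h (P (nat_lit 0)) (T.h (T.h (P (nat_lit 0)) (M (nat_lit 32713518745630160191487))) (P (nat_lit 0))))) (T.h (T.h (P (nat_lit 0)) (T.h (T.h (P (nat_lit 13098764831426538217930752)) (T.h (P (nat_lit 0)) (P (nat_lit 52019409660372058112)))) (T.h (P (nat_lit 0)) (P (nat_lit 3668940946935906304))))) (T.h (T.h (T.h (P (nat_lit 0)) (M (nat_lit 32713518745630160191487))) (P (nat_lit 0))) (T.h (T.h (P (nat_lit 0)) (P (nat_lit 3668940946935906304))) (P (nat_lit 0)))))), (P (nat_lit 0)), (T.h (T.h (P (nat_lit 0)) (T.h (T.h (P (nat_lit 0)) (T.h (P (nat_lit 578291697487330404204544)) (T.h (P (nat_lit 0)) (M (nat_lit 3541372019637485567))))) (T.h (P (nat_lit 0)) (T.h (T.h (P (nat_lit 0)) (M (nat_lit 17820622312014086143))) (P (nat_lit 0)))))) (T.h (T.h (T.h (M (nat_lit 53085522036960781581477216255)) (T.h (P (nat_lit 0)) (T.h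 (P (nat_lit 8590939794117415141376)) (T.h (P (nat_lit 0)) (M (nat_lit 8459720275525631)))))) (T.h (P (nat_lit 0)) (T.h (T.h (M (nat_lit 31270315920543543459839)) (T.h (P (nat_lit 0)) (P (nat_lit 34062600577941504)))) (T.h (P (nat_lit 0)) (P (nat_lit 10558192468033536)))))) (T.h (T.h (P (nat_lit 0)) (T.h (T.h (P (nat_lit 0)) (P (nat_lit 2224995150961049600))) (P (nat_lit 0)))) (T.h (T.h (T.h (M (nat_lit 10242234231096952750079)) (T.h (P (nat_lit 0)) (P (nat_lit 5577055310118912)))) (T.h (P (nat_lit 0)) (P (nat_lit 9875747953508352)))) (T.h (P (nat_lit 0)) (M (nat_lit 1149341850599423))))))), (T.h (T.h (P (nat_lit 0)) (T.h (M (nat_lit 6000969113615189185396735999)) (T.h (P (nat_lit 0)) (P (nat_lit 24438338849772933218304))))) (T.h (T.h (T.h (P (nat_lit 0)) (T.h (P (nat_lit 6083335303084980110884864)) (T.h (P (nat_lit 0)) (M (nat_lit 8285720689671929855))))) (T.h (P (nat_lit 0)) (T.h (T.h (P (nat_lit 0)) (M (nat_lit 4310567372663554047))) (P (nat_lit 0)))))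 (T.h (T.h (P (nat_lit 0)) (M (nat_lit 111759690933996743557119))) (T.h (T.h (T.h (P (nat_lit 0)) (P (nat_lit 1415962012927655936))) (P (nat_lit 0))) (P (nat_lit 0))))))]
def lP12_23 : List (T ℤ) := [(P (nat_lit 0)), (T.h (T.h (T.h (P (nat_lit 0)) (T.h (M (nat_lit 4996804256147560436517044223)) (T.h (P (nat_lit 0)) (P (nat_lit 699374331989025882112))))) (T.h (P (nat_lit 0)) (T.h (T.h (P (nat_lit 0)) (P (nat_lit 4296544144108300533760))) (P (nat_lit 0))))) (T.h (T.h (P (nat_lit 0)) (T.h (T.h (M (nat_lit 7693749846238283348049919)) (T.h (P (nat_lit 0)) (M (nat_lit 23253401994541400063)))) (T.h (P (nat_lit 0)) (M (nat_lit 14521116546631204863))))) (T.h (T.h (T.h (P (nat_lit 0)) (P (nat_lit 257028261180969320448))) (P (nat_lit 0))) (T.h (T.h (P (nat_lit 0)) (M (nat_lit 11382046171812855807))) (P (nat_lit 0)))))), (P (nat_lit 0)), (P (nat_lit 0)), (P (nat_lit 0)), (P (nat_lit 0)), (T.h (T.h (P (nat_lit 0)) (T.h (T.h (P (nat_lit 0)) (T.h (P (nat_lit 0)) (T.h (M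 (nat_lit 3579915370208388186111)) (T.h (P (nat_lit 0)) (M (nat_lit 3354751029936127)))))) (T.h (P (nat_lit 0)) (T.h (T.h (P (nat_lit 0)) (T.h (P (nat_lit 0)) (P (nat_lit 1738356516651008)))) (P (nat_lit 0)))))) (T.h (T.h (T.h (P (nat_lit 0)) (T.h (P (nat_lit 0)) (T.h (P (nat_lit 0)) (P (nat_lit 11280218829348667392))))) (P (nat_lit 0))) (T.h (T.h (P (nat_lit 0)) (T.h (P (nat_lit 3579915370208388186112)) (T.h (P (nat_lit 0)) (M (nat_lit 1738356516651007))))) (T.h (T.h (T.h (P (nat_lit 0)) (M (nat_lit 11280218829348667391))) (P (nat_lit 0))) (T.h (T.h (P (nat_lit 0)) (P (nat_lit 3354751029936128))) (P (nat_lit 0))))))), (P (nat_lit 0))]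
def lP12_24 : List (T ℤ) := [(P (nat_lit 0)), (P (nat_lit 0)), (P (nat_lit 0)), (T.h (T.h (T.h (M (nat_lit 470961987125908346733519175679)) (T.h (P (nat_lit 0)) (T.h (M (nat_lit 1942057638129030519586815)) (T.h (P (nat_lit 0)) (M (nat_lit 3371299736341446655)))))) (T.h (P (nat_lit 0)) (T.h (T.h (M (nat_lit 1942057638129030519586815)) (T.h (P (nat_lit 0)) (M (nat_lit 556449493575270399)))) (T.h (P (nat_lit 0)) (M (nat_lit 3371299736341446655)))))) (T.h (T.h (P (nat_lit 0)) (T.h (T.h (P (nat_lit 0)) (T.h (P (nat_lit 538075358818507685888)) (T.h (P (nat_lit 0)) (M (nat_lit 598511274688511))))) (T.h (P (nat_lit 0)) (T.h (T.h (P (nat_lit 0)) (M (nat_lit 598511274688511))) (P (nat_lit 0)))))) (T.h (T.h (T.h (P (nat_lit 57899600867765543501824)) (T.h (P (nat_lit 0)) (P (nat_lit 1192941709491699712)))) (T.h (P (nat_lit 0)) (P (nat_lit 1192941709491699712)))) (T.h (T.h (P (nat_lit 0)) (T.h (T.h (P (nat_lit 0)) (M (nat_lit 1583080657387519))) (P (nat_lit 0)))) (M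 (nat_lit 846434129254809599)))))), (T.h (T.h (T.h (P (nat_lit 0)) (T.h (P (nat_lit 33023471856655677302289465344)) (T.h (P (nat_lit 0)) (T.h (P (nat_lit 3679387719331085287424)) (T.h (P (nat_lit 0)) (P (nat_lit 2698854407077888))))))) (T.h (P (nat_lit 0)) (T.h (T.h (P (nat_lit 0)) (T.h (P (nat_lit 7396777214189422772224)) (T.h (P (nat_lit 0)) (M (nat_lit 10754144374128639))))) (T.h (P (nat_lit 0)) (T.h (T.h (P (nat_lit 0)) (P (nat_lit 7214109814784000))) (P (nat_lit 0))))))) (T.h (T.h (P (nat_lit 0)) (T.h (T.h (M (nat_lit 29535951333806428829777919)) (T.h (P (nat_lit 0)) (P (nat_lit 32555380819602964480)))) (T.h (P (nat_lit 0)) (M (nat_lit 9126894819052879871))))) (T.h (T.h (T.h (P (nat_lit 0)) (T.h (P (nat_lit 16577877388519815512064)) (T.h (P (nat_lit 0)) (M (nat_lit 27089829268226047))))) (T.h (P (nat_lit 0)) (T.h (T.h (P (nat_lit 0)) (M (nat_lit 55367098211631103))) (P (nat_lit 0))))) (T.h (T.h (P (nat_lit 0)) (P (nat_lit 7144184205587513344))) (T.h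 (T.h (T.h (P (nat_lit 0)) (M (nat_lit 14902245460967423))) (P (nat_lit 0))) (P (nat_lit 0))))))), (T.h (T.h (T.h (P (nat_lit 0)) (T.h (P (nat_lit 0)) (T.h (P (nat_lit 12490453405460551285342208)) (T.h (P (nat_lit 0)) (P (nat_lit 812847327025823744)))))) (T.h (P (nat_lit 0)) (T.h (T.h (P (nat_lit 0)) (T.h (P (nat_lit 0)) (P (nat_lit 6890058237970743296)))) (T.h (P (nat_lit 0)) (M (nat_lit 552709772135104511)))))) (T.h (T.h (P (nat_lit 0)) (T.h (T.h (P (nat_lit 0)) (T.h (P (nat_lit 40872332593621807136768)) (T.h (P (nat_lit 0)) (M (nat_lit 2868643210854399))))) (T.h (P (nat_lit 0)) (T.h (T.h (P (nat_lit 0)) (P (nat_lit 7058222133673984))) (P (nat_lit 0)))))) (T.h (T.h (T.h (M (nat_lit 202648603037179402256383)) (T.h (P (nat_lit 0)) (P (nat_lit 49740724873375776768)))) (T.h (P (nat_lit 0)) (M (nat_lit 10793703863186620415)))) (T.h (T.h (P (nat_lit 0)) (T.h (T.h (P (nat_lit 0)) (P (nat_lit 5870480457662464))) (P (nat_lit 0)))) (M (nat_lit 3437973054217519103)))))),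 (T.h (T.h (T.h (P (nat_lit 0)) (T.h (M (nat_lit 53085522036960781581477216255)) (T.h (P (nat_lit 0)) (T.h (M (nat_lit 10242234231096952750079)) (T.h (P (nat_lit 0)) (M (nat_lit 1149341850599423))))))) (T.h (P (nat_lit 0)) (T.h (T.h (P (nat_lit 0)) (T.h (P (nat_lit 8590939794117415141376)) (T.h (P (nat_lit 0)) (P (nat_lit 5577055310118912))))) (T.h (P (nat_lit 0)) (T.h (T.h (P (nat_lit 0)) (M (nat_lit 8459720275525631))) (P (nat_lit 0))))))) (T.h (T.h (P (nat_lit 0)) (T.h (T.h (P (nat_lit 578291697487330404204544)) (T.h (P (nat_lit 0)) (P (nat_lit 2224995150961049600)))) (T.h (P (nat_lit 0)) (M (nat_lit 3541372019637485567))))) (T.h (T.h (T.h (P (nat_lit 0)) (T.h (M (nat_lit 31270315920543543459839)) (T.h (P (nat_lit 0)) (P (nat_lit 9875747953508352))))) (T.h (P (nat_lit 0)) (T.h (T.h (P (nat_lit 0)) (P (nat_lit 34062600577941504))) (P (nat_lit 0))))) (T.h (T.h (P (nat_lit 0)) (M (nat_lit 17820622312014086143))) (T.h (T.h (T.h (P (nat_lit 0)) (P (nat_lit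 10558192468033536))) (P (nat_lit 0))) (P (nat_lit 0))))))), (T.h (T.h (T.h (P (nat_lit 26617841765287406009037398999040)) (T.h (P (nat_lit 0)) (T.h (M (nat_lit 129977362024824844582911)) (T.h (P (nat_lit 0)) (M (nat_lit 1642319604065763327)))))) (T.h (P (nat_lit 0)) (T.h (T.h (M (nat_lit 3714307327027633757093887)) (T.h (P (nat_lit 0)) (M (nat_lit 17337605634832465919)))) (T.h (P (nat_lit 0)) (P (nat_lit 5775169041425498112)))))) (T.h (T.h (P (nat_lit 0)) (T.h (T.h (P (nat_lit 0)) (P (nat_lit 1028113044723877281792))) (P (nat_lit 0)))) (T.h (T.h (T.h (M (nat_lit 129977362024824844582911)) (T.h (P (nat_lit 0)) (M (nat_lit 20225531808785104895)))) (T.h (P (nat_lit 0)) (M (nat_lit 17337605634832465919)))) (T.h (P (nat_lit 0)) (M (nat_lit 1642319604065763327))))))]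
def lP12_25 : List (T ℤ) := [(P (nat_lit 0)), (T.h (T.h (P (nat_lit 0)) (T.h (T.h (P (nat_lit 33023471856655677302289465344)) (T.h (P (nat_lit 0)) (T.h (P (nat_lit 7396777214189422772224)) (T.h (P (nat_lit 0)) (P (nat_lit 7214109814784000)))))) (T.h (P (nat_lit 0)) (T.h (T.h (P (nat_lit 3679387719331085287424)) (T.h (P (nat_lit 0)) (M (nat_lit 10754144374128639)))) (T.h (P (nat_lit 0)) (P (nat_lit 2698854407077888))))))) (T.h (T.h (T.h (P (nat_lit 0)) (T.h (M (nat_lit 29535951333806428829777919)) (T.h (P (nat_lit 0)) (M (nat_lit 9126894819052879871))))) (T.h (P (nat_lit 0)) (T.h (T.h (P (nat_lit 0)) (P (nat_lit 32555380819602964480))) (P (nat_lit 0))))) (T.h (T.h (P (nat_lit 0)) (T.h (T.h (P (nat_lit 16577877388519815512064)) (T.h (P (nat_lit 0)) (M (nat_lit 55367098211631103)))) (T.h (P (nat_lit 0)) (M (nat_lit 27089829268226047))))) (T.h (T.h (T.h (P (nat_lit 0)) (P (nat_lit 7144184205587513344))) (P (nat_lit 0))) (T.h (T.h (P (nat_lit 0)) (M (nat_lit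 14902245460967423))) (P (nat_lit 0))))))), (T.h (T.h (P (nat_lit 0)) (T.h (T.h (P (nat_lit 0)) (T.h (P (nat_lit 13075810249838208814678016)) (T.h (P (nat_lit 0)) (P (nat_lit 10416561284773314560))))) (T.h (P (nat_lit 0)) (T.h (T.h (P (nat_lit 0)) (P (nat_lit 10416561284773314560))) (P (nat_lit 0)))))) (T.h (T.h (T.h (M (nat_lit 4865143931512019742722359295)) (T.h (P (nat_lit 0)) (T.h (P (nat_lit 26712386562715379826688)) (T.h (P (nat_lit 0)) (P (nat_lit 9729628367814656)))))) (T.h (P (nat_lit 0)) (T.h (T.h (P (nat_lit 26712386562715379826688)) (T.h (P (nat_lit 0)) (P (nat_lit 15713127575584768)))) (T.h (P (nat_lit 0)) (P (nat_lit 9729628367814656)))))) (T.h (T.h (P (nat_lit 0)) (T.h (T.h (P (nat_lit 0)) (P (nat_lit 48636823786003365888))) (P (nat_lit 0)))) (T.h (T.h (T.h (M (nat_lit 8745564178652984246271)) (T.h (P (nat_lit 0)) (P (nat_lit 23785446772441088)))) (T.h (P (nat_lit 0)) (P (nat_lit 23785446772441088)))) (T.h (P (nat_lit 0)) (P (nat_lit 1944089406472192))))))),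 (T.h (T.h (P (nat_lit 0)) (T.h (T.h (M (nat_lit 58563857056695683991302307839)) (T.h (P (nat_lit 0)) (T.h (P (nat_lit 8108657485441017053184)) (T.h (P (nat_lit 0)) (M (nat_lit 7276835205611519)))))) (T.h (P (nat_lit 0)) (T.h (T.h (M (nat_lit 17225768161661578903551)) (T.h (P (nat_lit 0)) (M (nat_lit 174287233941503)))) (T.h (P (nat_lit 0)) (M (nat_lit 3720088609357823))))))) (T.h (T.h (T.h (P (nat_lit 0)) (T.h (P (nat_lit 45673022778121750688301056)) (T.h (P (nat_lit 0)) (M (nat_lit 31704313535716655103))))) (T.h (P (nat_lit 0)) (T.h (T.h (P (nat_lit 0)) (M (nat_lit 32711687646010671103))) (P (nat_lit 0))))) (T.h (T.h (P (nat_lit 0)) (T.h (T.h (P (nat_lit 3843571414089190080512)) (T.h (P (nat_lit 0)) (M (nat_lit 48455648891830271)))) (T.h (P (nat_lit 0)) (P (nat_lit 17216402791464960))))) (T.h (T.h (T.h (P (nat_lit 0)) (P (nat_lit 14253265884922511360))) (P (nat_lit 0))) (T.h (T.h (P (nat_lit 0)) (M (nat_lit 4687499992301567))) (P (nat_lit 0))))))), (T.h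 (T.h (P (nat_lit 0)) (T.h (T.h (P (nat_lit 0)) (T.h (P (nat_lit 6083335303084980110884864)) (T.h (P (nat_lit 0)) (P (nat_lit 1415962012927655936))))) (T.h (P (nat_lit 0)) (T.h (T.h (P (nat_lit 0)) (M (nat_lit 8285720689671929855))) (P (nat_lit 0)))))) (T.h (T.h (T.h (M (nat_lit 6000969113615189185396735999)) (T.h (P (nat_lit 0)) (M (nat_lit 111759690933996743557119)))) (P (nat_lit 0))) (T.h (T.h (P (nat_lit 0)) (T.h (T.h (P (nat_lit 0)) (M (nat_lit 4310567372663554047))) (P (nat_lit 0)))) (P (nat_lit 24438338849772933218304))))), (T.h (T.h (P (nat_lit 0)) (T.h (P (nat_lit 0)) (T.h (T.h (P (nat_lit 0)) (T.h (M (nat_lit 3579915370208388186111)) (T.h (P (nat_lit 0)) (P (nat_lit 1738356516651008))))) (T.h (P (nat_lit 0)) (T.h (T.h (P (nat_lit 0)) (M (nat_lit 3354751029936127))) (P (nat_lit 0))))))) (T.h (T.h (P (nat_lit 0)) (T.h (P (nat_lit 0)) (T.h (P (nat_lit 0)) (P (nat_lit 11280218829348667392))))) (T.h (T.h (T.h (P (nat_lit 0)) (T.h (P (nat_lit 3579915370208388186112))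 (T.h (P (nat_lit 0)) (M (nat_lit 1738356516651007))))) (P (nat_lit 0))) (T.h (T.h (P (nat_lit 0)) (M (nat_lit 11280218829348667391))) (T.h (T.h (T.h (P (nat_lit 0)) (P (nat_lit 3354751029936128))) (P (nat_lit 0))) (P (nat_lit 0))))))), (T.h (T.h (T.h (P (nat_lit 0)) (T.h (P (nat_lit 0)) (T.h (P (nat_lit 0)) (T.h (P (nat_lit 0)) (M (nat_lit 552709772135104511)))))) (T.h (P (nat_lit 0)) (T.h (T.h (P (nat_lit 12490453405460551285342208)) (T.h (P (nat_lit 0)) (P (nat_lit 6890058237970743296)))) (T.h (P (nat_lit 0)) (P (nat_lit 812847327025823744)))))) (T.h (T.h (P (nat_lit 0)) (T.h (T.h (P (nat_lit 0)) (T.h (P (nat_lit 40872332593621807136768)) (T.h (P (nat_lit 0)) (P (nat_lit 7058222133673984))))) (T.h (P (nat_lit 0)) (T.h (T.h (P (nat_lit 0)) (M (nat_lit 2868643210854399))) (P (nat_lit 0)))))) (T.h (T.h (T.h (M (nat_lit 202648603037179402256383)) (T.h (P (nat_lit 0)) (M (nat_lit 10793703863186620415)))) (T.h (P (nat_lit 0)) (P (nat_lit 49740724873375776768))))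 (T.h (T.h (P (nat_lit 0)) (T.h (T.h (P (nat_lit 0)) (P (nat_lit 5870480457662464))) (P (nat_lit 0)))) (M (nat_lit 3437973054217519103)))))), (T.h (T.h (T.h (P (nat_lit 0)) (T.h (M (nat_lit 58563857056695683991302307839)) (T.h (P (nat_lit 0)) (T.h (M (nat_lit 17225768161661578903551)) (T.h (P (nat_lit 0)) (M (nat_lit 3720088609357823))))))) (T.h (P (nat_lit 0)) (T.h (T.h (P (nat_lit 0)) (T.h (P (nat_lit 8108657485441017053184)) (T.h (P (nat_lit 0)) (M (nat_lit 174287233941503))))) (T.h (P (nat_lit 0)) (T.h (T.h (P (nat_lit 0)) (M (nat_lit 7276835205611519))) (P (nat_lit 0))))))) (T.h (T.h (P (nat_lit 0)) (T.h (T.h (P (nat_lit 45673022778121750688301056)) (T.h (P (nat_lit 0)) (M (nat_lit 32711687646010671103)))) (T.h (P (nat_lit 0)) (M (nat_lit 31704313535716655103))))) (T.h (T.h (T.h (P (nat_lit 0)) (T.h (P (nat_lit 3843571414089190080512)) (T.h (P (nat_lit 0)) (P (nat_lit 17216402791464960))))) (T.h (P (nat_lit 0)) (T.h (T.h (P (nat_lit 0)) (M (nat_lit 48455648891830271)))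 (P (nat_lit 0))))) (T.h (T.h (P (nat_lit 0)) (P (nat_lit 14253265884922511360))) (T.h (T.h (T.h (P (nat_lit 0)) (M (nat_lit 4687499992301567))) (P (nat_lit 0))) (P (nat_lit 0)))))))]
def lP12_26 : List (T ℤ) := [(T.h (T.h (T.h (P (nat_lit 45547003984978852827402050994176)) (T.h (P (nat_lit 0)) (T.h (P (nat_lit 11990256178027355455881216)) (T.h (P (nat_lit 0)) (P (nat_lit 8539439288566153216)))))) (T.h (P (nat_lit 0)) (T.h (T.h (P (nat_lit 11990256178027355455881216)) (T.h (P (nat_lit 0)) (P (nat_lit 28328071813375459328)))) (T.h (P (nat_lit 0)) (P (nat_lit 8539439288566153216)))))) (T.h (T.h (P (nat_lit 0)) (T.h (T.h (P (nat_lit 0)) (M (nat_lit 129973717396666441531391))) (P (nat_lit 0)))) (T.h (T.h (T.h (P (nat_lit 35319305880671328002899968)) (T.h (P (nat_lit 0)) (P (nat_lit 13241484090680541184)))) (T.h (P (nat_lit 0)) (P (nat_lit 13241484090680541184)))) (T.h (P (nat_lit 0)) (P (nat_lit 19491175534153433088)))))), (P (nat_lit 0)), (T.h (T.h (P (nat_lit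 0)) (T.h (T.h (M (nat_lit 53085522036960781581477216255)) (T.h (P (nat_lit 0)) (T.h (P (nat_lit 8590939794117415141376)) (T.h (P (nat_lit 0)) (M (nat_lit 8459720275525631)))))) (T.h (P (nat_lit 0)) (T.h (T.h (M (nat_lit 10242234231096952750079)) (T.h (P (nat_lit 0)) (P (nat_lit 5577055310118912)))) (T.h (P (nat_lit 0)) (M (nat_lit 1149341850599423))))))) (T.h (T.h (T.h (P (nat_lit 0)) (T.h (P (nat_lit 578291697487330404204544)) (T.h (P (nat_lit 0)) (M (nat_lit 3541372019637485567))))) (T.h (P (nat_lit 0)) (T.h (T.h (P (nat_lit 0)) (P (nat_lit 2224995150961049600))) (P (nat_lit 0))))) (T.h (T.h (P (nat_lit 0)) (T.h (T.h (M (nat_lit 31270315920543543459839)) (T.h (P (nat_lit 0)) (P (nat_lit 34062600577941504)))) (T.h (P (nat_lit 0)) (P (nat_lit 9875747953508352))))) (T.h (T.h (T.h (P (nat_lit 0)) (M (nat_lit 17820622312014086143))) (P (nat_lit 0))) (T.h (T.h (P (nat_lit 0)) (P (nat_lit 10558192468033536))) (P (nat_lit 0))))))), (T.h (T.h (P (nat_lit 0)) (T.h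 (T.h (P (nat_lit 0)) (T.h (P (nat_lit 6083335303084980110884864)) (T.h (P (nat_lit 0)) (M (nat_lit 8285720689671929855))))) (T.h (P (nat_lit 0)) (T.h (T.h (P (nat_lit 0)) (P (nat_lit 1415962012927655936))) (P (nat_lit 0)))))) (T.h (T.h (M (nat_lit 6000969113615189185396735999)) (T.h (P (nat_lit 0)) (M (nat_lit 111759690933996743557119)))) (T.h (T.h (P (nat_lit 0)) (T.h (T.h (P (nat_lit 0)) (M (nat_lit 4310567372663554047))) (P (nat_lit 0)))) (P (nat_lit 24438338849772933218304))))), (P (nat_lit 0)), (T.h (T.h (T.h (P (nat_lit 26617841765287406009037398999040)) (T.h (P (nat_lit 0)) (T.h (M (nat_lit 3714307327027633757093887)) (T.h (P (nat_lit 0)) (P (nat_lit 5775169041425498112)))))) (T.h (P (nat_lit 0)) (T.h (T.h (M (nat_lit 129977362024824844582911)) (T.h (P (nat_lit 0)) (M (nat_lit 17337605634832465919)))) (T.h (P (nat_lit 0)) (M (nat_lit 1642319604065763327)))))) (T.h (T.h (P (nat_lit 0)) (T.h (T.h (P (nat_lit 0)) (P (nat_lit 1028113044723877281792)))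 (P (nat_lit 0)))) (T.h (T.h (T.h (M (nat_lit 129977362024824844582911)) (T.h (P (nat_lit 0)) (M (nat_lit 17337605634832465919)))) (T.h (P (nat_lit 0)) (M (nat_lit 20225531808785104895)))) (T.h (P (nat_lit 0)) (M (nat_lit 1642319604065763327)))))), (P (nat_lit 0)), (P (nat_lit 0))]
def lP12_27 : List (T ℤ) := [(P (nat_lit 0)), (T.h (T.h (T.h (M (nat_lit 581319800600590070789938610175)) (T.h (P (nat_lit 0)) (T.h (M (nat_lit 6314525167019444997718015)) (T.h (P (nat_lit 0)) (P (nat_lit 3040947068790112256)))))) (T.h (P (nat_lit 0)) (T.h (T.h (P (nat_lit 230784127888635637792768)) (T.h (P (nat_lit 0)) (M (nat_lit 14403012013494108159)))) (T.h (P (nat_lit 0)) (P (nat_lit 2655823176675622912)))))) (T.h (T.h (P (nat_lit 0)) (T.h (T.h (P (nat_lit 0)) (T.h (P (nat_lit 23035336494165388165120)) (T.h (P (nat_lit 0)) (M (nat_lit 14419436255379455))))) (T.h (P (nat_lit 0)) (T.h (T.h (P (nat_lit 0)) (P (nat_lit 9646683113816064))) (P (nat_lit 0)))))) (T.h (T.h (T.h (M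 (nat_lit 4447735707577497449136127)) (T.h (P (nat_lit 0)) (P (nat_lit 16212374618143457280)))) (T.h (P (nat_lit 0)) (M (nat_lit 18422645144818810879)))) (T.h (T.h (P (nat_lit 0)) (T.h (T.h (P (nat_lit 0)) (M (nat_lit 22138216019722239))) (P (nat_lit 0)))) (M (nat_lit 2173096264160247807)))))), (P (nat_lit 0)), (P (nat_lit 0)), (P (nat_lit 0)), (P (nat_lit 0)), (T.h (T.h (P (nat_lit 0)) (T.h (T.h (P (nat_lit 0)) (T.h (M (nat_lit 22405553927688155582955519)) (T.h (P (nat_lit 0)) (M (nat_lit 9277172397348225023))))) (T.h (P (nat_lit 0)) (T.h (T.h (P (nat_lit 0)) (M (nat_lit 9277172397348225023))) (P (nat_lit 0)))))) (T.h (T.h (T.h (P (nat_lit 6119474603883165755195260928)) (T.h (P (nat_lit 0)) (T.h (P (nat_lit 22470865777624396857344)) (T.h (P (nat_lit 0)) (P (nat_lit 625184497532928)))))) (T.h (P (nat_lit 0)) (T.h (T.h (P (nat_lit 22470865777624396857344)) (T.h (P (nat_lit 0)) (M (nat_lit 17843037357473791)))) (T.h (P (nat_lit 0)) (P (nat_lit 625184497532928))))))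 (T.h (T.h (P (nat_lit 0)) (T.h (T.h (P (nat_lit 0)) (P (nat_lit 9186892608645890048))) (P (nat_lit 0)))) (T.h (T.h (T.h (P (nat_lit 126257451281634295808)) (T.h (P (nat_lit 0)) (M (nat_lit 14278543918825471)))) (T.h (P (nat_lit 0)) (M (nat_lit 14278543918825471)))) (T.h (P (nat_lit 0)) (M (nat_lit 2661080968593407))))))), (T.h (T.h (P (nat_lit 0)) (T.h (T.h (M (nat_lit 3147316493728592057340002303)) (T.h (P (nat_lit 0)) (T.h (P (nat_lit 835233424690865242112)) (T.h (P (nat_lit 0)) (M (nat_lit 1036859366244351)))))) (T.h (P (nat_lit 0)) (T.h (T.h (M (nat_lit 4524051548051001573375)) (T.h (P (nat_lit 0)) (M (nat_lit 652816732782591)))) (T.h (P (nat_lit 0)) (P (nat_lit 845034740580352))))))) (T.h (T.h (T.h (P (nat_lit 0)) (T.h (P (nat_lit 16159129519095628567674880)) (T.h (P (nat_lit 0)) (P (nat_lit 3256229217427259392))))) (T.h (P (nat_lit 0)) (T.h (T.h (P (nat_lit 0)) (P (nat_lit 14223229982607409152))) (P (nat_lit 0))))) (T.h (T.h (P (nat_lit 0)) (T.h (T.h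 (M (nat_lit 4041870850466806497279)) (T.h (P (nat_lit 0)) (M (nat_lit 11975517620469759)))) (T.h (P (nat_lit 0)) (P (nat_lit 822254790705152))))) (T.h (T.h (T.h (P (nat_lit 0)) (P (nat_lit 8662173632501383168))) (P (nat_lit 0))) (T.h (T.h (P (nat_lit 0)) (P (nat_lit 2925128420229120))) (P (nat_lit 0)))))))]
def lP12_28 : List (T ℤ) := [(T.h (T.h (P (nat_lit 0)) (T.h (T.h (P (nat_lit 0)) (T.h (M (nat_lit 11966167736419842051276799)) (T.h (P (nat_lit 0)) (P (nat_lit 2052704746300506112))))) (T.h (P (nat_lit 0)) (T.h (T.h (P (nat_lit 0)) (M (nat_lit 3731991322861502463))) (P (nat_lit 0)))))) (T.h (T.h (T.h (M (nat_lit 28594865004676513644159172607)) (T.h (P (nat_lit 0)) (T.h (M (nat_lit 21528506760766722932735)) (T.h (P (nat_lit 0)) (P (nat_lit 3398585621741568)))))) (T.h (P (nat_lit 0)) (T.h (P (nat_lit 9192677989439676350464)) (T.h (P (nat_lit 0)) (P (nat_lit 1895257306300416)))))) (T.h (T.h (P (nat_lit 0)) (T.h (T.h (P (nat_lit 0)) (P (nat_lit 23557292345440337920)))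 (P (nat_lit 0)))) (T.h (T.h (T.h (M (nat_lit 5040543764096126812159)) (T.h (P (nat_lit 0)) (P (nat_lit 154781880287232)))) (T.h (P (nat_lit 0)) (P (nat_lit 738651429666816)))) (P (nat_lit 0)))))), (T.h (T.h (P (nat_lit 0)) (T.h (T.h (M (nat_lit 4996804256147560436517044223)) (T.h (P (nat_lit 0)) (P (nat_lit 257028261180969320448)))) (T.h (P (nat_lit 0)) (P (nat_lit 699374331989025882112))))) (T.h (T.h (T.h (P (nat_lit 0)) (T.h (M (nat_lit 7693749846238283348049919)) (T.h (P (nat_lit 0)) (M (nat_lit 11382046171812855807))))) (T.h (P (nat_lit 0)) (T.h (T.h (P (nat_lit 0)) (M (nat_lit 23253401994541400063))) (P (nat_lit 0))))) (T.h (T.h (P (nat_lit 0)) (P (nat_lit 4296544144108300533760))) (T.h (T.h (T.h (P (nat_lit 0)) (M (nat_lit 14521116546631204863))) (P (nat_lit 0))) (P (nat_lit 0)))))), (T.h (T.h (T.h (M (nat_lit 581319800600590070789938610175)) (T.h (P (nat_lit 0)) (T.h (P (nat_lit 230784127888635637792768)) (T.h (P (nat_lit 0)) (P (nat_lit 2655823176675622912))))))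 (T.h (P (nat_lit 0)) (T.h (T.h (M (nat_lit 6314525167019444997718015)) (T.h (P (nat_lit 0)) (M (nat_lit 14403012013494108159)))) (T.h (P (nat_lit 0)) (P (nat_lit 3040947068790112256)))))) (T.h (T.h (P (nat_lit 0)) (T.h (T.h (P (nat_lit 0)) (T.h (P (nat_lit 23035336494165388165120)) (T.h (P (nat_lit 0)) (P (nat_lit 9646683113816064))))) (T.h (P (nat_lit 0)) (T.h (T.h (P (nat_lit 0)) (M (nat_lit 14419436255379455))) (P (nat_lit 0)))))) (T.h (T.h (T.h (M (nat_lit 4447735707577497449136127)) (T.h (P (nat_lit 0)) (M (nat_lit 18422645144818810879)))) (T.h (P (nat_lit 0)) (P (nat_lit 16212374618143457280)))) (T.h (T.h (P (nat_lit 0)) (T.h (T.h (P (nat_lit 0)) (M (nat_lit 22138216019722239))) (P (nat_lit 0)))) (M (nat_lit 2173096264160247807)))))), (T.h (T.h (T.h (P (nat_lit 0)) (T.h (M (nat_lit 3147316493728592057340002303)) (T.h (P (nat_lit 0)) (T.h (M (nat_lit 4524051548051001573375)) (T.h (P (nat_lit 0)) (P (nat_lit 845034740580352))))))) (T.h (P (nat_lit 0))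 (T.h (T.h (P (nat_lit 0)) (T.h (P (nat_lit 835233424690865242112)) (T.h (P (nat_lit 0)) (M (nat_lit 652816732782591))))) (T.h (P (nat_lit 0)) (T.h (T.h (P (nat_lit 0)) (M (nat_lit 1036859366244351))) (P (nat_lit 0))))))) (T.h (T.h (P (nat_lit 0)) (T.h (T.h (P (nat_lit 16159129519095628567674880)) (T.h (P (nat_lit 0)) (P (nat_lit 14223229982607409152)))) (T.h (P (nat_lit 0)) (P (nat_lit 3256229217427259392))))) (T.h (T.h (T.h (P (nat_lit 0)) (T.h (M (nat_lit 4041870850466806497279)) (T.h (P (nat_lit 0)) (P (nat_lit 822254790705152))))) (T.h (P (nat_lit 0)) (T.h (T.h (P (nat_lit 0)) (M (nat_lit 11975517620469759))) (P (nat_lit 0))))) (T.h (T.h (P (nat_lit 0)) (P (nat_lit 8662173632501383168))) (T.h (T.h (T.h (P (nat_lit 0)) (P (nat_lit 2925128420229120))) (P (nat_lit 0))) (P (nat_lit 0))))))), (T.h (T.h (T.h (M (nat_lit 2001138384869827064950010413055)) (T.h (P (nat_lit 0)) (T.h (P (nat_lit 18697361475644574801068032)) (T.h (P (nat_lit 0)) (M (nat_lit 18379318725514887167))))))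 (T.h (P (nat_lit 0)) (T.h (T.h (P (nat_lit 18697361475644574801068032)) (T.h (P (nat_lit 0)) (M (nat_lit 1044776055065280511)))) (T.h (P (nat_lit 0)) (M (nat_lit 18379318725514887167)))))) (T.h (T.h (P (nat_lit 0)) (T.h (T.h (P (nat_lit 0)) (T.h (M (nat_lit 18792191774930400968703)) (T.h (P (nat_lit 0)) (P (nat_lit 11297037564444672))))) (T.h (P (nat_lit 0)) (T.h (T.h (P (nat_lit 0)) (P (nat_lit 11297037564444672))) (P (nat_lit 0)))))) (T.h (T.h (T.h (P (nat_lit 3021525689518643465945088)) (T.h (P (nat_lit 0)) (P (nat_lit 47436507338491559936)))) (T.h (P (nat_lit 0)) (P (nat_lit 47436507338491559936)))) (T.h (T.h (P (nat_lit 0)) (T.h (T.h (P (nat_lit 0)) (P (nat_lit 4787447241768960))) (P (nat_lit 0)))) (M (nat_lit 11402494650829766655)))))), (T.h (T.h (T.h (P (nat_lit 0)) (T.h (M (nat_lit 19472614965897669399187292159)) (T.h (P (nat_lit 0)) (P (nat_lit 21163988139213750009856))))) (T.h (P (nat_lit 0)) (T.h (T.h (P (nat_lit 0)) (P (nat_lit 455310933304797036544)))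 (P (nat_lit 0))))) (T.h (T.h (P (nat_lit 0)) (T.h (T.h (P (nat_lit 9533650392968229510184960)) (T.h (P (nat_lit 0)) (P (nat_lit 21510889844164788224)))) (T.h (P (nat_lit 0)) (M (nat_lit 18196777769839362047))))) (T.h (T.h (T.h (P (nat_lit 0)) (M (nat_lit 102025982773308359180287))) (P (nat_lit 0))) (T.h (T.h (P (nat_lit 0)) (P (nat_lit 4261631954979389440))) (P (nat_lit 0)))))), (P (nat_lit 0)), (T.h (T.h (P (nat_lit 0)) (T.h (T.h (P (nat_lit 0)) (T.h (M (nat_lit 11966167736419842051276799)) (T.h (P (nat_lit 0)) (M (nat_lit 3731991322861502463))))) (T.h (P (nat_lit 0)) (T.h (T.h (P (nat_lit 0)) (P (nat_lit 2052704746300506112))) (P (nat_lit 0)))))) (T.h (T.h (T.h (M (nat_lit 28594865004676513644159172607)) (T.h (P (nat_lit 0)) (T.h (P (nat_lit 9192677989439676350464)) (T.h (P (nat_lit 0)) (P (nat_lit 1895257306300416)))))) (T.h (P (nat_lit 0)) (T.h (M (nat_lit 21528506760766722932735)) (T.h (P (nat_lit 0)) (P (nat_lit 3398585621741568)))))) (T.h (T.h (P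 (nat_lit 0)) (T.h (T.h (P (nat_lit 0)) (P (nat_lit 23557292345440337920))) (P (nat_lit 0)))) (T.h (T.h (T.h (M (nat_lit 5040543764096126812159)) (T.h (P (nat_lit 0)) (P (nat_lit 738651429666816)))) (T.h (P (nat_lit 0)) (P (nat_lit 154781880287232)))) (P (nat_lit 0))))))]
def lP12_29 : List (T ℤ) := [(T.h (T.h (P (nat_lit 0)) (T.h (T.h (M (nat_lit 19472614965897669399187292159)) (T.h (P (nat_lit 0)) (P (nat_lit 455310933304797036544)))) (T.h (P (nat_lit 0)) (P (nat_lit 21163988139213750009856))))) (T.h (T.h (T.h (P (nat_lit 0)) (T.h (P (nat_lit 9533650392968229510184960)) (T.h (P (nat_lit 0)) (M (nat_lit 18196777769839362047))))) (T.h (P (nat_lit 0)) (T.h (T.h (P (nat_lit 0)) (P (nat_lit 21510889844164788224))) (P (nat_lit 0))))) (T.h (T.h (P (nat_lit 0)) (M (nat_lit 102025982773308359180287))) (T.h (T.h (T.h (P (nat_lit 0)) (P (nat_lit 4261631954979389440))) (P (nat_lit 0))) (P (nat_lit 0)))))), (P (nat_lit 0)), (T.h (T.h (T.h (P (nat_lit 0)) (T.h (M (nat_lit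 4996804256147560436517044223)) (T.h (P (nat_lit 0)) (P (nat_lit 699374331989025882112))))) (T.h (P (nat_lit 0)) (T.h (T.h (P (nat_lit 0)) (P (nat_lit 257028261180969320448))) (P (nat_lit 0))))) (T.h (T.h (P (nat_lit 0)) (T.h (T.h (M (nat_lit 7693749846238283348049919)) (T.h (P (nat_lit 0)) (M (nat_lit 23253401994541400063)))) (T.h (P (nat_lit 0)) (M (nat_lit 11382046171812855807))))) (T.h (T.h (T.h (P (nat_lit 0)) (P (nat_lit 4296544144108300533760))) (P (nat_lit 0))) (T.h (T.h (P (nat_lit 0)) (M (nat_lit 14521116546631204863))) (P (nat_lit 0)))))), (P (nat_lit 0)), (P (nat_lit 0)), (T.h (T.h (P (nat_lit 0)) (T.h (T.h (P (nat_lit 927609735086973576535867392)) (T.h (P (nat_lit 0)) (T.h (P (nat_lit 3263796041597080043520)) (T.h (P (nat_lit 0)) (P (nat_lit 875797596635136)))))) (T.h (P (nat_lit 0)) (T.h (T.h (M (nat_lit 1607631248593076092927)) (T.h (P (nat_lit 0)) (P (nat_lit 445433025036288)))) (T.h (P (nat_lit 0)) (M (nat_lit 805947716206591))))))) (T.h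 (T.h (T.h (P (nat_lit 0)) (T.h (M (nat_lit 6113973430961570043658239)) (T.h (P (nat_lit 0)) (M (nat_lit 5187088838144557055))))) (T.h (P (nat_lit 0)) (T.h (T.h (P (nat_lit 0)) (M (nat_lit 17874334327580393471))) (P (nat_lit 0))))) (T.h (T.h (P (nat_lit 0)) (T.h (T.h (P (nat_lit 6459268057909717630976)) (T.h (P (nat_lit 0)) (M (nat_lit 2001494749478911)))) (T.h (P (nat_lit 0)) (P (nat_lit 6306731763105792))))) (T.h (T.h (T.h (P (nat_lit 0)) (P (nat_lit 6755793620135051264))) (P (nat_lit 0))) (T.h (T.h (P (nat_lit 0)) (M (nat_lit 1862565443371007))) (P (nat_lit 0))))))), (P (nat_lit 0)), (P (nat_lit 0))]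
def lP12_30 : List (T ℤ) := [(P (nat_lit 0)), (T.h (T.h (T.h (P (nat_lit 0)) (T.h (P (nat_lit 927609735086973576535867392)) (T.h (P (nat_lit 0)) (T.h (M (nat_lit 1607631248593076092927)) (T.h (P (nat_lit 0)) (M (nat_lit 805947716206591))))))) (T.h (P (nat_lit 0)) (T.h (T.h (P (nat_lit 0)) (T.h (P (nat_lit 3263796041597080043520)) (T.h (P (nat_lit 0)) (P (nat_lit 445433025036288))))) (T.h (P (nat_lit 0)) (T.h (T.h (P (nat_lit 0)) (P (nat_lit 875797596635136))) (P (nat_lit 0))))))) (T.h (T.h (P (nat_lit 0)) (T.h (T.h (M (nat_lit 6113973430961570043658239)) (T.h (P (nat_lit 0)) (M (nat_lit 17874334327580393471)))) (T.h (P (nat_lit 0)) (M (nat_lit 5187088838144557055))))) (T.h (T.h (T.h (P (nat_lit 0)) (T.h (P (nat_lit 6459268057909717630976)) (T.h (P (nat_lit 0)) (P (nat_lit 6306731763105792))))) (T.h (P (nat_lit 0)) (T.h (T.h (P (nat_lit 0)) (M (nat_lit 2001494749478911))) (P (nat_lit 0))))) (T.h (T.h (P (nat_lit 0)) (P (nat_lit 6755793620135051264))) (T.h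 (T.h (T.h (P (nat_lit 0)) (M (nat_lit 1862565443371007))) (P (nat_lit 0))) (P (nat_lit 0))))))), (T.h (T.h (T.h (P (nat_lit 5874464779828831870272703299584)) (T.h (P (nat_lit 0)) (T.h (P (nat_lit 1789014615482866992152576)) (T.h (P (nat_lit 0)) (P (nat_lit 2729902727365656576)))))) (T.h (P (nat_lit 0)) (T.h (T.h (P (nat_lit 1789014615482866992152576)) (T.h (P (nat_lit 0)) (P (nat_lit 2005410347908857856)))) (T.h (P (nat_lit 0)) (P (nat_lit 2729902727365656576)))))) (T.h (T.h (P (nat_lit 0)) (T.h (T.h (P (nat_lit 0)) (P (nat_lit 101896397878233923584))) (P (nat_lit 0)))) (T.h (T.h (T.h (M (nat_lit 1408964967221915887337471)) (T.h (P (nat_lit 0)) (P (nat_lit 1418544840500576256)))) (T.h (P (nat_lit 0)) (P (nat_lit 1418544840500576256)))) (T.h (T.h (P (nat_lit 0)) (T.h (T.h (P (nat_lit 0)) (P (nat_lit 2216312920342528))) (P (nat_lit 0)))) (P (nat_lit 2917492293147557888)))))), (T.h (T.h (T.h (P (nat_lit 0)) (T.h (M (nat_lit 23308674508616954859992645631)) (T.h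 (P (nat_lit 0)) (T.h (M (nat_lit 3679868749620923334655)) (T.h (P (nat_lit 0)) (M (nat_lit 1405125303336959))))))) (T.h (P (nat_lit 0)) (T.h (T.h (P (nat_lit 0)) (T.h (M (nat_lit 566177892511311200255)) (T.h (P (nat_lit 0)) (M (nat_lit 599549196042239))))) (T.h (P (nat_lit 0)) (T.h (T.h (P (nat_lit 0)) (M (nat_lit 3523974070075391))) (P (nat_lit 0))))))) (T.h (T.h (P (nat_lit 0)) (T.h (T.h (P (nat_lit 6699686972814614291546112)) (T.h (P (nat_lit 0)) (P (nat_lit 7082019746996027392)))) (T.h (P (nat_lit 0)) (M (nat_lit 8771602870383411199))))) (T.h (T.h (T.h (P (nat_lit 0)) (T.h (M (nat_lit 6403020190384731979775)) (T.h (P (nat_lit 0)) (M (nat_lit 421025460584447))))) (T.h (P (nat_lit 0)) (T.h (T.h (P (nat_lit 0)) (P (nat_lit 5418969469157376))) (P (nat_lit 0))))) (T.h (T.h (P (nat_lit 0)) (P (nat_lit 5598175807563366400))) (T.h (T.h (T.h (P (nat_lit 0)) (P (nat_lit 4525130102341632))) (P (nat_lit 0))) (P (nat_lit 0))))))), (T.h (T.h (T.h (P (nat_lit 14562162258249013777924918083584))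 (T.h (P (nat_lit 0)) (T.h (M (nat_lit 1586501907438543587770367)) (T.h (P (nat_lit 0)) (P (nat_lit 1238029958807289856)))))) (T.h (P (nat_lit 0)) (T.h (T.h (P (nat_lit 472108168470894989017088)) (T.h (P (nat_lit 0)) (P (nat_lit 613938376747253760)))) (T.h (P (nat_lit 0)) (P (nat_lit 555935322035191808)))))) (T.h (T.h (P (nat_lit 0)) (T.h (T.h (P (nat_lit 0)) (M (nat_lit 14866527205867955159039))) (P (nat_lit 0)))) (T.h (T.h (T.h (P (nat_lit 5400635009370655693996032)) (T.h (P (nat_lit 0)) (P (nat_lit 272633426224349184)))) (T.h (P (nat_lit 0)) (M (nat_lit 2606053976117870591)))) (T.h (P (nat_lit 0)) (M (nat_lit 1544577741599277055)))))), (P (nat_lit 0)), (T.h (T.h (P (nat_lit 0)) (T.h (T.h (M (nat_lit 23308674508616954859992645631)) (T.h (P (nat_lit 0)) (T.h (M (nat_lit 566177892511311200255)) (T.h (P (nat_lit 0)) (M (nat_lit 3523974070075391)))))) (T.h (P (nat_lit 0)) (T.h (T.h (M (nat_lit 3679868749620923334655)) (T.h (P (nat_lit 0)) (M (nat_lit 599549196042239))))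 (T.h (P (nat_lit 0)) (M (nat_lit 1405125303336959))))))) (T.h (T.h (T.h (P (nat_lit 0)) (T.h (P (nat_lit 6699686972814614291546112)) (T.h (P (nat_lit 0)) (M (nat_lit 8771602870383411199))))) (T.h (P (nat_lit 0)) (T.h (T.h (P (nat_lit 0)) (P (nat_lit 7082019746996027392))) (P (nat_lit 0))))) (T.h (T.h (P (nat_lit 0)) (T.h (T.h (M (nat_lit 6403020190384731979775)) (T.h (P (nat_lit 0)) (P (nat_lit 5418969469157376)))) (T.h (P (nat_lit 0)) (M (nat_lit 421025460584447))))) (T.h (T.h (T.h (P (nat_lit 0)) (P (nat_lit 5598175807563366400))) (P (nat_lit 0))) (T.h (T.h (P (nat_lit 0)) (P (nat_lit 4525130102341632))) (P (nat_lit 0))))))), (T.h (T.h (P (nat_lit 0)) (T.h (T.h (P (nat_lit 0)) (T.h (P (nat_lit 817752586518847605964800)) (T.h (P (nat_lit 0)) (P (nat_lit 1364636026177323008))))) (T.h (P (nat_lit 0)) (T.h (T.h (P (nat_lit 0)) (P (nat_lit 1364636026177323008))) (P (nat_lit 0)))))) (T.h (T.h (T.h (P (nat_lit 2613273605147549987961307136)) (T.h (P (nat_lit 0))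 (M (nat_lit 36272100889309380345855)))) (T.h (P (nat_lit 0)) (M (nat_lit 36272100889309380345855)))) (T.h (T.h (P (nat_lit 0)) (T.h (T.h (P (nat_lit 0)) (M (nat_lit 12301045624127619071))) (P (nat_lit 0)))) (P (nat_lit 2747092652249212518400)))))]
def lP12_31 : List (T ℤ) := [(P (nat_lit 0)), (T.h (T.h (T.h (P (nat_lit 14562162258249013777924918083584)) (T.h (P (nat_lit 0)) (T.h (P (nat_lit 472108168470894989017088)) (T.h (P (nat_lit 0)) (P (nat_lit 555935322035191808)))))) (T.h (P (nat_lit 0)) (T.h (T.h (M (nat_lit 1586501907438543587770367)) (T.h (P (nat_lit 0)) (P (nat_lit 613938376747253760)))) (T.h (P (nat_lit 0)) (P (nat_lit 1238029958807289856)))))) (T.h (T.h (P (nat_lit 0)) (T.h (T.h (P (nat_lit 0)) (M (nat_lit 14866527205867955159039))) (P (nat_lit 0)))) (T.h (T.h (T.h (P (nat_lit 5400635009370655693996032)) (T.h (P (nat_lit 0)) (M (nat_lit 2606053976117870591)))) (T.h (P (nat_lit 0)) (P (nat_lit 272633426224349184)))) (T.h (P (nat_lit 0)) (M (nat_lit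 1544577741599277055)))))), (P (nat_lit 0)), (T.h (T.h (T.h (M (nat_lit 990876327444698339409504763903)) (T.h (P (nat_lit 0)) (T.h (P (nat_lit 167275320706577905745920)) (T.h (P (nat_lit 0)) (P (nat_lit 585211341489307648)))))) (T.h (P (nat_lit 0)) (T.h (T.h (P (nat_lit 167275320706577905745920)) (T.h (P (nat_lit 0)) (P (nat_lit 1547050308369121280)))) (T.h (P (nat_lit 0)) (P (nat_lit 585211341489307648)))))) (T.h (T.h (P (nat_lit 0)) (T.h (T.h (P (nat_lit 0)) (T.h (P (nat_lit 131047960771691544576)) (T.h (P (nat_lit 0)) (P (nat_lit 1882839594074112))))) (T.h (P (nat_lit 0)) (T.h (T.h (P (nat_lit 0)) (P (nat_lit 1882839594074112))) (P (nat_lit 0)))))) (T.h (T.h (T.h (P (nat_lit 1433624483276578380316672)) (T.h (P (nat_lit 0)) (M (nat_lit 3058233247004622847)))) (T.h (P (nat_lit 0)) (M (nat_lit 3058233247004622847)))) (T.h (T.h (P (nat_lit 0)) (T.h (T.h (P (nat_lit 0)) (P (nat_lit 797907873628160))) (P (nat_lit 0)))) (M (nat_lit 938514037266710527)))))), (P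 (nat_lit 0)), (P (nat_lit 0)), (P (nat_lit 0)), (P (nat_lit 0))]
def lP12_32 : List (T ℤ) := [(T.h (T.h (P (nat_lit 0)) (T.h (T.h (P (nat_lit 0)) (P (nat_lit 820044288225231356559360))) (P (nat_lit 0)))) (T.h (T.h (P (nat_lit 0)) (T.h (P (nat_lit 0)) (T.h (T.h (P (nat_lit 0)) (T.h (P (nat_lit 0)) (P (nat_lit 9472520804892672)))) (P (nat_lit 0))))) (T.h (T.h (P (nat_lit 0)) (T.h (T.h (P (nat_lit 0)) (M (nat_lit 1945289511797784575))) (P (nat_lit 0)))) (T.h (M (nat_lit 1386797677371080048639)) (T.h (P (nat_lit 0)) (P (nat_lit 520789253947392))))))), (T.h (T.h (P (nat_lit 0)) (T.h (T.h (M (nat_lit 279908450380878969705594879)) (T.h (P (nat_lit 0)) (M (nat_lit 25474099469558480895)))) (T.h (P (nat_lit 0)) (P (nat_lit 2829812515106405220352))))) (T.h (T.h (T.h (P (nat_lit 0)) (T.h (P (nat_lit 2424682419920877020774400)) (T.h (P (nat_lit 0)) (P (nat_lit 287420047758983168))))) (T.h (P (nat_lit 0)) (T.h (T.h (P (nat_lit 0)) (M (nat_lit 10165924027084832767))) (P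 (nat_lit 0))))) (T.h (T.h (P (nat_lit 0)) (M (nat_lit 9901917847013963071487))) (T.h (T.h (T.h (P (nat_lit 0)) (M (nat_lit 6178310966397108223))) (P (nat_lit 0))) (P (nat_lit 0)))))), (P (nat_lit 0)), (T.h (T.h (T.h (P (nat_lit 0)) (T.h (M (nat_lit 279908450380878969705594879)) (T.h (P (nat_lit 0)) (P (nat_lit 2829812515106405220352))))) (T.h (P (nat_lit 0)) (T.h (T.h (P (nat_lit 0)) (M (nat_lit 25474099469558480895))) (P (nat_lit 0))))) (T.h (T.h (P (nat_lit 0)) (T.h (T.h (P (nat_lit 2424682419920877020774400)) (T.h (P (nat_lit 0)) (M (nat_lit 10165924027084832767)))) (T.h (P (nat_lit 0)) (P (nat_lit 287420047758983168))))) (T.h (T.h (T.h (P (nat_lit 0)) (M (nat_lit 9901917847013963071487))) (P (nat_lit 0))) (T.h (T.h (P (nat_lit 0)) (M (nat_lit 6178310966397108223))) (P (nat_lit 0)))))), (P (nat_lit 0)), (P (nat_lit 0)), (P (nat_lit 0)), (P (nat_lit 0))]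
def lP12_33 : List (T ℤ) := [(P (nat_lit 0)), (T.h (T.h (P (nat_lit 0)) (T.h (P (nat_lit 0)) (T.h (T.h (P (nat_lit 0)) (T.h (P (nat_lit 0)) (M (nat_lit 3233287101403365375)))) (P (nat_lit 0))))) (T.h (P (nat_lit 0)) (T.h (P (nat_lit 0)) (T.h (P (nat_lit 0)) (M (nat_lit 888813660070215679)))))), (P (nat_lit 0)), (P (nat_lit 0)), (P (nat_lit 0)), (P (nat_lit 0)), (P (nat_lit 0))]

def CP12 : List (T ℤ) := lP12_0 ++ (lP12_1 ++ (lP12_2 ++ (lP12_3 ++ (lP12_4 ++ (lP12_5 ++ (lP12_6 ++ (lP12_7 ++ (lP12_8 ++ (lP12_9 ++ (lP12_10 ++ (lP12_11 ++ (lP12_12 ++ (lP12_13 ++ (lP12_14 ++ (lP12_15 ++ (lP12_16 ++ (lP12_17 ++ (lP12_18 ++ (lP12_19 ++ (lP12_20 ++ (lP12_21 ++ (lP12_22 ++ (lP12_23 ++ (lP12_24 ++ (lP12_25 ++ (lP12_26 ++ (lP12_27 ++ (lP12_28 ++ (lP12_29 ++ (lP12_30 ++ (lP12_31 ++ (lP12_32 ++ (lP12_33)))))))))))))))))))))))))))))))))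

/-- norms at radius 1536 -/
def NP12 : List ℕ := [(nat_lit 0), (nat_lit 0), (nat_lit 0), (nat_lit 0), (nat_lit 0), (nat_lit 0), (nat_lit 0), (nat_lit 0), (nat_lit 0), (nat_lit 4410501400340933843783516160000), (nat_lit 0), (nat_lit 0), (nat_lit 94111104536634927031048999010304), (nat_lit 184762888771644886781633004306432), (nat_lit 110543622437412513461917762715648), (nat_lit 103229161678419681570472832532480), (nat_lit 22944757197904062714968587370496), (nat_lit 0), (nat_lit 0), (nat_lit 0), (nat_lit 231091795083070456000181868429312), (nat_lit 428612387028434246327240088354816), (nat_lit 378637653777267327046968831639552), (nat_lit 345494884072588079869542638026752), (nat_lit 144957453039664740504518793363456), (nat_lit 0), (nat_lit 0), (nat_lit 541808503216238317317791764447232), (nat_lit 620181003865955521011338987962368), (nat_lit 715168538793639313381727013961728), (nat_lit 417975251635452047430142201430016), (nat_lit 124059401969615875537499448147968),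 (nat_lit 0), (nat_lit 0), (nat_lit 231091795083070456000181868429312), (nat_lit 620181003865955521011338987962368), (nat_lit 493436889690817924456492900024320), (nat_lit 991537384077479696790565806931968), (nat_lit 318482051959471219009774084423680), (nat_lit 0), (nat_lit 94111104536634927031048999010304), (nat_lit 428612387028434246327240088354816), (nat_lit 715168538793639313381727013961728), (nat_lit 991537384077479696790565806931968), (nat_lit 395742244383619797459409261559808), (nat_lit 0), (nat_lit 184762888771644886781633004306432), (nat_lit 378637653777267327046968831639552), (nat_lit 417975251635452047430142201430016), (nat_lit 318482051959471219009774084423680), (nat_lit 0), (nat_lit 110543622437412513461917762715648), (nat_lit 345494884072588079869542638026752), (nat_lit 124059401969615875537499448147968), (nat_lit 0), (nat_lit 103229161678419681570472832532480), (nat_lit 144957453039664740504518793363456), (nat_lit 0), (nat_lit 22944757197904062714968587370496),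 (nat_lit 0), (nat_lit 0), (nat_lit 0), (nat_lit 0), (nat_lit 99051383720646257854068027293696), (nat_lit 0), (nat_lit 0), (nat_lit 0), (nat_lit 0), (nat_lit 0), (nat_lit 231091795083070456000181868429312), (nat_lit 590617650999358551032994182725632), (nat_lit 378637653777267327046968831639552), (nat_lit 345494884072588079869542638026752), (nat_lit 144957453039664740504518793363456), (nat_lit 0), (nat_lit 0), (nat_lit 488124689344007603569875398688768), (nat_lit 1411098727225722677402677702295552), (nat_lit 1374369591008052757895213802848256), (nat_lit 1201545544025053208170421909716992), (nat_lit 362452744372705043325519057125376), (nat_lit 0), (nat_lit 0), (nat_lit 488124689344007603569875398688768), (nat_lit 1836388860653246381423919988998144), (nat_lit 1529693066368241174864351899680768), (nat_lit 1438414677721950086652835072573440), (nat_lit 745223465586490914289884164259840), (nat_lit 0), (nat_lit 231091795083070456000181868429312), (nat_lit 1411098727225722677402677702295552),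 (nat_lit 1529693066368241174864351899680768), (nat_lit 2404600065872221851631213304872960), (nat_lit 595131084266746165283306317283328), (nat_lit 0), (nat_lit 590617650999358551032994182725632), (nat_lit 1374369591008052757895213802848256), (nat_lit 1438414677721950086652835072573440), (nat_lit 595131084266746165283306317283328), (nat_lit 99051383720646257854068027293696), (nat_lit 378637653777267327046968831639552), (nat_lit 1201545544025053208170421909716992), (nat_lit 745223465586490914289884164259840), (nat_lit 0), (nat_lit 345494884072588079869542638026752), (nat_lit 362452744372705043325519057125376), (nat_lit 0), (nat_lit 144957453039664740504518793363456), (nat_lit 0), (nat_lit 0), (nat_lit 0), (nat_lit 0), (nat_lit 0), (nat_lit 328026669147209887397582047543296), (nat_lit 0), (nat_lit 0), (nat_lit 0), (nat_lit 0), (nat_lit 0), (nat_lit 541808503216238317317791764447232), (nat_lit 1019990267521033155128276602060800), (nat_lit 715168538793639313381727013961728),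 (nat_lit 417975251635452047430142201430016), (nat_lit 124059401969615875537499448147968), (nat_lit 0), (nat_lit 0), (nat_lit 488124689344007603569875398688768), (nat_lit 1749981515273395167948146907021312), (nat_lit 1529693066368241174864351899680768), (nat_lit 1438414677721950086652835072573440), (nat_lit 745223465586490914289884164259840), (nat_lit 0), (nat_lit 541808503216238317317791764447232), (nat_lit 1749981515273395167948146907021312), (nat_lit 2432632107897258782937565007708160), (nat_lit 2763782729825172523300070249988096), (nat_lit 1165114346879220067144858320502784), (nat_lit 0), (nat_lit 1019990267521033155128276602060800), (nat_lit 1529693066368241174864351899680768), (nat_lit 2763782729825172523300070249988096), (nat_lit 714136577958786384827589354061824), (nat_lit 328026669147209887397582047543296), (nat_lit 715168538793639313381727013961728), (nat_lit 1438414677721950086652835072573440), (nat_lit 1165114346879220067144858320502784), (nat_lit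 0), (nat_lit 417975251635452047430142201430016), (nat_lit 745223465586490914289884164259840), (nat_lit 0), (nat_lit 124059401969615875537499448147968), (nat_lit 0), (nat_lit 0), (nat_lit 0), (nat_lit 0), (nat_lit 821797529950472563112217300434944), (nat_lit 0), (nat_lit 0), (nat_lit 0), (nat_lit 0), (nat_lit 0), (nat_lit 231091795083070456000181868429312), (nat_lit 730192626956869112353051197308928), (nat_lit 493436889690817924456492900024320), (nat_lit 991537384077479696790565806931968), (nat_lit 318482051959471219009774084423680), (nat_lit 0), (nat_lit 231091795083070456000181868429312), (nat_lit 2505479560305751780173074837536768), (nat_lit 1529693066368241174864351899680768), (nat_lit 2404600065872221851631213304872960), (nat_lit 595131084266746165283306317283328), (nat_lit 0), (nat_lit 730192626956869112353051197308928), (nat_lit 1529693066368241174864351899680768), (nat_lit 2763782729825172523300070249988096), (nat_lit 714136577958786384827589354061824),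 (nat_lit 821797529950472563112217300434944), (nat_lit 493436889690817924456492900024320), (nat_lit 2404600065872221851631213304872960), (nat_lit 714136577958786384827589354061824), (nat_lit 0), (nat_lit 991537384077479696790565806931968), (nat_lit 595131084266746165283306317283328), (nat_lit 0), (nat_lit 318482051959471219009774084423680), (nat_lit 0), (nat_lit 0), (nat_lit 0), (nat_lit 0), (nat_lit 238614143368550432471997229301760), (nat_lit 0), (nat_lit 0), (nat_lit 0), (nat_lit 0), (nat_lit 94111104536634927031048999010304), (nat_lit 1501506016035783611698724330274816), (nat_lit 715168538793639313381727013961728), (nat_lit 991537384077479696790565806931968), (nat_lit 395742244383619797459409261559808), (nat_lit 0), (nat_lit 1501506016035783611698724330274816), (nat_lit 1374369591008052757895213802848256), (nat_lit 1438414677721950086652835072573440), (nat_lit 595131084266746165283306317283328), (nat_lit 238614143368550432471997229301760), (nat_lit 715168538793639313381727013961728),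 (nat_lit 1438414677721950086652835072573440), (nat_lit 1165114346879220067144858320502784), (nat_lit 0), (nat_lit 991537384077479696790565806931968), (nat_lit 595131084266746165283306317283328), (nat_lit 0), (nat_lit 395742244383619797459409261559808), (nat_lit 0), (nat_lit 0), (nat_lit 0), (nat_lit 821797529950472563112217300434944), (nat_lit 0), (nat_lit 0), (nat_lit 0), (nat_lit 0), (nat_lit 810151225893405595955749548195840), (nat_lit 378637653777267327046968831639552), (nat_lit 417975251635452047430142201430016), (nat_lit 318482051959471219009774084423680), (nat_lit 821797529950472563112217300434944), (nat_lit 378637653777267327046968831639552), (nat_lit 1201545544025053208170421909716992), (nat_lit 745223465586490914289884164259840), (nat_lit 0), (nat_lit 417975251635452047430142201430016), (nat_lit 745223465586490914289884164259840), (nat_lit 0), (nat_lit 318482051959471219009774084423680), (nat_lit 0), (nat_lit 0), (nat_lit 328026669147209887397582047543296),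 (nat_lit 0), (nat_lit 0), (nat_lit 0), (nat_lit 328026669147209887397582047543296), (nat_lit 110543622437412513461917762715648), (nat_lit 345494884072588079869542638026752), (nat_lit 124059401969615875537499448147968), (nat_lit 0), (nat_lit 345494884072588079869542638026752), (nat_lit 362452744372705043325519057125376), (nat_lit 0), (nat_lit 124059401969615875537499448147968), (nat_lit 0), (nat_lit 99051383720646257854068027293696), (nat_lit 0), (nat_lit 0), (nat_lit 0), (nat_lit 0), (nat_lit 103229161678419681570472832532480), (nat_lit 144957453039664740504518793363456), (nat_lit 0), (nat_lit 144957453039664740504518793363456), (nat_lit 0), (nat_lit 0), (nat_lit 0), (nat_lit 0), (nat_lit 0), (nat_lit 22944757197904062714968587370496), (nat_lit 0), (nat_lit 0), (nat_lit 0), (nat_lit 0), (nat_lit 0)]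


def lP22_0 : List (T ℤ) := [(P (nat_lit 0)), (M (nat_lit 4410501400340933843783516159999)), (P (nat_lit 0)), (P (nat_lit 0)), (T.h (T.h (T.h (M (nat_lit 470961987125908346733519175679)) (T.h (P (nat_lit 0)) (T.h (P (nat_lit 57899600867765543501824)) (T.h (P (nat_lit 0)) (M (nat_lit 846434129254809599)))))) (T.h (P (nat_lit 0)) (T.h (T.h (M (nat_lit 1942057638129030519586815)) (T.h (P (nat_lit 0)) (P (nat_lit 1192941709491699712)))) (T.h (P (nat_lit 0)) (M (nat_lit 3371299736341446655)))))) (T.h (T.h (P (nat_lit 0)) (T.h (T.h (P (nat_lit 0)) (T.h (P (nat_lit 538075358818507685888)) (T.h (P (nat_lit 0)) (M (nat_lit 1583080657387519))))) (T.h (P (nat_lit 0)) (T.h (T.h (P (nat_lit 0)) (M (nat_lit 598511274688511))) (P (nat_lit 0)))))) (T.h (T.h (T.h (M (nat_lit 1942057638129030519586815)) (T.h (P (nat_lit 0)) (P (nat_lit 1192941709491699712)))) (T.h (P (nat_lit 0)) (M (nat_lit 556449493575270399)))) (T.h (T.h (P (nat_lit 0)) (T.h (T.h (P (nat_lit 0)) (M (nat_lit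 598511274688511))) (P (nat_lit 0)))) (M (nat_lit 3371299736341446655)))))), (T.h (T.h (T.h (P (nat_lit 0)) (T.h (P (nat_lit 0)) (T.h (P (nat_lit 0)) (T.h (P (nat_lit 1386797677371080048640)) (T.h (P (nat_lit 0)) (M (nat_lit 520789253947391))))))) (T.h (P (nat_lit 0)) (T.h (T.h (P (nat_lit 0)) (T.h (M (nat_lit 1277770570003986251775)) (T.h (P (nat_lit 0)) (P (nat_lit 3212398805352448))))) (T.h (P (nat_lit 0)) (T.h (T.h (P (nat_lit 0)) (M (nat_lit 250554719240191))) (P (nat_lit 0))))))) (T.h (T.h (P (nat_lit 0)) (T.h (T.h (M (nat_lit 820044288225231356559359)) (T.h (P (nat_lit 0)) (P (nat_lit 1945289511797784576)))) (T.h (P (nat_lit 0)) (M (nat_lit 1172922028869550079))))) (T.h (T.h (T.h (P (nat_lit 0)) (T.h (P (nat_lit 1277770570003986251776)) (T.h (P (nat_lit 0)) (M (nat_lit 3212398805352447))))) (T.h (P (nat_lit 0)) (T.h (T.h (P (nat_lit 0)) (M (nat_lit 9472520804892671))) (P (nat_lit 0))))) (T.h (T.h (P (nat_lit 0)) (P (nat_lit 1172922028869550080))) (T.h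 (T.h (T.h (P (nat_lit 0)) (P (nat_lit 250554719240192))) (P (nat_lit 0))) (P (nat_lit 0))))))), (T.h (T.h (T.h (P (nat_lit 5874464779828831870272703299584)) (T.h (P (nat_lit 0)) (T.h (M (nat_lit 1408964967221915887337471)) (T.h (P (nat_lit 0)) (P (nat_lit 2917492293147557888)))))) (T.h (P (nat_lit 0)) (T.h (T.h (P (nat_lit 1789014615482866992152576)) (T.h (P (nat_lit 0)) (P (nat_lit 1418544840500576256)))) (T.h (P (nat_lit 0)) (P (nat_lit 2729902727365656576)))))) (T.h (T.h (P (nat_lit 0)) (T.h (T.h (P (nat_lit 0)) (T.h (P (nat_lit 101896397878233923584)) (T.h (P (nat_lit 0)) (P (nat_lit 2216312920342528))))) (P (nat_lit 0)))) (T.h (T.h (T.h (P (nat_lit 1789014615482866992152576)) (T.h (P (nat_lit 0)) (P (nat_lit 1418544840500576256)))) (T.h (P (nat_lit 0)) (P (nat_lit 2005410347908857856)))) (T.h (P (nat_lit 0)) (P (nat_lit 2729902727365656576)))))), (T.h (T.h (T.h (P (nat_lit 0)) (T.h (P (nat_lit 0)) (T.h (P (nat_lit 0)) (T.h (M (nat_lit 1386797677371080048639))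 (T.h (P (nat_lit 0)) (P (nat_lit 520789253947392))))))) (P (nat_lit 0))) (T.h (T.h (P (nat_lit 0)) (T.h (T.h (P (nat_lit 820044288225231356559360)) (T.h (P (nat_lit 0)) (M (nat_lit 1945289511797784575)))) (P (nat_lit 0)))) (T.h (T.h (P (nat_lit 0)) (T.h (P (nat_lit 0)) (T.h (T.h (P (nat_lit 0)) (P (nat_lit 9472520804892672))) (P (nat_lit 0))))) (P (nat_lit 0)))))]
def lP22_1 : List (T ℤ) := [(T.h (T.h (T.h (P (nat_lit 0)) (T.h (P (nat_lit 0)) (T.h (P (nat_lit 0)) (T.h (P (nat_lit 0)) (M (nat_lit 888813660070215679)))))) (P (nat_lit 0))) (T.h (P (nat_lit 0)) (T.h (T.h (P (nat_lit 0)) (T.h (P (nat_lit 0)) (M (nat_lit 3233287101403365375)))) (P (nat_lit 0))))), (P (nat_lit 0)), (P (nat_lit 0)), (P (nat_lit 0)), (T.h (T.h (P (nat_lit 0)) (T.h (T.h (P (nat_lit 0)) (T.h (M (nat_lit 14280217490853106859114495)) (T.h (P (nat_lit 0)) (M (nat_lit 5463924327831306239))))) (T.h (P (nat_lit 0)) (T.h (T.h (P (nat_lit 0)) (P (nat_lit 3431769517741572096))) (P (nat_lit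 0)))))) (T.h (T.h (T.h (P (nat_lit 2442310398557518728414625792)) (T.h (P (nat_lit 0)) (T.h (P (nat_lit 10983023708140231196672)) (T.h (P (nat_lit 0)) (M (nat_lit 664208017784831)))))) (T.h (P (nat_lit 0)) (T.h (T.h (M (nat_lit 3047215125714868109311)) (T.h (P (nat_lit 0)) (P (nat_lit 3547622079004672)))) (T.h (P (nat_lit 0)) (M (nat_lit 1626567914815487)))))) (T.h (T.h (P (nat_lit 0)) (T.h (T.h (P (nat_lit 0)) (P (nat_lit 3565072346572128256))) (P (nat_lit 0)))) (T.h (T.h (T.h (P (nat_lit 3679752308041006972928)) (T.h (P (nat_lit 0)) (M (nat_lit 1039951104770047)))) (T.h (P (nat_lit 0)) (P (nat_lit 140431119548416)))) (T.h (P (nat_lit 0)) (M (nat_lit 11815390019583))))))), (T.h (T.h (P (nat_lit 0)) (T.h (T.h (P (nat_lit 22549686110619622894297153536)) (T.h (P (nat_lit 0)) (T.h (P (nat_lit 538372468300809502720)) (T.h (P (nat_lit 0)) (P (nat_lit 537820007137280)))))) (T.h (P (nat_lit 0)) (T.h (T.h (P (nat_lit 4987765701830972014592)) (T.h (P (nat_lit 0))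 (P (nat_lit 3255958531735552)))) (T.h (P (nat_lit 0)) (P (nat_lit 129108033208320))))))) (T.h (T.h (T.h (P (nat_lit 0)) (T.h (M (nat_lit 8807245776857616942628863)) (T.h (P (nat_lit 0)) (M (nat_lit 5996092034685861887))))) (T.h (P (nat_lit 0)) (T.h (T.h (P (nat_lit 0)) (M (nat_lit 7115061308898148351))) (P (nat_lit 0))))) (T.h (T.h (P (nat_lit 0)) (T.h (T.h (M (nat_lit 4276355499288042668031)) (T.h (P (nat_lit 0)) (M (nat_lit 17651129576325119)))) (T.h (P (nat_lit 0)) (M (nat_lit 1762998010347519))))) (T.h (T.h (T.h (P (nat_lit 0)) (P (nat_lit 5476563799450320896))) (P (nat_lit 0))) (T.h (T.h (P (nat_lit 0)) (P (nat_lit 4056569522847744))) (P (nat_lit 0))))))), (T.h (T.h (P (nat_lit 0)) (T.h (T.h (P (nat_lit 0)) (T.h (P (nat_lit 16159129519095628567674880)) (T.h (P (nat_lit 0)) (P (nat_lit 8662173632501383168))))) (T.h (P (nat_lit 0)) (T.h (T.h (P (nat_lit 0)) (P (nat_lit 3256229217427259392))) (P (nat_lit 0)))))) (T.h (T.h (T.h (M (nat_lit 3147316493728592057340002303))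 (T.h (P (nat_lit 0)) (T.h (M (nat_lit 4041870850466806497279)) (T.h (P (nat_lit 0)) (P (nat_lit 2925128420229120)))))) (T.h (P (nat_lit 0)) (T.h (T.h (P (nat_lit 835233424690865242112)) (T.h (P (nat_lit 0)) (M (nat_lit 11975517620469759)))) (T.h (P (nat_lit 0)) (M (nat_lit 1036859366244351)))))) (T.h (T.h (P (nat_lit 0)) (T.h (T.h (P (nat_lit 0)) (P (nat_lit 14223229982607409152))) (P (nat_lit 0)))) (T.h (T.h (T.h (M (nat_lit 4524051548051001573375)) (T.h (P (nat_lit 0)) (P (nat_lit 822254790705152)))) (T.h (P (nat_lit 0)) (M (nat_lit 652816732782591)))) (T.h (P (nat_lit 0)) (P (nat_lit 845034740580352))))))), (T.h (T.h (P (nat_lit 0)) (T.h (T.h (M (nat_lit 23308674508616954859992645631)) (T.h (P (nat_lit 0)) (T.h (M (nat_lit 6403020190384731979775)) (T.h (P (nat_lit 0)) (P (nat_lit 4525130102341632)))))) (T.h (P (nat_lit 0)) (T.h (T.h (M (nat_lit 3679868749620923334655)) (T.h (P (nat_lit 0)) (M (nat_lit 421025460584447)))) (T.h (P (nat_lit 0)) (M (nat_lit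 1405125303336959))))))) (T.h (T.h (T.h (P (nat_lit 0)) (T.h (P (nat_lit 6699686972814614291546112)) (T.h (P (nat_lit 0)) (P (nat_lit 5598175807563366400))))) (T.h (P (nat_lit 0)) (T.h (T.h (P (nat_lit 0)) (P (nat_lit 7082019746996027392))) (P (nat_lit 0))))) (T.h (T.h (P (nat_lit 0)) (T.h (T.h (M (nat_lit 566177892511311200255)) (T.h (P (nat_lit 0)) (P (nat_lit 5418969469157376)))) (T.h (P (nat_lit 0)) (M (nat_lit 599549196042239))))) (T.h (T.h (T.h (P (nat_lit 0)) (M (nat_lit 8771602870383411199))) (P (nat_lit 0))) (T.h (T.h (P (nat_lit 0)) (M (nat_lit 3523974070075391))) (P (nat_lit 0)))))))]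
def lP22_2 : List (T ℤ) := [(T.h (T.h (P (nat_lit 0)) (T.h (T.h (P (nat_lit 0)) (T.h (P (nat_lit 2424682419920877020774400)) (T.h (P (nat_lit 0)) (M (nat_lit 6178310966397108223))))) (T.h (P (nat_lit 0)) (T.h (T.h (P (nat_lit 0)) (P (nat_lit 287420047758983168))) (P (nat_lit 0)))))) (T.h (T.h (T.h (M (nat_lit 279908450380878969705594879)) (T.h (P (nat_lit 0)) (M (nat_lit 9901917847013963071487)))) (T.h (P (nat_lit 0)) (M (nat_lit 25474099469558480895)))) (T.h (T.h (P (nat_lit 0)) (T.h (T.h (P (nat_lit 0)) (M (nat_lit 10165924027084832767))) (P (nat_lit 0)))) (P (nat_lit 2829812515106405220352))))), (P (nat_lit 0)), (P (nat_lit 0)), (P (nat_lit 0)), (T.h (T.h (T.h (M (nat_lit 231541330990421274629362417663)) (T.h (P (nat_lit 0)) (T.h (M (nat_lit 3569015244786354544967679)) (T.h (P (nat_lit 0)) (P (nat_lit 631264490440097792)))))) (T.h (P (nat_lit 0)) (T.h (T.h (M (nat_lit 3569015244786354544967679)) (T.h (P (nat_lit 0)) (M (nat_lit 40000117314756280319))))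 (T.h (P (nat_lit 0)) (P (nat_lit 631264490440097792)))))) (T.h (T.h (P (nat_lit 0)) (T.h (T.h (P (nat_lit 0)) (T.h (M (nat_lit 36647654013845643460607)) (T.h (P (nat_lit 0)) (M (nat_lit 3493448433926143))))) (T.h (P (nat_lit 0)) (T.h (T.h (P (nat_lit 0)) (M (nat_lit 3493448433926143))) (P (nat_lit 0)))))) (T.h (T.h (T.h (P (nat_lit 0)) (T.h (P (nat_lit 0)) (P (nat_lit 4235541714296635392)))) (T.h (P (nat_lit 0)) (P (nat_lit 4235541714296635392)))) (T.h (T.h (P (nat_lit 0)) (T.h (T.h (P (nat_lit 0)) (M (nat_lit 6475149598654463))) (P (nat_lit 0)))) (P (nat_lit 0)))))), (T.h (T.h (T.h (P (nat_lit 0)) (T.h (P (nat_lit 32656553038288046060575129600)) (T.h (P (nat_lit 0)) (T.h (P (nat_lit 7363688533803120197632)) (T.h (P (nat_lit 0)) (M (nat_lit 220796630335487))))))) (T.h (P (nat_lit 0)) (T.h (T.h (P (nat_lit 0)) (T.h (P (nat_lit 30084483994422802907136)) (T.h (P (nat_lit 0)) (M (nat_lit 3689423423733759))))) (T.h (P (nat_lit 0)) (T.h (T.h (P (nat_lit 0)) (M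 (nat_lit 3645792647774207))) (P (nat_lit 0))))))) (T.h (T.h (P (nat_lit 0)) (T.h (T.h (P (nat_lit 18361088292942342694895616)) (T.h (P (nat_lit 0)) (M (nat_lit 13036727460421435391)))) (T.h (P (nat_lit 0)) (M (nat_lit 2157869546520707071))))) (T.h (T.h (T.h (P (nat_lit 0)) (T.h (M (nat_lit 15880694973642691313663)) (T.h (P (nat_lit 0)) (P (nat_lit 12141505585938432))))) (T.h (P (nat_lit 0)) (T.h (T.h (P (nat_lit 0)) (P (nat_lit 5600629794930688))) (P (nat_lit 0))))) (T.h (T.h (P (nat_lit 0)) (P (nat_lit 5552322172325724160))) (T.h (T.h (T.h (P (nat_lit 0)) (M (nat_lit 194936912609279))) (P (nat_lit 0))) (P (nat_lit 0))))))), (T.h (T.h (T.h (P (nat_lit 0)) (T.h (P (nat_lit 0)) (T.h (M (nat_lit 202648603037179402256383)) (T.h (P (nat_lit 0)) (M (nat_lit 3437973054217519103)))))) (T.h (P (nat_lit 0)) (T.h (T.h (P (nat_lit 12490453405460551285342208)) (T.h (P (nat_lit 0)) (P (nat_lit 49740724873375776768)))) (T.h (P (nat_lit 0)) (P (nat_lit 812847327025823744))))))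 (T.h (T.h (P (nat_lit 0)) (T.h (T.h (P (nat_lit 0)) (T.h (P (nat_lit 40872332593621807136768)) (T.h (P (nat_lit 0)) (P (nat_lit 5870480457662464))))) (T.h (P (nat_lit 0)) (T.h (T.h (P (nat_lit 0)) (M (nat_lit 2868643210854399))) (P (nat_lit 0)))))) (T.h (T.h (T.h (P (nat_lit 0)) (T.h (P (nat_lit 0)) (M (nat_lit 10793703863186620415)))) (T.h (P (nat_lit 0)) (P (nat_lit 6890058237970743296)))) (T.h (T.h (P (nat_lit 0)) (T.h (T.h (P (nat_lit 0)) (P (nat_lit 7058222133673984))) (P (nat_lit 0)))) (M (nat_lit 552709772135104511)))))), (T.h (T.h (T.h (P (nat_lit 0)) (T.h (M (nat_lit 28594865004676513644159172607)) (T.h (P (nat_lit 0)) (M (nat_lit 5040543764096126812159))))) (T.h (P (nat_lit 0)) (T.h (T.h (P (nat_lit 0)) (T.h (M (nat_lit 21528506760766722932735)) (T.h (P (nat_lit 0)) (P (nat_lit 154781880287232))))) (T.h (P (nat_lit 0)) (T.h (T.h (P (nat_lit 0)) (P (nat_lit 3398585621741568))) (P (nat_lit 0))))))) (T.h (T.h (P (nat_lit 0)) (T.h (T.h (M (nat_lit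 11966167736419842051276799)) (T.h (P (nat_lit 0)) (P (nat_lit 23557292345440337920)))) (T.h (P (nat_lit 0)) (P (nat_lit 2052704746300506112))))) (T.h (T.h (T.h (P (nat_lit 0)) (T.h (P (nat_lit 9192677989439676350464)) (T.h (P (nat_lit 0)) (P (nat_lit 738651429666816))))) (P (nat_lit 0))) (T.h (T.h (P (nat_lit 0)) (M (nat_lit 3731991322861502463))) (T.h (T.h (T.h (P (nat_lit 0)) (P (nat_lit 1895257306300416))) (P (nat_lit 0))) (P (nat_lit 0)))))))]
def lP22_3 : List (T ℤ) := [(T.h (T.h (T.h (P (nat_lit 14562162258249013777924918083584)) (T.h (P (nat_lit 0)) (T.h (P (nat_lit 5400635009370655693996032)) (T.h (P (nat_lit 0)) (M (nat_lit 1544577741599277055)))))) (T.h (P (nat_lit 0)) (T.h (T.h (M (nat_lit 1586501907438543587770367)) (T.h (P (nat_lit 0)) (P (nat_lit 272633426224349184)))) (T.h (P (nat_lit 0)) (P (nat_lit 1238029958807289856)))))) (T.h (T.h (P (nat_lit 0)) (T.h (T.h (P (nat_lit 0)) (M (nat_lit 14866527205867955159039))) (P (nat_lit 0)))) (T.h (T.h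 (T.h (P (nat_lit 472108168470894989017088)) (T.h (P (nat_lit 0)) (M (nat_lit 2606053976117870591)))) (T.h (P (nat_lit 0)) (P (nat_lit 613938376747253760)))) (T.h (P (nat_lit 0)) (P (nat_lit 555935322035191808)))))), (P (nat_lit 0)), (P (nat_lit 0)), (T.h (T.h (P (nat_lit 0)) (T.h (T.h (P (nat_lit 0)) (T.h (M (nat_lit 14280217490853106859114495)) (T.h (P (nat_lit 0)) (P (nat_lit 3431769517741572096))))) (T.h (P (nat_lit 0)) (T.h (T.h (P (nat_lit 0)) (M (nat_lit 5463924327831306239))) (P (nat_lit 0)))))) (T.h (T.h (T.h (P (nat_lit 2442310398557518728414625792)) (T.h (P (nat_lit 0)) (T.h (M (nat_lit 3047215125714868109311)) (T.h (P (nat_lit 0)) (M (nat_lit 1626567914815487)))))) (T.h (P (nat_lit 0)) (T.h (T.h (P (nat_lit 10983023708140231196672)) (T.h (P (nat_lit 0)) (P (nat_lit 3547622079004672)))) (T.h (P (nat_lit 0)) (M (nat_lit 664208017784831)))))) (T.h (T.h (P (nat_lit 0)) (T.h (T.h (P (nat_lit 0)) (P (nat_lit 3565072346572128256))) (P (nat_lit 0))))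 (T.h (T.h (T.h (P (nat_lit 3679752308041006972928)) (T.h (P (nat_lit 0)) (P (nat_lit 140431119548416)))) (T.h (P (nat_lit 0)) (M (nat_lit 1039951104770047)))) (T.h (P (nat_lit 0)) (M (nat_lit 11815390019583))))))), (T.h (T.h (P (nat_lit 0)) (T.h (T.h (P (nat_lit 32656553038288046060575129600)) (T.h (P (nat_lit 0)) (T.h (P (nat_lit 30084483994422802907136)) (T.h (P (nat_lit 0)) (M (nat_lit 3645792647774207)))))) (T.h (P (nat_lit 0)) (T.h (T.h (P (nat_lit 7363688533803120197632)) (T.h (P (nat_lit 0)) (M (nat_lit 3689423423733759)))) (T.h (P (nat_lit 0)) (M (nat_lit 220796630335487))))))) (T.h (T.h (T.h (P (nat_lit 0)) (T.h (P (nat_lit 18361088292942342694895616)) (T.h (P (nat_lit 0)) (M (nat_lit 2157869546520707071))))) (T.h (P (nat_lit 0)) (T.h (T.h (P (nat_lit 0)) (M (nat_lit 13036727460421435391))) (P (nat_lit 0))))) (T.h (T.h (P (nat_lit 0)) (T.h (T.h (M (nat_lit 15880694973642691313663)) (T.h (P (nat_lit 0)) (P (nat_lit 5600629794930688)))) (T.h (P (nat_lit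 0)) (P (nat_lit 12141505585938432))))) (T.h (T.h (T.h (P (nat_lit 0)) (P (nat_lit 5552322172325724160))) (P (nat_lit 0))) (T.h (T.h (P (nat_lit 0)) (M (nat_lit 194936912609279))) (P (nat_lit 0))))))), (T.h (T.h (P (nat_lit 0)) (T.h (T.h (P (nat_lit 0)) (T.h (P (nat_lit 40543104508391291520811008)) (T.h (P (nat_lit 0)) (P (nat_lit 16121777625906544640))))) (T.h (P (nat_lit 0)) (T.h (T.h (P (nat_lit 0)) (P (nat_lit 16121777625906544640))) (P (nat_lit 0)))))) (T.h (T.h (T.h (P (nat_lit 2120122278237486535193657344)) (T.h (P (nat_lit 0)) (T.h (M (nat_lit 6397935496113302798335)) (T.h (P (nat_lit 0)) (P (nat_lit 3993105336041472)))))) (T.h (P (nat_lit 0)) (T.h (T.h (M (nat_lit 6397935496113302798335)) (T.h (P (nat_lit 0)) (M (nat_lit 786403700375551)))) (T.h (P (nat_lit 0)) (P (nat_lit 3993105336041472)))))) (T.h (T.h (P (nat_lit 0)) (T.h (T.h (P (nat_lit 0)) (M (nat_lit 8197742967738335231))) (P (nat_lit 0)))) (T.h (T.h (T.h (M (nat_lit 1352678270254679326719))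 (T.h (P (nat_lit 0)) (P (nat_lit 2523038380785664)))) (T.h (P (nat_lit 0)) (P (nat_lit 2523038380785664)))) (P (nat_lit 0)))))), (T.h (T.h (P (nat_lit 0)) (T.h (T.h (M (nat_lit 53085522036960781581477216255)) (T.h (P (nat_lit 0)) (T.h (M (nat_lit 31270315920543543459839)) (T.h (P (nat_lit 0)) (P (nat_lit 10558192468033536)))))) (T.h (P (nat_lit 0)) (T.h (T.h (M (nat_lit 10242234231096952750079)) (T.h (P (nat_lit 0)) (P (nat_lit 9875747953508352)))) (T.h (P (nat_lit 0)) (M (nat_lit 1149341850599423))))))) (T.h (T.h (T.h (P (nat_lit 0)) (T.h (P (nat_lit 578291697487330404204544)) (T.h (P (nat_lit 0)) (M (nat_lit 17820622312014086143))))) (T.h (P (nat_lit 0)) (T.h (T.h (P (nat_lit 0)) (P (nat_lit 2224995150961049600))) (P (nat_lit 0))))) (T.h (T.h (P (nat_lit 0)) (T.h (T.h (P (nat_lit 8590939794117415141376)) (T.h (P (nat_lit 0)) (P (nat_lit 34062600577941504)))) (T.h (P (nat_lit 0)) (P (nat_lit 5577055310118912))))) (T.h (T.h (T.h (P (nat_lit 0)) (M (nat_lit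 3541372019637485567))) (P (nat_lit 0))) (T.h (T.h (P (nat_lit 0)) (M (nat_lit 8459720275525631))) (P (nat_lit 0))))))), (T.h (T.h (P (nat_lit 0)) (T.h (T.h (P (nat_lit 0)) (T.h (M (nat_lit 7693749846238283348049919)) (T.h (P (nat_lit 0)) (M (nat_lit 14521116546631204863))))) (T.h (P (nat_lit 0)) (T.h (T.h (P (nat_lit 0)) (M (nat_lit 11382046171812855807))) (P (nat_lit 0)))))) (T.h (T.h (T.h (M (nat_lit 4996804256147560436517044223)) (T.h (P (nat_lit 0)) (P (nat_lit 4296544144108300533760)))) (T.h (P (nat_lit 0)) (P (nat_lit 257028261180969320448)))) (T.h (T.h (P (nat_lit 0)) (T.h (T.h (P (nat_lit 0)) (M (nat_lit 23253401994541400063))) (P (nat_lit 0)))) (P (nat_lit 699374331989025882112)))))]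
def lP22_4 : List (T ℤ) := [(P (nat_lit 0)), (P (nat_lit 0)), (T.h (T.h (T.h (M (nat_lit 470961987125908346733519175679)) (T.h (P (nat_lit 0)) (T.h (M (nat_lit 1942057638129030519586815)) (T.h (P (nat_lit 0)) (M (nat_lit 3371299736341446655)))))) (T.h (P (nat_lit 0)) (T.h (T.h (P (nat_lit 57899600867765543501824)) (T.h (P (nat_lit 0)) (P (nat_lit 1192941709491699712)))) (T.h (P (nat_lit 0)) (M (nat_lit 846434129254809599)))))) (T.h (T.h (P (nat_lit 0)) (T.h (T.h (P (nat_lit 0)) (T.h (P (nat_lit 538075358818507685888)) (T.h (P (nat_lit 0)) (M (nat_lit 598511274688511))))) (T.h (P (nat_lit 0)) (T.h (T.h (P (nat_lit 0)) (M (nat_lit 1583080657387519))) (P (nat_lit 0)))))) (T.h (T.h (T.h (M (nat_lit 1942057638129030519586815)) (T.h (P (nat_lit 0)) (M (nat_lit 556449493575270399)))) (T.h (P (nat_lit 0)) (P (nat_lit 1192941709491699712)))) (T.h (T.h (P (nat_lit 0)) (T.h (T.h (P (nat_lit 0)) (M (nat_lit 598511274688511))) (P (nat_lit 0)))) (M (nat_lit 3371299736341446655)))))),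 (T.h (T.h (T.h (P (nat_lit 0)) (T.h (P (nat_lit 22549686110619622894297153536)) (T.h (P (nat_lit 0)) (T.h (P (nat_lit 4987765701830972014592)) (T.h (P (nat_lit 0)) (P (nat_lit 129108033208320))))))) (T.h (P (nat_lit 0)) (T.h (T.h (P (nat_lit 0)) (T.h (P (nat_lit 538372468300809502720)) (T.h (P (nat_lit 0)) (P (nat_lit 3255958531735552))))) (T.h (P (nat_lit 0)) (T.h (T.h (P (nat_lit 0)) (P (nat_lit 537820007137280))) (P (nat_lit 0))))))) (T.h (T.h (P (nat_lit 0)) (T.h (T.h (M (nat_lit 8807245776857616942628863)) (T.h (P (nat_lit 0)) (M (nat_lit 7115061308898148351)))) (T.h (P (nat_lit 0)) (M (nat_lit 5996092034685861887))))) (T.h (T.h (T.h (P (nat_lit 0)) (T.h (M (nat_lit 4276355499288042668031)) (T.h (P (nat_lit 0)) (M (nat_lit 1762998010347519))))) (T.h (P (nat_lit 0)) (T.h (T.h (P (nat_lit 0)) (M (nat_lit 17651129576325119))) (P (nat_lit 0))))) (T.h (T.h (P (nat_lit 0)) (P (nat_lit 5476563799450320896))) (T.h (T.h (T.h (P (nat_lit 0)) (P (nat_lit 4056569522847744)))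 (P (nat_lit 0))) (P (nat_lit 0))))))), (T.h (T.h (T.h (P (nat_lit 0)) (T.h (P (nat_lit 0)) (T.h (P (nat_lit 12490453405460551285342208)) (T.h (P (nat_lit 0)) (P (nat_lit 812847327025823744)))))) (T.h (P (nat_lit 0)) (T.h (T.h (M (nat_lit 202648603037179402256383)) (T.h (P (nat_lit 0)) (P (nat_lit 49740724873375776768)))) (T.h (P (nat_lit 0)) (M (nat_lit 3437973054217519103)))))) (T.h (T.h (P (nat_lit 0)) (T.h (T.h (P (nat_lit 0)) (T.h (P (nat_lit 40872332593621807136768)) (T.h (P (nat_lit 0)) (M (nat_lit 2868643210854399))))) (T.h (P (nat_lit 0)) (T.h (T.h (P (nat_lit 0)) (P (nat_lit 5870480457662464))) (P (nat_lit 0)))))) (T.h (T.h (T.h (P (nat_lit 0)) (T.h (P (nat_lit 0)) (P (nat_lit 6890058237970743296)))) (T.h (P (nat_lit 0)) (M (nat_lit 10793703863186620415)))) (T.h (T.h (P (nat_lit 0)) (T.h (T.h (P (nat_lit 0)) (P (nat_lit 7058222133673984))) (P (nat_lit 0)))) (M (nat_lit 552709772135104511)))))), (T.h (T.h (T.h (P (nat_lit 0)) (T.h (M (nat_lit 53085522036960781581477216255))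 (T.h (P (nat_lit 0)) (T.h (M (nat_lit 10242234231096952750079)) (T.h (P (nat_lit 0)) (M (nat_lit 1149341850599423))))))) (T.h (P (nat_lit 0)) (T.h (T.h (P (nat_lit 0)) (T.h (M (nat_lit 31270315920543543459839)) (T.h (P (nat_lit 0)) (P (nat_lit 9875747953508352))))) (T.h (P (nat_lit 0)) (T.h (T.h (P (nat_lit 0)) (P (nat_lit 10558192468033536))) (P (nat_lit 0))))))) (T.h (T.h (P (nat_lit 0)) (T.h (T.h (P (nat_lit 578291697487330404204544)) (T.h (P (nat_lit 0)) (P (nat_lit 2224995150961049600)))) (T.h (P (nat_lit 0)) (M (nat_lit 17820622312014086143))))) (T.h (T.h (T.h (P (nat_lit 0)) (T.h (P (nat_lit 8590939794117415141376)) (T.h (P (nat_lit 0)) (P (nat_lit 5577055310118912))))) (T.h (P (nat_lit 0)) (T.h (T.h (P (nat_lit 0)) (P (nat_lit 34062600577941504))) (P (nat_lit 0))))) (T.h (T.h (P (nat_lit 0)) (M (nat_lit 3541372019637485567))) (T.h (T.h (T.h (P (nat_lit 0)) (M (nat_lit 8459720275525631))) (P (nat_lit 0))) (P (nat_lit 0))))))), (T.h (T.h (T.h (P (nat_lit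 26617841765287406009037398999040)) (T.h (P (nat_lit 0)) (T.h (M (nat_lit 129977362024824844582911)) (T.h (P (nat_lit 0)) (M (nat_lit 1642319604065763327)))))) (T.h (P (nat_lit 0)) (T.h (T.h (M (nat_lit 129977362024824844582911)) (T.h (P (nat_lit 0)) (M (nat_lit 20225531808785104895)))) (T.h (P (nat_lit 0)) (M (nat_lit 1642319604065763327)))))) (T.h (T.h (P (nat_lit 0)) (T.h (T.h (P (nat_lit 0)) (P (nat_lit 1028113044723877281792))) (P (nat_lit 0)))) (T.h (T.h (T.h (M (nat_lit 3714307327027633757093887)) (T.h (P (nat_lit 0)) (M (nat_lit 17337605634832465919)))) (T.h (P (nat_lit 0)) (M (nat_lit 17337605634832465919)))) (T.h (P (nat_lit 0)) (P (nat_lit 5775169041425498112)))))), (P (nat_lit 0))]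
def lP22_5 : List (T ℤ) := [(P (nat_lit 0)), (T.h (T.h (P (nat_lit 0)) (T.h (T.h (P (nat_lit 0)) (T.h (P (nat_lit 0)) (T.h (M (nat_lit 1277770570003986251775)) (T.h (P (nat_lit 0)) (M (nat_lit 250554719240191)))))) (T.h (P (nat_lit 0)) (T.h (T.h (P (nat_lit 1386797677371080048640)) (T.h (P (nat_lit 0)) (P (nat_lit 3212398805352448)))) (T.h (P (nat_lit 0)) (M (nat_lit 520789253947391))))))) (T.h (T.h (T.h (P (nat_lit 0)) (T.h (M (nat_lit 820044288225231356559359)) (T.h (P (nat_lit 0)) (M (nat_lit 1172922028869550079))))) (T.h (P (nat_lit 0)) (T.h (T.h (P (nat_lit 0)) (P (nat_lit 1945289511797784576))) (P (nat_lit 0))))) (T.h (T.h (P (nat_lit 0)) (T.h (T.h (P (nat_lit 1277770570003986251776)) (T.h (P (nat_lit 0)) (M (nat_lit 9472520804892671)))) (T.h (P (nat_lit 0)) (M (nat_lit 3212398805352447))))) (T.h (T.h (T.h (P (nat_lit 0)) (P (nat_lit 1172922028869550080))) (P (nat_lit 0))) (T.h (T.h (P (nat_lit 0)) (P (nat_lit 250554719240192))) (P (nat_lit 0))))))),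 (T.h (T.h (P (nat_lit 0)) (T.h (T.h (P (nat_lit 0)) (T.h (P (nat_lit 16159129519095628567674880)) (T.h (P (nat_lit 0)) (P (nat_lit 3256229217427259392))))) (T.h (P (nat_lit 0)) (T.h (T.h (P (nat_lit 0)) (P (nat_lit 8662173632501383168))) (P (nat_lit 0)))))) (T.h (T.h (T.h (M (nat_lit 3147316493728592057340002303)) (T.h (P (nat_lit 0)) (T.h (P (nat_lit 835233424690865242112)) (T.h (P (nat_lit 0)) (M (nat_lit 1036859366244351)))))) (T.h (P (nat_lit 0)) (T.h (T.h (M (nat_lit 4041870850466806497279)) (T.h (P (nat_lit 0)) (M (nat_lit 11975517620469759)))) (T.h (P (nat_lit 0)) (P (nat_lit 2925128420229120)))))) (T.h (T.h (P (nat_lit 0)) (T.h (T.h (P (nat_lit 0)) (P (nat_lit 14223229982607409152))) (P (nat_lit 0)))) (T.h (T.h (T.h (M (nat_lit 4524051548051001573375)) (T.h (P (nat_lit 0)) (M (nat_lit 652816732782591)))) (T.h (P (nat_lit 0)) (P (nat_lit 822254790705152)))) (T.h (P (nat_lit 0)) (P (nat_lit 845034740580352))))))), (T.h (T.h (P (nat_lit 0)) (T.h (T.h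 (M (nat_lit 28594865004676513644159172607)) (T.h (P (nat_lit 0)) (T.h (M (nat_lit 21528506760766722932735)) (T.h (P (nat_lit 0)) (P (nat_lit 3398585621741568)))))) (T.h (P (nat_lit 0)) (T.h (T.h (M (nat_lit 5040543764096126812159)) (T.h (P (nat_lit 0)) (P (nat_lit 154781880287232)))) (P (nat_lit 0)))))) (T.h (T.h (T.h (P (nat_lit 0)) (T.h (M (nat_lit 11966167736419842051276799)) (T.h (P (nat_lit 0)) (P (nat_lit 2052704746300506112))))) (T.h (P (nat_lit 0)) (T.h (T.h (P (nat_lit 0)) (P (nat_lit 23557292345440337920))) (P (nat_lit 0))))) (T.h (T.h (P (nat_lit 0)) (T.h (P (nat_lit 9192677989439676350464)) (T.h (P (nat_lit 0)) (P (nat_lit 738651429666816))))) (T.h (T.h (T.h (P (nat_lit 0)) (M (nat_lit 3731991322861502463))) (P (nat_lit 0))) (T.h (T.h (P (nat_lit 0)) (P (nat_lit 1895257306300416))) (P (nat_lit 0))))))), (T.h (T.h (P (nat_lit 0)) (T.h (T.h (P (nat_lit 0)) (T.h (M (nat_lit 7693749846238283348049919)) (T.h (P (nat_lit 0)) (M (nat_lit 11382046171812855807)))))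 (T.h (P (nat_lit 0)) (T.h (T.h (P (nat_lit 0)) (M (nat_lit 14521116546631204863))) (P (nat_lit 0)))))) (T.h (T.h (T.h (M (nat_lit 4996804256147560436517044223)) (T.h (P (nat_lit 0)) (P (nat_lit 257028261180969320448)))) (T.h (P (nat_lit 0)) (P (nat_lit 4296544144108300533760)))) (T.h (T.h (P (nat_lit 0)) (T.h (T.h (P (nat_lit 0)) (M (nat_lit 23253401994541400063))) (P (nat_lit 0)))) (P (nat_lit 699374331989025882112))))), (P (nat_lit 0)), (P (nat_lit 0)), (T.h (T.h (T.h (P (nat_lit 5874464779828831870272703299584)) (T.h (P (nat_lit 0)) (T.h (P (nat_lit 1789014615482866992152576)) (T.h (P (nat_lit 0)) (P (nat_lit 2729902727365656576)))))) (T.h (P (nat_lit 0)) (T.h (T.h (M (nat_lit 1408964967221915887337471)) (T.h (P (nat_lit 0)) (P (nat_lit 1418544840500576256)))) (T.h (P (nat_lit 0)) (P (nat_lit 2917492293147557888)))))) (T.h (T.h (P (nat_lit 0)) (T.h (T.h (P (nat_lit 0)) (P (nat_lit 101896397878233923584))) (T.h (P (nat_lit 0)) (T.h (T.h (P (nat_lit 0))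 (P (nat_lit 2216312920342528))) (P (nat_lit 0)))))) (T.h (T.h (T.h (P (nat_lit 1789014615482866992152576)) (T.h (P (nat_lit 0)) (P (nat_lit 2005410347908857856)))) (T.h (P (nat_lit 0)) (P (nat_lit 1418544840500576256)))) (T.h (P (nat_lit 0)) (P (nat_lit 2729902727365656576))))))]
def lP22_6 : List (T ℤ) := [(T.h (T.h (T.h (P (nat_lit 0)) (T.h (M (nat_lit 23308674508616954859992645631)) (T.h (P (nat_lit 0)) (T.h (M (nat_lit 3679868749620923334655)) (T.h (P (nat_lit 0)) (M (nat_lit 1405125303336959))))))) (T.h (P (nat_lit 0)) (T.h (T.h (P (nat_lit 0)) (T.h (M (nat_lit 6403020190384731979775)) (T.h (P (nat_lit 0)) (M (nat_lit 421025460584447))))) (T.h (P (nat_lit 0)) (T.h (T.h (P (nat_lit 0)) (P (nat_lit 4525130102341632))) (P (nat_lit 0))))))) (T.h (T.h (P (nat_lit 0)) (T.h (T.h (P (nat_lit 6699686972814614291546112)) (T.h (P (nat_lit 0)) (P (nat_lit 7082019746996027392)))) (T.h (P (nat_lit 0)) (P (nat_lit 5598175807563366400))))) (T.h (T.h (T.h (P (nat_lit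 0)) (T.h (M (nat_lit 566177892511311200255)) (T.h (P (nat_lit 0)) (M (nat_lit 599549196042239))))) (T.h (P (nat_lit 0)) (T.h (T.h (P (nat_lit 0)) (P (nat_lit 5418969469157376))) (P (nat_lit 0))))) (T.h (T.h (P (nat_lit 0)) (M (nat_lit 8771602870383411199))) (T.h (T.h (T.h (P (nat_lit 0)) (M (nat_lit 3523974070075391))) (P (nat_lit 0))) (P (nat_lit 0))))))), (T.h (T.h (T.h (P (nat_lit 14562162258249013777924918083584)) (T.h (P (nat_lit 0)) (T.h (M (nat_lit 1586501907438543587770367)) (T.h (P (nat_lit 0)) (P (nat_lit 1238029958807289856)))))) (T.h (P (nat_lit 0)) (T.h (T.h (P (nat_lit 5400635009370655693996032)) (T.h (P (nat_lit 0)) (P (nat_lit 272633426224349184)))) (T.h (P (nat_lit 0)) (M (nat_lit 1544577741599277055)))))) (T.h (T.h (P (nat_lit 0)) (T.h (T.h (P (nat_lit 0)) (M (nat_lit 14866527205867955159039))) (P (nat_lit 0)))) (T.h (T.h (T.h (P (nat_lit 472108168470894989017088)) (T.h (P (nat_lit 0)) (P (nat_lit 613938376747253760)))) (T.h (P (nat_lit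 0)) (M (nat_lit 2606053976117870591)))) (T.h (P (nat_lit 0)) (P (nat_lit 555935322035191808)))))), (P (nat_lit 0)), (P (nat_lit 0)), (T.h (T.h (P (nat_lit 0)) (T.h (P (nat_lit 0)) (T.h (P (nat_lit 0)) (T.h (M (nat_lit 1386797677371080048639)) (T.h (P (nat_lit 0)) (P (nat_lit 520789253947392))))))) (T.h (T.h (T.h (P (nat_lit 0)) (P (nat_lit 820044288225231356559360))) (T.h (P (nat_lit 0)) (T.h (T.h (P (nat_lit 0)) (M (nat_lit 1945289511797784575))) (P (nat_lit 0))))) (T.h (T.h (P (nat_lit 0)) (T.h (T.h (P (nat_lit 0)) (T.h (P (nat_lit 0)) (P (nat_lit 9472520804892672)))) (P (nat_lit 0)))) (P (nat_lit 0))))), (T.h (T.h (P (nat_lit 0)) (T.h (T.h (P (nat_lit 0)) (T.h (P (nat_lit 2424682419920877020774400)) (T.h (P (nat_lit 0)) (P (nat_lit 287420047758983168))))) (T.h (P (nat_lit 0)) (T.h (T.h (P (nat_lit 0)) (M (nat_lit 6178310966397108223))) (P (nat_lit 0)))))) (T.h (T.h (T.h (M (nat_lit 279908450380878969705594879)) (T.h (P (nat_lit 0)) (M (nat_lit 25474099469558480895))))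 (T.h (P (nat_lit 0)) (M (nat_lit 9901917847013963071487)))) (T.h (T.h (P (nat_lit 0)) (T.h (T.h (P (nat_lit 0)) (M (nat_lit 10165924027084832767))) (P (nat_lit 0)))) (P (nat_lit 2829812515106405220352))))), (P (nat_lit 0)), (P (nat_lit 0))]
def lP22_7 : List (T ℤ) := [(T.h (T.h (P (nat_lit 0)) (T.h (P (nat_lit 0)) (T.h (P (nat_lit 0)) (T.h (P (nat_lit 0)) (M (nat_lit 888813660070215679)))))) (T.h (P (nat_lit 0)) (T.h (T.h (T.h (P (nat_lit 0)) (T.h (P (nat_lit 0)) (M (nat_lit 3233287101403365375)))) (P (nat_lit 0))) (P (nat_lit 0))))), (P (nat_lit 0)), (P (nat_lit 0)), (P (nat_lit 0)), (P (nat_lit 0)), (P (nat_lit 0)), (T.h (T.h (P (nat_lit 0)) (T.h (T.h (P (nat_lit 2442310398557518728414625792)) (T.h (P (nat_lit 0)) (T.h (P (nat_lit 10983023708140231196672)) (T.h (P (nat_lit 0)) (M (nat_lit 664208017784831)))))) (T.h (P (nat_lit 0)) (T.h (T.h (P (nat_lit 3679752308041006972928)) (T.h (P (nat_lit 0)) (M (nat_lit 1039951104770047)))) (T.h (P (nat_lit 0)) (M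 (nat_lit 11815390019583))))))) (T.h (T.h (T.h (P (nat_lit 0)) (T.h (M (nat_lit 14280217490853106859114495)) (T.h (P (nat_lit 0)) (M (nat_lit 5463924327831306239))))) (T.h (P (nat_lit 0)) (T.h (T.h (P (nat_lit 0)) (P (nat_lit 3565072346572128256))) (P (nat_lit 0))))) (T.h (T.h (P (nat_lit 0)) (T.h (T.h (M (nat_lit 3047215125714868109311)) (T.h (P (nat_lit 0)) (P (nat_lit 3547622079004672)))) (T.h (P (nat_lit 0)) (P (nat_lit 140431119548416))))) (T.h (T.h (T.h (P (nat_lit 0)) (P (nat_lit 3431769517741572096))) (P (nat_lit 0))) (T.h (T.h (P (nat_lit 0)) (M (nat_lit 1626567914815487))) (P (nat_lit 0))))))), (T.h (T.h (P (nat_lit 0)) (T.h (T.h (P (nat_lit 0)) (T.h (M (nat_lit 4592128168771611640463359)) (T.h (P (nat_lit 0)) (M (nat_lit 5200259580440870911))))) (T.h (P (nat_lit 0)) (T.h (T.h (P (nat_lit 0)) (P (nat_lit 12066641941316501504))) (P (nat_lit 0)))))) (T.h (T.h (T.h (P (nat_lit 24067662906614286825688137728)) (T.h (P (nat_lit 0)) (T.h (P (nat_lit 12267667912468654456832))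 (T.h (P (nat_lit 0)) (M (nat_lit 9588080211820543)))))) (T.h (P (nat_lit 0)) (T.h (T.h (P (nat_lit 5408711284310665068544)) (T.h (P (nat_lit 0)) (P (nat_lit 6813190638010368)))) (T.h (P (nat_lit 0)) (P (nat_lit 2991378617303040)))))) (T.h (T.h (P (nat_lit 0)) (T.h (T.h (P (nat_lit 0)) (M (nat_lit 7048978185093906431))) (P (nat_lit 0)))) (T.h (T.h (T.h (P (nat_lit 2371971797410874654720)) (T.h (P (nat_lit 0)) (M (nat_lit 2413907610566655)))) (T.h (P (nat_lit 0)) (P (nat_lit 2962096402432000)))) (T.h (P (nat_lit 0)) (P (nat_lit 2681142573465600)))))))]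
def lP22_8 : List (T ℤ) := [(T.h (T.h (P (nat_lit 0)) (T.h (T.h (M (nat_lit 3147316493728592057340002303)) (T.h (P (nat_lit 0)) (T.h (M (nat_lit 4041870850466806497279)) (T.h (P (nat_lit 0)) (P (nat_lit 2925128420229120)))))) (T.h (P (nat_lit 0)) (T.h (T.h (M (nat_lit 4524051548051001573375)) (T.h (P (nat_lit 0)) (P (nat_lit 822254790705152)))) (T.h (P (nat_lit 0)) (P (nat_lit 845034740580352))))))) (T.h (T.h (T.h (P (nat_lit 0)) (T.h (P (nat_lit 16159129519095628567674880)) (T.h (P (nat_lit 0)) (P (nat_lit 8662173632501383168))))) (T.h (P (nat_lit 0)) (T.h (T.h (P (nat_lit 0)) (P (nat_lit 14223229982607409152))) (P (nat_lit 0))))) (T.h (T.h (P (nat_lit 0)) (T.h (T.h (P (nat_lit 835233424690865242112)) (T.h (P (nat_lit 0)) (M (nat_lit 11975517620469759)))) (T.h (P (nat_lit 0)) (M (nat_lit 652816732782591))))) (T.h (T.h (T.h (P (nat_lit 0)) (P (nat_lit 3256229217427259392))) (P (nat_lit 0))) (T.h (T.h (P (nat_lit 0)) (M (nat_lit 1036859366244351))) (P (nat_lit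 0))))))), (T.h (T.h (P (nat_lit 0)) (T.h (T.h (P (nat_lit 0)) (T.h (P (nat_lit 6699686972814614291546112)) (T.h (P (nat_lit 0)) (P (nat_lit 5598175807563366400))))) (T.h (P (nat_lit 0)) (T.h (T.h (P (nat_lit 0)) (M (nat_lit 8771602870383411199))) (P (nat_lit 0)))))) (T.h (T.h (T.h (M (nat_lit 23308674508616954859992645631)) (T.h (P (nat_lit 0)) (T.h (M (nat_lit 6403020190384731979775)) (T.h (P (nat_lit 0)) (P (nat_lit 4525130102341632)))))) (T.h (P (nat_lit 0)) (T.h (T.h (M (nat_lit 566177892511311200255)) (T.h (P (nat_lit 0)) (P (nat_lit 5418969469157376)))) (T.h (P (nat_lit 0)) (M (nat_lit 3523974070075391)))))) (T.h (T.h (P (nat_lit 0)) (T.h (T.h (P (nat_lit 0)) (P (nat_lit 7082019746996027392))) (P (nat_lit 0)))) (T.h (T.h (T.h (M (nat_lit 3679868749620923334655)) (T.h (P (nat_lit 0)) (M (nat_lit 421025460584447)))) (T.h (P (nat_lit 0)) (M (nat_lit 599549196042239)))) (T.h (P (nat_lit 0)) (M (nat_lit 1405125303336959))))))), (T.h (T.h (P (nat_lit 0))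 (T.h (T.h (M (nat_lit 279908450380878969705594879)) (T.h (P (nat_lit 0)) (M (nat_lit 9901917847013963071487)))) (T.h (P (nat_lit 0)) (P (nat_lit 2829812515106405220352))))) (T.h (T.h (T.h (P (nat_lit 0)) (T.h (P (nat_lit 2424682419920877020774400)) (T.h (P (nat_lit 0)) (M (nat_lit 6178310966397108223))))) (T.h (P (nat_lit 0)) (T.h (T.h (P (nat_lit 0)) (M (nat_lit 10165924027084832767))) (P (nat_lit 0))))) (T.h (T.h (P (nat_lit 0)) (M (nat_lit 25474099469558480895))) (T.h (T.h (T.h (P (nat_lit 0)) (P (nat_lit 287420047758983168))) (P (nat_lit 0))) (P (nat_lit 0)))))), (P (nat_lit 0)), (P (nat_lit 0)), (T.h (T.h (T.h (P (nat_lit 0)) (T.h (P (nat_lit 0)) (T.h (P (nat_lit 0)) (T.h (P (nat_lit 0)) (T.h (P (nat_lit 0)) (M (nat_lit 1517611902173183))))))) (T.h (P (nat_lit 0)) (T.h (T.h (P (nat_lit 0)) (T.h (M (nat_lit 393394788669509861375)) (T.h (P (nat_lit 0)) (M (nat_lit 6466019186049023))))) (T.h (P (nat_lit 0)) (T.h (T.h (P (nat_lit 0)) (M (nat_lit 9592676862263295)))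 (P (nat_lit 0))))))) (T.h (T.h (P (nat_lit 0)) (T.h (T.h (P (nat_lit 4522944407224301738000384)) (T.h (P (nat_lit 0)) (M (nat_lit 20828737242849607679)))) (T.h (P (nat_lit 0)) (P (nat_lit 4169824286824988672))))) (T.h (T.h (T.h (P (nat_lit 0)) (T.h (M (nat_lit 393394788669509861375)) (T.h (P (nat_lit 0)) (M (nat_lit 6466019186049023))))) (T.h (P (nat_lit 0)) (T.h (T.h (P (nat_lit 0)) (M (nat_lit 2885507989110783))) (P (nat_lit 0))))) (T.h (T.h (P (nat_lit 0)) (P (nat_lit 4169824286824988672))) (T.h (T.h (T.h (P (nat_lit 0)) (M (nat_lit 9592676862263295))) (P (nat_lit 0))) (P (nat_lit 0))))))), (T.h (T.h (T.h (P (nat_lit 1010262057425128725540505649152)) (T.h (P (nat_lit 0)) (T.h (M (nat_lit 1587901206242065085628415)) (T.h (P (nat_lit 0)) (P (nat_lit 10463980613563056128)))))) (T.h (P (nat_lit 0)) (T.h (T.h (M (nat_lit 18926181072577156459003903)) (T.h (P (nat_lit 0)) (M (nat_lit 47841265680042164223)))) (T.h (P (nat_lit 0)) (P (nat_lit 18314824017116135424))))))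 (T.h (T.h (P (nat_lit 0)) (T.h (T.h (P (nat_lit 0)) (T.h (P (nat_lit 18923239735702092513280)) (T.h (P (nat_lit 0)) (M (nat_lit 3989539368140799))))) (T.h (P (nat_lit 0)) (T.h (T.h (P (nat_lit 0)) (M (nat_lit 5925133438943231))) (P (nat_lit 0)))))) (T.h (T.h (T.h (M (nat_lit 18133991237298837331640319)) (T.h (P (nat_lit 0)) (M (nat_lit 53148215490950201343)))) (T.h (P (nat_lit 0)) (P (nat_lit 2591826363434401792)))) (T.h (T.h (P (nat_lit 0)) (T.h (T.h (P (nat_lit 0)) (M (nat_lit 12903262501797887))) (P (nat_lit 0)))) (P (nat_lit 19614236116892254208)))))), (T.h (T.h (T.h (P (nat_lit 0)) (T.h (M (nat_lit 4865143931512019742722359295)) (T.h (P (nat_lit 0)) (T.h (M (nat_lit 8745564178652984246271)) (T.h (P (nat_lit 0)) (P (nat_lit 1944089406472192))))))) (T.h (P (nat_lit 0)) (T.h (T.h (P (nat_lit 0)) (T.h (P (nat_lit 26712386562715379826688)) (T.h (P (nat_lit 0)) (P (nat_lit 23785446772441088))))) (T.h (P (nat_lit 0)) (T.h (T.h (P (nat_lit 0)) (P (nat_lit 9729628367814656)))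 (P (nat_lit 0))))))) (T.h (T.h (P (nat_lit 0)) (T.h (T.h (P (nat_lit 13075810249838208814678016)) (T.h (P (nat_lit 0)) (P (nat_lit 48636823786003365888)))) (T.h (P (nat_lit 0)) (P (nat_lit 10416561284773314560))))) (T.h (T.h (T.h (P (nat_lit 0)) (T.h (P (nat_lit 26712386562715379826688)) (T.h (P (nat_lit 0)) (P (nat_lit 23785446772441088))))) (T.h (P (nat_lit 0)) (T.h (T.h (P (nat_lit 0)) (P (nat_lit 15713127575584768))) (P (nat_lit 0))))) (T.h (T.h (P (nat_lit 0)) (P (nat_lit 10416561284773314560))) (T.h (T.h (T.h (P (nat_lit 0)) (P (nat_lit 9729628367814656))) (P (nat_lit 0))) (P (nat_lit 0)))))))]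
def lP22_9 : List (T ℤ) := [(T.h (T.h (T.h (M (nat_lit 2001138384869827064950010413055)) (T.h (P (nat_lit 0)) (T.h (P (nat_lit 3021525689518643465945088)) (T.h (P (nat_lit 0)) (M (nat_lit 11402494650829766655)))))) (T.h (P (nat_lit 0)) (T.h (T.h (P (nat_lit 18697361475644574801068032)) (T.h (P (nat_lit 0)) (P (nat_lit 47436507338491559936)))) (T.h (P (nat_lit 0)) (M (nat_lit 18379318725514887167)))))) (T.h (T.h (P (nat_lit 0)) (T.h (T.h (P (nat_lit 0)) (T.h (M (nat_lit 18792191774930400968703)) (T.h (P (nat_lit 0)) (P (nat_lit 4787447241768960))))) (T.h (P (nat_lit 0)) (T.h (T.h (P (nat_lit 0)) (P (nat_lit 11297037564444672))) (P (nat_lit 0)))))) (T.h (T.h (T.h (P (nat_lit 18697361475644574801068032)) (T.h (P (nat_lit 0)) (P (nat_lit 47436507338491559936)))) (T.h (P (nat_lit 0)) (M (nat_lit 1044776055065280511)))) (T.h (T.h (P (nat_lit 0)) (T.h (T.h (P (nat_lit 0)) (P (nat_lit 11297037564444672))) (P (nat_lit 0)))) (M (nat_lit 18379318725514887167)))))),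 (T.h (T.h (T.h (P (nat_lit 0)) (T.h (P (nat_lit 2613273605147549987961307136)) (T.h (P (nat_lit 0)) (P (nat_lit 2747092652249212518400))))) (T.h (P (nat_lit 0)) (T.h (T.h (P (nat_lit 0)) (M (nat_lit 36272100889309380345855))) (P (nat_lit 0))))) (T.h (T.h (P (nat_lit 0)) (T.h (T.h (P (nat_lit 817752586518847605964800)) (T.h (P (nat_lit 0)) (M (nat_lit 12301045624127619071)))) (T.h (P (nat_lit 0)) (P (nat_lit 1364636026177323008))))) (T.h (T.h (T.h (P (nat_lit 0)) (M (nat_lit 36272100889309380345855))) (P (nat_lit 0))) (T.h (T.h (P (nat_lit 0)) (P (nat_lit 1364636026177323008))) (P (nat_lit 0)))))), (P (nat_lit 0)), (P (nat_lit 0)), (T.h (T.h (P (nat_lit 0)) (T.h (T.h (P (nat_lit 0)) (T.h (P (nat_lit 0)) (T.h (M (nat_lit 393394788669509861375)) (T.h (P (nat_lit 0)) (M (nat_lit 9592676862263295)))))) (T.h (P (nat_lit 0)) (T.h (T.h (P (nat_lit 0)) (T.h (P (nat_lit 0)) (M (nat_lit 6466019186049023)))) (T.h (P (nat_lit 0)) (M (nat_lit 1517611902173183))))))) (T.h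 (T.h (T.h (P (nat_lit 0)) (T.h (P (nat_lit 4522944407224301738000384)) (T.h (P (nat_lit 0)) (P (nat_lit 4169824286824988672))))) (T.h (P (nat_lit 0)) (T.h (T.h (P (nat_lit 0)) (M (nat_lit 20828737242849607679))) (P (nat_lit 0))))) (T.h (T.h (P (nat_lit 0)) (T.h (T.h (M (nat_lit 393394788669509861375)) (T.h (P (nat_lit 0)) (M (nat_lit 2885507989110783)))) (T.h (P (nat_lit 0)) (M (nat_lit 6466019186049023))))) (T.h (T.h (T.h (P (nat_lit 0)) (P (nat_lit 4169824286824988672))) (P (nat_lit 0))) (T.h (T.h (P (nat_lit 0)) (M (nat_lit 9592676862263295))) (P (nat_lit 0))))))), (T.h (T.h (P (nat_lit 0)) (T.h (T.h (P (nat_lit 0)) (T.h (M (nat_lit 38685949959920147863961599)) (T.h (P (nat_lit 0)) (M (nat_lit 34114175090991038463))))) (T.h (P (nat_lit 0)) (T.h (T.h (P (nat_lit 0)) (M (nat_lit 11553737432293703679))) (P (nat_lit 0)))))) (T.h (T.h (T.h (P (nat_lit 39693271727488054299933540352)) (T.h (P (nat_lit 0)) (T.h (M (nat_lit 12139391851846667599871)) (T.h (P (nat_lit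 0)) (P (nat_lit 19704229713543168)))))) (T.h (P (nat_lit 0)) (T.h (T.h (M (nat_lit 19299222592263443972095)) (T.h (P (nat_lit 0)) (P (nat_lit 80522866575802368)))) (T.h (P (nat_lit 0)) (P (nat_lit 12994727653670912)))))) (T.h (T.h (P (nat_lit 0)) (T.h (T.h (P (nat_lit 0)) (P (nat_lit 46056362005355298816))) (P (nat_lit 0)))) (T.h (T.h (T.h (P (nat_lit 1600137620552457125888)) (T.h (P (nat_lit 0)) (P (nat_lit 279660247908352)))) (T.h (P (nat_lit 0)) (P (nat_lit 3756373281210368)))) (T.h (P (nat_lit 0)) (M (nat_lit 6003141117739007))))))), (T.h (T.h (P (nat_lit 0)) (T.h (T.h (P (nat_lit 8894116918151559282853675008)) (T.h (P (nat_lit 0)) (T.h (P (nat_lit 33722942832664821891072)) (T.h (P (nat_lit 0)) (P (nat_lit 16085244215427072)))))) (T.h (P (nat_lit 0)) (T.h (T.h (M (nat_lit 20519660205683568017407)) (T.h (P (nat_lit 0)) (P (nat_lit 29997582427947008)))) (P (nat_lit 0)))))) (T.h (T.h (T.h (P (nat_lit 0)) (T.h (P (nat_lit 8907670941466001565286400)) (T.h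 (P (nat_lit 0)) (M (nat_lit 32850290879351488511))))) (T.h (P (nat_lit 0)) (T.h (T.h (P (nat_lit 0)) (M (nat_lit 28954702120136736767))) (P (nat_lit 0))))) (T.h (T.h (P (nat_lit 0)) (T.h (T.h (M (nat_lit 16248505565719696506879)) (T.h (P (nat_lit 0)) (P (nat_lit 29603302290817024)))) (T.h (P (nat_lit 0)) (P (nat_lit 9334012262744064))))) (T.h (T.h (T.h (P (nat_lit 0)) (M (nat_lit 10157880130408546303))) (P (nat_lit 0))) (T.h (T.h (P (nat_lit 0)) (P (nat_lit 13110701554270208))) (P (nat_lit 0))))))), (T.h (T.h (P (nat_lit 0)) (T.h (T.h (P (nat_lit 0)) (T.h (P (nat_lit 45673022778121750688301056)) (T.h (P (nat_lit 0)) (P (nat_lit 14253265884922511360))))) (T.h (P (nat_lit 0)) (T.h (T.h (P (nat_lit 0)) (M (nat_lit 31704313535716655103))) (P (nat_lit 0)))))) (T.h (T.h (T.h (M (nat_lit 58563857056695683991302307839)) (T.h (P (nat_lit 0)) (T.h (P (nat_lit 3843571414089190080512)) (T.h (P (nat_lit 0)) (M (nat_lit 4687499992301567)))))) (T.h (P (nat_lit 0)) (T.h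 (T.h (P (nat_lit 8108657485441017053184)) (T.h (P (nat_lit 0)) (M (nat_lit 48455648891830271)))) (T.h (P (nat_lit 0)) (M (nat_lit 7276835205611519)))))) (T.h (T.h (P (nat_lit 0)) (T.h (T.h (P (nat_lit 0)) (M (nat_lit 32711687646010671103))) (P (nat_lit 0)))) (T.h (T.h (T.h (M (nat_lit 17225768161661578903551)) (T.h (P (nat_lit 0)) (P (nat_lit 17216402791464960)))) (T.h (P (nat_lit 0)) (M (nat_lit 174287233941503)))) (T.h (P (nat_lit 0)) (M (nat_lit 3720088609357823)))))))]
def lP22_10 : List (T ℤ) := [(T.h (T.h (P (nat_lit 0)) (T.h (T.h (M (nat_lit 19472614965897669399187292159)) (T.h (P (nat_lit 0)) (M (nat_lit 102025982773308359180287)))) (T.h (P (nat_lit 0)) (P (nat_lit 21163988139213750009856))))) (T.h (T.h (T.h (P (nat_lit 0)) (T.h (P (nat_lit 9533650392968229510184960)) (T.h (P (nat_lit 0)) (P (nat_lit 4261631954979389440))))) (T.h (P (nat_lit 0)) (T.h (T.h (P (nat_lit 0)) (P (nat_lit 21510889844164788224))) (P (nat_lit 0))))) (T.h (T.h (P (nat_lit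 0)) (P (nat_lit 455310933304797036544))) (T.h (T.h (T.h (P (nat_lit 0)) (M (nat_lit 18196777769839362047))) (P (nat_lit 0))) (P (nat_lit 0)))))), (P (nat_lit 0)), (P (nat_lit 0)), (T.h (T.h (T.h (P (nat_lit 0)) (T.h (P (nat_lit 2442310398557518728414625792)) (T.h (P (nat_lit 0)) (T.h (P (nat_lit 3679752308041006972928)) (T.h (P (nat_lit 0)) (M (nat_lit 11815390019583))))))) (T.h (P (nat_lit 0)) (T.h (T.h (P (nat_lit 0)) (T.h (P (nat_lit 10983023708140231196672)) (T.h (P (nat_lit 0)) (M (nat_lit 1039951104770047))))) (T.h (P (nat_lit 0)) (T.h (T.h (P (nat_lit 0)) (M (nat_lit 664208017784831))) (P (nat_lit 0))))))) (T.h (T.h (P (nat_lit 0)) (T.h (T.h (M (nat_lit 14280217490853106859114495)) (T.h (P (nat_lit 0)) (P (nat_lit 3565072346572128256)))) (T.h (P (nat_lit 0)) (M (nat_lit 5463924327831306239))))) (T.h (T.h (T.h (P (nat_lit 0)) (T.h (M (nat_lit 3047215125714868109311)) (T.h (P (nat_lit 0)) (P (nat_lit 140431119548416))))) (T.h (P (nat_lit 0)) (T.h (T.h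 (P (nat_lit 0)) (P (nat_lit 3547622079004672))) (P (nat_lit 0))))) (T.h (T.h (P (nat_lit 0)) (P (nat_lit 3431769517741572096))) (T.h (T.h (T.h (P (nat_lit 0)) (M (nat_lit 1626567914815487))) (P (nat_lit 0))) (P (nat_lit 0))))))), (T.h (T.h (T.h (P (nat_lit 2172901658626308867120382869504)) (T.h (P (nat_lit 0)) (T.h (M (nat_lit 6297130738538266463567871)) (T.h (P (nat_lit 0)) (P (nat_lit 12232929879535910912)))))) (T.h (P (nat_lit 0)) (T.h (T.h (P (nat_lit 7307570208912929812643840)) (T.h (P (nat_lit 0)) (M (nat_lit 80266014916329078783)))) (T.h (P (nat_lit 0)) (P (nat_lit 14810173141883551744)))))) (T.h (T.h (P (nat_lit 0)) (T.h (T.h (P (nat_lit 0)) (T.h (M (nat_lit 27147433252628683816959)) (T.h (P (nat_lit 0)) (P (nat_lit 22913739071815680))))) (T.h (P (nat_lit 0)) (T.h (T.h (P (nat_lit 0)) (P (nat_lit 40286892671303680))) (P (nat_lit 0)))))) (T.h (T.h (T.h (M (nat_lit 18595559493076108607225855)) (T.h (P (nat_lit 0)) (P (nat_lit 31397850390422618112))))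 (T.h (P (nat_lit 0)) (M (nat_lit 16302925201312579583)))) (T.h (T.h (P (nat_lit 0)) (T.h (T.h (P (nat_lit 0)) (M (nat_lit 32196628729430015))) (P (nat_lit 0)))) (P (nat_lit 14302589763541008384)))))), (T.h (T.h (T.h (P (nat_lit 0)) (T.h (P (nat_lit 8894116918151559282853675008)) (T.h (P (nat_lit 0)) (M (nat_lit 20519660205683568017407))))) (T.h (P (nat_lit 0)) (T.h (T.h (P (nat_lit 0)) (T.h (P (nat_lit 33722942832664821891072)) (T.h (P (nat_lit 0)) (P (nat_lit 29997582427947008))))) (T.h (P (nat_lit 0)) (T.h (T.h (P (nat_lit 0)) (P (nat_lit 16085244215427072))) (P (nat_lit 0))))))) (T.h (T.h (P (nat_lit 0)) (T.h (T.h (P (nat_lit 8907670941466001565286400)) (T.h (P (nat_lit 0)) (M (nat_lit 28954702120136736767)))) (T.h (P (nat_lit 0)) (M (nat_lit 32850290879351488511))))) (T.h (T.h (T.h (P (nat_lit 0)) (T.h (M (nat_lit 16248505565719696506879)) (T.h (P (nat_lit 0)) (P (nat_lit 9334012262744064))))) (T.h (P (nat_lit 0)) (T.h (T.h (P (nat_lit 0)) (P (nat_lit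 29603302290817024))) (P (nat_lit 0))))) (T.h (T.h (P (nat_lit 0)) (M (nat_lit 10157880130408546303))) (T.h (T.h (T.h (P (nat_lit 0)) (P (nat_lit 13110701554270208))) (P (nat_lit 0))) (P (nat_lit 0))))))), (T.h (T.h (T.h (M (nat_lit 10032244771051151039943298514943)) (T.h (P (nat_lit 0)) (T.h (P (nat_lit 13504962133677822730829824)) (T.h (P (nat_lit 0)) (M (nat_lit 33094276176383311871)))))) (T.h (P (nat_lit 0)) (T.h (T.h (P (nat_lit 13504962133677822730829824)) (T.h (P (nat_lit 0)) (P (nat_lit 117064877601634385920)))) (T.h (P (nat_lit 0)) (M (nat_lit 33094276176383311871)))))) (T.h (T.h (P (nat_lit 0)) (T.h (T.h (P (nat_lit 0)) (T.h (M (nat_lit 55476096322105958727679)) (T.h (P (nat_lit 0)) (P (nat_lit 13804903992459264))))) (T.h (P (nat_lit 0)) (T.h (T.h (P (nat_lit 0)) (P (nat_lit 13804903992459264))) (P (nat_lit 0)))))) (T.h (T.h (T.h (P (nat_lit 48053906595039940370759680)) (T.h (P (nat_lit 0)) (M (nat_lit 19068183177919987711)))) (T.h (P (nat_lit 0))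 (M (nat_lit 19068183177919987711)))) (T.h (T.h (P (nat_lit 0)) (T.h (T.h (P (nat_lit 0)) (P (nat_lit 58462027903008768))) (P (nat_lit 0)))) (M (nat_lit 8662364521584656383)))))), (T.h (T.h (T.h (P (nat_lit 0)) (T.h (M (nat_lit 6000969113615189185396735999)) (T.h (P (nat_lit 0)) (P (nat_lit 24438338849772933218304))))) (T.h (P (nat_lit 0)) (T.h (T.h (P (nat_lit 0)) (M (nat_lit 111759690933996743557119))) (P (nat_lit 0))))) (T.h (T.h (P (nat_lit 0)) (T.h (T.h (P (nat_lit 6083335303084980110884864)) (T.h (P (nat_lit 0)) (M (nat_lit 4310567372663554047)))) (T.h (P (nat_lit 0)) (P (nat_lit 1415962012927655936))))) (T.h (P (nat_lit 0)) (T.h (T.h (P (nat_lit 0)) (M (nat_lit 8285720689671929855))) (P (nat_lit 0))))))]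
def lP22_11 : List (T ℤ) := [(P (nat_lit 0)), (P (nat_lit 0)), (T.h (T.h (P (nat_lit 0)) (T.h (T.h (P (nat_lit 0)) (T.h (P (nat_lit 7635818693151528446853120)) (T.h (P (nat_lit 0)) (P (nat_lit 22440819617605615616))))) (T.h (P (nat_lit 0)) (T.h (T.h (P (nat_lit 0)) (M (nat_lit 18711846820710973439))) (P (nat_lit 0)))))) (T.h (T.h (T.h (P (nat_lit 22212443436440339672616402944)) (T.h (P (nat_lit 0)) (T.h (M (nat_lit 1118880798883495018495)) (T.h (P (nat_lit 0)) (P (nat_lit 1239783424032768)))))) (T.h (P (nat_lit 0)) (T.h (T.h (M (nat_lit 650868203350780805119)) (T.h (P (nat_lit 0)) (P (nat_lit 10816180136968192)))) (T.h (P (nat_lit 0)) (M (nat_lit 5862949325078527)))))) (T.h (T.h (P (nat_lit 0)) (T.h (T.h (P (nat_lit 0)) (P (nat_lit 28699690470066880512))) (P (nat_lit 0)))) (T.h (T.h (T.h (P (nat_lit 5587234294597026840576)) (T.h (P (nat_lit 0)) (P (nat_lit 2071230352359424)))) (T.h (P (nat_lit 0)) (M (nat_lit 15027371136778239)))) (T.h (P (nat_lit 0)) (P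 (nat_lit 4293038005878784))))))), (T.h (T.h (P (nat_lit 0)) (T.h (T.h (M (nat_lit 4865143931512019742722359295)) (T.h (P (nat_lit 0)) (T.h (P (nat_lit 26712386562715379826688)) (T.h (P (nat_lit 0)) (P (nat_lit 9729628367814656)))))) (T.h (P (nat_lit 0)) (T.h (T.h (M (nat_lit 8745564178652984246271)) (T.h (P (nat_lit 0)) (P (nat_lit 23785446772441088)))) (T.h (P (nat_lit 0)) (P (nat_lit 1944089406472192))))))) (T.h (T.h (T.h (P (nat_lit 0)) (T.h (P (nat_lit 13075810249838208814678016)) (T.h (P (nat_lit 0)) (P (nat_lit 10416561284773314560))))) (T.h (P (nat_lit 0)) (T.h (T.h (P (nat_lit 0)) (P (nat_lit 48636823786003365888))) (P (nat_lit 0))))) (T.h (T.h (P (nat_lit 0)) (T.h (T.h (P (nat_lit 26712386562715379826688)) (T.h (P (nat_lit 0)) (P (nat_lit 15713127575584768)))) (T.h (P (nat_lit 0)) (P (nat_lit 23785446772441088))))) (T.h (T.h (T.h (P (nat_lit 0)) (P (nat_lit 10416561284773314560))) (P (nat_lit 0))) (T.h (T.h (P (nat_lit 0)) (P (nat_lit 9729628367814656)))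 (P (nat_lit 0))))))), (T.h (T.h (P (nat_lit 0)) (T.h (T.h (P (nat_lit 0)) (T.h (P (nat_lit 45673022778121750688301056)) (T.h (P (nat_lit 0)) (M (nat_lit 31704313535716655103))))) (T.h (P (nat_lit 0)) (T.h (T.h (P (nat_lit 0)) (P (nat_lit 14253265884922511360))) (P (nat_lit 0)))))) (T.h (T.h (T.h (M (nat_lit 58563857056695683991302307839)) (T.h (P (nat_lit 0)) (T.h (P (nat_lit 8108657485441017053184)) (T.h (P (nat_lit 0)) (M (nat_lit 7276835205611519)))))) (T.h (P (nat_lit 0)) (T.h (T.h (P (nat_lit 3843571414089190080512)) (T.h (P (nat_lit 0)) (M (nat_lit 48455648891830271)))) (T.h (P (nat_lit 0)) (M (nat_lit 4687499992301567)))))) (T.h (T.h (P (nat_lit 0)) (T.h (T.h (P (nat_lit 0)) (M (nat_lit 32711687646010671103))) (P (nat_lit 0)))) (T.h (T.h (T.h (M (nat_lit 17225768161661578903551)) (T.h (P (nat_lit 0)) (M (nat_lit 174287233941503)))) (T.h (P (nat_lit 0)) (P (nat_lit 17216402791464960)))) (T.h (P (nat_lit 0)) (M (nat_lit 3720088609357823))))))), (T.h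 (T.h (P (nat_lit 0)) (T.h (T.h (M (nat_lit 6000969113615189185396735999)) (T.h (P (nat_lit 0)) (M (nat_lit 111759690933996743557119)))) (T.h (P (nat_lit 0)) (P (nat_lit 24438338849772933218304))))) (T.h (T.h (T.h (P (nat_lit 0)) (T.h (P (nat_lit 6083335303084980110884864)) (T.h (P (nat_lit 0)) (P (nat_lit 1415962012927655936))))) (T.h (P (nat_lit 0)) (T.h (T.h (P (nat_lit 0)) (M (nat_lit 4310567372663554047))) (P (nat_lit 0))))) (T.h (P (nat_lit 0)) (T.h (T.h (T.h (P (nat_lit 0)) (M (nat_lit 8285720689671929855))) (P (nat_lit 0))) (P (nat_lit 0)))))), (P (nat_lit 0)), (T.h (T.h (T.h (P (nat_lit 1981752654889396678819009527808)) (T.h (P (nat_lit 0)) (T.h (M (nat_lit 334550641413155811491839)) (T.h (P (nat_lit 0)) (M (nat_lit 1170422682978615295)))))) (T.h (P (nat_lit 0)) (T.h (T.h (M (nat_lit 2867248966553156760633343)) (T.h (P (nat_lit 0)) (P (nat_lit 6116466494009245696)))) (T.h (P (nat_lit 0)) (P (nat_lit 1877028074533421056)))))) (T.h (T.h (P (nat_lit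 0)) (T.h (T.h (P (nat_lit 0)) (T.h (M (nat_lit 262095921543383089151)) (T.h (P (nat_lit 0)) (M (nat_lit 3765679188148223))))) (T.h (P (nat_lit 0)) (T.h (T.h (P (nat_lit 0)) (M (nat_lit 1595815747256319))) (P (nat_lit 0)))))) (T.h (T.h (T.h (M (nat_lit 334550641413155811491839)) (T.h (P (nat_lit 0)) (M (nat_lit 3094100616738242559)))) (T.h (P (nat_lit 0)) (P (nat_lit 6116466494009245696)))) (T.h (T.h (P (nat_lit 0)) (T.h (T.h (P (nat_lit 0)) (M (nat_lit 3765679188148223))) (P (nat_lit 0)))) (M (nat_lit 1170422682978615295))))))]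
def lP22_12 : List (T ℤ) := [(T.h (T.h (T.h (P (nat_lit 0)) (T.h (M (nat_lit 3147316493728592057340002303)) (T.h (P (nat_lit 0)) (T.h (M (nat_lit 4524051548051001573375)) (T.h (P (nat_lit 0)) (P (nat_lit 845034740580352))))))) (T.h (P (nat_lit 0)) (T.h (T.h (P (nat_lit 0)) (T.h (M (nat_lit 4041870850466806497279)) (T.h (P (nat_lit 0)) (P (nat_lit 822254790705152))))) (T.h (P (nat_lit 0)) (T.h (T.h (P (nat_lit 0)) (P (nat_lit 2925128420229120))) (P (nat_lit 0))))))) (T.h (T.h (P (nat_lit 0)) (T.h (T.h (P (nat_lit 16159129519095628567674880)) (T.h (P (nat_lit 0)) (P (nat_lit 14223229982607409152)))) (T.h (P (nat_lit 0)) (P (nat_lit 8662173632501383168))))) (T.h (T.h (T.h (P (nat_lit 0)) (T.h (P (nat_lit 835233424690865242112)) (T.h (P (nat_lit 0)) (M (nat_lit 652816732782591))))) (T.h (P (nat_lit 0)) (T.h (T.h (P (nat_lit 0)) (M (nat_lit 11975517620469759))) (P (nat_lit 0))))) (T.h (T.h (P (nat_lit 0)) (P (nat_lit 3256229217427259392))) (T.h (T.h (T.h (P (nat_lit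 0)) (M (nat_lit 1036859366244351))) (P (nat_lit 0))) (P (nat_lit 0))))))), (T.h (T.h (T.h (M (nat_lit 2001138384869827064950010413055)) (T.h (P (nat_lit 0)) (T.h (P (nat_lit 18697361475644574801068032)) (T.h (P (nat_lit 0)) (M (nat_lit 18379318725514887167)))))) (T.h (P (nat_lit 0)) (T.h (T.h (P (nat_lit 3021525689518643465945088)) (T.h (P (nat_lit 0)) (P (nat_lit 47436507338491559936)))) (T.h (P (nat_lit 0)) (M (nat_lit 11402494650829766655)))))) (T.h (T.h (P (nat_lit 0)) (T.h (T.h (P (nat_lit 0)) (T.h (M (nat_lit 18792191774930400968703)) (T.h (P (nat_lit 0)) (P (nat_lit 11297037564444672))))) (T.h (P (nat_lit 0)) (T.h (T.h (P (nat_lit 0)) (P (nat_lit 4787447241768960))) (P (nat_lit 0)))))) (T.h (T.h (T.h (P (nat_lit 18697361475644574801068032)) (T.h (P (nat_lit 0)) (M (nat_lit 1044776055065280511)))) (T.h (P (nat_lit 0)) (P (nat_lit 47436507338491559936)))) (T.h (T.h (P (nat_lit 0)) (T.h (T.h (P (nat_lit 0)) (P (nat_lit 11297037564444672))) (P (nat_lit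 0)))) (M (nat_lit 18379318725514887167)))))), (T.h (T.h (T.h (P (nat_lit 0)) (T.h (M (nat_lit 19472614965897669399187292159)) (T.h (P (nat_lit 0)) (P (nat_lit 21163988139213750009856))))) (T.h (P (nat_lit 0)) (T.h (T.h (P (nat_lit 0)) (M (nat_lit 102025982773308359180287))) (P (nat_lit 0))))) (T.h (T.h (P (nat_lit 0)) (T.h (T.h (P (nat_lit 9533650392968229510184960)) (T.h (P (nat_lit 0)) (P (nat_lit 21510889844164788224)))) (T.h (P (nat_lit 0)) (P (nat_lit 4261631954979389440))))) (T.h (T.h (T.h (P (nat_lit 0)) (P (nat_lit 455310933304797036544))) (P (nat_lit 0))) (T.h (T.h (P (nat_lit 0)) (M (nat_lit 18196777769839362047))) (P (nat_lit 0)))))), (P (nat_lit 0)), (P (nat_lit 0)), (T.h (T.h (P (nat_lit 0)) (T.h (T.h (P (nat_lit 0)) (T.h (P (nat_lit 6699686972814614291546112)) (T.h (P (nat_lit 0)) (M (nat_lit 8771602870383411199))))) (T.h (P (nat_lit 0)) (T.h (T.h (P (nat_lit 0)) (P (nat_lit 5598175807563366400))) (P (nat_lit 0)))))) (T.h (T.h (T.h (M (nat_lit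 23308674508616954859992645631)) (T.h (P (nat_lit 0)) (T.h (M (nat_lit 566177892511311200255)) (T.h (P (nat_lit 0)) (M (nat_lit 3523974070075391)))))) (T.h (P (nat_lit 0)) (T.h (T.h (M (nat_lit 6403020190384731979775)) (T.h (P (nat_lit 0)) (P (nat_lit 5418969469157376)))) (T.h (P (nat_lit 0)) (P (nat_lit 4525130102341632)))))) (T.h (T.h (P (nat_lit 0)) (T.h (T.h (P (nat_lit 0)) (P (nat_lit 7082019746996027392))) (P (nat_lit 0)))) (T.h (T.h (T.h (M (nat_lit 3679868749620923334655)) (T.h (P (nat_lit 0)) (M (nat_lit 599549196042239)))) (T.h (P (nat_lit 0)) (M (nat_lit 421025460584447)))) (T.h (P (nat_lit 0)) (M (nat_lit 1405125303336959))))))), (T.h (T.h (P (nat_lit 0)) (T.h (T.h (P (nat_lit 2613273605147549987961307136)) (T.h (P (nat_lit 0)) (M (nat_lit 36272100889309380345855)))) (T.h (P (nat_lit 0)) (P (nat_lit 2747092652249212518400))))) (T.h (T.h (T.h (P (nat_lit 0)) (T.h (P (nat_lit 817752586518847605964800)) (T.h (P (nat_lit 0)) (P (nat_lit 1364636026177323008)))))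 (T.h (P (nat_lit 0)) (T.h (T.h (P (nat_lit 0)) (M (nat_lit 12301045624127619071))) (P (nat_lit 0))))) (T.h (T.h (P (nat_lit 0)) (M (nat_lit 36272100889309380345855))) (T.h (T.h (T.h (P (nat_lit 0)) (P (nat_lit 1364636026177323008))) (P (nat_lit 0))) (P (nat_lit 0)))))), (P (nat_lit 0))]
def lP22_13 : List (T ℤ) := [(P (nat_lit 0)), (T.h (T.h (T.h (P (nat_lit 0)) (T.h (M (nat_lit 279908450380878969705594879)) (T.h (P (nat_lit 0)) (P (nat_lit 2829812515106405220352))))) (T.h (P (nat_lit 0)) (T.h (T.h (P (nat_lit 0)) (M (nat_lit 9901917847013963071487))) (P (nat_lit 0))))) (T.h (T.h (P (nat_lit 0)) (T.h (T.h (P (nat_lit 2424682419920877020774400)) (T.h (P (nat_lit 0)) (M (nat_lit 10165924027084832767)))) (T.h (P (nat_lit 0)) (M (nat_lit 6178310966397108223))))) (T.h (T.h (T.h (P (nat_lit 0)) (M (nat_lit 25474099469558480895))) (P (nat_lit 0))) (T.h (T.h (P (nat_lit 0)) (P (nat_lit 287420047758983168))) (P (nat_lit 0)))))), (P (nat_lit 0)), (P (nat_lit 0)),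 (P (nat_lit 0)), (M (nat_lit 4410501400340933843783516159999)), (P (nat_lit 0)), (P (nat_lit 0))]
def lP22_14 : List (T ℤ) := [(T.h (T.h (T.h (M (nat_lit 702503318116329621362881593343)) (T.h (P (nat_lit 0)) (T.h (M (nat_lit 3511115643918589001465855)) (T.h (P (nat_lit 0)) (M (nat_lit 215169638814711807)))))) (T.h (P (nat_lit 0)) (T.h (T.h (M (nat_lit 1942057638129030519586815)) (T.h (P (nat_lit 0)) (P (nat_lit 5428483423788335104)))) (T.h (P (nat_lit 0)) (M (nat_lit 3371299736341446655)))))) (T.h (T.h (P (nat_lit 0)) (T.h (T.h (P (nat_lit 0)) (T.h (M (nat_lit 36109578655027135774719)) (T.h (P (nat_lit 0)) (M (nat_lit 5076529091313663))))) (T.h (P (nat_lit 0)) (T.h (T.h (P (nat_lit 0)) (M (nat_lit 7073660873342975))) (P (nat_lit 0)))))) (T.h (T.h (T.h (M (nat_lit 5511072882915385064554495)) (T.h (P (nat_lit 0)) (M (nat_lit 38807175605264580607)))) (T.h (P (nat_lit 0)) (P (nat_lit 3679092220721364992)))) (T.h (T.h (P (nat_lit 0)) (T.h (T.h (P (nat_lit 0))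 (M (nat_lit 4091959708614655))) (P (nat_lit 0)))) (M (nat_lit 2740035245901348863)))))), (T.h (T.h (T.h (P (nat_lit 0)) (T.h (P (nat_lit 24533176971064981227743215616)) (T.h (P (nat_lit 0)) (T.h (P (nat_lit 1330601317018053378048)) (T.h (P (nat_lit 0)) (P (nat_lit 741585884282880))))))) (T.h (P (nat_lit 0)) (T.h (T.h (P (nat_lit 0)) (T.h (M (nat_lit 3782431575240647639039)) (T.h (P (nat_lit 0)) (M (nat_lit 10406409639919615))))) (T.h (P (nat_lit 0)) (T.h (T.h (P (nat_lit 0)) (M (nat_lit 3846132419231743))) (P (nat_lit 0))))))) (T.h (T.h (P (nat_lit 0)) (T.h (T.h (P (nat_lit 6391291468122572764217344)) (T.h (P (nat_lit 0)) (M (nat_lit 36023146742257025023)))) (T.h (P (nat_lit 0)) (P (nat_lit 738738444527730688))))) (T.h (T.h (T.h (P (nat_lit 0)) (T.h (P (nat_lit 14250300097114629210112)) (T.h (P (nat_lit 0)) (P (nat_lit 167460857806848))))) (T.h (P (nat_lit 0)) (T.h (T.h (P (nat_lit 0)) (P (nat_lit 3871891009961984))) (P (nat_lit 0))))) (T.h (T.h (P (nat_lit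 0)) (M (nat_lit 774617917210755071))) (T.h (T.h (T.h (P (nat_lit 0)) (M (nat_lit 2900823876468735))) (P (nat_lit 0))) (P (nat_lit 0))))))), (T.h (T.h (T.h (P (nat_lit 5874464779828831870272703299584)) (T.h (P (nat_lit 0)) (T.h (M (nat_lit 1611613570259095289593855)) (T.h (P (nat_lit 0)) (M (nat_lit 520480761069961215)))))) (T.h (P (nat_lit 0)) (T.h (T.h (P (nat_lit 1789014615482866992152576)) (T.h (P (nat_lit 0)) (M (nat_lit 9375159022686044159)))) (T.h (P (nat_lit 0)) (P (nat_lit 2177192955230552064)))))) (T.h (T.h (P (nat_lit 0)) (T.h (T.h (P (nat_lit 0)) (T.h (P (nat_lit 40974228991500041060352)) (T.h (P (nat_lit 0)) (P (nat_lit 8086793378004992))))) (T.h (P (nat_lit 0)) (T.h (T.h (P (nat_lit 0)) (P (nat_lit 7058222133673984))) (P (nat_lit 0)))))) (T.h (T.h (T.h (P (nat_lit 14279468020943418277494784)) (T.h (P (nat_lit 0)) (P (nat_lit 51159269713876353024)))) (T.h (P (nat_lit 0)) (P (nat_lit 8895468585879601152)))) (T.h (T.h (P (nat_lit 0)) (T.h (T.h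 (P (nat_lit 0)) (M (nat_lit 2868643210854399))) (P (nat_lit 0)))) (P (nat_lit 3542750054391480320)))))), (T.h (T.h (T.h (P (nat_lit 0)) (T.h (M (nat_lit 28594865004676513644159172607)) (T.h (P (nat_lit 0)) (T.h (M (nat_lit 6427341441467206860799)) (T.h (P (nat_lit 0)) (P (nat_lit 520789253947392))))))) (T.h (P (nat_lit 0)) (T.h (T.h (P (nat_lit 0)) (T.h (P (nat_lit 9192677989439676350464)) (T.h (P (nat_lit 0)) (P (nat_lit 738651429666816))))) (T.h (P (nat_lit 0)) (T.h (T.h (P (nat_lit 0)) (P (nat_lit 1895257306300416))) (P (nat_lit 0))))))) (T.h (T.h (P (nat_lit 0)) (T.h (T.h (M (nat_lit 11146123448194610694717439)) (T.h (P (nat_lit 0)) (P (nat_lit 21612002833642553344)))) (T.h (P (nat_lit 0)) (M (nat_lit 3731991322861502463))))) (T.h (T.h (T.h (P (nat_lit 0)) (T.h (M (nat_lit 21528506760766722932735)) (T.h (P (nat_lit 0)) (P (nat_lit 154781880287232))))) (T.h (P (nat_lit 0)) (T.h (T.h (P (nat_lit 0)) (P (nat_lit 9472520804892672))) (P (nat_lit 0))))) (T.h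 (T.h (P (nat_lit 0)) (P (nat_lit 2052704746300506112))) (T.h (T.h (T.h (P (nat_lit 0)) (P (nat_lit 3398585621741568))) (P (nat_lit 0))) (P (nat_lit 0))))))), (T.h (T.h (T.h (P (nat_lit 14562162258249013777924918083584)) (T.h (P (nat_lit 0)) (T.h (P (nat_lit 5400635009370655693996032)) (T.h (P (nat_lit 0)) (M (nat_lit 2433391401669492735)))))) (T.h (P (nat_lit 0)) (T.h (T.h (P (nat_lit 472108168470894989017088)) (T.h (P (nat_lit 0)) (M (nat_lit 2606053976117870591)))) (T.h (P (nat_lit 0)) (P (nat_lit 555935322035191808)))))) (T.h (T.h (P (nat_lit 0)) (T.h (T.h (P (nat_lit 0)) (M (nat_lit 14866527205867955159039))) (P (nat_lit 0)))) (T.h (T.h (T.h (M (nat_lit 1586501907438543587770367)) (T.h (P (nat_lit 0)) (P (nat_lit 272633426224349184)))) (T.h (P (nat_lit 0)) (M (nat_lit 2619348724656111615)))) (T.h (P (nat_lit 0)) (P (nat_lit 1238029958807289856)))))), (P (nat_lit 0)), (P (nat_lit 0)), (T.h (T.h (P (nat_lit 0)) (T.h (T.h (P (nat_lit 0)) (T.h (M (nat_lit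 9757273083628805121114111)) (T.h (P (nat_lit 0)) (M (nat_lit 1294100041006317567))))) (T.h (P (nat_lit 0)) (T.h (T.h (P (nat_lit 0)) (P (nat_lit 7601593804566560768))) (P (nat_lit 0)))))) (T.h (T.h (T.h (P (nat_lit 2442310398557518728414625792)) (T.h (P (nat_lit 0)) (T.h (P (nat_lit 10589628919470721335296)) (T.h (P (nat_lit 0)) (M (nat_lit 10256884880048127)))))) (T.h (P (nat_lit 0)) (T.h (T.h (M (nat_lit 3440609914384377970687)) (T.h (P (nat_lit 0)) (P (nat_lit 662114089893888)))) (T.h (P (nat_lit 0)) (M (nat_lit 11219244777078783)))))) (T.h (T.h (P (nat_lit 0)) (T.h (T.h (P (nat_lit 0)) (M (nat_lit 17263664896277479423))) (P (nat_lit 0)))) (T.h (T.h (T.h (P (nat_lit 3679752308041006972928)) (T.h (P (nat_lit 0)) (M (nat_lit 7505970290819071)))) (T.h (P (nat_lit 0)) (M (nat_lit 6325588066500607)))) (T.h (P (nat_lit 0)) (M (nat_lit 1529427292192767)))))))]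
def lP22_15 : List (T ℤ) := [(T.h (T.h (P (nat_lit 0)) (T.h (T.h (P (nat_lit 55221998949462974010054672384)) (T.h (P (nat_lit 0)) (T.h (P (nat_lit 5103117227019068243968)) (T.h (P (nat_lit 0)) (M (nat_lit 4466280403861503)))))) (T.h (P (nat_lit 0)) (T.h (T.h (P (nat_lit 27264164408173673840640)) (T.h (P (nat_lit 0)) (M (nat_lit 19685094694060031)))) (T.h (P (nat_lit 0)) (P (nat_lit 9150280330575872))))))) (T.h (T.h (T.h (P (nat_lit 0)) (T.h (M (nat_lit 60295914289474881959493631)) (T.h (P (nat_lit 0)) (P (nat_lit 24319490141856989184))))) (T.h (P (nat_lit 0)) (T.h (T.h (P (nat_lit 0)) (M (nat_lit 9332677183400837119))) (P (nat_lit 0))))) (T.h (T.h (P (nat_lit 0)) (T.h (T.h (P (nat_lit 4200788420264904884224)) (T.h (P (nat_lit 0)) (P (nat_lit 5572251070889984)))) (T.h (P (nat_lit 0)) (M (nat_lit 5479029165686783))))) (T.h (T.h (T.h (P (nat_lit 0)) (P (nat_lit 52521544886121398272))) (P (nat_lit 0))) (T.h (T.h (P (nat_lit 0)) (P (nat_lit 319159333519360)))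 (P (nat_lit 0))))))), (T.h (T.h (P (nat_lit 0)) (T.h (T.h (P (nat_lit 0)) (T.h (P (nat_lit 25066800460561630132961280)) (T.h (P (nat_lit 0)) (M (nat_lit 24188117246850105343))))) (T.h (P (nat_lit 0)) (T.h (T.h (P (nat_lit 0)) (M (nat_lit 6901650912981286911))) (P (nat_lit 0)))))) (T.h (T.h (T.h (P (nat_lit 5746800424422967225513672704)) (T.h (P (nat_lit 0)) (T.h (P (nat_lit 29681071982198015393792)) (T.h (P (nat_lit 0)) (P (nat_lit 19010372635656192)))))) (T.h (P (nat_lit 0)) (T.h (T.h (M (nat_lit 15413272141028831264767)) (T.h (P (nat_lit 0)) (P (nat_lit 17627784670347264)))) (T.h (P (nat_lit 0)) (P (nat_lit 12073842188025856)))))) (T.h (T.h (P (nat_lit 0)) (T.h (T.h (P (nat_lit 0)) (M (nat_lit 14731472137529327615))) (P (nat_lit 0)))) (T.h (T.h (T.h (M (nat_lit 25043711753734569590783)) (T.h (P (nat_lit 0)) (P (nat_lit 30819837218652160)))) (T.h (P (nat_lit 0)) (P (nat_lit 8681195529961472)))) (T.h (P (nat_lit 0)) (P (nat_lit 845034740580352))))))), (T.h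 (T.h (P (nat_lit 0)) (T.h (T.h (M (nat_lit 81872531565312638851294953471)) (T.h (P (nat_lit 0)) (T.h (M (nat_lit 2559448776295541899263)) (T.h (P (nat_lit 0)) (M (nat_lit 162369889959935)))))) (T.h (P (nat_lit 0)) (T.h (T.h (M (nat_lit 20905636911282502238207)) (T.h (P (nat_lit 0)) (P (nat_lit 16795377330880512)))) (T.h (P (nat_lit 0)) (M (nat_lit 5125213912694783))))))) (T.h (T.h (T.h (P (nat_lit 0)) (T.h (P (nat_lit 52372709750936364979847168)) (T.h (P (nat_lit 0)) (P (nat_lit 19851441692485877760))))) (T.h (P (nat_lit 0)) (T.h (T.h (P (nat_lit 0)) (M (nat_lit 25629667899014643711))) (P (nat_lit 0))))) (T.h (T.h (P (nat_lit 0)) (T.h (T.h (P (nat_lit 7542479592929705852928)) (T.h (P (nat_lit 0)) (M (nat_lit 43036679422672895)))) (T.h (P (nat_lit 0)) (M (nat_lit 773836429983743))))) (T.h (T.h (T.h (P (nat_lit 0)) (M (nat_lit 40475916406100066303))) (P (nat_lit 0))) (T.h (T.h (P (nat_lit 0)) (M (nat_lit 10800809275686911))) (P (nat_lit 0))))))), (T.h (T.h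 (P (nat_lit 0)) (T.h (T.h (P (nat_lit 0)) (T.h (P (nat_lit 11958332812889106530959360)) (T.h (P (nat_lit 0)) (M (nat_lit 1916679011417718783))))) (T.h (P (nat_lit 0)) (T.h (T.h (P (nat_lit 0)) (M (nat_lit 17909357722080378879))) (P (nat_lit 0)))))) (T.h (T.h (T.h (M (nat_lit 19752523416278548368892887039)) (T.h (P (nat_lit 0)) (M (nat_lit 111927900620322322251775)))) (T.h (P (nat_lit 0)) (P (nat_lit 429836833835238555648)))) (T.h (T.h (P (nat_lit 0)) (T.h (T.h (P (nat_lit 0)) (P (nat_lit 11344965817079955456))) (P (nat_lit 0)))) (P (nat_lit 23993800654320155230208))))), (P (nat_lit 0)), (P (nat_lit 0)), (T.h (T.h (T.h (M (nat_lit 463082661980842549258724835327)) (T.h (P (nat_lit 0)) (T.h (M (nat_lit 3569015244786354544967679)) (T.h (P (nat_lit 0)) (P (nat_lit 631264490440097792)))))) (T.h (P (nat_lit 0)) (T.h (T.h (M (nat_lit 7138030489572709089935359)) (T.h (P (nat_lit 0)) (M (nat_lit 35764575600459644927)))) (T.h (P (nat_lit 0)) (P (nat_lit 1262528980880195584))))))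 (T.h (T.h (P (nat_lit 0)) (T.h (T.h (P (nat_lit 0)) (T.h (M (nat_lit 73295308027691286921215)) (T.h (P (nat_lit 0)) (M (nat_lit 9968598032580607))))) (T.h (P (nat_lit 0)) (T.h (T.h (P (nat_lit 0)) (M (nat_lit 6986896867852287))) (P (nat_lit 0)))))) (T.h (T.h (T.h (M (nat_lit 3569015244786354544967679)) (T.h (P (nat_lit 0)) (P (nat_lit 8471083428593270784)))) (T.h (P (nat_lit 0)) (M (nat_lit 35764575600459644927)))) (T.h (T.h (P (nat_lit 0)) (T.h (T.h (P (nat_lit 0)) (M (nat_lit 9968598032580607))) (P (nat_lit 0)))) (P (nat_lit 631264490440097792)))))), (T.h (T.h (T.h (P (nat_lit 0)) (T.h (P (nat_lit 40139860161165513613557891072)) (T.h (P (nat_lit 0)) (T.h (P (nat_lit 28038403196071316553728)) (T.h (P (nat_lit 0)) (P (nat_lit 6142943814746112))))))) (T.h (P (nat_lit 0)) (T.h (T.h (P (nat_lit 0)) (T.h (P (nat_lit 3865137828342911729664)) (T.h (P (nat_lit 0)) (P (nat_lit 15176532827373568))))) (T.h (P (nat_lit 0)) (T.h (T.h (P (nat_lit 0)) (P (nat_lit 7329798222643200)))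 (P (nat_lit 0))))))) (T.h (T.h (P (nat_lit 0)) (T.h (T.h (M (nat_lit 11934437532921410860613631)) (T.h (P (nat_lit 0)) (M (nat_lit 58741640355209281535)))) (T.h (P (nat_lit 0)) (P (nat_lit 53826327935916703744))))) (T.h (T.h (T.h (P (nat_lit 0)) (T.h (M (nat_lit 7617595123418036961279)) (T.h (P (nat_lit 0)) (M (nat_lit 5503358613258239))))) (T.h (P (nat_lit 0)) (T.h (T.h (P (nat_lit 0)) (P (nat_lit 60231746119663616))) (P (nat_lit 0))))) (T.h (T.h (P (nat_lit 0)) (P (nat_lit 66829192591726084096))) (T.h (T.h (T.h (P (nat_lit 0)) (M (nat_lit 1051252355235839))) (P (nat_lit 0))) (P (nat_lit 0)))))))]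
def lP22_16 : List (T ℤ) := [(T.h (T.h (T.h (P (nat_lit 4862367950798846767216610770944)) (T.h (P (nat_lit 0)) (T.h (M (nat_lit 468922426803184436510719)) (T.h (P (nat_lit 0)) (M (nat_lit 2526259543487283199)))))) (T.h (P (nat_lit 0)) (T.h (T.h (P (nat_lit 12224179581694546251087872)) (T.h (P (nat_lit 0)) (P (nat_lit 26759356300073631744)))) (T.h (P (nat_lit 0)) (P (nat_lit 1724560837756059648)))))) (T.h (T.h (P (nat_lit 0)) (T.h (T.h (P (nat_lit 0)) (T.h (P (nat_lit 182513382610604405030912)) (T.h (P (nat_lit 0)) (P (nat_lit 64881922977234944))))) (T.h (P (nat_lit 0)) (T.h (T.h (P (nat_lit 0)) (P (nat_lit 56142799308718080))) (P (nat_lit 0)))))) (T.h (T.h (T.h (M (nat_lit 266273823766005034254335)) (T.h (P (nat_lit 0)) (M (nat_lit 33775072436488765439)))) (T.h (P (nat_lit 0)) (M (nat_lit 16091310335331401727)))) (T.h (T.h (P (nat_lit 0)) (T.h (T.h (P (nat_lit 0)) (P (nat_lit 66069664653246464))) (P (nat_lit 0)))) (P (nat_lit 359003738595131392)))))), (T.h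 (T.h (T.h (P (nat_lit 0)) (T.h (M (nat_lit 87148427533023842730265018367)) (T.h (P (nat_lit 0)) (T.h (M (nat_lit 34283290825903862448127)) (T.h (P (nat_lit 0)) (M (nat_lit 9545610667622399))))))) (T.h (P (nat_lit 0)) (T.h (T.h (P (nat_lit 0)) (T.h (M (nat_lit 2415346596541754245119)) (T.h (P (nat_lit 0)) (M (nat_lit 13840874754539519))))) (T.h (P (nat_lit 0)) (T.h (T.h (P (nat_lit 0)) (P (nat_lit 4257975333421056))) (P (nat_lit 0))))))) (T.h (T.h (P (nat_lit 0)) (T.h (T.h (M (nat_lit 28828575599309159537836031)) (T.h (P (nat_lit 0)) (P (nat_lit 127508972051552534528)))) (T.h (P (nat_lit 0)) (M (nat_lit 67534288178527600639))))) (T.h (T.h (T.h (P (nat_lit 0)) (T.h (P (nat_lit 28305838153664645038080)) (T.h (P (nat_lit 0)) (M (nat_lit 13257005205159935))))) (T.h (P (nat_lit 0)) (T.h (T.h (P (nat_lit 0)) (M (nat_lit 81946674487099391))) (P (nat_lit 0))))) (T.h (T.h (P (nat_lit 0)) (M (nat_lit 73318984247689609215))) (T.h (T.h (T.h (P (nat_lit 0)) (P (nat_lit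 2754647017979904))) (P (nat_lit 0))) (P (nat_lit 0))))))), (T.h (T.h (T.h (P (nat_lit 60109166243227866605326969077760)) (T.h (P (nat_lit 0)) (T.h (P (nat_lit 40719940890041983696896000)) (T.h (P (nat_lit 0)) (P (nat_lit 17946597792554156032)))))) (T.h (P (nat_lit 0)) (T.h (T.h (P (nat_lit 10403754270588811868110848)) (T.h (P (nat_lit 0)) (P (nat_lit 13514117516904890368)))) (T.h (P (nat_lit 0)) (P (nat_lit 9777469247373443072)))))) (T.h (T.h (P (nat_lit 0)) (T.h (T.h (P (nat_lit 0)) (M (nat_lit 144840244602534396690431))) (P (nat_lit 0)))) (T.h (T.h (T.h (P (nat_lit 12462364346498250444898304)) (T.h (P (nat_lit 0)) (P (nat_lit 10635430114562670592)))) (T.h (P (nat_lit 0)) (P (nat_lit 28942010190122713088)))) (T.h (P (nat_lit 0)) (P (nat_lit 9095374610601345024)))))), (P (nat_lit 0)), (T.h (T.h (P (nat_lit 0)) (T.h (T.h (P (nat_lit 0)) (T.h (M (nat_lit 14280217490853106859114495)) (T.h (P (nat_lit 0)) (P (nat_lit 3431769517741572096))))) (T.h (P (nat_lit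 0)) (T.h (T.h (P (nat_lit 0)) (M (nat_lit 5463924327831306239))) (P (nat_lit 0)))))) (T.h (T.h (T.h (P (nat_lit 2442310398557518728414625792)) (T.h (P (nat_lit 0)) (T.h (M (nat_lit 3047215125714868109311)) (T.h (P (nat_lit 0)) (M (nat_lit 1626567914815487)))))) (T.h (P (nat_lit 0)) (T.h (T.h (P (nat_lit 10983023708140231196672)) (T.h (P (nat_lit 0)) (P (nat_lit 3547622079004672)))) (T.h (P (nat_lit 0)) (M (nat_lit 664208017784831)))))) (T.h (T.h (P (nat_lit 0)) (T.h (T.h (P (nat_lit 0)) (P (nat_lit 3565072346572128256))) (P (nat_lit 0)))) (T.h (T.h (T.h (P (nat_lit 3679752308041006972928)) (T.h (P (nat_lit 0)) (P (nat_lit 140431119548416)))) (T.h (P (nat_lit 0)) (M (nat_lit 1039951104770047)))) (T.h (P (nat_lit 0)) (M (nat_lit 11815390019583))))))), (T.h (T.h (P (nat_lit 0)) (T.h (T.h (P (nat_lit 36827404734363630945095909376)) (T.h (P (nat_lit 0)) (T.h (M (nat_lit 34473863033374812143615)) (T.h (P (nat_lit 0)) (M (nat_lit 7997325290766335)))))) (T.h (P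 (nat_lit 0)) (T.h (T.h (P (nat_lit 2408687731472838164480)) (T.h (P (nat_lit 0)) (P (nat_lit 18318139055538176)))) (T.h (P (nat_lit 0)) (P (nat_lit 6805333705752576))))))) (T.h (T.h (T.h (P (nat_lit 0)) (T.h (P (nat_lit 57593690791621456694345728)) (T.h (P (nat_lit 0)) (P (nat_lit 18518465322013425664))))) (T.h (P (nat_lit 0)) (T.h (T.h (P (nat_lit 0)) (M (nat_lit 90420078701805830143))) (P (nat_lit 0))))) (T.h (T.h (P (nat_lit 0)) (T.h (T.h (M (nat_lit 34473863033374812143615)) (T.h (P (nat_lit 0)) (P (nat_lit 43429856734871552)))) (T.h (P (nat_lit 0)) (P (nat_lit 18318139055538176))))) (T.h (T.h (T.h (P (nat_lit 0)) (P (nat_lit 18518465322013425664))) (P (nat_lit 0))) (T.h (T.h (P (nat_lit 0)) (M (nat_lit 7997325290766335))) (P (nat_lit 0))))))), (T.h (T.h (P (nat_lit 0)) (T.h (T.h (P (nat_lit 0)) (T.h (P (nat_lit 49450775449857293086097408)) (T.h (P (nat_lit 0)) (P (nat_lit 5963897495497998336))))) (T.h (P (nat_lit 0)) (T.h (T.h (P (nat_lit 0)) (M (nat_lit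 16728513253444943871))) (P (nat_lit 0)))))) (T.h (T.h (T.h (P (nat_lit 11014239196389045818047332352)) (T.h (P (nat_lit 0)) (T.h (M (nat_lit 22646441061832999305215)) (T.h (P (nat_lit 0)) (P (nat_lit 17103806890311680)))))) (T.h (P (nat_lit 0)) (T.h (T.h (P (nat_lit 27325007336551519092736)) (T.h (P (nat_lit 0)) (P (nat_lit 28816898590441472)))) (T.h (P (nat_lit 0)) (P (nat_lit 20078349551468544)))))) (T.h (T.h (P (nat_lit 0)) (T.h (T.h (P (nat_lit 0)) (M (nat_lit 37152445087875071999))) (P (nat_lit 0)))) (T.h (T.h (T.h (M (nat_lit 21872338475938247344127)) (T.h (P (nat_lit 0)) (P (nat_lit 11857050643529728)))) (T.h (P (nat_lit 0)) (P (nat_lit 32520620808732672)))) (P (nat_lit 0)))))), (T.h (T.h (P (nat_lit 0)) (T.h (T.h (M (nat_lit 111639084565308110667583062015)) (T.h (P (nat_lit 0)) (T.h (M (nat_lit 12157155756318574772223)) (T.h (P (nat_lit 0)) (P (nat_lit 11417582179713024)))))) (T.h (P (nat_lit 0)) (T.h (T.h (M (nat_lit 39484981292904688386047)) (T.h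 (P (nat_lit 0)) (M (nat_lit 4119908681318399)))) (T.h (P (nat_lit 0)) (M (nat_lit 10694952518221823))))))) (T.h (T.h (T.h (P (nat_lit 0)) (T.h (M (nat_lit 16284116165401987082354687)) (T.h (P (nat_lit 0)) (M (nat_lit 87407615236842192895))))) (T.h (P (nat_lit 0)) (T.h (T.h (P (nat_lit 0)) (P (nat_lit 106176674857073246208))) (P (nat_lit 0))))) (T.h (T.h (P (nat_lit 0)) (T.h (T.h (P (nat_lit 27704099958342383828992)) (T.h (P (nat_lit 0)) (M (nat_lit 47884073909157887)))) (T.h (P (nat_lit 0)) (M (nat_lit 8418601324707839))))) (T.h (T.h (T.h (P (nat_lit 0)) (M (nat_lit 73128364944465592319))) (P (nat_lit 0))) (T.h (T.h (P (nat_lit 0)) (M (nat_lit 7600330563846143))) (P (nat_lit 0)))))))]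
def lP22_17 : List (T ℤ) := [(T.h (T.h (P (nat_lit 0)) (T.h (T.h (P (nat_lit 0)) (T.h (P (nat_lit 5405014985188254869880832)) (T.h (P (nat_lit 0)) (M (nat_lit 10852175599695298559))))) (T.h (P (nat_lit 0)) (T.h (T.h (P (nat_lit 0)) (M (nat_lit 7713105224876949503))) (P (nat_lit 0)))))) (T.h (T.h (T.h (M (nat_lit 26391456626953548279461183487)) (T.h (P (nat_lit 0)) (M (nat_lit 28416974601521859657727)))) (T.h (P (nat_lit 0)) (M (nat_lit 32456490484449190871039)))) (T.h (T.h (P (nat_lit 0)) (T.h (T.h (P (nat_lit 0)) (P (nat_lit 28766007665830658048))) (P (nat_lit 0)))) (P (nat_lit 23567612570712412258304))))), (T.h (T.h (T.h (M (nat_lit 470961987125908346733519175679)) (T.h (P (nat_lit 0)) (T.h (M (nat_lit 1942057638129030519586815)) (T.h (P (nat_lit 0)) (M (nat_lit 3371299736341446655)))))) (T.h (P (nat_lit 0)) (T.h (T.h (P (nat_lit 57899600867765543501824)) (T.h (P (nat_lit 0)) (P (nat_lit 1192941709491699712)))) (T.h (P (nat_lit 0)) (M (nat_lit 846434129254809599))))))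 (T.h (T.h (P (nat_lit 0)) (T.h (T.h (P (nat_lit 0)) (T.h (P (nat_lit 538075358818507685888)) (T.h (P (nat_lit 0)) (M (nat_lit 598511274688511))))) (T.h (P (nat_lit 0)) (T.h (T.h (P (nat_lit 0)) (M (nat_lit 1583080657387519))) (P (nat_lit 0)))))) (T.h (T.h (T.h (M (nat_lit 1942057638129030519586815)) (T.h (P (nat_lit 0)) (M (nat_lit 556449493575270399)))) (T.h (P (nat_lit 0)) (P (nat_lit 1192941709491699712)))) (T.h (T.h (P (nat_lit 0)) (T.h (T.h (P (nat_lit 0)) (M (nat_lit 598511274688511))) (P (nat_lit 0)))) (M (nat_lit 3371299736341446655)))))), (T.h (T.h (T.h (P (nat_lit 0)) (T.h (P (nat_lit 22212443436440339672616402944)) (T.h (P (nat_lit 0)) (T.h (P (nat_lit 5587234294597026840576)) (T.h (P (nat_lit 0)) (P (nat_lit 4293038005878784))))))) (T.h (P (nat_lit 0)) (T.h (T.h (P (nat_lit 0)) (T.h (M (nat_lit 650868203350780805119)) (T.h (P (nat_lit 0)) (M (nat_lit 15027371136778239))))) (T.h (P (nat_lit 0)) (T.h (T.h (P (nat_lit 0)) (M (nat_lit 5862949325078527)))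 (P (nat_lit 0))))))) (T.h (T.h (P (nat_lit 0)) (T.h (T.h (P (nat_lit 7635818693151528446853120)) (T.h (P (nat_lit 0)) (P (nat_lit 28699690470066880512)))) (T.h (P (nat_lit 0)) (M (nat_lit 18711846820710973439))))) (T.h (T.h (T.h (P (nat_lit 0)) (T.h (M (nat_lit 1118880798883495018495)) (T.h (P (nat_lit 0)) (P (nat_lit 2071230352359424))))) (T.h (P (nat_lit 0)) (T.h (T.h (P (nat_lit 0)) (P (nat_lit 10816180136968192))) (P (nat_lit 0))))) (T.h (T.h (P (nat_lit 0)) (P (nat_lit 22440819617605615616))) (T.h (T.h (T.h (P (nat_lit 0)) (P (nat_lit 1239783424032768))) (P (nat_lit 0))) (P (nat_lit 0))))))), (T.h (T.h (T.h (P (nat_lit 0)) (T.h (P (nat_lit 0)) (T.h (P (nat_lit 12490453405460551285342208)) (T.h (P (nat_lit 0)) (P (nat_lit 260137554890719232)))))) (T.h (P (nat_lit 0)) (T.h (T.h (M (nat_lit 405297206074358804512767)) (T.h (P (nat_lit 0)) (P (nat_lit 38947021010189156352)))) (T.h (P (nat_lit 0)) (M (nat_lit 6875946108435038207)))))) (T.h (T.h (P (nat_lit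 0)) (T.h (T.h (P (nat_lit 0)) (T.h (P (nat_lit 81744665187243614273536)) (T.h (P (nat_lit 0)) (P (nat_lit 4189578922819584))))) (T.h (P (nat_lit 0)) (T.h (T.h (P (nat_lit 0)) (P (nat_lit 11740960915324928))) (P (nat_lit 0)))))) (T.h (T.h (T.h (P (nat_lit 12490453405460551285342208)) (T.h (P (nat_lit 0)) (P (nat_lit 13780116475941486592)))) (T.h (P (nat_lit 0)) (P (nat_lit 38947021010189156352)))) (T.h (T.h (P (nat_lit 0)) (T.h (T.h (P (nat_lit 0)) (P (nat_lit 4189578922819584))) (P (nat_lit 0)))) (P (nat_lit 260137554890719232)))))), (T.h (T.h (T.h (P (nat_lit 0)) (T.h (M (nat_lit 111649379093656465572779524095)) (T.h (P (nat_lit 0)) (T.h (M (nat_lit 27468002392758531653631)) (T.h (P (nat_lit 0)) (M (nat_lit 4869430459957247))))))) (T.h (P (nat_lit 0)) (T.h (T.h (P (nat_lit 0)) (T.h (M (nat_lit 27426744506454353379327)) (T.h (P (nat_lit 0)) (P (nat_lit 27092150744973312))))) (T.h (P (nat_lit 0)) (T.h (T.h (P (nat_lit 0)) (P (nat_lit 5870692475731968))) (P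 (nat_lit 0))))))) (T.h (T.h (P (nat_lit 0)) (T.h (T.h (P (nat_lit 46251314475609081092505600)) (T.h (P (nat_lit 0)) (M (nat_lit 30486692495049621503)))) (T.h (P (nat_lit 0)) (M (nat_lit 3567356427091574783))))) (T.h (T.h (T.h (P (nat_lit 0)) (T.h (P (nat_lit 16699597279558432194560)) (T.h (P (nat_lit 0)) (P (nat_lit 5402768076177408))))) (T.h (P (nat_lit 0)) (T.h (T.h (P (nat_lit 0)) (M (nat_lit 14393048313888767))) (P (nat_lit 0))))) (T.h (T.h (P (nat_lit 0)) (M (nat_lit 35245685555354140671))) (T.h (T.h (T.h (P (nat_lit 0)) (M (nat_lit 15736555481137151))) (P (nat_lit 0))) (P (nat_lit 0))))))), (T.h (T.h (T.h (P (nat_lit 72164845750266258836439449993216)) (T.h (P (nat_lit 0)) (T.h (P (nat_lit 11860278816002530611298304)) (T.h (P (nat_lit 0)) (P (nat_lit 6897119684500389888)))))) (T.h (P (nat_lit 0)) (T.h (T.h (P (nat_lit 35189328518646503158317056)) (T.h (P (nat_lit 0)) (M (nat_lit 6984047718104563711)))) (T.h (P (nat_lit 0)) (P (nat_lit 17848855930087669760))))))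 (T.h (T.h (P (nat_lit 0)) (T.h (T.h (P (nat_lit 0)) (M (nat_lit 128945604351942564249599))) (P (nat_lit 0)))) (T.h (T.h (T.h (P (nat_lit 8275948850999721698787328)) (T.h (P (nat_lit 0)) (P (nat_lit 10990466178542993408)))) (T.h (P (nat_lit 0)) (M (nat_lit 4096121544151924735)))) (T.h (P (nat_lit 0)) (P (nat_lit 14314608329991651328)))))), (T.h (T.h (P (nat_lit 0)) (T.h (T.h (P (nat_lit 0)) (T.h (P (nat_lit 0)) (T.h (P (nat_lit 1277770570003986251776)) (T.h (P (nat_lit 0)) (P (nat_lit 250554719240192)))))) (T.h (P (nat_lit 0)) (T.h (T.h (P (nat_lit 1386797677371080048640)) (T.h (P (nat_lit 0)) (M (nat_lit 3212398805352447)))) (T.h (P (nat_lit 0)) (M (nat_lit 520789253947391))))))) (T.h (T.h (T.h (P (nat_lit 0)) (T.h (M (nat_lit 820044288225231356559359)) (T.h (P (nat_lit 0)) (P (nat_lit 1172922028869550080))))) (T.h (P (nat_lit 0)) (T.h (T.h (P (nat_lit 0)) (P (nat_lit 1945289511797784576))) (P (nat_lit 0))))) (T.h (T.h (P (nat_lit 0)) (T.h (T.h (M (nat_lit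 1277770570003986251775)) (T.h (P (nat_lit 0)) (M (nat_lit 9472520804892671)))) (T.h (P (nat_lit 0)) (P (nat_lit 3212398805352448))))) (T.h (T.h (T.h (P (nat_lit 0)) (M (nat_lit 1172922028869550079))) (P (nat_lit 0))) (T.h (T.h (P (nat_lit 0)) (M (nat_lit 250554719240191))) (P (nat_lit 0))))))), (T.h (T.h (P (nat_lit 0)) (T.h (T.h (P (nat_lit 0)) (T.h (P (nat_lit 16159129519095628567674880)) (T.h (P (nat_lit 0)) (P (nat_lit 3256229217427259392))))) (T.h (P (nat_lit 0)) (T.h (T.h (P (nat_lit 0)) (P (nat_lit 8662173632501383168))) (P (nat_lit 0)))))) (T.h (T.h (T.h (M (nat_lit 3147316493728592057340002303)) (T.h (P (nat_lit 0)) (T.h (P (nat_lit 835233424690865242112)) (T.h (P (nat_lit 0)) (M (nat_lit 1036859366244351)))))) (T.h (P (nat_lit 0)) (T.h (T.h (M (nat_lit 4041870850466806497279)) (T.h (P (nat_lit 0)) (M (nat_lit 11975517620469759)))) (T.h (P (nat_lit 0)) (P (nat_lit 2925128420229120)))))) (T.h (T.h (P (nat_lit 0)) (T.h (T.h (P (nat_lit 0)) (P (nat_lit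 14223229982607409152))) (P (nat_lit 0)))) (T.h (T.h (T.h (M (nat_lit 4524051548051001573375)) (T.h (P (nat_lit 0)) (M (nat_lit 652816732782591)))) (T.h (P (nat_lit 0)) (P (nat_lit 822254790705152)))) (T.h (P (nat_lit 0)) (P (nat_lit 845034740580352)))))))]
def lP22_18 : List (T ℤ) := [(T.h (T.h (P (nat_lit 0)) (T.h (T.h (M (nat_lit 57189730009353027288318345215)) (T.h (P (nat_lit 0)) (T.h (M (nat_lit 12335828771327046582271)) (T.h (P (nat_lit 0)) (P (nat_lit 5293842928041984)))))) (T.h (P (nat_lit 0)) (T.h (T.h (M (nat_lit 10081087528192253624319)) (T.h (P (nat_lit 0)) (P (nat_lit 893433309954048)))) (P (nat_lit 0)))))) (T.h (T.h (T.h (P (nat_lit 0)) (T.h (M (nat_lit 23932335472839684102553599)) (T.h (P (nat_lit 0)) (M (nat_lit 1679286576560996351))))) (T.h (P (nat_lit 0)) (T.h (T.h (P (nat_lit 0)) (P (nat_lit 47114584690880675840))) (P (nat_lit 0))))) (T.h (T.h (P (nat_lit 0)) (T.h (M (nat_lit 12335828771327046582271)) (T.h (P (nat_lit 0)) (P (nat_lit 893433309954048)))))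 (T.h (T.h (T.h (P (nat_lit 0)) (M (nat_lit 1679286576560996351))) (P (nat_lit 0))) (T.h (T.h (P (nat_lit 0)) (P (nat_lit 5293842928041984))) (P (nat_lit 0))))))), (T.h (T.h (P (nat_lit 0)) (T.h (T.h (P (nat_lit 0)) (T.h (P (nat_lit 1839900546729946162135040)) (T.h (P (nat_lit 0)) (M (nat_lit 29578823941652217855))))) (T.h (P (nat_lit 0)) (T.h (T.h (P (nat_lit 0)) (M (nat_lit 10259484591651815423))) (P (nat_lit 0)))))) (T.h (T.h (T.h (M (nat_lit 24469419222045229835704336383)) (T.h (P (nat_lit 0)) (P (nat_lit 712339194485766356992)))) (T.h (P (nat_lit 0)) (M (nat_lit 97729438629200058646527)))) (T.h (T.h (P (nat_lit 0)) (T.h (T.h (P (nat_lit 0)) (M (nat_lit 1742512150376611839))) (P (nat_lit 0)))) (P (nat_lit 21863362471202775891968))))), (T.h (T.h (T.h (P (nat_lit 5874464779828831870272703299584)) (T.h (P (nat_lit 0)) (T.h (P (nat_lit 1789014615482866992152576)) (T.h (P (nat_lit 0)) (P (nat_lit 2729902727365656576)))))) (T.h (P (nat_lit 0)) (T.h (T.h (M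 (nat_lit 1408964967221915887337471)) (T.h (P (nat_lit 0)) (P (nat_lit 1418544840500576256)))) (T.h (P (nat_lit 0)) (P (nat_lit 2917492293147557888)))))) (T.h (T.h (P (nat_lit 0)) (T.h (T.h (P (nat_lit 0)) (P (nat_lit 101896397878233923584))) (T.h (P (nat_lit 0)) (T.h (T.h (P (nat_lit 0)) (P (nat_lit 2216312920342528))) (P (nat_lit 0)))))) (T.h (T.h (T.h (P (nat_lit 1789014615482866992152576)) (T.h (P (nat_lit 0)) (P (nat_lit 2005410347908857856)))) (T.h (P (nat_lit 0)) (P (nat_lit 1418544840500576256)))) (T.h (P (nat_lit 0)) (P (nat_lit 2729902727365656576)))))), (T.h (T.h (T.h (P (nat_lit 0)) (T.h (M (nat_lit 23308674508616954859992645631)) (T.h (P (nat_lit 0)) (T.h (M (nat_lit 3679868749620923334655)) (T.h (P (nat_lit 0)) (M (nat_lit 1405125303336959))))))) (T.h (P (nat_lit 0)) (T.h (T.h (P (nat_lit 0)) (T.h (M (nat_lit 6403020190384731979775)) (T.h (P (nat_lit 0)) (M (nat_lit 421025460584447))))) (T.h (P (nat_lit 0)) (T.h (T.h (P (nat_lit 0)) (P (nat_lit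 4525130102341632))) (P (nat_lit 0))))))) (T.h (T.h (P (nat_lit 0)) (T.h (T.h (P (nat_lit 6699686972814614291546112)) (T.h (P (nat_lit 0)) (P (nat_lit 7082019746996027392)))) (T.h (P (nat_lit 0)) (P (nat_lit 5598175807563366400))))) (T.h (T.h (T.h (P (nat_lit 0)) (T.h (M (nat_lit 566177892511311200255)) (T.h (P (nat_lit 0)) (M (nat_lit 599549196042239))))) (T.h (P (nat_lit 0)) (T.h (T.h (P (nat_lit 0)) (P (nat_lit 5418969469157376))) (P (nat_lit 0))))) (T.h (T.h (P (nat_lit 0)) (M (nat_lit 8771602870383411199))) (T.h (T.h (T.h (P (nat_lit 0)) (M (nat_lit 3523974070075391))) (P (nat_lit 0))) (P (nat_lit 0))))))), (T.h (T.h (T.h (P (nat_lit 29124324516498027555849836167168)) (T.h (P (nat_lit 0)) (T.h (M (nat_lit 1114393738967648598753279)) (T.h (P (nat_lit 0)) (P (nat_lit 1793965280842481664)))))) (T.h (P (nat_lit 0)) (T.h (T.h (P (nat_lit 10801270018741311387992064)) (T.h (P (nat_lit 0)) (M (nat_lit 2333420549893521407)))) (T.h (P (nat_lit 0)) (M (nat_lit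 3089155483198554111)))))) (T.h (T.h (P (nat_lit 0)) (T.h (T.h (P (nat_lit 0)) (M (nat_lit 29733054411735910318079))) (P (nat_lit 0)))) (T.h (T.h (T.h (M (nat_lit 1114393738967648598753279)) (T.h (P (nat_lit 0)) (P (nat_lit 1227876753494507520)))) (T.h (P (nat_lit 0)) (M (nat_lit 2333420549893521407)))) (T.h (P (nat_lit 0)) (P (nat_lit 1793965280842481664)))))), (T.h (T.h (P (nat_lit 0)) (T.h (P (nat_lit 0)) (T.h (P (nat_lit 0)) (T.h (M (nat_lit 1386797677371080048639)) (T.h (P (nat_lit 0)) (P (nat_lit 520789253947392))))))) (T.h (T.h (T.h (P (nat_lit 0)) (P (nat_lit 820044288225231356559360))) (T.h (P (nat_lit 0)) (T.h (T.h (P (nat_lit 0)) (M (nat_lit 1945289511797784575))) (P (nat_lit 0))))) (T.h (T.h (P (nat_lit 0)) (T.h (T.h (P (nat_lit 0)) (T.h (P (nat_lit 0)) (P (nat_lit 9472520804892672)))) (P (nat_lit 0)))) (P (nat_lit 0))))), (T.h (T.h (P (nat_lit 0)) (T.h (T.h (P (nat_lit 0)) (T.h (P (nat_lit 2424682419920877020774400)) (T.h (P (nat_lit 0)) (P (nat_lit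 287420047758983168))))) (T.h (P (nat_lit 0)) (T.h (T.h (P (nat_lit 0)) (M (nat_lit 6178310966397108223))) (P (nat_lit 0)))))) (T.h (T.h (T.h (M (nat_lit 279908450380878969705594879)) (T.h (P (nat_lit 0)) (M (nat_lit 25474099469558480895)))) (T.h (P (nat_lit 0)) (M (nat_lit 9901917847013963071487)))) (T.h (T.h (P (nat_lit 0)) (T.h (T.h (P (nat_lit 0)) (M (nat_lit 10165924027084832767))) (P (nat_lit 0)))) (P (nat_lit 2829812515106405220352))))), (T.h (T.h (P (nat_lit 0)) (T.h (P (nat_lit 0)) (T.h (P (nat_lit 0)) (T.h (P (nat_lit 0)) (M (nat_lit 888813660070215679)))))) (T.h (P (nat_lit 0)) (T.h (T.h (T.h (P (nat_lit 0)) (T.h (P (nat_lit 0)) (M (nat_lit 3233287101403365375)))) (P (nat_lit 0))) (P (nat_lit 0)))))]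
def lP22_19 : List (T ℤ) := [(P (nat_lit 0)), (P (nat_lit 0)), (T.h (T.h (P (nat_lit 0)) (T.h (T.h (P (nat_lit 4884620797115037456829251584)) (T.h (P (nat_lit 0)) (T.h (P (nat_lit 7935808582425363087360)) (T.h (P (nat_lit 0)) (M (nat_lit 2290775932600319)))))) (T.h (P (nat_lit 0)) (T.h (T.h (P (nat_lit 7359504616082013945856)) (T.h (P (nat_lit 0)) (M (nat_lit 899519985221631)))) (T.h (P (nat_lit 0)) (M (nat_lit 23630780039167))))))) (T.h (T.h (T.h (P (nat_lit 0)) (T.h (M (nat_lit 28560434981706213718228991)) (T.h (P (nat_lit 0)) (M (nat_lit 2032154810089734143))))) (T.h (P (nat_lit 0)) (T.h (T.h (P (nat_lit 0)) (P (nat_lit 7130144693144256512))) (P (nat_lit 0))))) (T.h (T.h (P (nat_lit 0)) (T.h (T.h (P (nat_lit 7935808582425363087360)) (T.h (P (nat_lit 0)) (P (nat_lit 7095244158009344)))) (T.h (P (nat_lit 0)) (M (nat_lit 899519985221631))))) (T.h (T.h (T.h (P (nat_lit 0)) (M (nat_lit 2032154810089734143))) (P (nat_lit 0))) (T.h (T.h (P (nat_lit 0)) (M (nat_lit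 2290775932600319))) (P (nat_lit 0))))))), (T.h (T.h (P (nat_lit 0)) (T.h (T.h (P (nat_lit 0)) (T.h (M (nat_lit 10710425911059386560675839)) (T.h (P (nat_lit 0)) (P (nat_lit 43795206205234741248))))) (T.h (P (nat_lit 0)) (T.h (T.h (P (nat_lit 0)) (M (nat_lit 3946141932501073919))) (P (nat_lit 0)))))) (T.h (T.h (T.h (P (nat_lit 50964804925013894208082149376)) (T.h (P (nat_lit 0)) (T.h (P (nat_lit 31917775378363474509824)) (T.h (P (nat_lit 0)) (M (nat_lit 18008412295430143)))))) (T.h (P (nat_lit 0)) (T.h (T.h (P (nat_lit 2975170884695903698944)) (T.h (P (nat_lit 0)) (M (nat_lit 56074701374488575)))) (T.h (P (nat_lit 0)) (P (nat_lit 13057807940812800)))))) (T.h (T.h (P (nat_lit 0)) (T.h (T.h (P (nat_lit 0)) (P (nat_lit 15701798467397484544))) (P (nat_lit 0)))) (T.h (T.h (T.h (P (nat_lit 8133014226559813287936)) (T.h (P (nat_lit 0)) (M (nat_lit 19318031015018495)))) (T.h (P (nat_lit 0)) (M (nat_lit 21532618195828735)))) (T.h (P (nat_lit 0)) (P (nat_lit 2390372298326016))))))),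 (T.h (T.h (P (nat_lit 0)) (T.h (T.h (M (nat_lit 1027194215491105522146344959)) (T.h (P (nat_lit 0)) (T.h (M (nat_lit 10439806346580109295615)) (T.h (P (nat_lit 0)) (P (nat_lit 6918233756270592)))))) (T.h (P (nat_lit 0)) (T.h (T.h (M (nat_lit 5876729818305680900095)) (T.h (P (nat_lit 0)) (P (nat_lit 3345293171490816)))) (T.h (P (nat_lit 0)) (P (nat_lit 845034740580352))))))) (T.h (T.h (T.h (P (nat_lit 0)) (T.h (P (nat_lit 56702234027486920088485888)) (T.h (P (nat_lit 0)) (P (nat_lit 24783951258407927808))))) (T.h (P (nat_lit 0)) (T.h (T.h (P (nat_lit 0)) (P (nat_lit 6025487014869073920))) (P (nat_lit 0))))) (T.h (T.h (P (nat_lit 0)) (T.h (T.h (M (nat_lit 5562702071422437556223)) (T.h (P (nat_lit 0)) (M (nat_lit 12761921320845311)))) (T.h (P (nat_lit 0)) (P (nat_lit 1870221648003072))))) (T.h (T.h (T.h (P (nat_lit 0)) (P (nat_lit 19378006843333804032))) (P (nat_lit 0))) (T.h (T.h (P (nat_lit 0)) (P (nat_lit 2956245969797120))) (P (nat_lit 0))))))), (T.h (T.h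 (P (nat_lit 0)) (T.h (T.h (P (nat_lit 0)) (T.h (P (nat_lit 7277978670301944695750656)) (T.h (P (nat_lit 0)) (M (nat_lit 12222446504450719743))))) (T.h (P (nat_lit 0)) (T.h (T.h (P (nat_lit 0)) (M (nat_lit 12312974890020896767))) (P (nat_lit 0)))))) (T.h (T.h (T.h (M (nat_lit 76394196545577736441469861887)) (T.h (P (nat_lit 0)) (T.h (M (nat_lit 37673336110928275439615)) (T.h (P (nat_lit 0)) (P (nat_lit 15083322570375168)))))) (T.h (P (nat_lit 0)) (T.h (T.h (P (nat_lit 8024761901606103941120)) (T.h (P (nat_lit 0)) (P (nat_lit 39481570047098880)))) (T.h (P (nat_lit 0)) (M (nat_lit 11983694345601023)))))) (T.h (T.h (P (nat_lit 0)) (T.h (T.h (P (nat_lit 0)) (P (nat_lit 9307014897957076992))) (P (nat_lit 0)))) (T.h (T.h (T.h (M (nat_lit 13922102980717876084735)) (T.h (P (nat_lit 0)) (P (nat_lit 9454722492923904)))) (T.h (P (nat_lit 0)) (P (nat_lit 4977506114076672)))) (T.h (P (nat_lit 0)) (M (nat_lit 2554467153936383))))))), (T.h (T.h (P (nat_lit 0)) (T.h (T.h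 (M (nat_lit 5276712706528439406222639103)) (T.h (P (nat_lit 0)) (M (nat_lit 5605373702905662537727)))) (T.h (P (nat_lit 0)) (P (nat_lit 3529186847095431102464))))) (T.h (T.h (T.h (P (nat_lit 0)) (T.h (M (nat_lit 5269067426317406327275519)) (T.h (P (nat_lit 0)) (M (nat_lit 20699427513028313087))))) (T.h (P (nat_lit 0)) (T.h (T.h (P (nat_lit 0)) (M (nat_lit 33419326021626232831))) (P (nat_lit 0))))) (T.h (T.h (P (nat_lit 0)) (P (nat_lit 231554161711410839552))) (T.h (T.h (T.h (P (nat_lit 0)) (M (nat_lit 11094626124053872639))) (P (nat_lit 0))) (P (nat_lit 0)))))), (P (nat_lit 0))]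
def lP22_20 : List (T ℤ) := [(P (nat_lit 0)), (T.h (T.h (T.h (P (nat_lit 0)) (T.h (P (nat_lit 2442310398557518728414625792)) (T.h (P (nat_lit 0)) (T.h (P (nat_lit 3679752308041006972928)) (T.h (P (nat_lit 0)) (M (nat_lit 1529427292192767))))))) (T.h (P (nat_lit 0)) (T.h (T.h (P (nat_lit 0)) (T.h (M (nat_lit 3440609914384377970687)) (T.h (P (nat_lit 0)) (M (nat_lit 6325588066500607))))) (T.h (P (nat_lit 0)) (T.h (T.h (P (nat_lit 0)) (M (nat_lit 11219244777078783))) (P (nat_lit 0))))))) (T.h (T.h (P (nat_lit 0)) (T.h (T.h (M (nat_lit 9757273083628805121114111)) (T.h (P (nat_lit 0)) (M (nat_lit 17263664896277479423)))) (T.h (P (nat_lit 0)) (P (nat_lit 7601593804566560768))))) (T.h (T.h (T.h (P (nat_lit 0)) (T.h (P (nat_lit 10589628919470721335296)) (T.h (P (nat_lit 0)) (M (nat_lit 7505970290819071))))) (T.h (P (nat_lit 0)) (T.h (T.h (P (nat_lit 0)) (P (nat_lit 662114089893888))) (P (nat_lit 0))))) (T.h (T.h (P (nat_lit 0)) (M (nat_lit 1294100041006317567)))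 (T.h (T.h (T.h (P (nat_lit 0)) (M (nat_lit 10256884880048127))) (P (nat_lit 0))) (P (nat_lit 0))))))), (T.h (T.h (T.h (P (nat_lit 15718686224849684345645831290880)) (T.h (P (nat_lit 0)) (T.h (M (nat_lit 28020363737730308810735615)) (T.h (P (nat_lit 0)) (P (nat_lit 39145449331347161088)))))) (T.h (P (nat_lit 0)) (T.h (T.h (M (nat_lit 58916694203927663527067647)) (T.h (P (nat_lit 0)) (P (nat_lit 23041441166729936896)))) (T.h (P (nat_lit 0)) (M (nat_lit 11280450483912703999)))))) (T.h (T.h (P (nat_lit 0)) (T.h (T.h (P (nat_lit 0)) (T.h (P (nat_lit 165247059149469285089280)) (T.h (P (nat_lit 0)) (M (nat_lit 90810439728037887))))) (T.h (P (nat_lit 0)) (T.h (T.h (P (nat_lit 0)) (M (nat_lit 52530798347157503))) (P (nat_lit 0)))))) (T.h (T.h (T.h (M (nat_lit 28020363737730308810735615)) (T.h (P (nat_lit 0)) (M (nat_lit 73597725370610614271)))) (T.h (P (nat_lit 0)) (P (nat_lit 23041441166729936896)))) (T.h (T.h (P (nat_lit 0)) (T.h (T.h (P (nat_lit 0)) (M (nat_lit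 90810439728037887))) (P (nat_lit 0)))) (P (nat_lit 39145449331347161088)))))), (T.h (T.h (T.h (P (nat_lit 0)) (T.h (P (nat_lit 4028972986639539540131315712)) (T.h (P (nat_lit 0)) (T.h (M (nat_lit 29265224384336552263679)) (T.h (P (nat_lit 0)) (P (nat_lit 1944089406472192))))))) (T.h (P (nat_lit 0)) (T.h (T.h (P (nat_lit 0)) (T.h (P (nat_lit 10463880996995683319808)) (T.h (P (nat_lit 0)) (P (nat_lit 33119459035185152))))) (T.h (P (nat_lit 0)) (T.h (T.h (P (nat_lit 0)) (P (nat_lit 22840329922084864))) (P (nat_lit 0))))))) (T.h (T.h (P (nat_lit 0)) (T.h (T.h (P (nat_lit 21983481191304210379964416)) (T.h (P (nat_lit 0)) (P (nat_lit 19682121665866629120)))) (T.h (P (nat_lit 0)) (P (nat_lit 258681154364768256))))) (T.h (T.h (T.h (P (nat_lit 0)) (T.h (P (nat_lit 60435329395380201717760)) (T.h (P (nat_lit 0)) (P (nat_lit 53783029200388096))))) (T.h (P (nat_lit 0)) (T.h (T.h (P (nat_lit 0)) (P (nat_lit 45316429866401792))) (P (nat_lit 0))))) (T.h (T.h (P (nat_lit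 0)) (M (nat_lit 22433729594578173951))) (T.h (T.h (T.h (P (nat_lit 0)) (P (nat_lit 25814872583241728))) (P (nat_lit 0))) (P (nat_lit 0))))))), (T.h (T.h (T.h (M (nat_lit 12033383155920978104893308927999)) (T.h (P (nat_lit 0)) (T.h (P (nat_lit 16526487823196466196774912)) (T.h (P (nat_lit 0)) (M (nat_lit 44496770827213078527)))))) (T.h (P (nat_lit 0)) (T.h (T.h (P (nat_lit 66751268070684515171827712)) (T.h (P (nat_lit 0)) (P (nat_lit 28368324160571572224)))) (T.h (P (nat_lit 0)) (M (nat_lit 27041683247099543551)))))) (T.h (T.h (P (nat_lit 0)) (T.h (T.h (P (nat_lit 0)) (T.h (M (nat_lit 74268288097036359696383)) (T.h (P (nat_lit 0)) (P (nat_lit 18592351234228224))))) (T.h (P (nat_lit 0)) (T.h (T.h (P (nat_lit 0)) (P (nat_lit 69759065467453440))) (P (nat_lit 0)))))) (T.h (T.h (T.h (P (nat_lit 32202323609322397531897856)) (T.h (P (nat_lit 0)) (P (nat_lit 164501384940125945856)))) (T.h (P (nat_lit 0)) (M (nat_lit 20112959232985268223)))) (T.h (T.h (P (nat_lit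 0)) (T.h (T.h (P (nat_lit 0)) (P (nat_lit 25101941556903936))) (P (nat_lit 0)))) (M (nat_lit 51473594901898199039)))))), (T.h (T.h (T.h (P (nat_lit 0)) (T.h (M (nat_lit 3387695508467639197435428863)) (T.h (P (nat_lit 0)) (P (nat_lit 27185431502022145736704))))) (T.h (P (nat_lit 0)) (T.h (T.h (P (nat_lit 0)) (M (nat_lit 36272100889309380345855))) (P (nat_lit 0))))) (T.h (T.h (P (nat_lit 0)) (T.h (T.h (P (nat_lit 6901087889603827716849664)) (T.h (P (nat_lit 0)) (M (nat_lit 16611612996791173119)))) (T.h (P (nat_lit 0)) (M (nat_lit 6921084663494606847))))) (T.h (T.h (T.h (P (nat_lit 0)) (M (nat_lit 148031791823306123902975))) (P (nat_lit 0))) (T.h (T.h (P (nat_lit 0)) (P (nat_lit 2780598039104978944))) (P (nat_lit 0)))))), (P (nat_lit 0)), (T.h (T.h (P (nat_lit 0)) (T.h (T.h (P (nat_lit 0)) (T.h (P (nat_lit 0)) (T.h (M (nat_lit 393394788669509861375)) (T.h (P (nat_lit 0)) (M (nat_lit 9592676862263295)))))) (T.h (P (nat_lit 0)) (T.h (T.h (P (nat_lit 0)) (T.h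 (P (nat_lit 0)) (M (nat_lit 6466019186049023)))) (T.h (P (nat_lit 0)) (M (nat_lit 1517611902173183))))))) (T.h (T.h (T.h (P (nat_lit 0)) (T.h (P (nat_lit 4522944407224301738000384)) (T.h (P (nat_lit 0)) (P (nat_lit 4169824286824988672))))) (T.h (P (nat_lit 0)) (T.h (T.h (P (nat_lit 0)) (M (nat_lit 20828737242849607679))) (P (nat_lit 0))))) (T.h (T.h (P (nat_lit 0)) (T.h (T.h (M (nat_lit 393394788669509861375)) (T.h (P (nat_lit 0)) (M (nat_lit 2885507989110783)))) (T.h (P (nat_lit 0)) (M (nat_lit 6466019186049023))))) (T.h (T.h (T.h (P (nat_lit 0)) (P (nat_lit 4169824286824988672))) (P (nat_lit 0))) (T.h (T.h (P (nat_lit 0)) (M (nat_lit 9592676862263295))) (P (nat_lit 0)))))))]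
def lP22_21 : List (T ℤ) := [(T.h (T.h (P (nat_lit 0)) (T.h (T.h (P (nat_lit 0)) (T.h (M (nat_lit 11934437532921410860613631)) (T.h (P (nat_lit 0)) (P (nat_lit 66829192591726084096))))) (T.h (P (nat_lit 0)) (T.h (T.h (P (nat_lit 0)) (P (nat_lit 53826327935916703744))) (P (nat_lit 0)))))) (T.h (T.h (T.h (P (nat_lit 40139860161165513613557891072)) (T.h (P (nat_lit 0)) (T.h (M (nat_lit 7617595123418036961279)) (T.h (P (nat_lit 0)) (M (nat_lit 1051252355235839)))))) (T.h (P (nat_lit 0)) (T.h (T.h (P (nat_lit 3865137828342911729664)) (T.h (P (nat_lit 0)) (P (nat_lit 60231746119663616)))) (T.h (P (nat_lit 0)) (P (nat_lit 7329798222643200)))))) (T.h (T.h (P (nat_lit 0)) (T.h (T.h (P (nat_lit 0)) (M (nat_lit 58741640355209281535))) (P (nat_lit 0)))) (T.h (T.h (T.h (P (nat_lit 28038403196071316553728)) (T.h (P (nat_lit 0)) (M (nat_lit 5503358613258239)))) (T.h (P (nat_lit 0)) (P (nat_lit 15176532827373568)))) (T.h (P (nat_lit 0)) (P (nat_lit 6142943814746112))))))),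 (T.h (T.h (P (nat_lit 0)) (T.h (T.h (P (nat_lit 17788233836303118565707350016)) (T.h (P (nat_lit 0)) (T.h (P (nat_lit 17474437266945125384192)) (T.h (P (nat_lit 0)) (P (nat_lit 29195945769697280)))))) (T.h (P (nat_lit 0)) (T.h (T.h (M (nat_lit 41039320411367136034815)) (T.h (P (nat_lit 0)) (P (nat_lit 39331594690691072)))) (P (nat_lit 0)))))) (T.h (T.h (T.h (P (nat_lit 0)) (T.h (P (nat_lit 17815341882932003130572800)) (T.h (P (nat_lit 0)) (M (nat_lit 43008171009760034815))))) (T.h (P (nat_lit 0)) (T.h (T.h (P (nat_lit 0)) (M (nat_lit 57909404240273473535))) (P (nat_lit 0))))) (T.h (T.h (P (nat_lit 0)) (T.h (T.h (P (nat_lit 17474437266945125384192)) (T.h (P (nat_lit 0)) (P (nat_lit 59206604581634048)))) (T.h (P (nat_lit 0)) (P (nat_lit 39331594690691072))))) (T.h (T.h (T.h (P (nat_lit 0)) (M (nat_lit 43008171009760034815))) (P (nat_lit 0))) (T.h (T.h (P (nat_lit 0)) (P (nat_lit 29195945769697280))) (P (nat_lit 0))))))), (T.h (T.h (P (nat_lit 0)) (T.h (T.h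 (P (nat_lit 0)) (T.h (P (nat_lit 28810614915232433201741824)) (T.h (P (nat_lit 0)) (M (nat_lit 55333727039905595391))))) (T.h (P (nat_lit 0)) (T.h (T.h (P (nat_lit 0)) (M (nat_lit 101291306460544761855))) (P (nat_lit 0)))))) (T.h (T.h (T.h (M (nat_lit 117117419585043013077408153599)) (T.h (P (nat_lit 0)) (T.h (P (nat_lit 22956731578314158768128)) (T.h (P (nat_lit 0)) (M (nat_lit 3828110280622079)))))) (T.h (P (nat_lit 0)) (T.h (T.h (P (nat_lit 27221817649665985740800)) (T.h (P (nat_lit 0)) (M (nat_lit 130402323378929663)))) (T.h (P (nat_lit 0)) (M (nat_lit 6417445493932031)))))) (T.h (T.h (P (nat_lit 0)) (T.h (T.h (P (nat_lit 0)) (P (nat_lit 71239992060101525504))) (P (nat_lit 0)))) (T.h (T.h (T.h (M (nat_lit 46468515223469314539519)) (T.h (P (nat_lit 0)) (P (nat_lit 3220746156638208)))) (T.h (P (nat_lit 0)) (M (nat_lit 14169943868768255)))) (T.h (P (nat_lit 0)) (M (nat_lit 13265699276980223))))))), (T.h (T.h (P (nat_lit 0)) (T.h (T.h (M (nat_lit 40867267336703657242131431423))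 (T.h (P (nat_lit 0)) (M (nat_lit 134739501518938519371775)))) (T.h (P (nat_lit 0)) (P (nat_lit 44032226377937136386048))))) (T.h (T.h (T.h (P (nat_lit 0)) (T.h (P (nat_lit 22632415224394767728115712)) (T.h (P (nat_lit 0)) (P (nat_lit 7930572901915295744))))) (T.h (P (nat_lit 0)) (T.h (T.h (P (nat_lit 0)) (P (nat_lit 73530299504536846336))) (P (nat_lit 0))))) (T.h (T.h (P (nat_lit 0)) (M (nat_lit 32258207812325363154943))) (T.h (T.h (T.h (P (nat_lit 0)) (M (nat_lit 14527836822903455743))) (P (nat_lit 0))) (P (nat_lit 0)))))), (T.h (T.h (T.h (P (nat_lit 0)) (T.h (P (nat_lit 2442310398557518728414625792)) (T.h (P (nat_lit 0)) (T.h (P (nat_lit 3679752308041006972928)) (T.h (P (nat_lit 0)) (M (nat_lit 11815390019583))))))) (T.h (P (nat_lit 0)) (T.h (T.h (P (nat_lit 0)) (T.h (P (nat_lit 10983023708140231196672)) (T.h (P (nat_lit 0)) (M (nat_lit 1039951104770047))))) (T.h (P (nat_lit 0)) (T.h (T.h (P (nat_lit 0)) (M (nat_lit 664208017784831))) (P (nat_lit 0)))))))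 (T.h (T.h (P (nat_lit 0)) (T.h (T.h (M (nat_lit 14280217490853106859114495)) (T.h (P (nat_lit 0)) (P (nat_lit 3565072346572128256)))) (T.h (P (nat_lit 0)) (M (nat_lit 5463924327831306239))))) (T.h (T.h (T.h (P (nat_lit 0)) (T.h (M (nat_lit 3047215125714868109311)) (T.h (P (nat_lit 0)) (P (nat_lit 140431119548416))))) (T.h (P (nat_lit 0)) (T.h (T.h (P (nat_lit 0)) (P (nat_lit 3547622079004672))) (P (nat_lit 0))))) (T.h (T.h (P (nat_lit 0)) (P (nat_lit 3431769517741572096))) (T.h (T.h (T.h (P (nat_lit 0)) (M (nat_lit 1626567914815487))) (P (nat_lit 0))) (P (nat_lit 0))))))), (T.h (T.h (T.h (P (nat_lit 2172901658626308867120382869504)) (T.h (P (nat_lit 0)) (T.h (M (nat_lit 18595559493076108607225855)) (T.h (P (nat_lit 0)) (P (nat_lit 14302589763541008384)))))) (T.h (P (nat_lit 0)) (T.h (T.h (P (nat_lit 7307570208912929812643840)) (T.h (P (nat_lit 0)) (M (nat_lit 16302925201312579583)))) (T.h (P (nat_lit 0)) (P (nat_lit 14810173141883551744)))))) (T.h (T.h (P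 (nat_lit 0)) (T.h (T.h (P (nat_lit 0)) (T.h (M (nat_lit 27147433252628683816959)) (T.h (P (nat_lit 0)) (M (nat_lit 32196628729430015))))) (T.h (P (nat_lit 0)) (T.h (T.h (P (nat_lit 0)) (P (nat_lit 40286892671303680))) (P (nat_lit 0)))))) (T.h (T.h (T.h (M (nat_lit 6297130738538266463567871)) (T.h (P (nat_lit 0)) (P (nat_lit 31397850390422618112)))) (T.h (P (nat_lit 0)) (M (nat_lit 80266014916329078783)))) (T.h (T.h (P (nat_lit 0)) (T.h (T.h (P (nat_lit 0)) (P (nat_lit 22913739071815680))) (P (nat_lit 0)))) (P (nat_lit 12232929879535910912)))))), (T.h (T.h (T.h (P (nat_lit 0)) (T.h (P (nat_lit 11014239196389045818047332352)) (T.h (P (nat_lit 0)) (M (nat_lit 21872338475938247344127))))) (T.h (P (nat_lit 0)) (T.h (T.h (P (nat_lit 0)) (T.h (P (nat_lit 27325007336551519092736)) (T.h (P (nat_lit 0)) (P (nat_lit 32520620808732672))))) (T.h (P (nat_lit 0)) (T.h (T.h (P (nat_lit 0)) (P (nat_lit 20078349551468544))) (P (nat_lit 0))))))) (T.h (T.h (P (nat_lit 0)) (T.h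 (T.h (P (nat_lit 49450775449857293086097408)) (T.h (P (nat_lit 0)) (M (nat_lit 37152445087875071999)))) (T.h (P (nat_lit 0)) (M (nat_lit 16728513253444943871))))) (T.h (T.h (T.h (P (nat_lit 0)) (T.h (M (nat_lit 22646441061832999305215)) (T.h (P (nat_lit 0)) (P (nat_lit 11857050643529728))))) (T.h (P (nat_lit 0)) (T.h (T.h (P (nat_lit 0)) (P (nat_lit 28816898590441472))) (P (nat_lit 0))))) (T.h (T.h (P (nat_lit 0)) (P (nat_lit 5963897495497998336))) (T.h (T.h (T.h (P (nat_lit 0)) (P (nat_lit 17103806890311680))) (P (nat_lit 0))) (P (nat_lit 0))))))), (T.h (T.h (T.h (M (nat_lit 20064489542102302079886597029887)) (T.h (P (nat_lit 0)) (T.h (P (nat_lit 61558868728717763101589504)) (T.h (P (nat_lit 0)) (M (nat_lit 41756640697967968255)))))) (T.h (P (nat_lit 0)) (T.h (T.h (P (nat_lit 27009924267355645461659648)) (T.h (P (nat_lit 0)) (P (nat_lit 97996694423714398208)))) (T.h (P (nat_lit 0)) (M (nat_lit 66188552352766623743)))))) (T.h (T.h (P (nat_lit 0)) (T.h (T.h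 (P (nat_lit 0)) (T.h (M (nat_lit 110952192644211917455359)) (T.h (P (nat_lit 0)) (P (nat_lit 72266931895468032))))) (T.h (P (nat_lit 0)) (T.h (T.h (P (nat_lit 0)) (P (nat_lit 27609807984918528))) (P (nat_lit 0)))))) (T.h (T.h (T.h (P (nat_lit 61558868728717763101589504)) (T.h (P (nat_lit 0)) (M (nat_lit 38136366355839975423)))) (T.h (P (nat_lit 0)) (P (nat_lit 97996694423714398208)))) (T.h (T.h (P (nat_lit 0)) (T.h (T.h (P (nat_lit 0)) (P (nat_lit 72266931895468032))) (P (nat_lit 0)))) (M (nat_lit 41756640697967968255))))))]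
def lP22_22 : List (T ℤ) := [(T.h (T.h (T.h (P (nat_lit 0)) (T.h (M (nat_lit 27395621484421177028340875263)) (T.h (P (nat_lit 0)) (P (nat_lit 47306577088496319594496))))) (T.h (P (nat_lit 0)) (T.h (T.h (P (nat_lit 0)) (M (nat_lit 144473209679626903748607))) (P (nat_lit 0))))) (T.h (T.h (P (nat_lit 0)) (T.h (T.h (P (nat_lit 19182100134511518328815616)) (T.h (P (nat_lit 0)) (P (nat_lit 47708842287708504064)))) (T.h (P (nat_lit 0)) (P (nat_lit 5084902959863562240))))) (T.h (T.h (T.h (P (nat_lit 0)) (M (nat_lit 32713518745630160191487))) (P (nat_lit 0))) (T.h (T.h (P (nat_lit 0)) (M (nat_lit 4616779742736023551))) (P (nat_lit 0)))))), (T.h (T.h (P (nat_lit 0)) (T.h (T.h (P (nat_lit 0)) (T.h (M (nat_lit 8807245776857616942628863)) (T.h (P (nat_lit 0)) (P (nat_lit 5476563799450320896))))) (T.h (P (nat_lit 0)) (T.h (T.h (P (nat_lit 0)) (M (nat_lit 5996092034685861887))) (P (nat_lit 0)))))) (T.h (T.h (T.h (P (nat_lit 22549686110619622894297153536)) (T.h (P (nat_lit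 0)) (T.h (M (nat_lit 4276355499288042668031)) (T.h (P (nat_lit 0)) (P (nat_lit 4056569522847744)))))) (T.h (P (nat_lit 0)) (T.h (T.h (P (nat_lit 538372468300809502720)) (T.h (P (nat_lit 0)) (M (nat_lit 17651129576325119)))) (T.h (P (nat_lit 0)) (P (nat_lit 537820007137280)))))) (T.h (T.h (P (nat_lit 0)) (T.h (T.h (P (nat_lit 0)) (M (nat_lit 7115061308898148351))) (P (nat_lit 0)))) (T.h (T.h (T.h (P (nat_lit 4987765701830972014592)) (T.h (P (nat_lit 0)) (M (nat_lit 1762998010347519)))) (T.h (P (nat_lit 0)) (P (nat_lit 3255958531735552)))) (T.h (P (nat_lit 0)) (P (nat_lit 129108033208320))))))), (T.h (T.h (P (nat_lit 0)) (T.h (T.h (M (nat_lit 4865143931512019742722359295)) (T.h (P (nat_lit 0)) (T.h (P (nat_lit 26712386562715379826688)) (T.h (P (nat_lit 0)) (P (nat_lit 9729628367814656)))))) (T.h (P (nat_lit 0)) (T.h (T.h (M (nat_lit 8745564178652984246271)) (T.h (P (nat_lit 0)) (P (nat_lit 23785446772441088)))) (T.h (P (nat_lit 0)) (P (nat_lit 1944089406472192)))))))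 (T.h (T.h (T.h (P (nat_lit 0)) (T.h (P (nat_lit 13075810249838208814678016)) (T.h (P (nat_lit 0)) (P (nat_lit 10416561284773314560))))) (T.h (P (nat_lit 0)) (T.h (T.h (P (nat_lit 0)) (P (nat_lit 48636823786003365888))) (P (nat_lit 0))))) (T.h (T.h (P (nat_lit 0)) (T.h (T.h (P (nat_lit 26712386562715379826688)) (T.h (P (nat_lit 0)) (P (nat_lit 15713127575584768)))) (T.h (P (nat_lit 0)) (P (nat_lit 23785446772441088))))) (T.h (T.h (T.h (P (nat_lit 0)) (P (nat_lit 10416561284773314560))) (P (nat_lit 0))) (T.h (T.h (P (nat_lit 0)) (P (nat_lit 9729628367814656))) (P (nat_lit 0))))))), (T.h (T.h (P (nat_lit 0)) (T.h (T.h (P (nat_lit 0)) (T.h (P (nat_lit 46251314475609081092505600)) (T.h (P (nat_lit 0)) (M (nat_lit 35245685555354140671))))) (T.h (P (nat_lit 0)) (T.h (T.h (P (nat_lit 0)) (M (nat_lit 3567356427091574783))) (P (nat_lit 0)))))) (T.h (T.h (T.h (M (nat_lit 111649379093656465572779524095)) (T.h (P (nat_lit 0)) (T.h (P (nat_lit 16699597279558432194560))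 (T.h (P (nat_lit 0)) (M (nat_lit 15736555481137151)))))) (T.h (P (nat_lit 0)) (T.h (T.h (M (nat_lit 27426744506454353379327)) (T.h (P (nat_lit 0)) (M (nat_lit 14393048313888767)))) (T.h (P (nat_lit 0)) (P (nat_lit 5870692475731968)))))) (T.h (T.h (P (nat_lit 0)) (T.h (T.h (P (nat_lit 0)) (M (nat_lit 30486692495049621503))) (P (nat_lit 0)))) (T.h (T.h (T.h (M (nat_lit 27468002392758531653631)) (T.h (P (nat_lit 0)) (P (nat_lit 5402768076177408)))) (T.h (P (nat_lit 0)) (P (nat_lit 27092150744973312)))) (T.h (P (nat_lit 0)) (M (nat_lit 4869430459957247))))))), (T.h (T.h (P (nat_lit 0)) (T.h (T.h (M (nat_lit 12001938227230378370793471999)) (T.h (P (nat_lit 0)) (M (nat_lit 111759690933996743557119)))) (T.h (P (nat_lit 0)) (P (nat_lit 48876677699545866436608))))) (T.h (T.h (T.h (P (nat_lit 0)) (T.h (P (nat_lit 12166670606169960221769728)) (T.h (P (nat_lit 0)) (M (nat_lit 6869758676744273919))))) (T.h (P (nat_lit 0)) (T.h (T.h (P (nat_lit 0)) (M (nat_lit 8621134745327108095)))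 (P (nat_lit 0))))) (T.h (T.h (P (nat_lit 0)) (M (nat_lit 111759690933996743557119))) (T.h (T.h (T.h (P (nat_lit 0)) (M (nat_lit 6869758676744273919))) (P (nat_lit 0))) (P (nat_lit 0)))))), (T.h (T.h (T.h (P (nat_lit 0)) (T.h (M (nat_lit 3147316493728592057340002303)) (T.h (P (nat_lit 0)) (T.h (M (nat_lit 4524051548051001573375)) (T.h (P (nat_lit 0)) (P (nat_lit 845034740580352))))))) (T.h (P (nat_lit 0)) (T.h (T.h (P (nat_lit 0)) (T.h (M (nat_lit 4041870850466806497279)) (T.h (P (nat_lit 0)) (P (nat_lit 822254790705152))))) (T.h (P (nat_lit 0)) (T.h (T.h (P (nat_lit 0)) (P (nat_lit 2925128420229120))) (P (nat_lit 0))))))) (T.h (T.h (P (nat_lit 0)) (T.h (T.h (P (nat_lit 16159129519095628567674880)) (T.h (P (nat_lit 0)) (P (nat_lit 14223229982607409152)))) (T.h (P (nat_lit 0)) (P (nat_lit 8662173632501383168))))) (T.h (T.h (T.h (P (nat_lit 0)) (T.h (P (nat_lit 835233424690865242112)) (T.h (P (nat_lit 0)) (M (nat_lit 652816732782591))))) (T.h (P (nat_lit 0))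 (T.h (T.h (P (nat_lit 0)) (M (nat_lit 11975517620469759))) (P (nat_lit 0))))) (T.h (T.h (P (nat_lit 0)) (P (nat_lit 3256229217427259392))) (T.h (T.h (T.h (P (nat_lit 0)) (M (nat_lit 1036859366244351))) (P (nat_lit 0))) (P (nat_lit 0))))))), (T.h (T.h (T.h (M (nat_lit 2001138384869827064950010413055)) (T.h (P (nat_lit 0)) (T.h (P (nat_lit 18697361475644574801068032)) (T.h (P (nat_lit 0)) (M (nat_lit 18379318725514887167)))))) (T.h (P (nat_lit 0)) (T.h (T.h (P (nat_lit 3021525689518643465945088)) (T.h (P (nat_lit 0)) (P (nat_lit 47436507338491559936)))) (T.h (P (nat_lit 0)) (M (nat_lit 11402494650829766655)))))) (T.h (T.h (P (nat_lit 0)) (T.h (T.h (P (nat_lit 0)) (T.h (M (nat_lit 18792191774930400968703)) (T.h (P (nat_lit 0)) (P (nat_lit 11297037564444672))))) (T.h (P (nat_lit 0)) (T.h (T.h (P (nat_lit 0)) (P (nat_lit 4787447241768960))) (P (nat_lit 0)))))) (T.h (T.h (T.h (P (nat_lit 18697361475644574801068032)) (T.h (P (nat_lit 0)) (M (nat_lit 1044776055065280511))))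 (T.h (P (nat_lit 0)) (P (nat_lit 47436507338491559936)))) (T.h (T.h (P (nat_lit 0)) (T.h (T.h (P (nat_lit 0)) (P (nat_lit 11297037564444672))) (P (nat_lit 0)))) (M (nat_lit 18379318725514887167)))))), (T.h (T.h (T.h (P (nat_lit 0)) (T.h (M (nat_lit 24469419222045229835704336383)) (T.h (P (nat_lit 0)) (P (nat_lit 21863362471202775891968))))) (T.h (P (nat_lit 0)) (T.h (T.h (P (nat_lit 0)) (M (nat_lit 97729438629200058646527))) (P (nat_lit 0))))) (T.h (T.h (P (nat_lit 0)) (T.h (T.h (P (nat_lit 1839900546729946162135040)) (T.h (P (nat_lit 0)) (M (nat_lit 1742512150376611839)))) (T.h (P (nat_lit 0)) (M (nat_lit 10259484591651815423))))) (T.h (T.h (T.h (P (nat_lit 0)) (P (nat_lit 712339194485766356992))) (P (nat_lit 0))) (T.h (T.h (P (nat_lit 0)) (M (nat_lit 29578823941652217855))) (P (nat_lit 0))))))]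
def lP22_23 : List (T ℤ) := [(T.h (T.h (P (nat_lit 0)) (T.h (T.h (P (nat_lit 0)) (T.h (P (nat_lit 6699686972814614291546112)) (T.h (P (nat_lit 0)) (M (nat_lit 8771602870383411199))))) (T.h (P (nat_lit 0)) (T.h (T.h (P (nat_lit 0)) (P (nat_lit 5598175807563366400))) (P (nat_lit 0)))))) (T.h (T.h (T.h (M (nat_lit 23308674508616954859992645631)) (T.h (P (nat_lit 0)) (T.h (M (nat_lit 566177892511311200255)) (T.h (P (nat_lit 0)) (M (nat_lit 3523974070075391)))))) (T.h (P (nat_lit 0)) (T.h (T.h (M (nat_lit 6403020190384731979775)) (T.h (P (nat_lit 0)) (P (nat_lit 5418969469157376)))) (T.h (P (nat_lit 0)) (P (nat_lit 4525130102341632)))))) (T.h (T.h (P (nat_lit 0)) (T.h (T.h (P (nat_lit 0)) (P (nat_lit 7082019746996027392))) (P (nat_lit 0)))) (T.h (T.h (T.h (M (nat_lit 3679868749620923334655)) (T.h (P (nat_lit 0)) (M (nat_lit 599549196042239)))) (T.h (P (nat_lit 0)) (M (nat_lit 421025460584447)))) (T.h (P (nat_lit 0)) (M (nat_lit 1405125303336959))))))), (T.h (T.h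 (P (nat_lit 0)) (T.h (T.h (P (nat_lit 2613273605147549987961307136)) (T.h (P (nat_lit 0)) (M (nat_lit 36272100889309380345855)))) (T.h (P (nat_lit 0)) (P (nat_lit 2747092652249212518400))))) (T.h (T.h (T.h (P (nat_lit 0)) (T.h (P (nat_lit 817752586518847605964800)) (T.h (P (nat_lit 0)) (P (nat_lit 1364636026177323008))))) (T.h (P (nat_lit 0)) (T.h (T.h (P (nat_lit 0)) (M (nat_lit 12301045624127619071))) (P (nat_lit 0))))) (T.h (T.h (P (nat_lit 0)) (M (nat_lit 36272100889309380345855))) (T.h (T.h (T.h (P (nat_lit 0)) (P (nat_lit 1364636026177323008))) (P (nat_lit 0))) (P (nat_lit 0)))))), (T.h (T.h (T.h (P (nat_lit 0)) (T.h (M (nat_lit 279908450380878969705594879)) (T.h (P (nat_lit 0)) (P (nat_lit 2829812515106405220352))))) (T.h (P (nat_lit 0)) (T.h (T.h (P (nat_lit 0)) (M (nat_lit 9901917847013963071487))) (P (nat_lit 0))))) (T.h (T.h (P (nat_lit 0)) (T.h (T.h (P (nat_lit 2424682419920877020774400)) (T.h (P (nat_lit 0)) (M (nat_lit 10165924027084832767))))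 (T.h (P (nat_lit 0)) (M (nat_lit 6178310966397108223))))) (T.h (T.h (T.h (P (nat_lit 0)) (M (nat_lit 25474099469558480895))) (P (nat_lit 0))) (T.h (T.h (P (nat_lit 0)) (P (nat_lit 287420047758983168))) (P (nat_lit 0)))))), (P (nat_lit 0)), (P (nat_lit 0)), (T.h (T.h (T.h (M (nat_lit 702503318116329621362881593343)) (T.h (P (nat_lit 0)) (T.h (M (nat_lit 5511072882915385064554495)) (T.h (P (nat_lit 0)) (M (nat_lit 2740035245901348863)))))) (T.h (P (nat_lit 0)) (T.h (T.h (M (nat_lit 1942057638129030519586815)) (T.h (P (nat_lit 0)) (P (nat_lit 3679092220721364992)))) (T.h (P (nat_lit 0)) (M (nat_lit 3371299736341446655)))))) (T.h (T.h (P (nat_lit 0)) (T.h (T.h (P (nat_lit 0)) (T.h (M (nat_lit 36109578655027135774719)) (T.h (P (nat_lit 0)) (M (nat_lit 4091959708614655))))) (T.h (P (nat_lit 0)) (T.h (T.h (P (nat_lit 0)) (M (nat_lit 7073660873342975))) (P (nat_lit 0)))))) (T.h (T.h (T.h (M (nat_lit 3511115643918589001465855)) (T.h (P (nat_lit 0)) (M (nat_lit 38807175605264580607))))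 (T.h (P (nat_lit 0)) (P (nat_lit 5428483423788335104)))) (T.h (T.h (P (nat_lit 0)) (T.h (T.h (P (nat_lit 0)) (M (nat_lit 5076529091313663))) (P (nat_lit 0)))) (M (nat_lit 215169638814711807)))))), (T.h (T.h (T.h (P (nat_lit 0)) (T.h (P (nat_lit 50964804925013894208082149376)) (T.h (P (nat_lit 0)) (T.h (P (nat_lit 8133014226559813287936)) (T.h (P (nat_lit 0)) (P (nat_lit 2390372298326016))))))) (T.h (P (nat_lit 0)) (T.h (T.h (P (nat_lit 0)) (T.h (P (nat_lit 2975170884695903698944)) (T.h (P (nat_lit 0)) (M (nat_lit 21532618195828735))))) (T.h (P (nat_lit 0)) (T.h (T.h (P (nat_lit 0)) (P (nat_lit 13057807940812800))) (P (nat_lit 0))))))) (T.h (T.h (P (nat_lit 0)) (T.h (T.h (M (nat_lit 10710425911059386560675839)) (T.h (P (nat_lit 0)) (P (nat_lit 15701798467397484544)))) (T.h (P (nat_lit 0)) (M (nat_lit 3946141932501073919))))) (T.h (T.h (T.h (P (nat_lit 0)) (T.h (P (nat_lit 31917775378363474509824)) (T.h (P (nat_lit 0)) (M (nat_lit 19318031015018495))))) (T.h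 (P (nat_lit 0)) (T.h (T.h (P (nat_lit 0)) (M (nat_lit 56074701374488575))) (P (nat_lit 0))))) (T.h (T.h (P (nat_lit 0)) (P (nat_lit 43795206205234741248))) (T.h (T.h (T.h (P (nat_lit 0)) (M (nat_lit 18008412295430143))) (P (nat_lit 0))) (P (nat_lit 0))))))), (T.h (T.h (T.h (P (nat_lit 0)) (T.h (P (nat_lit 0)) (T.h (P (nat_lit 12287804802423371883085824)) (T.h (P (nat_lit 0)) (M (nat_lit 2625125727191695359)))))) (T.h (P (nat_lit 0)) (T.h (T.h (P (nat_lit 0)) (T.h (P (nat_lit 0)) (M (nat_lit 3903645625215877119)))) (T.h (P (nat_lit 0)) (M (nat_lit 1105419544270209023)))))) (T.h (T.h (P (nat_lit 0)) (T.h (T.h (P (nat_lit 0)) (T.h (P (nat_lit 81744665187243614273536)) (T.h (P (nat_lit 0)) (P (nat_lit 3001837246808064))))) (T.h (P (nat_lit 0)) (T.h (T.h (P (nat_lit 0)) (P (nat_lit 14116444267347968))) (P (nat_lit 0)))))) (T.h (T.h (T.h (P (nat_lit 12287804802423371883085824)) (T.h (P (nat_lit 0)) (P (nat_lit 99481449746751553536)))) (T.h (P (nat_lit 0)) (M (nat_lit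 3903645625215877119)))) (T.h (T.h (P (nat_lit 0)) (T.h (T.h (P (nat_lit 0)) (P (nat_lit 3001837246808064))) (P (nat_lit 0)))) (M (nat_lit 2625125727191695359))))))]
def lP22_24 : List (T ℤ) := [(T.h (T.h (T.h (P (nat_lit 0)) (T.h (M (nat_lit 81680387041637295225636388863)) (T.h (P (nat_lit 0)) (T.h (M (nat_lit 15282777995193079562239)) (T.h (P (nat_lit 0)) (M (nat_lit 1149341850599423))))))) (T.h (P (nat_lit 0)) (T.h (T.h (P (nat_lit 0)) (T.h (P (nat_lit 17783617783557091491840)) (T.h (P (nat_lit 0)) (P (nat_lit 6315706739785728))))) (T.h (P (nat_lit 0)) (T.h (T.h (P (nat_lit 0)) (M (nat_lit 6564462969225215))) (P (nat_lit 0))))))) (T.h (T.h (P (nat_lit 0)) (T.h (T.h (M (nat_lit 11387876038932511647072255)) (T.h (P (nat_lit 0)) (P (nat_lit 25782287496401387520)))) (T.h (P (nat_lit 0)) (M (nat_lit 7273363342498988031))))) (T.h (T.h (T.h (P (nat_lit 0)) (T.h (M (nat_lit 52798822681310266392575)) (T.h (P (nat_lit 0)) (P (nat_lit 10030529833795584))))) (T.h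 (P (nat_lit 0)) (T.h (T.h (P (nat_lit 0)) (P (nat_lit 34062600577941504))) (P (nat_lit 0))))) (T.h (T.h (P (nat_lit 0)) (M (nat_lit 15767917565713580031))) (T.h (T.h (T.h (P (nat_lit 0)) (P (nat_lit 13956778089775104))) (P (nat_lit 0))) (P (nat_lit 0))))))), (T.h (T.h (T.h (P (nat_lit 41180004023536419786962317082624)) (T.h (P (nat_lit 0)) (T.h (P (nat_lit 5270657647345830849413120)) (T.h (P (nat_lit 0)) (M (nat_lit 3186897345665040383)))))) (T.h (P (nat_lit 0)) (T.h (T.h (M (nat_lit 3242199158556738768076799)) (T.h (P (nat_lit 0)) (M (nat_lit 19943659610950336511)))) (T.h (P (nat_lit 0)) (P (nat_lit 6331104363460689920)))))) (T.h (T.h (P (nat_lit 0)) (T.h (T.h (P (nat_lit 0)) (M (nat_lit 13838414161144077877247))) (P (nat_lit 0)))) (T.h (T.h (T.h (M (nat_lit 1716479269463368432353279)) (T.h (P (nat_lit 0)) (M (nat_lit 19952898382560755711)))) (T.h (P (nat_lit 0)) (M (nat_lit 16723667258085212159)))) (T.h (P (nat_lit 0)) (M (nat_lit 404289645258473471)))))),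 (P (nat_lit 0)), (T.h (T.h (P (nat_lit 0)) (T.h (T.h (P (nat_lit 0)) (T.h (P (nat_lit 4522944407224301738000384)) (T.h (P (nat_lit 0)) (P (nat_lit 4169824286824988672))))) (T.h (P (nat_lit 0)) (T.h (T.h (P (nat_lit 0)) (P (nat_lit 4169824286824988672))) (P (nat_lit 0)))))) (T.h (T.h (T.h (P (nat_lit 0)) (T.h (P (nat_lit 0)) (T.h (M (nat_lit 393394788669509861375)) (T.h (P (nat_lit 0)) (M (nat_lit 9592676862263295)))))) (T.h (P (nat_lit 0)) (T.h (T.h (M (nat_lit 393394788669509861375)) (T.h (P (nat_lit 0)) (M (nat_lit 2885507989110783)))) (T.h (P (nat_lit 0)) (M (nat_lit 9592676862263295)))))) (T.h (T.h (P (nat_lit 0)) (T.h (T.h (P (nat_lit 0)) (M (nat_lit 20828737242849607679))) (P (nat_lit 0)))) (T.h (T.h (T.h (P (nat_lit 0)) (T.h (P (nat_lit 0)) (M (nat_lit 6466019186049023)))) (T.h (P (nat_lit 0)) (M (nat_lit 6466019186049023)))) (T.h (P (nat_lit 0)) (M (nat_lit 1517611902173183))))))), (T.h (T.h (P (nat_lit 0)) (T.h (T.h (P (nat_lit 55221998949462974010054672384))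 (T.h (P (nat_lit 0)) (T.h (P (nat_lit 4200788420264904884224)) (T.h (P (nat_lit 0)) (P (nat_lit 319159333519360)))))) (T.h (P (nat_lit 0)) (T.h (T.h (P (nat_lit 27264164408173673840640)) (T.h (P (nat_lit 0)) (M (nat_lit 5479029165686783)))) (T.h (P (nat_lit 0)) (P (nat_lit 9150280330575872))))))) (T.h (T.h (T.h (P (nat_lit 0)) (T.h (M (nat_lit 60295914289474881959493631)) (T.h (P (nat_lit 0)) (P (nat_lit 52521544886121398272))))) (T.h (P (nat_lit 0)) (T.h (T.h (P (nat_lit 0)) (M (nat_lit 9332677183400837119))) (P (nat_lit 0))))) (T.h (T.h (P (nat_lit 0)) (T.h (T.h (P (nat_lit 5103117227019068243968)) (T.h (P (nat_lit 0)) (P (nat_lit 5572251070889984)))) (T.h (P (nat_lit 0)) (M (nat_lit 19685094694060031))))) (T.h (T.h (T.h (P (nat_lit 0)) (P (nat_lit 24319490141856989184))) (P (nat_lit 0))) (T.h (T.h (P (nat_lit 0)) (M (nat_lit 4466280403861503))) (P (nat_lit 0))))))), (T.h (T.h (P (nat_lit 0)) (T.h (T.h (P (nat_lit 0)) (T.h (P (nat_lit 21983481191304210379964416))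 (T.h (P (nat_lit 0)) (M (nat_lit 22433729594578173951))))) (T.h (P (nat_lit 0)) (T.h (T.h (P (nat_lit 0)) (P (nat_lit 258681154364768256))) (P (nat_lit 0)))))) (T.h (T.h (T.h (P (nat_lit 4028972986639539540131315712)) (T.h (P (nat_lit 0)) (T.h (P (nat_lit 60435329395380201717760)) (T.h (P (nat_lit 0)) (P (nat_lit 25814872583241728)))))) (T.h (P (nat_lit 0)) (T.h (T.h (P (nat_lit 10463880996995683319808)) (T.h (P (nat_lit 0)) (P (nat_lit 45316429866401792)))) (T.h (P (nat_lit 0)) (P (nat_lit 22840329922084864)))))) (T.h (T.h (P (nat_lit 0)) (T.h (T.h (P (nat_lit 0)) (P (nat_lit 19682121665866629120))) (P (nat_lit 0)))) (T.h (T.h (T.h (M (nat_lit 29265224384336552263679)) (T.h (P (nat_lit 0)) (P (nat_lit 53783029200388096)))) (T.h (P (nat_lit 0)) (P (nat_lit 33119459035185152)))) (T.h (P (nat_lit 0)) (P (nat_lit 1944089406472192))))))), (T.h (T.h (P (nat_lit 0)) (T.h (T.h (M (nat_lit 117127714113391367982604615679)) (T.h (P (nat_lit 0)) (T.h (P (nat_lit 11952228899530207133696))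 (T.h (P (nat_lit 0)) (M (nat_lit 11964335197913087)))))) (T.h (P (nat_lit 0)) (T.h (T.h (M (nat_lit 34451536323323157807103)) (T.h (P (nat_lit 0)) (P (nat_lit 17042115557523456)))) (T.h (P (nat_lit 0)) (M (nat_lit 7440177218715647))))))) (T.h (T.h (T.h (P (nat_lit 0)) (T.h (P (nat_lit 91346045556243501376602112)) (T.h (P (nat_lit 0)) (M (nat_lit 17451047650794143743))))) (T.h (P (nat_lit 0)) (T.h (T.h (P (nat_lit 0)) (M (nat_lit 65423375292021342207))) (P (nat_lit 0))))) (T.h (T.h (P (nat_lit 0)) (T.h (T.h (P (nat_lit 11952228899530207133696)) (T.h (P (nat_lit 0)) (M (nat_lit 96911297783660543)))) (T.h (P (nat_lit 0)) (P (nat_lit 17042115557523456))))) (T.h (T.h (T.h (P (nat_lit 0)) (M (nat_lit 17451047650794143743))) (P (nat_lit 0))) (T.h (T.h (P (nat_lit 0)) (M (nat_lit 11964335197913087))) (P (nat_lit 0))))))), (T.h (T.h (P (nat_lit 0)) (T.h (T.h (P (nat_lit 0)) (T.h (P (nat_lit 15616985696053209621069824)) (T.h (P (nat_lit 0)) (P (nat_lit 5677593967907045376)))))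 (T.h (P (nat_lit 0)) (T.h (T.h (P (nat_lit 0)) (M (nat_lit 26482498459511291903))) (P (nat_lit 0)))))) (T.h (T.h (T.h (M (nat_lit 25473584079512858584584028159)) (T.h (P (nat_lit 0)) (M (nat_lit 213785673707305102737407)))) (T.h (P (nat_lit 0)) (P (nat_lit 455310933304797036544)))) (T.h (T.h (P (nat_lit 0)) (T.h (T.h (P (nat_lit 0)) (P (nat_lit 17200322471501234176))) (P (nat_lit 0)))) (P (nat_lit 45602326988986683228160)))))]
def lP22_25 : List (T ℤ) := [(T.h (T.h (M (nat_lit 231541330990421274629362417663)) (T.h (P (nat_lit 0)) (T.h (T.h (M (nat_lit 3569015244786354544967679)) (T.h (P (nat_lit 0)) (P (nat_lit 4235541714296635392)))) (T.h (P (nat_lit 0)) (P (nat_lit 631264490440097792)))))) (T.h (T.h (P (nat_lit 0)) (T.h (T.h (P (nat_lit 0)) (T.h (M (nat_lit 36647654013845643460607)) (T.h (P (nat_lit 0)) (M (nat_lit 6475149598654463))))) (T.h (P (nat_lit 0)) (T.h (T.h (P (nat_lit 0)) (M (nat_lit 3493448433926143))) (P (nat_lit 0)))))) (T.h (T.h (T.h (M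 (nat_lit 3569015244786354544967679)) (T.h (P (nat_lit 0)) (P (nat_lit 4235541714296635392)))) (T.h (P (nat_lit 0)) (M (nat_lit 40000117314756280319)))) (T.h (T.h (P (nat_lit 0)) (T.h (T.h (P (nat_lit 0)) (M (nat_lit 3493448433926143))) (P (nat_lit 0)))) (P (nat_lit 631264490440097792)))))), (T.h (T.h (T.h (P (nat_lit 0)) (T.h (P (nat_lit 39693271727488054299933540352)) (T.h (P (nat_lit 0)) (T.h (P (nat_lit 1600137620552457125888)) (T.h (P (nat_lit 0)) (M (nat_lit 6003141117739007))))))) (T.h (P (nat_lit 0)) (T.h (T.h (P (nat_lit 0)) (T.h (M (nat_lit 19299222592263443972095)) (T.h (P (nat_lit 0)) (P (nat_lit 3756373281210368))))) (T.h (P (nat_lit 0)) (T.h (T.h (P (nat_lit 0)) (P (nat_lit 12994727653670912))) (P (nat_lit 0))))))) (T.h (T.h (P (nat_lit 0)) (T.h (T.h (M (nat_lit 38685949959920147863961599)) (T.h (P (nat_lit 0)) (P (nat_lit 46056362005355298816)))) (T.h (P (nat_lit 0)) (M (nat_lit 11553737432293703679))))) (T.h (T.h (T.h (P (nat_lit 0)) (T.h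 (M (nat_lit 12139391851846667599871)) (T.h (P (nat_lit 0)) (P (nat_lit 279660247908352))))) (T.h (P (nat_lit 0)) (T.h (T.h (P (nat_lit 0)) (P (nat_lit 80522866575802368))) (P (nat_lit 0))))) (T.h (T.h (P (nat_lit 0)) (M (nat_lit 34114175090991038463))) (T.h (T.h (T.h (P (nat_lit 0)) (P (nat_lit 19704229713543168))) (P (nat_lit 0))) (P (nat_lit 0))))))), (T.h (T.h (T.h (P (nat_lit 4862367950798846767216610770944)) (T.h (P (nat_lit 0)) (T.h (M (nat_lit 266273823766005034254335)) (T.h (P (nat_lit 0)) (P (nat_lit 359003738595131392)))))) (T.h (P (nat_lit 0)) (T.h (T.h (P (nat_lit 12224179581694546251087872)) (T.h (P (nat_lit 0)) (M (nat_lit 16091310335331401727)))) (T.h (P (nat_lit 0)) (P (nat_lit 1724560837756059648)))))) (T.h (T.h (P (nat_lit 0)) (T.h (T.h (P (nat_lit 0)) (T.h (P (nat_lit 182513382610604405030912)) (T.h (P (nat_lit 0)) (P (nat_lit 66069664653246464))))) (T.h (P (nat_lit 0)) (T.h (T.h (P (nat_lit 0)) (P (nat_lit 56142799308718080))) (P (nat_lit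 0)))))) (T.h (T.h (T.h (M (nat_lit 468922426803184436510719)) (T.h (P (nat_lit 0)) (M (nat_lit 33775072436488765439)))) (T.h (P (nat_lit 0)) (P (nat_lit 26759356300073631744)))) (T.h (T.h (P (nat_lit 0)) (T.h (T.h (P (nat_lit 0)) (P (nat_lit 64881922977234944))) (P (nat_lit 0)))) (M (nat_lit 2526259543487283199)))))), (T.h (T.h (T.h (P (nat_lit 0)) (T.h (M (nat_lit 117117419585043013077408153599)) (T.h (P (nat_lit 0)) (T.h (M (nat_lit 46468515223469314539519)) (T.h (P (nat_lit 0)) (M (nat_lit 13265699276980223))))))) (T.h (P (nat_lit 0)) (T.h (T.h (P (nat_lit 0)) (T.h (P (nat_lit 27221817649665985740800)) (T.h (P (nat_lit 0)) (M (nat_lit 14169943868768255))))) (T.h (P (nat_lit 0)) (T.h (T.h (P (nat_lit 0)) (M (nat_lit 6417445493932031))) (P (nat_lit 0))))))) (T.h (T.h (P (nat_lit 0)) (T.h (T.h (P (nat_lit 28810614915232433201741824)) (T.h (P (nat_lit 0)) (P (nat_lit 71239992060101525504)))) (T.h (P (nat_lit 0)) (M (nat_lit 101291306460544761855))))) (T.h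 (T.h (T.h (P (nat_lit 0)) (T.h (P (nat_lit 22956731578314158768128)) (T.h (P (nat_lit 0)) (P (nat_lit 3220746156638208))))) (T.h (P (nat_lit 0)) (T.h (T.h (P (nat_lit 0)) (M (nat_lit 130402323378929663))) (P (nat_lit 0))))) (T.h (T.h (P (nat_lit 0)) (M (nat_lit 55333727039905595391))) (T.h (T.h (T.h (P (nat_lit 0)) (M (nat_lit 3828110280622079))) (P (nat_lit 0))) (P (nat_lit 0))))))), (T.h (T.h (T.h (P (nat_lit 91094007969957705654804101988352)) (T.h (P (nat_lit 0)) (T.h (P (nat_lit 47309562058698683458781184)) (T.h (P (nat_lit 0)) (P (nat_lit 28030614822719586304)))))) (T.h (P (nat_lit 0)) (T.h (T.h (P (nat_lit 23980512356054710911762432)) (T.h (P (nat_lit 0)) (P (nat_lit 41569555904056000512)))) (T.h (P (nat_lit 0)) (P (nat_lit 17078878577132306432)))))) (T.h (T.h (P (nat_lit 0)) (T.h (T.h (P (nat_lit 0)) (M (nat_lit 259947434793332883062783))) (P (nat_lit 0)))) (T.h (T.h (T.h (P (nat_lit 47309562058698683458781184)) (T.h (P (nat_lit 0)) (P (nat_lit 26482968181361082368))))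 (T.h (P (nat_lit 0)) (P (nat_lit 41569555904056000512)))) (T.h (P (nat_lit 0)) (P (nat_lit 28030614822719586304)))))), (T.h (T.h (P (nat_lit 0)) (T.h (T.h (P (nat_lit 32656553038288046060575129600)) (T.h (P (nat_lit 0)) (T.h (M (nat_lit 15880694973642691313663)) (T.h (P (nat_lit 0)) (M (nat_lit 194936912609279)))))) (T.h (P (nat_lit 0)) (T.h (T.h (P (nat_lit 7363688533803120197632)) (T.h (P (nat_lit 0)) (P (nat_lit 12141505585938432)))) (T.h (P (nat_lit 0)) (M (nat_lit 220796630335487))))))) (T.h (T.h (T.h (P (nat_lit 0)) (T.h (P (nat_lit 18361088292942342694895616)) (T.h (P (nat_lit 0)) (P (nat_lit 5552322172325724160))))) (T.h (P (nat_lit 0)) (T.h (T.h (P (nat_lit 0)) (M (nat_lit 13036727460421435391))) (P (nat_lit 0))))) (T.h (T.h (P (nat_lit 0)) (T.h (T.h (P (nat_lit 30084483994422802907136)) (T.h (P (nat_lit 0)) (P (nat_lit 5600629794930688)))) (T.h (P (nat_lit 0)) (M (nat_lit 3689423423733759))))) (T.h (T.h (T.h (P (nat_lit 0)) (M (nat_lit 2157869546520707071)))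 (P (nat_lit 0))) (T.h (T.h (P (nat_lit 0)) (M (nat_lit 3645792647774207))) (P (nat_lit 0))))))), (T.h (T.h (P (nat_lit 0)) (T.h (T.h (P (nat_lit 0)) (T.h (P (nat_lit 8907670941466001565286400)) (T.h (P (nat_lit 0)) (M (nat_lit 10157880130408546303))))) (T.h (P (nat_lit 0)) (T.h (T.h (P (nat_lit 0)) (M (nat_lit 32850290879351488511))) (P (nat_lit 0)))))) (T.h (T.h (T.h (P (nat_lit 8894116918151559282853675008)) (T.h (P (nat_lit 0)) (T.h (M (nat_lit 16248505565719696506879)) (T.h (P (nat_lit 0)) (P (nat_lit 13110701554270208)))))) (T.h (P (nat_lit 0)) (T.h (T.h (P (nat_lit 33722942832664821891072)) (T.h (P (nat_lit 0)) (P (nat_lit 29603302290817024)))) (T.h (P (nat_lit 0)) (P (nat_lit 16085244215427072)))))) (T.h (T.h (P (nat_lit 0)) (T.h (T.h (P (nat_lit 0)) (M (nat_lit 28954702120136736767))) (P (nat_lit 0)))) (T.h (T.h (T.h (M (nat_lit 20519660205683568017407)) (T.h (P (nat_lit 0)) (P (nat_lit 9334012262744064)))) (T.h (P (nat_lit 0)) (P (nat_lit 29997582427947008))))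 (P (nat_lit 0)))))), (T.h (T.h (P (nat_lit 0)) (T.h (T.h (M (nat_lit 111639084565308110667583062015)) (T.h (P (nat_lit 0)) (T.h (P (nat_lit 27704099958342383828992)) (T.h (P (nat_lit 0)) (M (nat_lit 7600330563846143)))))) (T.h (P (nat_lit 0)) (T.h (T.h (M (nat_lit 39484981292904688386047)) (T.h (P (nat_lit 0)) (M (nat_lit 8418601324707839)))) (T.h (P (nat_lit 0)) (M (nat_lit 10694952518221823))))))) (T.h (T.h (T.h (P (nat_lit 0)) (T.h (M (nat_lit 16284116165401987082354687)) (T.h (P (nat_lit 0)) (M (nat_lit 73128364944465592319))))) (T.h (P (nat_lit 0)) (T.h (T.h (P (nat_lit 0)) (P (nat_lit 106176674857073246208))) (P (nat_lit 0))))) (T.h (T.h (P (nat_lit 0)) (T.h (T.h (M (nat_lit 12157155756318574772223)) (T.h (P (nat_lit 0)) (M (nat_lit 47884073909157887)))) (T.h (P (nat_lit 0)) (M (nat_lit 4119908681318399))))) (T.h (T.h (T.h (P (nat_lit 0)) (M (nat_lit 87407615236842192895))) (P (nat_lit 0))) (T.h (T.h (P (nat_lit 0)) (P (nat_lit 11417582179713024)))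 (P (nat_lit 0)))))))]
def lP22_26 : List (T ℤ) := [(T.h (T.h (P (nat_lit 0)) (T.h (T.h (P (nat_lit 0)) (T.h (P (nat_lit 19182100134511518328815616)) (T.h (P (nat_lit 0)) (M (nat_lit 4616779742736023551))))) (T.h (P (nat_lit 0)) (T.h (T.h (P (nat_lit 0)) (P (nat_lit 5084902959863562240))) (P (nat_lit 0)))))) (T.h (T.h (T.h (M (nat_lit 27395621484421177028340875263)) (T.h (P (nat_lit 0)) (M (nat_lit 32713518745630160191487)))) (T.h (P (nat_lit 0)) (M (nat_lit 144473209679626903748607)))) (T.h (T.h (P (nat_lit 0)) (T.h (T.h (P (nat_lit 0)) (P (nat_lit 47708842287708504064))) (P (nat_lit 0)))) (P (nat_lit 47306577088496319594496))))), (T.h (T.h (T.h (P (nat_lit 0)) (T.h (P (nat_lit 0)) (T.h (P (nat_lit 0)) (T.h (P (nat_lit 0)) (M (nat_lit 552709772135104511)))))) (T.h (P (nat_lit 0)) (T.h (T.h (M (nat_lit 202648603037179402256383)) (T.h (P (nat_lit 0)) (M (nat_lit 10793703863186620415)))) (T.h (P (nat_lit 0)) (M (nat_lit 3437973054217519103)))))) (T.h (T.h (P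 (nat_lit 0)) (T.h (T.h (P (nat_lit 0)) (T.h (P (nat_lit 40872332593621807136768)) (T.h (P (nat_lit 0)) (P (nat_lit 7058222133673984))))) (T.h (P (nat_lit 0)) (T.h (T.h (P (nat_lit 0)) (P (nat_lit 5870480457662464))) (P (nat_lit 0)))))) (T.h (T.h (T.h (P (nat_lit 12490453405460551285342208)) (T.h (P (nat_lit 0)) (P (nat_lit 6890058237970743296)))) (T.h (P (nat_lit 0)) (P (nat_lit 49740724873375776768)))) (T.h (T.h (P (nat_lit 0)) (T.h (T.h (P (nat_lit 0)) (M (nat_lit 2868643210854399))) (P (nat_lit 0)))) (P (nat_lit 812847327025823744)))))), (T.h (T.h (T.h (P (nat_lit 0)) (T.h (M (nat_lit 58563857056695683991302307839)) (T.h (P (nat_lit 0)) (T.h (M (nat_lit 17225768161661578903551)) (T.h (P (nat_lit 0)) (M (nat_lit 3720088609357823))))))) (T.h (P (nat_lit 0)) (T.h (T.h (P (nat_lit 0)) (T.h (P (nat_lit 3843571414089190080512)) (T.h (P (nat_lit 0)) (P (nat_lit 17216402791464960))))) (T.h (P (nat_lit 0)) (T.h (T.h (P (nat_lit 0)) (M (nat_lit 4687499992301567)))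 (P (nat_lit 0))))))) (T.h (T.h (P (nat_lit 0)) (T.h (T.h (P (nat_lit 45673022778121750688301056)) (T.h (P (nat_lit 0)) (M (nat_lit 32711687646010671103)))) (T.h (P (nat_lit 0)) (P (nat_lit 14253265884922511360))))) (T.h (T.h (T.h (P (nat_lit 0)) (T.h (P (nat_lit 8108657485441017053184)) (T.h (P (nat_lit 0)) (M (nat_lit 174287233941503))))) (T.h (P (nat_lit 0)) (T.h (T.h (P (nat_lit 0)) (M (nat_lit 48455648891830271))) (P (nat_lit 0))))) (T.h (T.h (P (nat_lit 0)) (M (nat_lit 31704313535716655103))) (T.h (T.h (T.h (P (nat_lit 0)) (M (nat_lit 7276835205611519))) (P (nat_lit 0))) (P (nat_lit 0))))))), (T.h (T.h (T.h (P (nat_lit 72164845750266258836439449993216)) (T.h (P (nat_lit 0)) (T.h (P (nat_lit 8275948850999721698787328)) (T.h (P (nat_lit 0)) (P (nat_lit 14314608329991651328)))))) (T.h (P (nat_lit 0)) (T.h (T.h (P (nat_lit 35189328518646503158317056)) (T.h (P (nat_lit 0)) (M (nat_lit 4096121544151924735)))) (T.h (P (nat_lit 0)) (P (nat_lit 17848855930087669760))))))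 (T.h (T.h (P (nat_lit 0)) (T.h (T.h (P (nat_lit 0)) (M (nat_lit 128945604351942564249599))) (P (nat_lit 0)))) (T.h (T.h (T.h (P (nat_lit 11860278816002530611298304)) (T.h (P (nat_lit 0)) (P (nat_lit 10990466178542993408)))) (T.h (P (nat_lit 0)) (M (nat_lit 6984047718104563711)))) (T.h (P (nat_lit 0)) (P (nat_lit 6897119684500389888)))))), (T.h (T.h (P (nat_lit 0)) (T.h (T.h (M (nat_lit 28594865004676513644159172607)) (T.h (P (nat_lit 0)) (T.h (P (nat_lit 9192677989439676350464)) (T.h (P (nat_lit 0)) (P (nat_lit 1895257306300416)))))) (T.h (P (nat_lit 0)) (T.h (T.h (M (nat_lit 5040543764096126812159)) (T.h (P (nat_lit 0)) (P (nat_lit 738651429666816)))) (P (nat_lit 0)))))) (T.h (T.h (T.h (P (nat_lit 0)) (T.h (M (nat_lit 11966167736419842051276799)) (T.h (P (nat_lit 0)) (M (nat_lit 3731991322861502463))))) (T.h (P (nat_lit 0)) (T.h (T.h (P (nat_lit 0)) (P (nat_lit 23557292345440337920))) (P (nat_lit 0))))) (T.h (T.h (P (nat_lit 0)) (T.h (M (nat_lit 21528506760766722932735))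 (T.h (P (nat_lit 0)) (P (nat_lit 154781880287232))))) (T.h (T.h (T.h (P (nat_lit 0)) (P (nat_lit 2052704746300506112))) (P (nat_lit 0))) (T.h (T.h (P (nat_lit 0)) (P (nat_lit 3398585621741568))) (P (nat_lit 0))))))), (T.h (T.h (P (nat_lit 0)) (T.h (T.h (P (nat_lit 0)) (T.h (P (nat_lit 9533650392968229510184960)) (T.h (P (nat_lit 0)) (M (nat_lit 18196777769839362047))))) (T.h (P (nat_lit 0)) (T.h (T.h (P (nat_lit 0)) (P (nat_lit 4261631954979389440))) (P (nat_lit 0)))))) (T.h (T.h (T.h (M (nat_lit 19472614965897669399187292159)) (T.h (P (nat_lit 0)) (P (nat_lit 455310933304797036544)))) (T.h (P (nat_lit 0)) (M (nat_lit 102025982773308359180287)))) (T.h (T.h (P (nat_lit 0)) (T.h (T.h (P (nat_lit 0)) (P (nat_lit 21510889844164788224))) (P (nat_lit 0)))) (P (nat_lit 21163988139213750009856))))), (T.h (T.h (T.h (P (nat_lit 14562162258249013777924918083584)) (T.h (P (nat_lit 0)) (T.h (P (nat_lit 472108168470894989017088)) (T.h (P (nat_lit 0)) (P (nat_lit 555935322035191808))))))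 (T.h (P (nat_lit 0)) (T.h (T.h (P (nat_lit 5400635009370655693996032)) (T.h (P (nat_lit 0)) (M (nat_lit 2606053976117870591)))) (T.h (P (nat_lit 0)) (M (nat_lit 1544577741599277055)))))) (T.h (T.h (P (nat_lit 0)) (T.h (T.h (P (nat_lit 0)) (M (nat_lit 14866527205867955159039))) (P (nat_lit 0)))) (T.h (T.h (T.h (M (nat_lit 1586501907438543587770367)) (T.h (P (nat_lit 0)) (P (nat_lit 613938376747253760)))) (T.h (P (nat_lit 0)) (P (nat_lit 272633426224349184)))) (T.h (P (nat_lit 0)) (P (nat_lit 1238029958807289856)))))), (P (nat_lit 0))]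
def lP22_27 : List (T ℤ) := [(T.h (T.h (P (nat_lit 0)) (T.h (T.h (P (nat_lit 2442310398557518728414625792)) (T.h (P (nat_lit 0)) (T.h (M (nat_lit 3047215125714868109311)) (T.h (P (nat_lit 0)) (M (nat_lit 1626567914815487)))))) (T.h (P (nat_lit 0)) (T.h (T.h (P (nat_lit 3679752308041006972928)) (T.h (P (nat_lit 0)) (P (nat_lit 140431119548416)))) (T.h (P (nat_lit 0)) (M (nat_lit 11815390019583))))))) (T.h (T.h (T.h (P (nat_lit 0)) (T.h (M (nat_lit 14280217490853106859114495)) (T.h (P (nat_lit 0)) (P (nat_lit 3431769517741572096))))) (T.h (P (nat_lit 0)) (T.h (T.h (P (nat_lit 0)) (P (nat_lit 3565072346572128256))) (P (nat_lit 0))))) (T.h (T.h (P (nat_lit 0)) (T.h (T.h (P (nat_lit 10983023708140231196672)) (T.h (P (nat_lit 0)) (P (nat_lit 3547622079004672)))) (T.h (P (nat_lit 0)) (M (nat_lit 1039951104770047))))) (T.h (T.h (T.h (P (nat_lit 0)) (M (nat_lit 5463924327831306239))) (P (nat_lit 0))) (T.h (T.h (P (nat_lit 0)) (M (nat_lit 664208017784831))) (P (nat_lit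 0))))))), (T.h (T.h (P (nat_lit 0)) (T.h (T.h (P (nat_lit 0)) (T.h (P (nat_lit 6391291468122572764217344)) (T.h (P (nat_lit 0)) (M (nat_lit 774617917210755071))))) (T.h (P (nat_lit 0)) (T.h (T.h (P (nat_lit 0)) (P (nat_lit 738738444527730688))) (P (nat_lit 0)))))) (T.h (T.h (T.h (P (nat_lit 24533176971064981227743215616)) (T.h (P (nat_lit 0)) (T.h (P (nat_lit 14250300097114629210112)) (T.h (P (nat_lit 0)) (M (nat_lit 2900823876468735)))))) (T.h (P (nat_lit 0)) (T.h (T.h (M (nat_lit 3782431575240647639039)) (T.h (P (nat_lit 0)) (P (nat_lit 3871891009961984)))) (T.h (P (nat_lit 0)) (M (nat_lit 3846132419231743)))))) (T.h (T.h (P (nat_lit 0)) (T.h (T.h (P (nat_lit 0)) (M (nat_lit 36023146742257025023))) (P (nat_lit 0)))) (T.h (T.h (T.h (P (nat_lit 1330601317018053378048)) (T.h (P (nat_lit 0)) (P (nat_lit 167460857806848)))) (T.h (P (nat_lit 0)) (M (nat_lit 10406409639919615)))) (T.h (P (nat_lit 0)) (P (nat_lit 741585884282880))))))), (T.h (T.h (P (nat_lit 0))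 (T.h (T.h (M (nat_lit 1027194215491105522146344959)) (T.h (P (nat_lit 0)) (T.h (M (nat_lit 5562702071422437556223)) (T.h (P (nat_lit 0)) (P (nat_lit 2956245969797120)))))) (T.h (P (nat_lit 0)) (T.h (T.h (M (nat_lit 5876729818305680900095)) (T.h (P (nat_lit 0)) (P (nat_lit 1870221648003072)))) (T.h (P (nat_lit 0)) (P (nat_lit 845034740580352))))))) (T.h (T.h (T.h (P (nat_lit 0)) (T.h (P (nat_lit 56702234027486920088485888)) (T.h (P (nat_lit 0)) (P (nat_lit 19378006843333804032))))) (T.h (P (nat_lit 0)) (T.h (T.h (P (nat_lit 0)) (P (nat_lit 6025487014869073920))) (P (nat_lit 0))))) (T.h (T.h (P (nat_lit 0)) (T.h (T.h (M (nat_lit 10439806346580109295615)) (T.h (P (nat_lit 0)) (M (nat_lit 12761921320845311)))) (T.h (P (nat_lit 0)) (P (nat_lit 3345293171490816))))) (T.h (T.h (T.h (P (nat_lit 0)) (P (nat_lit 24783951258407927808))) (P (nat_lit 0))) (T.h (T.h (P (nat_lit 0)) (P (nat_lit 6918233756270592))) (P (nat_lit 0))))))), (T.h (T.h (P (nat_lit 0)) (T.h (T.h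 (P (nat_lit 0)) (T.h (M (nat_lit 11387876038932511647072255)) (T.h (P (nat_lit 0)) (M (nat_lit 15767917565713580031))))) (T.h (P (nat_lit 0)) (T.h (T.h (P (nat_lit 0)) (M (nat_lit 7273363342498988031))) (P (nat_lit 0)))))) (T.h (T.h (T.h (M (nat_lit 81680387041637295225636388863)) (T.h (P (nat_lit 0)) (T.h (M (nat_lit 52798822681310266392575)) (T.h (P (nat_lit 0)) (P (nat_lit 13956778089775104)))))) (T.h (P (nat_lit 0)) (T.h (T.h (P (nat_lit 17783617783557091491840)) (T.h (P (nat_lit 0)) (P (nat_lit 34062600577941504)))) (T.h (P (nat_lit 0)) (M (nat_lit 6564462969225215)))))) (T.h (T.h (P (nat_lit 0)) (T.h (T.h (P (nat_lit 0)) (P (nat_lit 25782287496401387520))) (P (nat_lit 0)))) (T.h (T.h (T.h (M (nat_lit 15282777995193079562239)) (T.h (P (nat_lit 0)) (P (nat_lit 10030529833795584)))) (T.h (P (nat_lit 0)) (P (nat_lit 6315706739785728)))) (T.h (P (nat_lit 0)) (M (nat_lit 1149341850599423))))))), (T.h (T.h (P (nat_lit 0)) (T.h (T.h (M (nat_lit 9993608512295120873034088447))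 (T.h (P (nat_lit 0)) (P (nat_lit 4553572405289269854208)))) (T.h (P (nat_lit 0)) (P (nat_lit 1398748663978051764224))))) (T.h (T.h (T.h (P (nat_lit 0)) (T.h (M (nat_lit 15387499692476566696099839)) (T.h (P (nat_lit 0)) (M (nat_lit 25903162718444060671))))) (T.h (P (nat_lit 0)) (T.h (T.h (P (nat_lit 0)) (M (nat_lit 46506803989082800127))) (P (nat_lit 0))))) (T.h (T.h (P (nat_lit 0)) (P (nat_lit 4553572405289269854208))) (T.h (T.h (T.h (P (nat_lit 0)) (M (nat_lit 25903162718444060671))) (P (nat_lit 0))) (P (nat_lit 0)))))), (T.h (T.h (T.h (P (nat_lit 0)) (T.h (P (nat_lit 2442310398557518728414625792)) (T.h (P (nat_lit 0)) (T.h (P (nat_lit 3679752308041006972928)) (T.h (P (nat_lit 0)) (M (nat_lit 11815390019583))))))) (T.h (P (nat_lit 0)) (T.h (T.h (P (nat_lit 0)) (T.h (M (nat_lit 3047215125714868109311)) (T.h (P (nat_lit 0)) (P (nat_lit 140431119548416))))) (T.h (P (nat_lit 0)) (T.h (T.h (P (nat_lit 0)) (M (nat_lit 1626567914815487))) (P (nat_lit 0)))))))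 (T.h (T.h (P (nat_lit 0)) (T.h (T.h (M (nat_lit 14280217490853106859114495)) (T.h (P (nat_lit 0)) (P (nat_lit 3565072346572128256)))) (T.h (P (nat_lit 0)) (P (nat_lit 3431769517741572096))))) (T.h (T.h (T.h (P (nat_lit 0)) (T.h (P (nat_lit 10983023708140231196672)) (T.h (P (nat_lit 0)) (M (nat_lit 1039951104770047))))) (T.h (P (nat_lit 0)) (T.h (T.h (P (nat_lit 0)) (P (nat_lit 3547622079004672))) (P (nat_lit 0))))) (T.h (T.h (P (nat_lit 0)) (M (nat_lit 5463924327831306239))) (T.h (T.h (T.h (P (nat_lit 0)) (M (nat_lit 664208017784831))) (P (nat_lit 0))) (P (nat_lit 0))))))), (T.h (T.h (T.h (P (nat_lit 1010262057425128725540505649152)) (T.h (P (nat_lit 0)) (T.h (M (nat_lit 18133991237298837331640319)) (T.h (P (nat_lit 0)) (P (nat_lit 19614236116892254208)))))) (T.h (P (nat_lit 0)) (T.h (T.h (M (nat_lit 18926181072577156459003903)) (T.h (P (nat_lit 0)) (P (nat_lit 2591826363434401792)))) (T.h (P (nat_lit 0)) (P (nat_lit 18314824017116135424)))))) (T.h (T.h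 (P (nat_lit 0)) (T.h (T.h (P (nat_lit 0)) (T.h (P (nat_lit 18923239735702092513280)) (T.h (P (nat_lit 0)) (M (nat_lit 12903262501797887))))) (T.h (P (nat_lit 0)) (T.h (T.h (P (nat_lit 0)) (M (nat_lit 5925133438943231))) (P (nat_lit 0)))))) (T.h (T.h (T.h (M (nat_lit 1587901206242065085628415)) (T.h (P (nat_lit 0)) (M (nat_lit 53148215490950201343)))) (T.h (P (nat_lit 0)) (M (nat_lit 47841265680042164223)))) (T.h (T.h (P (nat_lit 0)) (T.h (T.h (P (nat_lit 0)) (M (nat_lit 3989539368140799))) (P (nat_lit 0)))) (P (nat_lit 10463980613563056128)))))), (T.h (T.h (T.h (P (nat_lit 0)) (T.h (P (nat_lit 5746800424422967225513672704)) (T.h (P (nat_lit 0)) (T.h (M (nat_lit 25043711753734569590783)) (T.h (P (nat_lit 0)) (P (nat_lit 845034740580352))))))) (T.h (P (nat_lit 0)) (T.h (T.h (P (nat_lit 0)) (T.h (M (nat_lit 15413272141028831264767)) (T.h (P (nat_lit 0)) (P (nat_lit 8681195529961472))))) (T.h (P (nat_lit 0)) (T.h (T.h (P (nat_lit 0)) (P (nat_lit 12073842188025856)))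 (P (nat_lit 0))))))) (T.h (T.h (P (nat_lit 0)) (T.h (T.h (P (nat_lit 25066800460561630132961280)) (T.h (P (nat_lit 0)) (M (nat_lit 14731472137529327615)))) (T.h (P (nat_lit 0)) (M (nat_lit 6901650912981286911))))) (T.h (T.h (T.h (P (nat_lit 0)) (T.h (P (nat_lit 29681071982198015393792)) (T.h (P (nat_lit 0)) (P (nat_lit 30819837218652160))))) (T.h (P (nat_lit 0)) (T.h (T.h (P (nat_lit 0)) (P (nat_lit 17627784670347264))) (P (nat_lit 0))))) (T.h (T.h (P (nat_lit 0)) (M (nat_lit 24188117246850105343))) (T.h (T.h (T.h (P (nat_lit 0)) (P (nat_lit 19010372635656192))) (P (nat_lit 0))) (P (nat_lit 0)))))))]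
def lP22_28 : List (T ℤ) := [(T.h (T.h (T.h (M (nat_lit 12033383155920978104893308927999)) (T.h (P (nat_lit 0)) (T.h (P (nat_lit 32202323609322397531897856)) (T.h (P (nat_lit 0)) (M (nat_lit 51473594901898199039)))))) (T.h (P (nat_lit 0)) (T.h (T.h (P (nat_lit 66751268070684515171827712)) (T.h (P (nat_lit 0)) (M (nat_lit 20112959232985268223)))) (T.h (P (nat_lit 0)) (M (nat_lit 27041683247099543551)))))) (T.h (T.h (P (nat_lit 0)) (T.h (T.h (P (nat_lit 0)) (T.h (M (nat_lit 74268288097036359696383)) (T.h (P (nat_lit 0)) (P (nat_lit 25101941556903936))))) (T.h (P (nat_lit 0)) (T.h (T.h (P (nat_lit 0)) (P (nat_lit 69759065467453440))) (P (nat_lit 0)))))) (T.h (T.h (T.h (P (nat_lit 16526487823196466196774912)) (T.h (P (nat_lit 0)) (P (nat_lit 164501384940125945856)))) (T.h (P (nat_lit 0)) (P (nat_lit 28368324160571572224)))) (T.h (T.h (P (nat_lit 0)) (T.h (T.h (P (nat_lit 0)) (P (nat_lit 18592351234228224))) (P (nat_lit 0)))) (M (nat_lit 44496770827213078527)))))),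 (T.h (T.h (T.h (P (nat_lit 0)) (T.h (M (nat_lit 25473584079512858584584028159)) (T.h (P (nat_lit 0)) (P (nat_lit 45602326988986683228160))))) (T.h (P (nat_lit 0)) (T.h (T.h (P (nat_lit 0)) (P (nat_lit 455310933304797036544))) (P (nat_lit 0))))) (T.h (T.h (P (nat_lit 0)) (T.h (T.h (P (nat_lit 15616985696053209621069824)) (T.h (P (nat_lit 0)) (P (nat_lit 17200322471501234176)))) (T.h (P (nat_lit 0)) (M (nat_lit 26482498459511291903))))) (T.h (T.h (T.h (P (nat_lit 0)) (M (nat_lit 213785673707305102737407))) (P (nat_lit 0))) (T.h (T.h (P (nat_lit 0)) (P (nat_lit 5677593967907045376))) (P (nat_lit 0)))))), (T.h (T.h (P (nat_lit 0)) (T.h (T.h (P (nat_lit 0)) (T.h (P (nat_lit 18361088292942342694895616)) (T.h (P (nat_lit 0)) (P (nat_lit 5552322172325724160))))) (T.h (P (nat_lit 0)) (T.h (T.h (P (nat_lit 0)) (M (nat_lit 2157869546520707071))) (P (nat_lit 0)))))) (T.h (T.h (T.h (P (nat_lit 32656553038288046060575129600)) (T.h (P (nat_lit 0)) (T.h (M (nat_lit 15880694973642691313663))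 (T.h (P (nat_lit 0)) (M (nat_lit 194936912609279)))))) (T.h (P (nat_lit 0)) (T.h (T.h (P (nat_lit 30084483994422802907136)) (T.h (P (nat_lit 0)) (P (nat_lit 5600629794930688)))) (T.h (P (nat_lit 0)) (M (nat_lit 3645792647774207)))))) (T.h (T.h (P (nat_lit 0)) (T.h (T.h (P (nat_lit 0)) (M (nat_lit 13036727460421435391))) (P (nat_lit 0)))) (T.h (T.h (T.h (P (nat_lit 7363688533803120197632)) (T.h (P (nat_lit 0)) (P (nat_lit 12141505585938432)))) (T.h (P (nat_lit 0)) (M (nat_lit 3689423423733759)))) (T.h (P (nat_lit 0)) (M (nat_lit 220796630335487))))))), (T.h (T.h (P (nat_lit 0)) (T.h (T.h (P (nat_lit 8894116918151559282853675008)) (T.h (P (nat_lit 0)) (T.h (M (nat_lit 16248505565719696506879)) (T.h (P (nat_lit 0)) (P (nat_lit 13110701554270208)))))) (T.h (P (nat_lit 0)) (T.h (T.h (M (nat_lit 20519660205683568017407)) (T.h (P (nat_lit 0)) (P (nat_lit 9334012262744064)))) (P (nat_lit 0)))))) (T.h (T.h (T.h (P (nat_lit 0)) (T.h (P (nat_lit 8907670941466001565286400))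 (T.h (P (nat_lit 0)) (M (nat_lit 10157880130408546303))))) (T.h (P (nat_lit 0)) (T.h (T.h (P (nat_lit 0)) (M (nat_lit 28954702120136736767))) (P (nat_lit 0))))) (T.h (T.h (P (nat_lit 0)) (T.h (T.h (P (nat_lit 33722942832664821891072)) (T.h (P (nat_lit 0)) (P (nat_lit 29603302290817024)))) (T.h (P (nat_lit 0)) (P (nat_lit 29997582427947008))))) (T.h (T.h (T.h (P (nat_lit 0)) (M (nat_lit 32850290879351488511))) (P (nat_lit 0))) (T.h (T.h (P (nat_lit 0)) (P (nat_lit 16085244215427072))) (P (nat_lit 0))))))), (T.h (T.h (P (nat_lit 0)) (T.h (T.h (P (nat_lit 0)) (T.h (M (nat_lit 28828575599309159537836031)) (T.h (P (nat_lit 0)) (M (nat_lit 73318984247689609215))))) (T.h (P (nat_lit 0)) (T.h (T.h (P (nat_lit 0)) (M (nat_lit 67534288178527600639))) (P (nat_lit 0)))))) (T.h (T.h (T.h (M (nat_lit 87148427533023842730265018367)) (T.h (P (nat_lit 0)) (T.h (P (nat_lit 28305838153664645038080)) (T.h (P (nat_lit 0)) (P (nat_lit 2754647017979904)))))) (T.h (P (nat_lit 0))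 (T.h (T.h (M (nat_lit 2415346596541754245119)) (T.h (P (nat_lit 0)) (M (nat_lit 81946674487099391)))) (T.h (P (nat_lit 0)) (P (nat_lit 4257975333421056)))))) (T.h (T.h (P (nat_lit 0)) (T.h (T.h (P (nat_lit 0)) (P (nat_lit 127508972051552534528))) (P (nat_lit 0)))) (T.h (T.h (T.h (M (nat_lit 34283290825903862448127)) (T.h (P (nat_lit 0)) (M (nat_lit 13257005205159935)))) (T.h (P (nat_lit 0)) (M (nat_lit 13840874754539519)))) (T.h (P (nat_lit 0)) (M (nat_lit 9545610667622399))))))), (T.h (T.h (P (nat_lit 0)) (T.h (T.h (M (nat_lit 40867267336703657242131431423)) (T.h (P (nat_lit 0)) (M (nat_lit 32258207812325363154943)))) (T.h (P (nat_lit 0)) (P (nat_lit 44032226377937136386048))))) (T.h (T.h (T.h (P (nat_lit 0)) (T.h (P (nat_lit 22632415224394767728115712)) (T.h (P (nat_lit 0)) (M (nat_lit 14527836822903455743))))) (T.h (P (nat_lit 0)) (T.h (T.h (P (nat_lit 0)) (P (nat_lit 73530299504536846336))) (P (nat_lit 0))))) (T.h (T.h (P (nat_lit 0)) (M (nat_lit 134739501518938519371775)))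 (T.h (T.h (T.h (P (nat_lit 0)) (P (nat_lit 7930572901915295744))) (P (nat_lit 0))) (P (nat_lit 0)))))), (T.h (T.h (T.h (P (nat_lit 0)) (T.h (P (nat_lit 2120122278237486535193657344)) (T.h (P (nat_lit 0)) (M (nat_lit 1352678270254679326719))))) (T.h (P (nat_lit 0)) (T.h (T.h (P (nat_lit 0)) (T.h (M (nat_lit 6397935496113302798335)) (T.h (P (nat_lit 0)) (P (nat_lit 2523038380785664))))) (T.h (P (nat_lit 0)) (T.h (T.h (P (nat_lit 0)) (P (nat_lit 3993105336041472))) (P (nat_lit 0))))))) (T.h (T.h (P (nat_lit 0)) (T.h (T.h (P (nat_lit 40543104508391291520811008)) (T.h (P (nat_lit 0)) (M (nat_lit 8197742967738335231)))) (T.h (P (nat_lit 0)) (P (nat_lit 16121777625906544640))))) (T.h (T.h (T.h (P (nat_lit 0)) (T.h (M (nat_lit 6397935496113302798335)) (T.h (P (nat_lit 0)) (P (nat_lit 2523038380785664))))) (T.h (P (nat_lit 0)) (T.h (T.h (P (nat_lit 0)) (M (nat_lit 786403700375551))) (P (nat_lit 0))))) (T.h (T.h (P (nat_lit 0)) (P (nat_lit 16121777625906544640)))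 (T.h (T.h (T.h (P (nat_lit 0)) (P (nat_lit 3993105336041472))) (P (nat_lit 0))) (P (nat_lit 0))))))), (T.h (T.h (T.h (M (nat_lit 10032244771051151039943298514943)) (T.h (P (nat_lit 0)) (T.h (P (nat_lit 48053906595039940370759680)) (T.h (P (nat_lit 0)) (M (nat_lit 8662364521584656383)))))) (T.h (P (nat_lit 0)) (T.h (T.h (P (nat_lit 13504962133677822730829824)) (T.h (P (nat_lit 0)) (M (nat_lit 19068183177919987711)))) (T.h (P (nat_lit 0)) (M (nat_lit 33094276176383311871)))))) (T.h (T.h (P (nat_lit 0)) (T.h (T.h (P (nat_lit 0)) (T.h (M (nat_lit 55476096322105958727679)) (T.h (P (nat_lit 0)) (P (nat_lit 58462027903008768))))) (T.h (P (nat_lit 0)) (T.h (T.h (P (nat_lit 0)) (P (nat_lit 13804903992459264))) (P (nat_lit 0)))))) (T.h (T.h (T.h (P (nat_lit 13504962133677822730829824)) (T.h (P (nat_lit 0)) (M (nat_lit 19068183177919987711)))) (T.h (P (nat_lit 0)) (P (nat_lit 117064877601634385920)))) (T.h (T.h (P (nat_lit 0)) (T.h (T.h (P (nat_lit 0)) (P (nat_lit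 13804903992459264))) (P (nat_lit 0)))) (M (nat_lit 33094276176383311871))))))]
def lP22_29 : List (T ℤ) := [(T.h (T.h (T.h (P (nat_lit 0)) (T.h (M (nat_lit 26391456626953548279461183487)) (T.h (P (nat_lit 0)) (P (nat_lit 23567612570712412258304))))) (T.h (P (nat_lit 0)) (T.h (T.h (P (nat_lit 0)) (M (nat_lit 32456490484449190871039))) (P (nat_lit 0))))) (T.h (T.h (P (nat_lit 0)) (T.h (T.h (P (nat_lit 5405014985188254869880832)) (T.h (P (nat_lit 0)) (P (nat_lit 28766007665830658048)))) (T.h (P (nat_lit 0)) (M (nat_lit 7713105224876949503))))) (T.h (T.h (T.h (P (nat_lit 0)) (M (nat_lit 28416974601521859657727))) (P (nat_lit 0))) (T.h (T.h (P (nat_lit 0)) (M (nat_lit 10852175599695298559))) (P (nat_lit 0)))))), (T.h (T.h (P (nat_lit 0)) (T.h (T.h (P (nat_lit 0)) (T.h (P (nat_lit 578291697487330404204544)) (T.h (P (nat_lit 0)) (M (nat_lit 3541372019637485567))))) (T.h (P (nat_lit 0)) (T.h (T.h (P (nat_lit 0)) (M (nat_lit 17820622312014086143))) (P (nat_lit 0))))))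 (T.h (T.h (T.h (M (nat_lit 53085522036960781581477216255)) (T.h (P (nat_lit 0)) (T.h (P (nat_lit 8590939794117415141376)) (T.h (P (nat_lit 0)) (M (nat_lit 8459720275525631)))))) (T.h (P (nat_lit 0)) (T.h (T.h (M (nat_lit 31270315920543543459839)) (T.h (P (nat_lit 0)) (P (nat_lit 34062600577941504)))) (T.h (P (nat_lit 0)) (P (nat_lit 10558192468033536)))))) (T.h (T.h (P (nat_lit 0)) (T.h (T.h (P (nat_lit 0)) (P (nat_lit 2224995150961049600))) (P (nat_lit 0)))) (T.h (T.h (T.h (M (nat_lit 10242234231096952750079)) (T.h (P (nat_lit 0)) (P (nat_lit 5577055310118912)))) (T.h (P (nat_lit 0)) (P (nat_lit 9875747953508352)))) (T.h (P (nat_lit 0)) (M (nat_lit 1149341850599423))))))), (T.h (T.h (P (nat_lit 0)) (T.h (M (nat_lit 6000969113615189185396735999)) (T.h (P (nat_lit 0)) (P (nat_lit 24438338849772933218304))))) (T.h (T.h (T.h (P (nat_lit 0)) (T.h (P (nat_lit 6083335303084980110884864)) (T.h (P (nat_lit 0)) (M (nat_lit 8285720689671929855))))) (T.h (P (nat_lit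 0)) (T.h (T.h (P (nat_lit 0)) (M (nat_lit 4310567372663554047))) (P (nat_lit 0))))) (T.h (T.h (P (nat_lit 0)) (M (nat_lit 111759690933996743557119))) (T.h (T.h (T.h (P (nat_lit 0)) (P (nat_lit 1415962012927655936))) (P (nat_lit 0))) (P (nat_lit 0)))))), (T.h (T.h (T.h (P (nat_lit 0)) (T.h (M (nat_lit 4996804256147560436517044223)) (T.h (P (nat_lit 0)) (P (nat_lit 699374331989025882112))))) (T.h (P (nat_lit 0)) (T.h (T.h (P (nat_lit 0)) (P (nat_lit 4296544144108300533760))) (P (nat_lit 0))))) (T.h (T.h (P (nat_lit 0)) (T.h (T.h (M (nat_lit 7693749846238283348049919)) (T.h (P (nat_lit 0)) (M (nat_lit 23253401994541400063)))) (T.h (P (nat_lit 0)) (M (nat_lit 14521116546631204863))))) (T.h (T.h (T.h (P (nat_lit 0)) (P (nat_lit 257028261180969320448))) (P (nat_lit 0))) (T.h (T.h (P (nat_lit 0)) (M (nat_lit 11382046171812855807))) (P (nat_lit 0)))))), (T.h (T.h (T.h (M (nat_lit 470961987125908346733519175679)) (T.h (P (nat_lit 0)) (T.h (M (nat_lit 1942057638129030519586815))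 (T.h (P (nat_lit 0)) (M (nat_lit 3371299736341446655)))))) (T.h (P (nat_lit 0)) (T.h (T.h (M (nat_lit 1942057638129030519586815)) (T.h (P (nat_lit 0)) (M (nat_lit 556449493575270399)))) (T.h (P (nat_lit 0)) (M (nat_lit 3371299736341446655)))))) (T.h (T.h (P (nat_lit 0)) (T.h (T.h (P (nat_lit 0)) (T.h (P (nat_lit 538075358818507685888)) (T.h (P (nat_lit 0)) (M (nat_lit 598511274688511))))) (T.h (P (nat_lit 0)) (T.h (T.h (P (nat_lit 0)) (M (nat_lit 598511274688511))) (P (nat_lit 0)))))) (T.h (T.h (T.h (P (nat_lit 57899600867765543501824)) (T.h (P (nat_lit 0)) (P (nat_lit 1192941709491699712)))) (T.h (P (nat_lit 0)) (P (nat_lit 1192941709491699712)))) (T.h (T.h (P (nat_lit 0)) (T.h (T.h (P (nat_lit 0)) (M (nat_lit 1583080657387519))) (P (nat_lit 0)))) (M (nat_lit 846434129254809599)))))), (T.h (T.h (T.h (P (nat_lit 0)) (T.h (P (nat_lit 24067662906614286825688137728)) (T.h (P (nat_lit 0)) (T.h (P (nat_lit 2371971797410874654720)) (T.h (P (nat_lit 0)) (P (nat_lit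 2681142573465600))))))) (T.h (P (nat_lit 0)) (T.h (T.h (P (nat_lit 0)) (T.h (P (nat_lit 5408711284310665068544)) (T.h (P (nat_lit 0)) (P (nat_lit 2962096402432000))))) (T.h (P (nat_lit 0)) (T.h (T.h (P (nat_lit 0)) (P (nat_lit 2991378617303040))) (P (nat_lit 0))))))) (T.h (T.h (P (nat_lit 0)) (T.h (T.h (M (nat_lit 4592128168771611640463359)) (T.h (P (nat_lit 0)) (M (nat_lit 7048978185093906431)))) (T.h (P (nat_lit 0)) (P (nat_lit 12066641941316501504))))) (T.h (T.h (T.h (P (nat_lit 0)) (T.h (P (nat_lit 12267667912468654456832)) (T.h (P (nat_lit 0)) (M (nat_lit 2413907610566655))))) (T.h (P (nat_lit 0)) (T.h (T.h (P (nat_lit 0)) (P (nat_lit 6813190638010368))) (P (nat_lit 0))))) (T.h (T.h (P (nat_lit 0)) (M (nat_lit 5200259580440870911))) (T.h (T.h (T.h (P (nat_lit 0)) (M (nat_lit 9588080211820543))) (P (nat_lit 0))) (P (nat_lit 0))))))), (T.h (T.h (T.h (P (nat_lit 5874464779828831870272703299584)) (T.h (P (nat_lit 0)) (T.h (P (nat_lit 14279468020943418277494784))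 (T.h (P (nat_lit 0)) (P (nat_lit 3542750054391480320)))))) (T.h (P (nat_lit 0)) (T.h (T.h (P (nat_lit 1789014615482866992152576)) (T.h (P (nat_lit 0)) (P (nat_lit 8895468585879601152)))) (T.h (P (nat_lit 0)) (P (nat_lit 2177192955230552064)))))) (T.h (T.h (P (nat_lit 0)) (T.h (T.h (P (nat_lit 0)) (T.h (P (nat_lit 40974228991500041060352)) (T.h (P (nat_lit 0)) (M (nat_lit 2868643210854399))))) (T.h (P (nat_lit 0)) (T.h (T.h (P (nat_lit 0)) (P (nat_lit 7058222133673984))) (P (nat_lit 0)))))) (T.h (T.h (T.h (M (nat_lit 1611613570259095289593855)) (T.h (P (nat_lit 0)) (P (nat_lit 51159269713876353024)))) (T.h (P (nat_lit 0)) (M (nat_lit 9375159022686044159)))) (T.h (T.h (P (nat_lit 0)) (T.h (T.h (P (nat_lit 0)) (P (nat_lit 8086793378004992))) (P (nat_lit 0)))) (M (nat_lit 520480761069961215)))))), (T.h (T.h (T.h (P (nat_lit 0)) (T.h (M (nat_lit 76394196545577736441469861887)) (T.h (P (nat_lit 0)) (T.h (M (nat_lit 13922102980717876084735)) (T.h (P (nat_lit 0))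 (M (nat_lit 2554467153936383))))))) (T.h (P (nat_lit 0)) (T.h (T.h (P (nat_lit 0)) (T.h (P (nat_lit 8024761901606103941120)) (T.h (P (nat_lit 0)) (P (nat_lit 4977506114076672))))) (T.h (P (nat_lit 0)) (T.h (T.h (P (nat_lit 0)) (M (nat_lit 11983694345601023))) (P (nat_lit 0))))))) (T.h (T.h (P (nat_lit 0)) (T.h (T.h (P (nat_lit 7277978670301944695750656)) (T.h (P (nat_lit 0)) (P (nat_lit 9307014897957076992)))) (T.h (P (nat_lit 0)) (M (nat_lit 12312974890020896767))))) (T.h (T.h (T.h (P (nat_lit 0)) (T.h (M (nat_lit 37673336110928275439615)) (T.h (P (nat_lit 0)) (P (nat_lit 9454722492923904))))) (T.h (P (nat_lit 0)) (T.h (T.h (P (nat_lit 0)) (P (nat_lit 39481570047098880))) (P (nat_lit 0))))) (T.h (T.h (P (nat_lit 0)) (M (nat_lit 12222446504450719743))) (T.h (T.h (T.h (P (nat_lit 0)) (P (nat_lit 15083322570375168))) (P (nat_lit 0))) (P (nat_lit 0)))))))]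
def lP22_30 : List (T ℤ) := [(T.h (T.h (T.h (P (nat_lit 41180004023536419786962317082624)) (T.h (P (nat_lit 0)) (T.h (M (nat_lit 1716479269463368432353279)) (T.h (P (nat_lit 0)) (M (nat_lit 404289645258473471)))))) (T.h (P (nat_lit 0)) (T.h (T.h (M (nat_lit 3242199158556738768076799)) (T.h (P (nat_lit 0)) (M (nat_lit 16723667258085212159)))) (T.h (P (nat_lit 0)) (P (nat_lit 6331104363460689920)))))) (T.h (T.h (P (nat_lit 0)) (T.h (T.h (P (nat_lit 0)) (M (nat_lit 13838414161144077877247))) (P (nat_lit 0)))) (T.h (T.h (T.h (P (nat_lit 5270657647345830849413120)) (T.h (P (nat_lit 0)) (M (nat_lit 19952898382560755711)))) (T.h (P (nat_lit 0)) (M (nat_lit 19943659610950336511)))) (T.h (P (nat_lit 0)) (M (nat_lit 3186897345665040383)))))), (T.h (T.h (P (nat_lit 0)) (T.h (T.h (P (nat_lit 22549686110619622894297153536)) (T.h (P (nat_lit 0)) (T.h (M (nat_lit 4276355499288042668031)) (T.h (P (nat_lit 0)) (P (nat_lit 4056569522847744)))))) (T.h (P (nat_lit 0)) (T.h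 (T.h (P (nat_lit 4987765701830972014592)) (T.h (P (nat_lit 0)) (M (nat_lit 1762998010347519)))) (T.h (P (nat_lit 0)) (P (nat_lit 129108033208320))))))) (T.h (T.h (T.h (P (nat_lit 0)) (T.h (M (nat_lit 8807245776857616942628863)) (T.h (P (nat_lit 0)) (P (nat_lit 5476563799450320896))))) (T.h (P (nat_lit 0)) (T.h (T.h (P (nat_lit 0)) (M (nat_lit 7115061308898148351))) (P (nat_lit 0))))) (T.h (T.h (P (nat_lit 0)) (T.h (T.h (P (nat_lit 538372468300809502720)) (T.h (P (nat_lit 0)) (M (nat_lit 17651129576325119)))) (T.h (P (nat_lit 0)) (P (nat_lit 3255958531735552))))) (T.h (T.h (T.h (P (nat_lit 0)) (M (nat_lit 5996092034685861887))) (P (nat_lit 0))) (T.h (T.h (P (nat_lit 0)) (P (nat_lit 537820007137280))) (P (nat_lit 0))))))), (T.h (T.h (P (nat_lit 0)) (T.h (T.h (P (nat_lit 0)) (T.h (P (nat_lit 13075810249838208814678016)) (T.h (P (nat_lit 0)) (P (nat_lit 10416561284773314560))))) (T.h (P (nat_lit 0)) (T.h (T.h (P (nat_lit 0)) (P (nat_lit 10416561284773314560)))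 (P (nat_lit 0)))))) (T.h (T.h (T.h (M (nat_lit 4865143931512019742722359295)) (T.h (P (nat_lit 0)) (T.h (P (nat_lit 26712386562715379826688)) (T.h (P (nat_lit 0)) (P (nat_lit 9729628367814656)))))) (T.h (P (nat_lit 0)) (T.h (T.h (P (nat_lit 26712386562715379826688)) (T.h (P (nat_lit 0)) (P (nat_lit 15713127575584768)))) (T.h (P (nat_lit 0)) (P (nat_lit 9729628367814656)))))) (T.h (T.h (P (nat_lit 0)) (T.h (T.h (P (nat_lit 0)) (P (nat_lit 48636823786003365888))) (P (nat_lit 0)))) (T.h (T.h (T.h (M (nat_lit 8745564178652984246271)) (T.h (P (nat_lit 0)) (P (nat_lit 23785446772441088)))) (T.h (P (nat_lit 0)) (P (nat_lit 23785446772441088)))) (T.h (P (nat_lit 0)) (P (nat_lit 1944089406472192))))))), (T.h (T.h (P (nat_lit 0)) (T.h (T.h (M (nat_lit 81872531565312638851294953471)) (T.h (P (nat_lit 0)) (T.h (P (nat_lit 7542479592929705852928)) (T.h (P (nat_lit 0)) (M (nat_lit 10800809275686911)))))) (T.h (P (nat_lit 0)) (T.h (T.h (M (nat_lit 20905636911282502238207))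 (T.h (P (nat_lit 0)) (M (nat_lit 773836429983743)))) (T.h (P (nat_lit 0)) (M (nat_lit 5125213912694783))))))) (T.h (T.h (T.h (P (nat_lit 0)) (T.h (P (nat_lit 52372709750936364979847168)) (T.h (P (nat_lit 0)) (M (nat_lit 40475916406100066303))))) (T.h (P (nat_lit 0)) (T.h (T.h (P (nat_lit 0)) (M (nat_lit 25629667899014643711))) (P (nat_lit 0))))) (T.h (T.h (P (nat_lit 0)) (T.h (T.h (M (nat_lit 2559448776295541899263)) (T.h (P (nat_lit 0)) (M (nat_lit 43036679422672895)))) (T.h (P (nat_lit 0)) (P (nat_lit 16795377330880512))))) (T.h (T.h (T.h (P (nat_lit 0)) (P (nat_lit 19851441692485877760))) (P (nat_lit 0))) (T.h (T.h (P (nat_lit 0)) (M (nat_lit 162369889959935))) (P (nat_lit 0))))))), (T.h (T.h (P (nat_lit 0)) (T.h (T.h (P (nat_lit 0)) (T.h (P (nat_lit 6901087889603827716849664)) (T.h (P (nat_lit 0)) (P (nat_lit 2780598039104978944))))) (T.h (P (nat_lit 0)) (T.h (T.h (P (nat_lit 0)) (M (nat_lit 6921084663494606847))) (P (nat_lit 0)))))) (T.h (T.h (T.h (M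 (nat_lit 3387695508467639197435428863)) (T.h (P (nat_lit 0)) (M (nat_lit 148031791823306123902975)))) (T.h (P (nat_lit 0)) (M (nat_lit 36272100889309380345855)))) (T.h (T.h (P (nat_lit 0)) (T.h (T.h (P (nat_lit 0)) (M (nat_lit 16611612996791173119))) (P (nat_lit 0)))) (P (nat_lit 27185431502022145736704))))), (T.h (T.h (T.h (P (nat_lit 0)) (T.h (P (nat_lit 0)) (T.h (P (nat_lit 0)) (T.h (P (nat_lit 0)) (M (nat_lit 552709772135104511)))))) (T.h (P (nat_lit 0)) (T.h (T.h (P (nat_lit 12490453405460551285342208)) (T.h (P (nat_lit 0)) (P (nat_lit 6890058237970743296)))) (T.h (P (nat_lit 0)) (P (nat_lit 812847327025823744)))))) (T.h (T.h (P (nat_lit 0)) (T.h (T.h (P (nat_lit 0)) (T.h (P (nat_lit 40872332593621807136768)) (T.h (P (nat_lit 0)) (P (nat_lit 7058222133673984))))) (T.h (P (nat_lit 0)) (T.h (T.h (P (nat_lit 0)) (M (nat_lit 2868643210854399))) (P (nat_lit 0)))))) (T.h (T.h (T.h (M (nat_lit 202648603037179402256383)) (T.h (P (nat_lit 0)) (M (nat_lit 10793703863186620415))))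 (T.h (P (nat_lit 0)) (P (nat_lit 49740724873375776768)))) (T.h (T.h (P (nat_lit 0)) (T.h (T.h (P (nat_lit 0)) (P (nat_lit 5870480457662464))) (P (nat_lit 0)))) (M (nat_lit 3437973054217519103)))))), (T.h (T.h (T.h (P (nat_lit 0)) (T.h (M (nat_lit 58563857056695683991302307839)) (T.h (P (nat_lit 0)) (T.h (M (nat_lit 17225768161661578903551)) (T.h (P (nat_lit 0)) (M (nat_lit 3720088609357823))))))) (T.h (P (nat_lit 0)) (T.h (T.h (P (nat_lit 0)) (T.h (P (nat_lit 8108657485441017053184)) (T.h (P (nat_lit 0)) (M (nat_lit 174287233941503))))) (T.h (P (nat_lit 0)) (T.h (T.h (P (nat_lit 0)) (M (nat_lit 7276835205611519))) (P (nat_lit 0))))))) (T.h (T.h (P (nat_lit 0)) (T.h (T.h (P (nat_lit 45673022778121750688301056)) (T.h (P (nat_lit 0)) (M (nat_lit 32711687646010671103)))) (T.h (P (nat_lit 0)) (M (nat_lit 31704313535716655103))))) (T.h (T.h (T.h (P (nat_lit 0)) (T.h (P (nat_lit 3843571414089190080512)) (T.h (P (nat_lit 0)) (P (nat_lit 17216402791464960))))) (T.h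 (P (nat_lit 0)) (T.h (T.h (P (nat_lit 0)) (M (nat_lit 48455648891830271))) (P (nat_lit 0))))) (T.h (T.h (P (nat_lit 0)) (P (nat_lit 14253265884922511360))) (T.h (T.h (T.h (P (nat_lit 0)) (M (nat_lit 4687499992301567))) (P (nat_lit 0))) (P (nat_lit 0))))))), (T.h (T.h (T.h (P (nat_lit 60109166243227866605326969077760)) (T.h (P (nat_lit 0)) (T.h (P (nat_lit 12462364346498250444898304)) (T.h (P (nat_lit 0)) (P (nat_lit 9095374610601345024)))))) (T.h (P (nat_lit 0)) (T.h (T.h (P (nat_lit 10403754270588811868110848)) (T.h (P (nat_lit 0)) (P (nat_lit 28942010190122713088)))) (T.h (P (nat_lit 0)) (P (nat_lit 9777469247373443072)))))) (T.h (T.h (P (nat_lit 0)) (T.h (T.h (P (nat_lit 0)) (M (nat_lit 144840244602534396690431))) (P (nat_lit 0)))) (T.h (T.h (T.h (P (nat_lit 40719940890041983696896000)) (T.h (P (nat_lit 0)) (P (nat_lit 10635430114562670592)))) (T.h (P (nat_lit 0)) (P (nat_lit 13514117516904890368)))) (T.h (P (nat_lit 0)) (P (nat_lit 17946597792554156032))))))]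
def lP22_31 : List (T ℤ) := [(T.h (T.h (P (nat_lit 0)) (T.h (T.h (M (nat_lit 53085522036960781581477216255)) (T.h (P (nat_lit 0)) (T.h (P (nat_lit 8590939794117415141376)) (T.h (P (nat_lit 0)) (M (nat_lit 8459720275525631)))))) (T.h (P (nat_lit 0)) (T.h (T.h (M (nat_lit 10242234231096952750079)) (T.h (P (nat_lit 0)) (P (nat_lit 5577055310118912)))) (T.h (P (nat_lit 0)) (M (nat_lit 1149341850599423))))))) (T.h (T.h (T.h (P (nat_lit 0)) (T.h (P (nat_lit 578291697487330404204544)) (T.h (P (nat_lit 0)) (M (nat_lit 3541372019637485567))))) (T.h (P (nat_lit 0)) (T.h (T.h (P (nat_lit 0)) (P (nat_lit 2224995150961049600))) (P (nat_lit 0))))) (T.h (T.h (P (nat_lit 0)) (T.h (T.h (M (nat_lit 31270315920543543459839)) (T.h (P (nat_lit 0)) (P (nat_lit 34062600577941504)))) (T.h (P (nat_lit 0)) (P (nat_lit 9875747953508352))))) (T.h (T.h (T.h (P (nat_lit 0)) (M (nat_lit 17820622312014086143))) (P (nat_lit 0))) (T.h (T.h (P (nat_lit 0)) (P (nat_lit 10558192468033536)))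 (P (nat_lit 0))))))), (T.h (T.h (P (nat_lit 0)) (T.h (T.h (P (nat_lit 0)) (T.h (P (nat_lit 6083335303084980110884864)) (T.h (P (nat_lit 0)) (M (nat_lit 8285720689671929855))))) (T.h (P (nat_lit 0)) (T.h (T.h (P (nat_lit 0)) (P (nat_lit 1415962012927655936))) (P (nat_lit 0)))))) (T.h (T.h (M (nat_lit 6000969113615189185396735999)) (T.h (P (nat_lit 0)) (M (nat_lit 111759690933996743557119)))) (T.h (T.h (P (nat_lit 0)) (T.h (T.h (P (nat_lit 0)) (M (nat_lit 4310567372663554047))) (P (nat_lit 0)))) (P (nat_lit 24438338849772933218304))))), (T.h (T.h (T.h (P (nat_lit 26617841765287406009037398999040)) (T.h (P (nat_lit 0)) (T.h (M (nat_lit 3714307327027633757093887)) (T.h (P (nat_lit 0)) (P (nat_lit 5775169041425498112)))))) (T.h (P (nat_lit 0)) (T.h (T.h (M (nat_lit 129977362024824844582911)) (T.h (P (nat_lit 0)) (M (nat_lit 17337605634832465919)))) (T.h (P (nat_lit 0)) (M (nat_lit 1642319604065763327)))))) (T.h (T.h (P (nat_lit 0)) (T.h (T.h (P (nat_lit 0)) (P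 (nat_lit 1028113044723877281792))) (P (nat_lit 0)))) (T.h (T.h (T.h (M (nat_lit 129977362024824844582911)) (T.h (P (nat_lit 0)) (M (nat_lit 17337605634832465919)))) (T.h (P (nat_lit 0)) (M (nat_lit 20225531808785104895)))) (T.h (P (nat_lit 0)) (M (nat_lit 1642319604065763327)))))), (T.h (T.h (P (nat_lit 0)) (T.h (T.h (P (nat_lit 0)) (T.h (M (nat_lit 820044288225231356559359)) (T.h (P (nat_lit 0)) (P (nat_lit 1172922028869550080))))) (T.h (P (nat_lit 0)) (T.h (T.h (P (nat_lit 0)) (M (nat_lit 1172922028869550079))) (P (nat_lit 0)))))) (T.h (T.h (T.h (P (nat_lit 0)) (T.h (P (nat_lit 0)) (T.h (P (nat_lit 1277770570003986251776)) (T.h (P (nat_lit 0)) (P (nat_lit 250554719240192)))))) (T.h (P (nat_lit 0)) (T.h (T.h (M (nat_lit 1277770570003986251775)) (T.h (P (nat_lit 0)) (M (nat_lit 9472520804892671)))) (T.h (P (nat_lit 0)) (M (nat_lit 250554719240191)))))) (T.h (T.h (P (nat_lit 0)) (T.h (T.h (P (nat_lit 0)) (P (nat_lit 1945289511797784576))) (P (nat_lit 0))))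 (T.h (T.h (T.h (P (nat_lit 1386797677371080048640)) (T.h (P (nat_lit 0)) (M (nat_lit 3212398805352447)))) (T.h (P (nat_lit 0)) (P (nat_lit 3212398805352448)))) (T.h (P (nat_lit 0)) (M (nat_lit 520789253947391))))))), (T.h (T.h (P (nat_lit 0)) (T.h (T.h (M (nat_lit 3147316493728592057340002303)) (T.h (P (nat_lit 0)) (T.h (P (nat_lit 835233424690865242112)) (T.h (P (nat_lit 0)) (M (nat_lit 1036859366244351)))))) (T.h (P (nat_lit 0)) (T.h (T.h (M (nat_lit 4524051548051001573375)) (T.h (P (nat_lit 0)) (M (nat_lit 652816732782591)))) (T.h (P (nat_lit 0)) (P (nat_lit 845034740580352))))))) (T.h (T.h (T.h (P (nat_lit 0)) (T.h (P (nat_lit 16159129519095628567674880)) (T.h (P (nat_lit 0)) (P (nat_lit 3256229217427259392))))) (T.h (P (nat_lit 0)) (T.h (T.h (P (nat_lit 0)) (P (nat_lit 14223229982607409152))) (P (nat_lit 0))))) (T.h (T.h (P (nat_lit 0)) (T.h (T.h (M (nat_lit 4041870850466806497279)) (T.h (P (nat_lit 0)) (M (nat_lit 11975517620469759)))) (T.h (P (nat_lit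 0)) (P (nat_lit 822254790705152))))) (T.h (T.h (T.h (P (nat_lit 0)) (P (nat_lit 8662173632501383168))) (P (nat_lit 0))) (T.h (T.h (P (nat_lit 0)) (P (nat_lit 2925128420229120))) (P (nat_lit 0))))))), (T.h (T.h (P (nat_lit 0)) (T.h (T.h (P (nat_lit 0)) (T.h (M (nat_lit 11146123448194610694717439)) (T.h (P (nat_lit 0)) (P (nat_lit 2052704746300506112))))) (T.h (P (nat_lit 0)) (T.h (T.h (P (nat_lit 0)) (M (nat_lit 3731991322861502463))) (P (nat_lit 0)))))) (T.h (T.h (T.h (M (nat_lit 28594865004676513644159172607)) (T.h (P (nat_lit 0)) (T.h (M (nat_lit 21528506760766722932735)) (T.h (P (nat_lit 0)) (P (nat_lit 3398585621741568)))))) (T.h (P (nat_lit 0)) (T.h (T.h (P (nat_lit 9192677989439676350464)) (T.h (P (nat_lit 0)) (P (nat_lit 9472520804892672)))) (T.h (P (nat_lit 0)) (P (nat_lit 1895257306300416)))))) (T.h (T.h (P (nat_lit 0)) (T.h (T.h (P (nat_lit 0)) (P (nat_lit 21612002833642553344))) (P (nat_lit 0)))) (T.h (T.h (T.h (M (nat_lit 6427341441467206860799))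 (T.h (P (nat_lit 0)) (P (nat_lit 154781880287232)))) (T.h (P (nat_lit 0)) (P (nat_lit 738651429666816)))) (T.h (P (nat_lit 0)) (P (nat_lit 520789253947392))))))), (T.h (T.h (P (nat_lit 0)) (T.h (T.h (M (nat_lit 5276712706528439406222639103)) (T.h (P (nat_lit 0)) (P (nat_lit 231554161711410839552)))) (T.h (P (nat_lit 0)) (P (nat_lit 3529186847095431102464))))) (T.h (T.h (T.h (P (nat_lit 0)) (T.h (M (nat_lit 5269067426317406327275519)) (T.h (P (nat_lit 0)) (M (nat_lit 11094626124053872639))))) (T.h (P (nat_lit 0)) (T.h (T.h (P (nat_lit 0)) (M (nat_lit 33419326021626232831))) (P (nat_lit 0))))) (T.h (T.h (P (nat_lit 0)) (M (nat_lit 5605373702905662537727))) (T.h (T.h (T.h (P (nat_lit 0)) (M (nat_lit 20699427513028313087))) (P (nat_lit 0))) (P (nat_lit 0)))))), (T.h (T.h (T.h (P (nat_lit 0)) (T.h (M (nat_lit 3147316493728592057340002303)) (T.h (P (nat_lit 0)) (T.h (M (nat_lit 4524051548051001573375)) (T.h (P (nat_lit 0)) (P (nat_lit 845034740580352))))))) (T.h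 (P (nat_lit 0)) (T.h (T.h (P (nat_lit 0)) (T.h (P (nat_lit 835233424690865242112)) (T.h (P (nat_lit 0)) (M (nat_lit 652816732782591))))) (T.h (P (nat_lit 0)) (T.h (T.h (P (nat_lit 0)) (M (nat_lit 1036859366244351))) (P (nat_lit 0))))))) (T.h (T.h (P (nat_lit 0)) (T.h (T.h (P (nat_lit 16159129519095628567674880)) (T.h (P (nat_lit 0)) (P (nat_lit 14223229982607409152)))) (T.h (P (nat_lit 0)) (P (nat_lit 3256229217427259392))))) (T.h (T.h (T.h (P (nat_lit 0)) (T.h (M (nat_lit 4041870850466806497279)) (T.h (P (nat_lit 0)) (P (nat_lit 822254790705152))))) (T.h (P (nat_lit 0)) (T.h (T.h (P (nat_lit 0)) (M (nat_lit 11975517620469759))) (P (nat_lit 0))))) (T.h (T.h (P (nat_lit 0)) (P (nat_lit 8662173632501383168))) (T.h (T.h (T.h (P (nat_lit 0)) (P (nat_lit 2925128420229120))) (P (nat_lit 0))) (P (nat_lit 0)))))))]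
def lP22_32 : List (T ℤ) := [(T.h (T.h (T.h (M (nat_lit 2001138384869827064950010413055)) (T.h (P (nat_lit 0)) (T.h (P (nat_lit 18697361475644574801068032)) (T.h (P (nat_lit 0)) (M (nat_lit 18379318725514887167)))))) (T.h (P (nat_lit 0)) (T.h (T.h (P (nat_lit 18697361475644574801068032)) (T.h (P (nat_lit 0)) (M (nat_lit 1044776055065280511)))) (T.h (P (nat_lit 0)) (M (nat_lit 18379318725514887167)))))) (T.h (T.h (P (nat_lit 0)) (T.h (T.h (P (nat_lit 0)) (T.h (M (nat_lit 18792191774930400968703)) (T.h (P (nat_lit 0)) (P (nat_lit 11297037564444672))))) (T.h (P (nat_lit 0)) (T.h (T.h (P (nat_lit 0)) (P (nat_lit 11297037564444672))) (P (nat_lit 0)))))) (T.h (T.h (T.h (P (nat_lit 3021525689518643465945088)) (T.h (P (nat_lit 0)) (P (nat_lit 47436507338491559936)))) (T.h (P (nat_lit 0)) (P (nat_lit 47436507338491559936)))) (T.h (T.h (P (nat_lit 0)) (T.h (T.h (P (nat_lit 0)) (P (nat_lit 4787447241768960))) (P (nat_lit 0)))) (M (nat_lit 11402494650829766655)))))),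 (T.h (T.h (T.h (P (nat_lit 0)) (T.h (M (nat_lit 19752523416278548368892887039)) (T.h (P (nat_lit 0)) (P (nat_lit 23993800654320155230208))))) (T.h (P (nat_lit 0)) (T.h (T.h (P (nat_lit 0)) (P (nat_lit 429836833835238555648))) (P (nat_lit 0))))) (T.h (T.h (P (nat_lit 0)) (T.h (T.h (P (nat_lit 11958332812889106530959360)) (T.h (P (nat_lit 0)) (P (nat_lit 11344965817079955456)))) (T.h (P (nat_lit 0)) (M (nat_lit 17909357722080378879))))) (T.h (T.h (T.h (P (nat_lit 0)) (M (nat_lit 111927900620322322251775))) (P (nat_lit 0))) (T.h (T.h (P (nat_lit 0)) (M (nat_lit 1916679011417718783))) (P (nat_lit 0)))))), (T.h (T.h (P (nat_lit 0)) (T.h (T.h (P (nat_lit 0)) (T.h (M (nat_lit 11966167736419842051276799)) (T.h (P (nat_lit 0)) (M (nat_lit 3731991322861502463))))) (T.h (P (nat_lit 0)) (T.h (T.h (P (nat_lit 0)) (P (nat_lit 2052704746300506112))) (P (nat_lit 0)))))) (T.h (T.h (T.h (M (nat_lit 28594865004676513644159172607)) (T.h (P (nat_lit 0)) (T.h (P (nat_lit 9192677989439676350464))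 (T.h (P (nat_lit 0)) (P (nat_lit 1895257306300416)))))) (T.h (P (nat_lit 0)) (T.h (M (nat_lit 21528506760766722932735)) (T.h (P (nat_lit 0)) (P (nat_lit 3398585621741568)))))) (T.h (T.h (P (nat_lit 0)) (T.h (T.h (P (nat_lit 0)) (P (nat_lit 23557292345440337920))) (P (nat_lit 0)))) (T.h (T.h (T.h (M (nat_lit 5040543764096126812159)) (T.h (P (nat_lit 0)) (P (nat_lit 738651429666816)))) (T.h (P (nat_lit 0)) (P (nat_lit 154781880287232)))) (P (nat_lit 0)))))), (T.h (T.h (P (nat_lit 0)) (T.h (T.h (M (nat_lit 19472614965897669399187292159)) (T.h (P (nat_lit 0)) (P (nat_lit 455310933304797036544)))) (T.h (P (nat_lit 0)) (P (nat_lit 21163988139213750009856))))) (T.h (T.h (T.h (P (nat_lit 0)) (T.h (P (nat_lit 9533650392968229510184960)) (T.h (P (nat_lit 0)) (M (nat_lit 18196777769839362047))))) (T.h (P (nat_lit 0)) (T.h (T.h (P (nat_lit 0)) (P (nat_lit 21510889844164788224))) (P (nat_lit 0))))) (T.h (T.h (P (nat_lit 0)) (M (nat_lit 102025982773308359180287))) (T.h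 (T.h (T.h (P (nat_lit 0)) (P (nat_lit 4261631954979389440))) (P (nat_lit 0))) (P (nat_lit 0)))))), (T.h (T.h (T.h (P (nat_lit 0)) (T.h (M (nat_lit 4996804256147560436517044223)) (T.h (P (nat_lit 0)) (P (nat_lit 699374331989025882112))))) (T.h (P (nat_lit 0)) (T.h (T.h (P (nat_lit 0)) (P (nat_lit 257028261180969320448))) (P (nat_lit 0))))) (T.h (T.h (P (nat_lit 0)) (T.h (T.h (M (nat_lit 7693749846238283348049919)) (T.h (P (nat_lit 0)) (M (nat_lit 23253401994541400063)))) (T.h (P (nat_lit 0)) (M (nat_lit 11382046171812855807))))) (T.h (T.h (T.h (P (nat_lit 0)) (P (nat_lit 4296544144108300533760))) (P (nat_lit 0))) (T.h (T.h (P (nat_lit 0)) (M (nat_lit 14521116546631204863))) (P (nat_lit 0)))))), (T.h (T.h (T.h (P (nat_lit 5874464779828831870272703299584)) (T.h (P (nat_lit 0)) (T.h (P (nat_lit 1789014615482866992152576)) (T.h (P (nat_lit 0)) (P (nat_lit 2729902727365656576)))))) (T.h (P (nat_lit 0)) (T.h (T.h (P (nat_lit 1789014615482866992152576)) (T.h (P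 (nat_lit 0)) (P (nat_lit 2005410347908857856)))) (T.h (P (nat_lit 0)) (P (nat_lit 2729902727365656576)))))) (T.h (T.h (P (nat_lit 0)) (T.h (T.h (P (nat_lit 0)) (P (nat_lit 101896397878233923584))) (P (nat_lit 0)))) (T.h (T.h (T.h (M (nat_lit 1408964967221915887337471)) (T.h (P (nat_lit 0)) (P (nat_lit 1418544840500576256)))) (T.h (P (nat_lit 0)) (P (nat_lit 1418544840500576256)))) (T.h (T.h (P (nat_lit 0)) (T.h (T.h (P (nat_lit 0)) (P (nat_lit 2216312920342528))) (P (nat_lit 0)))) (P (nat_lit 2917492293147557888)))))), (T.h (T.h (T.h (P (nat_lit 0)) (T.h (M (nat_lit 23308674508616954859992645631)) (T.h (P (nat_lit 0)) (T.h (M (nat_lit 3679868749620923334655)) (T.h (P (nat_lit 0)) (M (nat_lit 1405125303336959))))))) (T.h (P (nat_lit 0)) (T.h (T.h (P (nat_lit 0)) (T.h (M (nat_lit 566177892511311200255)) (T.h (P (nat_lit 0)) (M (nat_lit 599549196042239))))) (T.h (P (nat_lit 0)) (T.h (T.h (P (nat_lit 0)) (M (nat_lit 3523974070075391))) (P (nat_lit 0))))))) (T.h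 (T.h (P (nat_lit 0)) (T.h (T.h (P (nat_lit 6699686972814614291546112)) (T.h (P (nat_lit 0)) (P (nat_lit 7082019746996027392)))) (T.h (P (nat_lit 0)) (M (nat_lit 8771602870383411199))))) (T.h (T.h (T.h (P (nat_lit 0)) (T.h (M (nat_lit 6403020190384731979775)) (T.h (P (nat_lit 0)) (M (nat_lit 421025460584447))))) (T.h (P (nat_lit 0)) (T.h (T.h (P (nat_lit 0)) (P (nat_lit 5418969469157376))) (P (nat_lit 0))))) (T.h (T.h (P (nat_lit 0)) (P (nat_lit 5598175807563366400))) (T.h (T.h (T.h (P (nat_lit 0)) (P (nat_lit 4525130102341632))) (P (nat_lit 0))) (P (nat_lit 0))))))), (T.h (T.h (T.h (P (nat_lit 14562162258249013777924918083584)) (T.h (P (nat_lit 0)) (T.h (M (nat_lit 1586501907438543587770367)) (T.h (P (nat_lit 0)) (P (nat_lit 1238029958807289856)))))) (T.h (P (nat_lit 0)) (T.h (T.h (P (nat_lit 472108168470894989017088)) (T.h (P (nat_lit 0)) (M (nat_lit 2619348724656111615)))) (T.h (P (nat_lit 0)) (P (nat_lit 555935322035191808)))))) (T.h (T.h (P (nat_lit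 0)) (T.h (T.h (P (nat_lit 0)) (M (nat_lit 14866527205867955159039))) (P (nat_lit 0)))) (T.h (T.h (T.h (P (nat_lit 5400635009370655693996032)) (T.h (P (nat_lit 0)) (P (nat_lit 272633426224349184)))) (T.h (P (nat_lit 0)) (M (nat_lit 2606053976117870591)))) (T.h (P (nat_lit 0)) (M (nat_lit 2433391401669492735))))))]
def lP22_33 : List (T ℤ) := [(T.h (T.h (P (nat_lit 0)) (T.h (T.h (M (nat_lit 23308674508616954859992645631)) (T.h (P (nat_lit 0)) (T.h (M (nat_lit 566177892511311200255)) (T.h (P (nat_lit 0)) (M (nat_lit 3523974070075391)))))) (T.h (P (nat_lit 0)) (T.h (T.h (M (nat_lit 3679868749620923334655)) (T.h (P (nat_lit 0)) (M (nat_lit 599549196042239)))) (T.h (P (nat_lit 0)) (M (nat_lit 1405125303336959))))))) (T.h (T.h (T.h (P (nat_lit 0)) (T.h (P (nat_lit 6699686972814614291546112)) (T.h (P (nat_lit 0)) (M (nat_lit 8771602870383411199))))) (T.h (P (nat_lit 0)) (T.h (T.h (P (nat_lit 0)) (P (nat_lit 7082019746996027392))) (P (nat_lit 0))))) (T.h (T.h (P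 (nat_lit 0)) (T.h (T.h (M (nat_lit 6403020190384731979775)) (T.h (P (nat_lit 0)) (P (nat_lit 5418969469157376)))) (T.h (P (nat_lit 0)) (M (nat_lit 421025460584447))))) (T.h (T.h (T.h (P (nat_lit 0)) (P (nat_lit 5598175807563366400))) (P (nat_lit 0))) (T.h (T.h (P (nat_lit 0)) (P (nat_lit 4525130102341632))) (P (nat_lit 0))))))), (T.h (T.h (P (nat_lit 0)) (T.h (T.h (P (nat_lit 0)) (T.h (P (nat_lit 817752586518847605964800)) (T.h (P (nat_lit 0)) (P (nat_lit 1364636026177323008))))) (T.h (P (nat_lit 0)) (T.h (T.h (P (nat_lit 0)) (P (nat_lit 1364636026177323008))) (P (nat_lit 0)))))) (T.h (T.h (T.h (P (nat_lit 2613273605147549987961307136)) (T.h (P (nat_lit 0)) (M (nat_lit 36272100889309380345855)))) (T.h (P (nat_lit 0)) (M (nat_lit 36272100889309380345855)))) (T.h (T.h (P (nat_lit 0)) (T.h (T.h (P (nat_lit 0)) (M (nat_lit 12301045624127619071))) (P (nat_lit 0)))) (P (nat_lit 2747092652249212518400))))), (T.h (T.h (T.h (P (nat_lit 14562162258249013777924918083584))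 (T.h (P (nat_lit 0)) (T.h (P (nat_lit 472108168470894989017088)) (T.h (P (nat_lit 0)) (P (nat_lit 555935322035191808)))))) (T.h (P (nat_lit 0)) (T.h (T.h (M (nat_lit 1586501907438543587770367)) (T.h (P (nat_lit 0)) (P (nat_lit 613938376747253760)))) (T.h (P (nat_lit 0)) (P (nat_lit 1238029958807289856)))))) (T.h (T.h (P (nat_lit 0)) (T.h (T.h (P (nat_lit 0)) (M (nat_lit 14866527205867955159039))) (P (nat_lit 0)))) (T.h (T.h (T.h (P (nat_lit 5400635009370655693996032)) (T.h (P (nat_lit 0)) (M (nat_lit 2606053976117870591)))) (T.h (P (nat_lit 0)) (P (nat_lit 272633426224349184)))) (T.h (P (nat_lit 0)) (M (nat_lit 1544577741599277055)))))), (T.h (T.h (P (nat_lit 0)) (T.h (T.h (P (nat_lit 0)) (P (nat_lit 820044288225231356559360))) (P (nat_lit 0)))) (T.h (T.h (P (nat_lit 0)) (T.h (P (nat_lit 0)) (T.h (T.h (P (nat_lit 0)) (T.h (P (nat_lit 0)) (P (nat_lit 9472520804892672)))) (P (nat_lit 0))))) (T.h (T.h (P (nat_lit 0)) (T.h (T.h (P (nat_lit 0)) (M (nat_lit 1945289511797784575)))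 (P (nat_lit 0)))) (T.h (M (nat_lit 1386797677371080048639)) (T.h (P (nat_lit 0)) (P (nat_lit 520789253947392))))))), (T.h (T.h (P (nat_lit 0)) (T.h (T.h (M (nat_lit 279908450380878969705594879)) (T.h (P (nat_lit 0)) (M (nat_lit 25474099469558480895)))) (T.h (P (nat_lit 0)) (P (nat_lit 2829812515106405220352))))) (T.h (T.h (T.h (P (nat_lit 0)) (T.h (P (nat_lit 2424682419920877020774400)) (T.h (P (nat_lit 0)) (P (nat_lit 287420047758983168))))) (T.h (P (nat_lit 0)) (T.h (T.h (P (nat_lit 0)) (M (nat_lit 10165924027084832767))) (P (nat_lit 0))))) (T.h (T.h (P (nat_lit 0)) (M (nat_lit 9901917847013963071487))) (T.h (T.h (T.h (P (nat_lit 0)) (M (nat_lit 6178310966397108223))) (P (nat_lit 0))) (P (nat_lit 0)))))), (T.h (T.h (T.h (P (nat_lit 0)) (T.h (M (nat_lit 279908450380878969705594879)) (T.h (P (nat_lit 0)) (P (nat_lit 2829812515106405220352))))) (T.h (P (nat_lit 0)) (T.h (T.h (P (nat_lit 0)) (M (nat_lit 25474099469558480895))) (P (nat_lit 0))))) (T.h (T.h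 (P (nat_lit 0)) (T.h (T.h (P (nat_lit 2424682419920877020774400)) (T.h (P (nat_lit 0)) (M (nat_lit 10165924027084832767)))) (T.h (P (nat_lit 0)) (P (nat_lit 287420047758983168))))) (T.h (T.h (T.h (P (nat_lit 0)) (M (nat_lit 9901917847013963071487))) (P (nat_lit 0))) (T.h (T.h (P (nat_lit 0)) (M (nat_lit 6178310966397108223))) (P (nat_lit 0)))))), (T.h (T.h (P (nat_lit 0)) (T.h (P (nat_lit 0)) (T.h (T.h (P (nat_lit 0)) (T.h (P (nat_lit 0)) (M (nat_lit 3233287101403365375)))) (P (nat_lit 0))))) (T.h (P (nat_lit 0)) (T.h (P (nat_lit 0)) (T.h (P (nat_lit 0)) (M (nat_lit 888813660070215679))))))]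

def CP22 : List (T ℤ) := lP22_0 ++ (lP22_1 ++ (lP22_2 ++ (lP22_3 ++ (lP22_4 ++ (lP22_5 ++ (lP22_6 ++ (lP22_7 ++ (lP22_8 ++ (lP22_9 ++ (lP22_10 ++ (lP22_11 ++ (lP22_12 ++ (lP22_13 ++ (lP22_14 ++ (lP22_15 ++ (lP22_16 ++ (lP22_17 ++ (lP22_18 ++ (lP22_19 ++ (lP22_20 ++ (lP22_21 ++ (lP22_22 ++ (lP22_23 ++ (lP22_24 ++ (lP22_25 ++ (lP22_26 ++ (lP22_27 ++ (lP22_28 ++ (lP22_29 ++ (lP22_30 ++ (lP22_31 ++ (lP22_32 ++ (lP22_33)))))))))))))))))))))))))))))))))

/-- norms at radius 1536 -/
def NP22 : List ℕ := [(nat_lit 0), (nat_lit 4410501400340933843783516160000), (nat_lit 0), (nat_lit 0), (nat_lit 94111104536634927031048999010304), (nat_lit 184762888771644886781633004306432), (nat_lit 110543622437412513461917762715648), (nat_lit 103229161678419681570472832532480), (nat_lit 22944757197904062714968587370496), (nat_lit 0), (nat_lit 0), (nat_lit 0), (nat_lit 231091795083070456000181868429312), (nat_lit 428612387028434246327240088354816), (nat_lit 378637653777267327046968831639552),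 (nat_lit 345494884072588079869542638026752), (nat_lit 144957453039664740504518793363456), (nat_lit 0), (nat_lit 0), (nat_lit 0), (nat_lit 541808503216238317317791764447232), (nat_lit 620181003865955521011338987962368), (nat_lit 715168538793639313381727013961728), (nat_lit 417975251635452047430142201430016), (nat_lit 124059401969615875537499448147968), (nat_lit 0), (nat_lit 0), (nat_lit 231091795083070456000181868429312), (nat_lit 620181003865955521011338987962368), (nat_lit 493436889690817924456492900024320), (nat_lit 991537384077479696790565806931968), (nat_lit 318482051959471219009774084423680), (nat_lit 0), (nat_lit 0), (nat_lit 94111104536634927031048999010304), (nat_lit 428612387028434246327240088354816), (nat_lit 715168538793639313381727013961728), (nat_lit 991537384077479696790565806931968), (nat_lit 395742244383619797459409261559808), (nat_lit 0), (nat_lit 0), (nat_lit 184762888771644886781633004306432), (nat_lit 378637653777267327046968831639552),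 (nat_lit 417975251635452047430142201430016), (nat_lit 318482051959471219009774084423680), (nat_lit 0), (nat_lit 0), (nat_lit 110543622437412513461917762715648), (nat_lit 345494884072588079869542638026752), (nat_lit 124059401969615875537499448147968), (nat_lit 0), (nat_lit 0), (nat_lit 103229161678419681570472832532480), (nat_lit 144957453039664740504518793363456), (nat_lit 0), (nat_lit 0), (nat_lit 22944757197904062714968587370496), (nat_lit 0), (nat_lit 0), (nat_lit 0), (nat_lit 0), (nat_lit 0), (nat_lit 231091795083070456000181868429312), (nat_lit 490494180678031006956849431838720), (nat_lit 378637653777267327046968831639552), (nat_lit 345494884072588079869542638026752), (nat_lit 144957453039664740504518793363456), (nat_lit 0), (nat_lit 0), (nat_lit 488124689344007603569875398688768), (nat_lit 1201788283350410461726293845082112), (nat_lit 1374369591008052757895213802848256), (nat_lit 1201545544025053208170421909716992), (nat_lit 362452744372705043325519057125376),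 (nat_lit 0), (nat_lit 0), (nat_lit 488124689344007603569875398688768), (nat_lit 1836388860653246381423919988998144), (nat_lit 1529693066368241174864351899680768), (nat_lit 1438414677721950086652835072573440), (nat_lit 745223465586490914289884164259840), (nat_lit 0), (nat_lit 0), (nat_lit 231091795083070456000181868429312), (nat_lit 1934589865261928789448553962405888), (nat_lit 1529693066368241174864351899680768), (nat_lit 2404600065872221851631213304872960), (nat_lit 595131084266746165283306317283328), (nat_lit 0), (nat_lit 0), (nat_lit 803709350801482065775301838766080), (nat_lit 1374369591008052757895213802848256), (nat_lit 1438414677721950086652835072573440), (nat_lit 595131084266746165283306317283328), (nat_lit 0), (nat_lit 198102767441292515708136054587392), (nat_lit 378637653777267327046968831639552), (nat_lit 1201545544025053208170421909716992), (nat_lit 745223465586490914289884164259840), (nat_lit 0), (nat_lit 0), (nat_lit 345494884072588079869542638026752),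 (nat_lit 362452744372705043325519057125376), (nat_lit 0), (nat_lit 0), (nat_lit 144957453039664740504518793363456), (nat_lit 0), (nat_lit 0), (nat_lit 0), (nat_lit 4410501400340933843783516160000), (nat_lit 0), (nat_lit 0), (nat_lit 598216195743277282856770155315200), (nat_lit 519404837045538725013246393188352), (nat_lit 771287916290905379909528855773184), (nat_lit 495678915964981288060907887263744), (nat_lit 140169456279808215938290254086144), (nat_lit 0), (nat_lit 0), (nat_lit 557171798182092759613737736863744), (nat_lit 1221199539505311430756211191971840), (nat_lit 1338621511762845666556531112411136), (nat_lit 1495868250915648259270854699909120), (nat_lit 726181005157196735540382255808512), (nat_lit 0), (nat_lit 0), (nat_lit 989312202295287911642331218968576), (nat_lit 2047561695410447598673884755263488), (nat_lit 2748643461946955878003127221223424), (nat_lit 3005101229616539200568878474199040), (nat_lit 1235480556798422196431801087426560), (nat_lit 0),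 (nat_lit 231091795083070456000181868429312), (nat_lit 2039980535042066310256553204121600), (nat_lit 1670752338338008173265840917970944), (nat_lit 2752674781575600540453952617971712), (nat_lit 622752618265581967993243711832064), (nat_lit 94111104536634927031048999010304), (nat_lit 803709350801482065775301838766080), (nat_lit 1079602594006612222174963395723264), (nat_lit 1553057987979580399295880014856192), (nat_lit 1010250770633015086228977773182976), (nat_lit 184762888771644886781633004306432), (nat_lit 378637653777267327046968831639552), (nat_lit 656994207118053439323836963094528), (nat_lit 709347519457605951052406128115712), (nat_lit 110543622437412513461917762715648), (nat_lit 345494884072588079869542638026752), (nat_lit 237593218934823752333378996666368), (nat_lit 103229161678419681570472832532480), (nat_lit 144957453039664740504518793363456), (nat_lit 22944757197904062714968587370496), (nat_lit 0), (nat_lit 0), (nat_lit 336801278052956608655375915286528),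 (nat_lit 1727353884555853186344783980789760), (nat_lit 739353338715722639001780693762048), (nat_lit 1253155323484772113100045782351872), (nat_lit 417473759046227624511065385074688), (nat_lit 0), (nat_lit 0), (nat_lit 557171798182092759613737736863744), (nat_lit 4052477626387589586633688780636160), (nat_lit 2219965784233119732589862508822528), (nat_lit 3393868007509831878401676455968768), (nat_lit 934363966192489929301448045101056), (nat_lit 0), (nat_lit 488124689344007603569875398688768), (nat_lit 2047561695410447598673884755263488), (nat_lit 2823855682690447095928383042748416), (nat_lit 3331079998786638559284814348812288), (nat_lit 1415215372667291300625175604625408), (nat_lit 231091795083070456000181868429312), (nat_lit 1934589865261928789448553962405888), (nat_lit 1670752338338008173265840917970944), (nat_lit 4384644926969557340462509092503552), (nat_lit 1220435345139516312014313895231488), (nat_lit 428612387028434246327240088354816), (nat_lit 1374369591008052757895213802848256),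 (nat_lit 1553057987979580399295880014856192), (nat_lit 1158735617905005192762844199780352), (nat_lit 378637653777267327046968831639552), (nat_lit 1201545544025053208170421909716992), (nat_lit 709347519457605951052406128115712), (nat_lit 345494884072588079869542638026752), (nat_lit 362452744372705043325519057125376), (nat_lit 144957453039664740504518793363456), (nat_lit 0), (nat_lit 0), (nat_lit 598216195743277282856770155315200), (nat_lit 1727353884555853186344783980789760), (nat_lit 1158813271509076093693401382256640), (nat_lit 1351523913175188831374470042091520), (nat_lit 485856890090886412250982826115072), (nat_lit 0), (nat_lit 488124689344007603569875398688768), (nat_lit 1221199539505311430756211191971840), (nat_lit 2219965784233119732589862508822528), (nat_lit 2553518330408800848876383999361024), (nat_lit 1292366920499113452922618911916032), (nat_lit 541808503216238317317791764447232), (nat_lit 1836388860653246381423919988998144), (nat_lit 2748643461946955878003127221223424),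 (nat_lit 3331079998786638559284814348812288), (nat_lit 2330228693758440134289716641005568), (nat_lit 620181003865955521011338987962368), (nat_lit 1529693066368241174864351899680768), (nat_lit 2752674781575600540453952617971712), (nat_lit 1220435345139516312014313895231488), (nat_lit 715168538793639313381727013961728), (nat_lit 1438414677721950086652835072573440), (nat_lit 1010250770633015086228977773182976), (nat_lit 417975251635452047430142201430016), (nat_lit 745223465586490914289884164259840), (nat_lit 124059401969615875537499448147968), (nat_lit 0), (nat_lit 231091795083070456000181868429312), (nat_lit 519404837045538725013246393188352), (nat_lit 739353338715722639001780693762048), (nat_lit 1351523913175188831374470042091520), (nat_lit 636964103918942438019548168847360), (nat_lit 231091795083070456000181868429312), (nat_lit 1201788283350410461726293845082112), (nat_lit 1338621511762845666556531112411136), (nat_lit 3393868007509831878401676455968768),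 (nat_lit 1292366920499113452922618911916032), (nat_lit 620181003865955521011338987962368), (nat_lit 1529693066368241174864351899680768), (nat_lit 3005101229616539200568878474199040), (nat_lit 1415215372667291300625175604625408), (nat_lit 493436889690817924456492900024320), (nat_lit 2404600065872221851631213304872960), (nat_lit 622752618265581967993243711832064), (nat_lit 991537384077479696790565806931968), (nat_lit 595131084266746165283306317283328), (nat_lit 318482051959471219009774084423680), (nat_lit 94111104536634927031048999010304), (nat_lit 490494180678031006956849431838720), (nat_lit 771287916290905379909528855773184), (nat_lit 1253155323484772113100045782351872), (nat_lit 485856890090886412250982826115072), (nat_lit 428612387028434246327240088354816), (nat_lit 1374369591008052757895213802848256), (nat_lit 1495868250915648259270854699909120), (nat_lit 934363966192489929301448045101056), (nat_lit 715168538793639313381727013961728), (nat_lit 1438414677721950086652835072573440),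 (nat_lit 1235480556798422196431801087426560), (nat_lit 991537384077479696790565806931968), (nat_lit 595131084266746165283306317283328), (nat_lit 395742244383619797459409261559808), (nat_lit 184762888771644886781633004306432), (nat_lit 378637653777267327046968831639552), (nat_lit 495678915964981288060907887263744), (nat_lit 417473759046227624511065385074688), (nat_lit 378637653777267327046968831639552), (nat_lit 1201545544025053208170421909716992), (nat_lit 726181005157196735540382255808512), (nat_lit 417975251635452047430142201430016), (nat_lit 745223465586490914289884164259840), (nat_lit 318482051959471219009774084423680), (nat_lit 110543622437412513461917762715648), (nat_lit 345494884072588079869542638026752), (nat_lit 140169456279808215938290254086144), (nat_lit 345494884072588079869542638026752), (nat_lit 362452744372705043325519057125376), (nat_lit 124059401969615875537499448147968), (nat_lit 103229161678419681570472832532480), (nat_lit 144957453039664740504518793363456),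 (nat_lit 144957453039664740504518793363456), (nat_lit 22944757197904062714968587370496)]


end Pool.Agent.TOPR.R6078
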