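import Pool.Agent.TOPR.R6078.Cert

set_option autoImplicit false
set_option linter.all false
set_option maxRecDepth 100000

namespace Pool.Agent.TOPR.R6078

open Helper10.PC hiding V3
open Helper80.CW.DL Pool.Agent.Helper6.TOP

def et0_0 : T ℤ := (T.h (T.h (P (nat_lit 0)) (T.h (T.h (T.h (P (nat_lit 0)) (T.h (T.h (P (nat_lit 0)) (T.h (P (nat_lit 12683381004)) (T.h (P (nat_lit 0)) (M (nat_lit 51137350763))))) (T.h (P (nat_lit 0)) (T.h (T.h (P (nat_lit 0)) (P (nat_lit 81418817160))) (P (nat_lit 0)))))) (T.h (T.h (T.h (M (nat_lit 529591647)) (T.h (P (nat_lit 0)) (T.h (P (nat_lit 11085704048)) (T.h (P (nat_lit 0)) (P (nat_lit 99277826832)))))) (T.h (P (nat_lit 0)) (T.h (T.h (M (nat_lit 39956007487)) (T.h (P (nat_lit 0)) (M (nat_lit 216529667907)))) (T.h (P (nat_lit 0)) (P (nat_lit 40540040148)))))) (T.h (T.h (P (nat_lit 0)) (T.h (T.h (P (nat_lit 0)) (M (nat_lit 53123717703))) (P (nat_lit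 0)))) (T.h (T.h (T.h (M (nat_lit 13386860911)) (T.h (P (nat_lit 0)) (M (nat_lit 8571235323)))) (T.h (P (nat_lit 0)) (P (nat_lit 63473578172)))) (T.h (P (nat_lit 0)) (P (nat_lit 721154176))))))) (T.h (P (nat_lit 0)) (T.h (T.h (T.h (P (nat_lit 0)) (T.h (T.h (P (nat_lit 0)) (T.h (M (nat_lit 27979052359)) (T.h (P (nat_lit 0)) (M (nat_lit 192027219467))))) (T.h (P (nat_lit 0)) (T.h (T.h (P (nat_lit 0)) (M (nat_lit 192027219467))) (P (nat_lit 0)))))) (T.h (T.h (T.h (P (nat_lit 0)) (T.h (P (nat_lit 0)) (T.h (M (nat_lit 13073049975)) (T.h (P (nat_lit 0)) (M (nat_lit 243719808107)))))) (T.h (P (nat_lit 0)) (T.h (T.h (M (nat_lit 13073049975)) (T.h (P (nat_lit 0)) (P (nat_lit 47998272728)))) (T.h (P (nat_lit 0)) (M (nat_lit 243719808107)))))) (T.h (T.h (P (nat_lit 0)) (T.h (T.h (P (nat_lit 0)) (P (nat_lit 218480122448))) (P (nat_lit 0)))) (T.h (T.h (T.h (P (nat_lit 0)) (T.h (P (nat_lit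 0)) (M (nat_lit 153994041795)))) (T.h (P (nat_lit 0)) (M (nat_lit 153994041795)))) (P (nat_lit 0)))))) (P (nat_lit 0)))))) (T.h (T.h (T.h (T.h (T.h (P (nat_lit 24932520)) (T.h (P (nat_lit 0)) (T.h (P (nat_lit 1724893684)) (T.h (P (nat_lit 0)) (P (nat_lit 50236280804)))))) (T.h (P (nat_lit 0)) (T.h (T.h (M (nat_lit 51425175)) (T.h (P (nat_lit 0)) (M (nat_lit 17776216707)))) (T.h (P (nat_lit 0)) (P (nat_lit 12612851400)))))) (T.h (T.h (P (nat_lit 0)) (T.h (T.h (P (nat_lit 0)) (T.h (M (nat_lit 1957506751)) (T.h (P (nat_lit 0)) (P (nat_lit 36530229168))))) (T.h (P (nat_lit 0)) (T.h (T.h (P (nat_lit 0)) (P (nat_lit 96623575280))) (P (nat_lit 0)))))) (T.h (T.h (T.h (P (nat_lit 1724893684)) (T.h (P (nat_lit 0)) (P (nat_lit 8291743600)))) (T.h (P (nat_lit 0)) (M (nat_lit 17776216707)))) (T.h (T.h (P (nat_lit 0)) (T.h (T.h (P (nat_lit 0)) (P (nat_lit 36530229168))) (P (nat_lit 0))))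 (P (nat_lit 50236280804)))))) (T.h (P (nat_lit 0)) (T.h (T.h (T.h (T.h (P (nat_lit 0)) (T.h (P (nat_lit 0)) (T.h (M (nat_lit 7404341447)) (T.h (P (nat_lit 0)) (M (nat_lit 55916403647)))))) (T.h (P (nat_lit 0)) (T.h (T.h (P (nat_lit 179988116)) (T.h (P (nat_lit 0)) (M (nat_lit 676924017839)))) (P (nat_lit 0))))) (T.h (T.h (P (nat_lit 0)) (T.h (T.h (P (nat_lit 0)) (T.h (M (nat_lit 148692679771)) (T.h (P (nat_lit 0)) (P (nat_lit 175088086600))))) (T.h (P (nat_lit 0)) (T.h (T.h (P (nat_lit 0)) (M (nat_lit 358305691995))) (P (nat_lit 0)))))) (T.h (T.h (T.h (P (nat_lit 0)) (T.h (P (nat_lit 0)) (M (nat_lit 29021102599)))) (T.h (P (nat_lit 0)) (P (nat_lit 253235115868)))) (T.h (T.h (P (nat_lit 0)) (T.h (T.h (P (nat_lit 0)) (M (nat_lit 430799690775))) (P (nat_lit 0)))) (P (nat_lit 0)))))) (P (nat_lit 0))))) (T.h (T.h (P (nat_lit 0)) (T.h (T.h (T.h (P (nat_lit 0)) (T.h (T.h (P (nat_lit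 0)) (T.h (M (nat_lit 12436134927)) (T.h (P (nat_lit 0)) (P (nat_lit 6878753896))))) (T.h (P (nat_lit 0)) (T.h (T.h (P (nat_lit 0)) (M (nat_lit 48406158051))) (P (nat_lit 0)))))) (T.h (T.h (T.h (P (nat_lit 682465476)) (T.h (P (nat_lit 0)) (T.h (M (nat_lit 50303763)) (T.h (P (nat_lit 0)) (P (nat_lit 63284873428)))))) (T.h (P (nat_lit 0)) (T.h (T.h (P (nat_lit 41653621716)) (T.h (P (nat_lit 0)) (P (nat_lit 730927589140)))) (T.h (P (nat_lit 0)) (M (nat_lit 178535670179)))))) (T.h (T.h (P (nat_lit 0)) (T.h (T.h (P (nat_lit 0)) (P (nat_lit 1668623964))) (P (nat_lit 0)))) (T.h (T.h (T.h (P (nat_lit 13914094656)) (T.h (P (nat_lit 0)) (P (nat_lit 39844771288)))) (T.h (P (nat_lit 0)) (M (nat_lit 50186449627)))) (T.h (P (nat_lit 0)) (M (nat_lit 51576827427))))))) (P (nat_lit 0)))) (T.h (T.h (T.h (T.h (T.h (M (nat_lit 34905527)) (T.h (P (nat_lit 0)) (T.h (M (nat_lit 1770541723)) (T.h (P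 (nat_lit 0)) (M (nat_lit 48575184307)))))) (T.h (P (nat_lit 0)) (T.h (P (nat_lit 0)) (T.h (P (nat_lit 0)) (M (nat_lit 17657991959)))))) (T.h (T.h (P (nat_lit 0)) (T.h (P (nat_lit 0)) (T.h (P (nat_lit 0)) (T.h (T.h (P (nat_lit 0)) (M (nat_lit 135273005391))) (P (nat_lit 0)))))) (T.h (M (nat_lit 1770541723)) (T.h (P (nat_lit 0)) (M (nat_lit 48575184307)))))) (P (nat_lit 0))) (P (nat_lit 0))))))
def et0_1 : T ℤ := (T.h (T.h (P (nat_lit 0)) (T.h (P (nat_lit 0)) (T.h (P (nat_lit 0)) (T.h (P (nat_lit 0)) (T.h (T.h (T.h (T.h (P (nat_lit 24932520)) (T.h (P (nat_lit 0)) (T.h (M (nat_lit 51425175)) (T.h (P (nat_lit 0)) (P (nat_lit 12612851400)))))) (T.h (P (nat_lit 0)) (T.h (T.h (P (nat_lit 1724893684)) (T.h (P (nat_lit 0)) (M (nat_lit 17776216707)))) (T.h (P (nat_lit 0)) (P (nat_lit 50236280804)))))) (T.h (T.h (P (nat_lit 0)) (T.h (T.h (P (nat_lit 0)) (T.h (M (nat_lit 1957506751)) (T.h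 (P (nat_lit 0)) (P (nat_lit 96623575280))))) (T.h (P (nat_lit 0)) (T.h (T.h (P (nat_lit 0)) (P (nat_lit 36530229168))) (P (nat_lit 0)))))) (T.h (T.h (T.h (P (nat_lit 1724893684)) (T.h (P (nat_lit 0)) (M (nat_lit 17776216707)))) (T.h (P (nat_lit 0)) (P (nat_lit 8291743600)))) (T.h (T.h (P (nat_lit 0)) (T.h (T.h (P (nat_lit 0)) (P (nat_lit 36530229168))) (P (nat_lit 0)))) (P (nat_lit 50236280804)))))) (T.h (P (nat_lit 0)) (T.h (T.h (T.h (T.h (M (nat_lit 34905527)) (T.h (P (nat_lit 0)) (T.h (P (nat_lit 0)) (T.h (P (nat_lit 0)) (M (nat_lit 17657991959)))))) (T.h (P (nat_lit 0)) (T.h (M (nat_lit 1770541723)) (T.h (P (nat_lit 0)) (M (nat_lit 48575184307)))))) (T.h (T.h (P (nat_lit 0)) (T.h (T.h (P (nat_lit 0)) (T.h (P (nat_lit 0)) (T.h (P (nat_lit 0)) (M (nat_lit 135273005391))))) (P (nat_lit 0)))) (T.h (M (nat_lit 1770541723)) (T.h (P (nat_lit 0)) (M (nat_lit 48575184307)))))) (P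 (nat_lit 0))))))))) (T.h (T.h (P (nat_lit 0)) (T.h (P (nat_lit 0)) (T.h (P (nat_lit 0)) (T.h (T.h (T.h (P (nat_lit 0)) (T.h (T.h (P (nat_lit 0)) (T.h (P (nat_lit 12683381004)) (T.h (P (nat_lit 0)) (P (nat_lit 81418817160))))) (T.h (P (nat_lit 0)) (T.h (T.h (P (nat_lit 0)) (M (nat_lit 51137350763))) (P (nat_lit 0)))))) (T.h (T.h (T.h (M (nat_lit 529591647)) (T.h (P (nat_lit 0)) (T.h (M (nat_lit 39956007487)) (T.h (P (nat_lit 0)) (P (nat_lit 40540040148)))))) (T.h (P (nat_lit 0)) (T.h (T.h (P (nat_lit 11085704048)) (T.h (P (nat_lit 0)) (M (nat_lit 216529667907)))) (T.h (P (nat_lit 0)) (P (nat_lit 99277826832)))))) (T.h (T.h (P (nat_lit 0)) (T.h (T.h (P (nat_lit 0)) (M (nat_lit 53123717703))) (P (nat_lit 0)))) (T.h (T.h (T.h (M (nat_lit 13386860911)) (T.h (P (nat_lit 0)) (P (nat_lit 63473578172)))) (T.h (P (nat_lit 0)) (M (nat_lit 8571235323)))) (T.h (P (nat_lit 0)) (P (nat_lit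 721154176))))))) (T.h (P (nat_lit 0)) (T.h (T.h (T.h (P (nat_lit 0)) (T.h (T.h (P (nat_lit 0)) (T.h (M (nat_lit 12436134927)) (T.h (P (nat_lit 0)) (M (nat_lit 48406158051))))) (T.h (P (nat_lit 0)) (T.h (T.h (P (nat_lit 0)) (P (nat_lit 6878753896))) (P (nat_lit 0)))))) (T.h (T.h (T.h (P (nat_lit 682465476)) (T.h (P (nat_lit 0)) (T.h (P (nat_lit 41653621716)) (T.h (P (nat_lit 0)) (M (nat_lit 178535670179)))))) (T.h (P (nat_lit 0)) (T.h (T.h (M (nat_lit 50303763)) (T.h (P (nat_lit 0)) (P (nat_lit 730927589140)))) (T.h (P (nat_lit 0)) (P (nat_lit 63284873428)))))) (T.h (T.h (P (nat_lit 0)) (T.h (T.h (P (nat_lit 0)) (P (nat_lit 1668623964))) (P (nat_lit 0)))) (T.h (T.h (T.h (P (nat_lit 13914094656)) (T.h (P (nat_lit 0)) (M (nat_lit 50186449627)))) (T.h (P (nat_lit 0)) (P (nat_lit 39844771288)))) (T.h (P (nat_lit 0)) (M (nat_lit 51576827427))))))) (P (nat_lit 0)))))))) (T.h (T.h (P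 (nat_lit 0)) (T.h (P (nat_lit 0)) (T.h (T.h (T.h (T.h (P (nat_lit 12257696)) (T.h (P (nat_lit 0)) (T.h (P (nat_lit 3169922320)) (T.h (P (nat_lit 0)) (M (nat_lit 9406573927)))))) (T.h (P (nat_lit 0)) (T.h (T.h (P (nat_lit 3169922320)) (T.h (P (nat_lit 0)) (P (nat_lit 596048195880)))) (T.h (P (nat_lit 0)) (M (nat_lit 9406573927)))))) (T.h (T.h (P (nat_lit 0)) (T.h (T.h (P (nat_lit 0)) (T.h (P (nat_lit 133323388632)) (T.h (P (nat_lit 0)) (P (nat_lit 213223171016))))) (T.h (P (nat_lit 0)) (T.h (T.h (P (nat_lit 0)) (P (nat_lit 213223171016))) (P (nat_lit 0)))))) (T.h (T.h (T.h (P (nat_lit 0)) (T.h (P (nat_lit 0)) (M (nat_lit 63114489827)))) (T.h (P (nat_lit 0)) (M (nat_lit 63114489827)))) (T.h (T.h (P (nat_lit 0)) (T.h (T.h (P (nat_lit 0)) (P (nat_lit 395211767496))) (P (nat_lit 0)))) (P (nat_lit 0)))))) (T.h (P (nat_lit 0)) (T.h (T.h (T.h (T.h (P (nat_lit 0)) (T.h (P (nat_lit 0))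 (P (nat_lit 179988116)))) (T.h (P (nat_lit 0)) (T.h (T.h (M (nat_lit 7404341447)) (T.h (P (nat_lit 0)) (M (nat_lit 676924017839)))) (T.h (P (nat_lit 0)) (M (nat_lit 55916403647)))))) (T.h (T.h (P (nat_lit 0)) (T.h (T.h (P (nat_lit 0)) (T.h (M (nat_lit 148692679771)) (T.h (P (nat_lit 0)) (M (nat_lit 358305691995))))) (T.h (P (nat_lit 0)) (T.h (T.h (P (nat_lit 0)) (P (nat_lit 175088086600))) (P (nat_lit 0)))))) (T.h (T.h (T.h (P (nat_lit 0)) (T.h (P (nat_lit 0)) (P (nat_lit 253235115868)))) (T.h (P (nat_lit 0)) (M (nat_lit 29021102599)))) (T.h (T.h (P (nat_lit 0)) (T.h (T.h (P (nat_lit 0)) (M (nat_lit 430799690775))) (P (nat_lit 0)))) (P (nat_lit 0)))))) (P (nat_lit 0))))))) et0_0)))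
def et0_2 : T ℤ := (T.h (T.h (T.h (T.h (T.h (P (nat_lit 0)) (T.h (M (nat_lit 529591647)) (T.h (P (nat_lit 0)) (T.h (M (nat_lit 13386860911)) (T.h (P (nat_lit 0)) (P (nat_lit 721154176))))))) (T.h (P (nat_lit 0)) (T.h (T.h (P (nat_lit 0)) (T.h (M (nat_lit 39956007487)) (T.h (P (nat_lit 0)) (P (nat_lit 63473578172))))) (T.h (P (nat_lit 0)) (T.h (T.h (P (nat_lit 0)) (P (nat_lit 40540040148))) (P (nat_lit 0))))))) (T.h (T.h (P (nat_lit 0)) (T.h (T.h (P (nat_lit 12683381004)) (T.h (P (nat_lit 0)) (M (nat_lit 53123717703)))) (T.h (P (nat_lit 0)) (P (nat_lit 81418817160))))) (T.h (T.h (T.h (P (nat_lit 0)) (T.h (P (nat_lit 11085704048)) (T.h (P (nat_lit 0)) (M (nat_lit 8571235323))))) (T.h (P (nat_lit 0)) (T.h (T.h (P (nat_lit 0)) (M (nat_lit 216529667907))) (P (nat_lit 0))))) (T.h (T.h (P (nat_lit 0)) (M (nat_lit 51137350763))) (T.h (T.h (T.h (P (nat_lit 0)) (P (nat_lit 99277826832)))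 (P (nat_lit 0))) (P (nat_lit 0))))))) (T.h (P (nat_lit 0)) (T.h (T.h (T.h (T.h (P (nat_lit 0)) (T.h (P (nat_lit 697091696)) (T.h (P (nat_lit 0)) (P (nat_lit 50844219132))))) (T.h (P (nat_lit 0)) (T.h (T.h (P (nat_lit 0)) (T.h (P (nat_lit 180849036984)) (T.h (P (nat_lit 0)) (M (nat_lit 1830907130611))))) (T.h (P (nat_lit 0)) (T.h (T.h (P (nat_lit 0)) (M (nat_lit 981765394007))) (P (nat_lit 0))))))) (T.h (T.h (P (nat_lit 0)) (T.h (T.h (M (nat_lit 19453132971)) (T.h (P (nat_lit 0)) (M (nat_lit 20884850167)))) (T.h (P (nat_lit 0)) (P (nat_lit 280840882840))))) (T.h (T.h (T.h (P (nat_lit 0)) (T.h (M (nat_lit 307389235)) (T.h (P (nat_lit 0)) (M (nat_lit 569702896895))))) (T.h (P (nat_lit 0)) (T.h (T.h (P (nat_lit 0)) (M (nat_lit 1806842180835))) (P (nat_lit 0))))) (T.h (T.h (P (nat_lit 0)) (P (nat_lit 229417370868))) (T.h (T.h (T.h (P (nat_lit 0)) (M (nat_lit 800213717911))) (P (nat_lit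 0))) (P (nat_lit 0))))))) (P (nat_lit 0))))) (T.h (T.h (P (nat_lit 0)) (T.h (T.h (T.h (P (nat_lit 0)) (T.h (T.h (M (nat_lit 1373570519)) (T.h (P (nat_lit 0)) (T.h (P (nat_lit 6786176124)) (T.h (P (nat_lit 0)) (M (nat_lit 593849387683)))))) (T.h (P (nat_lit 0)) (T.h (T.h (P (nat_lit 621211864)) (T.h (P (nat_lit 0)) (M (nat_lit 1451748460231)))) (T.h (P (nat_lit 0)) (M (nat_lit 118657800687))))))) (T.h (T.h (T.h (P (nat_lit 0)) (T.h (M (nat_lit 5931199399)) (T.h (P (nat_lit 0)) (M (nat_lit 122189689915))))) (T.h (P (nat_lit 0)) (T.h (T.h (P (nat_lit 0)) (M (nat_lit 481896415839))) (P (nat_lit 0))))) (T.h (T.h (P (nat_lit 0)) (T.h (T.h (P (nat_lit 6786176124)) (T.h (P (nat_lit 0)) (M (nat_lit 959053196751)))) (T.h (P (nat_lit 0)) (M (nat_lit 1451748460231))))) (T.h (T.h (T.h (P (nat_lit 0)) (M (nat_lit 122189689915))) (P (nat_lit 0))) (T.h (T.h (P (nat_lit 0)) (M (nat_lit 593849387683)))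 (P (nat_lit 0))))))) (P (nat_lit 0)))) (T.h (T.h (T.h (T.h (T.h (P (nat_lit 0)) (T.h (P (nat_lit 682465476)) (T.h (P (nat_lit 0)) (T.h (P (nat_lit 13914094656)) (T.h (P (nat_lit 0)) (M (nat_lit 51576827427))))))) (T.h (P (nat_lit 0)) (T.h (T.h (P (nat_lit 0)) (T.h (P (nat_lit 41653621716)) (T.h (P (nat_lit 0)) (M (nat_lit 50186449627))))) (T.h (P (nat_lit 0)) (T.h (T.h (P (nat_lit 0)) (M (nat_lit 178535670179))) (P (nat_lit 0))))))) (T.h (T.h (P (nat_lit 0)) (T.h (T.h (M (nat_lit 12436134927)) (T.h (P (nat_lit 0)) (P (nat_lit 1668623964)))) (T.h (P (nat_lit 0)) (M (nat_lit 48406158051))))) (T.h (T.h (T.h (P (nat_lit 0)) (T.h (M (nat_lit 50303763)) (T.h (P (nat_lit 0)) (P (nat_lit 39844771288))))) (T.h (P (nat_lit 0)) (T.h (T.h (P (nat_lit 0)) (P (nat_lit 730927589140))) (P (nat_lit 0))))) (T.h (T.h (P (nat_lit 0)) (P (nat_lit 6878753896))) (T.h (T.h (T.h (P (nat_lit 0)) (P (nat_lit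 63284873428))) (P (nat_lit 0))) (P (nat_lit 0))))))) (P (nat_lit 0))) (P (nat_lit 0)))))
def et0_3 : T ℤ := (T.h (T.h (P (nat_lit 0)) (T.h (P (nat_lit 0)) (T.h (T.h (T.h (T.h (P (nat_lit 0)) (T.h (P (nat_lit 0)) (T.h (P (nat_lit 0)) (T.h (P (nat_lit 0)) (T.h (P (nat_lit 0)) (P (nat_lit 92627679576))))))) (T.h (P (nat_lit 0)) (T.h (T.h (P (nat_lit 0)) (T.h (P (nat_lit 1431161904)) (T.h (P (nat_lit 0)) (P (nat_lit 394654491336))))) (T.h (P (nat_lit 0)) (T.h (T.h (P (nat_lit 0)) (P (nat_lit 585490531144))) (P (nat_lit 0))))))) (T.h (T.h (P (nat_lit 0)) (T.h (T.h (M (nat_lit 4017181615)) (T.h (P (nat_lit 0)) (P (nat_lit 310372371120)))) (T.h (P (nat_lit 0)) (M (nat_lit 62135223847))))) (T.h (T.h (T.h (P (nat_lit 0)) (T.h (P (nat_lit 1431161904)) (T.h (P (nat_lit 0)) (P (nat_lit 394654491336))))) (T.h (P (nat_lit 0)) (T.h (T.h (P (nat_lit 0)) (P (nat_lit 176117430976))) (P (nat_lit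 0))))) (T.h (T.h (P (nat_lit 0)) (M (nat_lit 62135223847))) (T.h (T.h (T.h (P (nat_lit 0)) (P (nat_lit 585490531144))) (P (nat_lit 0))) (P (nat_lit 0))))))) (T.h (P (nat_lit 0)) (T.h (T.h (T.h (T.h (P (nat_lit 0)) (T.h (M (nat_lit 1373570519)) (T.h (P (nat_lit 0)) (T.h (P (nat_lit 621211864)) (T.h (P (nat_lit 0)) (M (nat_lit 118657800687))))))) (T.h (P (nat_lit 0)) (T.h (T.h (P (nat_lit 0)) (T.h (P (nat_lit 6786176124)) (T.h (P (nat_lit 0)) (M (nat_lit 1451748460231))))) (T.h (P (nat_lit 0)) (T.h (T.h (P (nat_lit 0)) (M (nat_lit 593849387683))) (P (nat_lit 0))))))) (T.h (T.h (P (nat_lit 0)) (T.h (T.h (M (nat_lit 5931199399)) (T.h (P (nat_lit 0)) (M (nat_lit 481896415839)))) (T.h (P (nat_lit 0)) (M (nat_lit 122189689915))))) (T.h (T.h (T.h (P (nat_lit 0)) (T.h (P (nat_lit 6786176124)) (T.h (P (nat_lit 0)) (M (nat_lit 1451748460231))))) (T.h (P (nat_lit 0)) (T.h (T.h (P (nat_lit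 0)) (M (nat_lit 959053196751))) (P (nat_lit 0))))) (T.h (T.h (P (nat_lit 0)) (M (nat_lit 122189689915))) (T.h (T.h (T.h (P (nat_lit 0)) (M (nat_lit 593849387683))) (P (nat_lit 0))) (P (nat_lit 0))))))) (P (nat_lit 0))))))) (T.h (T.h (P (nat_lit 0)) (T.h (T.h (T.h (P (nat_lit 0)) (T.h (T.h (P (nat_lit 0)) (T.h (P (nat_lit 0)) (T.h (P (nat_lit 1431161904)) (T.h (P (nat_lit 0)) (P (nat_lit 585490531144)))))) (T.h (P (nat_lit 0)) (T.h (T.h (P (nat_lit 0)) (T.h (P (nat_lit 0)) (P (nat_lit 394654491336)))) (T.h (P (nat_lit 0)) (P (nat_lit 92627679576))))))) (T.h (T.h (T.h (P (nat_lit 0)) (T.h (M (nat_lit 4017181615)) (T.h (P (nat_lit 0)) (M (nat_lit 62135223847))))) (T.h (P (nat_lit 0)) (T.h (T.h (P (nat_lit 0)) (P (nat_lit 310372371120))) (P (nat_lit 0))))) (T.h (T.h (P (nat_lit 0)) (T.h (T.h (P (nat_lit 1431161904)) (T.h (P (nat_lit 0)) (P (nat_lit 176117430976)))) (T.h (P (nat_lit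 0)) (P (nat_lit 394654491336))))) (T.h (T.h (T.h (P (nat_lit 0)) (M (nat_lit 62135223847))) (P (nat_lit 0))) (T.h (T.h (P (nat_lit 0)) (P (nat_lit 585490531144))) (P (nat_lit 0))))))) (T.h (P (nat_lit 0)) (T.h (T.h (T.h (P (nat_lit 0)) (T.h (T.h (P (nat_lit 697091696)) (T.h (P (nat_lit 0)) (T.h (P (nat_lit 180849036984)) (T.h (P (nat_lit 0)) (M (nat_lit 981765394007)))))) (T.h (P (nat_lit 0)) (T.h (T.h (P (nat_lit 50844219132)) (T.h (P (nat_lit 0)) (M (nat_lit 1830907130611)))) (P (nat_lit 0)))))) (T.h (T.h (T.h (P (nat_lit 0)) (T.h (M (nat_lit 19453132971)) (T.h (P (nat_lit 0)) (P (nat_lit 280840882840))))) (T.h (P (nat_lit 0)) (T.h (T.h (P (nat_lit 0)) (M (nat_lit 20884850167))) (P (nat_lit 0))))) (T.h (T.h (P (nat_lit 0)) (T.h (T.h (M (nat_lit 307389235)) (T.h (P (nat_lit 0)) (M (nat_lit 1806842180835)))) (T.h (P (nat_lit 0)) (M (nat_lit 569702896895))))) (T.h (T.h (T.h (P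 (nat_lit 0)) (P (nat_lit 229417370868))) (P (nat_lit 0))) (T.h (T.h (P (nat_lit 0)) (M (nat_lit 800213717911))) (P (nat_lit 0))))))) (P (nat_lit 0)))))) et0_2))
def et0_4 : T ℤ := (T.h (T.h (P (nat_lit 0)) (T.h (T.h (T.h (P (nat_lit 0)) (T.h (T.h (P (nat_lit 0)) (T.h (M (nat_lit 4017181615)) (T.h (P (nat_lit 0)) (M (nat_lit 62135223847))))) (T.h (P (nat_lit 0)) (T.h (T.h (P (nat_lit 0)) (M (nat_lit 62135223847))) (P (nat_lit 0)))))) (T.h (T.h (T.h (P (nat_lit 0)) (T.h (P (nat_lit 0)) (T.h (P (nat_lit 1431161904)) (T.h (P (nat_lit 0)) (P (nat_lit 585490531144)))))) (T.h (P (nat_lit 0)) (T.h (T.h (P (nat_lit 1431161904)) (T.h (P (nat_lit 0)) (P (nat_lit 176117430976)))) (T.h (P (nat_lit 0)) (P (nat_lit 585490531144)))))) (T.h (T.h (P (nat_lit 0)) (T.h (T.h (P (nat_lit 0)) (P (nat_lit 310372371120))) (P (nat_lit 0)))) (T.h (T.h (T.h (P (nat_lit 0)) (T.h (P (nat_lit 0)) (P (nat_lit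 394654491336)))) (T.h (P (nat_lit 0)) (P (nat_lit 394654491336)))) (T.h (P (nat_lit 0)) (P (nat_lit 92627679576))))))) (T.h (P (nat_lit 0)) (T.h (T.h (T.h (P (nat_lit 0)) (T.h (T.h (P (nat_lit 0)) (T.h (M (nat_lit 19453132971)) (T.h (P (nat_lit 0)) (P (nat_lit 280840882840))))) (T.h (P (nat_lit 0)) (T.h (T.h (P (nat_lit 0)) (P (nat_lit 229417370868))) (P (nat_lit 0)))))) (T.h (T.h (T.h (P (nat_lit 697091696)) (T.h (P (nat_lit 0)) (T.h (P (nat_lit 180849036984)) (T.h (P (nat_lit 0)) (M (nat_lit 981765394007)))))) (T.h (P (nat_lit 0)) (T.h (T.h (M (nat_lit 307389235)) (T.h (P (nat_lit 0)) (M (nat_lit 1806842180835)))) (T.h (P (nat_lit 0)) (M (nat_lit 800213717911)))))) (T.h (T.h (P (nat_lit 0)) (T.h (T.h (P (nat_lit 0)) (M (nat_lit 20884850167))) (P (nat_lit 0)))) (T.h (T.h (T.h (P (nat_lit 50844219132)) (T.h (P (nat_lit 0)) (M (nat_lit 1830907130611)))) (T.h (P (nat_lit 0)) (M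 (nat_lit 569702896895)))) (P (nat_lit 0)))))) (P (nat_lit 0)))))) (T.h (T.h (T.h (T.h (P (nat_lit 12257696)) (T.h (P (nat_lit 0)) (T.h (T.h (P (nat_lit 3169922320)) (T.h (P (nat_lit 0)) (M (nat_lit 63114489827)))) (T.h (P (nat_lit 0)) (M (nat_lit 9406573927)))))) (T.h (T.h (P (nat_lit 0)) (T.h (T.h (P (nat_lit 0)) (T.h (P (nat_lit 133323388632)) (T.h (P (nat_lit 0)) (P (nat_lit 395211767496))))) (T.h (P (nat_lit 0)) (T.h (T.h (P (nat_lit 0)) (P (nat_lit 213223171016))) (P (nat_lit 0)))))) (T.h (T.h (T.h (P (nat_lit 3169922320)) (T.h (P (nat_lit 0)) (M (nat_lit 63114489827)))) (T.h (P (nat_lit 0)) (P (nat_lit 596048195880)))) (T.h (T.h (P (nat_lit 0)) (T.h (T.h (P (nat_lit 0)) (P (nat_lit 213223171016))) (P (nat_lit 0)))) (M (nat_lit 9406573927)))))) (T.h (P (nat_lit 0)) (T.h (T.h (T.h (T.h (M (nat_lit 257411615)) (T.h (P (nat_lit 0)) (T.h (M (nat_lit 19282146799)) (T.h (P (nat_lit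 0)) (M (nat_lit 185477807647)))))) (T.h (P (nat_lit 0)) (T.h (M (nat_lit 19282146799)) (T.h (P (nat_lit 0)) (M (nat_lit 185477807647)))))) (T.h (T.h (P (nat_lit 0)) (T.h (T.h (P (nat_lit 0)) (T.h (P (nat_lit 0)) (T.h (P (nat_lit 0)) (M (nat_lit 3601772614719))))) (T.h (P (nat_lit 0)) (T.h (T.h (P (nat_lit 0)) (M (nat_lit 3601772614719))) (P (nat_lit 0)))))) (T.h (M (nat_lit 19282146799)) (T.h (T.h (P (nat_lit 0)) (T.h (T.h (P (nat_lit 0)) (M (nat_lit 3601772614719))) (P (nat_lit 0)))) (M (nat_lit 185477807647)))))) (P (nat_lit 0))))) (T.h (T.h (P (nat_lit 0)) (T.h (T.h (T.h (P (nat_lit 0)) (T.h (T.h (P (nat_lit 0)) (T.h (M (nat_lit 19453132971)) (T.h (P (nat_lit 0)) (P (nat_lit 229417370868))))) (T.h (P (nat_lit 0)) (T.h (T.h (P (nat_lit 0)) (P (nat_lit 280840882840))) (P (nat_lit 0)))))) (T.h (T.h (T.h (P (nat_lit 697091696)) (T.h (P (nat_lit 0)) (T.h (M (nat_lit 307389235))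 (T.h (P (nat_lit 0)) (M (nat_lit 800213717911)))))) (T.h (P (nat_lit 0)) (T.h (T.h (P (nat_lit 180849036984)) (T.h (P (nat_lit 0)) (M (nat_lit 1806842180835)))) (T.h (P (nat_lit 0)) (M (nat_lit 981765394007)))))) (T.h (T.h (P (nat_lit 0)) (T.h (T.h (P (nat_lit 0)) (M (nat_lit 20884850167))) (P (nat_lit 0)))) (T.h (T.h (T.h (P (nat_lit 50844219132)) (T.h (P (nat_lit 0)) (M (nat_lit 569702896895)))) (T.h (P (nat_lit 0)) (M (nat_lit 1830907130611)))) (P (nat_lit 0)))))) (P (nat_lit 0)))) (T.h (T.h (T.h (T.h (P (nat_lit 0)) (T.h (P (nat_lit 0)) (T.h (T.h (P (nat_lit 179988116)) (T.h (P (nat_lit 0)) (P (nat_lit 253235115868)))) (P (nat_lit 0))))) (T.h (T.h (P (nat_lit 0)) (T.h (T.h (P (nat_lit 0)) (T.h (M (nat_lit 148692679771)) (T.h (P (nat_lit 0)) (M (nat_lit 430799690775))))) (T.h (P (nat_lit 0)) (T.h (T.h (P (nat_lit 0)) (M (nat_lit 358305691995))) (P (nat_lit 0)))))) (T.h (T.h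 (T.h (M (nat_lit 7404341447)) (T.h (P (nat_lit 0)) (M (nat_lit 29021102599)))) (T.h (P (nat_lit 0)) (M (nat_lit 676924017839)))) (T.h (T.h (P (nat_lit 0)) (T.h (T.h (P (nat_lit 0)) (P (nat_lit 175088086600))) (P (nat_lit 0)))) (M (nat_lit 55916403647)))))) (P (nat_lit 0))) (P (nat_lit 0))))))
def et0_5 : T ℤ := (T.h (T.h (T.h (T.h (T.h (P (nat_lit 0)) (T.h (M (nat_lit 529591647)) (T.h (P (nat_lit 0)) (T.h (M (nat_lit 13386860911)) (T.h (P (nat_lit 0)) (P (nat_lit 721154176))))))) (T.h (P (nat_lit 0)) (T.h (T.h (P (nat_lit 0)) (T.h (P (nat_lit 11085704048)) (T.h (P (nat_lit 0)) (M (nat_lit 8571235323))))) (T.h (P (nat_lit 0)) (T.h (T.h (P (nat_lit 0)) (P (nat_lit 99277826832))) (P (nat_lit 0))))))) (T.h (T.h (P (nat_lit 0)) (T.h (T.h (P (nat_lit 12683381004)) (T.h (P (nat_lit 0)) (M (nat_lit 53123717703)))) (T.h (P (nat_lit 0)) (M (nat_lit 51137350763))))) (T.h (T.h (T.h (P (nat_lit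 0)) (T.h (M (nat_lit 39956007487)) (T.h (P (nat_lit 0)) (P (nat_lit 63473578172))))) (T.h (P (nat_lit 0)) (T.h (T.h (P (nat_lit 0)) (M (nat_lit 216529667907))) (P (nat_lit 0))))) (T.h (T.h (P (nat_lit 0)) (P (nat_lit 81418817160))) (T.h (T.h (T.h (P (nat_lit 0)) (P (nat_lit 40540040148))) (P (nat_lit 0))) (P (nat_lit 0))))))) (T.h (P (nat_lit 0)) (T.h (T.h (T.h (T.h (P (nat_lit 0)) (T.h (P (nat_lit 697091696)) (T.h (P (nat_lit 0)) (P (nat_lit 50844219132))))) (T.h (P (nat_lit 0)) (T.h (T.h (P (nat_lit 0)) (T.h (M (nat_lit 307389235)) (T.h (P (nat_lit 0)) (M (nat_lit 569702896895))))) (T.h (P (nat_lit 0)) (T.h (T.h (P (nat_lit 0)) (M (nat_lit 800213717911))) (P (nat_lit 0))))))) (T.h (T.h (P (nat_lit 0)) (T.h (T.h (M (nat_lit 19453132971)) (T.h (P (nat_lit 0)) (M (nat_lit 20884850167)))) (T.h (P (nat_lit 0)) (P (nat_lit 229417370868))))) (T.h (T.h (T.h (P (nat_lit 0)) (T.h (P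 (nat_lit 180849036984)) (T.h (P (nat_lit 0)) (M (nat_lit 1830907130611))))) (T.h (P (nat_lit 0)) (T.h (T.h (P (nat_lit 0)) (M (nat_lit 1806842180835))) (P (nat_lit 0))))) (T.h (T.h (P (nat_lit 0)) (P (nat_lit 280840882840))) (T.h (T.h (T.h (P (nat_lit 0)) (M (nat_lit 981765394007))) (P (nat_lit 0))) (P (nat_lit 0))))))) (P (nat_lit 0))))) (T.h (T.h (P (nat_lit 0)) (T.h (T.h (T.h (P (nat_lit 0)) (T.h (T.h (P (nat_lit 697091696)) (T.h (P (nat_lit 0)) (T.h (M (nat_lit 307389235)) (T.h (P (nat_lit 0)) (M (nat_lit 800213717911)))))) (T.h (P (nat_lit 0)) (T.h (T.h (P (nat_lit 50844219132)) (T.h (P (nat_lit 0)) (M (nat_lit 569702896895)))) (P (nat_lit 0)))))) (T.h (T.h (T.h (P (nat_lit 0)) (T.h (M (nat_lit 19453132971)) (T.h (P (nat_lit 0)) (P (nat_lit 229417370868))))) (T.h (P (nat_lit 0)) (T.h (T.h (P (nat_lit 0)) (M (nat_lit 20884850167))) (P (nat_lit 0))))) (T.h (T.h (P (nat_lit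 0)) (T.h (T.h (P (nat_lit 180849036984)) (T.h (P (nat_lit 0)) (M (nat_lit 1806842180835)))) (T.h (P (nat_lit 0)) (M (nat_lit 1830907130611))))) (T.h (T.h (T.h (P (nat_lit 0)) (P (nat_lit 280840882840))) (P (nat_lit 0))) (T.h (T.h (P (nat_lit 0)) (M (nat_lit 981765394007))) (P (nat_lit 0))))))) (P (nat_lit 0)))) (T.h (T.h (T.h (T.h (P (nat_lit 0)) (T.h (P (nat_lit 0)) (T.h (T.h (P (nat_lit 0)) (T.h (M (nat_lit 13073049975)) (T.h (P (nat_lit 0)) (M (nat_lit 153994041795))))) (T.h (P (nat_lit 0)) (T.h (T.h (P (nat_lit 0)) (M (nat_lit 243719808107))) (P (nat_lit 0))))))) (T.h (T.h (P (nat_lit 0)) (T.h (T.h (M (nat_lit 27979052359)) (T.h (P (nat_lit 0)) (P (nat_lit 218480122448)))) (T.h (P (nat_lit 0)) (M (nat_lit 192027219467))))) (T.h (T.h (T.h (P (nat_lit 0)) (T.h (M (nat_lit 13073049975)) (T.h (P (nat_lit 0)) (M (nat_lit 153994041795))))) (T.h (P (nat_lit 0)) (T.h (T.h (P (nat_lit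 0)) (P (nat_lit 47998272728))) (P (nat_lit 0))))) (T.h (T.h (P (nat_lit 0)) (M (nat_lit 192027219467))) (T.h (T.h (T.h (P (nat_lit 0)) (M (nat_lit 243719808107))) (P (nat_lit 0))) (P (nat_lit 0))))))) (P (nat_lit 0))) (P (nat_lit 0)))))
def et0_6 : T ℤ := (T.h (T.h (T.h (T.h (T.h (T.h (P (nat_lit 24932520)) (T.h (P (nat_lit 0)) (T.h (P (nat_lit 1724893684)) (T.h (P (nat_lit 0)) (P (nat_lit 50236280804)))))) (T.h (P (nat_lit 0)) (T.h (T.h (P (nat_lit 1724893684)) (T.h (P (nat_lit 0)) (P (nat_lit 8291743600)))) (T.h (P (nat_lit 0)) (P (nat_lit 50236280804)))))) (T.h (T.h (P (nat_lit 0)) (T.h (T.h (P (nat_lit 0)) (T.h (M (nat_lit 1957506751)) (T.h (P (nat_lit 0)) (P (nat_lit 36530229168))))) (T.h (P (nat_lit 0)) (T.h (T.h (P (nat_lit 0)) (P (nat_lit 36530229168))) (P (nat_lit 0)))))) (T.h (T.h (T.h (M (nat_lit 51425175)) (T.h (P (nat_lit 0)) (M (nat_lit 17776216707)))) (T.h (P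 (nat_lit 0)) (M (nat_lit 17776216707)))) (T.h (T.h (P (nat_lit 0)) (T.h (T.h (P (nat_lit 0)) (P (nat_lit 96623575280))) (P (nat_lit 0)))) (P (nat_lit 12612851400)))))) (T.h (P (nat_lit 0)) (T.h (T.h (T.h (T.h (P (nat_lit 0)) (T.h (P (nat_lit 0)) (T.h (M (nat_lit 7404341447)) (T.h (P (nat_lit 0)) (M (nat_lit 55916403647)))))) (T.h (P (nat_lit 0)) (T.h (T.h (P (nat_lit 0)) (T.h (P (nat_lit 0)) (M (nat_lit 29021102599)))) (P (nat_lit 0))))) (T.h (T.h (P (nat_lit 0)) (T.h (T.h (P (nat_lit 0)) (T.h (M (nat_lit 148692679771)) (T.h (P (nat_lit 0)) (P (nat_lit 175088086600))))) (T.h (P (nat_lit 0)) (T.h (T.h (P (nat_lit 0)) (M (nat_lit 430799690775))) (P (nat_lit 0)))))) (T.h (T.h (T.h (P (nat_lit 179988116)) (T.h (P (nat_lit 0)) (M (nat_lit 676924017839)))) (T.h (P (nat_lit 0)) (P (nat_lit 253235115868)))) (T.h (T.h (P (nat_lit 0)) (T.h (T.h (P (nat_lit 0)) (M (nat_lit 358305691995)))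 (P (nat_lit 0)))) (P (nat_lit 0)))))) (P (nat_lit 0))))) (T.h (T.h (P (nat_lit 0)) (T.h (T.h (T.h (P (nat_lit 0)) (T.h (T.h (P (nat_lit 0)) (T.h (M (nat_lit 5931199399)) (T.h (P (nat_lit 0)) (M (nat_lit 122189689915))))) (T.h (P (nat_lit 0)) (T.h (T.h (P (nat_lit 0)) (M (nat_lit 122189689915))) (P (nat_lit 0)))))) (T.h (T.h (T.h (M (nat_lit 1373570519)) (T.h (P (nat_lit 0)) (T.h (P (nat_lit 6786176124)) (T.h (P (nat_lit 0)) (M (nat_lit 593849387683)))))) (T.h (P (nat_lit 0)) (T.h (T.h (P (nat_lit 6786176124)) (T.h (P (nat_lit 0)) (M (nat_lit 959053196751)))) (T.h (P (nat_lit 0)) (M (nat_lit 593849387683)))))) (T.h (T.h (P (nat_lit 0)) (T.h (T.h (P (nat_lit 0)) (M (nat_lit 481896415839))) (P (nat_lit 0)))) (T.h (T.h (T.h (P (nat_lit 621211864)) (T.h (P (nat_lit 0)) (M (nat_lit 1451748460231)))) (T.h (P (nat_lit 0)) (M (nat_lit 1451748460231)))) (T.h (P (nat_lit 0)) (M (nat_lit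 118657800687))))))) (P (nat_lit 0)))) (T.h (T.h (T.h (T.h (P (nat_lit 0)) (T.h (P (nat_lit 0)) (T.h (T.h (M (nat_lit 7404341447)) (T.h (P (nat_lit 0)) (M (nat_lit 29021102599)))) (T.h (P (nat_lit 0)) (M (nat_lit 55916403647)))))) (T.h (T.h (P (nat_lit 0)) (T.h (T.h (P (nat_lit 0)) (T.h (M (nat_lit 148692679771)) (T.h (P (nat_lit 0)) (M (nat_lit 430799690775))))) (T.h (P (nat_lit 0)) (T.h (T.h (P (nat_lit 0)) (P (nat_lit 175088086600))) (P (nat_lit 0)))))) (T.h (T.h (T.h (P (nat_lit 179988116)) (T.h (P (nat_lit 0)) (P (nat_lit 253235115868)))) (T.h (P (nat_lit 0)) (M (nat_lit 676924017839)))) (T.h (T.h (P (nat_lit 0)) (T.h (T.h (P (nat_lit 0)) (M (nat_lit 358305691995))) (P (nat_lit 0)))) (P (nat_lit 0)))))) (P (nat_lit 0))) (P (nat_lit 0))))) (T.h (T.h (T.h (P (nat_lit 0)) (T.h (T.h (T.h (P (nat_lit 0)) (T.h (T.h (P (nat_lit 682465476)) (T.h (P (nat_lit 0)) (T.h (M (nat_lit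 50303763)) (T.h (P (nat_lit 0)) (P (nat_lit 63284873428)))))) (T.h (P (nat_lit 0)) (T.h (T.h (P (nat_lit 13914094656)) (T.h (P (nat_lit 0)) (P (nat_lit 39844771288)))) (T.h (P (nat_lit 0)) (M (nat_lit 51576827427))))))) (T.h (T.h (T.h (P (nat_lit 0)) (T.h (M (nat_lit 12436134927)) (T.h (P (nat_lit 0)) (P (nat_lit 6878753896))))) (T.h (P (nat_lit 0)) (T.h (T.h (P (nat_lit 0)) (P (nat_lit 1668623964))) (P (nat_lit 0))))) (T.h (T.h (P (nat_lit 0)) (T.h (T.h (P (nat_lit 41653621716)) (T.h (P (nat_lit 0)) (P (nat_lit 730927589140)))) (T.h (P (nat_lit 0)) (M (nat_lit 50186449627))))) (T.h (T.h (T.h (P (nat_lit 0)) (M (nat_lit 48406158051))) (P (nat_lit 0))) (T.h (T.h (P (nat_lit 0)) (M (nat_lit 178535670179))) (P (nat_lit 0))))))) (P (nat_lit 0)))) (T.h (T.h (T.h (T.h (T.h (P (nat_lit 0)) (T.h (P (nat_lit 682465476)) (T.h (P (nat_lit 0)) (T.h (P (nat_lit 13914094656)) (T.h (P (nat_lit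 0)) (M (nat_lit 51576827427))))))) (T.h (P (nat_lit 0)) (T.h (T.h (P (nat_lit 0)) (T.h (M (nat_lit 50303763)) (T.h (P (nat_lit 0)) (P (nat_lit 39844771288))))) (T.h (P (nat_lit 0)) (T.h (T.h (P (nat_lit 0)) (P (nat_lit 63284873428))) (P (nat_lit 0))))))) (T.h (T.h (P (nat_lit 0)) (T.h (T.h (M (nat_lit 12436134927)) (T.h (P (nat_lit 0)) (P (nat_lit 1668623964)))) (T.h (P (nat_lit 0)) (P (nat_lit 6878753896))))) (T.h (T.h (T.h (P (nat_lit 0)) (T.h (P (nat_lit 41653621716)) (T.h (P (nat_lit 0)) (M (nat_lit 50186449627))))) (T.h (P (nat_lit 0)) (T.h (T.h (P (nat_lit 0)) (P (nat_lit 730927589140))) (P (nat_lit 0))))) (T.h (T.h (P (nat_lit 0)) (M (nat_lit 48406158051))) (T.h (T.h (T.h (P (nat_lit 0)) (M (nat_lit 178535670179))) (P (nat_lit 0))) (P (nat_lit 0))))))) (P (nat_lit 0))) (P (nat_lit 0)))) (T.h (T.h (T.h (T.h (T.h (T.h (M (nat_lit 34905527)) (T.h (P (nat_lit 0)) (T.h (M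 (nat_lit 1770541723)) (T.h (P (nat_lit 0)) (M (nat_lit 48575184307)))))) (T.h (P (nat_lit 0)) (T.h (M (nat_lit 1770541723)) (T.h (P (nat_lit 0)) (M (nat_lit 48575184307)))))) (T.h (P (nat_lit 0)) (T.h (P (nat_lit 0)) (T.h (T.h (P (nat_lit 0)) (T.h (T.h (P (nat_lit 0)) (M (nat_lit 135273005391))) (P (nat_lit 0)))) (M (nat_lit 17657991959)))))) (P (nat_lit 0))) (P (nat_lit 0))) (P (nat_lit 0)))))
def et0_7 : T ℤ := (T.h (T.h (T.h (P (nat_lit 0)) (T.h (P (nat_lit 0)) (T.h (P (nat_lit 0)) (T.h (T.h (T.h (P (nat_lit 0)) (T.h (T.h (M (nat_lit 529591647)) (T.h (P (nat_lit 0)) (T.h (M (nat_lit 39956007487)) (T.h (P (nat_lit 0)) (P (nat_lit 40540040148)))))) (T.h (P (nat_lit 0)) (T.h (T.h (M (nat_lit 13386860911)) (T.h (P (nat_lit 0)) (P (nat_lit 63473578172)))) (T.h (P (nat_lit 0)) (P (nat_lit 721154176))))))) (T.h (T.h (T.h (P (nat_lit 0)) (T.h (P (nat_lit 12683381004)) (T.h (P (nat_lit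 0)) (P (nat_lit 81418817160))))) (T.h (P (nat_lit 0)) (T.h (T.h (P (nat_lit 0)) (M (nat_lit 53123717703))) (P (nat_lit 0))))) (T.h (T.h (P (nat_lit 0)) (T.h (T.h (P (nat_lit 11085704048)) (T.h (P (nat_lit 0)) (M (nat_lit 216529667907)))) (T.h (P (nat_lit 0)) (M (nat_lit 8571235323))))) (T.h (T.h (T.h (P (nat_lit 0)) (M (nat_lit 51137350763))) (P (nat_lit 0))) (T.h (T.h (P (nat_lit 0)) (P (nat_lit 99277826832))) (P (nat_lit 0))))))) (T.h (P (nat_lit 0)) (T.h (T.h (T.h (P (nat_lit 0)) (T.h (T.h (P (nat_lit 682465476)) (T.h (P (nat_lit 0)) (T.h (P (nat_lit 41653621716)) (T.h (P (nat_lit 0)) (M (nat_lit 178535670179)))))) (T.h (P (nat_lit 0)) (T.h (T.h (P (nat_lit 13914094656)) (T.h (P (nat_lit 0)) (M (nat_lit 50186449627)))) (T.h (P (nat_lit 0)) (M (nat_lit 51576827427))))))) (T.h (T.h (T.h (P (nat_lit 0)) (T.h (M (nat_lit 12436134927)) (T.h (P (nat_lit 0)) (M (nat_lit 48406158051)))))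 (T.h (P (nat_lit 0)) (T.h (T.h (P (nat_lit 0)) (P (nat_lit 1668623964))) (P (nat_lit 0))))) (T.h (T.h (P (nat_lit 0)) (T.h (T.h (M (nat_lit 50303763)) (T.h (P (nat_lit 0)) (P (nat_lit 730927589140)))) (T.h (P (nat_lit 0)) (P (nat_lit 39844771288))))) (T.h (T.h (T.h (P (nat_lit 0)) (P (nat_lit 6878753896))) (P (nat_lit 0))) (T.h (T.h (P (nat_lit 0)) (P (nat_lit 63284873428))) (P (nat_lit 0))))))) (P (nat_lit 0)))))))) et0_3) (T.h (T.h (T.h (P (nat_lit 0)) (T.h (P (nat_lit 0)) (T.h (T.h (T.h (T.h (P (nat_lit 12257696)) (T.h (P (nat_lit 0)) (T.h (P (nat_lit 3169922320)) (T.h (P (nat_lit 0)) (M (nat_lit 9406573927)))))) (T.h (P (nat_lit 0)) (T.h (T.h (P (nat_lit 0)) (T.h (P (nat_lit 0)) (M (nat_lit 63114489827)))) (P (nat_lit 0))))) (T.h (T.h (P (nat_lit 0)) (T.h (T.h (P (nat_lit 0)) (T.h (P (nat_lit 133323388632)) (T.h (P (nat_lit 0)) (P (nat_lit 213223171016))))) (T.h (P (nat_lit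 0)) (T.h (T.h (P (nat_lit 0)) (P (nat_lit 395211767496))) (P (nat_lit 0)))))) (T.h (T.h (T.h (P (nat_lit 3169922320)) (T.h (P (nat_lit 0)) (P (nat_lit 596048195880)))) (T.h (P (nat_lit 0)) (M (nat_lit 63114489827)))) (T.h (T.h (P (nat_lit 0)) (T.h (T.h (P (nat_lit 0)) (P (nat_lit 213223171016))) (P (nat_lit 0)))) (M (nat_lit 9406573927)))))) (T.h (P (nat_lit 0)) (T.h (T.h (T.h (T.h (P (nat_lit 0)) (T.h (P (nat_lit 0)) (P (nat_lit 179988116)))) (T.h (P (nat_lit 0)) (T.h (T.h (P (nat_lit 0)) (T.h (P (nat_lit 0)) (P (nat_lit 253235115868)))) (P (nat_lit 0))))) (T.h (T.h (P (nat_lit 0)) (T.h (T.h (P (nat_lit 0)) (T.h (M (nat_lit 148692679771)) (T.h (P (nat_lit 0)) (M (nat_lit 358305691995))))) (T.h (P (nat_lit 0)) (T.h (T.h (P (nat_lit 0)) (M (nat_lit 430799690775))) (P (nat_lit 0)))))) (T.h (T.h (T.h (M (nat_lit 7404341447)) (T.h (P (nat_lit 0)) (M (nat_lit 676924017839)))) (T.h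 (P (nat_lit 0)) (M (nat_lit 29021102599)))) (T.h (T.h (P (nat_lit 0)) (T.h (T.h (P (nat_lit 0)) (P (nat_lit 175088086600))) (P (nat_lit 0)))) (M (nat_lit 55916403647)))))) (P (nat_lit 0))))))) et0_4) (T.h (T.h (T.h (P (nat_lit 0)) (T.h (T.h (T.h (P (nat_lit 0)) (T.h (T.h (M (nat_lit 529591647)) (T.h (P (nat_lit 0)) (T.h (P (nat_lit 11085704048)) (T.h (P (nat_lit 0)) (P (nat_lit 99277826832)))))) (T.h (P (nat_lit 0)) (T.h (T.h (M (nat_lit 13386860911)) (T.h (P (nat_lit 0)) (M (nat_lit 8571235323)))) (T.h (P (nat_lit 0)) (P (nat_lit 721154176))))))) (T.h (T.h (T.h (P (nat_lit 0)) (T.h (P (nat_lit 12683381004)) (T.h (P (nat_lit 0)) (M (nat_lit 51137350763))))) (T.h (P (nat_lit 0)) (T.h (T.h (P (nat_lit 0)) (M (nat_lit 53123717703))) (P (nat_lit 0))))) (T.h (T.h (P (nat_lit 0)) (T.h (T.h (M (nat_lit 39956007487)) (T.h (P (nat_lit 0)) (M (nat_lit 216529667907)))) (T.h (P (nat_lit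 0)) (P (nat_lit 63473578172))))) (T.h (T.h (T.h (P (nat_lit 0)) (P (nat_lit 81418817160))) (P (nat_lit 0))) (T.h (T.h (P (nat_lit 0)) (P (nat_lit 40540040148))) (P (nat_lit 0))))))) (T.h (P (nat_lit 0)) (T.h (T.h (T.h (P (nat_lit 0)) (T.h (T.h (P (nat_lit 0)) (T.h (P (nat_lit 0)) (T.h (M (nat_lit 13073049975)) (T.h (P (nat_lit 0)) (M (nat_lit 243719808107)))))) (T.h (P (nat_lit 0)) (T.h (T.h (P (nat_lit 0)) (T.h (P (nat_lit 0)) (M (nat_lit 153994041795)))) (P (nat_lit 0)))))) (T.h (T.h (T.h (P (nat_lit 0)) (T.h (M (nat_lit 27979052359)) (T.h (P (nat_lit 0)) (M (nat_lit 192027219467))))) (T.h (P (nat_lit 0)) (T.h (T.h (P (nat_lit 0)) (P (nat_lit 218480122448))) (P (nat_lit 0))))) (T.h (T.h (P (nat_lit 0)) (T.h (T.h (M (nat_lit 13073049975)) (T.h (P (nat_lit 0)) (P (nat_lit 47998272728)))) (T.h (P (nat_lit 0)) (M (nat_lit 153994041795))))) (T.h (T.h (T.h (P (nat_lit 0)) (M (nat_lit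 192027219467))) (P (nat_lit 0))) (T.h (T.h (P (nat_lit 0)) (M (nat_lit 243719808107))) (P (nat_lit 0))))))) (P (nat_lit 0)))))) et0_5) et0_6)))

def t0 : T ℤ := (T.h et0_1 et0_7)

theorem h_t0 : chkT (c.G g0) t0 = true := by decide +kernel


end Pool.Agent.TOPR.R6078
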