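import Pool.Agent.TOPR.R6078.Cert

set_option autoImplicit false
set_option linter.all false
set_option maxRecDepth 100000

namespace Pool.Agent.TOPR.R6078

open Helper10.PC hiding V3
open Helper80.CW.DL Pool.Agent.Helper6.TOP

def et1_0 : T ℤ := (T.h (T.h (P (nat_lit 0)) (T.h (T.h (T.h (T.h (P (nat_lit 0)) (T.h (M (nat_lit 9282582519)) (T.h (P (nat_lit 0)) (T.h (M (nat_lit 23442033191)) (T.h (P (nat_lit 0)) (M (nat_lit 350332379039))))))) (T.h (P (nat_lit 0)) (T.h (T.h (P (nat_lit 0)) (T.h (P (nat_lit 15062658532)) (T.h (P (nat_lit 0)) (P (nat_lit 624016448480))))) (T.h (P (nat_lit 0)) (T.h (T.h (P (nat_lit 0)) (P (nat_lit 734858425260))) (P (nat_lit 0))))))) (T.h (T.h (P (nat_lit 0)) (T.h (P (nat_lit 1972099816)) (T.h (P (nat_lit 0)) (M (nat_lit 81500803635))))) (T.h (T.h (T.h (P (nat_lit 0)) (T.h (P (nat_lit 5682453084)) (T.h (P (nat_lit 0)) (P (nat_lit 238652204964))))) (T.h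 (P (nat_lit 0)) (T.h (T.h (P (nat_lit 0)) (P (nat_lit 2640376374064))) (P (nat_lit 0))))) (T.h (P (nat_lit 0)) (T.h (T.h (T.h (P (nat_lit 0)) (M (nat_lit 440849615035))) (P (nat_lit 0))) (P (nat_lit 0))))))) (T.h (P (nat_lit 0)) (T.h (T.h (T.h (T.h (P (nat_lit 0)) (T.h (P (nat_lit 19727915340)) (T.h (P (nat_lit 0)) (T.h (P (nat_lit 17660266820)) (T.h (P (nat_lit 0)) (P (nat_lit 163683938684))))))) (T.h (P (nat_lit 0)) (T.h (T.h (P (nat_lit 0)) (T.h (M (nat_lit 56213206923)) (T.h (P (nat_lit 0)) (M (nat_lit 1406458245331))))) (T.h (P (nat_lit 0)) (T.h (T.h (P (nat_lit 0)) (M (nat_lit 1503648829675))) (P (nat_lit 0))))))) (T.h (T.h (P (nat_lit 0)) (T.h (T.h (M (nat_lit 30338257767)) (T.h (P (nat_lit 0)) (P (nat_lit 26181774276)))) (T.h (P (nat_lit 0)) (P (nat_lit 397414432436))))) (T.h (T.h (T.h (P (nat_lit 0)) (T.h (M (nat_lit 46185546567)) (T.h (P (nat_lit 0)) (M (nat_lit 794258365291)))))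 (T.h (P (nat_lit 0)) (T.h (T.h (P (nat_lit 0)) (M (nat_lit 4851037679963))) (P (nat_lit 0))))) (T.h (P (nat_lit 0)) (T.h (T.h (T.h (P (nat_lit 0)) (P (nat_lit 1204794147312))) (P (nat_lit 0))) (P (nat_lit 0))))))) (P (nat_lit 0)))))) (T.h (T.h (T.h (T.h (P (nat_lit 0)) (T.h (T.h (M (nat_lit 3558626791)) (T.h (P (nat_lit 0)) (T.h (P (nat_lit 4685432080)) (T.h (P (nat_lit 0)) (P (nat_lit 107703510092)))))) (T.h (P (nat_lit 0)) (T.h (T.h (M (nat_lit 9919872447)) (T.h (P (nat_lit 0)) (P (nat_lit 398436616876)))) (T.h (P (nat_lit 0)) (P (nat_lit 63572906976))))))) (T.h (T.h (T.h (P (nat_lit 0)) (T.h (P (nat_lit 1456691280)) (T.h (P (nat_lit 0)) (M (nat_lit 10177235991))))) (T.h (P (nat_lit 0)) (T.h (T.h (P (nat_lit 0)) (P (nat_lit 215595049768))) (P (nat_lit 0))))) (T.h (T.h (P (nat_lit 0)) (T.h (T.h (P (nat_lit 4685432080)) (T.h (P (nat_lit 0)) (P (nat_lit 1156313574816)))) (T.h (P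 (nat_lit 0)) (P (nat_lit 398436616876))))) (T.h (T.h (T.h (P (nat_lit 0)) (M (nat_lit 10177235991))) (P (nat_lit 0))) (T.h (T.h (P (nat_lit 0)) (P (nat_lit 107703510092))) (P (nat_lit 0))))))) (T.h (P (nat_lit 0)) (T.h (T.h (T.h (P (nat_lit 0)) (T.h (T.h (P (nat_lit 12455193772)) (T.h (P (nat_lit 0)) (T.h (M (nat_lit 39454709195)) (T.h (P (nat_lit 0)) (M (nat_lit 484010810387)))))) (T.h (P (nat_lit 0)) (T.h (T.h (P (nat_lit 34719553568)) (T.h (P (nat_lit 0)) (M (nat_lit 22043317911)))) (P (nat_lit 0)))))) (T.h (T.h (P (nat_lit 0)) (T.h (P (nat_lit 0)) (T.h (T.h (P (nat_lit 0)) (M (nat_lit 754582674187))) (P (nat_lit 0))))) (T.h (T.h (P (nat_lit 0)) (T.h (P (nat_lit 6656684636)) (T.h (P (nat_lit 0)) (M (nat_lit 105195312655))))) (T.h (T.h (T.h (P (nat_lit 0)) (P (nat_lit 71240651944))) (P (nat_lit 0))) (T.h (T.h (P (nat_lit 0)) (M (nat_lit 269913760255))) (P (nat_lit 0))))))) (P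 (nat_lit 0))))) (T.h (T.h (P (nat_lit 0)) (T.h (T.h (T.h (T.h (P (nat_lit 0)) (T.h (P (nat_lit 9130410856)) (T.h (P (nat_lit 0)) (T.h (P (nat_lit 0)) (T.h (P (nat_lit 0)) (P (nat_lit 200111432360))))))) (T.h (P (nat_lit 0)) (T.h (T.h (P (nat_lit 0)) (T.h (P (nat_lit 30149708400)) (T.h (P (nat_lit 0)) (P (nat_lit 59960494468))))) (T.h (P (nat_lit 0)) (T.h (T.h (P (nat_lit 0)) (M (nat_lit 644448053311))) (P (nat_lit 0))))))) (T.h (T.h (P (nat_lit 0)) (T.h (T.h (P (nat_lit 0)) (T.h (P (nat_lit 0)) (M (nat_lit 2594878551)))) (T.h (P (nat_lit 0)) (M (nat_lit 336214361251))))) (T.h (T.h (T.h (P (nat_lit 0)) (T.h (P (nat_lit 5084171400)) (T.h (P (nat_lit 0)) (P (nat_lit 85385017340))))) (T.h (P (nat_lit 0)) (T.h (T.h (P (nat_lit 0)) (M (nat_lit 771744512615))) (P (nat_lit 0))))) (T.h (T.h (P (nat_lit 0)) (P (nat_lit 288254342824))) (T.h (T.h (T.h (P (nat_lit 0)) (P (nat_lit 501868051972)))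 (P (nat_lit 0))) (P (nat_lit 0))))))) (P (nat_lit 0)))) (T.h (T.h (T.h (T.h (P (nat_lit 0)) (T.h (P (nat_lit 0)) (T.h (P (nat_lit 0)) (T.h (P (nat_lit 0)) (T.h (P (nat_lit 0)) (M (nat_lit 74168391471))))))) (T.h (T.h (T.h (P (nat_lit 0)) (M (nat_lit 1699473159))) (P (nat_lit 0))) (T.h (T.h (P (nat_lit 0)) (T.h (T.h (P (nat_lit 0)) (T.h (P (nat_lit 0)) (M (nat_lit 1349032503951)))) (P (nat_lit 0)))) (P (nat_lit 0))))) (P (nat_lit 0))) (P (nat_lit 0))))))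
def et1_1 : T ℤ := (T.h (T.h (P (nat_lit 0)) (T.h (P (nat_lit 0)) (T.h (P (nat_lit 0)) (T.h (T.h (T.h (T.h (P (nat_lit 0)) (T.h (M (nat_lit 9648682283)) (T.h (P (nat_lit 0)) (T.h (M (nat_lit 23153845923)) (T.h (P (nat_lit 0)) (M (nat_lit 167253232535))))))) (T.h (P (nat_lit 0)) (T.h (T.h (P (nat_lit 0)) (T.h (P (nat_lit 34509436936)) (T.h (P (nat_lit 0)) (P (nat_lit 415325709040))))) (T.h (P (nat_lit 0)) (T.h (T.h (P (nat_lit 0)) (P (nat_lit 843798806184))) (P (nat_lit 0))))))) (T.h (T.h (P (nat_lit 0)) (T.h (T.h (P (nat_lit 276869204)) (T.h (P (nat_lit 0)) (P (nat_lit 289858489572)))) (T.h (P (nat_lit 0)) (M (nat_lit 218974986279))))) (T.h (T.h (T.h (P (nat_lit 0)) (T.h (P (nat_lit 55701094540)) (T.h (P (nat_lit 0)) (M (nat_lit 1559959976119))))) (T.h (P (nat_lit 0)) (T.h (T.h (P (nat_lit 0)) (M (nat_lit 2350879989759))) (P (nat_lit 0))))) (T.h (T.h (P (nat_lit 0)) (M (nat_lit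 79225477507))) (T.h (T.h (T.h (P (nat_lit 0)) (P (nat_lit 347577779016))) (P (nat_lit 0))) (P (nat_lit 0))))))) (T.h (P (nat_lit 0)) (T.h (T.h (T.h (T.h (P (nat_lit 0)) (T.h (P (nat_lit 12455193772)) (T.h (P (nat_lit 0)) (P (nat_lit 34719553568))))) (T.h (P (nat_lit 0)) (T.h (T.h (P (nat_lit 0)) (T.h (M (nat_lit 39454709195)) (T.h (P (nat_lit 0)) (M (nat_lit 22043317911))))) (T.h (P (nat_lit 0)) (T.h (T.h (P (nat_lit 0)) (M (nat_lit 484010810387))) (P (nat_lit 0))))))) (T.h (T.h (P (nat_lit 0)) (T.h (T.h (P (nat_lit 0)) (T.h (P (nat_lit 0)) (M (nat_lit 754582674187)))) (P (nat_lit 0)))) (T.h (T.h (T.h (P (nat_lit 0)) (T.h (P (nat_lit 6656684636)) (T.h (P (nat_lit 0)) (M (nat_lit 105195312655))))) (P (nat_lit 0))) (T.h (T.h (P (nat_lit 0)) (P (nat_lit 71240651944))) (T.h (T.h (T.h (P (nat_lit 0)) (M (nat_lit 269913760255))) (P (nat_lit 0))) (P (nat_lit 0))))))) (P (nat_lit 0))))))))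 (T.h (T.h (P (nat_lit 0)) (T.h (P (nat_lit 0)) (T.h (T.h (T.h (P (nat_lit 0)) (T.h (T.h (M (nat_lit 9648682283)) (T.h (P (nat_lit 0)) (T.h (P (nat_lit 34509436936)) (T.h (P (nat_lit 0)) (P (nat_lit 843798806184)))))) (T.h (P (nat_lit 0)) (T.h (T.h (M (nat_lit 23153845923)) (T.h (P (nat_lit 0)) (P (nat_lit 415325709040)))) (T.h (P (nat_lit 0)) (M (nat_lit 167253232535))))))) (T.h (T.h (T.h (P (nat_lit 0)) (T.h (P (nat_lit 276869204)) (T.h (P (nat_lit 0)) (M (nat_lit 218974986279))))) (T.h (P (nat_lit 0)) (T.h (T.h (P (nat_lit 0)) (P (nat_lit 289858489572))) (P (nat_lit 0))))) (T.h (T.h (P (nat_lit 0)) (T.h (T.h (P (nat_lit 55701094540)) (T.h (P (nat_lit 0)) (M (nat_lit 2350879989759)))) (T.h (P (nat_lit 0)) (M (nat_lit 1559959976119))))) (T.h (T.h (T.h (P (nat_lit 0)) (M (nat_lit 79225477507))) (P (nat_lit 0))) (T.h (T.h (P (nat_lit 0)) (P (nat_lit 347577779016))) (P (nat_lit 0)))))))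 (T.h (P (nat_lit 0)) (T.h (T.h (T.h (P (nat_lit 0)) (T.h (T.h (P (nat_lit 19727915340)) (T.h (P (nat_lit 0)) (T.h (M (nat_lit 56213206923)) (T.h (P (nat_lit 0)) (M (nat_lit 1503648829675)))))) (T.h (P (nat_lit 0)) (T.h (T.h (P (nat_lit 17660266820)) (T.h (P (nat_lit 0)) (M (nat_lit 1406458245331)))) (T.h (P (nat_lit 0)) (P (nat_lit 163683938684))))))) (T.h (T.h (T.h (P (nat_lit 0)) (T.h (M (nat_lit 30338257767)) (T.h (P (nat_lit 0)) (P (nat_lit 397414432436))))) (T.h (P (nat_lit 0)) (T.h (T.h (P (nat_lit 0)) (P (nat_lit 26181774276))) (P (nat_lit 0))))) (T.h (T.h (P (nat_lit 0)) (T.h (T.h (M (nat_lit 46185546567)) (T.h (P (nat_lit 0)) (M (nat_lit 4851037679963)))) (T.h (P (nat_lit 0)) (M (nat_lit 794258365291))))) (T.h (P (nat_lit 0)) (T.h (T.h (P (nat_lit 0)) (P (nat_lit 1204794147312))) (P (nat_lit 0))))))) (P (nat_lit 0))))))) et1_0))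
def et1_2 : T ℤ := (T.h (T.h (P (nat_lit 0)) (T.h (T.h (T.h (T.h (M (nat_lit 332856127)) (T.h (P (nat_lit 0)) (T.h (P (nat_lit 14241451856)) (T.h (P (nat_lit 0)) (M (nat_lit 467430343503)))))) (T.h (P (nat_lit 0)) (T.h (T.h (P (nat_lit 0)) (T.h (P (nat_lit 0)) (P (nat_lit 831722178608)))) (T.h (P (nat_lit 0)) (M (nat_lit 636045487759)))))) (T.h (T.h (P (nat_lit 0)) (T.h (T.h (P (nat_lit 0)) (T.h (M (nat_lit 151376805823)) (T.h (P (nat_lit 0)) (P (nat_lit 2046317155560))))) (T.h (P (nat_lit 0)) (T.h (T.h (P (nat_lit 0)) (P (nat_lit 1623959385248))) (P (nat_lit 0)))))) (T.h (T.h (P (nat_lit 14241451856)) (T.h (P (nat_lit 0)) (P (nat_lit 831722178608)))) (T.h (T.h (P (nat_lit 0)) (T.h (T.h (P (nat_lit 0)) (P (nat_lit 2046317155560))) (P (nat_lit 0)))) (M (nat_lit 467430343503)))))) (T.h (P (nat_lit 0)) (T.h (T.h (T.h (T.h (P (nat_lit 1471603336)) (T.h (P (nat_lit 0)) (T.h (P (nat_lit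 25396870240)) (T.h (P (nat_lit 0)) (P (nat_lit 946419802076)))))) (T.h (P (nat_lit 0)) (T.h (T.h (P (nat_lit 25396870240)) (T.h (P (nat_lit 0)) (M (nat_lit 5893180178143)))) (T.h (P (nat_lit 0)) (P (nat_lit 946419802076)))))) (T.h (T.h (P (nat_lit 0)) (T.h (T.h (P (nat_lit 0)) (T.h (P (nat_lit 529818820384)) (T.h (P (nat_lit 0)) (M (nat_lit 1966030435123))))) (T.h (P (nat_lit 0)) (T.h (T.h (P (nat_lit 0)) (M (nat_lit 1966030435123))) (P (nat_lit 0)))))) (T.h (M (nat_lit 99690162991)) (T.h (T.h (P (nat_lit 0)) (T.h (T.h (P (nat_lit 0)) (M (nat_lit 8325891018087))) (P (nat_lit 0)))) (P (nat_lit 34447104160)))))) (P (nat_lit 0)))))) (T.h (T.h (T.h (T.h (P (nat_lit 0)) (T.h (T.h (P (nat_lit 0)) (P (nat_lit 1972099816))) (T.h (P (nat_lit 0)) (T.h (T.h (P (nat_lit 0)) (M (nat_lit 81500803635))) (P (nat_lit 0)))))) (T.h (T.h (T.h (M (nat_lit 9282582519)) (T.h (P (nat_lit 0)) (T.h (P (nat_lit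 5682453084)) (T.h (P (nat_lit 0)) (M (nat_lit 440849615035)))))) (T.h (P (nat_lit 0)) (T.h (T.h (P (nat_lit 15062658532)) (T.h (P (nat_lit 0)) (P (nat_lit 2640376374064)))) (T.h (P (nat_lit 0)) (P (nat_lit 734858425260)))))) (T.h (P (nat_lit 0)) (T.h (T.h (T.h (M (nat_lit 23442033191)) (T.h (P (nat_lit 0)) (P (nat_lit 238652204964)))) (T.h (P (nat_lit 0)) (P (nat_lit 624016448480)))) (T.h (P (nat_lit 0)) (M (nat_lit 350332379039))))))) (T.h (P (nat_lit 0)) (T.h (T.h (T.h (P (nat_lit 0)) (T.h (T.h (P (nat_lit 0)) (T.h (M (nat_lit 56890559711)) (T.h (P (nat_lit 0)) (P (nat_lit 125318581024))))) (T.h (P (nat_lit 0)) (T.h (T.h (P (nat_lit 0)) (M (nat_lit 1693721193891))) (P (nat_lit 0)))))) (T.h (T.h (T.h (P (nat_lit 25400306428)) (T.h (P (nat_lit 0)) (T.h (M (nat_lit 143080643719)) (T.h (P (nat_lit 0)) (P (nat_lit 1036333138820)))))) (T.h (P (nat_lit 0)) (T.h (T.h (P (nat_lit 111889470924))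 (T.h (P (nat_lit 0)) (P (nat_lit 6900828903052)))) (T.h (P (nat_lit 0)) (P (nat_lit 667572020388)))))) (T.h (P (nat_lit 0)) (T.h (T.h (T.h (P (nat_lit 164094232344)) (T.h (P (nat_lit 0)) (P (nat_lit 24821179964)))) (T.h (P (nat_lit 0)) (M (nat_lit 2451880280359)))) (T.h (P (nat_lit 0)) (P (nat_lit 529797775584))))))) (P (nat_lit 0))))) (T.h (T.h (P (nat_lit 0)) (T.h (T.h (T.h (T.h (P (nat_lit 245751968)) (T.h (P (nat_lit 0)) (T.h (M (nat_lit 30669024203)) (T.h (P (nat_lit 0)) (P (nat_lit 507629337012)))))) (T.h (P (nat_lit 0)) (T.h (T.h (P (nat_lit 7933287376)) (T.h (P (nat_lit 0)) (M (nat_lit 2278483955495)))) (T.h (P (nat_lit 0)) (P (nat_lit 238064234576)))))) (T.h (T.h (P (nat_lit 0)) (T.h (T.h (P (nat_lit 0)) (T.h (P (nat_lit 0)) (T.h (P (nat_lit 0)) (M (nat_lit 1608871723451))))) (T.h (P (nat_lit 0)) (T.h (T.h (P (nat_lit 0)) (M (nat_lit 681806044359))) (P (nat_lit 0))))))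 (T.h (T.h (T.h (M (nat_lit 30669024203)) (T.h (P (nat_lit 0)) (M (nat_lit 83671216551)))) (T.h (P (nat_lit 0)) (M (nat_lit 2278483955495)))) (T.h (T.h (P (nat_lit 0)) (T.h (T.h (P (nat_lit 0)) (M (nat_lit 1608871723451))) (P (nat_lit 0)))) (P (nat_lit 507629337012)))))) (P (nat_lit 0)))) (T.h (T.h (T.h (T.h (P (nat_lit 0)) (T.h (T.h (P (nat_lit 0)) (T.h (P (nat_lit 0)) (T.h (P (nat_lit 0)) (P (nat_lit 288254342824))))) (T.h (P (nat_lit 0)) (T.h (T.h (P (nat_lit 0)) (M (nat_lit 336214361251))) (P (nat_lit 0)))))) (T.h (T.h (T.h (P (nat_lit 9130410856)) (T.h (P (nat_lit 0)) (T.h (P (nat_lit 5084171400)) (T.h (P (nat_lit 0)) (P (nat_lit 501868051972)))))) (T.h (P (nat_lit 0)) (T.h (T.h (P (nat_lit 30149708400)) (T.h (P (nat_lit 0)) (M (nat_lit 771744512615)))) (T.h (P (nat_lit 0)) (M (nat_lit 644448053311)))))) (T.h (T.h (P (nat_lit 0)) (T.h (T.h (P (nat_lit 0)) (M (nat_lit 2594878551)))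 (P (nat_lit 0)))) (T.h (T.h (T.h (P (nat_lit 0)) (T.h (P (nat_lit 0)) (P (nat_lit 85385017340)))) (T.h (P (nat_lit 0)) (P (nat_lit 59960494468)))) (T.h (P (nat_lit 0)) (P (nat_lit 200111432360))))))) (P (nat_lit 0))) (P (nat_lit 0))))))
def et1_3 : T ℤ := (T.h (T.h (P (nat_lit 0)) (T.h (P (nat_lit 0)) (T.h (P (nat_lit 0)) (T.h (P (nat_lit 0)) (T.h (T.h (T.h (P (nat_lit 0)) (T.h (T.h (P (nat_lit 0)) (T.h (P (nat_lit 1972099816)) (T.h (P (nat_lit 0)) (M (nat_lit 81500803635))))) (P (nat_lit 0)))) (T.h (T.h (T.h (M (nat_lit 9282582519)) (T.h (P (nat_lit 0)) (T.h (P (nat_lit 15062658532)) (T.h (P (nat_lit 0)) (P (nat_lit 734858425260)))))) (T.h (P (nat_lit 0)) (T.h (T.h (P (nat_lit 5682453084)) (T.h (P (nat_lit 0)) (P (nat_lit 2640376374064)))) (T.h (P (nat_lit 0)) (M (nat_lit 440849615035)))))) (T.h (P (nat_lit 0)) (T.h (T.h (T.h (M (nat_lit 23442033191)) (T.h (P (nat_lit 0)) (P (nat_lit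 624016448480)))) (T.h (P (nat_lit 0)) (P (nat_lit 238652204964)))) (T.h (P (nat_lit 0)) (M (nat_lit 350332379039))))))) (T.h (P (nat_lit 0)) (T.h (T.h (T.h (P (nat_lit 0)) (T.h (T.h (P (nat_lit 0)) (T.h (P (nat_lit 0)) (T.h (P (nat_lit 0)) (M (nat_lit 336214361251))))) (T.h (P (nat_lit 0)) (T.h (T.h (P (nat_lit 0)) (P (nat_lit 288254342824))) (P (nat_lit 0)))))) (T.h (T.h (T.h (P (nat_lit 9130410856)) (T.h (P (nat_lit 0)) (T.h (P (nat_lit 30149708400)) (T.h (P (nat_lit 0)) (M (nat_lit 644448053311)))))) (T.h (P (nat_lit 0)) (T.h (T.h (P (nat_lit 5084171400)) (T.h (P (nat_lit 0)) (M (nat_lit 771744512615)))) (T.h (P (nat_lit 0)) (P (nat_lit 501868051972)))))) (T.h (T.h (P (nat_lit 0)) (T.h (T.h (P (nat_lit 0)) (M (nat_lit 2594878551))) (P (nat_lit 0)))) (T.h (T.h (T.h (P (nat_lit 0)) (T.h (P (nat_lit 0)) (P (nat_lit 59960494468)))) (T.h (P (nat_lit 0)) (P (nat_lit 85385017340))))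 (T.h (P (nat_lit 0)) (P (nat_lit 200111432360))))))) (P (nat_lit 0))))))))) (T.h (T.h (P (nat_lit 0)) (T.h (P (nat_lit 0)) (T.h (P (nat_lit 0)) (T.h (T.h (T.h (T.h (M (nat_lit 332856127)) (T.h (P (nat_lit 0)) (T.h (P (nat_lit 0)) (T.h (P (nat_lit 0)) (M (nat_lit 636045487759)))))) (T.h (P (nat_lit 0)) (T.h (T.h (P (nat_lit 14241451856)) (T.h (P (nat_lit 0)) (P (nat_lit 831722178608)))) (T.h (P (nat_lit 0)) (M (nat_lit 467430343503)))))) (T.h (T.h (P (nat_lit 0)) (T.h (T.h (P (nat_lit 0)) (T.h (M (nat_lit 151376805823)) (T.h (P (nat_lit 0)) (P (nat_lit 1623959385248))))) (T.h (P (nat_lit 0)) (T.h (T.h (P (nat_lit 0)) (P (nat_lit 2046317155560))) (P (nat_lit 0)))))) (T.h (T.h (T.h (P (nat_lit 14241451856)) (T.h (P (nat_lit 0)) (P (nat_lit 831722178608)))) (P (nat_lit 0))) (T.h (T.h (P (nat_lit 0)) (T.h (T.h (P (nat_lit 0)) (P (nat_lit 2046317155560))) (P (nat_lit 0)))) (M (nat_lit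 467430343503)))))) (T.h (P (nat_lit 0)) (T.h (T.h (T.h (T.h (P (nat_lit 245751968)) (T.h (P (nat_lit 0)) (T.h (P (nat_lit 7933287376)) (T.h (P (nat_lit 0)) (P (nat_lit 238064234576)))))) (T.h (P (nat_lit 0)) (T.h (T.h (M (nat_lit 30669024203)) (T.h (P (nat_lit 0)) (M (nat_lit 2278483955495)))) (T.h (P (nat_lit 0)) (P (nat_lit 507629337012)))))) (T.h (T.h (P (nat_lit 0)) (T.h (T.h (P (nat_lit 0)) (T.h (P (nat_lit 0)) (T.h (P (nat_lit 0)) (M (nat_lit 681806044359))))) (T.h (P (nat_lit 0)) (T.h (T.h (P (nat_lit 0)) (M (nat_lit 1608871723451))) (P (nat_lit 0)))))) (T.h (T.h (T.h (M (nat_lit 30669024203)) (T.h (P (nat_lit 0)) (M (nat_lit 2278483955495)))) (T.h (P (nat_lit 0)) (M (nat_lit 83671216551)))) (T.h (T.h (P (nat_lit 0)) (T.h (T.h (P (nat_lit 0)) (M (nat_lit 1608871723451))) (P (nat_lit 0)))) (P (nat_lit 507629337012)))))) (P (nat_lit 0)))))))) (T.h (T.h (P (nat_lit 0)) (T.h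 (P (nat_lit 0)) (T.h (T.h (T.h (P (nat_lit 0)) (T.h (T.h (P (nat_lit 0)) (T.h (P (nat_lit 77905702224)) (T.h (P (nat_lit 0)) (P (nat_lit 859342340016))))) (T.h (P (nat_lit 0)) (T.h (T.h (P (nat_lit 0)) (P (nat_lit 859342340016))) (P (nat_lit 0)))))) (T.h (T.h (T.h (M (nat_lit 21771691223)) (T.h (P (nat_lit 0)) (T.h (M (nat_lit 198279337507)) (T.h (P (nat_lit 0)) (M (nat_lit 1559679099567)))))) (T.h (P (nat_lit 0)) (T.h (T.h (M (nat_lit 198279337507)) (T.h (P (nat_lit 0)) (M (nat_lit 7895059029647)))) (T.h (P (nat_lit 0)) (M (nat_lit 1559679099567)))))) (T.h (T.h (P (nat_lit 0)) (T.h (T.h (P (nat_lit 0)) (P (nat_lit 687049517568))) (P (nat_lit 0)))) (T.h (T.h (T.h (P (nat_lit 0)) (T.h (P (nat_lit 0)) (M (nat_lit 1249602190047)))) (T.h (P (nat_lit 0)) (M (nat_lit 1249602190047)))) (T.h (P (nat_lit 0)) (P (nat_lit 308325970416))))))) (T.h (P (nat_lit 0)) (T.h (T.h (T.h (P (nat_lit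 0)) (T.h (T.h (P (nat_lit 0)) (T.h (M (nat_lit 56890559711)) (T.h (P (nat_lit 0)) (M (nat_lit 1693721193891))))) (T.h (P (nat_lit 0)) (T.h (T.h (P (nat_lit 0)) (P (nat_lit 125318581024))) (P (nat_lit 0)))))) (T.h (T.h (T.h (P (nat_lit 25400306428)) (T.h (P (nat_lit 0)) (T.h (P (nat_lit 111889470924)) (T.h (P (nat_lit 0)) (P (nat_lit 667572020388)))))) (T.h (P (nat_lit 0)) (T.h (T.h (M (nat_lit 143080643719)) (T.h (P (nat_lit 0)) (P (nat_lit 6900828903052)))) (T.h (P (nat_lit 0)) (P (nat_lit 1036333138820)))))) (T.h (P (nat_lit 0)) (T.h (T.h (T.h (P (nat_lit 164094232344)) (T.h (P (nat_lit 0)) (M (nat_lit 2451880280359)))) (T.h (P (nat_lit 0)) (P (nat_lit 24821179964)))) (T.h (P (nat_lit 0)) (P (nat_lit 529797775584))))))) (P (nat_lit 0))))))) et1_2)))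
def et1_4 : T ℤ := (T.h (T.h (P (nat_lit 0)) (T.h (T.h (T.h (T.h (P (nat_lit 0)) (T.h (M (nat_lit 21771691223)) (T.h (P (nat_lit 0)) (T.h (P (nat_lit 0)) (T.h (P (nat_lit 0)) (P (nat_lit 308325970416))))))) (T.h (P (nat_lit 0)) (T.h (T.h (P (nat_lit 0)) (T.h (M (nat_lit 198279337507)) (T.h (P (nat_lit 0)) (M (nat_lit 1249602190047))))) (T.h (P (nat_lit 0)) (T.h (T.h (P (nat_lit 0)) (M (nat_lit 1559679099567))) (P (nat_lit 0))))))) (T.h (T.h (P (nat_lit 0)) (T.h (T.h (P (nat_lit 77905702224)) (T.h (P (nat_lit 0)) (P (nat_lit 687049517568)))) (T.h (P (nat_lit 0)) (P (nat_lit 859342340016))))) (T.h (T.h (T.h (P (nat_lit 0)) (T.h (M (nat_lit 198279337507)) (T.h (P (nat_lit 0)) (M (nat_lit 1249602190047))))) (T.h (P (nat_lit 0)) (T.h (T.h (P (nat_lit 0)) (M (nat_lit 7895059029647))) (P (nat_lit 0))))) (T.h (T.h (P (nat_lit 0)) (P (nat_lit 859342340016))) (T.h (T.h (T.h (P (nat_lit 0))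 (M (nat_lit 1559679099567))) (P (nat_lit 0))) (P (nat_lit 0))))))) (T.h (P (nat_lit 0)) (T.h (T.h (T.h (T.h (P (nat_lit 0)) (T.h (P (nat_lit 16714059936)) (T.h (P (nat_lit 0)) (T.h (P (nat_lit 218192242016)) (T.h (P (nat_lit 0)) (P (nat_lit 1359441623400))))))) (T.h (P (nat_lit 0)) (T.h (T.h (P (nat_lit 0)) (T.h (M (nat_lit 51016423359)) (T.h (P (nat_lit 0)) (P (nat_lit 1993196542232))))) (T.h (P (nat_lit 0)) (T.h (T.h (P (nat_lit 0)) (M (nat_lit 122390299107))) (P (nat_lit 0))))))) (T.h (T.h (P (nat_lit 0)) (T.h (T.h (P (nat_lit 34741002968)) (T.h (P (nat_lit 0)) (M (nat_lit 6619782811151)))) (T.h (P (nat_lit 0)) (P (nat_lit 1095824116632))))) (T.h (T.h (T.h (P (nat_lit 0)) (T.h (M (nat_lit 51016423359)) (T.h (P (nat_lit 0)) (P (nat_lit 1993196542232))))) (T.h (P (nat_lit 0)) (T.h (T.h (P (nat_lit 0)) (P (nat_lit 11670465523472))) (P (nat_lit 0))))) (T.h (T.h (P (nat_lit 0)) (P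 (nat_lit 1095824116632))) (T.h (T.h (T.h (P (nat_lit 0)) (M (nat_lit 122390299107))) (P (nat_lit 0))) (P (nat_lit 0))))))) (P (nat_lit 0)))))) (T.h (T.h (T.h (T.h (P (nat_lit 0)) (T.h (T.h (M (nat_lit 9648682283)) (T.h (P (nat_lit 0)) (T.h (P (nat_lit 55701094540)) (T.h (P (nat_lit 0)) (P (nat_lit 347577779016)))))) (T.h (P (nat_lit 0)) (T.h (T.h (M (nat_lit 23153845923)) (T.h (P (nat_lit 0)) (M (nat_lit 1559959976119)))) (T.h (P (nat_lit 0)) (M (nat_lit 167253232535))))))) (T.h (T.h (T.h (P (nat_lit 0)) (T.h (P (nat_lit 276869204)) (T.h (P (nat_lit 0)) (M (nat_lit 79225477507))))) (T.h (P (nat_lit 0)) (T.h (T.h (P (nat_lit 0)) (P (nat_lit 289858489572))) (P (nat_lit 0))))) (T.h (T.h (P (nat_lit 0)) (T.h (T.h (P (nat_lit 34509436936)) (T.h (P (nat_lit 0)) (M (nat_lit 2350879989759)))) (T.h (P (nat_lit 0)) (P (nat_lit 415325709040))))) (T.h (T.h (T.h (P (nat_lit 0)) (M (nat_lit 218974986279)))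 (P (nat_lit 0))) (T.h (T.h (P (nat_lit 0)) (P (nat_lit 843798806184))) (P (nat_lit 0))))))) (T.h (P (nat_lit 0)) (T.h (T.h (T.h (P (nat_lit 0)) (T.h (T.h (P (nat_lit 16714059936)) (T.h (P (nat_lit 0)) (T.h (M (nat_lit 51016423359)) (T.h (P (nat_lit 0)) (M (nat_lit 122390299107)))))) (T.h (P (nat_lit 0)) (T.h (T.h (P (nat_lit 218192242016)) (T.h (P (nat_lit 0)) (P (nat_lit 1993196542232)))) (T.h (P (nat_lit 0)) (P (nat_lit 1359441623400))))))) (T.h (T.h (T.h (P (nat_lit 0)) (T.h (P (nat_lit 34741002968)) (T.h (P (nat_lit 0)) (P (nat_lit 1095824116632))))) (T.h (P (nat_lit 0)) (T.h (T.h (P (nat_lit 0)) (M (nat_lit 6619782811151))) (P (nat_lit 0))))) (T.h (T.h (P (nat_lit 0)) (T.h (T.h (M (nat_lit 51016423359)) (T.h (P (nat_lit 0)) (P (nat_lit 11670465523472)))) (T.h (P (nat_lit 0)) (P (nat_lit 1993196542232))))) (T.h (T.h (T.h (P (nat_lit 0)) (P (nat_lit 1095824116632))) (P (nat_lit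 0))) (T.h (T.h (P (nat_lit 0)) (M (nat_lit 122390299107))) (P (nat_lit 0))))))) (P (nat_lit 0))))) (T.h (T.h (P (nat_lit 0)) (T.h (T.h (T.h (T.h (P (nat_lit 0)) (T.h (P (nat_lit 25400306428)) (T.h (P (nat_lit 0)) (T.h (P (nat_lit 164094232344)) (T.h (P (nat_lit 0)) (P (nat_lit 529797775584))))))) (T.h (P (nat_lit 0)) (T.h (T.h (P (nat_lit 0)) (T.h (P (nat_lit 111889470924)) (T.h (P (nat_lit 0)) (M (nat_lit 2451880280359))))) (T.h (P (nat_lit 0)) (T.h (T.h (P (nat_lit 0)) (P (nat_lit 667572020388))) (P (nat_lit 0))))))) (T.h (T.h (P (nat_lit 0)) (T.h (M (nat_lit 56890559711)) (T.h (P (nat_lit 0)) (M (nat_lit 1693721193891))))) (T.h (T.h (T.h (P (nat_lit 0)) (T.h (M (nat_lit 143080643719)) (T.h (P (nat_lit 0)) (P (nat_lit 24821179964))))) (T.h (P (nat_lit 0)) (T.h (T.h (P (nat_lit 0)) (P (nat_lit 6900828903052))) (P (nat_lit 0))))) (T.h (T.h (P (nat_lit 0)) (P (nat_lit 125318581024)))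 (T.h (T.h (T.h (P (nat_lit 0)) (P (nat_lit 1036333138820))) (P (nat_lit 0))) (P (nat_lit 0))))))) (P (nat_lit 0)))) (T.h (T.h (T.h (T.h (P (nat_lit 0)) (T.h (T.h (P (nat_lit 12455193772)) (T.h (P (nat_lit 0)) (T.h (P (nat_lit 6656684636)) (T.h (P (nat_lit 0)) (M (nat_lit 269913760255)))))) (T.h (P (nat_lit 0)) (T.h (T.h (P (nat_lit 34719553568)) (T.h (P (nat_lit 0)) (M (nat_lit 105195312655)))) (P (nat_lit 0)))))) (T.h (T.h (T.h (P (nat_lit 0)) (T.h (P (nat_lit 0)) (T.h (P (nat_lit 0)) (P (nat_lit 71240651944))))) (T.h (P (nat_lit 0)) (T.h (T.h (P (nat_lit 0)) (M (nat_lit 754582674187))) (P (nat_lit 0))))) (T.h (T.h (P (nat_lit 0)) (T.h (M (nat_lit 39454709195)) (T.h (P (nat_lit 0)) (M (nat_lit 22043317911))))) (T.h (P (nat_lit 0)) (T.h (T.h (P (nat_lit 0)) (M (nat_lit 484010810387))) (P (nat_lit 0))))))) (P (nat_lit 0))) (P (nat_lit 0))))))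
def et1_5 : T ℤ := (T.h (T.h (P (nat_lit 0)) (T.h (P (nat_lit 0)) (T.h (P (nat_lit 0)) (T.h (T.h (T.h (T.h (P (nat_lit 0)) (T.h (M (nat_lit 9648682283)) (T.h (P (nat_lit 0)) (T.h (M (nat_lit 23153845923)) (T.h (P (nat_lit 0)) (M (nat_lit 167253232535))))))) (T.h (P (nat_lit 0)) (T.h (T.h (P (nat_lit 0)) (T.h (P (nat_lit 55701094540)) (T.h (P (nat_lit 0)) (M (nat_lit 1559959976119))))) (T.h (P (nat_lit 0)) (T.h (T.h (P (nat_lit 0)) (P (nat_lit 347577779016))) (P (nat_lit 0))))))) (T.h (T.h (P (nat_lit 0)) (T.h (T.h (P (nat_lit 276869204)) (T.h (P (nat_lit 0)) (P (nat_lit 289858489572)))) (T.h (P (nat_lit 0)) (M (nat_lit 79225477507))))) (T.h (T.h (T.h (P (nat_lit 0)) (T.h (P (nat_lit 34509436936)) (T.h (P (nat_lit 0)) (P (nat_lit 415325709040))))) (T.h (P (nat_lit 0)) (T.h (T.h (P (nat_lit 0)) (M (nat_lit 2350879989759))) (P (nat_lit 0))))) (T.h (T.h (P (nat_lit 0)) (M (nat_lit 218974986279)))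 (T.h (T.h (T.h (P (nat_lit 0)) (P (nat_lit 843798806184))) (P (nat_lit 0))) (P (nat_lit 0))))))) (T.h (P (nat_lit 0)) (T.h (T.h (T.h (T.h (P (nat_lit 0)) (T.h (P (nat_lit 12455193772)) (T.h (P (nat_lit 0)) (P (nat_lit 34719553568))))) (T.h (P (nat_lit 0)) (T.h (T.h (P (nat_lit 0)) (T.h (P (nat_lit 6656684636)) (T.h (P (nat_lit 0)) (M (nat_lit 105195312655))))) (T.h (P (nat_lit 0)) (T.h (T.h (P (nat_lit 0)) (M (nat_lit 269913760255))) (P (nat_lit 0))))))) (T.h (T.h (P (nat_lit 0)) (T.h (T.h (P (nat_lit 0)) (T.h (P (nat_lit 0)) (M (nat_lit 754582674187)))) (T.h (P (nat_lit 0)) (P (nat_lit 71240651944))))) (T.h (T.h (T.h (P (nat_lit 0)) (T.h (M (nat_lit 39454709195)) (T.h (P (nat_lit 0)) (M (nat_lit 22043317911))))) (P (nat_lit 0))) (T.h (P (nat_lit 0)) (T.h (T.h (T.h (P (nat_lit 0)) (M (nat_lit 484010810387))) (P (nat_lit 0))) (P (nat_lit 0))))))) (P (nat_lit 0)))))))) (T.h (T.h (P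 (nat_lit 0)) (T.h (P (nat_lit 0)) (T.h (T.h (T.h (P (nat_lit 0)) (T.h (T.h (M (nat_lit 21771691223)) (T.h (P (nat_lit 0)) (T.h (M (nat_lit 198279337507)) (T.h (P (nat_lit 0)) (M (nat_lit 1559679099567)))))) (T.h (P (nat_lit 0)) (T.h (T.h (P (nat_lit 0)) (T.h (P (nat_lit 0)) (M (nat_lit 1249602190047)))) (T.h (P (nat_lit 0)) (P (nat_lit 308325970416))))))) (T.h (T.h (T.h (P (nat_lit 0)) (T.h (P (nat_lit 77905702224)) (T.h (P (nat_lit 0)) (P (nat_lit 859342340016))))) (T.h (P (nat_lit 0)) (T.h (T.h (P (nat_lit 0)) (P (nat_lit 687049517568))) (P (nat_lit 0))))) (T.h (T.h (P (nat_lit 0)) (T.h (T.h (M (nat_lit 198279337507)) (T.h (P (nat_lit 0)) (M (nat_lit 7895059029647)))) (T.h (P (nat_lit 0)) (M (nat_lit 1249602190047))))) (T.h (T.h (T.h (P (nat_lit 0)) (P (nat_lit 859342340016))) (P (nat_lit 0))) (T.h (T.h (P (nat_lit 0)) (M (nat_lit 1559679099567))) (P (nat_lit 0))))))) (T.h (P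 (nat_lit 0)) (T.h (T.h (T.h (P (nat_lit 0)) (T.h (T.h (P (nat_lit 25400306428)) (T.h (P (nat_lit 0)) (T.h (P (nat_lit 111889470924)) (T.h (P (nat_lit 0)) (P (nat_lit 667572020388)))))) (T.h (P (nat_lit 0)) (T.h (T.h (P (nat_lit 164094232344)) (T.h (P (nat_lit 0)) (M (nat_lit 2451880280359)))) (T.h (P (nat_lit 0)) (P (nat_lit 529797775584))))))) (T.h (T.h (T.h (P (nat_lit 0)) (T.h (M (nat_lit 56890559711)) (T.h (P (nat_lit 0)) (M (nat_lit 1693721193891))))) (P (nat_lit 0))) (T.h (T.h (P (nat_lit 0)) (T.h (T.h (M (nat_lit 143080643719)) (T.h (P (nat_lit 0)) (P (nat_lit 6900828903052)))) (T.h (P (nat_lit 0)) (P (nat_lit 24821179964))))) (T.h (T.h (T.h (P (nat_lit 0)) (P (nat_lit 125318581024))) (P (nat_lit 0))) (T.h (T.h (P (nat_lit 0)) (P (nat_lit 1036333138820))) (P (nat_lit 0))))))) (P (nat_lit 0))))))) et1_4))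
def et1_6 : T ℤ := (T.h (T.h (P (nat_lit 0)) (T.h (T.h (T.h (T.h (M (nat_lit 332856127)) (T.h (P (nat_lit 0)) (T.h (P (nat_lit 14241451856)) (T.h (P (nat_lit 0)) (M (nat_lit 467430343503)))))) (T.h (P (nat_lit 0)) (T.h (P (nat_lit 14241451856)) (T.h (P (nat_lit 0)) (M (nat_lit 467430343503)))))) (T.h (T.h (P (nat_lit 0)) (T.h (T.h (P (nat_lit 0)) (T.h (M (nat_lit 151376805823)) (T.h (P (nat_lit 0)) (P (nat_lit 2046317155560))))) (T.h (P (nat_lit 0)) (T.h (T.h (P (nat_lit 0)) (P (nat_lit 2046317155560))) (P (nat_lit 0)))))) (T.h (T.h (T.h (P (nat_lit 0)) (T.h (P (nat_lit 0)) (P (nat_lit 831722178608)))) (T.h (P (nat_lit 0)) (P (nat_lit 831722178608)))) (T.h (T.h (P (nat_lit 0)) (T.h (T.h (P (nat_lit 0)) (P (nat_lit 1623959385248))) (P (nat_lit 0)))) (M (nat_lit 636045487759)))))) (T.h (P (nat_lit 0)) (T.h (T.h (T.h (T.h (P (nat_lit 1471603336)) (T.h (P (nat_lit 0)) (T.h (P (nat_lit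 25396870240)) (T.h (P (nat_lit 0)) (P (nat_lit 946419802076)))))) (T.h (P (nat_lit 0)) (T.h (M (nat_lit 99690162991)) (T.h (P (nat_lit 0)) (P (nat_lit 34447104160)))))) (T.h (T.h (P (nat_lit 0)) (T.h (T.h (P (nat_lit 0)) (T.h (P (nat_lit 529818820384)) (T.h (P (nat_lit 0)) (M (nat_lit 1966030435123))))) (T.h (P (nat_lit 0)) (T.h (T.h (P (nat_lit 0)) (M (nat_lit 8325891018087))) (P (nat_lit 0)))))) (T.h (T.h (T.h (P (nat_lit 25396870240)) (T.h (P (nat_lit 0)) (M (nat_lit 5893180178143)))) (P (nat_lit 0))) (T.h (T.h (P (nat_lit 0)) (T.h (T.h (P (nat_lit 0)) (M (nat_lit 1966030435123))) (P (nat_lit 0)))) (P (nat_lit 946419802076)))))) (P (nat_lit 0)))))) (T.h (T.h (T.h (T.h (P (nat_lit 0)) (T.h (T.h (P (nat_lit 0)) (T.h (P (nat_lit 276869204)) (T.h (P (nat_lit 0)) (M (nat_lit 79225477507))))) (T.h (P (nat_lit 0)) (T.h (T.h (P (nat_lit 0)) (M (nat_lit 218974986279))) (P (nat_lit 0))))))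 (T.h (T.h (T.h (M (nat_lit 9648682283)) (T.h (P (nat_lit 0)) (T.h (P (nat_lit 55701094540)) (T.h (P (nat_lit 0)) (P (nat_lit 347577779016)))))) (T.h (P (nat_lit 0)) (T.h (T.h (P (nat_lit 34509436936)) (T.h (P (nat_lit 0)) (M (nat_lit 2350879989759)))) (T.h (P (nat_lit 0)) (P (nat_lit 843798806184)))))) (T.h (T.h (P (nat_lit 0)) (T.h (T.h (P (nat_lit 0)) (P (nat_lit 289858489572))) (P (nat_lit 0)))) (T.h (T.h (T.h (M (nat_lit 23153845923)) (T.h (P (nat_lit 0)) (M (nat_lit 1559959976119)))) (T.h (P (nat_lit 0)) (P (nat_lit 415325709040)))) (T.h (P (nat_lit 0)) (M (nat_lit 167253232535))))))) (T.h (P (nat_lit 0)) (T.h (T.h (T.h (P (nat_lit 0)) (T.h (T.h (P (nat_lit 0)) (T.h (P (nat_lit 34741002968)) (T.h (P (nat_lit 0)) (P (nat_lit 1095824116632))))) (T.h (P (nat_lit 0)) (T.h (T.h (P (nat_lit 0)) (P (nat_lit 1095824116632))) (P (nat_lit 0)))))) (T.h (T.h (T.h (P (nat_lit 16714059936))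 (T.h (P (nat_lit 0)) (T.h (M (nat_lit 51016423359)) (T.h (P (nat_lit 0)) (M (nat_lit 122390299107)))))) (T.h (P (nat_lit 0)) (T.h (T.h (M (nat_lit 51016423359)) (T.h (P (nat_lit 0)) (P (nat_lit 11670465523472)))) (T.h (P (nat_lit 0)) (M (nat_lit 122390299107)))))) (T.h (T.h (P (nat_lit 0)) (T.h (T.h (P (nat_lit 0)) (M (nat_lit 6619782811151))) (P (nat_lit 0)))) (T.h (T.h (T.h (P (nat_lit 218192242016)) (T.h (P (nat_lit 0)) (P (nat_lit 1993196542232)))) (T.h (P (nat_lit 0)) (P (nat_lit 1993196542232)))) (T.h (P (nat_lit 0)) (P (nat_lit 1359441623400))))))) (P (nat_lit 0))))) (T.h (T.h (P (nat_lit 0)) (T.h (T.h (T.h (T.h (P (nat_lit 1471603336)) (T.h (P (nat_lit 0)) (T.h (M (nat_lit 99690162991)) (T.h (P (nat_lit 0)) (P (nat_lit 34447104160)))))) (T.h (P (nat_lit 0)) (T.h (P (nat_lit 25396870240)) (T.h (P (nat_lit 0)) (P (nat_lit 946419802076)))))) (T.h (T.h (P (nat_lit 0)) (T.h (T.h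 (P (nat_lit 0)) (T.h (P (nat_lit 529818820384)) (T.h (P (nat_lit 0)) (M (nat_lit 8325891018087))))) (T.h (P (nat_lit 0)) (T.h (T.h (P (nat_lit 0)) (M (nat_lit 1966030435123))) (P (nat_lit 0)))))) (T.h (T.h (P (nat_lit 25396870240)) (T.h (P (nat_lit 0)) (M (nat_lit 5893180178143)))) (T.h (T.h (P (nat_lit 0)) (T.h (T.h (P (nat_lit 0)) (M (nat_lit 1966030435123))) (P (nat_lit 0)))) (P (nat_lit 946419802076)))))) (P (nat_lit 0)))) (T.h (T.h (T.h (T.h (P (nat_lit 0)) (T.h (T.h (P (nat_lit 0)) (M (nat_lit 30338257767))) (T.h (P (nat_lit 0)) (T.h (T.h (P (nat_lit 0)) (P (nat_lit 397414432436))) (P (nat_lit 0)))))) (T.h (T.h (T.h (P (nat_lit 19727915340)) (T.h (P (nat_lit 0)) (T.h (M (nat_lit 46185546567)) (T.h (P (nat_lit 0)) (P (nat_lit 1204794147312)))))) (T.h (P (nat_lit 0)) (T.h (T.h (M (nat_lit 56213206923)) (T.h (P (nat_lit 0)) (M (nat_lit 4851037679963)))) (T.h (P (nat_lit 0)) (M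 (nat_lit 1503648829675)))))) (T.h (T.h (P (nat_lit 0)) (T.h (T.h (P (nat_lit 0)) (P (nat_lit 26181774276))) (P (nat_lit 0)))) (T.h (T.h (T.h (P (nat_lit 17660266820)) (T.h (P (nat_lit 0)) (M (nat_lit 794258365291)))) (T.h (P (nat_lit 0)) (M (nat_lit 1406458245331)))) (T.h (P (nat_lit 0)) (P (nat_lit 163683938684))))))) (P (nat_lit 0))) (P (nat_lit 0))))))
def et1_7 : T ℤ := (T.h (T.h (P (nat_lit 0)) (T.h (T.h (T.h (T.h (P (nat_lit 0)) (T.h (M (nat_lit 9282582519)) (T.h (P (nat_lit 0)) (T.h (M (nat_lit 23442033191)) (T.h (P (nat_lit 0)) (M (nat_lit 350332379039))))))) (T.h (P (nat_lit 0)) (T.h (T.h (P (nat_lit 0)) (T.h (P (nat_lit 5682453084)) (T.h (P (nat_lit 0)) (P (nat_lit 238652204964))))) (T.h (P (nat_lit 0)) (T.h (T.h (P (nat_lit 0)) (M (nat_lit 440849615035))) (P (nat_lit 0))))))) (T.h (T.h (P (nat_lit 0)) (P (nat_lit 1972099816))) (T.h (T.h (T.h (P (nat_lit 0)) (T.h (P (nat_lit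 15062658532)) (T.h (P (nat_lit 0)) (P (nat_lit 624016448480))))) (T.h (P (nat_lit 0)) (T.h (T.h (P (nat_lit 0)) (P (nat_lit 2640376374064))) (P (nat_lit 0))))) (T.h (T.h (P (nat_lit 0)) (M (nat_lit 81500803635))) (T.h (T.h (T.h (P (nat_lit 0)) (P (nat_lit 734858425260))) (P (nat_lit 0))) (P (nat_lit 0))))))) (T.h (P (nat_lit 0)) (T.h (T.h (T.h (T.h (P (nat_lit 0)) (T.h (P (nat_lit 19727915340)) (T.h (P (nat_lit 0)) (T.h (P (nat_lit 17660266820)) (T.h (P (nat_lit 0)) (P (nat_lit 163683938684))))))) (T.h (P (nat_lit 0)) (T.h (T.h (P (nat_lit 0)) (T.h (M (nat_lit 46185546567)) (T.h (P (nat_lit 0)) (M (nat_lit 794258365291))))) (T.h (P (nat_lit 0)) (T.h (T.h (P (nat_lit 0)) (P (nat_lit 1204794147312))) (P (nat_lit 0))))))) (T.h (T.h (P (nat_lit 0)) (T.h (T.h (M (nat_lit 30338257767)) (T.h (P (nat_lit 0)) (P (nat_lit 26181774276)))) (P (nat_lit 0)))) (T.h (T.h (T.h (P (nat_lit 0)) (T.h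 (M (nat_lit 56213206923)) (T.h (P (nat_lit 0)) (M (nat_lit 1406458245331))))) (T.h (P (nat_lit 0)) (T.h (T.h (P (nat_lit 0)) (M (nat_lit 4851037679963))) (P (nat_lit 0))))) (T.h (T.h (P (nat_lit 0)) (P (nat_lit 397414432436))) (T.h (T.h (T.h (P (nat_lit 0)) (M (nat_lit 1503648829675))) (P (nat_lit 0))) (P (nat_lit 0))))))) (P (nat_lit 0)))))) (T.h (T.h (T.h (T.h (P (nat_lit 0)) (T.h (T.h (M (nat_lit 9282582519)) (T.h (P (nat_lit 0)) (T.h (P (nat_lit 5682453084)) (T.h (P (nat_lit 0)) (M (nat_lit 440849615035)))))) (T.h (P (nat_lit 0)) (T.h (T.h (M (nat_lit 23442033191)) (T.h (P (nat_lit 0)) (P (nat_lit 238652204964)))) (T.h (P (nat_lit 0)) (M (nat_lit 350332379039))))))) (T.h (T.h (T.h (P (nat_lit 0)) (P (nat_lit 1972099816))) (P (nat_lit 0))) (T.h (T.h (P (nat_lit 0)) (T.h (T.h (P (nat_lit 15062658532)) (T.h (P (nat_lit 0)) (P (nat_lit 2640376374064)))) (T.h (P (nat_lit 0)) (P (nat_lit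 624016448480))))) (T.h (T.h (T.h (P (nat_lit 0)) (M (nat_lit 81500803635))) (P (nat_lit 0))) (T.h (T.h (P (nat_lit 0)) (P (nat_lit 734858425260))) (P (nat_lit 0))))))) (T.h (P (nat_lit 0)) (T.h (T.h (T.h (P (nat_lit 0)) (T.h (T.h (P (nat_lit 25400306428)) (T.h (P (nat_lit 0)) (T.h (M (nat_lit 143080643719)) (T.h (P (nat_lit 0)) (P (nat_lit 1036333138820)))))) (T.h (P (nat_lit 0)) (T.h (T.h (P (nat_lit 164094232344)) (T.h (P (nat_lit 0)) (P (nat_lit 24821179964)))) (T.h (P (nat_lit 0)) (P (nat_lit 529797775584))))))) (T.h (T.h (T.h (P (nat_lit 0)) (T.h (M (nat_lit 56890559711)) (T.h (P (nat_lit 0)) (P (nat_lit 125318581024))))) (P (nat_lit 0))) (T.h (T.h (P (nat_lit 0)) (T.h (T.h (P (nat_lit 111889470924)) (T.h (P (nat_lit 0)) (P (nat_lit 6900828903052)))) (T.h (P (nat_lit 0)) (M (nat_lit 2451880280359))))) (T.h (T.h (T.h (P (nat_lit 0)) (M (nat_lit 1693721193891))) (P (nat_lit 0)))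 (T.h (T.h (P (nat_lit 0)) (P (nat_lit 667572020388))) (P (nat_lit 0))))))) (P (nat_lit 0))))) (T.h (T.h (P (nat_lit 0)) (T.h (T.h (T.h (T.h (P (nat_lit 0)) (T.h (P (nat_lit 25400306428)) (T.h (P (nat_lit 0)) (T.h (P (nat_lit 164094232344)) (T.h (P (nat_lit 0)) (P (nat_lit 529797775584))))))) (T.h (P (nat_lit 0)) (T.h (T.h (P (nat_lit 0)) (T.h (M (nat_lit 143080643719)) (T.h (P (nat_lit 0)) (P (nat_lit 24821179964))))) (T.h (P (nat_lit 0)) (T.h (T.h (P (nat_lit 0)) (P (nat_lit 1036333138820))) (P (nat_lit 0))))))) (T.h (T.h (P (nat_lit 0)) (T.h (M (nat_lit 56890559711)) (T.h (P (nat_lit 0)) (P (nat_lit 125318581024))))) (T.h (T.h (T.h (P (nat_lit 0)) (T.h (P (nat_lit 111889470924)) (T.h (P (nat_lit 0)) (M (nat_lit 2451880280359))))) (T.h (P (nat_lit 0)) (T.h (T.h (P (nat_lit 0)) (P (nat_lit 6900828903052))) (P (nat_lit 0))))) (T.h (T.h (P (nat_lit 0)) (M (nat_lit 1693721193891)))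 (T.h (T.h (T.h (P (nat_lit 0)) (P (nat_lit 667572020388))) (P (nat_lit 0))) (P (nat_lit 0))))))) (P (nat_lit 0)))) (T.h (T.h (T.h (T.h (P (nat_lit 0)) (T.h (T.h (P (nat_lit 19727915340)) (T.h (P (nat_lit 0)) (T.h (M (nat_lit 46185546567)) (T.h (P (nat_lit 0)) (P (nat_lit 1204794147312)))))) (T.h (P (nat_lit 0)) (T.h (T.h (P (nat_lit 17660266820)) (T.h (P (nat_lit 0)) (M (nat_lit 794258365291)))) (T.h (P (nat_lit 0)) (P (nat_lit 163683938684))))))) (T.h (T.h (T.h (P (nat_lit 0)) (M (nat_lit 30338257767))) (T.h (P (nat_lit 0)) (T.h (T.h (P (nat_lit 0)) (P (nat_lit 26181774276))) (P (nat_lit 0))))) (T.h (T.h (P (nat_lit 0)) (T.h (T.h (M (nat_lit 56213206923)) (T.h (P (nat_lit 0)) (M (nat_lit 4851037679963)))) (T.h (P (nat_lit 0)) (M (nat_lit 1406458245331))))) (T.h (T.h (T.h (P (nat_lit 0)) (P (nat_lit 397414432436))) (P (nat_lit 0))) (T.h (T.h (P (nat_lit 0)) (M (nat_lit 1503648829675)))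 (P (nat_lit 0))))))) (P (nat_lit 0))) (P (nat_lit 0))))))
def et1_8 : T ℤ := (T.h (T.h (T.h (T.h (T.h (P (nat_lit 0)) (T.h (T.h (P (nat_lit 0)) (T.h (P (nat_lit 1456691280)) (T.h (P (nat_lit 0)) (M (nat_lit 10177235991))))) (T.h (P (nat_lit 0)) (T.h (T.h (P (nat_lit 0)) (M (nat_lit 10177235991))) (P (nat_lit 0)))))) (T.h (T.h (T.h (M (nat_lit 3558626791)) (T.h (P (nat_lit 0)) (T.h (P (nat_lit 4685432080)) (T.h (P (nat_lit 0)) (P (nat_lit 107703510092)))))) (T.h (P (nat_lit 0)) (T.h (T.h (P (nat_lit 4685432080)) (T.h (P (nat_lit 0)) (P (nat_lit 1156313574816)))) (T.h (P (nat_lit 0)) (P (nat_lit 107703510092)))))) (T.h (T.h (P (nat_lit 0)) (T.h (T.h (P (nat_lit 0)) (P (nat_lit 215595049768))) (P (nat_lit 0)))) (T.h (T.h (T.h (M (nat_lit 9919872447)) (T.h (P (nat_lit 0)) (P (nat_lit 398436616876)))) (T.h (P (nat_lit 0)) (P (nat_lit 398436616876)))) (T.h (P (nat_lit 0)) (P (nat_lit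 63572906976))))))) (T.h (P (nat_lit 0)) (T.h (T.h (T.h (P (nat_lit 0)) (T.h (P (nat_lit 0)) (T.h (P (nat_lit 0)) (T.h (T.h (P (nat_lit 0)) (P (nat_lit 71240651944))) (P (nat_lit 0)))))) (T.h (T.h (T.h (P (nat_lit 12455193772)) (T.h (P (nat_lit 0)) (T.h (M (nat_lit 39454709195)) (T.h (P (nat_lit 0)) (M (nat_lit 484010810387)))))) (T.h (P (nat_lit 0)) (T.h (P (nat_lit 6656684636)) (T.h (P (nat_lit 0)) (M (nat_lit 269913760255)))))) (T.h (T.h (P (nat_lit 0)) (T.h (T.h (P (nat_lit 0)) (M (nat_lit 754582674187))) (P (nat_lit 0)))) (T.h (T.h (T.h (P (nat_lit 34719553568)) (T.h (P (nat_lit 0)) (M (nat_lit 22043317911)))) (T.h (P (nat_lit 0)) (M (nat_lit 105195312655)))) (P (nat_lit 0)))))) (P (nat_lit 0))))) (T.h (T.h (P (nat_lit 0)) (T.h (T.h (T.h (T.h (P (nat_lit 245751968)) (T.h (P (nat_lit 0)) (T.h (M (nat_lit 30669024203)) (T.h (P (nat_lit 0)) (P (nat_lit 507629337012)))))) (T.h (P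 (nat_lit 0)) (T.h (T.h (M (nat_lit 30669024203)) (T.h (P (nat_lit 0)) (M (nat_lit 83671216551)))) (T.h (P (nat_lit 0)) (P (nat_lit 507629337012)))))) (T.h (T.h (P (nat_lit 0)) (T.h (T.h (P (nat_lit 0)) (T.h (P (nat_lit 0)) (T.h (P (nat_lit 0)) (M (nat_lit 1608871723451))))) (T.h (P (nat_lit 0)) (T.h (T.h (P (nat_lit 0)) (M (nat_lit 1608871723451))) (P (nat_lit 0)))))) (T.h (T.h (T.h (P (nat_lit 7933287376)) (T.h (P (nat_lit 0)) (M (nat_lit 2278483955495)))) (T.h (P (nat_lit 0)) (M (nat_lit 2278483955495)))) (T.h (T.h (P (nat_lit 0)) (T.h (T.h (P (nat_lit 0)) (M (nat_lit 681806044359))) (P (nat_lit 0)))) (P (nat_lit 238064234576)))))) (P (nat_lit 0)))) (T.h (T.h (T.h (T.h (P (nat_lit 0)) (T.h (T.h (P (nat_lit 0)) (T.h (P (nat_lit 0)) (T.h (P (nat_lit 0)) (P (nat_lit 71240651944))))) (P (nat_lit 0)))) (T.h (T.h (T.h (P (nat_lit 12455193772)) (T.h (P (nat_lit 0)) (T.h (P (nat_lit 6656684636))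 (T.h (P (nat_lit 0)) (M (nat_lit 269913760255)))))) (T.h (P (nat_lit 0)) (T.h (M (nat_lit 39454709195)) (T.h (P (nat_lit 0)) (M (nat_lit 484010810387)))))) (T.h (T.h (P (nat_lit 0)) (T.h (T.h (P (nat_lit 0)) (M (nat_lit 754582674187))) (P (nat_lit 0)))) (T.h (T.h (T.h (P (nat_lit 34719553568)) (T.h (P (nat_lit 0)) (M (nat_lit 105195312655)))) (T.h (P (nat_lit 0)) (M (nat_lit 22043317911)))) (P (nat_lit 0)))))) (P (nat_lit 0))) (P (nat_lit 0))))) (T.h (T.h (T.h (P (nat_lit 0)) (T.h (T.h (T.h (T.h (P (nat_lit 0)) (T.h (P (nat_lit 9130410856)) (T.h (P (nat_lit 0)) (T.h (P (nat_lit 0)) (T.h (P (nat_lit 0)) (P (nat_lit 200111432360))))))) (T.h (P (nat_lit 0)) (T.h (T.h (P (nat_lit 0)) (T.h (P (nat_lit 5084171400)) (T.h (P (nat_lit 0)) (P (nat_lit 85385017340))))) (T.h (P (nat_lit 0)) (T.h (T.h (P (nat_lit 0)) (P (nat_lit 501868051972))) (P (nat_lit 0))))))) (T.h (T.h (P (nat_lit 0))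 (T.h (T.h (P (nat_lit 0)) (T.h (P (nat_lit 0)) (M (nat_lit 2594878551)))) (T.h (P (nat_lit 0)) (P (nat_lit 288254342824))))) (T.h (T.h (T.h (P (nat_lit 0)) (T.h (P (nat_lit 30149708400)) (T.h (P (nat_lit 0)) (P (nat_lit 59960494468))))) (T.h (P (nat_lit 0)) (T.h (T.h (P (nat_lit 0)) (M (nat_lit 771744512615))) (P (nat_lit 0))))) (T.h (T.h (P (nat_lit 0)) (M (nat_lit 336214361251))) (T.h (T.h (T.h (P (nat_lit 0)) (M (nat_lit 644448053311))) (P (nat_lit 0))) (P (nat_lit 0))))))) (P (nat_lit 0)))) (T.h (T.h (T.h (T.h (P (nat_lit 0)) (T.h (T.h (P (nat_lit 9130410856)) (T.h (P (nat_lit 0)) (T.h (P (nat_lit 5084171400)) (T.h (P (nat_lit 0)) (P (nat_lit 501868051972)))))) (T.h (P (nat_lit 0)) (T.h (T.h (P (nat_lit 0)) (T.h (P (nat_lit 0)) (P (nat_lit 85385017340)))) (T.h (P (nat_lit 0)) (P (nat_lit 200111432360))))))) (T.h (T.h (T.h (P (nat_lit 0)) (T.h (P (nat_lit 0)) (T.h (P (nat_lit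 0)) (P (nat_lit 288254342824))))) (T.h (P (nat_lit 0)) (T.h (T.h (P (nat_lit 0)) (M (nat_lit 2594878551))) (P (nat_lit 0))))) (T.h (T.h (P (nat_lit 0)) (T.h (T.h (P (nat_lit 30149708400)) (T.h (P (nat_lit 0)) (M (nat_lit 771744512615)))) (T.h (P (nat_lit 0)) (P (nat_lit 59960494468))))) (T.h (T.h (T.h (P (nat_lit 0)) (M (nat_lit 336214361251))) (P (nat_lit 0))) (T.h (T.h (P (nat_lit 0)) (M (nat_lit 644448053311))) (P (nat_lit 0))))))) (P (nat_lit 0))) (P (nat_lit 0)))) (T.h (T.h (T.h (T.h (T.h (P (nat_lit 0)) (T.h (T.h (P (nat_lit 0)) (M (nat_lit 1699473159))) (P (nat_lit 0)))) (T.h (T.h (P (nat_lit 0)) (T.h (P (nat_lit 0)) (T.h (T.h (P (nat_lit 0)) (T.h (P (nat_lit 0)) (M (nat_lit 1349032503951)))) (P (nat_lit 0))))) (T.h (P (nat_lit 0)) (T.h (P (nat_lit 0)) (T.h (P (nat_lit 0)) (M (nat_lit 74168391471))))))) (P (nat_lit 0))) (P (nat_lit 0))) (P (nat_lit 0)))))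
def et1_9 : T ℤ := (T.h (T.h (T.h (P (nat_lit 0)) (T.h (P (nat_lit 0)) (T.h (P (nat_lit 0)) (T.h (P (nat_lit 0)) (T.h (P (nat_lit 0)) (T.h (T.h (T.h (T.h (P (nat_lit 0)) (T.h (M (nat_lit 3558626791)) (T.h (P (nat_lit 0)) (T.h (M (nat_lit 9919872447)) (T.h (P (nat_lit 0)) (P (nat_lit 63572906976))))))) (T.h (P (nat_lit 0)) (T.h (T.h (P (nat_lit 0)) (T.h (P (nat_lit 4685432080)) (T.h (P (nat_lit 0)) (P (nat_lit 398436616876))))) (T.h (P (nat_lit 0)) (T.h (T.h (P (nat_lit 0)) (P (nat_lit 107703510092))) (P (nat_lit 0))))))) (T.h (T.h (P (nat_lit 0)) (T.h (T.h (P (nat_lit 1456691280)) (T.h (P (nat_lit 0)) (P (nat_lit 215595049768)))) (T.h (P (nat_lit 0)) (M (nat_lit 10177235991))))) (T.h (T.h (T.h (P (nat_lit 0)) (T.h (P (nat_lit 4685432080)) (T.h (P (nat_lit 0)) (P (nat_lit 398436616876))))) (T.h (P (nat_lit 0)) (T.h (T.h (P (nat_lit 0)) (P (nat_lit 1156313574816))) (P (nat_lit 0)))))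 (T.h (T.h (P (nat_lit 0)) (M (nat_lit 10177235991))) (T.h (T.h (T.h (P (nat_lit 0)) (P (nat_lit 107703510092))) (P (nat_lit 0))) (P (nat_lit 0))))))) (T.h (P (nat_lit 0)) (T.h (T.h (T.h (T.h (P (nat_lit 0)) (T.h (P (nat_lit 0)) (T.h (P (nat_lit 0)) (T.h (P (nat_lit 0)) (T.h (P (nat_lit 0)) (M (nat_lit 74168391471))))))) (P (nat_lit 0))) (T.h (T.h (P (nat_lit 0)) (M (nat_lit 1699473159))) (T.h (T.h (P (nat_lit 0)) (T.h (P (nat_lit 0)) (T.h (T.h (P (nat_lit 0)) (M (nat_lit 1349032503951))) (P (nat_lit 0))))) (P (nat_lit 0))))) (P (nat_lit 0)))))))))) (T.h (T.h (P (nat_lit 0)) (T.h (P (nat_lit 0)) (T.h (P (nat_lit 0)) (T.h (P (nat_lit 0)) (T.h (T.h (T.h (P (nat_lit 0)) (T.h (T.h (M (nat_lit 9282582519)) (T.h (P (nat_lit 0)) (T.h (P (nat_lit 15062658532)) (T.h (P (nat_lit 0)) (P (nat_lit 734858425260)))))) (T.h (P (nat_lit 0)) (T.h (T.h (M (nat_lit 23442033191)) (T.h (P (nat_lit 0))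 (P (nat_lit 624016448480)))) (T.h (P (nat_lit 0)) (M (nat_lit 350332379039))))))) (T.h (T.h (T.h (P (nat_lit 0)) (T.h (P (nat_lit 1972099816)) (T.h (P (nat_lit 0)) (M (nat_lit 81500803635))))) (P (nat_lit 0))) (T.h (T.h (P (nat_lit 0)) (T.h (T.h (P (nat_lit 5682453084)) (T.h (P (nat_lit 0)) (P (nat_lit 2640376374064)))) (T.h (P (nat_lit 0)) (P (nat_lit 238652204964))))) (T.h (P (nat_lit 0)) (T.h (T.h (P (nat_lit 0)) (M (nat_lit 440849615035))) (P (nat_lit 0))))))) (T.h (P (nat_lit 0)) (T.h (T.h (T.h (P (nat_lit 0)) (T.h (T.h (P (nat_lit 9130410856)) (T.h (P (nat_lit 0)) (T.h (P (nat_lit 30149708400)) (T.h (P (nat_lit 0)) (M (nat_lit 644448053311)))))) (T.h (P (nat_lit 0)) (T.h (T.h (P (nat_lit 0)) (T.h (P (nat_lit 0)) (P (nat_lit 59960494468)))) (T.h (P (nat_lit 0)) (P (nat_lit 200111432360))))))) (T.h (T.h (T.h (P (nat_lit 0)) (T.h (P (nat_lit 0)) (T.h (P (nat_lit 0)) (M (nat_lit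 336214361251))))) (T.h (P (nat_lit 0)) (T.h (T.h (P (nat_lit 0)) (M (nat_lit 2594878551))) (P (nat_lit 0))))) (T.h (T.h (P (nat_lit 0)) (T.h (T.h (P (nat_lit 5084171400)) (T.h (P (nat_lit 0)) (M (nat_lit 771744512615)))) (T.h (P (nat_lit 0)) (P (nat_lit 85385017340))))) (T.h (T.h (T.h (P (nat_lit 0)) (P (nat_lit 288254342824))) (P (nat_lit 0))) (T.h (T.h (P (nat_lit 0)) (P (nat_lit 501868051972))) (P (nat_lit 0))))))) (P (nat_lit 0))))))))) et1_1)) (T.h et1_3 (T.h et1_5 (T.h (T.h (T.h (P (nat_lit 0)) (T.h (P (nat_lit 0)) (T.h (T.h (T.h (P (nat_lit 0)) (T.h (T.h (P (nat_lit 0)) (T.h (P (nat_lit 276869204)) (T.h (P (nat_lit 0)) (M (nat_lit 218974986279))))) (T.h (P (nat_lit 0)) (T.h (T.h (P (nat_lit 0)) (M (nat_lit 79225477507))) (P (nat_lit 0)))))) (T.h (T.h (T.h (M (nat_lit 9648682283)) (T.h (P (nat_lit 0)) (T.h (P (nat_lit 34509436936)) (T.h (P (nat_lit 0)) (P (nat_lit 843798806184))))))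 (T.h (P (nat_lit 0)) (T.h (T.h (P (nat_lit 55701094540)) (T.h (P (nat_lit 0)) (M (nat_lit 2350879989759)))) (T.h (P (nat_lit 0)) (P (nat_lit 347577779016)))))) (T.h (T.h (P (nat_lit 0)) (T.h (T.h (P (nat_lit 0)) (P (nat_lit 289858489572))) (P (nat_lit 0)))) (T.h (T.h (T.h (M (nat_lit 23153845923)) (T.h (P (nat_lit 0)) (P (nat_lit 415325709040)))) (T.h (P (nat_lit 0)) (M (nat_lit 1559959976119)))) (T.h (P (nat_lit 0)) (M (nat_lit 167253232535))))))) (T.h (P (nat_lit 0)) (T.h (T.h (T.h (P (nat_lit 0)) (T.h (T.h (P (nat_lit 0)) (T.h (M (nat_lit 30338257767)) (T.h (P (nat_lit 0)) (P (nat_lit 397414432436))))) (P (nat_lit 0)))) (T.h (T.h (T.h (P (nat_lit 19727915340)) (T.h (P (nat_lit 0)) (T.h (M (nat_lit 56213206923)) (T.h (P (nat_lit 0)) (M (nat_lit 1503648829675)))))) (T.h (P (nat_lit 0)) (T.h (T.h (M (nat_lit 46185546567)) (T.h (P (nat_lit 0)) (M (nat_lit 4851037679963)))) (T.h (P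 (nat_lit 0)) (P (nat_lit 1204794147312)))))) (T.h (T.h (P (nat_lit 0)) (T.h (T.h (P (nat_lit 0)) (P (nat_lit 26181774276))) (P (nat_lit 0)))) (T.h (T.h (T.h (P (nat_lit 17660266820)) (T.h (P (nat_lit 0)) (M (nat_lit 1406458245331)))) (T.h (P (nat_lit 0)) (M (nat_lit 794258365291)))) (T.h (P (nat_lit 0)) (P (nat_lit 163683938684))))))) (P (nat_lit 0))))))) et1_6) (T.h et1_7 et1_8)))))

def t1 : T ℤ := et1_9

theorem h_t1 : chkT (c.G g1) t1 = true := by decide +kernel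


end Pool.Agent.TOPR.R6078
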