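import Pool.Agent.TOPR.R6078.Cert

set_option autoImplicit false
set_option linter.all false
set_option maxRecDepth 100000

namespace Pool.Agent.TOPR.R6078

open Helper10.PC hiding V3
open Helper80.CW.DL Pool.Agent.Helper6.TOP

def et2_0 : T ℤ := (T.h (T.h (P (nat_lit 0)) (T.h (P (nat_lit 0)) (T.h (T.h (T.h (T.h (P (nat_lit 0)) (T.h (P (nat_lit 0)) (T.h (P (nat_lit 14757638876)) (T.h (P (nat_lit 0)) (M (nat_lit 175216138407)))))) (T.h (P (nat_lit 0)) (T.h (T.h (P (nat_lit 0)) (T.h (P (nat_lit 0)) (P (nat_lit 257082165588)))) (T.h (P (nat_lit 0)) (M (nat_lit 204919162643)))))) (T.h (P (nat_lit 0)) (T.h (T.h (T.h (P (nat_lit 0)) (T.h (P (nat_lit 0)) (P (nat_lit 294595063356)))) (T.h (P (nat_lit 0)) (P (nat_lit 369585578896)))) (T.h (P (nat_lit 0)) (M (nat_lit 32944069631)))))) (T.h (P (nat_lit 0)) (T.h (T.h (T.h (T.h (P (nat_lit 5636547240)) (T.h (P (nat_lit 0)) (T.h (M (nat_lit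 461772351)) (T.h (P (nat_lit 0)) (M (nat_lit 97889876607)))))) (T.h (P (nat_lit 0)) (T.h (T.h (M (nat_lit 461772351)) (T.h (P (nat_lit 0)) (M (nat_lit 1205535638855)))) (T.h (P (nat_lit 0)) (M (nat_lit 97889876607)))))) (T.h (T.h (P (nat_lit 0)) (T.h (T.h (P (nat_lit 0)) (P (nat_lit 14961013872))) (P (nat_lit 0)))) (T.h (T.h (T.h (M (nat_lit 13195870447)) (T.h (P (nat_lit 0)) (M (nat_lit 1033401825119)))) (T.h (P (nat_lit 0)) (M (nat_lit 1033401825119)))) (T.h (P (nat_lit 0)) (P (nat_lit 344226899232)))))) (P (nat_lit 0))))))) (T.h (T.h (P (nat_lit 0)) (T.h (T.h (T.h (P (nat_lit 0)) (T.h (T.h (P (nat_lit 0)) (T.h (P (nat_lit 7664220768)) (T.h (P (nat_lit 0)) (P (nat_lit 221601401396))))) (T.h (P (nat_lit 0)) (T.h (T.h (P (nat_lit 0)) (P (nat_lit 322681150140))) (P (nat_lit 0)))))) (T.h (T.h (T.h (P (nat_lit 0)) (T.h (P (nat_lit 0)) (P (nat_lit 11953030936)))) (T.h (P (nat_lit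 0)) (P (nat_lit 107797524884)))) (T.h (T.h (P (nat_lit 0)) (T.h (T.h (P (nat_lit 0)) (P (nat_lit 854445066528))) (P (nat_lit 0)))) (M (nat_lit 10177235991))))) (T.h (P (nat_lit 0)) (T.h (T.h (T.h (P (nat_lit 0)) (T.h (T.h (P (nat_lit 0)) (T.h (M (nat_lit 27333690319)) (T.h (P (nat_lit 0)) (M (nat_lit 678422818887))))) (T.h (P (nat_lit 0)) (T.h (T.h (P (nat_lit 0)) (M (nat_lit 865525993503))) (P (nat_lit 0)))))) (T.h (T.h (T.h (M (nat_lit 4334036823)) (T.h (P (nat_lit 0)) (P (nat_lit 3740253468)))) (T.h (P (nat_lit 0)) (P (nat_lit 62522946160)))) (T.h (T.h (P (nat_lit 0)) (T.h (T.h (P (nat_lit 0)) (M (nat_lit 1386010765703))) (P (nat_lit 0)))) (P (nat_lit 10177235992))))) (P (nat_lit 0)))))) (T.h (T.h (T.h (T.h (T.h (P (nat_lit 1104344192)) (T.h (P (nat_lit 0)) (T.h (M (nat_lit 726310199)) (T.h (P (nat_lit 0)) (M (nat_lit 31585854895)))))) (T.h (P (nat_lit 0)) (T.h (T.h (M (nat_lit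 5005649111)) (T.h (P (nat_lit 0)) (P (nat_lit 84551861316)))) (T.h (P (nat_lit 0)) (P (nat_lit 103264123928)))))) (T.h (T.h (P (nat_lit 0)) (T.h (T.h (P (nat_lit 0)) (P (nat_lit 1482787744))) (P (nat_lit 0)))) (T.h (T.h (T.h (M (nat_lit 726310199)) (T.h (P (nat_lit 0)) (P (nat_lit 119531771416)))) (T.h (P (nat_lit 0)) (P (nat_lit 84551861316)))) (T.h (P (nat_lit 0)) (M (nat_lit 31585854895)))))) (T.h (P (nat_lit 0)) (T.h (T.h (T.h (T.h (P (nat_lit 3083657804)) (T.h (P (nat_lit 0)) (T.h (M (nat_lit 5636387027)) (T.h (P (nat_lit 0)) (P (nat_lit 73792335916)))))) (T.h (P (nat_lit 0)) (T.h (T.h (P (nat_lit 19186909872)) (T.h (P (nat_lit 0)) (P (nat_lit 16250218524)))) (T.h (P (nat_lit 0)) (M (nat_lit 92064007615)))))) (T.h (T.h (P (nat_lit 0)) (T.h (T.h (P (nat_lit 0)) (M (nat_lit 216336443639))) (P (nat_lit 0)))) (T.h (T.h (T.h (P (nat_lit 1677265148)) (T.h (P (nat_lit 0)) (P (nat_lit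 36593578860)))) (T.h (P (nat_lit 0)) (M (nat_lit 155332921511)))) (T.h (P (nat_lit 0)) (P (nat_lit 33136327388)))))) (P (nat_lit 0))))) (T.h (T.h (P (nat_lit 0)) (T.h (T.h (T.h (P (nat_lit 0)) (T.h (T.h (P (nat_lit 0)) (T.h (P (nat_lit 8614202400)) (T.h (P (nat_lit 0)) (P (nat_lit 17131569848))))) (T.h (P (nat_lit 0)) (T.h (T.h (P (nat_lit 0)) (M (nat_lit 368256030463))) (P (nat_lit 0)))))) (T.h (T.h (T.h (M (nat_lit 242781879)) (T.h (P (nat_lit 0)) (M (nat_lit 370696935)))) (T.h (P (nat_lit 0)) (M (nat_lit 144091869107)))) (T.h (T.h (P (nat_lit 0)) (T.h (T.h (P (nat_lit 0)) (M (nat_lit 605936290447))) (P (nat_lit 0)))) (P (nat_lit 41179191832))))) (P (nat_lit 0)))) (T.h (T.h (T.h (T.h (P (nat_lit 0)) (T.h (P (nat_lit 0)) (T.h (P (nat_lit 0)) (T.h (P (nat_lit 0)) (M (nat_lit 52977422479)))))) (T.h (P (nat_lit 0)) (T.h (T.h (T.h (P (nat_lit 0)) (T.h (P (nat_lit 0)) (M (nat_lit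 192718929135)))) (P (nat_lit 0))) (P (nat_lit 0))))) (P (nat_lit 0))) (P (nat_lit 0)))))))
def et2_1 : T ℤ := (T.h (T.h (P (nat_lit 0)) (T.h (P (nat_lit 0)) (T.h (P (nat_lit 0)) (T.h (P (nat_lit 0)) (T.h (P (nat_lit 0)) (T.h (T.h (T.h (P (nat_lit 0)) (T.h (T.h (P (nat_lit 0)) (T.h (P (nat_lit 7664220768)) (T.h (P (nat_lit 0)) (P (nat_lit 322681150140))))) (T.h (P (nat_lit 0)) (T.h (T.h (P (nat_lit 0)) (P (nat_lit 221601401396))) (P (nat_lit 0)))))) (T.h (T.h (T.h (P (nat_lit 0)) (T.h (P (nat_lit 0)) (P (nat_lit 107797524884)))) (T.h (P (nat_lit 0)) (P (nat_lit 11953030936)))) (T.h (T.h (P (nat_lit 0)) (T.h (T.h (P (nat_lit 0)) (P (nat_lit 854445066528))) (P (nat_lit 0)))) (M (nat_lit 10177235991))))) (T.h (P (nat_lit 0)) (T.h (T.h (T.h (P (nat_lit 0)) (T.h (T.h (P (nat_lit 0)) (T.h (P (nat_lit 8614202400)) (T.h (P (nat_lit 0)) (M (nat_lit 368256030463))))) (T.h (P (nat_lit 0))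 (T.h (T.h (P (nat_lit 0)) (P (nat_lit 17131569848))) (P (nat_lit 0)))))) (T.h (T.h (T.h (M (nat_lit 242781879)) (T.h (P (nat_lit 0)) (M (nat_lit 144091869107)))) (T.h (P (nat_lit 0)) (M (nat_lit 370696935)))) (T.h (T.h (P (nat_lit 0)) (T.h (T.h (P (nat_lit 0)) (M (nat_lit 605936290447))) (P (nat_lit 0)))) (P (nat_lit 41179191832))))) (P (nat_lit 0)))))))))) (T.h (T.h (P (nat_lit 0)) (T.h (P (nat_lit 0)) (T.h (P (nat_lit 0)) (T.h (P (nat_lit 0)) (T.h (T.h (T.h (T.h (P (nat_lit 0)) (T.h (P (nat_lit 0)) (T.h (P (nat_lit 0)) (T.h (P (nat_lit 0)) (M (nat_lit 204919162643)))))) (T.h (P (nat_lit 0)) (T.h (T.h (P (nat_lit 14757638876)) (T.h (P (nat_lit 0)) (P (nat_lit 257082165588)))) (T.h (P (nat_lit 0)) (M (nat_lit 175216138407)))))) (T.h (P (nat_lit 0)) (T.h (T.h (T.h (P (nat_lit 0)) (T.h (P (nat_lit 0)) (P (nat_lit 369585578896)))) (T.h (P (nat_lit 0)) (P (nat_lit 294595063356))))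 (T.h (P (nat_lit 0)) (M (nat_lit 32944069631)))))) (T.h (P (nat_lit 0)) (T.h (T.h (T.h (T.h (P (nat_lit 3083657804)) (T.h (P (nat_lit 0)) (T.h (P (nat_lit 19186909872)) (T.h (P (nat_lit 0)) (M (nat_lit 92064007615)))))) (T.h (P (nat_lit 0)) (T.h (T.h (M (nat_lit 5636387027)) (T.h (P (nat_lit 0)) (P (nat_lit 16250218524)))) (T.h (P (nat_lit 0)) (P (nat_lit 73792335916)))))) (T.h (T.h (P (nat_lit 0)) (T.h (T.h (P (nat_lit 0)) (M (nat_lit 216336443639))) (P (nat_lit 0)))) (T.h (T.h (T.h (P (nat_lit 1677265148)) (T.h (P (nat_lit 0)) (M (nat_lit 155332921511)))) (T.h (P (nat_lit 0)) (P (nat_lit 36593578860)))) (T.h (P (nat_lit 0)) (P (nat_lit 33136327388)))))) (P (nat_lit 0))))))))) (T.h (T.h (P (nat_lit 0)) (T.h (P (nat_lit 0)) (T.h (P (nat_lit 0)) (T.h (T.h (T.h (P (nat_lit 0)) (T.h (T.h (P (nat_lit 0)) (T.h (P (nat_lit 32121832528)) (T.h (P (nat_lit 0)) (P (nat_lit 192823950668)))))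 (T.h (P (nat_lit 0)) (T.h (T.h (P (nat_lit 0)) (P (nat_lit 192823950668))) (P (nat_lit 0)))))) (T.h (T.h (T.h (P (nat_lit 1838912944)) (T.h (P (nat_lit 0)) (M (nat_lit 145394414879)))) (T.h (P (nat_lit 0)) (M (nat_lit 145394414879)))) (T.h (T.h (P (nat_lit 0)) (T.h (T.h (P (nat_lit 0)) (P (nat_lit 385296932240))) (P (nat_lit 0)))) (M (nat_lit 19684059519))))) (T.h (P (nat_lit 0)) (T.h (T.h (T.h (P (nat_lit 0)) (T.h (T.h (P (nat_lit 0)) (T.h (M (nat_lit 27333690319)) (T.h (P (nat_lit 0)) (M (nat_lit 865525993503))))) (T.h (P (nat_lit 0)) (T.h (T.h (P (nat_lit 0)) (M (nat_lit 678422818887))) (P (nat_lit 0)))))) (T.h (T.h (T.h (M (nat_lit 4334036823)) (T.h (P (nat_lit 0)) (P (nat_lit 62522946160)))) (T.h (P (nat_lit 0)) (P (nat_lit 3740253468)))) (T.h (T.h (P (nat_lit 0)) (T.h (T.h (P (nat_lit 0)) (M (nat_lit 1386010765703))) (P (nat_lit 0)))) (P (nat_lit 10177235992))))) (P (nat_lit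 0)))))))) et2_0)))
def et2_2 : T ℤ := (T.h (T.h (P (nat_lit 0)) (T.h (P (nat_lit 0)) (T.h (T.h (T.h (T.h (P (nat_lit 0)) (T.h (P (nat_lit 10502783492)) (T.h (P (nat_lit 0)) (M (nat_lit 95223479299))))) (T.h (P (nat_lit 0)) (T.h (T.h (P (nat_lit 0)) (P (nat_lit 1214129553288))) (P (nat_lit 0))))) (T.h (T.h (P (nat_lit 0)) (T.h (T.h (M (nat_lit 46166127487)) (T.h (P (nat_lit 0)) (M (nat_lit 1809374135119)))) (T.h (P (nat_lit 0)) (M (nat_lit 834666387271))))) (T.h (T.h (T.h (P (nat_lit 0)) (M (nat_lit 237676432523))) (P (nat_lit 0))) (T.h (T.h (P (nat_lit 0)) (P (nat_lit 312212646628))) (P (nat_lit 0)))))) (T.h (P (nat_lit 0)) (T.h (T.h (T.h (T.h (P (nat_lit 0)) (T.h (M (nat_lit 5205010999)) (T.h (P (nat_lit 0)) (P (nat_lit 355624635264))))) (T.h (P (nat_lit 0)) (T.h (T.h (P (nat_lit 0)) (M (nat_lit 1626317548419))) (P (nat_lit 0))))) (T.h (T.h (P (nat_lit 0)) (T.h (T.h (P (nat_lit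 21612348544)) (T.h (P (nat_lit 0)) (M (nat_lit 256929837027)))) (T.h (P (nat_lit 0)) (P (nat_lit 84397912796))))) (T.h (P (nat_lit 0)) (T.h (T.h (P (nat_lit 0)) (M (nat_lit 493867438415))) (P (nat_lit 0)))))) (P (nat_lit 0))))))) (T.h (T.h (P (nat_lit 0)) (T.h (T.h (T.h (P (nat_lit 0)) (T.h (T.h (M (nat_lit 9714121775)) (T.h (P (nat_lit 0)) (P (nat_lit 415861089304)))) (T.h (P (nat_lit 0)) (M (nat_lit 124779861095))))) (T.h (T.h (T.h (P (nat_lit 0)) (T.h (P (nat_lit 22729812336)) (T.h (P (nat_lit 0)) (P (nat_lit 132116675496))))) (T.h (P (nat_lit 0)) (T.h (T.h (P (nat_lit 0)) (P (nat_lit 971394941408))) (P (nat_lit 0))))) (T.h (T.h (P (nat_lit 0)) (P (nat_lit 415861089304))) (T.h (T.h (T.h (P (nat_lit 0)) (P (nat_lit 132116675496))) (P (nat_lit 0))) (P (nat_lit 0)))))) (T.h (P (nat_lit 0)) (T.h (T.h (T.h (P (nat_lit 0)) (T.h (T.h (M (nat_lit 5205010999)) (T.h (P (nat_lit 0))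 (M (nat_lit 1626317548419)))) (T.h (P (nat_lit 0)) (P (nat_lit 355624635264))))) (T.h (T.h (T.h (P (nat_lit 0)) (T.h (P (nat_lit 21612348544)) (T.h (P (nat_lit 0)) (P (nat_lit 84397912796))))) (T.h (P (nat_lit 0)) (T.h (T.h (P (nat_lit 0)) (M (nat_lit 256929837027))) (P (nat_lit 0))))) (T.h (P (nat_lit 0)) (T.h (T.h (T.h (P (nat_lit 0)) (M (nat_lit 493867438415))) (P (nat_lit 0))) (P (nat_lit 0)))))) (P (nat_lit 0)))))) (T.h (T.h (T.h (T.h (T.h (P (nat_lit 0)) (T.h (P (nat_lit 0)) (T.h (P (nat_lit 0)) (M (nat_lit 10177235991))))) (T.h (P (nat_lit 0)) (T.h (T.h (P (nat_lit 0)) (P (nat_lit 107797524884))) (P (nat_lit 0))))) (T.h (T.h (P (nat_lit 0)) (T.h (T.h (P (nat_lit 7664220768)) (T.h (P (nat_lit 0)) (P (nat_lit 854445066528)))) (T.h (P (nat_lit 0)) (P (nat_lit 322681150140))))) (T.h (T.h (T.h (P (nat_lit 0)) (P (nat_lit 11953030936))) (P (nat_lit 0))) (T.h (T.h (P (nat_lit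 0)) (P (nat_lit 221601401396))) (P (nat_lit 0)))))) (T.h (P (nat_lit 0)) (T.h (T.h (T.h (T.h (P (nat_lit 0)) (T.h (M (nat_lit 16889801159)) (T.h (P (nat_lit 0)) (P (nat_lit 307976561296))))) (T.h (P (nat_lit 0)) (T.h (T.h (P (nat_lit 0)) (M (nat_lit 1484673452407))) (P (nat_lit 0))))) (T.h (T.h (P (nat_lit 0)) (T.h (T.h (P (nat_lit 33870330160)) (T.h (P (nat_lit 0)) (P (nat_lit 1282148947964)))) (T.h (P (nat_lit 0)) (P (nat_lit 254013058840))))) (T.h (T.h (T.h (P (nat_lit 0)) (P (nat_lit 6625646104))) (P (nat_lit 0))) (T.h (T.h (P (nat_lit 0)) (M (nat_lit 1084612475027))) (P (nat_lit 0)))))) (P (nat_lit 0))))) (T.h (T.h (P (nat_lit 0)) (T.h (T.h (T.h (P (nat_lit 0)) (T.h (T.h (P (nat_lit 2266653536)) (T.h (P (nat_lit 0)) (M (nat_lit 527828537295)))) (T.h (P (nat_lit 0)) (P (nat_lit 39975459400))))) (T.h (T.h (T.h (P (nat_lit 0)) (T.h (P (nat_lit 2905240800)) (T.h (P (nat_lit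 0)) (P (nat_lit 81338645588))))) (T.h (P (nat_lit 0)) (T.h (T.h (P (nat_lit 0)) (M (nat_lit 733199454791))) (P (nat_lit 0))))) (T.h (T.h (P (nat_lit 0)) (M (nat_lit 527828537295))) (T.h (T.h (T.h (P (nat_lit 0)) (P (nat_lit 81338645588))) (P (nat_lit 0))) (P (nat_lit 0)))))) (P (nat_lit 0)))) (T.h (T.h (T.h (T.h (T.h (P (nat_lit 0)) (T.h (M (nat_lit 242781879)) (T.h (P (nat_lit 0)) (P (nat_lit 41179191832))))) (T.h (P (nat_lit 0)) (T.h (T.h (P (nat_lit 0)) (M (nat_lit 144091869107))) (P (nat_lit 0))))) (T.h (T.h (P (nat_lit 0)) (T.h (T.h (P (nat_lit 8614202400)) (T.h (P (nat_lit 0)) (M (nat_lit 605936290447)))) (T.h (P (nat_lit 0)) (M (nat_lit 368256030463))))) (T.h (T.h (T.h (P (nat_lit 0)) (M (nat_lit 370696935))) (P (nat_lit 0))) (T.h (T.h (P (nat_lit 0)) (P (nat_lit 17131569848))) (P (nat_lit 0)))))) (P (nat_lit 0))) (P (nat_lit 0)))))))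
def et2_3 : T ℤ := (T.h (T.h (P (nat_lit 0)) (T.h (P (nat_lit 0)) (T.h (P (nat_lit 0)) (T.h (P (nat_lit 0)) (T.h (P (nat_lit 0)) (T.h (T.h (T.h (P (nat_lit 0)) (T.h (T.h (P (nat_lit 0)) (T.h (P (nat_lit 0)) (P (nat_lit 107797524884)))) (T.h (P (nat_lit 0)) (M (nat_lit 10177235991))))) (T.h (T.h (T.h (P (nat_lit 0)) (T.h (P (nat_lit 7664220768)) (T.h (P (nat_lit 0)) (P (nat_lit 322681150140))))) (T.h (P (nat_lit 0)) (T.h (T.h (P (nat_lit 0)) (P (nat_lit 854445066528))) (P (nat_lit 0))))) (T.h (T.h (P (nat_lit 0)) (P (nat_lit 11953030936))) (T.h (T.h (T.h (P (nat_lit 0)) (P (nat_lit 221601401396))) (P (nat_lit 0))) (P (nat_lit 0)))))) (T.h (P (nat_lit 0)) (T.h (T.h (T.h (P (nat_lit 0)) (T.h (T.h (M (nat_lit 242781879)) (T.h (P (nat_lit 0)) (M (nat_lit 144091869107)))) (T.h (P (nat_lit 0)) (P (nat_lit 41179191832))))) (T.h (T.h (T.h (P (nat_lit 0)) (T.h (P (nat_lit 8614202400))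 (T.h (P (nat_lit 0)) (M (nat_lit 368256030463))))) (T.h (P (nat_lit 0)) (T.h (T.h (P (nat_lit 0)) (M (nat_lit 605936290447))) (P (nat_lit 0))))) (T.h (T.h (P (nat_lit 0)) (M (nat_lit 370696935))) (T.h (T.h (T.h (P (nat_lit 0)) (P (nat_lit 17131569848))) (P (nat_lit 0))) (P (nat_lit 0)))))) (P (nat_lit 0)))))))))) (T.h (T.h (P (nat_lit 0)) (T.h (P (nat_lit 0)) (T.h (P (nat_lit 0)) (T.h (P (nat_lit 0)) (T.h (T.h (T.h (T.h (P (nat_lit 0)) (T.h (M (nat_lit 9714121775)) (T.h (P (nat_lit 0)) (M (nat_lit 124779861095))))) (T.h (P (nat_lit 0)) (T.h (T.h (P (nat_lit 0)) (P (nat_lit 415861089304))) (P (nat_lit 0))))) (T.h (T.h (P (nat_lit 0)) (T.h (T.h (P (nat_lit 22729812336)) (T.h (P (nat_lit 0)) (P (nat_lit 971394941408)))) (T.h (P (nat_lit 0)) (P (nat_lit 132116675496))))) (T.h (T.h (T.h (P (nat_lit 0)) (P (nat_lit 415861089304))) (P (nat_lit 0))) (T.h (T.h (P (nat_lit 0)) (P (nat_lit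 132116675496))) (P (nat_lit 0)))))) (T.h (P (nat_lit 0)) (T.h (T.h (T.h (T.h (P (nat_lit 0)) (T.h (P (nat_lit 2266653536)) (T.h (P (nat_lit 0)) (P (nat_lit 39975459400))))) (T.h (P (nat_lit 0)) (T.h (T.h (P (nat_lit 0)) (M (nat_lit 527828537295))) (P (nat_lit 0))))) (T.h (T.h (P (nat_lit 0)) (T.h (T.h (P (nat_lit 2905240800)) (T.h (P (nat_lit 0)) (M (nat_lit 733199454791)))) (T.h (P (nat_lit 0)) (P (nat_lit 81338645588))))) (T.h (T.h (T.h (P (nat_lit 0)) (M (nat_lit 527828537295))) (P (nat_lit 0))) (T.h (T.h (P (nat_lit 0)) (P (nat_lit 81338645588))) (P (nat_lit 0)))))) (P (nat_lit 0))))))))) (T.h (T.h (P (nat_lit 0)) (T.h (P (nat_lit 0)) (T.h (P (nat_lit 0)) (T.h (T.h (T.h (P (nat_lit 0)) (T.h (T.h (P (nat_lit 10502783492)) (T.h (P (nat_lit 0)) (P (nat_lit 1214129553288)))) (T.h (P (nat_lit 0)) (M (nat_lit 95223479299))))) (T.h (T.h (T.h (P (nat_lit 0)) (T.h (M (nat_lit 46166127487))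 (T.h (P (nat_lit 0)) (M (nat_lit 834666387271))))) (T.h (P (nat_lit 0)) (T.h (T.h (P (nat_lit 0)) (M (nat_lit 1809374135119))) (P (nat_lit 0))))) (T.h (T.h (P (nat_lit 0)) (M (nat_lit 237676432523))) (T.h (T.h (T.h (P (nat_lit 0)) (P (nat_lit 312212646628))) (P (nat_lit 0))) (P (nat_lit 0)))))) (T.h (P (nat_lit 0)) (T.h (T.h (T.h (P (nat_lit 0)) (T.h (T.h (M (nat_lit 16889801159)) (T.h (P (nat_lit 0)) (M (nat_lit 1484673452407)))) (T.h (P (nat_lit 0)) (P (nat_lit 307976561296))))) (T.h (T.h (T.h (P (nat_lit 0)) (T.h (P (nat_lit 33870330160)) (T.h (P (nat_lit 0)) (P (nat_lit 254013058840))))) (T.h (P (nat_lit 0)) (T.h (T.h (P (nat_lit 0)) (P (nat_lit 1282148947964))) (P (nat_lit 0))))) (T.h (T.h (P (nat_lit 0)) (P (nat_lit 6625646104))) (T.h (T.h (T.h (P (nat_lit 0)) (M (nat_lit 1084612475027))) (P (nat_lit 0))) (P (nat_lit 0)))))) (P (nat_lit 0)))))))) et2_2)))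
def et2_4 : T ℤ := (T.h (T.h (P (nat_lit 0)) (T.h (P (nat_lit 0)) (T.h (T.h (T.h (T.h (P (nat_lit 0)) (T.h (P (nat_lit 0)) (T.h (M (nat_lit 78074581855)) (T.h (P (nat_lit 0)) (M (nat_lit 687568870647)))))) (T.h (P (nat_lit 0)) (T.h (T.h (M (nat_lit 78074581855)) (T.h (P (nat_lit 0)) (M (nat_lit 1369796310263)))) (T.h (P (nat_lit 0)) (M (nat_lit 687568870647)))))) (T.h (T.h (P (nat_lit 0)) (T.h (T.h (P (nat_lit 0)) (P (nat_lit 2061148552704))) (P (nat_lit 0)))) (T.h (T.h (T.h (M (nat_lit 78074581855)) (T.h (P (nat_lit 0)) (M (nat_lit 1369796310263)))) (T.h (P (nat_lit 0)) (M (nat_lit 1369796310263)))) (T.h (P (nat_lit 0)) (M (nat_lit 687568870647)))))) (T.h (P (nat_lit 0)) (T.h (T.h (T.h (T.h (P (nat_lit 9644953256)) (T.h (P (nat_lit 0)) (T.h (P (nat_lit 125479381128)) (T.h (P (nat_lit 0)) (P (nat_lit 1161764593968)))))) (T.h (P (nat_lit 0)) (T.h (T.h (P (nat_lit 42597947136))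 (T.h (P (nat_lit 0)) (P (nat_lit 789253955524)))) (T.h (P (nat_lit 0)) (P (nat_lit 508990245376)))))) (T.h (T.h (P (nat_lit 0)) (T.h (T.h (P (nat_lit 0)) (M (nat_lit 1891366517471))) (P (nat_lit 0)))) (T.h (T.h (T.h (P (nat_lit 42597947136)) (T.h (P (nat_lit 0)) (P (nat_lit 789253955524)))) (T.h (P (nat_lit 0)) (P (nat_lit 1688484657608)))) (T.h (P (nat_lit 0)) (P (nat_lit 508990245376)))))) (P (nat_lit 0))))))) (T.h (T.h (P (nat_lit 0)) (T.h (T.h (T.h (P (nat_lit 0)) (T.h (T.h (P (nat_lit 0)) (T.h (M (nat_lit 46166127487)) (T.h (P (nat_lit 0)) (P (nat_lit 312212646628))))) (T.h (P (nat_lit 0)) (T.h (T.h (P (nat_lit 0)) (M (nat_lit 834666387271))) (P (nat_lit 0)))))) (T.h (T.h (T.h (P (nat_lit 10502783492)) (T.h (P (nat_lit 0)) (M (nat_lit 237676432523)))) (T.h (P (nat_lit 0)) (P (nat_lit 1214129553288)))) (T.h (T.h (P (nat_lit 0)) (T.h (T.h (P (nat_lit 0)) (M (nat_lit 1809374135119)))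 (P (nat_lit 0)))) (M (nat_lit 95223479299))))) (T.h (P (nat_lit 0)) (T.h (T.h (T.h (P (nat_lit 0)) (T.h (T.h (P (nat_lit 0)) (T.h (P (nat_lit 46536160992)) (T.h (P (nat_lit 0)) (P (nat_lit 218685921844))))) (T.h (P (nat_lit 0)) (T.h (T.h (P (nat_lit 0)) (P (nat_lit 218685921844))) (P (nat_lit 0)))))) (T.h (T.h (T.h (M (nat_lit 18556902863)) (T.h (P (nat_lit 0)) (M (nat_lit 476044351607)))) (T.h (P (nat_lit 0)) (M (nat_lit 476044351607)))) (T.h (T.h (P (nat_lit 0)) (T.h (T.h (P (nat_lit 0)) (P (nat_lit 3100598434232))) (P (nat_lit 0)))) (P (nat_lit 332776664272))))) (P (nat_lit 0)))))) (T.h (T.h (T.h (T.h (T.h (P (nat_lit 0)) (T.h (P (nat_lit 0)) (T.h (P (nat_lit 0)) (T.h (P (nat_lit 0)) (M (nat_lit 32944069631)))))) (T.h (P (nat_lit 0)) (T.h (T.h (P (nat_lit 0)) (T.h (P (nat_lit 0)) (P (nat_lit 369585578896)))) (T.h (P (nat_lit 0)) (M (nat_lit 204919162643)))))) (T.h (P (nat_lit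 0)) (T.h (T.h (T.h (P (nat_lit 14757638876)) (T.h (P (nat_lit 0)) (P (nat_lit 294595063356)))) (T.h (P (nat_lit 0)) (P (nat_lit 257082165588)))) (T.h (P (nat_lit 0)) (M (nat_lit 175216138407)))))) (T.h (P (nat_lit 0)) (T.h (T.h (T.h (T.h (P (nat_lit 9644953256)) (T.h (P (nat_lit 0)) (T.h (P (nat_lit 42597947136)) (T.h (P (nat_lit 0)) (P (nat_lit 508990245376)))))) (T.h (P (nat_lit 0)) (T.h (T.h (P (nat_lit 125479381128)) (T.h (P (nat_lit 0)) (P (nat_lit 789253955524)))) (T.h (P (nat_lit 0)) (P (nat_lit 1161764593968)))))) (T.h (T.h (P (nat_lit 0)) (T.h (T.h (P (nat_lit 0)) (M (nat_lit 1891366517471))) (P (nat_lit 0)))) (T.h (T.h (T.h (P (nat_lit 42597947136)) (T.h (P (nat_lit 0)) (P (nat_lit 1688484657608)))) (T.h (P (nat_lit 0)) (P (nat_lit 789253955524)))) (T.h (P (nat_lit 0)) (P (nat_lit 508990245376)))))) (P (nat_lit 0))))) (T.h (T.h (P (nat_lit 0)) (T.h (T.h (T.h (P (nat_lit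 0)) (T.h (T.h (P (nat_lit 0)) (T.h (P (nat_lit 33870330160)) (T.h (P (nat_lit 0)) (M (nat_lit 1084612475027))))) (T.h (P (nat_lit 0)) (T.h (T.h (P (nat_lit 0)) (P (nat_lit 254013058840))) (P (nat_lit 0)))))) (T.h (T.h (T.h (M (nat_lit 16889801159)) (T.h (P (nat_lit 0)) (P (nat_lit 6625646104)))) (T.h (P (nat_lit 0)) (M (nat_lit 1484673452407)))) (T.h (T.h (P (nat_lit 0)) (T.h (T.h (P (nat_lit 0)) (P (nat_lit 1282148947964))) (P (nat_lit 0)))) (P (nat_lit 307976561296))))) (P (nat_lit 0)))) (T.h (T.h (T.h (T.h (T.h (P (nat_lit 3083657804)) (T.h (P (nat_lit 0)) (T.h (P (nat_lit 1677265148)) (T.h (P (nat_lit 0)) (P (nat_lit 33136327388)))))) (T.h (P (nat_lit 0)) (T.h (T.h (P (nat_lit 19186909872)) (T.h (P (nat_lit 0)) (M (nat_lit 155332921511)))) (T.h (P (nat_lit 0)) (M (nat_lit 92064007615)))))) (T.h (T.h (P (nat_lit 0)) (T.h (T.h (P (nat_lit 0)) (M (nat_lit 216336443639))) (P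 (nat_lit 0)))) (T.h (T.h (T.h (M (nat_lit 5636387027)) (T.h (P (nat_lit 0)) (P (nat_lit 36593578860)))) (T.h (P (nat_lit 0)) (P (nat_lit 16250218524)))) (T.h (P (nat_lit 0)) (P (nat_lit 73792335916)))))) (P (nat_lit 0))) (P (nat_lit 0)))))))
def et2_5 : T ℤ := (T.h (T.h (P (nat_lit 0)) (T.h (P (nat_lit 0)) (T.h (T.h (T.h (T.h (P (nat_lit 0)) (T.h (P (nat_lit 10502783492)) (T.h (P (nat_lit 0)) (M (nat_lit 95223479299))))) (T.h (P (nat_lit 0)) (T.h (T.h (P (nat_lit 0)) (M (nat_lit 237676432523))) (P (nat_lit 0))))) (T.h (T.h (P (nat_lit 0)) (T.h (T.h (M (nat_lit 46166127487)) (T.h (P (nat_lit 0)) (M (nat_lit 1809374135119)))) (T.h (P (nat_lit 0)) (P (nat_lit 312212646628))))) (T.h (T.h (T.h (P (nat_lit 0)) (P (nat_lit 1214129553288))) (P (nat_lit 0))) (T.h (T.h (P (nat_lit 0)) (M (nat_lit 834666387271))) (P (nat_lit 0)))))) (T.h (P (nat_lit 0)) (T.h (T.h (T.h (T.h (P (nat_lit 0))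 (T.h (M (nat_lit 5205010999)) (T.h (P (nat_lit 0)) (P (nat_lit 355624635264))))) (P (nat_lit 0))) (T.h (T.h (P (nat_lit 0)) (T.h (T.h (P (nat_lit 21612348544)) (T.h (P (nat_lit 0)) (M (nat_lit 256929837027)))) (T.h (P (nat_lit 0)) (M (nat_lit 493867438415))))) (T.h (T.h (T.h (P (nat_lit 0)) (M (nat_lit 1626317548419))) (P (nat_lit 0))) (T.h (T.h (P (nat_lit 0)) (P (nat_lit 84397912796))) (P (nat_lit 0)))))) (P (nat_lit 0))))))) (T.h (T.h (P (nat_lit 0)) (T.h (T.h (T.h (P (nat_lit 0)) (T.h (T.h (P (nat_lit 10502783492)) (T.h (P (nat_lit 0)) (M (nat_lit 237676432523)))) (T.h (P (nat_lit 0)) (M (nat_lit 95223479299))))) (T.h (T.h (T.h (P (nat_lit 0)) (T.h (M (nat_lit 46166127487)) (T.h (P (nat_lit 0)) (P (nat_lit 312212646628))))) (T.h (P (nat_lit 0)) (T.h (T.h (P (nat_lit 0)) (M (nat_lit 1809374135119))) (P (nat_lit 0))))) (T.h (T.h (P (nat_lit 0)) (P (nat_lit 1214129553288)))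 (T.h (T.h (T.h (P (nat_lit 0)) (M (nat_lit 834666387271))) (P (nat_lit 0))) (P (nat_lit 0)))))) (T.h (P (nat_lit 0)) (T.h (T.h (T.h (P (nat_lit 0)) (T.h (T.h (M (nat_lit 18556902863)) (T.h (P (nat_lit 0)) (M (nat_lit 476044351607)))) (T.h (P (nat_lit 0)) (P (nat_lit 332776664272))))) (T.h (T.h (T.h (P (nat_lit 0)) (T.h (P (nat_lit 46536160992)) (T.h (P (nat_lit 0)) (P (nat_lit 218685921844))))) (T.h (P (nat_lit 0)) (T.h (T.h (P (nat_lit 0)) (P (nat_lit 3100598434232))) (P (nat_lit 0))))) (T.h (T.h (P (nat_lit 0)) (M (nat_lit 476044351607))) (T.h (T.h (T.h (P (nat_lit 0)) (P (nat_lit 218685921844))) (P (nat_lit 0))) (P (nat_lit 0)))))) (P (nat_lit 0)))))) (T.h (T.h (T.h (T.h (T.h (P (nat_lit 0)) (T.h (P (nat_lit 1838912944)) (T.h (P (nat_lit 0)) (M (nat_lit 19684059519))))) (T.h (P (nat_lit 0)) (T.h (T.h (P (nat_lit 0)) (M (nat_lit 145394414879))) (P (nat_lit 0))))) (T.h (T.h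 (P (nat_lit 0)) (T.h (T.h (P (nat_lit 32121832528)) (T.h (P (nat_lit 0)) (P (nat_lit 385296932240)))) (T.h (P (nat_lit 0)) (P (nat_lit 192823950668))))) (T.h (T.h (T.h (P (nat_lit 0)) (M (nat_lit 145394414879))) (P (nat_lit 0))) (T.h (T.h (P (nat_lit 0)) (P (nat_lit 192823950668))) (P (nat_lit 0)))))) (T.h (P (nat_lit 0)) (T.h (T.h (T.h (T.h (P (nat_lit 0)) (T.h (M (nat_lit 18556902863)) (T.h (P (nat_lit 0)) (P (nat_lit 332776664272))))) (T.h (P (nat_lit 0)) (T.h (T.h (P (nat_lit 0)) (M (nat_lit 476044351607))) (P (nat_lit 0))))) (T.h (T.h (P (nat_lit 0)) (T.h (T.h (P (nat_lit 46536160992)) (T.h (P (nat_lit 0)) (P (nat_lit 3100598434232)))) (T.h (P (nat_lit 0)) (P (nat_lit 218685921844))))) (T.h (T.h (T.h (P (nat_lit 0)) (M (nat_lit 476044351607))) (P (nat_lit 0))) (T.h (T.h (P (nat_lit 0)) (P (nat_lit 218685921844))) (P (nat_lit 0)))))) (P (nat_lit 0))))) (T.h (T.h (P (nat_lit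 0)) (T.h (T.h (T.h (P (nat_lit 0)) (T.h (M (nat_lit 5205010999)) (T.h (P (nat_lit 0)) (P (nat_lit 355624635264))))) (T.h (T.h (T.h (P (nat_lit 0)) (T.h (P (nat_lit 21612348544)) (T.h (P (nat_lit 0)) (M (nat_lit 493867438415))))) (T.h (P (nat_lit 0)) (T.h (T.h (P (nat_lit 0)) (M (nat_lit 256929837027))) (P (nat_lit 0))))) (T.h (T.h (P (nat_lit 0)) (M (nat_lit 1626317548419))) (T.h (T.h (T.h (P (nat_lit 0)) (P (nat_lit 84397912796))) (P (nat_lit 0))) (P (nat_lit 0)))))) (P (nat_lit 0)))) (T.h (T.h (T.h (T.h (T.h (P (nat_lit 0)) (T.h (M (nat_lit 4334036823)) (T.h (P (nat_lit 0)) (P (nat_lit 10177235992))))) (T.h (P (nat_lit 0)) (T.h (T.h (P (nat_lit 0)) (P (nat_lit 62522946160))) (P (nat_lit 0))))) (T.h (T.h (P (nat_lit 0)) (T.h (T.h (M (nat_lit 27333690319)) (T.h (P (nat_lit 0)) (M (nat_lit 1386010765703)))) (T.h (P (nat_lit 0)) (M (nat_lit 865525993503))))) (T.h (T.h (T.h (P (nat_lit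 0)) (P (nat_lit 3740253468))) (P (nat_lit 0))) (T.h (T.h (P (nat_lit 0)) (M (nat_lit 678422818887))) (P (nat_lit 0)))))) (P (nat_lit 0))) (P (nat_lit 0)))))))
def et2_6 : T ℤ := (T.h (T.h (P (nat_lit 0)) (T.h (P (nat_lit 0)) (T.h (T.h (T.h (T.h (P (nat_lit 0)) (T.h (P (nat_lit 0)) (T.h (P (nat_lit 14757638876)) (T.h (P (nat_lit 0)) (M (nat_lit 175216138407)))))) (T.h (P (nat_lit 0)) (T.h (T.h (P (nat_lit 0)) (T.h (P (nat_lit 0)) (P (nat_lit 294595063356)))) (T.h (P (nat_lit 0)) (M (nat_lit 32944069631)))))) (T.h (P (nat_lit 0)) (T.h (T.h (T.h (P (nat_lit 0)) (T.h (P (nat_lit 0)) (P (nat_lit 257082165588)))) (T.h (P (nat_lit 0)) (P (nat_lit 369585578896)))) (T.h (P (nat_lit 0)) (M (nat_lit 204919162643)))))) (T.h (P (nat_lit 0)) (T.h (T.h (T.h (T.h (P (nat_lit 5636547240)) (T.h (P (nat_lit 0)) (T.h (M (nat_lit 461772351)) (T.h (P (nat_lit 0)) (M (nat_lit 97889876607)))))) (T.h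 (P (nat_lit 0)) (T.h (T.h (M (nat_lit 13195870447)) (T.h (P (nat_lit 0)) (M (nat_lit 1033401825119)))) (T.h (P (nat_lit 0)) (P (nat_lit 344226899232)))))) (T.h (T.h (P (nat_lit 0)) (T.h (T.h (P (nat_lit 0)) (P (nat_lit 14961013872))) (P (nat_lit 0)))) (T.h (T.h (T.h (M (nat_lit 461772351)) (T.h (P (nat_lit 0)) (M (nat_lit 1205535638855)))) (T.h (P (nat_lit 0)) (M (nat_lit 1033401825119)))) (T.h (P (nat_lit 0)) (M (nat_lit 97889876607)))))) (P (nat_lit 0))))))) (T.h (T.h (P (nat_lit 0)) (T.h (T.h (T.h (P (nat_lit 0)) (T.h (T.h (P (nat_lit 0)) (T.h (P (nat_lit 22729812336)) (T.h (P (nat_lit 0)) (P (nat_lit 132116675496))))) (T.h (P (nat_lit 0)) (T.h (T.h (P (nat_lit 0)) (P (nat_lit 132116675496))) (P (nat_lit 0)))))) (T.h (T.h (T.h (M (nat_lit 9714121775)) (T.h (P (nat_lit 0)) (P (nat_lit 415861089304)))) (T.h (P (nat_lit 0)) (P (nat_lit 415861089304)))) (T.h (T.h (P (nat_lit 0))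 (T.h (T.h (P (nat_lit 0)) (P (nat_lit 971394941408))) (P (nat_lit 0)))) (M (nat_lit 124779861095))))) (T.h (P (nat_lit 0)) (T.h (T.h (T.h (P (nat_lit 0)) (T.h (T.h (P (nat_lit 0)) (T.h (P (nat_lit 21612348544)) (T.h (P (nat_lit 0)) (P (nat_lit 84397912796))))) (T.h (P (nat_lit 0)) (T.h (T.h (P (nat_lit 0)) (M (nat_lit 493867438415))) (P (nat_lit 0)))))) (T.h (T.h (T.h (M (nat_lit 5205010999)) (T.h (P (nat_lit 0)) (M (nat_lit 1626317548419)))) (P (nat_lit 0))) (T.h (T.h (P (nat_lit 0)) (T.h (T.h (P (nat_lit 0)) (M (nat_lit 256929837027))) (P (nat_lit 0)))) (P (nat_lit 355624635264))))) (P (nat_lit 0)))))) (T.h (T.h (T.h (T.h (T.h (P (nat_lit 0)) (T.h (P (nat_lit 0)) (T.h (P (nat_lit 0)) (T.h (P (nat_lit 0)) (M (nat_lit 32944069631)))))) (T.h (P (nat_lit 0)) (T.h (T.h (P (nat_lit 14757638876)) (T.h (P (nat_lit 0)) (P (nat_lit 294595063356)))) (T.h (P (nat_lit 0)) (M (nat_lit 175216138407))))))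 (T.h (P (nat_lit 0)) (T.h (T.h (T.h (P (nat_lit 0)) (T.h (P (nat_lit 0)) (P (nat_lit 369585578896)))) (T.h (P (nat_lit 0)) (P (nat_lit 257082165588)))) (T.h (P (nat_lit 0)) (M (nat_lit 204919162643)))))) (T.h (P (nat_lit 0)) (T.h (T.h (T.h (T.h (P (nat_lit 9644953256)) (T.h (P (nat_lit 0)) (T.h (P (nat_lit 42597947136)) (T.h (P (nat_lit 0)) (P (nat_lit 508990245376)))))) (T.h (P (nat_lit 0)) (T.h (T.h (P (nat_lit 42597947136)) (T.h (P (nat_lit 0)) (P (nat_lit 1688484657608)))) (T.h (P (nat_lit 0)) (P (nat_lit 508990245376)))))) (T.h (T.h (P (nat_lit 0)) (T.h (T.h (P (nat_lit 0)) (M (nat_lit 1891366517471))) (P (nat_lit 0)))) (T.h (T.h (T.h (P (nat_lit 125479381128)) (T.h (P (nat_lit 0)) (P (nat_lit 789253955524)))) (T.h (P (nat_lit 0)) (P (nat_lit 789253955524)))) (T.h (P (nat_lit 0)) (P (nat_lit 1161764593968)))))) (P (nat_lit 0))))) (T.h (T.h (P (nat_lit 0)) (T.h (T.h (T.h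 (P (nat_lit 0)) (T.h (T.h (P (nat_lit 0)) (T.h (P (nat_lit 21612348544)) (T.h (P (nat_lit 0)) (M (nat_lit 493867438415))))) (T.h (P (nat_lit 0)) (T.h (T.h (P (nat_lit 0)) (P (nat_lit 84397912796))) (P (nat_lit 0)))))) (T.h (T.h (M (nat_lit 5205010999)) (T.h (P (nat_lit 0)) (M (nat_lit 1626317548419)))) (T.h (T.h (P (nat_lit 0)) (T.h (T.h (P (nat_lit 0)) (M (nat_lit 256929837027))) (P (nat_lit 0)))) (P (nat_lit 355624635264))))) (P (nat_lit 0)))) (T.h (T.h (T.h (T.h (T.h (P (nat_lit 5636547240)) (T.h (P (nat_lit 0)) (T.h (M (nat_lit 13195870447)) (T.h (P (nat_lit 0)) (P (nat_lit 344226899232)))))) (T.h (P (nat_lit 0)) (T.h (T.h (M (nat_lit 461772351)) (T.h (P (nat_lit 0)) (M (nat_lit 1033401825119)))) (T.h (P (nat_lit 0)) (M (nat_lit 97889876607)))))) (T.h (T.h (P (nat_lit 0)) (T.h (T.h (P (nat_lit 0)) (P (nat_lit 14961013872))) (P (nat_lit 0)))) (T.h (T.h (T.h (M (nat_lit 461772351))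 (T.h (P (nat_lit 0)) (M (nat_lit 1033401825119)))) (T.h (P (nat_lit 0)) (M (nat_lit 1205535638855)))) (T.h (P (nat_lit 0)) (M (nat_lit 97889876607)))))) (P (nat_lit 0))) (P (nat_lit 0)))))))
def et2_7 : T ℤ := (T.h (T.h (T.h (T.h (T.h (T.h (P (nat_lit 1104344192)) (T.h (P (nat_lit 0)) (T.h (M (nat_lit 726310199)) (T.h (P (nat_lit 0)) (M (nat_lit 31585854895)))))) (T.h (P (nat_lit 0)) (T.h (T.h (M (nat_lit 726310199)) (T.h (P (nat_lit 0)) (P (nat_lit 119531771416)))) (T.h (P (nat_lit 0)) (M (nat_lit 31585854895)))))) (T.h (T.h (P (nat_lit 0)) (T.h (T.h (P (nat_lit 0)) (P (nat_lit 1482787744))) (P (nat_lit 0)))) (T.h (T.h (T.h (M (nat_lit 5005649111)) (T.h (P (nat_lit 0)) (P (nat_lit 84551861316)))) (T.h (P (nat_lit 0)) (P (nat_lit 84551861316)))) (T.h (P (nat_lit 0)) (P (nat_lit 103264123928)))))) (T.h (P (nat_lit 0)) (T.h (T.h (T.h (T.h (P (nat_lit 3083657804)) (T.h (P (nat_lit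 0)) (T.h (M (nat_lit 5636387027)) (T.h (P (nat_lit 0)) (P (nat_lit 73792335916)))))) (T.h (P (nat_lit 0)) (T.h (T.h (P (nat_lit 1677265148)) (T.h (P (nat_lit 0)) (P (nat_lit 36593578860)))) (T.h (P (nat_lit 0)) (P (nat_lit 33136327388)))))) (T.h (T.h (P (nat_lit 0)) (T.h (T.h (P (nat_lit 0)) (M (nat_lit 216336443639))) (P (nat_lit 0)))) (T.h (T.h (T.h (P (nat_lit 19186909872)) (T.h (P (nat_lit 0)) (P (nat_lit 16250218524)))) (T.h (P (nat_lit 0)) (M (nat_lit 155332921511)))) (T.h (P (nat_lit 0)) (M (nat_lit 92064007615)))))) (P (nat_lit 0))))) (T.h (T.h (P (nat_lit 0)) (T.h (T.h (T.h (P (nat_lit 0)) (T.h (T.h (P (nat_lit 0)) (T.h (P (nat_lit 2905240800)) (T.h (P (nat_lit 0)) (P (nat_lit 81338645588))))) (T.h (P (nat_lit 0)) (T.h (T.h (P (nat_lit 0)) (P (nat_lit 81338645588))) (P (nat_lit 0)))))) (T.h (T.h (T.h (P (nat_lit 2266653536)) (T.h (P (nat_lit 0)) (M (nat_lit 527828537295))))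 (T.h (P (nat_lit 0)) (M (nat_lit 527828537295)))) (T.h (T.h (P (nat_lit 0)) (T.h (T.h (P (nat_lit 0)) (M (nat_lit 733199454791))) (P (nat_lit 0)))) (P (nat_lit 39975459400))))) (P (nat_lit 0)))) (T.h (T.h (T.h (T.h (T.h (P (nat_lit 3083657804)) (T.h (P (nat_lit 0)) (T.h (P (nat_lit 1677265148)) (T.h (P (nat_lit 0)) (P (nat_lit 33136327388)))))) (T.h (P (nat_lit 0)) (T.h (T.h (M (nat_lit 5636387027)) (T.h (P (nat_lit 0)) (P (nat_lit 36593578860)))) (T.h (P (nat_lit 0)) (P (nat_lit 73792335916)))))) (T.h (T.h (P (nat_lit 0)) (T.h (T.h (P (nat_lit 0)) (M (nat_lit 216336443639))) (P (nat_lit 0)))) (T.h (T.h (T.h (P (nat_lit 19186909872)) (T.h (P (nat_lit 0)) (M (nat_lit 155332921511)))) (T.h (P (nat_lit 0)) (P (nat_lit 16250218524)))) (T.h (P (nat_lit 0)) (M (nat_lit 92064007615)))))) (P (nat_lit 0))) (P (nat_lit 0))))) (T.h (T.h (T.h (P (nat_lit 0)) (T.h (T.h (T.h (P (nat_lit 0))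 (T.h (T.h (M (nat_lit 242781879)) (T.h (P (nat_lit 0)) (M (nat_lit 370696935)))) (T.h (P (nat_lit 0)) (P (nat_lit 41179191832))))) (T.h (T.h (T.h (P (nat_lit 0)) (T.h (P (nat_lit 8614202400)) (T.h (P (nat_lit 0)) (P (nat_lit 17131569848))))) (T.h (P (nat_lit 0)) (T.h (T.h (P (nat_lit 0)) (M (nat_lit 605936290447))) (P (nat_lit 0))))) (T.h (T.h (P (nat_lit 0)) (M (nat_lit 144091869107))) (T.h (T.h (T.h (P (nat_lit 0)) (M (nat_lit 368256030463))) (P (nat_lit 0))) (P (nat_lit 0)))))) (P (nat_lit 0)))) (T.h (T.h (T.h (T.h (T.h (P (nat_lit 0)) (T.h (M (nat_lit 242781879)) (T.h (P (nat_lit 0)) (P (nat_lit 41179191832))))) (T.h (P (nat_lit 0)) (T.h (T.h (P (nat_lit 0)) (M (nat_lit 370696935))) (P (nat_lit 0))))) (T.h (T.h (P (nat_lit 0)) (T.h (T.h (P (nat_lit 8614202400)) (T.h (P (nat_lit 0)) (M (nat_lit 605936290447)))) (T.h (P (nat_lit 0)) (P (nat_lit 17131569848))))) (T.h (T.h (T.h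 (P (nat_lit 0)) (M (nat_lit 144091869107))) (P (nat_lit 0))) (T.h (T.h (P (nat_lit 0)) (M (nat_lit 368256030463))) (P (nat_lit 0)))))) (P (nat_lit 0))) (P (nat_lit 0)))) (T.h (T.h (T.h (T.h (T.h (P (nat_lit 0)) (T.h (P (nat_lit 0)) (T.h (T.h (P (nat_lit 0)) (T.h (P (nat_lit 0)) (M (nat_lit 192718929135)))) (P (nat_lit 0))))) (T.h (P (nat_lit 0)) (T.h (P (nat_lit 0)) (T.h (P (nat_lit 0)) (M (nat_lit 52977422479)))))) (P (nat_lit 0))) (P (nat_lit 0))) (P (nat_lit 0)))))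
def et2_8 : T ℤ := (T.h (T.h (T.h (P (nat_lit 0)) (T.h (P (nat_lit 0)) (T.h (P (nat_lit 0)) (T.h (T.h (T.h (P (nat_lit 0)) (T.h (T.h (P (nat_lit 1838912944)) (T.h (P (nat_lit 0)) (M (nat_lit 145394414879)))) (T.h (P (nat_lit 0)) (M (nat_lit 19684059519))))) (T.h (T.h (T.h (P (nat_lit 0)) (T.h (P (nat_lit 32121832528)) (T.h (P (nat_lit 0)) (P (nat_lit 192823950668))))) (T.h (P (nat_lit 0)) (T.h (T.h (P (nat_lit 0)) (P (nat_lit 385296932240))) (P (nat_lit 0))))) (T.h (T.h (P (nat_lit 0)) (M (nat_lit 145394414879))) (T.h (T.h (T.h (P (nat_lit 0)) (P (nat_lit 192823950668))) (P (nat_lit 0))) (P (nat_lit 0)))))) (T.h (P (nat_lit 0)) (T.h (T.h (T.h (P (nat_lit 0)) (T.h (T.h (M (nat_lit 4334036823)) (T.h (P (nat_lit 0)) (P (nat_lit 62522946160)))) (T.h (P (nat_lit 0)) (P (nat_lit 10177235992))))) (T.h (T.h (T.h (P (nat_lit 0)) (T.h (M (nat_lit 27333690319)) (T.h (P (nat_lit 0)) (M (nat_lit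 865525993503))))) (T.h (P (nat_lit 0)) (T.h (T.h (P (nat_lit 0)) (M (nat_lit 1386010765703))) (P (nat_lit 0))))) (T.h (T.h (P (nat_lit 0)) (P (nat_lit 3740253468))) (T.h (T.h (T.h (P (nat_lit 0)) (M (nat_lit 678422818887))) (P (nat_lit 0))) (P (nat_lit 0)))))) (P (nat_lit 0)))))))) et2_5) (T.h et2_6 (T.h (T.h (T.h (P (nat_lit 0)) (T.h (T.h (T.h (P (nat_lit 0)) (T.h (T.h (P (nat_lit 0)) (T.h (P (nat_lit 0)) (P (nat_lit 11953030936)))) (T.h (P (nat_lit 0)) (M (nat_lit 10177235991))))) (T.h (T.h (T.h (P (nat_lit 0)) (T.h (P (nat_lit 7664220768)) (T.h (P (nat_lit 0)) (P (nat_lit 221601401396))))) (T.h (P (nat_lit 0)) (T.h (T.h (P (nat_lit 0)) (P (nat_lit 854445066528))) (P (nat_lit 0))))) (T.h (T.h (P (nat_lit 0)) (P (nat_lit 107797524884))) (T.h (T.h (T.h (P (nat_lit 0)) (P (nat_lit 322681150140))) (P (nat_lit 0))) (P (nat_lit 0)))))) (T.h (P (nat_lit 0)) (T.h (T.h (T.h (P (nat_lit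 0)) (T.h (T.h (M (nat_lit 4334036823)) (T.h (P (nat_lit 0)) (P (nat_lit 3740253468)))) (T.h (P (nat_lit 0)) (P (nat_lit 10177235992))))) (T.h (T.h (T.h (P (nat_lit 0)) (T.h (M (nat_lit 27333690319)) (T.h (P (nat_lit 0)) (M (nat_lit 678422818887))))) (T.h (P (nat_lit 0)) (T.h (T.h (P (nat_lit 0)) (M (nat_lit 1386010765703))) (P (nat_lit 0))))) (T.h (T.h (P (nat_lit 0)) (P (nat_lit 62522946160))) (T.h (T.h (T.h (P (nat_lit 0)) (M (nat_lit 865525993503))) (P (nat_lit 0))) (P (nat_lit 0)))))) (P (nat_lit 0)))))) (T.h (T.h (T.h (T.h (T.h (P (nat_lit 0)) (T.h (P (nat_lit 0)) (T.h (P (nat_lit 0)) (M (nat_lit 10177235991))))) (T.h (P (nat_lit 0)) (T.h (T.h (P (nat_lit 0)) (P (nat_lit 11953030936))) (P (nat_lit 0))))) (T.h (T.h (P (nat_lit 0)) (T.h (T.h (P (nat_lit 7664220768)) (T.h (P (nat_lit 0)) (P (nat_lit 854445066528)))) (T.h (P (nat_lit 0)) (P (nat_lit 221601401396))))) (T.h (T.h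 (T.h (P (nat_lit 0)) (P (nat_lit 107797524884))) (P (nat_lit 0))) (T.h (T.h (P (nat_lit 0)) (P (nat_lit 322681150140))) (P (nat_lit 0)))))) (T.h (P (nat_lit 0)) (T.h (T.h (T.h (T.h (P (nat_lit 0)) (T.h (M (nat_lit 16889801159)) (T.h (P (nat_lit 0)) (P (nat_lit 307976561296))))) (T.h (P (nat_lit 0)) (T.h (T.h (P (nat_lit 0)) (P (nat_lit 6625646104))) (P (nat_lit 0))))) (T.h (T.h (P (nat_lit 0)) (T.h (T.h (P (nat_lit 33870330160)) (T.h (P (nat_lit 0)) (P (nat_lit 1282148947964)))) (T.h (P (nat_lit 0)) (M (nat_lit 1084612475027))))) (T.h (T.h (T.h (P (nat_lit 0)) (M (nat_lit 1484673452407))) (P (nat_lit 0))) (T.h (T.h (P (nat_lit 0)) (P (nat_lit 254013058840))) (P (nat_lit 0)))))) (P (nat_lit 0))))) (T.h (T.h (P (nat_lit 0)) (T.h (T.h (T.h (P (nat_lit 0)) (T.h (T.h (M (nat_lit 16889801159)) (T.h (P (nat_lit 0)) (P (nat_lit 6625646104)))) (T.h (P (nat_lit 0)) (P (nat_lit 307976561296)))))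 (T.h (T.h (T.h (P (nat_lit 0)) (T.h (P (nat_lit 33870330160)) (T.h (P (nat_lit 0)) (M (nat_lit 1084612475027))))) (T.h (P (nat_lit 0)) (T.h (T.h (P (nat_lit 0)) (P (nat_lit 1282148947964))) (P (nat_lit 0))))) (T.h (T.h (P (nat_lit 0)) (M (nat_lit 1484673452407))) (T.h (T.h (T.h (P (nat_lit 0)) (P (nat_lit 254013058840))) (P (nat_lit 0))) (P (nat_lit 0)))))) (P (nat_lit 0)))) (T.h (T.h (T.h (T.h (T.h (P (nat_lit 0)) (T.h (M (nat_lit 4334036823)) (T.h (P (nat_lit 0)) (P (nat_lit 10177235992))))) (T.h (P (nat_lit 0)) (T.h (T.h (P (nat_lit 0)) (P (nat_lit 3740253468))) (P (nat_lit 0))))) (T.h (T.h (P (nat_lit 0)) (T.h (T.h (M (nat_lit 27333690319)) (T.h (P (nat_lit 0)) (M (nat_lit 1386010765703)))) (T.h (P (nat_lit 0)) (M (nat_lit 678422818887))))) (T.h (T.h (T.h (P (nat_lit 0)) (P (nat_lit 62522946160))) (P (nat_lit 0))) (T.h (T.h (P (nat_lit 0)) (M (nat_lit 865525993503))) (P (nat_lit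 0)))))) (P (nat_lit 0))) (P (nat_lit 0)))))) et2_7)))

def t2 : T ℤ := (T.h (T.h (T.h (P (nat_lit 0)) (T.h (P (nat_lit 0)) (T.h (P (nat_lit 0)) (T.h (P (nat_lit 0)) (T.h (P (nat_lit 0)) (T.h (P (nat_lit 0)) (T.h (T.h (T.h (T.h (P (nat_lit 1104344192)) (T.h (P (nat_lit 0)) (T.h (M (nat_lit 5005649111)) (T.h (P (nat_lit 0)) (P (nat_lit 103264123928)))))) (T.h (P (nat_lit 0)) (T.h (T.h (M (nat_lit 726310199)) (T.h (P (nat_lit 0)) (P (nat_lit 84551861316)))) (T.h (P (nat_lit 0)) (M (nat_lit 31585854895)))))) (T.h (T.h (P (nat_lit 0)) (T.h (T.h (P (nat_lit 0)) (P (nat_lit 1482787744))) (P (nat_lit 0)))) (T.h (T.h (T.h (M (nat_lit 726310199)) (T.h (P (nat_lit 0)) (P (nat_lit 84551861316)))) (T.h (P (nat_lit 0)) (P (nat_lit 119531771416)))) (T.h (P (nat_lit 0)) (M (nat_lit 31585854895)))))) (T.h (P (nat_lit 0)) (T.h (T.h (T.h (T.h (P (nat_lit 0)) (T.h (P (nat_lit 0)) (T.h (P (nat_lit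 0)) (T.h (P (nat_lit 0)) (M (nat_lit 52977422479)))))) (P (nat_lit 0))) (T.h (P (nat_lit 0)) (T.h (T.h (P (nat_lit 0)) (T.h (P (nat_lit 0)) (M (nat_lit 192718929135)))) (P (nat_lit 0))))) (P (nat_lit 0))))))))))) et2_1) (T.h et2_3 (T.h (T.h (T.h (P (nat_lit 0)) (T.h (P (nat_lit 0)) (T.h (P (nat_lit 0)) (T.h (P (nat_lit 0)) (T.h (T.h (T.h (T.h (P (nat_lit 0)) (T.h (P (nat_lit 0)) (T.h (P (nat_lit 0)) (T.h (P (nat_lit 0)) (M (nat_lit 204919162643)))))) (T.h (P (nat_lit 0)) (T.h (T.h (P (nat_lit 0)) (T.h (P (nat_lit 0)) (P (nat_lit 369585578896)))) (T.h (P (nat_lit 0)) (M (nat_lit 32944069631)))))) (T.h (P (nat_lit 0)) (T.h (T.h (T.h (P (nat_lit 14757638876)) (T.h (P (nat_lit 0)) (P (nat_lit 257082165588)))) (T.h (P (nat_lit 0)) (P (nat_lit 294595063356)))) (T.h (P (nat_lit 0)) (M (nat_lit 175216138407)))))) (T.h (P (nat_lit 0)) (T.h (T.h (T.h (T.h (P (nat_lit 3083657804)) (T.h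 (P (nat_lit 0)) (T.h (P (nat_lit 19186909872)) (T.h (P (nat_lit 0)) (M (nat_lit 92064007615)))))) (T.h (P (nat_lit 0)) (T.h (T.h (P (nat_lit 1677265148)) (T.h (P (nat_lit 0)) (M (nat_lit 155332921511)))) (T.h (P (nat_lit 0)) (P (nat_lit 33136327388)))))) (T.h (T.h (P (nat_lit 0)) (T.h (T.h (P (nat_lit 0)) (M (nat_lit 216336443639))) (P (nat_lit 0)))) (T.h (T.h (T.h (M (nat_lit 5636387027)) (T.h (P (nat_lit 0)) (P (nat_lit 16250218524)))) (T.h (P (nat_lit 0)) (P (nat_lit 36593578860)))) (T.h (P (nat_lit 0)) (P (nat_lit 73792335916)))))) (P (nat_lit 0))))))))) (T.h (T.h (P (nat_lit 0)) (T.h (P (nat_lit 0)) (T.h (P (nat_lit 0)) (T.h (T.h (T.h (P (nat_lit 0)) (T.h (T.h (P (nat_lit 0)) (T.h (M (nat_lit 46166127487)) (T.h (P (nat_lit 0)) (M (nat_lit 834666387271))))) (T.h (P (nat_lit 0)) (T.h (T.h (P (nat_lit 0)) (P (nat_lit 312212646628))) (P (nat_lit 0)))))) (T.h (T.h (T.h (P (nat_lit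 10502783492)) (T.h (P (nat_lit 0)) (P (nat_lit 1214129553288)))) (T.h (P (nat_lit 0)) (M (nat_lit 237676432523)))) (T.h (T.h (P (nat_lit 0)) (T.h (T.h (P (nat_lit 0)) (M (nat_lit 1809374135119))) (P (nat_lit 0)))) (M (nat_lit 95223479299))))) (T.h (P (nat_lit 0)) (T.h (T.h (T.h (P (nat_lit 0)) (T.h (T.h (P (nat_lit 0)) (T.h (P (nat_lit 33870330160)) (T.h (P (nat_lit 0)) (P (nat_lit 254013058840))))) (T.h (P (nat_lit 0)) (T.h (T.h (P (nat_lit 0)) (M (nat_lit 1084612475027))) (P (nat_lit 0)))))) (T.h (T.h (T.h (M (nat_lit 16889801159)) (T.h (P (nat_lit 0)) (M (nat_lit 1484673452407)))) (T.h (P (nat_lit 0)) (P (nat_lit 6625646104)))) (T.h (T.h (P (nat_lit 0)) (T.h (T.h (P (nat_lit 0)) (P (nat_lit 1282148947964))) (P (nat_lit 0)))) (P (nat_lit 307976561296))))) (P (nat_lit 0)))))))) et2_4)) et2_8)))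

theorem h_t2 : chkT (c.G g2) t2 = true := by decide +kernel


end Pool.Agent.TOPR.R6078
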