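import Pool.Agent.TOPR.R6078.Cert

set_option autoImplicit false
set_option linter.all false
set_option maxRecDepth 100000

namespace Pool.Agent.TOPR.R6078

open Helper10.PC hiding V3
open Helper80.CW.DL Pool.Agent.Helper6.TOP

def en22_0 : T ℤ := (T.h (T.h (P (nat_lit 0)) (T.h (P (nat_lit 0)) (T.h (P (nat_lit 0)) (T.h (P (nat_lit 0)) (T.h (T.h (T.h (P (nat_lit 0)) (T.h (T.h (P (nat_lit 9282582520)) (T.h (P (nat_lit 0)) (T.h (P (nat_lit 19530175788)) (T.h (P (nat_lit 0)) (M (nat_lit 334603284459)))))) (T.h (P (nat_lit 0)) (T.h (P (nat_lit 0)) (T.h (P (nat_lit 0)) (P (nat_lit 183046318500))))))) (T.h (T.h (T.h (P (nat_lit 0)) (T.h (M (nat_lit 8221079351)) (T.h (P (nat_lit 0)) (P (nat_lit 114098939888))))) (P (nat_lit 0))) (T.h (P (nat_lit 0)) (T.h (T.h (T.h (P (nat_lit 0)) (M (nat_lit 194412910031))) (P (nat_lit 0))) (P (nat_lit 0)))))) (P (nat_lit 0))))))) (T.h (T.h (P (nat_lit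 0)) (T.h (P (nat_lit 0)) (T.h (P (nat_lit 0)) (T.h (T.h (T.h (P (nat_lit 0)) (T.h (P (nat_lit 0)) (T.h (T.h (P (nat_lit 0)) (P (nat_lit 198682731960))) (P (nat_lit 0))))) (T.h (T.h (P (nat_lit 0)) (T.h (T.h (P (nat_lit 22220564772)) (T.h (P (nat_lit 0)) (P (nat_lit 153559582284)))) (P (nat_lit 0)))) (T.h (T.h (T.h (P (nat_lit 0)) (T.h (M (nat_lit 42076326551)) (T.h (P (nat_lit 0)) (P (nat_lit 1521038678608))))) (P (nat_lit 0))) (P (nat_lit 0))))) (P (nat_lit 0)))))) (T.h (T.h (P (nat_lit 0)) (T.h (P (nat_lit 0)) (T.h (T.h (T.h (P (nat_lit 0)) (T.h (T.h (P (nat_lit 10453324600)) (T.h (P (nat_lit 0)) (T.h (M (nat_lit 42904635227)) (T.h (P (nat_lit 0)) (M (nat_lit 644420927003)))))) (T.h (P (nat_lit 0)) (T.h (T.h (P (nat_lit 41272232648)) (T.h (P (nat_lit 0)) (M (nat_lit 432847389659)))) (T.h (P (nat_lit 0)) (P (nat_lit 70150259436))))))) (T.h (T.h (T.h (P (nat_lit 0)) (T.h (P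 (nat_lit 976787720)) (T.h (P (nat_lit 0)) (P (nat_lit 280922623188))))) (T.h (P (nat_lit 0)) (T.h (T.h (P (nat_lit 0)) (P (nat_lit 4363864300))) (P (nat_lit 0))))) (T.h (T.h (P (nat_lit 0)) (T.h (T.h (M (nat_lit 35399528703)) (T.h (P (nat_lit 0)) (P (nat_lit 1517275309512)))) (P (nat_lit 0)))) (T.h (T.h (T.h (P (nat_lit 0)) (P (nat_lit 43998297656))) (P (nat_lit 0))) (T.h (T.h (P (nat_lit 0)) (M (nat_lit 185686894427))) (P (nat_lit 0))))))) (P (nat_lit 0))))) (T.h (T.h (P (nat_lit 0)) (T.h (T.h (T.h (T.h (P (nat_lit 0)) (T.h (P (nat_lit 920442048)) (T.h (P (nat_lit 0)) (P (nat_lit 62158882336))))) (T.h (P (nat_lit 0)) (T.h (T.h (P (nat_lit 0)) (T.h (M (nat_lit 5275869719)) (T.h (P (nat_lit 0)) (M (nat_lit 113280286511))))) (P (nat_lit 0))))) (T.h (T.h (P (nat_lit 0)) (T.h (T.h (M (nat_lit 7807914079)) (T.h (P (nat_lit 0)) (M (nat_lit 75037751399)))) (T.h (P (nat_lit 0)) (P (nat_lit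 19110873088))))) (T.h (T.h (T.h (P (nat_lit 0)) (T.h (P (nat_lit 8291743600)) (T.h (P (nat_lit 0)) (M (nat_lit 226930961511))))) (T.h (P (nat_lit 0)) (T.h (T.h (P (nat_lit 0)) (M (nat_lit 2397527638711))) (P (nat_lit 0))))) (T.h (T.h (P (nat_lit 0)) (P (nat_lit 61542812968))) (T.h (T.h (T.h (P (nat_lit 0)) (P (nat_lit 468018162184))) (P (nat_lit 0))) (P (nat_lit 0))))))) (P (nat_lit 0)))) (T.h (T.h (T.h (T.h (P (nat_lit 0)) (T.h (T.h (P (nat_lit 3555904100)) (T.h (P (nat_lit 0)) (T.h (M (nat_lit 8584424411)) (T.h (P (nat_lit 0)) (M (nat_lit 69144401483)))))) (T.h (P (nat_lit 0)) (T.h (T.h (P (nat_lit 8372170804)) (T.h (P (nat_lit 0)) (M (nat_lit 3149045415)))) (P (nat_lit 0)))))) (T.h (T.h (T.h (P (nat_lit 0)) (T.h (P (nat_lit 14372504)) (T.h (P (nat_lit 0)) (M (nat_lit 36162784815))))) (T.h (P (nat_lit 0)) (T.h (T.h (P (nat_lit 0)) (M (nat_lit 316633978923))) (P (nat_lit 0)))))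 (T.h (T.h (P (nat_lit 0)) (T.h (P (nat_lit 712580096)) (T.h (P (nat_lit 0)) (M (nat_lit 395287571459))))) (T.h (T.h (T.h (P (nat_lit 0)) (M (nat_lit 1206984375))) (P (nat_lit 0))) (T.h (T.h (P (nat_lit 0)) (M (nat_lit 38559108607))) (P (nat_lit 0))))))) (P (nat_lit 0))) (P (nat_lit 0)))))))
def en22_1 : T ℤ := (T.h (T.h (P (nat_lit 0)) (T.h (P (nat_lit 0)) (T.h (P (nat_lit 0)) (T.h (P (nat_lit 0)) (T.h (T.h (T.h (P (nat_lit 0)) (T.h (T.h (P (nat_lit 0)) (T.h (M (nat_lit 8221079351)) (T.h (P (nat_lit 0)) (P (nat_lit 114098939888))))) (T.h (P (nat_lit 0)) (T.h (T.h (P (nat_lit 0)) (M (nat_lit 194412910031))) (P (nat_lit 0)))))) (T.h (T.h (T.h (P (nat_lit 9282582520)) (T.h (P (nat_lit 0)) (T.h (P (nat_lit 19530175788)) (T.h (P (nat_lit 0)) (M (nat_lit 334603284459)))))) (P (nat_lit 0))) (T.h (P (nat_lit 0)) (T.h (P (nat_lit 0)) (T.h (P (nat_lit 0)) (P (nat_lit 183046318500)))))))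 (P (nat_lit 0))))))) (T.h (T.h (P (nat_lit 0)) (T.h (P (nat_lit 0)) (T.h (P (nat_lit 0)) (T.h (T.h (T.h (T.h (P (nat_lit 0)) (T.h (P (nat_lit 0)) (T.h (P (nat_lit 0)) (T.h (P (nat_lit 0)) (P (nat_lit 154379465960)))))) (T.h (P (nat_lit 0)) (T.h (T.h (P (nat_lit 0)) (T.h (P (nat_lit 0)) (P (nat_lit 233178482584)))) (T.h (P (nat_lit 0)) (P (nat_lit 467430343504)))))) (T.h (P (nat_lit 0)) (T.h (T.h (T.h (P (nat_lit 0)) (T.h (P (nat_lit 0)) (P (nat_lit 233178482584)))) (P (nat_lit 0))) (T.h (P (nat_lit 0)) (P (nat_lit 467430343504)))))) (P (nat_lit 0)))))) (T.h (T.h (P (nat_lit 0)) (T.h (P (nat_lit 0)) (T.h (T.h (T.h (P (nat_lit 0)) (T.h (T.h (P (nat_lit 0)) (T.h (M (nat_lit 34808413367)) (T.h (P (nat_lit 0)) (M (nat_lit 281459114143))))) (T.h (P (nat_lit 0)) (T.h (T.h (P (nat_lit 0)) (M (nat_lit 616538206559))) (P (nat_lit 0)))))) (T.h (T.h (T.h (P (nat_lit 9881550208)) (T.h (P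 (nat_lit 0)) (T.h (P (nat_lit 83516816748)) (T.h (P (nat_lit 0)) (P (nat_lit 872110228920)))))) (T.h (P (nat_lit 0)) (T.h (T.h (P (nat_lit 77593092780)) (T.h (P (nat_lit 0)) (P (nat_lit 3947529514824)))) (P (nat_lit 0))))) (T.h (T.h (P (nat_lit 0)) (T.h (T.h (P (nat_lit 0)) (P (nat_lit 88058715488))) (P (nat_lit 0)))) (T.h (T.h (T.h (M (nat_lit 18838298955)) (T.h (P (nat_lit 0)) (P (nat_lit 793003419960)))) (P (nat_lit 0))) (T.h (P (nat_lit 0)) (M (nat_lit 154162985207))))))) (P (nat_lit 0))))) (T.h (T.h (P (nat_lit 0)) (T.h (T.h (T.h (P (nat_lit 166428064)) (T.h (P (nat_lit 0)) (T.h (T.h (M (nat_lit 23513848783)) (T.h (P (nat_lit 0)) (P (nat_lit 1356898194708)))) (T.h (P (nat_lit 0)) (P (nat_lit 244463844140)))))) (T.h (T.h (P (nat_lit 0)) (T.h (T.h (P (nat_lit 0)) (T.h (P (nat_lit 31863859632)) (T.h (P (nat_lit 0)) (M (nat_lit 1659681045727))))) (T.h (P (nat_lit 0)) (T.h (T.h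 (P (nat_lit 0)) (M (nat_lit 811979692623))) (P (nat_lit 0)))))) (T.h (T.h (T.h (M (nat_lit 6890904943)) (T.h (P (nat_lit 0)) (M (nat_lit 157708598939)))) (T.h (P (nat_lit 0)) (M (nat_lit 209672771803)))) (T.h (T.h (P (nat_lit 0)) (T.h (T.h (P (nat_lit 0)) (M (nat_lit 386636109831))) (P (nat_lit 0)))) (P (nat_lit 29643595944)))))) (P (nat_lit 0)))) (T.h (T.h (T.h (T.h (P (nat_lit 0)) (T.h (T.h (P (nat_lit 0)) (T.h (M (nat_lit 384182159)) (T.h (P (nat_lit 0)) (M (nat_lit 296084416991))))) (T.h (P (nat_lit 0)) (T.h (T.h (P (nat_lit 0)) (P (nat_lit 311907280860))) (P (nat_lit 0)))))) (T.h (T.h (T.h (P (nat_lit 423657100)) (T.h (P (nat_lit 0)) (T.h (P (nat_lit 39406324956)) (T.h (P (nat_lit 0)) (M (nat_lit 27168547147)))))) (T.h (P (nat_lit 0)) (T.h (T.h (P (nat_lit 10337130808)) (T.h (P (nat_lit 0)) (M (nat_lit 242848735351)))) (T.h (P (nat_lit 0)) (M (nat_lit 400255140799))))))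 (T.h (T.h (P (nat_lit 0)) (T.h (T.h (P (nat_lit 0)) (P (nat_lit 137007599536))) (P (nat_lit 0)))) (T.h (T.h (T.h (P (nat_lit 25868110500)) (T.h (P (nat_lit 0)) (M (nat_lit 11721243451)))) (T.h (P (nat_lit 0)) (M (nat_lit 510736161967)))) (T.h (P (nat_lit 0)) (P (nat_lit 167286060540))))))) (P (nat_lit 0))) (P (nat_lit 0)))))))
def en22_2 : T ℤ := (T.h (T.h (T.h (P (nat_lit 0)) (T.h (P (nat_lit 0)) (T.h (T.h (T.h (P (nat_lit 0)) (T.h (T.h (P (nat_lit 0)) (T.h (P (nat_lit 976787720)) (T.h (P (nat_lit 0)) (P (nat_lit 280922623188))))) (T.h (P (nat_lit 0)) (T.h (T.h (P (nat_lit 0)) (P (nat_lit 43998297656))) (P (nat_lit 0)))))) (T.h (T.h (T.h (P (nat_lit 10453324600)) (T.h (P (nat_lit 0)) (T.h (M (nat_lit 42904635227)) (T.h (P (nat_lit 0)) (M (nat_lit 644420927003)))))) (T.h (P (nat_lit 0)) (T.h (T.h (M (nat_lit 35399528703)) (T.h (P (nat_lit 0)) (P (nat_lit 1517275309512)))) (T.h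 (P (nat_lit 0)) (M (nat_lit 185686894427)))))) (T.h (T.h (P (nat_lit 0)) (T.h (T.h (P (nat_lit 0)) (P (nat_lit 4363864300))) (P (nat_lit 0)))) (T.h (T.h (T.h (P (nat_lit 41272232648)) (T.h (P (nat_lit 0)) (M (nat_lit 432847389659)))) (P (nat_lit 0))) (T.h (P (nat_lit 0)) (P (nat_lit 70150259436))))))) (P (nat_lit 0))))) (T.h (T.h (P (nat_lit 0)) (T.h (T.h (T.h (P (nat_lit 166428064)) (T.h (P (nat_lit 0)) (T.h (T.h (M (nat_lit 6890904943)) (T.h (P (nat_lit 0)) (M (nat_lit 157708598939)))) (T.h (P (nat_lit 0)) (P (nat_lit 29643595944)))))) (T.h (T.h (P (nat_lit 0)) (T.h (T.h (P (nat_lit 0)) (T.h (P (nat_lit 31863859632)) (T.h (P (nat_lit 0)) (M (nat_lit 1659681045727))))) (T.h (P (nat_lit 0)) (T.h (T.h (P (nat_lit 0)) (M (nat_lit 386636109831))) (P (nat_lit 0)))))) (T.h (T.h (T.h (M (nat_lit 23513848783)) (T.h (P (nat_lit 0)) (P (nat_lit 1356898194708)))) (T.h (P (nat_lit 0))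 (M (nat_lit 209672771803)))) (T.h (T.h (P (nat_lit 0)) (T.h (T.h (P (nat_lit 0)) (M (nat_lit 811979692623))) (P (nat_lit 0)))) (P (nat_lit 244463844140)))))) (P (nat_lit 0)))) (T.h (T.h (T.h (T.h (P (nat_lit 0)) (T.h (T.h (P (nat_lit 0)) (T.h (M (nat_lit 9418492275)) (T.h (P (nat_lit 0)) (M (nat_lit 121473797723))))) (T.h (P (nat_lit 0)) (T.h (T.h (P (nat_lit 0)) (P (nat_lit 345232147084))) (P (nat_lit 0)))))) (T.h (T.h (T.h (M (nat_lit 3709197699)) (T.h (P (nat_lit 0)) (T.h (P (nat_lit 38071408256)) (T.h (P (nat_lit 0)) (M (nat_lit 161890884587)))))) (T.h (P (nat_lit 0)) (T.h (T.h (M (nat_lit 63115333655)) (T.h (P (nat_lit 0)) (P (nat_lit 833604680248)))) (T.h (P (nat_lit 0)) (M (nat_lit 199377879179)))))) (T.h (T.h (P (nat_lit 0)) (T.h (T.h (P (nat_lit 0)) (P (nat_lit 546448201240))) (P (nat_lit 0)))) (T.h (T.h (T.h (M (nat_lit 12305653007)) (T.h (P (nat_lit 0)) (P (nat_lit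 38921297512)))) (T.h (P (nat_lit 0)) (P (nat_lit 17521680620)))) (T.h (P (nat_lit 0)) (P (nat_lit 97102973100))))))) (P (nat_lit 0))) (P (nat_lit 0))))) (T.h (T.h (T.h (P (nat_lit 0)) (T.h (T.h (T.h (T.h (P (nat_lit 0)) (T.h (P (nat_lit 920442048)) (T.h (P (nat_lit 0)) (P (nat_lit 62158882336))))) (T.h (P (nat_lit 0)) (T.h (T.h (P (nat_lit 0)) (T.h (P (nat_lit 8291743600)) (T.h (P (nat_lit 0)) (M (nat_lit 226930961511))))) (T.h (P (nat_lit 0)) (T.h (T.h (P (nat_lit 0)) (P (nat_lit 468018162184))) (P (nat_lit 0))))))) (T.h (T.h (P (nat_lit 0)) (T.h (T.h (M (nat_lit 7807914079)) (T.h (P (nat_lit 0)) (M (nat_lit 75037751399)))) (T.h (P (nat_lit 0)) (P (nat_lit 61542812968))))) (T.h (T.h (T.h (P (nat_lit 0)) (T.h (M (nat_lit 5275869719)) (T.h (P (nat_lit 0)) (M (nat_lit 113280286511))))) (T.h (P (nat_lit 0)) (T.h (T.h (P (nat_lit 0)) (M (nat_lit 2397527638711))) (P (nat_lit 0)))))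 (T.h (T.h (P (nat_lit 0)) (P (nat_lit 19110873088))) (P (nat_lit 0)))))) (P (nat_lit 0)))) (T.h (T.h (T.h (T.h (P (nat_lit 0)) (T.h (T.h (P (nat_lit 423657100)) (T.h (P (nat_lit 0)) (T.h (P (nat_lit 39406324956)) (T.h (P (nat_lit 0)) (M (nat_lit 27168547147)))))) (T.h (P (nat_lit 0)) (T.h (T.h (P (nat_lit 25868110500)) (T.h (P (nat_lit 0)) (M (nat_lit 11721243451)))) (T.h (P (nat_lit 0)) (P (nat_lit 167286060540))))))) (T.h (T.h (T.h (P (nat_lit 0)) (T.h (M (nat_lit 384182159)) (T.h (P (nat_lit 0)) (M (nat_lit 296084416991))))) (T.h (P (nat_lit 0)) (T.h (T.h (P (nat_lit 0)) (P (nat_lit 137007599536))) (P (nat_lit 0))))) (T.h (T.h (P (nat_lit 0)) (T.h (T.h (P (nat_lit 10337130808)) (T.h (P (nat_lit 0)) (M (nat_lit 242848735351)))) (T.h (P (nat_lit 0)) (M (nat_lit 510736161967))))) (T.h (T.h (T.h (P (nat_lit 0)) (P (nat_lit 311907280860))) (P (nat_lit 0))) (T.h (T.h (P (nat_lit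 0)) (M (nat_lit 400255140799))) (P (nat_lit 0))))))) (P (nat_lit 0))) (P (nat_lit 0)))) (T.h (T.h (T.h (T.h (T.h (P (nat_lit 0)) (T.h (T.h (P (nat_lit 0)) (T.h (P (nat_lit 14372504)) (T.h (P (nat_lit 0)) (M (nat_lit 36162784815))))) (T.h (P (nat_lit 0)) (T.h (T.h (P (nat_lit 0)) (M (nat_lit 1206984375))) (P (nat_lit 0)))))) (T.h (T.h (T.h (P (nat_lit 3555904100)) (T.h (P (nat_lit 0)) (T.h (M (nat_lit 8584424411)) (T.h (P (nat_lit 0)) (M (nat_lit 69144401483)))))) (T.h (P (nat_lit 0)) (T.h (P (nat_lit 712580096)) (T.h (P (nat_lit 0)) (M (nat_lit 38559108607)))))) (T.h (T.h (P (nat_lit 0)) (T.h (T.h (P (nat_lit 0)) (M (nat_lit 316633978923))) (P (nat_lit 0)))) (T.h (T.h (T.h (P (nat_lit 8372170804)) (T.h (P (nat_lit 0)) (M (nat_lit 3149045415)))) (T.h (P (nat_lit 0)) (M (nat_lit 395287571459)))) (P (nat_lit 0)))))) (P (nat_lit 0))) (P (nat_lit 0))) (P (nat_lit 0)))))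
def en22_3 : T ℤ := (T.h (T.h (T.h (P (nat_lit 0)) (T.h (P (nat_lit 0)) (T.h (P (nat_lit 0)) (T.h (P (nat_lit 0)) (T.h (P (nat_lit 0)) (T.h (T.h (T.h (T.h (P (nat_lit 0)) (T.h (P (nat_lit 0)) (T.h (P (nat_lit 0)) (T.h (P (nat_lit 10090281120)) (T.h (P (nat_lit 0)) (M (nat_lit 63572906975))))))) (P (nat_lit 0))) (T.h (T.h (P (nat_lit 0)) (T.h (T.h (M (nat_lit 1456691279)) (T.h (P (nat_lit 0)) (P (nat_lit 57974145168)))) (P (nat_lit 0)))) (T.h (T.h (P (nat_lit 0)) (T.h (P (nat_lit 0)) (T.h (T.h (P (nat_lit 0)) (M (nat_lit 1156313574815))) (P (nat_lit 0))))) (P (nat_lit 0))))) (P (nat_lit 0)))))))) en22_0) (T.h en22_1 (T.h (T.h (T.h (P (nat_lit 0)) (T.h (P (nat_lit 0)) (T.h (P (nat_lit 0)) (T.h (T.h (T.h (P (nat_lit 0)) (T.h (P (nat_lit 0)) (T.h (T.h (P (nat_lit 0)) (T.h (M (nat_lit 42076326551)) (T.h (P (nat_lit 0)) (P (nat_lit 1521038678608))))) (P (nat_lit 0))))) (T.h (T.h (P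 (nat_lit 0)) (T.h (T.h (P (nat_lit 22220564772)) (T.h (P (nat_lit 0)) (P (nat_lit 153559582284)))) (P (nat_lit 0)))) (T.h (T.h (T.h (P (nat_lit 0)) (P (nat_lit 198682731960))) (P (nat_lit 0))) (P (nat_lit 0))))) (P (nat_lit 0)))))) (T.h (T.h (P (nat_lit 0)) (T.h (P (nat_lit 0)) (T.h (T.h (T.h (P (nat_lit 0)) (T.h (T.h (P (nat_lit 9881550208)) (T.h (P (nat_lit 0)) (T.h (P (nat_lit 83516816748)) (T.h (P (nat_lit 0)) (P (nat_lit 872110228920)))))) (T.h (P (nat_lit 0)) (T.h (T.h (M (nat_lit 18838298955)) (T.h (P (nat_lit 0)) (P (nat_lit 793003419960)))) (T.h (P (nat_lit 0)) (M (nat_lit 154162985207))))))) (T.h (T.h (T.h (P (nat_lit 0)) (T.h (M (nat_lit 34808413367)) (T.h (P (nat_lit 0)) (M (nat_lit 281459114143))))) (T.h (P (nat_lit 0)) (T.h (T.h (P (nat_lit 0)) (P (nat_lit 88058715488))) (P (nat_lit 0))))) (T.h (T.h (P (nat_lit 0)) (T.h (T.h (P (nat_lit 77593092780)) (T.h (P (nat_lit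 0)) (P (nat_lit 3947529514824)))) (P (nat_lit 0)))) (T.h (T.h (T.h (P (nat_lit 0)) (M (nat_lit 616538206559))) (P (nat_lit 0))) (P (nat_lit 0)))))) (P (nat_lit 0))))) (T.h (T.h (P (nat_lit 0)) (T.h (T.h (T.h (P (nat_lit 0)) (T.h (P (nat_lit 0)) (T.h (T.h (P (nat_lit 0)) (T.h (P (nat_lit 78074581856)) (T.h (P (nat_lit 0)) (P (nat_lit 456598770088))))) (T.h (P (nat_lit 0)) (T.h (T.h (P (nat_lit 0)) (P (nat_lit 687568870648))) (P (nat_lit 0))))))) (T.h (T.h (P (nat_lit 0)) (T.h (T.h (P (nat_lit 0)) (T.h (P (nat_lit 0)) (P (nat_lit 498585784920)))) (T.h (P (nat_lit 0)) (P (nat_lit 59663588732))))) (T.h (T.h (T.h (P (nat_lit 0)) (T.h (P (nat_lit 78074581856)) (T.h (P (nat_lit 0)) (P (nat_lit 456598770088))))) (P (nat_lit 0))) (T.h (T.h (P (nat_lit 0)) (P (nat_lit 59663588732))) (T.h (T.h (T.h (P (nat_lit 0)) (P (nat_lit 687568870648))) (P (nat_lit 0))) (P (nat_lit 0))))))) (P (nat_lit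 0)))) (T.h (T.h (T.h (T.h (P (nat_lit 0)) (T.h (T.h (M (nat_lit 3709197699)) (T.h (P (nat_lit 0)) (T.h (P (nat_lit 38071408256)) (T.h (P (nat_lit 0)) (M (nat_lit 161890884587)))))) (T.h (P (nat_lit 0)) (T.h (T.h (M (nat_lit 12305653007)) (T.h (P (nat_lit 0)) (P (nat_lit 38921297512)))) (T.h (P (nat_lit 0)) (P (nat_lit 97102973100))))))) (T.h (T.h (T.h (P (nat_lit 0)) (T.h (M (nat_lit 9418492275)) (T.h (P (nat_lit 0)) (M (nat_lit 121473797723))))) (T.h (P (nat_lit 0)) (T.h (T.h (P (nat_lit 0)) (P (nat_lit 546448201240))) (P (nat_lit 0))))) (T.h (T.h (P (nat_lit 0)) (T.h (T.h (M (nat_lit 63115333655)) (T.h (P (nat_lit 0)) (P (nat_lit 833604680248)))) (T.h (P (nat_lit 0)) (P (nat_lit 17521680620))))) (T.h (T.h (T.h (P (nat_lit 0)) (P (nat_lit 345232147084))) (P (nat_lit 0))) (T.h (T.h (P (nat_lit 0)) (M (nat_lit 199377879179))) (P (nat_lit 0))))))) (P (nat_lit 0))) (P (nat_lit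 0)))))) en22_2)))

def n22 : T ℤ := en22_3

theorem h_n22 : chkT (c.Nn 2 2) n22 = true := by decide +kernel


end Pool.Agent.TOPR.R6078
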