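import Pool.Agent.TOPR.R6078.Cert

set_option autoImplicit false
set_option linter.all false
set_option maxRecDepth 100000

namespace Pool.Agent.TOPR.R6078

open Helper10.PC hiding V3
open Helper80.CW.DL Pool.Agent.Helper6.TOP

def en01_0 : T ℤ := (T.h (T.h (P (nat_lit 0)) (T.h (P (nat_lit 0)) (T.h (P (nat_lit 0)) (T.h (P (nat_lit 0)) (T.h (T.h (T.h (P (nat_lit 0)) (T.h (T.h (P (nat_lit 0)) (T.h (P (nat_lit 7180643096)) (T.h (P (nat_lit 0)) (M (nat_lit 482275919539))))) (T.h (P (nat_lit 0)) (T.h (T.h (P (nat_lit 0)) (P (nat_lit 610414340440))) (P (nat_lit 0)))))) (T.h (T.h (T.h (P (nat_lit 423657100)) (T.h (P (nat_lit 0)) (T.h (M (nat_lit 19939432887)) (T.h (P (nat_lit 0)) (P (nat_lit 9583184488)))))) (T.h (P (nat_lit 0)) (T.h (T.h (M (nat_lit 19627755311)) (T.h (P (nat_lit 0)) (M (nat_lit 417172206991)))) (T.h (P (nat_lit 0)) (P (nat_lit 323263729668)))))) (T.h (T.h (P (nat_lit 0))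 (T.h (T.h (P (nat_lit 0)) (P (nat_lit 321636038440))) (P (nat_lit 0)))) (T.h (T.h (T.h (P (nat_lit 38471625872)) (T.h (P (nat_lit 0)) (M (nat_lit 718470007631)))) (T.h (P (nat_lit 0)) (P (nat_lit 18813009156)))) (T.h (P (nat_lit 0)) (P (nat_lit 86860055956))))))) (P (nat_lit 0))))))) (T.h (T.h (P (nat_lit 0)) (T.h (P (nat_lit 0)) (T.h (P (nat_lit 0)) (T.h (T.h (T.h (T.h (P (nat_lit 115032456)) (T.h (P (nat_lit 0)) (T.h (P (nat_lit 6490426160)) (T.h (P (nat_lit 0)) (P (nat_lit 143499044316)))))) (T.h (P (nat_lit 0)) (T.h (T.h (M (nat_lit 9038428099)) (T.h (P (nat_lit 0)) (M (nat_lit 2095931551203)))) (T.h (P (nat_lit 0)) (M (nat_lit 36608513771)))))) (T.h (T.h (P (nat_lit 0)) (T.h (T.h (P (nat_lit 0)) (T.h (M (nat_lit 98761786839)) (T.h (P (nat_lit 0)) (P (nat_lit 2458916789020))))) (T.h (P (nat_lit 0)) (T.h (T.h (P (nat_lit 0)) (P (nat_lit 2035066112468))) (P (nat_lit 0)))))) (T.h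 (T.h (T.h (M (nat_lit 13070722171)) (T.h (P (nat_lit 0)) (P (nat_lit 423763725608)))) (T.h (P (nat_lit 0)) (P (nat_lit 467864429808)))) (T.h (T.h (P (nat_lit 0)) (T.h (T.h (P (nat_lit 0)) (M (nat_lit 2601648733171))) (P (nat_lit 0)))) (M (nat_lit 35411774167)))))) (P (nat_lit 0)))))) (T.h (T.h (P (nat_lit 0)) (T.h (P (nat_lit 0)) (T.h (T.h (T.h (P (nat_lit 0)) (T.h (T.h (P (nat_lit 0)) (T.h (P (nat_lit 448387468)) (T.h (P (nat_lit 0)) (P (nat_lit 306666350848))))) (T.h (P (nat_lit 0)) (T.h (T.h (P (nat_lit 0)) (M (nat_lit 29510367307))) (P (nat_lit 0)))))) (T.h (T.h (T.h (M (nat_lit 1274443919)) (T.h (P (nat_lit 0)) (T.h (M (nat_lit 111727826619)) (T.h (P (nat_lit 0)) (P (nat_lit 700864553632)))))) (T.h (P (nat_lit 0)) (T.h (T.h (M (nat_lit 85680514123)) (T.h (P (nat_lit 0)) (P (nat_lit 967196228328)))) (T.h (P (nat_lit 0)) (P (nat_lit 1110380060216)))))) (T.h (T.h (P (nat_lit 0))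 (T.h (T.h (P (nat_lit 0)) (P (nat_lit 847527451216))) (P (nat_lit 0)))) (T.h (T.h (T.h (P (nat_lit 24659565708)) (T.h (P (nat_lit 0)) (P (nat_lit 61068505216)))) (T.h (P (nat_lit 0)) (M (nat_lit 151133218007)))) (T.h (P (nat_lit 0)) (M (nat_lit 212239670903))))))) (P (nat_lit 0))))) (T.h (T.h (P (nat_lit 0)) (T.h (T.h (T.h (T.h (P (nat_lit 53482828)) (T.h (P (nat_lit 0)) (T.h (M (nat_lit 20255278067)) (T.h (P (nat_lit 0)) (P (nat_lit 54018771136)))))) (T.h (P (nat_lit 0)) (T.h (T.h (M (nat_lit 1410339583)) (T.h (P (nat_lit 0)) (M (nat_lit 1612765136163)))) (T.h (P (nat_lit 0)) (P (nat_lit 78735728872)))))) (T.h (T.h (P (nat_lit 0)) (T.h (T.h (P (nat_lit 0)) (T.h (P (nat_lit 68842345120)) (T.h (P (nat_lit 0)) (P (nat_lit 274881022700))))) (T.h (P (nat_lit 0)) (T.h (T.h (P (nat_lit 0)) (M (nat_lit 243502158699))) (P (nat_lit 0)))))) (T.h (T.h (T.h (M (nat_lit 12660767207)) (T.h (P (nat_lit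 0)) (P (nat_lit 38621222428)))) (T.h (P (nat_lit 0)) (M (nat_lit 125273884231)))) (T.h (T.h (P (nat_lit 0)) (T.h (T.h (P (nat_lit 0)) (M (nat_lit 1424075110879))) (P (nat_lit 0)))) (P (nat_lit 43737924348)))))) (P (nat_lit 0)))) (T.h (T.h (T.h (T.h (P (nat_lit 0)) (T.h (T.h (P (nat_lit 0)) (T.h (M (nat_lit 3679955423)) (T.h (P (nat_lit 0)) (P (nat_lit 455827046632))))) (T.h (P (nat_lit 0)) (T.h (T.h (P (nat_lit 0)) (M (nat_lit 280937580087))) (P (nat_lit 0)))))) (T.h (T.h (T.h (P (nat_lit 825943696)) (T.h (P (nat_lit 0)) (T.h (P (nat_lit 4119486348)) (T.h (P (nat_lit 0)) (P (nat_lit 430172615976)))))) (T.h (P (nat_lit 0)) (T.h (T.h (P (nat_lit 27057927720)) (T.h (P (nat_lit 0)) (M (nat_lit 661495296527)))) (T.h (P (nat_lit 0)) (M (nat_lit 217780761235)))))) (T.h (T.h (P (nat_lit 0)) (T.h (T.h (P (nat_lit 0)) (M (nat_lit 211060635655))) (P (nat_lit 0)))) (T.h (T.h (T.h (P (nat_lit 26774569048))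 (T.h (P (nat_lit 0)) (P (nat_lit 73187157720)))) (T.h (P (nat_lit 0)) (P (nat_lit 51394709544)))) (T.h (P (nat_lit 0)) (M (nat_lit 11522233619))))))) (P (nat_lit 0))) (P (nat_lit 0)))))))
def en01_1 : T ℤ := (T.h (T.h (P (nat_lit 0)) (T.h (P (nat_lit 0)) (T.h (P (nat_lit 0)) (T.h (T.h (T.h (T.h (P (nat_lit 0)) (T.h (P (nat_lit 22148192744)) (T.h (P (nat_lit 0)) (T.h (P (nat_lit 62340640576)) (T.h (P (nat_lit 0)) (P (nat_lit 388411892400))))))) (T.h (P (nat_lit 0)) (T.h (T.h (P (nat_lit 0)) (T.h (M (nat_lit 230348505083)) (T.h (P (nat_lit 0)) (P (nat_lit 112885956264))))) (T.h (P (nat_lit 0)) (T.h (T.h (P (nat_lit 0)) (M (nat_lit 722537527535))) (P (nat_lit 0))))))) (T.h (T.h (P (nat_lit 0)) (T.h (T.h (P (nat_lit 39328188496)) (T.h (P (nat_lit 0)) (M (nat_lit 2043008087119)))) (T.h (P (nat_lit 0)) (P (nat_lit 326527922568))))) (T.h (T.h (T.h (P (nat_lit 0)) (T.h (M (nat_lit 230348505083))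 (T.h (P (nat_lit 0)) (P (nat_lit 112885956264))))) (T.h (P (nat_lit 0)) (T.h (T.h (P (nat_lit 0)) (P (nat_lit 3334418720992))) (P (nat_lit 0))))) (T.h (T.h (P (nat_lit 0)) (P (nat_lit 326527922568))) (T.h (T.h (T.h (P (nat_lit 0)) (M (nat_lit 722537527535))) (P (nat_lit 0))) (P (nat_lit 0))))))) (P (nat_lit 0)))))) (T.h (T.h (P (nat_lit 0)) (T.h (P (nat_lit 0)) (T.h (T.h (T.h (P (nat_lit 0)) (T.h (T.h (P (nat_lit 5331881268)) (T.h (P (nat_lit 0)) (T.h (P (nat_lit 124413487016)) (T.h (P (nat_lit 0)) (P (nat_lit 89435233108)))))) (T.h (P (nat_lit 0)) (T.h (T.h (P (nat_lit 87519826792)) (T.h (P (nat_lit 0)) (P (nat_lit 509163811948)))) (T.h (P (nat_lit 0)) (P (nat_lit 291308919300))))))) (T.h (T.h (T.h (P (nat_lit 0)) (T.h (P (nat_lit 4731224796)) (T.h (P (nat_lit 0)) (P (nat_lit 291626063336))))) (T.h (P (nat_lit 0)) (T.h (T.h (P (nat_lit 0)) (M (nat_lit 1323237785811))) (P (nat_lit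 0))))) (T.h (T.h (P (nat_lit 0)) (T.h (T.h (M (nat_lit 86162181615)) (T.h (P (nat_lit 0)) (P (nat_lit 2500814040744)))) (T.h (P (nat_lit 0)) (P (nat_lit 573362662624))))) (T.h (T.h (T.h (P (nat_lit 0)) (P (nat_lit 1172278073140))) (P (nat_lit 0))) (T.h (T.h (P (nat_lit 0)) (P (nat_lit 201896216884))) (P (nat_lit 0))))))) (P (nat_lit 0))))) (T.h (T.h (P (nat_lit 0)) (T.h (T.h (T.h (T.h (P (nat_lit 0)) (T.h (P (nat_lit 15943603932)) (T.h (P (nat_lit 0)) (T.h (P (nat_lit 55172955892)) (T.h (P (nat_lit 0)) (P (nat_lit 566368918688))))))) (T.h (P (nat_lit 0)) (T.h (T.h (P (nat_lit 0)) (T.h (M (nat_lit 16199663239)) (T.h (P (nat_lit 0)) (M (nat_lit 1514275701231))))) (T.h (P (nat_lit 0)) (T.h (T.h (P (nat_lit 0)) (M (nat_lit 1019613743919))) (P (nat_lit 0))))))) (T.h (T.h (P (nat_lit 0)) (T.h (T.h (M (nat_lit 53568021423)) (T.h (P (nat_lit 0)) (M (nat_lit 419345543607)))) (T.h (P (nat_lit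 0)) (P (nat_lit 56557695152))))) (T.h (T.h (T.h (P (nat_lit 0)) (T.h (M (nat_lit 44642083975)) (T.h (P (nat_lit 0)) (M (nat_lit 46884973807))))) (T.h (P (nat_lit 0)) (T.h (T.h (P (nat_lit 0)) (P (nat_lit 1660291401808))) (P (nat_lit 0))))) (T.h (T.h (P (nat_lit 0)) (P (nat_lit 940404105336))) (T.h (T.h (T.h (P (nat_lit 0)) (M (nat_lit 108674188591))) (P (nat_lit 0))) (P (nat_lit 0))))))) (P (nat_lit 0)))) (T.h (T.h (T.h (T.h (P (nat_lit 0)) (T.h (T.h (P (nat_lit 8845141804)) (T.h (P (nat_lit 0)) (T.h (M (nat_lit 25521788955)) (T.h (P (nat_lit 0)) (M (nat_lit 192795543039)))))) (T.h (P (nat_lit 0)) (T.h (T.h (P (nat_lit 28302611976)) (T.h (P (nat_lit 0)) (M (nat_lit 1215918517995)))) (P (nat_lit 0)))))) (T.h (T.h (T.h (P (nat_lit 0)) (T.h (M (nat_lit 978753375)) (T.h (P (nat_lit 0)) (P (nat_lit 112428992928))))) (T.h (P (nat_lit 0)) (T.h (T.h (P (nat_lit 0)) (M (nat_lit 538987624419)))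 (P (nat_lit 0))))) (T.h (T.h (P (nat_lit 0)) (T.h (M (nat_lit 33457804859)) (T.h (P (nat_lit 0)) (M (nat_lit 15745227079))))) (T.h (T.h (T.h (P (nat_lit 0)) (M (nat_lit 25012583799))) (P (nat_lit 0))) (T.h (T.h (P (nat_lit 0)) (M (nat_lit 345722007419))) (P (nat_lit 0))))))) (P (nat_lit 0))) (P (nat_lit 0))))))
def en01_2 : T ℤ := (T.h (T.h (T.h (P (nat_lit 0)) (T.h (P (nat_lit 0)) (T.h (T.h (T.h (P (nat_lit 0)) (T.h (T.h (M (nat_lit 1274443919)) (T.h (P (nat_lit 0)) (T.h (M (nat_lit 111727826619)) (T.h (P (nat_lit 0)) (P (nat_lit 700864553632)))))) (T.h (P (nat_lit 0)) (T.h (T.h (P (nat_lit 24659565708)) (T.h (P (nat_lit 0)) (P (nat_lit 61068505216)))) (T.h (P (nat_lit 0)) (M (nat_lit 212239670903))))))) (T.h (T.h (T.h (P (nat_lit 0)) (T.h (P (nat_lit 448387468)) (T.h (P (nat_lit 0)) (P (nat_lit 306666350848))))) (T.h (P (nat_lit 0)) (T.h (T.h (P (nat_lit 0)) (P (nat_lit 847527451216)))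 (P (nat_lit 0))))) (T.h (T.h (P (nat_lit 0)) (T.h (T.h (M (nat_lit 85680514123)) (T.h (P (nat_lit 0)) (P (nat_lit 967196228328)))) (T.h (P (nat_lit 0)) (M (nat_lit 151133218007))))) (T.h (T.h (T.h (P (nat_lit 0)) (M (nat_lit 29510367307))) (P (nat_lit 0))) (T.h (T.h (P (nat_lit 0)) (P (nat_lit 1110380060216))) (P (nat_lit 0))))))) (P (nat_lit 0))))) (T.h (T.h (P (nat_lit 0)) (T.h (T.h (T.h (T.h (P (nat_lit 0)) (T.h (P (nat_lit 15943603932)) (T.h (P (nat_lit 0)) (T.h (P (nat_lit 55172955892)) (T.h (P (nat_lit 0)) (P (nat_lit 566368918688))))))) (T.h (P (nat_lit 0)) (T.h (T.h (P (nat_lit 0)) (T.h (M (nat_lit 44642083975)) (T.h (P (nat_lit 0)) (M (nat_lit 46884973807))))) (T.h (P (nat_lit 0)) (T.h (T.h (P (nat_lit 0)) (M (nat_lit 108674188591))) (P (nat_lit 0))))))) (T.h (T.h (P (nat_lit 0)) (T.h (T.h (M (nat_lit 53568021423)) (T.h (P (nat_lit 0)) (M (nat_lit 419345543607)))) (T.h (P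 (nat_lit 0)) (P (nat_lit 940404105336))))) (T.h (T.h (T.h (P (nat_lit 0)) (T.h (M (nat_lit 16199663239)) (T.h (P (nat_lit 0)) (M (nat_lit 1514275701231))))) (T.h (P (nat_lit 0)) (T.h (T.h (P (nat_lit 0)) (P (nat_lit 1660291401808))) (P (nat_lit 0))))) (T.h (T.h (P (nat_lit 0)) (P (nat_lit 56557695152))) (T.h (T.h (T.h (P (nat_lit 0)) (M (nat_lit 1019613743919))) (P (nat_lit 0))) (P (nat_lit 0))))))) (P (nat_lit 0)))) (T.h (T.h (T.h (T.h (P (nat_lit 0)) (T.h (T.h (P (nat_lit 11648408680)) (T.h (P (nat_lit 0)) (T.h (M (nat_lit 35399528703)) (T.h (P (nat_lit 0)) (P (nat_lit 750349429940)))))) (T.h (P (nat_lit 0)) (T.h (T.h (M (nat_lit 28909052843)) (T.h (P (nat_lit 0)) (M (nat_lit 453861923023)))) (T.h (P (nat_lit 0)) (P (nat_lit 70150259436))))))) (T.h (T.h (T.h (P (nat_lit 0)) (P (nat_lit 5803873948))) (T.h (P (nat_lit 0)) (T.h (T.h (P (nat_lit 0)) (P (nat_lit 4363864300))) (P (nat_lit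 0))))) (T.h (T.h (P (nat_lit 0)) (T.h (T.h (P (nat_lit 275701998168)) (T.h (P (nat_lit 0)) (M (nat_lit 3277779967911)))) (T.h (P (nat_lit 0)) (M (nat_lit 659407962683))))) (T.h (T.h (T.h (P (nat_lit 0)) (P (nat_lit 231062435016))) (P (nat_lit 0))) (T.h (T.h (P (nat_lit 0)) (M (nat_lit 644420927003))) (P (nat_lit 0))))))) (P (nat_lit 0))) (P (nat_lit 0))))) (T.h (T.h (T.h (P (nat_lit 0)) (T.h (T.h (T.h (T.h (P (nat_lit 53482828)) (T.h (P (nat_lit 0)) (T.h (M (nat_lit 20255278067)) (T.h (P (nat_lit 0)) (P (nat_lit 54018771136)))))) (T.h (P (nat_lit 0)) (T.h (T.h (M (nat_lit 12660767207)) (T.h (P (nat_lit 0)) (P (nat_lit 38621222428)))) (T.h (P (nat_lit 0)) (P (nat_lit 43737924348)))))) (T.h (T.h (P (nat_lit 0)) (T.h (T.h (P (nat_lit 0)) (T.h (P (nat_lit 68842345120)) (T.h (P (nat_lit 0)) (P (nat_lit 274881022700))))) (T.h (P (nat_lit 0)) (T.h (T.h (P (nat_lit 0)) (M (nat_lit 1424075110879)))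 (P (nat_lit 0)))))) (T.h (T.h (T.h (M (nat_lit 1410339583)) (T.h (P (nat_lit 0)) (M (nat_lit 1612765136163)))) (T.h (P (nat_lit 0)) (M (nat_lit 125273884231)))) (T.h (T.h (P (nat_lit 0)) (T.h (T.h (P (nat_lit 0)) (M (nat_lit 243502158699))) (P (nat_lit 0)))) (P (nat_lit 78735728872)))))) (P (nat_lit 0)))) (T.h (T.h (T.h (T.h (P (nat_lit 0)) (T.h (T.h (P (nat_lit 0)) (T.h (M (nat_lit 978753375)) (T.h (P (nat_lit 0)) (P (nat_lit 112428992928))))) (T.h (P (nat_lit 0)) (T.h (T.h (P (nat_lit 0)) (M (nat_lit 25012583799))) (P (nat_lit 0)))))) (T.h (T.h (T.h (P (nat_lit 8845141804)) (T.h (P (nat_lit 0)) (T.h (M (nat_lit 25521788955)) (T.h (P (nat_lit 0)) (M (nat_lit 192795543039)))))) (T.h (P (nat_lit 0)) (T.h (M (nat_lit 33457804859)) (T.h (P (nat_lit 0)) (M (nat_lit 345722007419)))))) (T.h (T.h (P (nat_lit 0)) (T.h (T.h (P (nat_lit 0)) (M (nat_lit 538987624419))) (P (nat_lit 0)))) (T.h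 (T.h (T.h (P (nat_lit 28302611976)) (T.h (P (nat_lit 0)) (M (nat_lit 1215918517995)))) (T.h (P (nat_lit 0)) (M (nat_lit 15745227079)))) (P (nat_lit 0)))))) (P (nat_lit 0))) (P (nat_lit 0)))) (T.h (T.h (T.h (T.h (T.h (P (nat_lit 0)) (T.h (T.h (P (nat_lit 825943696)) (T.h (P (nat_lit 0)) (T.h (P (nat_lit 4119486348)) (T.h (P (nat_lit 0)) (P (nat_lit 430172615976)))))) (T.h (P (nat_lit 0)) (T.h (T.h (P (nat_lit 26774569048)) (T.h (P (nat_lit 0)) (P (nat_lit 73187157720)))) (T.h (P (nat_lit 0)) (M (nat_lit 11522233619))))))) (T.h (T.h (T.h (P (nat_lit 0)) (T.h (M (nat_lit 3679955423)) (T.h (P (nat_lit 0)) (P (nat_lit 455827046632))))) (T.h (P (nat_lit 0)) (T.h (T.h (P (nat_lit 0)) (M (nat_lit 211060635655))) (P (nat_lit 0))))) (T.h (T.h (P (nat_lit 0)) (T.h (T.h (P (nat_lit 27057927720)) (T.h (P (nat_lit 0)) (M (nat_lit 661495296527)))) (T.h (P (nat_lit 0)) (P (nat_lit 51394709544)))))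 (T.h (T.h (T.h (P (nat_lit 0)) (M (nat_lit 280937580087))) (P (nat_lit 0))) (T.h (T.h (P (nat_lit 0)) (M (nat_lit 217780761235))) (P (nat_lit 0))))))) (P (nat_lit 0))) (P (nat_lit 0))) (P (nat_lit 0)))))
def en01_3 : T ℤ := (T.h (T.h (T.h (P (nat_lit 0)) (T.h (P (nat_lit 0)) (T.h (P (nat_lit 0)) (T.h (P (nat_lit 0)) (T.h (T.h (T.h (P (nat_lit 0)) (T.h (T.h (P (nat_lit 423657100)) (T.h (P (nat_lit 0)) (T.h (M (nat_lit 19939432887)) (T.h (P (nat_lit 0)) (P (nat_lit 9583184488)))))) (T.h (P (nat_lit 0)) (T.h (T.h (P (nat_lit 38471625872)) (T.h (P (nat_lit 0)) (M (nat_lit 718470007631)))) (T.h (P (nat_lit 0)) (P (nat_lit 86860055956))))))) (T.h (T.h (T.h (P (nat_lit 0)) (T.h (P (nat_lit 7180643096)) (T.h (P (nat_lit 0)) (M (nat_lit 482275919539))))) (T.h (P (nat_lit 0)) (T.h (T.h (P (nat_lit 0)) (P (nat_lit 321636038440))) (P (nat_lit 0))))) (T.h (T.h (P (nat_lit 0)) (T.h (T.h (M (nat_lit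 19627755311)) (T.h (P (nat_lit 0)) (M (nat_lit 417172206991)))) (T.h (P (nat_lit 0)) (P (nat_lit 18813009156))))) (T.h (T.h (T.h (P (nat_lit 0)) (P (nat_lit 610414340440))) (P (nat_lit 0))) (T.h (T.h (P (nat_lit 0)) (P (nat_lit 323263729668))) (P (nat_lit 0))))))) (P (nat_lit 0))))))) en01_1) (T.h (T.h (T.h (P (nat_lit 0)) (T.h (P (nat_lit 0)) (T.h (P (nat_lit 0)) (T.h (T.h (T.h (T.h (P (nat_lit 115032456)) (T.h (P (nat_lit 0)) (T.h (P (nat_lit 6490426160)) (T.h (P (nat_lit 0)) (P (nat_lit 143499044316)))))) (T.h (P (nat_lit 0)) (T.h (T.h (M (nat_lit 13070722171)) (T.h (P (nat_lit 0)) (P (nat_lit 423763725608)))) (T.h (P (nat_lit 0)) (M (nat_lit 35411774167)))))) (T.h (T.h (P (nat_lit 0)) (T.h (T.h (P (nat_lit 0)) (T.h (M (nat_lit 98761786839)) (T.h (P (nat_lit 0)) (P (nat_lit 2458916789020))))) (T.h (P (nat_lit 0)) (T.h (T.h (P (nat_lit 0)) (M (nat_lit 2601648733171))) (P (nat_lit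 0)))))) (T.h (T.h (T.h (M (nat_lit 9038428099)) (T.h (P (nat_lit 0)) (M (nat_lit 2095931551203)))) (T.h (P (nat_lit 0)) (P (nat_lit 467864429808)))) (T.h (T.h (P (nat_lit 0)) (T.h (T.h (P (nat_lit 0)) (P (nat_lit 2035066112468))) (P (nat_lit 0)))) (M (nat_lit 36608513771)))))) (P (nat_lit 0)))))) (T.h (T.h (P (nat_lit 0)) (T.h (P (nat_lit 0)) (T.h (T.h (T.h (P (nat_lit 0)) (T.h (T.h (P (nat_lit 0)) (T.h (P (nat_lit 4731224796)) (T.h (P (nat_lit 0)) (P (nat_lit 291626063336))))) (T.h (P (nat_lit 0)) (T.h (T.h (P (nat_lit 0)) (P (nat_lit 1172278073140))) (P (nat_lit 0)))))) (T.h (T.h (T.h (P (nat_lit 5331881268)) (T.h (P (nat_lit 0)) (T.h (P (nat_lit 124413487016)) (T.h (P (nat_lit 0)) (P (nat_lit 89435233108)))))) (T.h (P (nat_lit 0)) (T.h (T.h (M (nat_lit 86162181615)) (T.h (P (nat_lit 0)) (P (nat_lit 2500814040744)))) (T.h (P (nat_lit 0)) (P (nat_lit 201896216884)))))) (T.h (T.h (P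 (nat_lit 0)) (T.h (T.h (P (nat_lit 0)) (M (nat_lit 1323237785811))) (P (nat_lit 0)))) (T.h (T.h (T.h (P (nat_lit 87519826792)) (T.h (P (nat_lit 0)) (P (nat_lit 509163811948)))) (T.h (P (nat_lit 0)) (P (nat_lit 573362662624)))) (T.h (P (nat_lit 0)) (P (nat_lit 291308919300))))))) (P (nat_lit 0))))) (T.h (T.h (P (nat_lit 0)) (T.h (T.h (T.h (T.h (P (nat_lit 499284192)) (T.h (P (nat_lit 0)) (T.h (M (nat_lit 45437631407)) (T.h (P (nat_lit 0)) (P (nat_lit 269694936560)))))) (T.h (P (nat_lit 0)) (T.h (T.h (P (nat_lit 2072218872)) (T.h (P (nat_lit 0)) (P (nat_lit 44029357744)))) (T.h (P (nat_lit 0)) (P (nat_lit 634931913112)))))) (T.h (T.h (P (nat_lit 0)) (T.h (T.h (P (nat_lit 0)) (T.h (P (nat_lit 537437579856)) (T.h (P (nat_lit 0)) (M (nat_lit 1159908329495))))) (T.h (P (nat_lit 0)) (T.h (T.h (P (nat_lit 0)) (M (nat_lit 3707491107527))) (P (nat_lit 0)))))) (T.h (T.h (T.h (P (nat_lit 2072218872))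 (T.h (P (nat_lit 0)) (P (nat_lit 44029357744)))) (T.h (P (nat_lit 0)) (M (nat_lit 2010738509567)))) (T.h (T.h (P (nat_lit 0)) (T.h (T.h (P (nat_lit 0)) (M (nat_lit 3707491107527))) (P (nat_lit 0)))) (P (nat_lit 634931913112)))))) (P (nat_lit 0)))) (T.h (T.h (T.h (T.h (P (nat_lit 0)) (T.h (T.h (P (nat_lit 0)) (P (nat_lit 5803873948))) (T.h (P (nat_lit 0)) (T.h (T.h (P (nat_lit 0)) (P (nat_lit 231062435016))) (P (nat_lit 0)))))) (T.h (T.h (T.h (P (nat_lit 11648408680)) (T.h (P (nat_lit 0)) (T.h (M (nat_lit 35399528703)) (T.h (P (nat_lit 0)) (P (nat_lit 750349429940)))))) (T.h (P (nat_lit 0)) (T.h (T.h (P (nat_lit 275701998168)) (T.h (P (nat_lit 0)) (M (nat_lit 3277779967911)))) (T.h (P (nat_lit 0)) (M (nat_lit 644420927003)))))) (T.h (T.h (P (nat_lit 0)) (T.h (T.h (P (nat_lit 0)) (P (nat_lit 4363864300))) (P (nat_lit 0)))) (T.h (T.h (T.h (M (nat_lit 28909052843)) (T.h (P (nat_lit 0))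 (M (nat_lit 453861923023)))) (T.h (P (nat_lit 0)) (M (nat_lit 659407962683)))) (T.h (P (nat_lit 0)) (P (nat_lit 70150259436))))))) (P (nat_lit 0))) (P (nat_lit 0)))))) en01_2))

def n01 : T ℤ := (T.h (T.h (T.h (P (nat_lit 0)) (T.h (P (nat_lit 0)) (T.h (P (nat_lit 0)) (T.h (P (nat_lit 0)) (T.h (P (nat_lit 0)) (T.h (T.h (T.h (T.h (P (nat_lit 104913112)) (T.h (P (nat_lit 0)) (T.h (M (nat_lit 2546628655)) (T.h (P (nat_lit 0)) (P (nat_lit 27969897904)))))) (T.h (P (nat_lit 0)) (T.h (T.h (M (nat_lit 297140659)) (T.h (P (nat_lit 0)) (P (nat_lit 91142453164)))) (T.h (P (nat_lit 0)) (M (nat_lit 17440657063)))))) (T.h (T.h (P (nat_lit 0)) (T.h (T.h (P (nat_lit 0)) (T.h (M (nat_lit 953499407)) (T.h (P (nat_lit 0)) (M (nat_lit 97400863479))))) (T.h (P (nat_lit 0)) (T.h (T.h (P (nat_lit 0)) (M (nat_lit 229838817635))) (P (nat_lit 0)))))) (T.h (T.h (T.h (M (nat_lit 297140659)) (T.h (P (nat_lit 0))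 (P (nat_lit 91142453164)))) (T.h (P (nat_lit 0)) (M (nat_lit 46105692039)))) (T.h (T.h (P (nat_lit 0)) (T.h (T.h (P (nat_lit 0)) (M (nat_lit 229838817635))) (P (nat_lit 0)))) (M (nat_lit 17440657063)))))) (P (nat_lit 0)))))))) en01_0) en01_3)

theorem h_n01 : chkT (c.Nn 0 1 ++ c.Nn 1 0) n01 = true := by decide +kernel


end Pool.Agent.TOPR.R6078
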