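import Pool.Agent.TOPR.R6078.Bas
import Pool.Agent.TOPR.R6078.Lit

set_option autoImplicit false
set_option linter.all false
set_option maxRecDepth 100000

namespace Pool.Agent.TOPR.R6078

open Helper10.PC hiding V3
open Helper80.CW.DL Pool.Agent.Helper6.TOP

theorem k_Qm : chkE mu dp (eQm (Int.add c.M c.N) t0 t1 t2 (eTN n00 n11 n22 n01 n02 n12)) AL CQm = true := by decide +kernel

theorem v_Qm (u p : Helper80.CW.DL.V3) : valZ AL CQm u.1 u.2.1 u.2.2 (fun i => (2 : ℝ) ^ mu * pfv p i) =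
    (2 : ℝ) ^ (mu * dp) * vl c.Qm u p := by
  rw [bas.qm]
  exact chkE_sound k_Qm u p


end Pool.Agent.TOPR.R6078
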