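import Pool.Agent.TOPR.R6078.VQp
import Pool.Agent.TOPR.R6078.VQm
import Pool.Agent.TOPR.R6078.VP11
import Pool.Agent.TOPR.R6078.VP12
import Pool.Agent.TOPR.R6078.VP22

set_option autoImplicit false
set_option linter.all false
set_option maxRecDepth 100000

namespace Pool.Agent.TOPR.R6078

open Helper10.PC hiding V3
open Helper80.CW.DL Pool.Agent.Helper6.TOP

theorem deg_ok : degOK Kd AL = true := by decide +kernel


end Pool.Agent.TOPR.R6078
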